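import Pool.Agent.Work.MP_904812_al.Tree

/-! Directions, hulls and branch points. -/

namespace Pool.Agent.Work.MP_904812_al

set_option linter.unusedSectionVars false

variable {Λ : Type*} [AddCommGroup Λ] [LinearOrder Λ] [IsOrderedAddMonoid Λ] {X : Type*}
variable {d : X → X → Λ}

/-- `q` and `q'` lie in the same direction from `p` -/
def Sd (d : X → X → Λ) (p q q' : X) : Prop := d q q' < d q p + d p q'

namespace Tr

theorem pos (h : Tr d) {x y : X} (hxy : x ≠ y) : 0 < d x y :=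
  lt_of_le_of_ne (h.nonneg x y) fun e => hxy (h.eq_of e.symm)

theorem bt_left (h : Tr d) (x y : X) : Bt d x x y := by simp [Bt, h.self]

theorem bt_right (h : Tr d) (x y : X) : Bt d x y y := by simp [Bt, h.self]

theorem bt_symm (h : Tr d) {x p y : X} (a : Bt d x p y) : Bt d y p x := by
  have := h.symm x p
  have := h.symm p y
  have := h.symm x y
  simp only [Bt] at *; grind

theorem bt_le (h : Tr d) {x p y : X} (a : Bt d x p y) : d x p ≤ d x y := by
  have := h.nonneg p y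
  simp only [Bt] at *; grind

theorem bt_uniq (h : Tr d) {x p q y : X} (a : Bt d x p y) (b : Bt d x q y)
    (e : d x p = d x q) : p = q := by
  apply h.eq_of
  rw [h.bt_dist a b, e]; simp

theorem bt_of_le (h : Tr d) {x p q y : X} (a : Bt d x p y) (b : Bt d x q y)
    (e : d x p ≤ d x q) : Bt d x p q ∧ Bt d p q y := by
  have := h.bt_dist a b
  simp only [Bt] at *; grind

theorem bt_trans (h : Tr d) {x p q y : X} (a : Bt d x p q) (b : Bt d x q y) :
    Bt d x p y ∧ Bt d p q y := by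
  have := h.tri x p y
  have := h.tri p q y
  simp only [Bt] at *; grind

theorem bt_trans' (h : Tr d) {x p q y : X} (a : Bt d x p y) (b : Bt d p q y) :
    Bt d x p q ∧ Bt d x q y := by
  have := h.tri x p q
  have := h.tri x q y
  simp only [Bt] at *; grind

theorem bt_split (h : Tr d) {u q v : X} (a : Bt d u q v) (p : X) :
    Bt d p q u ∨ Bt d p q v := by
  have := h.four p q u v
  have := h.tri p q u
  have := h.tri p q v
  have := h.symm q u
  simp only [Bt] at *; grind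

theorem bt_conv (h : Tr d) {u v p q z : X} (a : Bt d u p v) (b : Bt d u q v)
    (c : Bt d p z q) : Bt d u z v := by
  have := h.bt_dist a b
  have := h.tri u z v
  have := h.tri u p z
  have := h.tri u q z
  have := h.tri z q v
  have := h.tri z p v
  have := h.symm z q
  have := h.symm z p
  simp only [Bt] at *; grind

theorem ex_bt (h : Tr d) (x y : X) {t : Λ} (h0 : 0 ≤ t) (h1 : t ≤ d x y) :
    ∃ p, Bt d x p y ∧ d x p = t := by
  obtain ⟨p, a, b⟩ := h.ex_pt x y t h0 h1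
  exact ⟨p, b, a⟩

theorem med' (h : Tr d) (x y z : X) : ∃ m, Bt d x m y ∧ Bt d x m z ∧ Bt d y m z := h.med x y z

theorem not_sd_iff (h : Tr d) {p q q' : X} : ¬ Sd d p q q' ↔ Bt d q p q' := by
  have := h.tri q p q'
  simp only [Bt, Sd]; grind

theorem sd_symm (h : Tr d) {p q q' : X} (a : Sd d p q q') : Sd d p q' q := by
  have := h.symm q q'
  have := h.symm q p
  have := h.symm p q'
  simp only [Sd] at *; grind

theorem sd_trans (h : Tr d) {p q r s : X} (a : Sd d p q r) (b : Sd d p r s) : Sd d p q s := by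
  have := h.four q s p r
  have := h.symm s r
  have := h.symm s p
  have := h.symm r p
  simp only [Sd] at *; grind

theorem sd_refl (h : Tr d) {p q : X} (a : p ≠ q) : Sd d p q q := by
  have := h.pos a
  have := h.self q
  have := h.symm p q
  simp only [Sd] at *; grind

theorem sd_ne (h : Tr d) {p q q' : X} (a : Sd d p q q') : p ≠ q := by
  rintro rfl
  have := h.self p
  simp only [Sd] at *; grind

theorem sd_of_bt (h : Tr d) {p q q' : X} (a : Bt d p q q') (b : p ≠ q) : Sd d p q q' := by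
  have := h.pos b
  have := h.symm p q
  simp only [Sd, Bt] at *; grind

theorem sd_med (h : Tr d) {p q q' : X} (a : Sd d p q q') :
    ∃ m, p ≠ m ∧ Bt d p m q ∧ Bt d p m q' := by
  obtain ⟨m, a1, a2, a3⟩ := h.med' p q q'
  refine ⟨m, ?_, a1, a2⟩
  rintro rfl
  exact h.not_sd_iff.2 a3 a

end Tr

/-- the subtree spanned by `F` -/
def Hull (d : X → X → Λ) (F : Finset X) : Set X := {p | ∃ u ∈ F, ∃ v ∈ F, Bt d u p v}

namespace Tr

theorem mem_hull (h : Tr d) {F : Finset X} {p : X} (hp : p ∈ F) : p ∈ Hull d F :=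
  ⟨p, hp, p, hp, h.bt_left p p⟩

theorem hull_ext (h : Tr d) {F : Finset X} {q : X} (hq : q ∈ Hull d F) (p : X) :
    ∃ f ∈ F, Bt d p q f := by
  obtain ⟨u, hu, v, hv, a⟩ := hq
  rcases h.bt_split a p with b | b
  · exact ⟨u, hu, b⟩
  · exact ⟨v, hv, b⟩

theorem hull_conv (h : Tr d) {F : Finset X} {p q z : X} (hp : p ∈ Hull d F) (hq : q ∈ Hull d F)
    (a : Bt d p z q) : z ∈ Hull d F := by
  obtain ⟨f, hf, b⟩ := h.hull_ext hq p
  obtain ⟨f', hf', c⟩ := h.hull_ext hp f
  have e := (h.bt_trans a b).1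
  exact ⟨f, hf, f', hf', (h.bt_trans (h.bt_symm e) c).1⟩

end Tr

/-- branch points of the hull -/
def Br (d : X → X → Λ) (F : Finset X) (c : X) : Prop :=
  ∃ q₁ ∈ Hull d F, ∃ q₂ ∈ Hull d F, ∃ q₃ ∈ Hull d F, c ≠ q₁ ∧ c ≠ q₂ ∧ c ≠ q₃ ∧
    Bt d q₁ c q₂ ∧ Bt d q₁ c q₃ ∧ Bt d q₂ c q₃

theorem Tr.br_hull (h : Tr d) {F : Finset X} {c : X} (hc : Br d F c) : c ∈ Hull d F := by
  obtain ⟨q₁, h₁, q₂, h₂, -, -, -, -, -, a, -, -⟩ := hc
  exact h.hull_conv h₁ h₂ a

theorem Tr.br_finite (h : Tr d) (F : Finset X) : {c | Br d F c}.Finite := by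
  classical
  choose m hm using h.med'
  refine Set.Finite.subset
    (Finset.finite_toSet ((F ×ˢ F ×ˢ F).image fun t => m t.1 t.2.1 t.2.2)) ?_
  rintro c ⟨q₁, h₁, q₂, h₂, q₃, h₃, n₁, n₂, n₃, a₁, a₂, a₃⟩
  obtain ⟨f₁, g₁, b₁⟩ := h.hull_ext h₁ c
  obtain ⟨f₂, g₂, b₂⟩ := h.hull_ext h₂ c
  obtain ⟨f₃, g₃, b₃⟩ := h.hull_ext h₃ c
  have key : ∀ {q q' f f' : X}, c ≠ q → c ≠ q' → Bt d q c q' → Bt d c q f → Bt d c q' f' →
      Bt d f c f' := by
    intro q q' f f' n n' a b b'
    rw [← h.not_sd_iff] at a ⊢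
    intro e
    exact a (h.sd_trans (h.sd_trans (h.sd_of_bt b n) e) (h.sd_symm (h.sd_of_bt b' n')))
  have c₁ := key n₁ n₂ a₁ b₁ b₂
  have c₂ := key n₁ n₃ a₂ b₁ b₃
  have c₃ := key n₂ n₃ a₃ b₂ b₃
  obtain ⟨e₁, e₂, e₃⟩ := hm f₁ f₂ f₃
  have : c = m f₁ f₂ f₃ := by
    apply h.bt_uniq c₁ e₁
    have := h.symm f₂ c
    have := h.symm f₂ (m f₁ f₂ f₃)
    simp only [Bt] at *; grind
  simp only [Finset.coe_image, Set.mem_image, Finset.mem_coe, Finset.mem_product]
  exact ⟨(f₁, f₂, f₃), ⟨g₁, g₂, g₃⟩, this.symm⟩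

/-- the median of three points of the hull is one of them or a branch point -/
theorem Tr.med_cases (h : Tr d) {F : Finset X} {x y z m : X} (hx : x ∈ Hull d F)
    (hy : y ∈ Hull d F) (hz : z ∈ Hull d F) (a : Bt d x m y) (b : Bt d x m z) (c : Bt d y m z) :
    m = x ∨ m = y ∨ m = z ∨ Br d F m := by
  by_cases e1 : m = x
  · exact Or.inl e1
  by_cases e2 : m = y
  · exact Or.inr (Or.inl e2)
  by_cases e3 : m = z
  · exact Or.inr (Or.inr (Or.inl e3))
  exact Or.inr (Or.inr (Or.inr ⟨x, hx, y, hy, z, hz, e1, e2, e3, a, b, c⟩))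

/-- a free isometric action on a tree -/
structure Act (G : Type*) [Group G] [MulAction G X] (d : X → X → Λ) : Prop where
  tr : Tr d
  iso : ∀ (g : G) x y, d (g • x) (g • y) = d x y
  free : ∀ (g : G) (x : X), g • x = x → g = 1

variable {G : Type*} [Group G] [MulAction G X]

theorem Act.bt (h : Act G d) (g : G) {x p y : X} (a : Bt d x p y) :
    Bt d (g • x) (g • p) (g • y) := by
  simp only [Bt, h.iso] at *; exact a

theorem Act.bt_iff (h : Act G d) (g : G) {x p y : X} :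
    Bt d (g • x) (g • p) (g • y) ↔ Bt d x p y := by
  simp only [Bt, h.iso]

theorem Act.sd_iff (h : Act G d) (g : G) {x p y : X} :
    Sd d (g • x) (g • p) (g • y) ↔ Sd d x p y := by
  simp only [Sd, h.iso]

theorem Act.eq_of_smul (h : Act G d) {g g' : G} {x : X} (e : g • x = g' • x) : g = g' := by
  have : (g'⁻¹ * g) • x = x := by rw [mul_smul, e, inv_smul_smul]
  have := h.free _ _ this
  exact (inv_mul_eq_one.1 this).symm

end Pool.Agent.Work.MP_904812_al
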