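import Mathlib

/-!
Definitions for group actions on `Λ`-trees, following the problem file.
-/

namespace Pool.Agent.Work.MP_904812_al

universe u

variable {Λ : Type*} [AddCommGroup Λ] [LinearOrder Λ] {X : Type*}

/-- `d` is a `Λ`-valued metric on `X`. -/
structure IsLMetric (d : X → X → Λ) : Prop where
  nonneg : ∀ x y, 0 ≤ d x y
  eq_zero_iff : ∀ x y, d x y = 0 ↔ x = y
  symm : ∀ x y, d x y = d y x
  triangle : ∀ x y z, d x z ≤ d x y + d y z

/-- `S` is a segment from `x` to `y`: the image of an isometric embedding of the interval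
`[0, d x y]` of `Λ` sending `0` to `x` and `d x y` to `y`. -/
def IsSegment (d : X → X → Λ) (x y : X) (S : Set X) : Prop :=
  ∃ α : Λ → X, α 0 = x ∧ α (d x y) = y ∧
    (∀ s ∈ Set.Icc 0 (d x y), ∀ t ∈ Set.Icc 0 (d x y), d (α s) (α t) = |s - t|) ∧
    S = α '' Set.Icc 0 (d x y)

/-- `(X, d)` is a (nonempty) `Λ`-tree. -/
structure IsLTree (d : X → X → Λ) : Prop where
  metric : IsLMetric d
  nonempty : Nonempty X
  geodesic : ∀ x y, ∃ S, IsSegment d x y S
  inter : ∀ x y z S S', IsSegment d x y S → IsSegment d x z S' →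
    ∃ u v, IsSegment d u v (S ∩ S')
  union : ∀ x y z S S', IsSegment d x y S → IsSegment d x z S' → S ∩ S' = {x} →
    ∃ u v, IsSegment d u v (S ∪ S')

/-- The action of `G` on `(X, d)` is by isometries, no nontrivial element fixes a point, and no
element is an inversion (an isometry without fixed point whose square has a fixed point). -/
structure ActsFreely (G : Type*) [Group G] [MulAction G X] (d : X → X → Λ) : Prop where
  isometry : ∀ (g : G) x y, d (g • x) (g • y) = d x y
  no_fixed_point : ∀ g : G, g ≠ 1 → ∀ x : X, g • x ≠ x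
  no_inversion : ∀ g : G, (∀ x : X, g • x ≠ x) → ∀ x : X, g • g • x ≠ x

/-- `G` acts freely on some `Λ`-tree. -/
def IsLFree (G : Type u) [Group G] (Λ : Type*) [AddCommGroup Λ] [LinearOrder Λ] : Prop :=
  ∃ (X : Type u) (_ : MulAction G X) (d : X → X → Λ), IsLTree d ∧ ActsFreely G d

end Pool.Agent.Work.MP_904812_al
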