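import Mathlib

/-!
Word length and word-hyperbolic groups.
-/

namespace Pool.Agent.Work.MP_904812_al

/-- The word length of `g` with respect to `S`: the least length of a word in the elements of `S`
and their inverses whose product is `g`. -/
noncomputable def wlen {D : Type*} [Group D] (S : Set D) (g : D) : ℕ :=
  sInf {n | ∃ l : List D, l.length = n ∧ (∀ s ∈ l, s ∈ S ∨ s⁻¹ ∈ S) ∧ l.prod = g}

/-- `D` is word-hyperbolic: it has a finite generating set whose word metric
`d x y = wlen S (x⁻¹ * y)` satisfies Gromov's four point condition with some constant `δ`. -/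
def IsHyperbolic (D : Type*) [Group D] : Prop :=
  ∃ S : Finset D, Subgroup.closure (S : Set D) = ⊤ ∧ ∃ δ : ℕ, ∀ x y z w : D,
    wlen (S : Set D) (x⁻¹ * y) + wlen (S : Set D) (z⁻¹ * w) ≤
      max (wlen (S : Set D) (x⁻¹ * z) + wlen (S : Set D) (y⁻¹ * w))
        (wlen (S : Set D) (x⁻¹ * w) + wlen (S : Set D) (y⁻¹ * z)) + δ

end Pool.Agent.Work.MP_904812_al
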