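import Pool.Agent.Work.MP_904812_al.Geom
import Mathlib

-- merged part: Pool.Agent.Work.MP_904812_al.Count
section
/-! Counting classes of finite sets under generated equivalence relations. -/

namespace Pool.Agent.Work.MP_904812_al

set_option linter.unusedSectionVars false

open Relation

section ncls
variable {α : Type*}

open Classical in
/-- number of classes met by a finite set -/
noncomputable def ncls (ρ : α → α → Prop) (A : Finset α) : ℕ := (A.image (Quot.mk ρ)).card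

theorem mk_eq_iff {ρ : α → α → Prop} {a b : α} : Quot.mk ρ a = Quot.mk ρ b ↔ EqvGen ρ a b :=
  ⟨Quot.eqvGen_exact, Quot.eqvGen_sound⟩

theorem eqv_mono {ρ ρ' : α → α → Prop} (h : ∀ a b, ρ a b → EqvGen ρ' a b) {a b : α}
    (e : EqvGen ρ a b) : EqvGen ρ' a b := by
  induction e with
  | rel a b r => exact h a b r
  | refl a => exact EqvGen.refl a
  | symm a b _ ih => exact EqvGen.symm _ _ ih
  | trans a b c _ _ ih1 ih2 => exact EqvGen.trans _ _ _ ih1 ih2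

/-- comparison through a map of representatives -/
theorem ncls_le_of {ρ ρ' : α → α → Prop} {A B : Finset α}
    (h : ∀ a ∈ A, ∃ b ∈ B, EqvGen ρ a b)
    (h2 : ∀ b ∈ B, ∀ b' ∈ B, EqvGen ρ' b b' → EqvGen ρ b b') : ncls ρ A ≤ ncls ρ' B := by
  classical
  let f : Quot ρ' → Option (Quot ρ) := fun q =>
    if hq : ∃ b ∈ B, Quot.mk ρ' b = q then some (Quot.mk ρ hq.choose) else none
  have hf : ∀ b ∈ B, f (Quot.mk ρ' b) = some (Quot.mk ρ b) := by
    intro b hb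
    have hq : ∃ b' ∈ B, Quot.mk ρ' b' = Quot.mk ρ' b := ⟨b, hb, rfl⟩
    simp only [f, dif_pos hq]
    congr 1
    exact mk_eq_iff.2 (h2 _ hq.choose_spec.1 _ hb (mk_eq_iff.1 hq.choose_spec.2))
  have : (A.image (Quot.mk ρ)).image some ⊆ (B.image (Quot.mk ρ')).image f := by
    intro q hq
    simp only [Finset.mem_image] at hq ⊢
    obtain ⟨_, ⟨a, ha, rfl⟩, rfl⟩ := hq
    obtain ⟨b, hb, e⟩ := h a ha
    exact ⟨_, ⟨b, hb, rfl⟩, by rw [hf b hb, mk_eq_iff.2 e]⟩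
  have h1 := Finset.card_le_card this
  rw [Finset.card_image_of_injective _ (Option.some_injective _)] at h1
  have h3 : ((B.image (Quot.mk ρ')).image f).card ≤ (B.image (Quot.mk ρ')).card :=
    Finset.card_image_le
  unfold ncls
  exact h1.trans h3

theorem ncls_mono_rel {ρ ρ' : α → α → Prop} (h : ∀ a b, ρ a b → EqvGen ρ' a b) (A : Finset α) :
    ncls ρ' A ≤ ncls ρ A :=
  ncls_le_of (fun a ha => ⟨a, ha, EqvGen.refl a⟩) fun _ _ _ _ e => eqv_mono h e

theorem ncls_mono_set (ρ : α → α → Prop) {A B : Finset α} (h : A ⊆ B) : ncls ρ A ≤ ncls ρ B :=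
  ncls_le_of (fun a ha => ⟨a, h ha, EqvGen.refl a⟩) fun _ _ _ _ e => e

theorem ncls_le_card (ρ : α → α → Prop) (A : Finset α) : ncls ρ A ≤ A.card := by
  classical
  unfold ncls
  exact Finset.card_image_le

open Classical in
theorem ncls_insert (ρ : α → α → Prop) (A : Finset α) (a : α) :
    ncls ρ (insert a A) ≤ ncls ρ A + 1 := by
  unfold ncls
  rw [Finset.image_insert]
  exact Finset.card_insert_le _ _

open Classical in
theorem ncls_insert_new {ρ : α → α → Prop} {A : Finset α} {a : α}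
    (h : ∀ b ∈ A, ¬ EqvGen ρ a b) : ncls ρ (insert a A) = ncls ρ A + 1 := by
  unfold ncls
  rw [Finset.image_insert, Finset.card_insert_of_notMem]
  simp only [Finset.mem_image, not_exists, not_and]
  intro b hb e
  exact h b hb (mk_eq_iff.1 e.symm)

/-- add one pair to a relation -/
def addp (ρ : α → α → Prop) (u v : α) (a b : α) : Prop := ρ a b ∨ (a = u ∧ b = v)

theorem eqv_addp {ρ : α → α → Prop} {u v a b : α} (e : EqvGen (addp ρ u v) a b) :
    EqvGen ρ a b ∨ (EqvGen ρ a u ∧ EqvGen ρ v b) ∨ (EqvGen ρ a v ∧ EqvGen ρ u b) := by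
  induction e with
  | rel a b r =>
    rcases r with r | ⟨rfl, rfl⟩
    · exact Or.inl (EqvGen.rel _ _ r)
    · exact Or.inr (Or.inl ⟨EqvGen.refl _, EqvGen.refl _⟩)
  | refl a => exact Or.inl (EqvGen.refl a)
  | symm a b _ ih =>
    rcases ih with r | ⟨r, s⟩ | ⟨r, s⟩
    · exact Or.inl (r.symm _ _)
    · exact Or.inr (Or.inr ⟨s.symm _ _, r.symm _ _⟩)
    · exact Or.inr (Or.inl ⟨s.symm _ _, r.symm _ _⟩)
  | trans a b c _ _ ih1 ih2 =>
    rcases ih1 with r | ⟨r, s⟩ | ⟨r, s⟩ <;> rcases ih2 with r' | ⟨r', s'⟩ | ⟨r', s'⟩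
    · exact Or.inl (r.trans _ _ _ r')
    · exact Or.inr (Or.inl ⟨r.trans _ _ _ r', s'⟩)
    · exact Or.inr (Or.inr ⟨r.trans _ _ _ r', s'⟩)
    · exact Or.inr (Or.inl ⟨r, s.trans _ _ _ r'⟩)
    · exact Or.inr (Or.inl ⟨r, s'⟩)
    · exact Or.inl (r.trans _ _ _ s')
    · exact Or.inr (Or.inr ⟨r, s.trans _ _ _ r'⟩)
    · exact Or.inl (r.trans _ _ _ s')
    · exact Or.inr (Or.inr ⟨r, s'⟩)

theorem eqv_le_addp {ρ : α → α → Prop} {u v a b : α} (e : EqvGen ρ a b) :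
    EqvGen (addp ρ u v) a b :=
  eqv_mono (fun _ _ r => EqvGen.rel _ _ (Or.inl r)) e

theorem eqv_addp_self (ρ : α → α → Prop) (u v : α) : EqvGen (addp ρ u v) u v :=
  EqvGen.rel _ _ (Or.inr ⟨rfl, rfl⟩)

theorem eqv_addp_red {ρ : α → α → Prop} {u v a b : α} (h : EqvGen ρ u v)
    (e : EqvGen (addp ρ u v) a b) : EqvGen ρ a b :=
  eqv_mono (fun _ _ r => by
    rcases r with r | ⟨rfl, rfl⟩
    · exact EqvGen.rel _ _ r
    · exact h) e

theorem ncls_addp_ge (ρ : α → α → Prop) (u v : α) (A : Finset α) :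
    ncls ρ A ≤ ncls (addp ρ u v) A + 1 := by
  classical
  let B := A.filter fun a => ¬ EqvGen ρ a u
  have h1 : ncls ρ A ≤ ncls ρ (insert u B) := by
    refine ncls_le_of (fun a ha => ?_) fun _ _ _ _ e => e
    by_cases e : EqvGen ρ a u
    · exact ⟨u, Finset.mem_insert_self _ _, e⟩
    · exact ⟨a, Finset.mem_insert_of_mem (Finset.mem_filter.2 ⟨ha, e⟩), EqvGen.refl a⟩
  have h2 := ncls_insert ρ B u
  have h3 : ncls ρ B ≤ ncls (addp ρ u v) B := by
    refine ncls_le_of (fun a ha => ⟨a, ha, EqvGen.refl a⟩) fun b hb b' hb' e => ?_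
    rcases eqv_addp e with r | ⟨r, -⟩ | ⟨-, r⟩
    · exact r
    · exact absurd r (Finset.mem_filter.1 hb).2
    · exact absurd (r.symm _ _) (Finset.mem_filter.1 hb').2
  have h4 : ncls (addp ρ u v) B ≤ ncls (addp ρ u v) A :=
    ncls_mono_set (addp ρ u v) (Finset.filter_subset (fun a => ¬ EqvGen ρ a u) A)
  have h5 : ncls ρ (@insert α (Finset α) (@Finset.instInsert α fun a b => Classical.propDecidable (a = b)) u B) ≤ ncls ρ B + 1 := h2
  have h6 : ncls ρ (insert u B) ≤ ncls ρ B + 1 := by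
    refine le_trans (ncls_mono_set ρ ?_) h5
    intro a ha
    simpa using ha
  omega

theorem ncls_addp_lt {ρ : α → α → Prop} {u v : α} {A : Finset α} (hu : u ∈ A) (hv : v ∈ A)
    (h : ¬ EqvGen ρ u v) : ncls (addp ρ u v) A + 1 ≤ ncls ρ A := by
  classical
  let B := A.filter fun a => ¬ EqvGen ρ a u
  have h1 : ncls (addp ρ u v) A ≤ ncls ρ B := by
    refine ncls_le_of (fun a ha => ?_) fun _ _ _ _ e => eqv_le_addp e
    by_cases e : EqvGen ρ a u
    · exact ⟨v, Finset.mem_filter.2 ⟨hv, fun e' => h (e'.symm _ _)⟩,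
        (eqv_le_addp e).trans _ _ _ (eqv_addp_self ρ u v)⟩
    · exact ⟨a, Finset.mem_filter.2 ⟨ha, e⟩, EqvGen.refl a⟩
  have h2 := ncls_insert_new (ρ := ρ) (A := B) (a := u)
    (fun b hb e => (Finset.mem_filter.1 hb).2 (e.symm _ _))
  have h3 : ncls ρ (@insert α (Finset α) (@Finset.instInsert α fun a b => Classical.propDecidable (a = b)) u B) ≤ ncls ρ A := by
    refine ncls_mono_set ρ ?_
    intro a ha
    simp only [Finset.mem_insert] at ha
    rcases ha with rfl | ha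
    · exact hu
    · exact (Finset.mem_filter.1 ha).1
  omega

/-- finite support of a derivation -/
theorem eqv_finsupp {ρ : α → α → Prop} {A : Set α} {f : α → α} {p p' : α}
    (e : EqvGen (fun a b => ρ a b ∨ (a ∈ A ∧ b = f a)) p p') :
    ∃ W : Finset α, (∀ w ∈ W, w ∈ A) ∧ EqvGen (fun a b => ρ a b ∨ (a ∈ W ∧ b = f a)) p p' ∧
      ∀ w ∈ W, EqvGen (fun a b => ρ a b ∨ (a ∈ W ∧ b = f a)) w p := by
  classical
  induction e with
  | rel a b r =>
    rcases r with r | ⟨r, rfl⟩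
    · exact ⟨∅, by simp, EqvGen.rel _ _ (Or.inl r), by simp⟩
    · refine ⟨{a}, by simpa using r, EqvGen.rel _ _ (Or.inr ⟨by simp, rfl⟩), ?_⟩
      intro w hw
      rw [Finset.mem_singleton.1 hw]; exact EqvGen.refl _
  | refl a => exact ⟨∅, by simp, EqvGen.refl _, by simp⟩
  | symm a b _ ih =>
    obtain ⟨W, h1, h2, h3⟩ := ih
    exact ⟨W, h1, h2.symm _ _, fun w hw => (h3 w hw).trans _ _ _ h2⟩
  | trans a b c _ _ ih1 ih2 =>
    obtain ⟨W, h1, h2, h3⟩ := ih1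
    obtain ⟨W', h1', h2', h3'⟩ := ih2
    have m1 : ∀ {x y}, EqvGen (fun a b => ρ a b ∨ (a ∈ W ∧ b = f a)) x y →
        EqvGen (fun a b => ρ a b ∨ (a ∈ W ∪ W' ∧ b = f a)) x y := fun e =>
      eqv_mono (fun _ _ r => EqvGen.rel _ _
        (r.imp_right fun r => ⟨Finset.mem_union_left _ r.1, r.2⟩)) e
    have m2 : ∀ {x y}, EqvGen (fun a b => ρ a b ∨ (a ∈ W' ∧ b = f a)) x y →
        EqvGen (fun a b => ρ a b ∨ (a ∈ W ∪ W' ∧ b = f a)) x y := fun e =>
      eqv_mono (fun _ _ r => EqvGen.rel _ _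
        (r.imp_right fun r => ⟨Finset.mem_union_right _ r.1, r.2⟩)) e
    refine ⟨W ∪ W', fun w hw => ?_, (m1 h2).trans _ _ _ (m2 h2'), fun w hw => ?_⟩
    · rcases Finset.mem_union.1 hw with hw | hw
      · exact h1 w hw
      · exact h1' w hw
    · rcases Finset.mem_union.1 hw with hw | hw
      · exact m1 (h3 w hw)
      · exact (m2 (h3' w hw)).trans _ _ _ ((m1 h2).symm _ _)

/-- finite support, simultaneously on a finite set -/
theorem eqv_finsupp_set {ρ : α → α → Prop} {A : Set α} {f : α → α} (Y : Finset α) :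
    ∃ W : Finset α, (∀ w ∈ W, w ∈ A) ∧
      (∀ p ∈ Y, ∀ p' ∈ Y, EqvGen (fun a b => ρ a b ∨ (a ∈ A ∧ b = f a)) p p' →
        EqvGen (fun a b => ρ a b ∨ (a ∈ W ∧ b = f a)) p p') ∧
      ∀ w ∈ W, ∃ p ∈ Y, EqvGen (fun a b => ρ a b ∨ (a ∈ W ∧ b = f a)) w p := by
  classical
  have : ∀ t : α × α, ∃ W : Finset α, (∀ w ∈ W, w ∈ A) ∧
      (EqvGen (fun a b => ρ a b ∨ (a ∈ A ∧ b = f a)) t.1 t.2 →
        EqvGen (fun a b => ρ a b ∨ (a ∈ W ∧ b = f a)) t.1 t.2) ∧
      ∀ w ∈ W, EqvGen (fun a b => ρ a b ∨ (a ∈ W ∧ b = f a)) w t.1 := by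
    intro t
    by_cases e : EqvGen (fun a b => ρ a b ∨ (a ∈ A ∧ b = f a)) t.1 t.2
    · obtain ⟨W, h1, h2, h3⟩ := eqv_finsupp e
      exact ⟨W, h1, fun _ => h2, h3⟩
    · exact ⟨∅, by simp, fun e' => absurd e' e, by simp⟩
  choose W h1 h2 h3 using this
  have m : ∀ t ∈ Y ×ˢ Y, ∀ {x y}, EqvGen (fun a b => ρ a b ∨ (a ∈ W t ∧ b = f a)) x y →
      EqvGen (fun a b => ρ a b ∨ (a ∈ (Y ×ˢ Y).biUnion W ∧ b = f a)) x y := fun t ht _ _ e =>
    eqv_mono (fun _ _ r => EqvGen.rel _ _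
      (r.imp_right fun r => ⟨Finset.mem_biUnion.2 ⟨t, ht, r.1⟩, r.2⟩)) e
  refine ⟨(Y ×ˢ Y).biUnion W, fun w hw => ?_, fun p hp p' hp' e => ?_, fun w hw => ?_⟩
  · obtain ⟨t, -, ht⟩ := Finset.mem_biUnion.1 hw
    exact h1 t w ht
  · exact m (p, p') (Finset.mem_product.2 ⟨hp, hp'⟩) (h2 (p, p') e)
  · obtain ⟨t, ht', ht⟩ := Finset.mem_biUnion.1 hw
    exact ⟨t.1, (Finset.mem_product.1 ht').1, m t ht' (h3 t w ht)⟩

end ncls

end Pool.Agent.Work.MP_904812_al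
end

-- merged part: Pool.Agent.Work.MP_904812_al.Index
section
/-! The index inequality: elementary steps. -/

namespace Pool.Agent.Work.MP_904812_al

set_option linter.unusedSectionVars false

open Relation

variable {Λ : Type*} [AddCommGroup Λ] [LinearOrder Λ] [IsOrderedAddMonoid Λ] {X : Type*}
variable {d : X → X → Λ} {G : Type*} [Group G] [MulAction G X]

/-- two directions are in the same orbit -/
def DO (G : Type*) [Group G] [MulAction G X] (d : X → X → Λ) (δ δ' : X × X) : Prop :=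
  ∃ g : G, g • δ.1 = δ'.1 ∧ Sd d δ'.1 (g • δ.2) δ'.2

theorem Act.do_symm (h : Act G d) {δ δ' : X × X} (a : DO G d δ δ') : DO G d δ' δ := by
  obtain ⟨g, e, s⟩ := a
  refine ⟨g⁻¹, by rw [← e, inv_smul_smul], ?_⟩
  rw [← h.sd_iff g, smul_inv_smul, e]
  exact h.tr.sd_symm s

theorem Act.do_trans (h : Act G d) {δ δ' δ'' : X × X} (a : DO G d δ δ') (b : DO G d δ' δ'') :
    DO G d δ δ'' := by
  obtain ⟨g, e, s⟩ := a
  obtain ⟨g', e', s'⟩ := b
  refine ⟨g' * g, by rw [mul_smul, e, e'], ?_⟩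
  rw [← h.sd_iff g', e'] at s
  rw [mul_smul]
  exact h.tr.sd_trans s s'

theorem Act.do_same (h : Act G d) {p q q' : X} (a : DO G d (p, q) (p, q')) : Sd d p q q' := by
  obtain ⟨g, e, s⟩ := a
  have := h.free g p e
  subst this
  simpa using s

/-- compatibility of a relation on points and a relation on directions -/
def Compat (G : Type*) [Group G] [MulAction G X] (d : X → X → Λ) (ρ : X → X → Prop)
    (σ : X × X → X × X → Prop) : Prop :=
  ∀ δ δ', σ δ δ' → DO G d δ δ' ∧ EqvGen ρ δ.1 δ'.1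

theorem Compat.eqv (h : Act G d) {ρ : X → X → Prop} {σ : X × X → X × X → Prop}
    (hc : Compat G d ρ σ) {δ δ' : X × X} (e : EqvGen σ δ δ') :
    δ = δ' ∨ (DO G d δ δ' ∧ EqvGen ρ δ.1 δ'.1) := by
  induction e with
  | rel a b r => exact Or.inr (hc a b r)
  | refl a => exact Or.inl rfl
  | symm a b _ ih =>
    rcases ih with rfl | ⟨r, s⟩
    · exact Or.inl rfl
    · exact Or.inr ⟨h.do_symm r, s.symm _ _⟩
  | trans a b c _ _ ih1 ih2 =>
    rcases ih1 with rfl | ⟨r, s⟩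
    · exact ih2
    · rcases ih2 with rfl | ⟨r', s'⟩
      · exact Or.inr ⟨r, s⟩
      · exact Or.inr ⟨h.do_trans r r', s.trans _ _ _ s'⟩

theorem Compat.base (h : Act G d) {ρ : X → X → Prop} {σ : X × X → X × X → Prop}
    (hc : Compat G d ρ σ) {δ δ' : X × X} (e : EqvGen σ δ δ') : EqvGen ρ δ.1 δ'.1 := by
  rcases hc.eqv h e with rfl | ⟨-, s⟩
  · exact EqvGen.refl _
  · exact s

theorem Compat.same (h : Act G d) {ρ : X → X → Prop} {σ : X × X → X × X → Prop}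
    (hc : Compat G d ρ σ) {p q q' : X} (hq : p ≠ q) (e : EqvGen σ (p, q) (p, q')) :
    Sd d p q q' := by
  rcases hc.eqv h e with e | ⟨r, -⟩
  · have : q = q' := congrArg Prod.snd e
    subst this
    exact h.tr.sd_refl hq
  · exact h.do_same r

/-- the inequality for one finite set of points -/
def Q (d : X → X → Λ) (F : Finset X) (ρ : X → X → Prop) (σ : X × X → X × X → Prop)
    (Y : Finset X) (c : ℤ) : Prop :=
  ∀ Δ : Finset (X × X), (∀ δ ∈ Δ, δ.1 ∈ Y ∧ δ.2 ∈ Hull d F ∧ δ.1 ≠ δ.2) →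
    (ncls σ Δ : ℤ) ≤ 2 * ncls ρ Y + c

/-- the inequality for all large finite sets of points -/
def P (d : X → X → Λ) (F : Finset X) (ρ : X → X → Prop) (σ : X × X → X × X → Prop)
    (c : ℤ) : Prop :=
  ∃ V : Finset X, (∀ v ∈ V, v ∈ Hull d F) ∧
    ∀ Y : Finset X, V ⊆ Y → (∀ y ∈ Y, y ∈ Hull d F) → Q d F ρ σ Y c

variable {F : Finset X} {ρ ρ' : X → X → Prop} {σ σ' : X × X → X × X → Prop} {c : ℤ}

theorem Q.mono {Y Y' : Finset X} (q : Q d F ρ σ Y c) (hY : Y' ⊆ Y)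
    (hσ : ∀ a b, σ a b → EqvGen σ' a b) (hρ : ncls ρ Y ≤ ncls ρ' Y') : Q d F ρ' σ' Y' c := by
  intro Δ hΔ
  have h1 := q Δ fun δ hδ => ⟨hY (hΔ δ hδ).1, (hΔ δ hδ).2⟩
  have h2 := ncls_mono_rel hσ Δ
  omega

theorem P.mono (p : P d F ρ σ c) (hσ : ∀ a b, σ a b → EqvGen σ' a b)
    (hρ : ∀ a b, ρ' a b → EqvGen ρ a b) : P d F ρ' σ' c := by
  obtain ⟨V, hV, h⟩ := p
  exact ⟨V, hV, fun Y h1 h2 => (h Y h1 h2).mono subset_rfl hσ (ncls_mono_rel hρ Y)⟩

theorem Q.pt {Y : Finset X} (q : Q d F ρ σ Y c) (u v : X) : Q d F (addp ρ u v) σ Y (c + 2) := by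
  intro Δ hΔ
  have h1 := q Δ hΔ
  have h2 := ncls_addp_ge ρ u v Y
  omega

theorem Q.dir {Y : Finset X} (q : Q d F ρ σ Y c) {δ δ' : X × X}
    (h1 : δ.1 ∈ Y ∧ δ.2 ∈ Hull d F ∧ δ.1 ≠ δ.2) (h2 : δ'.1 ∈ Y ∧ δ'.2 ∈ Hull d F ∧ δ'.1 ≠ δ'.2)
    (hn : ¬ EqvGen σ δ δ') : Q d F ρ (addp σ δ δ') Y (c - 1) := by
  classical
  intro Δ hΔ
  have a := q (insert δ (insert δ' Δ)) (by
    intro e he
    simp only [Finset.mem_insert] at he
    rcases he with rfl | rfl | he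
    · exact h1
    · exact h2
    · exact hΔ e he)
  have b := ncls_addp_lt (ρ := σ) (A := insert δ (insert δ' Δ)) (u := δ) (v := δ')
    (by simp) (by simp) hn
  have c := ncls_mono_set (addp σ δ δ') (A := Δ) (B := insert δ (insert δ' Δ))
    (fun e he => by simp [he])
  omega

theorem Q.weak {Y : Finset X} (q : Q d F ρ σ Y c) {c' : ℤ} (h : c ≤ c') : Q d F ρ σ Y c' := by
  intro Δ hΔ
  have := q Δ hΔ
  omega

theorem Q.red {Y : Finset X} (q : Q d F ρ σ Y c) {u v : X} (h : EqvGen ρ u v) :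
    Q d F (addp ρ u v) σ Y c :=
  q.mono subset_rfl (fun _ _ r => EqvGen.rel _ _ r) (ncls_mono_rel (fun _ _ r => by
    rcases r with r | ⟨rfl, rfl⟩
    · exact EqvGen.rel _ _ r
    · exact h) Y)

theorem Q.dirw {Y : Finset X} (q : Q d F ρ σ Y c) (δ δ' : X × X) :
    Q d F ρ (addp σ δ δ') Y c :=
  q.mono subset_rfl (fun _ _ r => EqvGen.rel _ _ (Or.inl r)) le_rfl

/-- adding an end point of a band -/
theorem Q.endp (h : Act G d) (hc : Compat G d ρ σ) {Y : Finset X} (q : Q d F ρ σ Y c) {φ : G}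
    {w u : X} (hw : w ∈ Y) (hw' : φ • w ∈ Y) (hu : u ∈ Hull d F) (hu' : φ • u ∈ Hull d F)
    (hne : w ≠ u) :
    Q d F (addp ρ w (φ • w)) (addp σ (w, u) (φ • w, φ • u)) Y (c + 1) := by
  by_cases e : EqvGen ρ w (φ • w)
  · exact ((q.red e).dirw _ _).weak (by omega)
  · have := (q.pt w (φ • w)).dir (δ := (w, u)) (δ' := (φ • w, φ • u)) ⟨hw, hu, hne⟩
      ⟨hw', hu', fun e' => hne (smul_left_cancel φ e')⟩ (fun e' => e (hc.base h e'))
    exact this.weak (by omega)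

/-- adding an interior point of a band -/
theorem Q.gen (h : Act G d) (hc : Compat G d ρ σ) {Y : Finset X} (q : Q d F ρ σ Y c) {φ : G}
    {w u v : X} (hw : w ∈ Y) (hw' : φ • w ∈ Y) (hu : u ∈ Hull d F) (hu' : φ • u ∈ Hull d F)
    (hv : v ∈ Hull d F) (hv' : φ • v ∈ Hull d F) (hne : w ≠ u) (hne' : w ≠ v)
    (hb : Bt d u w v) :
    Q d F (addp ρ w (φ • w))
      (addp (addp σ (w, u) (φ • w, φ • u)) (w, v) (φ • w, φ • v)) Y c := by
  by_cases e : EqvGen ρ w (φ • w)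
  · exact ((q.red e).dirw _ _).dirw _ _
  · have a := (q.pt w (φ • w)).dir (δ := (w, u)) (δ' := (φ • w, φ • u)) ⟨hw, hu, hne⟩
      ⟨hw', hu', fun e' => hne (smul_left_cancel φ e')⟩ (fun e' => e (hc.base h e'))
    have b := a.dir (δ := (w, v)) (δ' := (φ • w, φ • v)) ⟨hw, hv, hne'⟩
      ⟨hw', hv', fun e' => hne' (smul_left_cancel φ e')⟩ (by
        intro e'
        rcases eqv_addp e' with r | ⟨r, -⟩ | ⟨r, -⟩
        · exact e (hc.base h r)
        · exact h.tr.not_sd_iff.2 (h.tr.bt_symm hb) (hc.same h hne' r)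
        · exact e (hc.base h r))
    exact b.weak (by omega)

theorem Act.do_smul (h : Act G d) (φ : G) {w u : X} (hne : w ≠ u) :
    DO G d (w, u) (φ • w, φ • u) :=
  ⟨φ, rfl, h.tr.sd_refl fun e' => hne (smul_left_cancel φ e')⟩

theorem Compat.addW (h : Act G d) (hc : Compat G d ρ σ) {φ : G} {u v : X} {W : Finset X}
    (hW : ∀ w ∈ W, w ≠ u ∧ w ≠ v) :
    Compat G d (fun a b => ρ a b ∨ (a ∈ W ∧ b = φ • a))
      (fun δ δ' => σ δ δ' ∨ (δ.1 ∈ W ∧ (δ.2 = u ∨ δ.2 = v) ∧ δ' = (φ • δ.1, φ • δ.2))) := by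
  rintro ⟨a, b⟩ δ' (r | ⟨r, s, rfl⟩)
  · exact ⟨(hc _ _ r).1, eqv_mono (fun _ _ r => EqvGen.rel _ _ (Or.inl r)) (hc _ _ r).2⟩
  · refine ⟨h.do_smul φ ?_, EqvGen.rel _ _ (Or.inr ⟨r, rfl⟩)⟩
    rcases s with rfl | rfl
    · exact (hW a r).1
    · exact (hW a r).2

theorem Q.genW (h : Act G d) (hc : Compat G d ρ σ) {Y : Finset X} (q : Q d F ρ σ Y c) {φ : G}
    {u v : X} (hu : u ∈ Hull d F) (hu' : φ • u ∈ Hull d F)
    (hv : v ∈ Hull d F) (hv' : φ • v ∈ Hull d F) (W : Finset X)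
    (hW : ∀ w ∈ W, w ∈ Y ∧ φ • w ∈ Y ∧ (w ≠ u ∧ w ≠ v) ∧ Bt d u w v) :
    Q d F (fun a b => ρ a b ∨ (a ∈ W ∧ b = φ • a))
      (fun δ δ' => σ δ δ' ∨ (δ.1 ∈ W ∧ (δ.2 = u ∨ δ.2 = v) ∧ δ' = (φ • δ.1, φ • δ.2))) Y c := by
  classical
  induction W using Finset.induction_on with
  | empty =>
    exact q.mono subset_rfl (fun _ _ r => EqvGen.rel _ _ (Or.inl r))
      (ncls_mono_rel (fun _ _ r => by
        rcases r with r | ⟨r, -⟩
        · exact EqvGen.rel _ _ r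
        · simp at r) Y)
  | insert w W hw ih =>
    have a := ih fun w' hw' => hW w' (Finset.mem_insert_of_mem hw')
    obtain ⟨b1, b2, ⟨b3, b4⟩, b5⟩ := hW w (Finset.mem_insert_self _ _)
    have b := a.gen h (hc.addW h fun w' hw' => (hW w' (Finset.mem_insert_of_mem hw')).2.2.1)
      b1 b2 hu hu' hv hv' b3 b4 b5
    refine b.mono subset_rfl ?_ (ncls_mono_rel ?_ Y)
    · rintro δ δ' (((r | ⟨r, s⟩) | ⟨rfl, rfl⟩) | ⟨rfl, rfl⟩)
      · exact EqvGen.rel _ _ (Or.inl r)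
      · exact EqvGen.rel _ _ (Or.inr ⟨Finset.mem_insert_of_mem r, s⟩)
      · exact EqvGen.rel _ _ (Or.inr ⟨Finset.mem_insert_self _ _, Or.inl rfl, rfl⟩)
      · exact EqvGen.rel _ _ (Or.inr ⟨Finset.mem_insert_self _ _, Or.inr rfl, rfl⟩)
    · rintro a b (r | ⟨r, rfl⟩)
      · exact EqvGen.rel _ _ (Or.inl (Or.inl r))
      · rcases Finset.mem_insert.1 r with rfl | r
        · exact EqvGen.rel _ _ (Or.inr ⟨rfl, rfl⟩)
        · exact EqvGen.rel _ _ (Or.inl (Or.inr ⟨r, rfl⟩))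

theorem P.extend (h : Act G d) (hc : Compat G d ρ σ) (p : P d F ρ σ c) {φ : G} {u v : X}
    (huv : u ≠ v) (hu : u ∈ Hull d F) (hu' : φ • u ∈ Hull d F)
    (hv : v ∈ Hull d F) (hv' : φ • v ∈ Hull d F) (h0 : EqvGen ρ u (φ • u))
    (hcase : ¬ EqvGen σ (u, v) (φ • u, φ • v) ∨
      EqvGen (fun a b => ρ a b ∨ ((Bt d u a v ∧ a ≠ v) ∧ b = φ • a)) v (φ • v))
    (hρ : ∀ a b, ρ' a b → EqvGen (fun a b => ρ a b ∨ (Bt d u a v ∧ b = φ • a)) a b)
    (hσ : ∀ a b, σ a b → EqvGen σ' a b)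
    (hσ' : ∀ a b, Bt d u a v → Bt d u b v → a ≠ b → EqvGen σ' (a, b) (φ • a, φ • b)) :
    P d F ρ' σ' c := by
  classical
  obtain ⟨V, hV, hq⟩ := p
  refine ⟨insert u (insert v (insert (φ • u) (insert (φ • v) V))), ?_, fun Y hY hYK => ?_⟩
  · intro a ha
    simp only [Finset.mem_insert] at ha
    rcases ha with rfl | rfl | rfl | rfl | ha
    · exact hu
    · exact hv
    · exact hu'
    · exact hv'
    · exact hV a ha
  have uY : u ∈ Y := hY (by simp)
  have vY : v ∈ Y := hY (by simp)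
  have uY' : φ • u ∈ Y := hY (by simp)
  have vY' : φ • v ∈ Y := hY (by simp)
  let A : Set X := {a | Bt d u a v ∧ a ≠ u ∧ a ≠ v}
  obtain ⟨W₁, a1, a2, a3⟩ := eqv_finsupp_set (ρ := addp ρ v (φ • v)) (A := A)
    (f := fun a => φ • a) Y
  obtain ⟨W₂, b1, b2, b3⟩ : ∃ W : Finset X, (∀ w ∈ W, w ∈ A) ∧
      (EqvGen σ (u, v) (φ • u, φ • v) →
        EqvGen (fun a b => ρ a b ∨ (a ∈ W ∧ b = φ • a)) v (φ • v)) ∧
      ∀ w ∈ W, EqvGen (fun a b => ρ a b ∨ (a ∈ W ∧ b = φ • a)) w v := by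
    rcases hcase with hn | he
    · exact ⟨∅, by simp, fun e => absurd e hn, by simp⟩
    · have he' : EqvGen (fun a b => ρ a b ∨ (a ∈ A ∧ b = φ • a)) v (φ • v) := by
        refine eqv_mono ?_ he
        rintro a b (r | ⟨⟨r1, r2⟩, rfl⟩)
        · exact EqvGen.rel _ _ (Or.inl r)
        · by_cases e : a = u
          · subst e
            exact eqv_mono (fun _ _ r => EqvGen.rel _ _ (Or.inl r)) h0
          · exact EqvGen.rel _ _ (Or.inr ⟨⟨r1, e, r2⟩, rfl⟩)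
      obtain ⟨W, h1, h2, h3⟩ := eqv_finsupp (f := fun a => φ • a) he'
      exact ⟨W, h1, fun _ => h2, h3⟩
  let W := W₁ ∪ W₂
  have hWA : ∀ w ∈ W, w ∈ A := fun w hw => by
    rcases Finset.mem_union.1 hw with hw | hw
    · exact a1 w hw
    · exact b1 w hw
  let Y' := Y ∪ (W ∪ W.image fun a => φ • a)
  have hY' : ∀ y ∈ Y', y ∈ Hull d F := by
    intro y hy
    simp only [Y', Finset.mem_union, Finset.mem_image] at hy
    rcases hy with hy | hy | ⟨w, hw, rfl⟩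
    · exact hYK y hy
    · exact h.tr.hull_conv hu hv (hWA y hy).1
    · exact h.tr.hull_conv hu' hv' (h.bt φ (hWA w hw).1)
  have YY' : Y ⊆ Y' := Finset.subset_union_left
  have q0 := hq Y' (fun a ha => YY' (hY (by simp [ha]))) hY'
  let σ₁ := addp σ (u, v) (φ • u, φ • v)
  have hc₁ : Compat G d ρ σ₁ := by
    rintro δ δ' (r | ⟨rfl, rfl⟩)
    · exact hc _ _ r
    · exact ⟨h.do_smul φ huv, h0⟩
  have hW : ∀ w ∈ W, w ∈ Y' ∧ φ • w ∈ Y' ∧ (w ≠ u ∧ w ≠ v) ∧ Bt d u w v := fun w hw =>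
    ⟨Finset.mem_union_right _ (Finset.mem_union_left _ hw),
      Finset.mem_union_right _ (Finset.mem_union_right _ (Finset.mem_image_of_mem _ hw)),
      (hWA w hw).2, (hWA w hw).1⟩
  let ρW : X → X → Prop := fun a b => ρ a b ∨ (a ∈ W ∧ b = φ • a)
  let σW : X × X → X × X → Prop := fun δ δ' =>
    σ₁ δ δ' ∨ (δ.1 ∈ W ∧ (δ.2 = u ∨ δ.2 = v) ∧ δ' = (φ • δ.1, φ • δ.2))
  have m₂ : ∀ {a b}, EqvGen (fun a b => ρ a b ∨ (a ∈ W₂ ∧ b = φ • a)) a b → EqvGen ρW a b :=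
    fun e => eqv_mono (fun _ _ r => EqvGen.rel _ _
      (r.imp_right fun r => ⟨Finset.mem_union_right _ r.1, r.2⟩)) e
  have q1 : Q d F (addp ρW v (φ • v)) (addp σW (v, u) (φ • v, φ • u)) Y' c := by
    by_cases e : EqvGen σ (u, v) (φ • u, φ • v)
    · have t1 := ((q0.dirw (u, v) (φ • u, φ • v)).genW h hc₁ hu hu' hv hv' W hW)
      exact (t1.red (m₂ (b2 e))).dirw _ _
    · have t0 := q0.dir (δ := (u, v)) (δ' := (φ • u, φ • v)) ⟨YY' uY, hv, huv⟩
        ⟨YY' uY', hv', fun e' => huv (smul_left_cancel φ e')⟩ e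
      have t1 := t0.genW h hc₁ hu hu' hv hv' W hW
      have t2 := t1.endp h (hc₁.addW h fun w hw => (hW w hw).2.2.1) (YY' vY) (YY' vY') hu hu'
        huv.symm
      exact t2.weak (by omega)
  have m₁ : ∀ {a b}, EqvGen (fun a b => addp ρ v (φ • v) a b ∨ (a ∈ W₁ ∧ b = φ • a)) a b →
      EqvGen (addp ρW v (φ • v)) a b := by
    intro a b e
    refine eqv_mono ?_ e
    rintro a b ((r | r) | r)
    · exact EqvGen.rel _ _ (Or.inl (Or.inl r))
    · exact EqvGen.rel _ _ (Or.inr r)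
    · exact EqvGen.rel _ _ (Or.inl (Or.inr ⟨Finset.mem_union_left _ r.1, r.2⟩))
  have hWY : ∀ w ∈ W, ∃ b ∈ Y, EqvGen (addp ρW v (φ • v)) w b := by
    intro w hw
    rcases Finset.mem_union.1 hw with hw | hw
    · obtain ⟨b, hb, e⟩ := a3 w hw
      exact ⟨b, hb, m₁ e⟩
    · exact ⟨v, vY, eqv_le_addp (m₂ (b3 w hw))⟩
  refine q1.mono YY' ?_ (ncls_le_of ?_ ?_)
  · rintro ⟨a, b⟩ δ' (((r | ⟨r, rfl⟩) | ⟨r, s, rfl⟩) | ⟨r, rfl⟩)
    · exact hσ _ _ r
    · rw [r]; exact hσ' u v (h.tr.bt_left u v) (h.tr.bt_right u v) huv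
    · rcases s with rfl | rfl
      · exact hσ' _ _ (hWA a r).1 (h.tr.bt_left _ _) (hWA a r).2.1
      · exact hσ' _ _ (hWA a r).1 (h.tr.bt_right _ _) (hWA a r).2.2
    · rw [r]; exact hσ' v u (h.tr.bt_right u v) (h.tr.bt_left u v) huv.symm
  · intro y hy
    simp only [Y', Finset.mem_union, Finset.mem_image] at hy
    rcases hy with hy | hy | ⟨w, hw, rfl⟩
    · exact ⟨y, hy, EqvGen.refl _⟩
    · exact hWY y hy
    · obtain ⟨b, hb, e⟩ := hWY w hw
      have e' : EqvGen (addp ρW v (φ • v)) w (φ • w) :=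
        EqvGen.rel _ _ (Or.inl (Or.inr ⟨hw, rfl⟩))
      exact ⟨b, hb, (e'.symm _ _).trans _ _ _ e⟩
  · intro b hb b' hb' e
    refine m₁ (a2 b hb b' hb' ?_)
    refine eqv_mono (fun a b r => ?_) e
    refine eqv_mono ?_ (hρ a b r)
    rintro a b (r | ⟨r, rfl⟩)
    · exact EqvGen.rel _ _ (Or.inl (Or.inl r))
    · by_cases e1 : a = u
      · subst e1
        exact eqv_mono (fun _ _ r => EqvGen.rel _ _ (Or.inl (Or.inl r))) h0
      · by_cases e2 : a = v
        · subst e2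
          exact EqvGen.rel _ _ (Or.inl (Or.inr ⟨rfl, rfl⟩))
        · exact EqvGen.rel _ _ (Or.inr ⟨⟨r, e1, e2⟩, rfl⟩)

theorem P.pt (p : P d F ρ σ c) (u v : X) : P d F (addp ρ u v) σ (c + 2) := by
  obtain ⟨V, hV, h⟩ := p
  exact ⟨V, hV, fun Y h1 h2 => (h Y h1 h2).pt u v⟩

/-- the relation on directions with no band -/
def σ₀ (d : X → X → Λ) (δ δ' : X × X) : Prop := δ'.1 = δ.1 ∧ Sd d δ.1 δ.2 δ'.2

theorem P.base (h : Tr d) {r : X} (hr : r ∈ F) : P d F (fun _ _ => False) (σ₀ d) (-2) := by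
  classical
  refine ⟨F, fun v hv => h.mem_hull hv, fun Y hY hYK Δ hΔ => ?_⟩
  have hcard : ncls (fun _ _ : X => False) Y = Y.card := by
    unfold ncls
    apply Finset.card_image_of_injective
    intro a b e
    have := mk_eq_iff.1 e
    clear e
    induction this with
    | rel a b r => exact r.elim
    | refl a => rfl
    | symm a b _ ih => exact ih.symm
    | trans a b c _ _ ih1 ih2 => exact ih1.trans ih2
  -- representatives
  have hnear : ∀ p q : X, p ≠ q → q ∈ Hull d F → ∃ y ∈ Y, Sd d p q y ∧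
      ∀ y' ∈ Y, Sd d p q y' → d p y ≤ d p y' := by
    intro p q hpq hq
    obtain ⟨f, hf, b⟩ := h.hull_ext hq p
    have hne : (Y.filter fun y => Sd d p q y).Nonempty :=
      ⟨f, Finset.mem_filter.2 ⟨hY hf, h.sd_of_bt b hpq⟩⟩
    obtain ⟨y, hy, hmin⟩ := Finset.exists_min_image _ (fun y => d p y) hne
    exact ⟨y, (Finset.mem_filter.1 hy).1, (Finset.mem_filter.1 hy).2,
      fun y' hy' s => hmin y' (Finset.mem_filter.2 ⟨hy', s⟩)⟩
  -- parents
  let Y₀ := Y.erase r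
  have hpar : ∀ y ∈ Y₀, ∃ p ∈ Y, Bt d r p y ∧ p ≠ y ∧
      ∀ p' ∈ Y, Bt d r p' y → p' ≠ y → d r p' ≤ d r p := by
    intro y hy
    have hne : (Y.filter fun p => Bt d r p y ∧ p ≠ y).Nonempty :=
      ⟨r, Finset.mem_filter.2 ⟨hY hr, h.bt_left r y, (Finset.ne_of_mem_erase hy).symm⟩⟩
    obtain ⟨p, hp, hmax⟩ := Finset.exists_max_image _ (fun p => d r p) hne
    exact ⟨p, (Finset.mem_filter.1 hp).1, (Finset.mem_filter.1 hp).2.1,
      (Finset.mem_filter.1 hp).2.2, fun p' hp' s s' => hmax p' (Finset.mem_filter.2 ⟨hp', s, s'⟩)⟩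
  choose! par hpar using hpar
  let B : Finset (X × X) := (Y₀.image fun y => (y, r)) ∪ (Y₀.image fun y => (par y, y))
  have h1 : ncls (σ₀ d) Δ ≤ ncls (σ₀ d) B := by
    refine ncls_le_of ?_ fun _ _ _ _ e => e
    rintro ⟨p, q⟩ hδ
    obtain ⟨hp, hq, hpq⟩ := hΔ _ hδ
    simp only at hp hq hpq
    by_cases e : Sd d p q r
    · have hpr : p ≠ r := h.sd_ne (h.sd_symm e)
      exact ⟨(p, r), Finset.mem_union_left _ (Finset.mem_image.2
        ⟨p, Finset.mem_erase.2 ⟨hpr, hp⟩, rfl⟩), EqvGen.rel _ _ ⟨rfl, e⟩⟩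
    · obtain ⟨y, hy, s, hmin⟩ := hnear p q hpq hq
      have hyr : y ≠ r := fun e' => e (e' ▸ s)
      have hy₀ : y ∈ Y₀ := Finset.mem_erase.2 ⟨hyr, hy⟩
      have hb : Bt d r p y := by
        apply h.bt_symm
        rw [← h.not_sd_iff]
        exact fun s' => e (h.sd_trans s s')
      have hpy : p ≠ y := h.sd_ne (h.sd_symm s)
      obtain ⟨c1, c2, c3, c4⟩ := hpar y hy₀
      have hle := c4 p hp hb hpy
      obtain ⟨d1, d2⟩ := h.bt_of_le hb c2 hle
      have : par y = p := by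
        by_contra hne
        have s' : Sd d p q (par y) :=
          h.sd_trans s (h.sd_symm (h.sd_of_bt d2 (Ne.symm hne)))
        have := hmin _ c1 s'
        have := h.pos c3
        simp only [Bt] at d2
        grind
      exact ⟨(p, y), Finset.mem_union_right _ (Finset.mem_image.2 ⟨y, hy₀, by rw [this]⟩),
        EqvGen.rel _ _ ⟨rfl, s⟩⟩
  have h2 := ncls_le_card (σ₀ d) B
  have h3 : B.card ≤ Y₀.card + Y₀.card :=
    (Finset.card_union_le _ _).trans (add_le_add Finset.card_image_le Finset.card_image_le)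
  have h4 : Y₀.card + 1 = Y.card := Finset.card_erase_add_one (hY hr)
  rw [hcard]
  omega

end Pool.Agent.Work.MP_904812_al
end

-- merged part: Pool.Agent.Work.MP_904812_al.Conn
section
/-! Persistent paths in a system of isometries to which a new band is being added. -/

namespace Pool.Agent.Work.MP_904812_al

set_option linter.unusedSectionVars false

open Relation

variable {Λ : Type*} [AddCommGroup Λ] [LinearOrder Λ] [IsOrderedAddMonoid Λ] {X : Type*}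

/-- a system of bands together with a new band -/
structure Sys (G : Type*) [Group G] [MulAction G X] (d : X → X → Λ) where
  F : Finset X
  S : Finset X
  B : Set (G × X × X)
  φ : G
  x : X
  y : X
  act : Act G d
  hFS : ∀ f ∈ F, f ∈ S
  hSK : ∀ c ∈ S, c ∈ Hull d F
  hBr : ∀ c, Br d F c → c ∈ S
  hB : ∀ b ∈ B, b.2.1 ∈ S ∧ b.2.2 ∈ S ∧ b.1 • b.2.1 ∈ S ∧ b.1 • b.2.2 ∈ S
  hx : x ∈ S
  hy : y ∈ S
  hx' : φ • x ∈ S
  hy' : φ • y ∈ S

variable {d : X → X → Λ} {G : Type*} [Group G] [MulAction G X]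

/-- points of `[c, f]` with coordinate in `[u₁, u₂]` -/
def Sg (d : X → X → Λ) (c f : X) (u₁ u₂ : Λ) (p : X) : Prop :=
  Bt d c p f ∧ u₁ ≤ d c p ∧ d c p ≤ u₂

/-- `k` maps a piece of a line into another line, shifting coordinates by `δ` -/
def Mp (d : X → X → Λ) (k : G) (c f c' f' : X) (δ u₁ u₂ : Λ) : Prop :=
  ∀ p, Sg d c f u₁ u₂ p → Bt d c' (k • p) f' ∧ d c' (k • p) = d c p + δ

theorem Mp.one (c f : X) (u₁ u₂ : Λ) : Mp d (1 : G) c f c f 0 u₁ u₂ := by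
  intro p hp
  simpa using hp.1

theorem Mp.mono {k : G} {c f c' f' : X} {δ u₁ u₂ v₁ v₂ : Λ} (m : Mp d k c f c' f' δ u₁ u₂)
    (h1 : u₁ ≤ v₁) (h2 : v₂ ≤ u₂) : Mp d k c f c' f' δ v₁ v₂ :=
  fun p hp => m p ⟨hp.1, h1.trans hp.2.1, hp.2.2.trans h2⟩

theorem Mp.comp {k k' : G} {c f c' f' c'' f'' : X} {δ δ' u₁ u₂ v₁ v₂ : Λ}
    (m : Mp d k c f c' f' δ u₁ u₂) (m' : Mp d k' c' f' c'' f'' δ' v₁ v₂)
    (h1 : v₁ ≤ u₁ + δ) (h2 : u₂ + δ ≤ v₂) : Mp d (k' * k) c f c'' f'' (δ + δ') u₁ u₂ := by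
  intro p hp
  obtain ⟨a, b⟩ := m p hp
  obtain ⟨-, h3, h4⟩ := hp
  obtain ⟨a', b'⟩ := m' (k • p) ⟨a, by grind, by grind⟩
  rw [mul_smul]
  exact ⟨a', by rw [b', b, add_assoc]⟩

theorem Mp.inv (h : Act G d) {k : G} {c f c' f' : X} {δ u₁ u₂ : Λ}
    (m : Mp d k c f c' f' δ u₁ u₂) (h1 : 0 ≤ u₁) (h2 : u₂ ≤ d c f) :
    Mp d k⁻¹ c' f' c f (-δ) (u₁ + δ) (u₂ + δ) := by
  rintro p' ⟨a, b1, b2⟩
  obtain ⟨p, hp, e⟩ := h.tr.ex_bt c f (t := d c' p' - δ) (by grind) (by grind)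
  obtain ⟨a', b'⟩ := m p ⟨hp, by grind, by grind⟩
  have : k • p = p' := h.tr.bt_uniq a' a (by grind)
  rw [← this, inv_smul_smul]
  exact ⟨hp, by grind⟩

theorem Mp.uniq (h : Act G d) {k k' : G} {c f c' f' : X} {δ u₁ u₂ v₁ v₂ t : Λ}
    (m : Mp d k c f c' f' δ u₁ u₂) (m' : Mp d k' c f c' f' δ v₁ v₂) (h0 : 0 ≤ t) (h1 : t ≤ d c f)
    (h2 : u₁ ≤ t) (h3 : t ≤ u₂) (h4 : v₁ ≤ t) (h5 : t ≤ v₂) : k = k' := by
  obtain ⟨p, hp, e⟩ := h.tr.ex_bt c f h0 h1
  obtain ⟨a, b⟩ := m p ⟨hp, by grind, by grind⟩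
  obtain ⟨a', b'⟩ := m' p ⟨hp, by grind, by grind⟩
  exact h.eq_of_smul (h.tr.bt_uniq a a' (by rw [b, b']))

namespace Sys

variable (s : Sys G d)

/-- an elementary step, valid along a piece of a line -/
def St (c f : X) (σ u₁ u₂ : Λ) (g g' : G) : Prop :=
  (∃ b ∈ s.B, g' = b.1 * g ∧ ∀ p, Sg d c f u₁ u₂ p → Bt d b.2.1 (g • p) b.2.2) ∨
  (g' = s.φ * g ∧ ∀ p, Sg d c f u₁ u₂ p → Bt d s.x (g • p) s.y ∧ d s.x (g • p) < σ + d c p)

/-- a path of steps -/
def Cn (c f : X) (σ u₁ u₂ : Λ) : G → G → Prop :=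
  ReflTransGen fun g g' => s.St c f σ u₁ u₂ g g' ∨ s.St c f σ u₁ u₂ g' g

/-- the image of a piece of a line stays in the hull -/
def Live (c f : X) (u₁ u₂ : Λ) (g : G) : Prop := ∀ p, Sg d c f u₁ u₂ p → g • p ∈ Hull d s.F

variable {s}

theorem St.transport {k g g' : G} {c f c' f' : X} {δ σ σ' u₁ u₂ v₁ v₂ : Λ}
    (e : s.St c' f' σ' v₁ v₂ g g') (m : Mp d k c f c' f' δ u₁ u₂) (h1 : v₁ ≤ u₁ + δ)
    (h2 : u₂ + δ ≤ v₂) (h3 : σ' + δ ≤ σ) : s.St c f σ u₁ u₂ (g * k) (g' * k) := by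
  have key : ∀ p, Sg d c f u₁ u₂ p → Sg d c' f' v₁ v₂ (k • p) := by
    intro p hp
    obtain ⟨a, b⟩ := m p hp
    obtain ⟨-, h3, h4⟩ := hp
    exact ⟨a, by grind, by grind⟩
  rcases e with ⟨b, hb, rfl, e⟩ | ⟨rfl, e⟩
  · exact Or.inl ⟨b, hb, mul_assoc _ _ _, fun p hp => by rw [mul_smul]; exact e _ (key p hp)⟩
  · refine Or.inr ⟨mul_assoc _ _ _, fun p hp => ?_⟩
    rw [mul_smul]
    obtain ⟨a, b⟩ := e _ (key p hp)
    have := (m p hp).2
    exact ⟨a, by grind⟩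

theorem Cn.refl (c f : X) (σ u₁ u₂ : Λ) (g : G) : s.Cn c f σ u₁ u₂ g g := ReflTransGen.refl

theorem Cn.trans {c f : X} {σ u₁ u₂ : Λ} {g g' g'' : G} (a : s.Cn c f σ u₁ u₂ g g')
    (b : s.Cn c f σ u₁ u₂ g' g'') : s.Cn c f σ u₁ u₂ g g'' := ReflTransGen.trans a b

theorem Cn.symm {c f : X} {σ u₁ u₂ : Λ} {g g' : G} (a : s.Cn c f σ u₁ u₂ g g') :
    s.Cn c f σ u₁ u₂ g' g := by
  induction a with
  | refl => exact ReflTransGen.refl
  | tail _ r ih => exact ReflTransGen.head r.symm ih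

theorem St.cn {c f : X} {σ u₁ u₂ : Λ} {g g' : G} (a : s.St c f σ u₁ u₂ g g') :
    s.Cn c f σ u₁ u₂ g g' := ReflTransGen.single (Or.inl a)

theorem Cn.transport {k g g' : G} {c f c' f' : X} {δ σ σ' u₁ u₂ v₁ v₂ : Λ}
    (e : s.Cn c' f' σ' v₁ v₂ g g') (m : Mp d k c f c' f' δ u₁ u₂) (h1 : v₁ ≤ u₁ + δ)
    (h2 : u₂ + δ ≤ v₂) (h3 : σ' + δ ≤ σ) : s.Cn c f σ u₁ u₂ (g * k) (g' * k) := by
  induction e with
  | refl => exact Cn.refl _ _ _ _ _ _
  | tail _ r ih =>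
    exact ReflTransGen.tail ih
      (r.imp (fun r => r.transport m h1 h2 h3) fun r => r.transport m h1 h2 h3)

theorem St.mono {g g' : G} {c f : X} {σ σ' u₁ u₂ v₁ v₂ : Λ}
    (e : s.St c f σ' v₁ v₂ g g') (h1 : v₁ ≤ u₁) (h2 : u₂ ≤ v₂) (h3 : σ' ≤ σ) :
    s.St c f σ u₁ u₂ g g' := by
  simpa using e.transport (Mp.one c f u₁ u₂) (by simpa using h1) (by simpa using h2)
    (by simpa using h3)

theorem Cn.mono {g g' : G} {c f : X} {σ σ' u₁ u₂ v₁ v₂ : Λ}
    (e : s.Cn c f σ' v₁ v₂ g g') (h1 : v₁ ≤ u₁) (h2 : u₂ ≤ v₂) (h3 : σ' ≤ σ) :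
    s.Cn c f σ u₁ u₂ g g' := by
  simpa using e.transport (Mp.one c f u₁ u₂) (by simpa using h1) (by simpa using h2)
    (by simpa using h3)

/-- both ends of a step lie in a segment with special end points -/
theorem St.band {g g' : G} {c f : X} {σ u₁ u₂ : Λ} (e : s.St c f σ u₁ u₂ g g') :
    ∃ k : G, ∃ u v : X, g' = k * g ∧ u ∈ s.S ∧ v ∈ s.S ∧ k • u ∈ s.S ∧ k • v ∈ s.S ∧
      ∀ p, Sg d c f u₁ u₂ p → Bt d u (g • p) v := by
  rcases e with ⟨b, hb, rfl, e⟩ | ⟨rfl, e⟩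
  · obtain ⟨a1, a2, a3, a4⟩ := s.hB b hb
    exact ⟨b.1, b.2.1, b.2.2, rfl, a1, a2, a3, a4, e⟩
  · exact ⟨s.φ, s.x, s.y, rfl, s.hx, s.hy, s.hx', s.hy', fun p hp => (e p hp).1⟩

theorem St.live {g g' : G} {c f : X} {σ u₁ u₂ : Λ} (e : s.St c f σ u₁ u₂ g g') :
    s.Live c f u₁ u₂ g ∧ s.Live c f u₁ u₂ g' := by
  obtain ⟨k, u, v, rfl, a1, a2, a3, a4, e⟩ := e.band
  refine ⟨fun p hp => s.act.tr.hull_conv (s.hSK _ a1) (s.hSK _ a2) (e p hp), fun p hp => ?_⟩
  rw [mul_smul]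
  exact s.act.tr.hull_conv (s.hSK _ a3) (s.hSK _ a4) (s.act.bt k (e p hp))

theorem Cn.live {g g' : G} {c f : X} {σ u₁ u₂ : Λ} (e : s.Cn c f σ u₁ u₂ g g')
    (l : s.Live c f u₁ u₂ g) : s.Live c f u₁ u₂ g' := by
  induction e with
  | refl => exact l
  | tail _ r _ =>
    rcases r with r | r
    · exact r.live.2
    · exact r.live.1

theorem Live.mono {g : G} {c f : X} {u₁ u₂ v₁ v₂ : Λ} (l : s.Live c f v₁ v₂ g) (h1 : v₁ ≤ u₁)
    (h2 : u₂ ≤ v₂) : s.Live c f u₁ u₂ g :=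
  fun p hp => l p ⟨hp.1, h1.trans hp.2.1, hp.2.2.trans h2⟩

theorem Live.union {g : G} {c f : X} {u₁ u₂ u₃ : Λ} (l : s.Live c f u₁ u₂ g)
    (l' : s.Live c f u₂ u₃ g) : s.Live c f u₁ u₃ g := by
  intro p hp
  rcases le_total (d c p) u₂ with e | e
  · exact l p ⟨hp.1, hp.2.1, e⟩
  · exact l' p ⟨hp.1, e, hp.2.2⟩

theorem live_one (s : Sys G d) (u₁ u₂ : Λ) : s.Live s.x s.y u₁ u₂ 1 := by
  intro p hp
  rw [one_smul]
  exact s.act.tr.hull_conv (s.hSK _ s.hx) (s.hSK _ s.hy) hp.1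

theorem live_phi (s : Sys G d) (u₁ u₂ : Λ) : s.Live s.x s.y u₁ u₂ s.φ := by
  intro p hp
  exact s.act.tr.hull_conv (s.hSK _ s.hx') (s.hSK _ s.hy') (s.act.bt _ hp.1)

/-- the image of the new band leaves a segment with special end points at time `τ` -/
def Exit (s : Sys G d) (g : G) (τ : Λ) : Prop :=
  ∃ u ∈ s.S, ∃ v ∈ s.S, (∀ p, Sg d s.x s.y τ τ p → Bt d u (g • p) v) ∧
    ∀ p, Bt d s.x p s.y → τ < d s.x p → ¬ Bt d u (g • p) v

theorem exists_max (s : Sys G d) {g : G} {u v : X} {t : Λ} (h0 : 0 ≤ t) (h1 : t ≤ d s.x s.y)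
    (e : ∀ p, Sg d s.x s.y t t p → Bt d u (g • p) v) :
    ∃ τ, t ≤ τ ∧ τ ≤ d s.x s.y ∧ (∀ p, Sg d s.x s.y t τ p → Bt d u (g • p) v) ∧
      ∀ p, Bt d s.x p s.y → τ < d s.x p → ¬ Bt d u (g • p) v := by
  have h := s.act.tr
  obtain ⟨p₀, hp₀, e₀⟩ := h.ex_bt s.x s.y h0 h1
  have b₀ := e p₀ ⟨hp₀, e₀.ge, e₀.le⟩
  obtain ⟨m, m1, m2, m3⟩ := h.med' u v (g • s.y)
  have hm : Bt d (g • p₀) m (g • s.y) := by
    have := h.bt_dist b₀ m1
    have := h.tri (g • p₀) m (g • s.y)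
    have := h.tri u (g • p₀) (g • s.y)
    have := h.tri v (g • p₀) (g • s.y)
    have := h.symm v (g • p₀)
    have := h.symm v m
    simp only [Bt] at *; grind
  have i1 := s.act.iso g p₀ s.y
  have hle := h.bt_le hm
  refine ⟨t + d (g • p₀) m, by have := h.nonneg (g • p₀) m; grind, ?_, ?_, ?_⟩
  · simp only [Bt] at hp₀; grind
  · rintro p ⟨a, b, c⟩
    obtain ⟨a1, a2⟩ := h.bt_of_le hp₀ a (by grind)
    have a3 := s.act.bt g a2
    have i2 := s.act.iso g p₀ p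
    have a4 := (h.bt_of_le a3 hm (by simp only [Bt] at a1; grind)).1
    exact h.bt_conv b₀ m1 a4
  · intro p a b c
    have hn := h.nonneg (g • p₀) m
    obtain ⟨a1, a2⟩ := h.bt_of_le hp₀ a (by grind)
    have a3 := s.act.bt g a2
    have i2 := s.act.iso g p₀ p
    have i3 := s.act.iso g p s.y
    have := h.bt_dist c m1
    have := h.tri (g • p) m (g • s.y)
    have := h.tri u (g • p) (g • s.y)
    have := h.tri v (g • p) (g • s.y)
    have := h.symm v (g • p)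
    have := h.symm v m
    have := h.nonneg (g • p) m
    simp only [Bt] at *; grind

theorem St.max {g g' : G} {t t' : Λ} (e : s.St s.x s.y 0 t t' g g') (h0 : 0 ≤ t) (h1 : t ≤ t')
    (h2 : t' ≤ d s.x s.y) :
    ∃ τ, t' ≤ τ ∧ τ ≤ d s.x s.y ∧ s.St s.x s.y 0 t τ g g' ∧ s.Exit g τ ∧ s.Exit g' τ := by
  have h := s.act.tr
  have key : ∀ (k : G) (u v : X), u ∈ s.S → v ∈ s.S → k • u ∈ s.S → k • v ∈ s.S →
      (∀ p, Sg d s.x s.y t t' p → Bt d u (g • p) v) →
      ∃ τ, t' ≤ τ ∧ τ ≤ d s.x s.y ∧ (∀ p, Sg d s.x s.y t τ p → Bt d u (g • p) v) ∧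
        s.Exit g τ ∧ s.Exit (k * g) τ := by
    intro k u v a1 a2 a3 a4 e
    obtain ⟨τ, b1, b2, b3, b4⟩ := s.exists_max (g := g) (u := u) (v := v) (h0.trans h1) h2
      fun p hp => e p ⟨hp.1, h1.trans hp.2.1, hp.2.2⟩
    refine ⟨τ, b1, b2, fun p hp => ?_, ⟨u, a1, v, a2, fun p hp => ?_, b4⟩,
      ⟨k • u, a3, k • v, a4, fun p hp => ?_, fun p hp hp' => ?_⟩⟩
    · rcases le_total (d s.x p) t' with c | c
      · exact e p ⟨hp.1, hp.2.1, c⟩
      · exact b3 p ⟨hp.1, c, hp.2.2⟩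
    · exact b3 p ⟨hp.1, b1.trans hp.2.1, hp.2.2⟩
    · rw [mul_smul]; exact s.act.bt k (b3 p ⟨hp.1, b1.trans hp.2.1, hp.2.2⟩)
    · rw [mul_smul, s.act.bt_iff]; exact b4 p hp hp'
  rcases e with ⟨b, hb, rfl, e⟩ | ⟨rfl, e⟩
  · obtain ⟨a1, a2, a3, a4⟩ := s.hB b hb
    obtain ⟨τ, b1, b2, b3, b4, b5⟩ := key b.1 b.2.1 b.2.2 a1 a2 a3 a4 e
    exact ⟨τ, b1, b2, Or.inl ⟨b, hb, rfl, b3⟩, b4, b5⟩
  · obtain ⟨τ, b1, b2, b3, b4, b5⟩ := key s.φ s.x s.y s.hx s.hy s.hx' s.hy' fun p hp => (e p hp).1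
    refine ⟨τ, b1, b2, Or.inr ⟨rfl, fun p hp => ⟨b3 p hp, ?_⟩⟩, b4, b5⟩
    obtain ⟨p₀, hp₀, e₀⟩ := h.ex_bt s.x s.y h0 (h1.trans h2)
    have c1 := (e p₀ ⟨hp₀, e₀.ge, e₀.le.trans h1⟩).2
    have c2 := (h.bt_of_le hp₀ hp.1 (e₀.le.trans hp.2.1)).1
    have := h.tri s.x (g • p₀) (g • p)
    have := s.act.iso g p₀ p
    simp only [Bt] at c2; grind

theorem Exit.anchor {a : G} {τ t : Λ} (e : s.Exit a τ) (l : s.Live s.x s.y τ t a) (h0 : 0 ≤ τ)
    (h1 : τ < t) (h2 : t ≤ d s.x s.y) :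
    ∃ c ∈ s.S, ∃ f ∈ s.S, Mp d a s.x s.y c f (-τ) τ t := by
  have h := s.act.tr
  obtain ⟨u, hu, v, hv, e1, e2⟩ := e
  obtain ⟨p₀, hp₀, e₀⟩ := h.ex_bt s.x s.y h0 (h1.le.trans h2)
  obtain ⟨p₁, hp₁, e₁⟩ := h.ex_bt s.x s.y (h0.trans h1.le) h2
  have b₀ := e1 p₀ ⟨hp₀, e₀.ge, e₀.le⟩
  have k₁ := l p₁ ⟨hp₁, by grind, e₁.le⟩
  obtain ⟨c1, c2⟩ := h.bt_of_le hp₀ hp₁ (by grind)
  have hne : a • p₀ ≠ a • p₁ := by
    intro e
    have := smul_left_cancel a e
    subst this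
    grind
  have nsd : ∀ w, (w = u ∨ w = v) → Bt d (a • p₁) (a • p₀) w := by
    intro w hw
    rw [← h.not_sd_iff]
    intro sd
    obtain ⟨m, m0, m1, m2⟩ := h.sd_med sd
    have m3 : Bt d u m v := by
      rcases hw with rfl | rfl
      · exact h.bt_conv b₀ (h.bt_left _ _) m2
      · exact h.bt_conv b₀ (h.bt_right _ _) m2
    have m4 : Bt d p₀ (a⁻¹ • m) p₁ := by
      rw [← s.act.bt_iff a, smul_inv_smul]; exact m1
    have m5 := h.bt_trans' c1 m4
    have m6 := (h.bt_trans m5.2 hp₁).1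
    refine e2 (a⁻¹ • m) m6 ?_ (by rw [smul_inv_smul]; exact m3)
    have : 0 < d p₀ (a⁻¹ • m) := by
      rw [← s.act.iso a, smul_inv_smul]; exact h.pos m0
    have := m5.1
    simp only [Bt] at this; grind
  have hc : a • p₀ ∈ s.S := by
    by_cases c1 : a • p₀ = u
    · exact c1 ▸ hu
    by_cases c2 : a • p₀ = v
    · exact c2 ▸ hv
    exact s.hBr _ ⟨_, k₁, u, s.hSK _ hu, v, s.hSK _ hv, hne, c1, c2, nsd u (Or.inl rfl),
      nsd v (Or.inr rfl), b₀⟩
  obtain ⟨f, hf, bf⟩ := h.hull_ext k₁ (a • p₀)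
  refine ⟨_, hc, f, s.hFS f hf, ?_⟩
  rintro p ⟨a1, a2, a3⟩
  obtain ⟨d1, d2⟩ := h.bt_of_le hp₀ a1 (by grind)
  obtain ⟨d3, d4⟩ := h.bt_of_le a1 hp₁ (by grind)
  have d5 : Bt d p₀ p p₁ := (h.bt_trans d1 d3).2
  refine ⟨(h.bt_trans (s.act.bt a d5) bf).1, ?_⟩
  rw [s.act.iso]
  simp only [Bt] at d1; grind

end Sys

end Pool.Agent.Work.MP_904812_al
end

-- merged part: Pool.Agent.Work.MP_904812_al.CutOne
section
/-! Cuts at the upper edge of a coset of a convex subgroup. -/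

namespace Pool.Agent.Work.MP_904812_al

set_option linter.unusedSectionVars false

open Relation

variable {Λ : Type*} [AddCommGroup Λ] [LinearOrder Λ] [IsOrderedAddMonoid Λ] {X : Type*}
variable {d : X → X → Λ} {G : Type*} [Group G] [MulAction G X]

theorem pigeon {ι : Type*} (I : Finset ι) (A : ι → Set Λ) (C : Set Λ) (hne : C.Nonempty)
    (hA : ∀ i, A i ⊆ C) (hmax : ∀ t ∈ C, ∃ t' ∈ C, t < t')
    (hcof : ∀ w ∈ C, ∃ i ∈ I, ∃ a ∈ A i, w ≤ a) :
    ∃ i ∈ I, ∃ a ∈ A i, ∃ a' ∈ A i, a < a' := by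
  classical
  by_contra hn
  push Not at hn
  have hb : ∀ J : Finset ι, J ⊆ I → ∃ b ∈ C, ∀ i ∈ J, ∀ a ∈ A i, a ≤ b := by
    intro J
    induction J using Finset.induction_on with
    | empty => exact fun _ => ⟨hne.some, hne.some_mem, by simp⟩
    | insert j J _ ih =>
      intro hJ
      obtain ⟨b, hb, hb'⟩ := ih fun i hi => hJ (Finset.mem_insert_of_mem hi)
      by_cases e : (A j).Nonempty
      · obtain ⟨a₀, ha₀⟩ := e
        refine ⟨max b a₀, ?_, fun i hi a ha => ?_⟩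
        · rcases max_choice b a₀ with e | e <;> rw [e]
          · exact hb
          · exact hA j ha₀
        · rcases Finset.mem_insert.1 hi with rfl | hi
          · exact (hn i (hJ (Finset.mem_insert_self _ _)) a₀ ha₀ a ha).trans (le_max_right _ _)
          · exact (hb' i hi a ha).trans (le_max_left _ _)
      · refine ⟨b, hb, fun i hi a ha => ?_⟩
        rcases Finset.mem_insert.1 hi with rfl | hi
        · exact absurd ⟨a, ha⟩ e
        · exact hb' i hi a ha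
  obtain ⟨b, hb, hb'⟩ := hb I subset_rfl
  obtain ⟨w, hw, hw'⟩ := hmax b hb
  obtain ⟨i, hi, a, ha, h⟩ := hcof w hw
  exact absurd (hb' i hi a ha) (not_le.2 (hw'.trans_le h))

namespace Sys

variable {s : Sys G d}

/-- a cut of the new band along which the new band is redundant -/
structure Cut (s : Sys G d) (C : Set Λ) : Prop where
  lower : ∀ {a b}, a ≤ b → b ∈ C → a ∈ C
  zero : 0 ∈ C
  top : d s.x s.y ∉ C
  nomax : ∀ t ∈ C, ∃ t' ∈ C, t < t'
  hyp : ∀ t ∈ C, 0 ≤ t → ∃ t', t < t' ∧ t' ≤ d s.x s.y ∧ s.Cn s.x s.y 0 t t' 1 s.φ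

theorem Cut.lt {C : Set Λ} (hC : s.Cut C) {a b : Λ} (ha : a ∈ C) (hb : b ∉ C) : a < b :=
  lt_of_not_ge fun e => hb (hC.lower e ha)

theorem cut_min {C : Set Λ} {a b : Λ} (ha : a ∉ C) (hb : b ∉ C) : min a b ∉ C := by
  rcases min_choice a b with e | e <;> rw [e] <;> assumption

theorem cut_max {C : Set Λ} {a b : Λ} (ha : a ∈ C) (hb : b ∈ C) : max a b ∈ C := by
  rcases max_choice a b with e | e <;> rw [e] <;> assumption

theorem Cut.firstBad {C : Set Λ} (hC : s.Cut C) {w w' : Λ} (h0 : 0 ≤ w) (h1 : w ≤ w')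
    (h2 : w' ≤ d s.x s.y) {g₀ g₁ : G} (l : s.Live s.x s.y w (d s.x s.y) g₀)
    (e : s.Cn s.x s.y 0 w w' g₀ g₁) :
    (∃ z, z ∉ C ∧ z ≤ d s.x s.y ∧ s.Cn s.x s.y 0 w z g₀ g₁) ∨
      ∃ a τ z, ∃ c ∈ s.S, ∃ f ∈ s.S, w ≤ τ ∧ τ ∈ C ∧ z ∉ C ∧ z ≤ d s.x s.y ∧
        s.Cn s.x s.y 0 τ z g₀ a ∧ Mp d a s.x s.y c f (-τ) τ z := by
  induction e with
  | refl => exact Or.inl ⟨_, hC.top, le_rfl, Cn.refl _ _ _ _ _ _⟩
  | @tail b b' _ r ih =>
    rcases ih with ⟨z, z1, z2, z3⟩ | ih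
    · obtain ⟨τ, t1, t2, t3, t4⟩ : ∃ τ, w' ≤ τ ∧ τ ≤ d s.x s.y ∧ s.Cn s.x s.y 0 w τ b b' ∧
          s.Exit b τ := by
        rcases r with r | r
        · obtain ⟨τ, t1, t2, t3, t4, -⟩ := r.max h0 h1 h2
          exact ⟨τ, t1, t2, t3.cn, t4⟩
        · obtain ⟨τ, t1, t2, t3, -, t4⟩ := r.max h0 h1 h2
          exact ⟨τ, t1, t2, t3.cn.symm, t4⟩
      by_cases hτ : τ ∈ C
      · have l' := (z3.live (l.mono le_rfl z2)).mono (h1.trans t1) le_rfl
        obtain ⟨c, hc, f, hf, m⟩ := t4.anchor l' (h0.trans (h1.trans t1)) (hC.lt hτ z1) z2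
        exact Or.inr ⟨b, τ, z, c, hc, f, hf, h1.trans t1, hτ, z1, z2,
          z3.mono (h1.trans t1) le_rfl le_rfl, m⟩
      · exact Or.inl ⟨min z τ, cut_min z1 hτ, (min_le_left _ _).trans z2,
          (z3.mono le_rfl (min_le_left _ _) le_rfl).trans
            (t3.mono le_rfl (min_le_right _ _) le_rfl)⟩
    · exact Or.inr ih

theorem Cut.translation {C : Set Λ} (hC : s.Cut C) {t₀ : Λ} (ht₀ : t₀ ∈ C) (h0 : 0 ≤ t₀)
    {g₀ g₁ : G} (l : ∀ u₁ u₂, s.Live s.x s.y u₁ u₂ g₀)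
    (hyp : ∀ t ∈ C, 0 ≤ t → ∃ t', t < t' ∧ t' ≤ d s.x s.y ∧ s.Cn s.x s.y 0 t t' g₀ g₁)
    (hn : ¬ ∃ w ∈ C, t₀ ≤ w ∧ ∃ z, z ∉ C ∧ z ≤ d s.x s.y ∧ s.Cn s.x s.y 0 w z g₀ g₁) :
    ∃ k : G, ∃ α β z : Λ, β < α ∧ α ∈ C ∧ t₀ ≤ β ∧ z ∉ C ∧ z ≤ d s.x s.y ∧
      Mp d k s.x s.y s.x s.y (β - α) α z ∧ s.Cn s.x s.y 0 α z g₀ (g₀ * k) := by
  classical
  let A : X × X → Set Λ := fun D => {τ | τ ∈ C ∧ t₀ ≤ τ ∧ ∃ a z, z ∉ C ∧ z ≤ d s.x s.y ∧
    s.Cn s.x s.y 0 τ z g₀ a ∧ Mp d a s.x s.y D.1 D.2 (-τ) τ z}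
  obtain ⟨⟨c, f⟩, -, β, ⟨b1, b2, a, z, b3, b4, b5, b6⟩, α, ⟨a1, a2, a', z', a3, a4, a5, a6⟩, hlt⟩ :=
    pigeon (s.S ×ˢ s.S) A C ⟨0, hC.zero⟩ (fun _ _ h => h.1) hC.nomax (by
      intro w hw
      have hw' : max w t₀ ∈ C := cut_max hw ht₀
      have h0' : 0 ≤ max w t₀ := h0.trans (le_max_right _ _)
      obtain ⟨t', t1, t2, t3⟩ := hyp _ hw' h0'
      rcases hC.firstBad h0' t1.le t2 (l _ _) t3 with e | ⟨a, τ, z, c, hc, f, hf, e1, e2, e3⟩
      · exact absurd ⟨_, hw', le_max_right _ _, e⟩ hn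
      · exact ⟨(c, f), Finset.mem_product.2 ⟨hc, hf⟩, τ,
          ⟨e2, (le_max_right _ _).trans e1, a, z, e3⟩, (le_max_left _ _).trans e1⟩)
  simp only at b6 a6
  have i1 := b6.inv s.act (h0.trans b2) b4
  have hz : z ≤ z + (α - β) := by grind
  let Z := min (z + (α - β)) z'
  have hZ1 : Z ≤ z + (α - β) := min_le_left _ _
  have hZ2 : Z ≤ z' := min_le_right _ _
  have m : Mp d (a⁻¹ * a') s.x s.y s.x s.y (β - α) α Z := by
    have := (a6.mono le_rfl hZ2).comp i1 (by grind) (by grind)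
    have e : -α + - -β = β - α := by abel
    rwa [e] at this
  refine ⟨a⁻¹ * a', α, β, Z, hlt, a1, b2, cut_min (fun e => b3 (hC.lower hz e)) a3,
    hZ2.trans a4, m, (a5.mono le_rfl hZ2 le_rfl).trans ?_⟩
  have := b5.transport (σ := 0) m (by grind) (by grind) (by grind)
  rw [mul_inv_cancel_left] at this
  exact this.symm

theorem newStep {k : G} {lam u₁ u₂ : Λ} (m : Mp d k s.x s.y s.x s.y lam u₁ u₂) (h : lam < 0) :
    s.Cn s.x s.y 0 u₁ u₂ k (s.φ * k) := by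
  refine St.cn (Or.inr ⟨rfl, fun p hp => ?_⟩)
  obtain ⟨a, b⟩ := m p hp
  exact ⟨a, by grind⟩

theorem Cut.one {C : Set Λ} (hC : s.Cut C) {t₀ : Λ} (ht₀ : t₀ ∈ C) (h0 : 0 ≤ t₀)
    (hadd : ∀ a ∈ C, ∀ b c, t₀ ≤ b → b ≤ c → c ∈ C → a + (c - b) ∈ C) :
    ∃ w ∈ C, t₀ ≤ w ∧ ∃ z, z ∉ C ∧ z ≤ d s.x s.y ∧ s.Cn s.x s.y 0 w z 1 s.φ := by
  by_contra hn
  obtain ⟨k, α, β, z, a1, a2, a3, a4, a5, a6, a7⟩ :=
    hC.translation ht₀ h0 s.live_one hC.hyp hn
  obtain ⟨k', α', β', z', b1, b2, b3, b4, b5, b6, b7⟩ :=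
    hC.translation (g₀ := s.φ) (g₁ := 1) ht₀ h0 s.live_phi
      (fun t ht h => by
        obtain ⟨t', c1, c2, c3⟩ := hC.hyp t ht h
        exact ⟨t', c1, c2, c3.symm⟩)
      (fun ⟨w, hw, c1, z, c2, c3, c4⟩ => hn ⟨w, hw, c1, z, c2, c3, c4.symm⟩)
  let w := max α α' + (α - β) + (α' - β')
  have hw : w ∈ C := hadd _ (hadd _ (cut_max a2 b2) β α a3 a1.le a2) β' α' b3 b1.le b2
  let Z := min z z'
  have hZ : Z ∉ C := cut_min a4 b4
  have z1 : Z ≤ z := min_le_left _ _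
  have z2 : Z ≤ z' := min_le_right _ _
  have w1 : α ≤ max α α' := le_max_left _ _
  have w2 : α' ≤ max α α' := le_max_right _ _
  have hwdef : w = max α α' + (α - β) + (α' - β') := rfl
  have hwZ := hC.lt hw hZ
  have m1 : Mp d k s.x s.y s.x s.y (β - α) w Z := a6.mono (by grind) z1
  have m2 : Mp d k' s.x s.y s.x s.y (β' - α') w Z := b6.mono (by clear * - Λ α β a1 α' β' b1 w2 z2; grind) z2
  have m3 := m1.comp b6 (by clear * - Λ α β α' β' b1 w2; grind) (by clear * - Λ α β z a1 z' z2; grind)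
  have m4 := m2.comp a6 (by clear * - Λ α β a1 α' β' w1; grind) (by clear * - Λ z α' β' z' b1 z1; grind)
  rw [add_comm] at m4
  have comm : k' * k = k * k' :=
    m3.uniq s.act m4 (t := w) (by clear * - Λ t₀ h0 α β a1 a3 α' β' b1 w1 hwZ; grind) (by grind) le_rfl hwZ.le le_rfl hwZ.le
  refine hn ⟨w, hw, by clear * - Λ t₀ α β a1 a3 α' β' b1 w1 Z a5 hZ z1; grind, Z, hZ, z1.trans a5, ?_⟩
  have p1 : s.Cn s.x s.y 0 w Z 1 k := by clear * - Λ X d G s w Z k α z a7 β a1 α' β' b1 w1 z1; simpa using a7.mono (by clear * - Λ α β a1 α' β' b1 w1 z1; grind) z1 le_rfl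
  have p2 := newStep m1 (by grind)
  have p3 := b7.transport (σ := 0) m1 (by clear * - Λ α β α' β' b1 w2; grind) (by grind) (by grind)
  have p4 := newStep m3 (by clear * - Λ α β a1 α' β' b1; grind)
  have p5 := a7.transport (σ := 0) m2 (by clear * - Λ α β a1 α' β' w1; grind) (by grind) (by grind)
  have p6 := newStep m2 (by grind)
  have p7 := b7.mono (u₁ := w) (by grind) z2 le_rfl
  rw [mul_assoc] at p3
  simp only [one_mul] at p5
  rw [← comm] at p5
  exact p1.trans (p2.trans (p3.trans (p4.symm.trans (p5.symm.trans (p6.trans p7.symm)))))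

end Sys

end Pool.Agent.Work.MP_904812_al
end

-- merged part: Pool.Agent.Work.MP_904812_al.Unif
section
/-! Small and big lengths with respect to a cut, uniform realisation of identifications. -/

namespace Pool.Agent.Work.MP_904812_al

set_option linter.unusedSectionVars false

open Relation

variable {Λ : Type*} [AddCommGroup Λ] [LinearOrder Λ] [IsOrderedAddMonoid Λ] {X : Type*}
variable {d : X → X → Λ} {G : Type*} [Group G] [MulAction G X]

theorem noeth_stab {ι : Type*} (T : Finset Λ) (I : Set ι) (hI : I.Nonempty)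
    (N : ι → AddSubgroup Λ) (hdir : ∀ i ∈ I, ∀ j ∈ I, ∃ k ∈ I, N i ≤ N k ∧ N j ≤ N k)
    (hN : ∀ i ∈ I, ∀ η ∈ N i, η + η ∈ AddSubgroup.closure (T : Set Λ)) :
    ∃ i ∈ I, ∀ j ∈ I, N j ≤ N i := by
  let M : Submodule ℤ Λ := Submodule.span ℤ (T : Set Λ)
  have : IsNoetherian ℤ M := isNoetherian_span_of_finite ℤ T.finite_toSet
  let two : Λ →ₗ[ℤ] Λ := LinearMap.id + LinearMap.id
  let R : ι → Submodule ℤ M := fun i => ((N i).toIntSubmodule.map two).comap M.subtype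
  obtain ⟨_, ⟨i, hi, rfl⟩, hmax⟩ := (set_has_maximal_iff_noetherian (R := ℤ) (M := M)).2
    inferInstance (R '' I) (hI.image R)
  refine ⟨i, hi, fun j hj η hη => ?_⟩
  obtain ⟨k, hk, h1, h2⟩ := hdir i hi j hj
  have hle : R i ≤ R k := Submodule.comap_mono (Submodule.map_mono fun a ha => h1 ha)
  have heq : R i = R k := by
    by_contra hne
    exact hmax _ ⟨k, hk, rfl⟩ (lt_of_le_of_ne hle hne)
  have hM : η + η ∈ M := by
    have := hN j hj η hη
    rw [← Submodule.span_int_eq_addSubgroupClosure] at this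
    exact this
  have : (⟨η + η, hM⟩ : M) ∈ R k := ⟨η, h2 hη, rfl⟩
  rw [← heq] at this
  obtain ⟨η', h3, h4⟩ := this
  have h5 : η' + η' = η + η := h4
  have : η' = η := by clear * - Λ η η' h5; grind
  exact this ▸ h3

/-- small with respect to the cut -/
def Small (C : Set Λ) (h : Λ) : Prop := ∀ t ∈ C, t + |h| ∈ C

/-- big with respect to the cut -/
def Big (C : Set Λ) (μ : Λ) : Prop := 0 < μ ∧ ¬ Small C μ

theorem Small.zero (C : Set Λ) : Small C 0 := fun t ht => by simpa using ht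

theorem Small.neg {C : Set Λ} {h : Λ} (a : Small C h) : Small C (-h) :=
  fun t ht => by simpa using a t ht

theorem Small.abs {C : Set Λ} {h : Λ} (a : Small C h) : Small C |h| :=
  fun t ht => by simpa using a t ht

theorem Big.min {C : Set Λ} {a b : Λ} (ha : Big C a) (hb : Big C b) : Big C (Min.min a b) := by
  rcases min_choice a b with e | e <;> rw [e] <;> assumption

theorem Small.max {C : Set Λ} {a b : Λ} (ha : Small C a) (hb : Small C b) :
    Small C (Max.max a b) := by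
  rcases max_choice a b with e | e <;> rw [e] <;> assumption

namespace Sys

variable {s : Sys G d} {C : Set Λ}

theorem Cut.small_le (hC : s.Cut C) {h h' : Λ} (a : Small C h) (e : |h'| ≤ |h|) : Small C h' :=
  fun t ht => hC.lower (by grind) (a t ht)

theorem Cut.small_add (hC : s.Cut C) {h h' : Λ} (a : Small C h) (b : Small C h') :
    Small C (h + h') :=
  fun t ht => hC.lower (by grind) (b _ (a t ht))

theorem Cut.small_sub (hC : s.Cut C) {h h' : Λ} (a : Small C h) (b : Small C h') :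
    Small C (h - h') := by
  rw [sub_eq_add_neg]; exact hC.small_add a b.neg

theorem Cut.add_small (hC : s.Cut C) {t h : Λ} (ht : t ∈ C) (a : Small C h) : t + h ∈ C :=
  hC.lower (by grind) (a t ht)

theorem Cut.lt_big (hC : s.Cut C) {h μ : Λ} (a : Small C h) (b : Big C μ) : h < μ := by
  by_contra hn
  have := b.1
  exact b.2 (hC.small_le a (by grind))

theorem Cut.big_le (hC : s.Cut C) {μ μ' : Λ} (b : Big C μ) (e : μ ≤ μ') : Big C μ' := by
  have := b.1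
  exact ⟨by grind, fun a => b.2 (hC.small_le a (by grind))⟩

theorem Cut.big_add (hC : s.Cut C) {h μ : Λ} (b : Big C μ) (a : Small C h) : Big C (μ + h) := by
  have := hC.lt_big a.neg b
  refine ⟨by grind, fun a' => b.2 ?_⟩
  simpa using hC.small_sub a' a

theorem big_of {μ : Λ} (h0 : 0 ≤ μ) (h : ¬ Small C μ) : Big C μ :=
  ⟨lt_of_le_of_ne h0 fun e => h (e ▸ Small.zero C), h⟩

theorem Cut.cross (hC : s.Cut C) {t : Λ} (ht : t ∈ C) (h0 : 0 ≤ t) :
    ∃ h μ, Small C h ∧ 0 ≤ h ∧ Big C μ ∧ t + μ ≤ d s.x s.y ∧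
      s.Cn s.x s.y 0 (t + h) (t + μ) 1 s.φ := by
  by_cases e : ∃ h₀, 0 < h₀ ∧ Small C h₀
  · obtain ⟨h₀, p₀, s₀⟩ := e
    let C' : Set Λ := {a | ∃ h, Small C h ∧ a ≤ t + h}
    have sub : ∀ a ∈ C', a ∈ C := fun a ⟨h, a1, a2⟩ => hC.lower a2 (hC.add_small ht a1)
    have tC : t ∈ C' := ⟨0, Small.zero C, by simp⟩
    have hC' : s.Cut C' := by
      refine ⟨fun e ⟨h, a1, a2⟩ => ⟨h, a1, e.trans a2⟩, ⟨0, Small.zero C, by simpa using h0⟩,
        fun e => hC.top (sub _ e), ?_, fun a ha => hC.hyp a (sub a ha)⟩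
      rintro a ⟨h, a1, a2⟩
      exact ⟨t + (h + h₀), ⟨h + h₀, hC.small_add a1 s₀, le_rfl⟩, by grind⟩
    obtain ⟨w, ⟨h, w1, w2⟩, w3, z, z1, z2, z3⟩ := hC'.one tC h0 (by
      rintro a ⟨h, a1, a2⟩ b c b1 b2 ⟨h', c1, c2⟩
      exact ⟨h + h', hC.small_add a1 c1, by grind⟩)
    have wz : w < z := hC'.lt ⟨h, w1, w2⟩ z1
    refine ⟨w - t, z - t, hC.small_le w1 (by grind), by grind,
      ⟨by grind, fun a => z1 ⟨_, a, by grind⟩⟩, by grind, ?_⟩
    simpa using z3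
  · obtain ⟨t', a1, a2, a3⟩ := hC.hyp t ht h0
    refine ⟨0, t' - t, Small.zero C, le_rfl, ⟨by grind, fun a => e ⟨_, by grind, a⟩⟩,
      by grind, ?_⟩
    simpa using a3

/-- the group generated by the distances between special points -/
noncomputable def dists (s : Sys G d) : Finset Λ :=
  (s.S ×ˢ s.S).image fun t => d t.1 t.2

theorem dist_mem (s : Sys G d) {a b : X} (ha : a ∈ s.S) (hb : b ∈ s.S) :
    d a b ∈ AddSubgroup.closure (s.dists : Set Λ) :=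
  AddSubgroup.subset_closure (Finset.mem_coe.2
    (Finset.mem_image.2 ⟨(a, b), Finset.mem_product.2 ⟨ha, hb⟩, rfl⟩))

end Sys

/-- equality up to sign modulo a subgroup -/
def PM (L : AddSubgroup Λ) (a b : Λ) : Prop := a - b ∈ L ∨ a + b ∈ L

theorem PM.refl (L : AddSubgroup Λ) (a : Λ) : PM L a a := Or.inl (by simp)

theorem PM.symm {L : AddSubgroup Λ} {a b : Λ} (h : PM L a b) : PM L b a := by
  rcases h with h | h
  · exact Or.inl (by simpa using L.neg_mem h)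
  · exact Or.inr (by rwa [add_comm])

theorem PM.trans {L : AddSubgroup Λ} {a b c : Λ} (h : PM L a b) (h' : PM L b c) : PM L a c := by
  rcases h with h | h <;> rcases h' with h' | h'
  · exact Or.inl (by have := L.add_mem h h'; simpa using this)
  · refine Or.inr ?_
    have := L.add_mem h h'
    have e : a - b + (b + c) = a + c := by abel
    rwa [e] at this
  · refine Or.inr ?_
    have := L.sub_mem h h'
    have e : a + b - (b - c) = a + c := by abel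
    rwa [e] at this
  · refine Or.inl ?_
    have := L.sub_mem h h'
    have e : a + b - (b + c) = a - c := by abel
    rwa [e] at this

theorem Tr.pm_base (h : Tr d) {F S : Finset X} {L : AddSubgroup Λ}
    (hSK : ∀ c ∈ S, c ∈ Hull d F) (hBr : ∀ c, Br d F c → c ∈ S)
    (hL : ∀ a ∈ S, ∀ b ∈ S, d a b ∈ L) {c c' p : X} (hc : c ∈ S) (hc' : c' ∈ S)
    (hp : p ∈ Hull d F) : PM L (d c p) (d c' p) := by
  obtain ⟨m, a1, a2, a3⟩ := h.med' c c' p
  have key : m ∈ S → PM L (d c p) (d c' p) := by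
    intro hm
    refine Or.inl ?_
    have := L.sub_mem (hL c hc m hm) (hL c' hc' m hm)
    have e : d c m - d c' m = d c p - d c' p := by simp only [Bt] at *; grind
    rwa [e] at this
  rcases h.med_cases (hSK c hc) (hSK c' hc') hp a1 a2 a3 with rfl | rfl | rfl | e
  · exact key hc
  · exact key hc'
  · refine Or.inr ?_
    have e : d c m + d c' m = d c c' := by rw [h.symm c' m]; exact a1
    rw [e]; exact hL c hc c' hc'
  · exact key (hBr m e)

namespace Sys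

variable {s : Sys G d} {C : Set Λ}

theorem pm_base (s : Sys G d) {c c' p : X} (hc : c ∈ s.S) (hc' : c' ∈ s.S)
    (hp : p ∈ Hull d s.F) : PM (AddSubgroup.closure (s.dists : Set Λ)) (d c p) (d c' p) :=
  s.act.tr.pm_base s.hSK s.hBr (fun _ ha _ hb => s.dist_mem ha hb) hc hc' hp

theorem St.pm {g g' : G} {c f r p : X} {σ u₁ u₂ : Λ} (e : s.St c f σ u₁ u₂ g g') (hr : r ∈ s.S)
    (hp : Sg d c f u₁ u₂ p) :
    PM (AddSubgroup.closure (s.dists : Set Λ)) (d r (g • p)) (d r (g' • p)) := by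
  have l := e.live
  obtain ⟨k, u, v, rfl, a1, -, a3, -, -⟩ := e.band
  refine (s.pm_base hr a1 (l.1 p hp)).trans ?_
  rw [← s.act.iso k u, ← mul_smul]
  exact s.pm_base a3 hr (l.2 p hp)

theorem Cn.pm {g g' : G} {c f r p : X} {σ u₁ u₂ : Λ} (e : s.Cn c f σ u₁ u₂ g g') (hr : r ∈ s.S)
    (hp : Sg d c f u₁ u₂ p) :
    PM (AddSubgroup.closure (s.dists : Set Λ)) (d r (g • p)) (d r (g' • p)) := by
  induction e with
  | refl => exact PM.refl _ _
  | tail _ r ih =>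
    rcases r with r | r
    · exact ih.trans (r.pm hr hp)
    · exact ih.trans (r.pm hr hp).symm

/-- an identification between two lines realised by a path, uniformly -/
def Real (s : Sys G d) (C : Set Λ) (σ μ : Λ) (c f c' f' : X) (δ : Λ) : Prop :=
  Small C δ ∧ ∃ (h : Λ) (k : G), Small C h ∧ 0 ≤ h ∧ μ - h ≤ d c f ∧
    Mp d k c f c' f' δ h (μ - h) ∧ s.Cn c f (σ + h) h (μ - h) 1 k

theorem Real.mono {σ μ σ' μ' δ : Λ} {c f c' f' : X} (r : s.Real C σ μ c f c' f' δ)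
    (h1 : σ ≤ σ') (h2 : μ' ≤ μ) : s.Real C σ' μ' c f c' f' δ := by
  obtain ⟨a, h, k, a1, a2, a3, a4, a5⟩ := r
  exact ⟨a, h, k, a1, a2, by grind, a4.mono le_rfl (by grind),
    a5.mono le_rfl (by grind) (by grind)⟩

theorem Real.comp (hC : s.Cut C) {σ μ δ δ' : Λ} {c f c' f' c'' f'' : X}
    (r : s.Real C σ μ c f c' f' δ) (r' : s.Real C σ μ c' f' c'' f'' δ') :
    s.Real C σ μ c f c'' f'' (δ + δ') := by
  obtain ⟨a, h, k, a1, a2, a3, a4, a5⟩ := r
  obtain ⟨b, h', k', b1, b2, b3, b4, b5⟩ := r'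
  have m : Mp d k c f c' f' δ (h + h' + |δ|) (μ - (h + h' + |δ|)) :=
    a4.mono (by grind) (by grind)
  refine ⟨hC.small_add a b, h + h' + |δ|, k' * k, hC.small_add (hC.small_add a1 b1) a.abs,
    by grind, by grind, m.comp b4 (by grind) (by grind),
    (a5.mono (by grind) (by grind) (by grind)).trans ?_⟩
  simpa using b5.transport (σ := σ + (h + h' + |δ|)) m (by grind) (by grind) (by grind)

theorem Real.inv (hC : s.Cut C) {σ μ δ : Λ} (hμ : Big C μ) {c f c' f' : X}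
    (r : s.Real C σ μ c f c' f' δ) : s.Real C σ μ c' f' c f (-δ) := by
  obtain ⟨a, h, k, a1, a2, a3, a4, a5⟩ := r
  have m : Mp d k⁻¹ c' f' c f (-δ) (h + |δ|) (μ - (h + |δ|)) :=
    (a4.inv s.act a2 a3).mono (by grind) (by grind)
  have hh := hC.lt_big (hC.small_add a1 a1) hμ
  obtain ⟨p, hp, e⟩ := s.act.tr.ex_bt c f (t := μ - h) (by grind) a3
  obtain ⟨c1, c2⟩ := a4 p ⟨hp, by grind, e.le⟩
  have c3 := s.act.tr.bt_le c1
  refine ⟨a.neg, h + |δ|, k⁻¹, hC.small_add a1 a.abs, by grind, by grind, m, ?_⟩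
  have := a5.transport (σ := σ + (h + |δ|)) m (by grind) (by grind) (by grind)
  simpa using this.symm

theorem Real.dbl (hC : s.Cut C) {σ μ η : Λ} (hμ : Big C μ) {c f : X} (hc : c ∈ s.S)
    (r : s.Real C σ μ c f c f η) : η + η ∈ AddSubgroup.closure (s.dists : Set Λ) := by
  obtain ⟨a, h, k, a1, a2, a3, a4, a5⟩ := r
  have hh := hC.lt_big (hC.small_add (hC.small_add a1 a1) a.abs) hμ
  have key : ∀ u, h ≤ u → u ≤ μ - h →
      PM (AddSubgroup.closure (s.dists : Set Λ)) u (u + η) := by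
    intro u u1 u2
    obtain ⟨p, hp, e⟩ := s.act.tr.ex_bt c f (t := u) (by grind) (by grind)
    have hp' : Sg d c f h (μ - h) p := ⟨hp, by grind, by grind⟩
    have := a5.pm hc hp'
    rwa [one_smul, (a4 p hp').2, e] at this
  rcases key h le_rfl (by grind) with e | e
  · have := AddSubgroup.neg_mem _ (AddSubgroup.add_mem _ e e)
    have e' : -(h - (h + η) + (h - (h + η))) = η + η := by abel
    rwa [e'] at this
  · rcases key (h + |η|) (by grind) (by grind) with e' | e'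
    · have := AddSubgroup.neg_mem _ (AddSubgroup.add_mem _ e' e')
      have e'' : -(h + |η| - (h + |η| + η) + (h + |η| - (h + |η| + η))) = η + η := by abel
      rwa [e''] at this
    · have := AddSubgroup.sub_mem _ e' e
      have e'' : h + |η| + (h + |η| + η) - (h + (h + η)) = |η| + |η| := by abel
      rw [e''] at this
      rcases abs_choice η with c | c
      · rwa [c] at this
      · rw [c] at this
        have := AddSubgroup.neg_mem _ this
        simpa using this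

/-- the stabiliser of a set -/
def stab (A : Set Λ) : AddSubgroup Λ where
  carrier := {η | ∀ δ, δ ∈ A ↔ δ + η ∈ A}
  zero_mem' := by simp
  add_mem' := fun {a b} ha hb δ => by rw [ha δ, hb (δ + a), add_assoc]
  neg_mem' := fun {a} ha δ => by rw [ha (δ + -a)]; simp

theorem Cut.unif_pair (hC : s.Cut C) {μ₁ : Λ} (hμ₁ : Big C μ₁) {c : X} (hc : c ∈ s.S)
    (f c' f' : X) :
    ∃ σ₀ ∈ C, ∃ μ₀, Big C μ₀ ∧ ∀ δ, ∀ σ ∈ C, ∀ μ, Big C μ → s.Real C σ μ c f c' f' δ →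
      s.Real C σ₀ μ₀ c f c' f' δ := by
  by_cases e : ∃ δ, ∃ σ ∈ C, ∃ μ, Big C μ ∧ s.Real C σ μ c f c' f' δ
  swap
  · exact ⟨0, hC.zero, μ₁, hμ₁, fun δ σ hσ μ hμ r => absurd ⟨δ, σ, hσ, μ, hμ, r⟩ e⟩
  obtain ⟨δ₀, σ₂, hσ₂, μ₂, hμ₂, r₀⟩ := e
  let I : Set (Λ × Λ) := {i | i.1 ∈ C ∧ Big C i.2 ∧ s.Real C i.1 i.2 c f c' f' δ₀}
  let N : Λ × Λ → AddSubgroup Λ := fun i => stab {δ | s.Real C i.1 i.2 c f c' f' δ}
  have mem : ∀ i ∈ I, ∀ η, η ∈ N i ↔ s.Real C i.1 i.2 c f c' f' (δ₀ + η) := by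
    rintro i ⟨-, i2, i3⟩ η
    refine ⟨fun h => (h δ₀).1 i3, fun h δ => ⟨fun r => ?_, fun r => ?_⟩⟩
    · have := (Real.comp hC r (i3.inv hC i2)).comp hC h
      have e : δ + -δ₀ + (δ₀ + η) = δ + η := by abel
      rwa [e] at this
    · have := (Real.comp hC r (h.inv hC i2)).comp hC i3
      have e : δ + η + -(δ₀ + η) + δ₀ = δ := by abel
      rwa [e] at this
  obtain ⟨i, hi, hmax⟩ := noeth_stab s.dists I ⟨(σ₂, μ₂), hσ₂, hμ₂, r₀⟩ N (by
      intro i hi j hj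
      have hk : (max i.1 j.1, min i.2 j.2) ∈ I :=
        ⟨cut_max hi.1 hj.1, hi.2.1.min hj.2.1, hi.2.2.mono (le_max_left _ _) (min_le_left _ _)⟩
      refine ⟨_, hk, fun η h => ?_, fun η h => ?_⟩
      · exact (mem _ hk η).2 (((mem i hi η).1 h).mono (le_max_left _ _) (min_le_left _ _))
      · exact (mem _ hk η).2 (((mem j hj η).1 h).mono (le_max_right _ _) (min_le_right _ _)))
    (by
      intro i hi η h
      have := ((mem i hi η).1 h).comp hC (hi.2.2.inv hC hi.2.1)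
      have e : δ₀ + η + -δ₀ = η := by abel
      rw [e] at this
      exact this.dbl hC hi.2.1 hc)
  refine ⟨i.1, hi.1, i.2, hi.2.1, fun δ σ hσ μ hμ r => ?_⟩
  have hj : (max σ σ₂, min μ μ₂) ∈ I :=
    ⟨cut_max hσ hσ₂, hμ.min hμ₂, r₀.mono (le_max_right _ _) (min_le_right _ _)⟩
  have h1 : δ - δ₀ ∈ N (max σ σ₂, min μ μ₂) :=
    (mem _ hj _).2 (by simpa using r.mono (le_max_left σ σ₂) (min_le_left μ μ₂))
  simpa using (mem i hi _).1 (hmax _ hj h1)

theorem fin_dir {ι : Type*} (I : Finset ι) (R : ι → Λ → Λ → Prop) {σ₁ μ₁ : Λ} (h1 : σ₁ ∈ C)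
    (h2 : Big C μ₁) (hmono : ∀ i σ μ σ' μ', R i σ μ → σ ≤ σ' → μ' ≤ μ → R i σ' μ')
    (hex : ∀ i ∈ I, ∃ σ ∈ C, ∃ μ, Big C μ ∧ R i σ μ) :
    ∃ σ ∈ C, ∃ μ, Big C μ ∧ ∀ i ∈ I, R i σ μ := by
  classical
  induction I using Finset.induction_on with
  | empty => exact ⟨σ₁, h1, μ₁, h2, by simp⟩
  | insert j J _ ih =>
    obtain ⟨σ, a1, μ, a2, a3⟩ := ih fun i hi => hex i (Finset.mem_insert_of_mem hi)
    obtain ⟨σ', b1, μ', b2, b3⟩ := hex j (Finset.mem_insert_self _ _)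
    refine ⟨max σ σ', cut_max a1 b1, min μ μ', a2.min b2, fun i hi => ?_⟩
    rcases Finset.mem_insert.1 hi with rfl | hi
    · exact hmono _ _ _ _ _ b3 (le_max_right _ _) (min_le_right _ _)
    · exact hmono _ _ _ _ _ (a3 i hi) (le_max_left _ _) (min_le_left _ _)

theorem Cut.unif (hC : s.Cut C) {μ₁ : Λ} (hμ₁ : Big C μ₁) :
    ∃ σ₀ ∈ C, ∃ μ₀, Big C μ₀ ∧ (∀ a ∈ s.S, ∀ b ∈ s.S, Big C (d a b) → μ₀ ≤ d a b) ∧
      ∀ c ∈ s.S, ∀ f ∈ s.S, ∀ c' ∈ s.S, ∀ f' ∈ s.S, ∀ δ, ∀ σ ∈ C, ∀ μ, Big C μ →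
        s.Real C σ μ c f c' f' δ → s.Real C σ₀ μ₀ c f c' f' δ := by
  classical
  obtain ⟨σ₀, a1, μ₀, a2, a3⟩ := fin_dir (C := C) ((s.S ×ˢ s.S) ×ˢ (s.S ×ˢ s.S))
    (fun i σ₀ μ₀ => (Big C (d i.1.1 i.1.2) → μ₀ ≤ d i.1.1 i.1.2) ∧ ∀ δ, ∀ σ ∈ C, ∀ μ, Big C μ →
      s.Real C σ μ i.1.1 i.1.2 i.2.1 i.2.2 δ → s.Real C σ₀ μ₀ i.1.1 i.1.2 i.2.1 i.2.2 δ)
    hC.zero hμ₁
    (fun i σ μ σ' μ' r h1 h2 => ⟨fun b => h2.trans (r.1 b),
      fun δ σ'' a μ'' b e => (r.2 δ σ'' a μ'' b e).mono h1 h2⟩)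
    (by
      intro i hi
      obtain ⟨σ, b1, μ, b2, b3⟩ := hC.unif_pair hμ₁
        (Finset.mem_product.1 (Finset.mem_product.1 hi).1).1 i.1.2 i.2.1 i.2.2
      by_cases e : Big C (d i.1.1 i.1.2)
      · exact ⟨σ, b1, _, b2.min e, fun _ => min_le_right _ _,
          fun δ σ'' a μ'' b e => (b3 δ σ'' a μ'' b e).mono le_rfl (min_le_left _ _)⟩
      · exact ⟨σ, b1, μ, b2, fun e' => absurd e' e, b3⟩)
  refine ⟨σ₀, a1, μ₀, a2, fun a ha b hb => (a3 ((a, b), (a, b)) ?_).1,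
    fun c hc f hf c' hc' f' hf' => (a3 ((c, f), (c', f')) ?_).2⟩
  · simp [ha, hb]
  · simp [hc, hf, hc', hf']

end Sys

end Pool.Agent.Work.MP_904812_al
end

-- merged part: Pool.Agent.Work.MP_904812_al.CutTwo
section
/-! General cuts: the rerouting argument. -/

namespace Pool.Agent.Work.MP_904812_al

set_option linter.unusedSectionVars false

open Relation

variable {Λ : Type*} [AddCommGroup Λ] [LinearOrder Λ] [IsOrderedAddMonoid Λ] {X : Type*}
variable {d : X → X → Λ} {G : Type*} [Group G] [MulAction G X]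

namespace Sys

/-- a link that survives the cut as long as one of its ends stays in the hull -/
def GoodL (s : Sys G d) (C : Set Λ) (t : Λ) (g g' : G) : Prop :=
  ∃ z, z ∉ C ∧ z ≤ d s.x s.y ∧ ∀ u, t ≤ u → u ≤ z →
    (s.Live s.x s.y t u g ∨ s.Live s.x s.y t u g') → s.Cn s.x s.y 0 t u g g'

/-- a link that dies at time `τ` -/
def BL (s : Sys G d) (C : Set Λ) (t τ : Λ) (g g' : G) : Prop :=
  t < τ ∧ τ ∈ C ∧ s.Cn s.x s.y 0 t τ g g' ∧ s.Exit g τ ∧ s.Exit g' τ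

/-- chains of links, with the list of death times -/
inductive Mixed (s : Sys G d) (C : Set Λ) (t : Λ) : List Λ → G → G → Prop
  | nil (g : G) : Mixed s C t [] g g
  | good {l : List Λ} {g g' g'' : G} : s.GoodL C t g g' → Mixed s C t l g' g'' → Mixed s C t l g g''
  | bad {l : List Λ} {τ : Λ} {g g' g'' : G} : s.BL C t τ g g' → Mixed s C t l g' g'' →
      Mixed s C t (τ :: l) g g''

variable {s : Sys G d} {C : Set Λ}

theorem Mixed.of_cn {t t' : Λ} (h0 : 0 ≤ t) (h1 : t < t') (h2 : t' ≤ d s.x s.y) {g g' : G}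
    (e : s.Cn s.x s.y 0 t t' g g') : ∃ l, Mixed s C t l g g' := by
  induction e using ReflTransGen.head_induction_on with
  | refl => exact ⟨[], Mixed.nil _⟩
  | @head a b r _ ih =>
    obtain ⟨l, hl⟩ := ih
    obtain ⟨τ, t1, t2, t3, t4, t5⟩ : ∃ τ, t' ≤ τ ∧ τ ≤ d s.x s.y ∧ s.Cn s.x s.y 0 t τ a b ∧
        s.Exit a τ ∧ s.Exit b τ := by
      rcases r with r | r
      · obtain ⟨τ, t1, t2, t3, t4, t5⟩ := r.max h0 h1.le h2
        exact ⟨τ, t1, t2, t3.cn, t4, t5⟩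
      · obtain ⟨τ, t1, t2, t3, t4, t5⟩ := r.max h0 h1.le h2
        exact ⟨τ, t1, t2, t3.cn.symm, t5, t4⟩
    by_cases hτ : τ ∈ C
    · exact ⟨τ :: l, Mixed.bad ⟨h1.trans_le t1, hτ, t3, t4, t5⟩ hl⟩
    · exact ⟨l, Mixed.good ⟨τ, hτ, t2, fun u _ u2 _ => t3.mono le_rfl u2 le_rfl⟩ hl⟩

theorem Mixed.append {t : Λ} {l l' : List Λ} {g g' g'' : G} (a : Mixed s C t l g g')
    (b : Mixed s C t l' g' g'') : Mixed s C t (l ++ l') g g'' := by
  induction a with
  | nil g => exact b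
  | good r _ ih => exact Mixed.good r (ih b)
  | bad r _ ih => exact Mixed.bad r (ih b)

theorem Mixed.mem {t : Λ} {l : List Λ} {g g' : G} (a : Mixed s C t l g g') :
    ∀ τ ∈ l, t < τ ∧ τ ∈ C := by
  induction a with
  | nil g => simp
  | good _ _ ih => exact ih
  | bad r _ ih =>
    intro τ hτ
    rcases List.mem_cons.1 hτ with rfl | hτ
    · exact ⟨r.1, r.2.1⟩
    · exact ih τ hτ

theorem Mixed.persist (hC : s.Cut C) {t : Λ} {l : List Λ} {g g' : G} (a : Mixed s C t l g g') :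
    ∃ z, z ∉ C ∧ z ≤ d s.x s.y ∧ ∀ u, t ≤ u → u ≤ z → (∀ τ ∈ l, u ≤ τ) →
      (s.Live s.x s.y t u g ∨ s.Live s.x s.y t u g') → s.Cn s.x s.y 0 t u g g' := by
  induction a with
  | nil g => exact ⟨_, hC.top, le_rfl, fun u _ _ _ _ => Cn.refl _ _ _ _ _ _⟩
  | good r _ ih =>
    obtain ⟨z, z1, z2, z3⟩ := ih
    obtain ⟨z', y1, y2, y3⟩ := r
    refine ⟨min z z', cut_min z1 y1, (min_le_left _ _).trans z2, fun u u1 u2 u3 u4 => ?_⟩
    have v1 := u2.trans (min_le_left _ _)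
    have v2 := u2.trans (min_le_right _ _)
    rcases u4 with u4 | u4
    · have c := y3 u u1 v2 (Or.inl u4)
      exact c.trans (z3 u u1 v1 u3 (Or.inl (c.live u4)))
    · have c := z3 u u1 v1 u3 (Or.inr u4)
      exact (y3 u u1 v2 (Or.inr (c.symm.live u4))).trans c
  | bad r _ ih =>
    obtain ⟨z, z1, z2, z3⟩ := ih
    refine ⟨z, z1, z2, fun u u1 u2 u3 u4 => ?_⟩
    have c := r.2.2.1.mono le_rfl (u3 _ List.mem_cons_self) le_rfl
    refine c.trans (z3 u u1 u2 (fun τ hτ => u3 τ (List.mem_cons_of_mem _ hτ)) ?_)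
    exact u4.imp_left c.live

theorem Mixed.shift (hC : s.Cut C) {t t' : Λ} (h1 : t ≤ t') (h2 : t' ∈ C) {l : List Λ} {g g' : G}
    (a : Mixed s C t l g g') (hl : ∀ τ ∈ l, t' < τ)
    (lv : s.Live s.x s.y t t' g ∨ s.Live s.x s.y t t' g') : Mixed s C t' l g g' := by
  induction a with
  | nil g => exact Mixed.nil g
  | @good l g g' g'' r a ih =>
    obtain ⟨z, z1, z2, z3⟩ := a.persist hC
    obtain ⟨z', y1, y2, y3⟩ := r
    have lv' : s.Live s.x s.y t t' g ∧ s.Live s.x s.y t t' g' := by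
      rcases lv with lv | lv
      · exact ⟨lv, (y3 t' h1 (hC.lt h2 y1).le (Or.inl lv)).live lv⟩
      · have := (z3 t' h1 (hC.lt h2 z1).le (fun τ hτ => (hl τ hτ).le) (Or.inr lv)).symm.live lv
        exact ⟨(y3 t' h1 (hC.lt h2 y1).le (Or.inr this)).symm.live this, this⟩
    refine Mixed.good ⟨z', y1, y2, fun u u1 u2 u3 => ?_⟩ (ih hl (Or.inl lv'.2))
    exact (y3 u (h1.trans u1) u2 (u3.imp lv'.1.union lv'.2.union)).mono h1 le_rfl le_rfl
  | @bad l τ g g' g'' r a ih =>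
    have hτ := hl τ List.mem_cons_self
    refine Mixed.bad ⟨hτ, r.2.1, r.2.2.1.mono h1 le_rfl le_rfl, r.2.2.2⟩
      (ih (fun τ hτ => hl τ (List.mem_cons_of_mem _ hτ)) ?_)
    exact lv.imp_left (r.2.2.1.mono le_rfl hτ.le le_rfl).live

theorem Mixed.split {t : Λ} {l : List Λ} {g g' : G} (a : Mixed s C t l g g') (E : Λ → Prop) :
    (∀ τ ∈ l, ¬ E τ) ∨ ∃ l₁ l₂ a b τa τb, Mixed s C t l₁ g a ∧ Mixed s C t l₂ b g' ∧
      (∀ τ ∈ l₁ ++ l₂, ¬ E τ ∧ τ ∈ l) ∧ (l₁ ++ l₂).length < l.length ∧ E τa ∧ E τb ∧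
      τa ∈ l ∧ τb ∈ l ∧ s.Exit a τa ∧ s.Exit b τb := by
  induction a with
  | nil g => exact Or.inl (by simp)
  | good r _ ih =>
    rcases ih with ih | ⟨l₁, l₂, a, b, τa, τb, h1, h2⟩
    · exact Or.inl ih
    · exact Or.inr ⟨l₁, l₂, a, b, τa, τb, Mixed.good r h1, h2⟩
  | @bad l τ g g' g'' r m ih =>
    by_cases e : E τ
    · rcases ih with ih | ⟨l₁, l₂, a, b, τa, τb, h1, h2, h3, h4, h5, h6, h7, h8, h9, h10⟩
      · exact Or.inr ⟨[], l, g, g', τ, τ, Mixed.nil g, m,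
          fun σ hσ => ⟨ih σ hσ, List.mem_cons_of_mem _ hσ⟩, by simp, e, e, List.mem_cons_self,
          List.mem_cons_self, r.2.2.2.1, r.2.2.2.2⟩
      · refine Or.inr ⟨[], l₂, g, b, τ, τb, Mixed.nil g, h2, fun σ hσ => ?_, ?_, e, h6,
          List.mem_cons_self, List.mem_cons_of_mem _ h8, r.2.2.2.1, h10⟩
        · have := h3 σ (List.mem_append_right _ hσ)
          exact ⟨this.1, List.mem_cons_of_mem _ this.2⟩
        · simp only [List.length_append, List.length_cons, List.length_nil] at *; omega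
    · rcases ih with ih | ⟨l₁, l₂, a, b, τa, τb, h1, h2, h3, h4, h5, h6, h7, h8, h9, h10⟩
      · refine Or.inl fun σ hσ => ?_
        rcases List.mem_cons.1 hσ with rfl | hσ
        · exact e
        · exact ih σ hσ
      · refine Or.inr ⟨τ :: l₁, l₂, a, b, τa, τb, Mixed.bad r h1, h2, fun σ hσ => ?_, ?_, h5, h6,
          List.mem_cons_of_mem _ h7, List.mem_cons_of_mem _ h8, h9, h10⟩
        · rcases List.mem_cons.1 hσ with rfl | hσ
          · exact ⟨e, List.mem_cons_self⟩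
          · exact ⟨(h3 σ hσ).1, List.mem_cons_of_mem _ (h3 σ hσ).2⟩
        · simp only [List.length_append, List.length_cons] at *; omega

theorem Cut.follow (hC : s.Cut C) {μ₀ : Λ}
    (hμ : ∀ a ∈ s.S, ∀ b ∈ s.S, Big C (d a b) → μ₀ ≤ d a b) {a : G} {c f : X} (hc : c ∈ s.S)
    (hf : f ∈ s.S) {τ t₁ t' t : Λ} (m : Mp d a s.x s.y c f (-τ) τ t₁) (h0 : 0 ≤ τ)
    (h1 : Big C (t₁ - τ)) (h2 : t₁ ≤ d s.x s.y) (h3 : τ ≤ t') (l : s.Live s.x s.y t' t a)
    (h4 : t - τ ≤ μ₀) : Mp d a s.x s.y c f (-τ) t' t := by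
  have h := s.act.tr
  rintro p ⟨a1, a2, a3⟩
  rcases le_total (d s.x p) t₁ with e | e
  · exact m p ⟨a1, h3.trans a2, e⟩
  have hp := h1.1
  obtain ⟨p₀, hp₀, e₀⟩ := h.ex_bt s.x s.y h0 (by grind : τ ≤ d s.x s.y)
  obtain ⟨p₁, hp₁, e₁⟩ := h.ex_bt s.x s.y (by grind : 0 ≤ t₁) h2
  obtain ⟨b1, b2⟩ := m p₀ ⟨hp₀, e₀.ge, by grind⟩
  obtain ⟨c1, c2⟩ := m p₁ ⟨hp₁, by clear * - Λ X d G s τ t₁ hp p₁ e₁; grind, e₁.le⟩
  have hc0 : c = a • p₀ := h.eq_of (by clear * - Λ X d G s a c τ p₀ e₀ b2; grind)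
  obtain ⟨d1, d2⟩ := h.bt_of_le hp₀ a1 (by clear * - Λ X d G s τ t' h3 p a2 p₀ e₀; grind)
  obtain ⟨d3, d4⟩ := h.bt_of_le hp₁ a1 (by clear * - Λ X d G s t₁ p e p₁ e₁; grind)
  have d5 := (h.bt_of_le d1 d3 (by clear * - Λ X d G s τ t₁ hp p₀ e₀ p₁ e₁; grind)).2
  have d6 : Bt d c (a • p₁) (a • p) := hc0 ▸ s.act.bt a d5
  have d7 : d c (a • p) = d s.x p + -τ := by
    rw [hc0, s.act.iso]; simp only [Bt] at d1; grind
  refine ⟨?_, d7⟩
  have kp := l p ⟨a1, a2, a3⟩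
  obtain ⟨m, m1, m2, m3⟩ := h.med' c (a • p) f
  have hm : t₁ - τ ≤ d c m := by
    clear * - Λ d G X a p f p₁ h m s c τ t₁ p₀ e₁ b1 c1 c2 d6 m1 m2 m3
    have := h.tri (a • p) (a • p₁) f
    have := h.symm (a • p) (a • p₁)
    have := h.symm (a • p) m
    simp only [Bt] at *; grind
  have key : m ∈ s.S → Bt d c (a • p) f := by
    clear * - X Λ G d s m μ₀ c hμ hc C hC t₁ τ h1 hm a p h m1 t h4 a3 d7 f m2
    intro hS
    have := hμ c hc m hS (hC.big_le h1 hm)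
    have := h.bt_le m1
    have : m = a • p := h.bt_uniq m1 (h.bt_right _ _) (by grind)
    exact this ▸ m2
  rcases h.med_cases (s.hSK c hc) kp (s.hSK f hf) m1 m2 m3 with e | e | e | e
  · exact key (e ▸ hc)
  · exact e ▸ m2
  · exact key (e ▸ hf)
  · exact key (s.hBr m e)

theorem list_min (l : List Λ) (h : l ≠ []) : ∃ a ∈ l, ∀ b ∈ l, a ≤ b := by
  classical
  obtain ⟨a, ha, hmin⟩ := Finset.exists_min_image l.toFinset id
    (by obtain ⟨a, ha⟩ := List.exists_mem_of_ne_nil l h; exact ⟨a, List.mem_toFinset.2 ha⟩)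
  exact ⟨a, List.mem_toFinset.1 ha, fun b hb => hmin b (List.mem_toFinset.2 hb)⟩

theorem list_lower (P : Λ → Prop) (l : List Λ) {t : Λ} (ht : P t) (h : ∀ τ ∈ l, P τ) :
    ∃ u, P u ∧ u ≤ t ∧ ∀ τ ∈ l, u ≤ τ := by
  obtain ⟨a, ha, hmin⟩ := list_min (t :: l) (by simp)
  refine ⟨a, ?_, hmin t List.mem_cons_self, fun τ hτ => hmin τ (List.mem_cons_of_mem _ hτ)⟩
  rcases List.mem_cons.1 ha with rfl | ha
  · exact ht
  · exact h a ha

theorem Cut.step (hC : s.Cut C) (hII : ∀ t₀ ∈ C, ∃ t ∈ C, Big C (t - t₀)) {σ₀ μ₀ w : Λ}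
    (hμ₀ : Big C μ₀) (hμ : ∀ a ∈ s.S, ∀ b ∈ s.S, Big C (d a b) → μ₀ ≤ d a b)
    (hU : ∀ c ∈ s.S, ∀ f ∈ s.S, ∀ c' ∈ s.S, ∀ f' ∈ s.S, ∀ δ, ∀ σ ∈ C, ∀ μ, Big C μ →
        s.Real C σ μ c f c' f' δ → s.Real C σ₀ μ₀ c f c' f' δ)
    (hw0 : 0 ≤ w) (hw1 : Big C (w - σ₀)) (hw2 : w + μ₀ ∉ C) {t : Λ} (ht : w ≤ t) {l : List Λ}
    (hl : l ≠ []) (m : Mixed s C t l 1 s.φ) :
    ∃ t' ∈ C, w ≤ t' ∧ ∃ l' : List Λ, l'.length < l.length ∧ Mixed s C t' l' 1 s.φ := by
  obtain ⟨r, hr, hmin⟩ := list_min l hl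
  obtain ⟨r1, r2⟩ := m.mem r hr
  rcases m.split (fun τ => Small C (τ - r)) with e |
    ⟨l₁, l₂, a, b, τa, τb, m1, m2, h3, h4, sa, sb, la, lb, ea, eb⟩
  · exact absurd (by simpa using Small.zero C) (e r hr)
  obtain ⟨t₀, ht₀, bt₀⟩ := hII r r2
  have hbig : ∀ τ ∈ l₁ ++ l₂, τ ∈ C ∧ Big C (τ - r) := fun τ hτ =>
    ⟨(m.mem τ (h3 τ hτ).2).2, big_of (by have := hmin τ (h3 τ hτ).2; grind (ematch := 0)) (h3 τ hτ).1⟩
  obtain ⟨t₁, ⟨c1, c2⟩, -, c3⟩ := list_lower (fun τ => τ ∈ C ∧ Big C (τ - r)) (l₁ ++ l₂)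
    ⟨ht₀, bt₀⟩ hbig
  have c4 := c2.1
  have c5 : t₁ ≤ d s.x s.y := (hC.lt c1 hC.top).le
  obtain ⟨z₁, z1, -, z3⟩ := m1.persist hC
  obtain ⟨z₂, y1, -, y3⟩ := m2.persist hC
  have p1 := z3 t₁ (by clear * - Λ t r r1 t₁ c4 c1 c3 hC s z1; grind (ematch := 0)) (hC.lt c1 z1).le (fun τ hτ => c3 τ (List.mem_append_left _ hτ))
    (Or.inl (s.live_one _ _))
  have p2 := y3 t₁ (by clear * - Λ t r r1 t₁ c4 c1 c3 hC s y1; grind (ematch := 0)) (hC.lt c1 y1).le (fun τ hτ => c3 τ (List.mem_append_right _ hτ))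
    (Or.inr (s.live_phi _ _))
  have l1 := p1.live (s.live_one _ _)
  have l2 := p2.symm.live (s.live_phi _ _)
  have ra := hmin τa la
  have rb := hmin τb lb
  have ca := (m.mem τa la).2
  have ba : Big C (t₁ - τa) := by
    have := hC.big_add c2 sa.neg
    have e : t₁ - r + -(τa - r) = t₁ - τa := by abel
    rwa [e] at this
  have bb : Big C (t₁ - τb) := by
    have := hC.big_add c2 sb.neg
    have e : t₁ - r + -(τb - r) = t₁ - τb := by abel
    rwa [e] at this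
  have ba1 := ba.1
  have bb1 := bb.1
  obtain ⟨c, hc, f, hf, ma⟩ := ea.anchor (t := t₁) (l1.mono (by grind (ematch := 0)) le_rfl) (by clear * - Λ w hw0 t ht r r1 τa ra c5; grind (ematch := 0))
    (by clear * - Λ τa t₁ ba1 c5; grind (ematch := 0)) c5
  obtain ⟨c', hc', f', hf', mb⟩ := eb.anchor (t := t₁) (l2.mono (by clear * - Λ t r r1 τb rb c5; grind (ematch := 0)) le_rfl) (by grind (ematch := 0))
    (by grind (ematch := 0)) c5
  obtain ⟨h, μ, s1, s2, s3, s4, s5⟩ := hC.cross r2 (by grind (ematch := 0))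
  -- the common interval
  obtain ⟨e₀, se, e1, e2, e3⟩ : ∃ e₀, Small C e₀ ∧ h ≤ e₀ ∧ τa - r ≤ e₀ ∧ τb - r ≤ e₀ :=
    ⟨max h (max (τa - r) (τb - r)), s1.max (sa.max sb), le_max_left _ _,
      (le_max_left _ _).trans (le_max_right _ _), (le_max_right _ _).trans (le_max_right _ _)⟩
  obtain ⟨ν, bν, n1, n2⟩ : ∃ ν, Big C ν ∧ ν ≤ t₁ - r ∧ ν ≤ μ :=
    ⟨min (t₁ - r) μ, c2.min s3, min_le_left _ _, min_le_right _ _⟩
  have eν := hC.lt_big se bν
  have pab : s.Cn s.x s.y 0 (r + e₀) (r + ν) a b :=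
    (p1.mono (by clear * - Λ t r r1 h s2 e₀ e1 p2 s5; grind (ematch := 0)) (by clear * - Λ r t₁ ν n1 p2 s5; grind (ematch := 0)) le_rfl).symm.trans
      ((s5.mono (by clear * - Λ r h e₀ e1 p2; grind (ematch := 0)) (by clear * - Λ r μ ν n2 p2; grind (ematch := 0)) le_rfl).trans (p2.mono (by clear * - Λ t r r1 h s2 e₀ e1; grind (ematch := 0)) (by grind (ematch := 0)) le_rfl).symm)
  have ia := (ma.mono (v₁ := r + e₀) (v₂ := r + ν) (by grind (ematch := 0)) (by clear * - Λ r t₁ ν n1 s; grind (ematch := 0))).inv s.act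
    (by grind (ematch := 0)) (by clear * - Λ X d G s r t₁ c5 ν n1; grind (ematch := 0))
  have mk := ia.comp mb (by clear * - Λ r τa τb e₀ e3; grind (ematch := 0)) (by clear * - Λ r τa t₁ ν n1; grind (ematch := 0))
  have hlen : r + ν + -τa ≤ d c f := by
    clear * - X Λ d G s r ν τa c f w hw0 t ht r1 h s2 e₀ e1 eν t₁ c5 n1 a ma e2
    obtain ⟨p, hp, e⟩ := s.act.tr.ex_bt s.x s.y (t := r + ν) (by grind (ematch := 0)) (by grind (ematch := 0))
    obtain ⟨q1, q2⟩ := ma p ⟨hp, by grind (ematch := 0), by grind (ematch := 0)⟩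
    have := s.act.tr.bt_le q1
    clear * - Λ X d G s r a τa c f ν p e q2 this; grind (ematch := 0)
  have sδ : Small C (- -τa + -τb) := by
    have := hC.small_sub sa sb
    have e : τa - r - (τb - r) = - -τa + -τb := by abel
    rwa [e] at this
  have sh : Small C (r + e₀ + -τa) := by
    have := hC.small_sub se sa
    have e : e₀ - (τa - r) = r + e₀ + -τa := by abel
    rwa [e] at this
  have real : s.Real C τa (r + ν + -τa + (r + e₀ + -τa)) c f c' f' (- -τa + -τb) := by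
    clear * - Λ C τa τb G r ν e₀ d c f X c' f' s sδ b a sh e2 hlen mk pab ia
    refine ⟨sδ, r + e₀ + -τa, b * a⁻¹, sh, by grind (ematch := 0), by clear * - Λ X d r τa c f e₀ ν hlen mk; grind (ematch := 0), by simpa using mk, ?_⟩
    have := pab.transport (σ := τa + (r + e₀ + -τa)) ia (by grind (ematch := 0)) (by grind (ematch := 0)) (by grind (ematch := 0))
    simpa using this
  have breal : Big C (r + ν + -τa + (r + e₀ + -τa)) := by
    have := hC.big_add (hC.big_add bν sa.neg) sh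
    have e : ν + -(τa - r) + (r + e₀ + -τa) = r + ν + -τa + (r + e₀ + -τa) := by abel
    rwa [e] at this
  obtain ⟨-, h', k, k1, k2, k3, k4, k5⟩ := hU c hc f hf c' hc' f' hf' _ τa ca _ breal real
  have q1 := hC.lt_big (hC.small_add k1 k1) hμ₀
  have q2 := hC.lt_big (hC.small_add k1 sh) hμ₀
  have q3 := hC.lt_big (hC.small_add k1 sa) bν
  have hk : k = b * a⁻¹ := by
    clear * - Λ h' r e₀ τa G k b a X d s c f c' f' τb μ₀ ν k4 mk k2 eν hlen q2 k3 q1 q3 t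
    rcases le_total h' (r + e₀ + -τa) with e | e
    · exact k4.uniq s.act mk (t := r + e₀ + -τa) (by grind (ematch := 0)) (by grind (ematch := 0)) (by grind (ematch := 0)) (by clear * - Λ μ₀ r τa e₀ h' q2; grind (ematch := 0))
        (by clear * - Λ r τa e₀; grind (ematch := 0)) (by clear * - Λ r τa e₀ ν eν; grind (ematch := 0))
    · exact k4.uniq s.act mk (t := h') (by grind (ematch := 0)) (by clear * - Λ X d μ₀ r τa c f ν hlen h' k3 q1 q3; grind (ematch := 0)) (by grind (ematch := 0)) (by clear * - Λ μ₀ h' q1; grind (ematch := 0))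
        (by grind (ematch := 0)) (by grind (ematch := 0))
  -- the new time
  obtain ⟨e₁, se₁, f1, f2⟩ : ∃ e₁, Small C e₁ ∧ e₀ ≤ e₁ ∧ τa - r + h' ≤ e₁ :=
    ⟨max e₀ (τa - r + h'), se.max (hC.small_add sa k1), le_max_left _ _, le_max_right _ _⟩
  have ct' : r + e₁ ∈ C := hC.add_small r2 se₁
  have late : ∀ τ j, w ≤ τ → Small C j → τ + μ₀ - j ∉ C := fun τ j u1 u2 u3 =>
    hw2 (hC.lower (by clear * - Λ μ₀ w τ j u1 hC u2 u3; grind (ematch := 0)) (hC.add_small u3 u2))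
  obtain ⟨z, g1, g2, g3, hz⟩ : ∃ z, z ≤ d s.x s.y ∧ z ≤ τa + μ₀ - h' ∧ z ≤ τb + μ₀ - 0 ∧
      z ∉ C :=
    ⟨min (d s.x s.y) (min (τa + μ₀ - h') (τb + μ₀ - 0)), min_le_left _ _,
      (min_le_right _ _).trans (min_le_left _ _), (min_le_right _ _).trans (min_le_right _ _),
      cut_min hC.top (cut_min (late τa h' (by clear * - Λ w t ht r r1 τa ra C k1 late τb; grind (ematch := 0)) k1) (late τb 0 (by clear * - Λ w t ht r r1 τb rb C; grind (ematch := 0)) (Small.zero C)))⟩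
  have q4 := hC.lt_big k1 hw1
  have gl : s.GoodL C (r + e₁) a b := by
    clear * - Λ C d X G s r e₁ a b z hz g1 c f τa hC μ₀ hμ hc hf t₁ ma w hw0 t ht r1 ra ba c5 e₀ e2
      f1 h' k2 g2 c' f' τb hc' hf' mb rb bb e3 g3 k k4 k3 f2 hk σ₀ k5 q4
    refine ⟨z, hz, g1, fun u u1 u2 u3 => ?_⟩
    have mA : Mp d a s.x s.y c f (-τa) (r + e₁) u := by
      rcases u3 with u3 | u3
      · exact hC.follow hμ hc hf ma (by grind (ematch := 0)) ba c5 (by grind (ematch := 0)) u3 (by clear * - Λ μ₀ τa h' k2 z g2 u u2; grind (ematch := 0))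
      · have v1 := hC.follow hμ hc' hf' mb (by clear * - Λ w hw0 t ht r r1 τb rb bb c5 hk k2 k3 k4 s u3 τa; grind (ematch := 0)) bb c5 (by grind (ematch := 0)) u3 (by grind (ematch := 0))
        have v2 := v1.comp (k4.inv s.act k2 k3) (by clear * - Λ r τa τb h' e₁ f2; grind (ematch := 0)) (by clear * - Λ μ₀ τa τb h' z g2 u u2; grind (ematch := 0))
        have e : -τb + -(- -τa + -τb) = -τa := by abel
        rw [e, hk] at v2
        simpa using v2
    have := k5.transport (σ := 0) mA (by clear * - Λ r τa h' e₁ f2; grind (ematch := 0)) (by clear * - Λ μ₀ τa h' z g2 u u2; grind (ematch := 0)) (by clear * - Λ σ₀ w t ht r r1 τa ra h' q4; grind (ematch := 0))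
    rw [hk] at this
    simpa using this
  have hlt : ∀ τ ∈ l₁ ++ l₂, r + e₁ < τ := fun τ hτ => by
    clear * - Λ e₁ τ r X d G s C hC se₁ hbig hτ
    have := hC.lt_big se₁ (hbig τ hτ).2
    grind (ematch := 0)
  refine ⟨r + e₁, ct', by clear * - Λ w t ht r r1 h s2 e₀ e1 e₁ f1 h4 l₁ l₂; grind (ematch := 0), l₁ ++ l₂, h4, ?_⟩
  exact (m1.shift hC (by clear * - Λ t r r1 h s2 e₀ e1 e₁ f1 ct' gl hC hlt m2 s; grind (ematch := 0)) ct' (fun τ hτ => hlt τ (List.mem_append_left _ hτ))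
    (Or.inl (s.live_one _ _))).append (Mixed.good gl
      (m2.shift hC (by clear * - Λ t r r1 h s2 e₀ e1 e₁ f1 ct' hlt s; grind (ematch := 0)) ct' (fun τ hτ => hlt τ (List.mem_append_right _ hτ))
        (Or.inr (s.live_phi _ _))))

theorem Cut.two (hC : s.Cut C) (hII : ∀ t₀ ∈ C, ∃ t ∈ C, Big C (t - t₀)) :
    ∃ w ∈ C, 0 ≤ w ∧ ∃ z, z ∉ C ∧ z ≤ d s.x s.y ∧ s.Cn s.x s.y 0 w z 1 s.φ := by
  obtain ⟨t₀, -, b₀⟩ := hII 0 hC.zero
  obtain ⟨σ₀, a1, μ₀, a2, a3, a4⟩ := hC.unif b₀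
  obtain ⟨w₁, c1, c2⟩ := hII σ₀ a1
  obtain ⟨w₂, c3, c4⟩ : ∃ w ∈ C, w + μ₀ ∉ C := by
    by_contra hn
    push Not at hn
    exact a2.2 fun t ht => by rw [abs_of_pos a2.1]; exact hn t ht
  let w := max 0 (max w₁ w₂)
  have w0 : 0 ≤ w := le_max_left _ _
  have w1 : w₁ ≤ w := (le_max_left _ _).trans (le_max_right _ _)
  have w2 : w₂ ≤ w := (le_max_right _ _).trans (le_max_right _ _)
  have wC : w ∈ C := cut_max hC.zero (cut_max c1 c3)
  have key : ∀ n : ℕ, ∀ t ∈ C, w ≤ t → ∀ l : List Λ, l.length < n → Mixed s C t l 1 s.φ →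
      ∃ w ∈ C, 0 ≤ w ∧ ∃ z, z ∉ C ∧ z ≤ d s.x s.y ∧ s.Cn s.x s.y 0 w z 1 s.φ := by
    intro n
    induction n with
    | zero => intro t _ _ l hl; omega
    | succ n ih =>
      intro t ht hw l hl m
      by_cases e : l = []
      · subst e
        obtain ⟨z, z1, z2, z3⟩ := m.persist hC
        exact ⟨t, ht, w0.trans hw, z, z1, z2,
          z3 z (hC.lt ht z1).le le_rfl (by simp) (Or.inl (s.live_one _ _))⟩
      · obtain ⟨t', b1, b2, l', b3, b4⟩ := hC.step hII a2 a3 a4 w0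
          (hC.big_le c2 (by grind)) (fun e => c4 (hC.lower (by grind) e)) hw e m
        exact ih t' b1 b2 l' (by omega) b4
  obtain ⟨t', d1, d2, d3⟩ := hC.hyp w wC w0
  obtain ⟨l, hl⟩ := Mixed.of_cn (C := C) w0 d1 d2 d3
  exact key _ w wC le_rfl l (Nat.lt_succ_self _) hl

theorem Cut.good (hC : s.Cut C) :
    ∃ w ∈ C, 0 ≤ w ∧ ∃ z, z ∉ C ∧ z ≤ d s.x s.y ∧ s.Cn s.x s.y 0 w z 1 s.φ := by
  by_cases hII : ∀ t₀ ∈ C, ∃ t ∈ C, Big C (t - t₀)
  · exact hC.two hII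
  push Not at hII
  obtain ⟨t₀, h1, h2⟩ := hII
  have l1 : t₀ ≤ max t₀ 0 := le_max_left _ _
  obtain ⟨w, w1, w2, w3⟩ := hC.one (cut_max h1 hC.zero) (le_max_right _ _) (by
    intro a ha b c b1 b2 b3
    have : Small C (c - t₀) := by
      by_contra hn
      exact h2 c b3 (big_of (by grind) hn)
    exact hC.add_small ha (hC.small_le this (by grind)))
  exact ⟨w, w1, (le_max_right _ _).trans w2, w3⟩

end Sys

end Pool.Agent.Work.MP_904812_al
end

-- merged part: Pool.Agent.Work.MP_904812_al.Grow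
section
/-! Growing a band does not increase the index. -/

namespace Pool.Agent.Work.MP_904812_al

set_option linter.unusedSectionVars false

open Relation

variable {Λ : Type*} [AddCommGroup Λ] [LinearOrder Λ] [IsOrderedAddMonoid Λ] {X : Type*}
variable {d : X → X → Λ} {G : Type*} [Group G] [MulAction G X]

/-- the relation on points defined by a set of bands -/
def ρB (d : X → X → Λ) (B : Set (G × X × X)) (a b : X) : Prop :=
  ∃ β ∈ B, Bt d β.2.1 a β.2.2 ∧ b = β.1 • a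

/-- the relation on directions defined by a set of bands -/
def σB (d : X → X → Λ) (B : Set (G × X × X)) (δ δ' : X × X) : Prop :=
  σ₀ d δ δ' ∨ ∃ β ∈ B, Bt d β.2.1 δ.1 β.2.2 ∧ Bt d β.2.1 δ.2 β.2.2 ∧ δ.1 ≠ δ.2 ∧
    δ' = (β.1 • δ.1, β.1 • δ.2)

theorem Act.compat (h : Act G d) (B : Set (G × X × X)) : Compat G d (ρB d B) (σB d B) := by
  rintro ⟨a, b⟩ ⟨a', b'⟩ (⟨r, s⟩ | ⟨β, hβ, r1, r2, r3, r4⟩)
  · simp only at r s
    subst r
    exact ⟨⟨1, one_smul _ _, by simpa using s⟩, EqvGen.refl _⟩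
  · rw [r4]
    exact ⟨h.do_smul _ r3, EqvGen.rel _ _ ⟨β, hβ, r1, rfl⟩⟩

namespace Sys

variable {s : Sys G d}

theorem Cn.eqv {t₁ t₂ : Λ} {g g' : G} (e : s.Cn s.x s.y 0 t₁ t₂ g g') {q : X}
    (hq : Sg d s.x s.y t₁ t₂ q) :
    EqvGen (fun a b => ρB d s.B a b ∨ ((Bt d s.x a q ∧ a ≠ q) ∧ b = s.φ • a)) (g • q) (g' • q) := by
  have key : ∀ g g', s.St s.x s.y 0 t₁ t₂ g g' → EqvGen
      (fun a b => ρB d s.B a b ∨ ((Bt d s.x a q ∧ a ≠ q) ∧ b = s.φ • a)) (g • q) (g' • q) := by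
    rintro g g' (⟨b, hb, rfl, e⟩ | ⟨rfl, e⟩)
    · exact EqvGen.rel _ _ (Or.inl ⟨b, hb, e q hq, mul_smul _ _ _⟩)
    · obtain ⟨a1, a2⟩ := e q hq
      rw [zero_add] at a2
      refine EqvGen.rel _ _ (Or.inr ⟨⟨(s.act.tr.bt_of_le a1 hq.1 a2.le).1, fun e => ?_⟩,
        mul_smul _ _ _⟩)
      rw [e] at a2
      exact lt_irrefl _ a2
  induction e with
  | refl => exact EqvGen.refl _
  | tail _ r ih =>
    rcases r with r | r
    · exact ih.trans _ _ _ (key _ _ r)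
    · exact ih.trans _ _ _ ((key _ _ r).symm _ _)

/-- persistence of a path between two directions -/
def Pers (s : Sys G d) (q₀ : X) (δ δ' : X × X) : Prop :=
  ∀ (g : G) (q₁ : X), g • q₀ = δ.1 → Bt d s.x q₁ s.y → d s.x q₀ < d s.x q₁ →
    Sd d δ.1 (g • q₁) δ.2 → ∃ (g' : G) (q₂ : X), g' • q₀ = δ'.1 ∧ Bt d s.x q₂ s.y ∧
      d s.x q₀ < d s.x q₂ ∧ d s.x q₂ ≤ d s.x q₁ ∧ Sd d δ'.1 (g' • q₂) δ'.2 ∧
      s.Cn s.x s.y 0 (d s.x q₀) (d s.x q₂) g g'

theorem pers_step {q₀ : X} (h₀ : Bt d s.x q₀ s.y) {β : G × X × X}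
    (hβ : β ∈ insert (s.φ, s.x, q₀) s.B) {b : X} {g : G} {q₁ : X}
    (r1 : Bt d β.2.1 (g • q₀) β.2.2) (r2 : Bt d β.2.1 b β.2.2) (a1 : Bt d s.x q₁ s.y)
    (a2 : d s.x q₀ < d s.x q₁) (a3 : Sd d (g • q₀) (g • q₁) b) :
    ∃ q₂, Bt d s.x q₂ s.y ∧ d s.x q₀ < d s.x q₂ ∧ d s.x q₂ ≤ d s.x q₁ ∧
      Sd d (g • q₀) (g • q₂) b ∧ s.St s.x s.y 0 (d s.x q₀) (d s.x q₂) g (β.1 * g) := by
  have h := s.act.tr
  obtain ⟨m, m0, m1, m2⟩ := h.sd_med a3
  have m3 : Bt d q₀ (g⁻¹ • m) q₁ := by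
    rw [← s.act.bt_iff g, smul_inv_smul]; exact m1
  have c1 := (h.bt_of_le h₀ a1 a2.le).1
  obtain ⟨c2, c3⟩ := h.bt_trans' c1 m3
  have c4 := (h.bt_trans c3 a1).1
  have c5 : 0 < d q₀ (g⁻¹ • m) := by
    rw [← s.act.iso g, smul_inv_smul]; exact h.pos m0
  have c6 : d s.x q₀ < d s.x (g⁻¹ • m) := by simp only [Bt] at c2; grind
  have c7 : Sd d (g • q₀) (g • g⁻¹ • m) b := by
    rw [smul_inv_smul]; exact h.sd_of_bt m2 m0
  have c8 : ∀ p, Sg d s.x s.y (d s.x q₀) (d s.x (g⁻¹ • m)) p → Bt d β.2.1 (g • p) β.2.2 := by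
    rintro p ⟨p1, p2, p3⟩
    have p4 := (h.bt_trans (h.bt_of_le h₀ p1 p2).1 (h.bt_of_le p1 c4 p3).1).2
    have p5 := s.act.bt g p4
    rw [smul_inv_smul] at p5
    exact h.bt_conv r1 r2 (h.bt_trans p5 m2).1
  refine ⟨g⁻¹ • m, c4, c6, h.bt_le c3, c7, ?_⟩
  rcases hβ with rfl | hβ
  · refine Or.inr ⟨rfl, fun p hp => ?_⟩
    have e1 : Bt d s.x (g • p) q₀ := c8 p hp
    refine ⟨(h.bt_trans e1 h₀).1, ?_⟩
    have e2 := h.bt_le e1
    rw [zero_add]
    refine lt_of_le_of_ne (e2.trans hp.2.1) fun e => ?_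
    have e3 : d s.x q₀ = d s.x p := le_antisymm hp.2.1 (e ▸ e2)
    have e4 : q₀ = p := h.bt_uniq h₀ hp.1 e3
    subst e4
    have e5 : g • q₀ = q₀ := h.bt_uniq e1 (h.bt_right _ _) e
    have e6 := s.act.free g q₀ e5
    subst e6
    simp only [one_smul] at a3
    refine h.not_sd_iff.2 ?_ a3
    exact h.bt_symm (h.bt_trans r2 c1).2
  · exact Or.inl ⟨β, hβ, rfl, c8⟩

theorem pers_of_eqv {q₀ : X} (h₀ : Bt d s.x q₀ s.y) {δ δ' : X × X}
    (e : EqvGen (σB d (insert (s.φ, s.x, q₀) s.B)) δ δ') : s.Pers q₀ δ δ' ∧ s.Pers q₀ δ' δ := by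
  have h := s.act.tr
  induction e with
  | rel δ δ' r =>
    obtain ⟨a, b⟩ := δ
    obtain ⟨a', b'⟩ := δ'
    rcases r with ⟨r, r'⟩ | ⟨β, hβ, r1, r2, r3, r4⟩
    · simp only at r r'
      subst r
      exact ⟨fun g q₁ a1 a2 a3 a4 => ⟨g, q₁, a1, a2, a3, le_rfl, h.sd_trans a4 r',
          Cn.refl _ _ _ _ _ _⟩,
        fun g q₁ a1 a2 a3 a4 => ⟨g, q₁, a1, a2, a3, le_rfl, h.sd_trans a4 (h.sd_symm r'),
          Cn.refl _ _ _ _ _ _⟩⟩
    · rw [r4]
      simp only at r1 r2 r3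
      refine ⟨fun g q₁ a1 a2 a3 a4 => ?_, fun g q₁ a1 a2 a3 a4 => ?_⟩
      · simp only at a1 a4
        subst a1
        obtain ⟨q₂, b1, b2, b3, b4, b5⟩ := pers_step h₀ hβ r1 r2 a2 a3 a4
        refine ⟨β.1 * g, q₂, mul_smul _ _ _, b1, b2, b3, ?_, b5.cn⟩
        simp only
        rw [mul_smul, s.act.sd_iff]; exact b4
      · simp only at a1 a4
        have e1 : (β.1⁻¹ * g) • q₀ = a := by rw [mul_smul, a1, inv_smul_smul]
        subst e1
        have e2 : Sd d ((β.1⁻¹ * g) • q₀) ((β.1⁻¹ * g) • q₁) b := by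
          rw [← s.act.sd_iff β.1, mul_smul _ _ q₁, smul_inv_smul]; exact a4
        obtain ⟨q₂, b1, b2, b3, b4, b5⟩ := pers_step h₀ hβ r1 r2 a2 a3 e2
        rw [mul_inv_cancel_left] at b5
        exact ⟨β.1⁻¹ * g, q₂, rfl, b1, b2, b3, b4, b5.cn.symm⟩
  | refl δ =>
    exact ⟨fun g q₁ a1 a2 a3 a4 => ⟨g, q₁, a1, a2, a3, le_rfl, a4, Cn.refl _ _ _ _ _ _⟩,
      fun g q₁ a1 a2 a3 a4 => ⟨g, q₁, a1, a2, a3, le_rfl, a4, Cn.refl _ _ _ _ _ _⟩⟩
  | symm _ _ _ ih => exact ih.symm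
  | trans a b c _ _ ih1 ih2 =>
    have key : ∀ a b c, s.Pers q₀ a b → s.Pers q₀ b c → s.Pers q₀ a c := by
      intro a b c p1 p2 g q₁ a1 a2 a3 a4
      obtain ⟨g', q₂, b1, b2, b3, b4, b5, b6⟩ := p1 g q₁ a1 a2 a3 a4
      obtain ⟨g'', q₃, c1, c2, c3, c4, c5, c6⟩ := p2 g' q₂ b1 b2 b3 b5
      exact ⟨g'', q₃, c1, c2, c3, c4.trans b4, c5, (b6.mono le_rfl c4 le_rfl).trans c6⟩
    exact ⟨key _ _ _ ih1.1 ih2.1, key _ _ _ ih2.2 ih1.2⟩

theorem grow (s : Sys G d) {c : ℤ} (h0 : EqvGen (ρB d s.B) s.x (s.φ • s.x))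
    (p : P d s.F (ρB d s.B) (σB d s.B) c) :
    P d s.F (ρB d (insert (s.φ, s.x, s.y) s.B)) (σB d (insert (s.φ, s.x, s.y) s.B)) c := by
  have h := s.act.tr
  have kx := s.hSK _ s.hx
  have ky := s.hSK _ s.hy
  have kx' := s.hSK _ s.hx'
  have ky' := s.hSK _ s.hy'
  let T : X → Prop := fun q =>
    EqvGen (fun a b => ρB d s.B a b ∨ ((Bt d s.x a q ∧ a ≠ q) ∧ b = s.φ • a)) q (s.φ • q)
  have σle : ∀ q a b, σB d s.B a b → EqvGen (σB d (insert (s.φ, s.x, q) s.B)) a b := by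
    rintro q a b (r | ⟨β, hβ, r⟩)
    · exact EqvGen.rel _ _ (Or.inl r)
    · exact EqvGen.rel _ _ (Or.inr ⟨β, Or.inr hβ, r⟩)
  have step1 : ∀ q, Bt d s.x q s.y → (q = s.x ∨ T q) →
      P d s.F (ρB d (insert (s.φ, s.x, q) s.B)) (σB d (insert (s.φ, s.x, q) s.B)) c := by
    intro q hq hT
    by_cases e : q = s.x
    · subst e
      refine p.mono (σle _) ?_
      rintro a b ⟨β, rfl | hβ, r1, rfl⟩
      · have : s.x = a := h.eq_of (by
          have := h.nonneg s.x a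
          have := h.nonneg a s.x
          have := h.self s.x
          simp only [Bt] at r1; grind)
        subst this
        exact h0
      · exact EqvGen.rel _ _ ⟨β, hβ, r1, rfl⟩
    · refine p.extend s.act (s.act.compat _) (Ne.symm e) kx kx' (h.hull_conv kx ky hq)
        (h.hull_conv kx' ky' (s.act.bt _ hq)) h0 (Or.inr (hT.resolve_left e)) ?_ (σle q) ?_
      · rintro a b ⟨β, rfl | hβ, r1, rfl⟩
        · exact EqvGen.rel _ _ (Or.inr ⟨r1, rfl⟩)
        · exact EqvGen.rel _ _ (Or.inl ⟨β, hβ, r1, rfl⟩)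
      · intro a b a1 a2 a3
        exact EqvGen.rel _ _ (Or.inr ⟨_, Or.inl rfl, a1, a2, a3, rfl⟩)
  by_cases hA : ∃ q, Bt d s.x q s.y ∧ q ≠ s.y ∧ (q = s.x ∨ T q) ∧
      ¬ EqvGen (σB d (insert (s.φ, s.x, q) s.B)) (q, s.y) (s.φ • q, s.φ • s.y)
  · obtain ⟨q, hq, q1, q2, q3⟩ := hA
    refine (step1 q hq q2).extend s.act (s.act.compat _) q1 (h.hull_conv kx ky hq)
      (h.hull_conv kx' ky' (s.act.bt _ hq)) ky ky'
      (EqvGen.rel _ _ ⟨_, Or.inl rfl, h.bt_right _ _, rfl⟩) (Or.inl q3) ?_ ?_ ?_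
    · rintro a b ⟨β, rfl | hβ, r1, rfl⟩
      · rcases le_total (d s.x a) (d s.x q) with e | e
        · exact EqvGen.rel _ _ (Or.inl ⟨_, Or.inl rfl, (h.bt_of_le r1 hq e).1, rfl⟩)
        · exact EqvGen.rel _ _ (Or.inr ⟨(h.bt_of_le hq r1 e).2, rfl⟩)
      · exact EqvGen.rel _ _ (Or.inl ⟨β, Or.inr hβ, r1, rfl⟩)
    · rintro a b (r | ⟨β, rfl | hβ, r1, r2, r3⟩)
      · exact EqvGen.rel _ _ (Or.inl r)
      · exact EqvGen.rel _ _ (Or.inr ⟨_, Or.inl rfl, (h.bt_trans r1 hq).1,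
          (h.bt_trans r2 hq).1, r3⟩)
      · exact EqvGen.rel _ _ (Or.inr ⟨β, Or.inr hβ, r1, r2, r3⟩)
    · intro a b a1 a2 a3
      exact EqvGen.rel _ _ (Or.inr ⟨_, Or.inl rfl, (h.bt_trans' hq a1).2,
        (h.bt_trans' hq a2).2, a3, rfl⟩)
  push Not at hA
  by_cases hxy : s.y = s.x
  · exact step1 s.y (h.bt_right _ _) (Or.inl hxy)
  have hpos : 0 < d s.x s.y := h.pos (Ne.symm hxy)
  let C : Set Λ := {t | ∀ t', 0 < t' → t' ≤ t → ∃ q, Bt d s.x q s.y ∧ d s.x q = t' ∧ T q}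
  by_cases hC : d s.x s.y ∈ C
  · obtain ⟨q, q1, q2, q3⟩ := hC _ hpos le_rfl
    have : q = s.y := h.bt_uniq q1 (h.bt_right _ _) q2
    subst this
    exact step1 _ q1 (Or.inr q3)
  exfalso
  have lower : ∀ {a b}, a ≤ b → b ∈ C → a ∈ C := fun e hb t' h1 h2 => hb t' h1 (h2.trans e)
  have ext : ∀ w ∈ C, ∀ z, z ≤ d s.x s.y → s.Cn s.x s.y 0 w z 1 s.φ → z ∈ C := by
    intro w hw z z1 e t' h1 h2
    rcases le_total t' w with c | c
    · exact hw t' h1 c
    · obtain ⟨q, q1, q2⟩ := h.ex_bt s.x s.y h1.le (h2.trans z1)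
      refine ⟨q, q1, q2, ?_⟩
      have := e.eqv (q := q) ⟨q1, q2 ▸ c, q2 ▸ h2⟩
      rwa [one_smul] at this
  have hyp : ∀ t ∈ C, 0 ≤ t → ∃ t', t < t' ∧ t' ≤ d s.x s.y ∧ s.Cn s.x s.y 0 t t' 1 s.φ := by
    intro t ht t0
    have t1 : t < d s.x s.y := lt_of_not_ge fun e => hC (lower e ht)
    obtain ⟨q, q1, q2, q3⟩ : ∃ q, Bt d s.x q s.y ∧ d s.x q = t ∧ (q = s.x ∨ T q) := by
      rcases t0.eq_or_lt with e | e
      · exact ⟨s.x, h.bt_left _ _, by rw [h.self, e], Or.inl rfl⟩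
      · obtain ⟨q, q1, q2, q3⟩ := ht t e le_rfl
        exact ⟨q, q1, q2, Or.inr q3⟩
    have q4 : q ≠ s.y := fun e => by rw [e] at q2; exact t1.ne q2.symm
    obtain ⟨g', q₂, b1, b2, b3, -, -, b6⟩ := (pers_of_eqv q1 (hA q q1 q4 q3)).1 1 s.y
      (one_smul _ _) (h.bt_right _ _) (q2 ▸ t1) (by simpa using h.sd_refl q4)
    have : g' = s.φ := s.act.eq_of_smul b1
    subst this
    exact ⟨d s.x q₂, q2 ▸ b3, h.bt_le b2, q2 ▸ b6⟩
  have zero : (0 : Λ) ∈ C := fun t' h1 h2 => absurd h1 (not_lt.2 h2)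
  have cut : s.Cut C := by
    refine ⟨lower, zero, hC, fun t ht => ?_, hyp⟩
    rcases lt_or_ge t 0 with e | e
    · exact ⟨0, zero, e⟩
    · obtain ⟨t', a1, a2, a3⟩ := hyp t ht e
      exact ⟨t', ext t ht t' a2 a3, a1⟩
  obtain ⟨w, w1, -, z, z1, z2, z3⟩ := cut.good
  exact z1 (ext w w1 z z2 z3)

end Sys

end Pool.Agent.Work.MP_904812_al
end

-- merged part: Pool.Agent.Work.MP_904812_al.Rank
section
/-! The index inequality and the bound on the rank of the group of lengths. -/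

namespace Pool.Agent.Work.MP_904812_al

set_option linter.unusedSectionVars false

open Relation

variable {Λ : Type*} [AddCommGroup Λ] [LinearOrder Λ] [IsOrderedAddMonoid Λ] {X : Type*}
variable {d : X → X → Λ} {G : Type*} [Group G] [MulAction G X]

/-- the bands attached to a finite set of generators -/
def bands (x₀ : X) (s : Finset G) (J : Finset (G × X)) : Set (G × X × X) :=
  {β | (∃ g ∈ s, β = (g, x₀, x₀)) ∨ ∃ j ∈ J, β = (j.1, x₀, j.2)}

theorem Act.index0 (h : Act G d) {F : Finset X} {x₀ : X} (hx : x₀ ∈ F) (s : Finset G) :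
    P d F (ρB d (bands x₀ s ∅)) (σB d (bands x₀ s ∅)) (2 * s.card - 2) := by
  classical
  induction s using Finset.induction_on with
  | empty =>
    refine (P.base h.tr hx).mono (fun _ _ r => EqvGen.rel _ _ (Or.inl r)) ?_
    rintro a b ⟨β, ⟨g, hg, -⟩ | ⟨g, hg, -⟩, -⟩ <;> simp at hg
  | insert g s hg ih =>
    have := ih.pt x₀ (g • x₀)
    rw [Finset.card_insert_of_notMem hg]
    have e : (2 * ((s.card + 1 : ℕ) : ℤ) - 2) = 2 * s.card - 2 + 2 := by push_cast; ring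
    rw [e]
    refine this.mono ?_ ?_
    · rintro a b (r | ⟨β, ⟨g', hg', rfl⟩ | ⟨g', hg', -⟩, r⟩)
      · exact EqvGen.rel _ _ (Or.inl r)
      · exact EqvGen.rel _ _ (Or.inr ⟨_, Or.inl ⟨g', Finset.mem_insert_of_mem hg', rfl⟩, r⟩)
      · simp at hg'
    · rintro a b ⟨β, ⟨g', hg', rfl⟩ | ⟨g', hg', -⟩, r1, rfl⟩
      · rcases Finset.mem_insert.1 hg' with rfl | hg'
        · have : x₀ = a := h.tr.eq_of (by
            have := h.tr.nonneg x₀ a
            have := h.tr.nonneg a x₀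
            have := h.tr.self x₀
            simp only [Bt] at r1; grind)
          subst this
          exact EqvGen.rel _ _ (Or.inr ⟨rfl, rfl⟩)
        · exact EqvGen.rel _ _ (Or.inl ⟨_, Or.inl ⟨g', hg', rfl⟩, r1, rfl⟩)
      · simp at hg'

theorem Tr.ex_special (h : Tr d) (F : Finset X) : ∃ S : Finset X, (∀ f ∈ F, f ∈ S) ∧
    (∀ c, Br d F c → c ∈ S) ∧ ∀ c ∈ S, c ∈ F ∨ Br d F c := by
  classical
  refine ⟨F ∪ (h.br_finite F).toFinset, fun f hf => Finset.mem_union_left _ hf,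
    fun c hc => Finset.mem_union_right _ ((Set.Finite.mem_toFinset _).2 hc), fun c hc => ?_⟩
  rcases Finset.mem_union.1 hc with hc | hc
  · exact Or.inl hc
  · exact Or.inr ((Set.Finite.mem_toFinset (h.br_finite F)).1 hc)

theorem Act.index (h : Act G d) {F : Finset X} {x₀ : X} (hx : x₀ ∈ F) {s : Finset G}
    (hs : ∀ g ∈ s, g • x₀ ∈ F) (J : Finset (G × X))
    (hJ : ∀ j ∈ J, j.1 ∈ s ∧ j.2 ∈ F ∧ j.1 • j.2 ∈ F) :
    P d F (ρB d (bands x₀ s J)) (σB d (bands x₀ s J)) (2 * s.card - 2) := by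
  classical
  obtain ⟨S, h1, h2, h3⟩ := h.tr.ex_special F
  induction J using Finset.induction_on with
  | empty => exact h.index0 hx s
  | insert j J _ ih =>
    have hJ' := fun i hi => hJ i (Finset.mem_insert_of_mem hi)
    obtain ⟨j1, j2, j3⟩ := hJ j (Finset.mem_insert_self _ _)
    let sy : Sys G d :=
      { F := F, S := S, B := bands x₀ s J, φ := j.1, x := x₀, y := j.2, act := h, hFS := h1,
        hSK := fun c hc => (h3 c hc).elim h.tr.mem_hull h.tr.br_hull, hBr := h2,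
        hB := by
          rintro β (⟨g, hg, rfl⟩ | ⟨i, hi, rfl⟩)
          · exact ⟨h1 _ hx, h1 _ hx, h1 _ (hs g hg), h1 _ (hs g hg)⟩
          · exact ⟨h1 _ hx, h1 _ (hJ' i hi).2.1, h1 _ (hs _ (hJ' i hi).1), h1 _ (hJ' i hi).2.2⟩
        hx := h1 _ hx, hy := h1 _ j2, hx' := h1 _ (hs _ j1), hy' := h1 _ j3 }
    have := sy.grow (EqvGen.rel _ _ ⟨_, Or.inl ⟨j.1, j1, rfl⟩, h.tr.bt_left _ _, rfl⟩) (ih hJ')
    have e : bands x₀ s (insert j J) = insert (j.1, x₀, j.2) (bands x₀ s J) := by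
      ext β
      simp only [bands, Set.mem_insert_iff, Finset.mem_insert, Set.mem_ofPred_eq]
      constructor
      · rintro (r | ⟨i, rfl | hi, r⟩)
        · exact Or.inr (Or.inl r)
        · exact Or.inl r
        · exact Or.inr (Or.inr ⟨i, hi, r⟩)
      · rintro (r | r | ⟨i, hi, r⟩)
        · exact Or.inr ⟨j, Or.inl rfl, r⟩
        · exact Or.inl r
        · exact Or.inr ⟨i, Or.inr hi, r⟩
    rw [e]
    exact this

/-- few classes of branch points -/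
theorem P.few (h : Act G d) {F : Finset X} {ρ : X → X → Prop} {σ : X × X → X × X → Prop}
    (hc : Compat G d ρ σ) {c : ℤ} (p : P d F ρ σ c) {x₀ : X} (hx : x₀ ∈ F)
    (hF : ∀ f ∈ F, EqvGen ρ f x₀) :
    ∃ R : Finset X, (R.card : ℤ) ≤ c + 2 ∧ (∀ r ∈ R, Br d F r) ∧
      ∀ b, Br d F b → EqvGen ρ b x₀ ∨ ∃ r ∈ R, EqvGen ρ b r := by
  classical
  obtain ⟨S, h1, h2, h3⟩ := h.tr.ex_special F
  obtain ⟨V, hV, hq⟩ := p
  let Y := V ∪ S
  have hY : ∀ y ∈ Y, y ∈ Hull d F := fun y hy => by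
    rcases Finset.mem_union.1 hy with hy | hy
    · exact hV y hy
    · exact (h3 y hy).elim h.tr.mem_hull h.tr.br_hull
  have q := hq Y Finset.subset_union_left hY
  let Q₀ := (Y.image (Quot.mk ρ)).erase (Quot.mk ρ x₀)
  let Q₁ := Q₀.filter fun a => ∃ b, Br d F b ∧ Quot.mk ρ b = a
  have hD : ∀ a ∈ Q₀, ∃ D : Finset (X × X),
      (∀ δ ∈ D, Quot.mk ρ δ.1 = a ∧ δ.1 ∈ Y ∧ δ.2 ∈ Hull d F ∧ δ.1 ≠ δ.2) ∧
      (∀ δ ∈ D, ∀ δ' ∈ D, δ ≠ δ' → δ.1 = δ'.1 ∧ Bt d δ.2 δ.1 δ'.2) ∧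
      D.card = 2 + if a ∈ Q₁ then 1 else 0 := by
    intro a ha
    by_cases e : a ∈ Q₁
    · obtain ⟨b, hb, rfl⟩ := (Finset.mem_filter.1 e).2
      have hbY : b ∈ Y := Finset.mem_union_right _ (h2 b hb)
      obtain ⟨q₁, k₁, q₂, k₂, q₃, k₃, n₁, n₂, n₃, a₁, a₂, a₃⟩ := hb
      have ne : ∀ {u v : X}, b ≠ u → Bt d u b v → u ≠ v := by
        rintro u v n a rfl
        exact h.tr.not_sd_iff.2 a (h.tr.sd_refl n)
      refine ⟨{(b, q₁), (b, q₂), (b, q₃)}, ?_, ?_, ?_⟩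
      · intro δ hδ
        simp only [Finset.mem_insert, Finset.mem_singleton] at hδ
        rcases hδ with rfl | rfl | rfl
        · exact ⟨rfl, hbY, k₁, n₁⟩
        · exact ⟨rfl, hbY, k₂, n₂⟩
        · exact ⟨rfl, hbY, k₃, n₃⟩
      · intro δ hδ δ' hδ' hne
        simp only [Finset.mem_insert, Finset.mem_singleton] at hδ hδ'
        rcases hδ with rfl | rfl | rfl <;> rcases hδ' with rfl | rfl | rfl <;>
          first
          | exact absurd rfl hne
          | exact ⟨rfl, a₁⟩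
          | exact ⟨rfl, a₂⟩
          | exact ⟨rfl, a₃⟩
          | exact ⟨rfl, h.tr.bt_symm a₁⟩
          | exact ⟨rfl, h.tr.bt_symm a₂⟩
          | exact ⟨rfl, h.tr.bt_symm a₃⟩
      · rw [if_pos e]
        exact Finset.card_eq_three.2 ⟨_, _, _, by simp [ne n₁ a₁], by simp [ne n₁ a₂],
          by simp [ne n₂ a₃], rfl⟩
    · obtain ⟨a1, a2⟩ := Finset.mem_erase.1 ha
      obtain ⟨y, hy, rfl⟩ := Finset.mem_image.1 a2
      obtain ⟨u, hu, v, hv, b⟩ := hY y hy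
      have nu : y ≠ u := fun e => a1 (mk_eq_iff.2 (e ▸ hF u hu))
      have nv : y ≠ v := fun e => a1 (mk_eq_iff.2 (e ▸ hF v hv))
      have uv : u ≠ v := by
        rintro rfl
        exact h.tr.not_sd_iff.2 b (h.tr.sd_refl nu)
      refine ⟨{(y, u), (y, v)}, ?_, ?_, ?_⟩
      · intro δ hδ
        simp only [Finset.mem_insert, Finset.mem_singleton] at hδ
        rcases hδ with rfl | rfl
        · exact ⟨rfl, hy, h.tr.mem_hull hu, nu⟩
        · exact ⟨rfl, hy, h.tr.mem_hull hv, nv⟩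
      · intro δ hδ δ' hδ' hne
        simp only [Finset.mem_insert, Finset.mem_singleton] at hδ hδ'
        rcases hδ with rfl | rfl <;> rcases hδ' with rfl | rfl <;>
          first
          | exact absurd rfl hne
          | exact ⟨rfl, b⟩
          | exact ⟨rfl, h.tr.bt_symm b⟩
      · rw [if_neg e]
        exact Finset.card_pair (by simp [uv])
  choose! D d1 d2 d3 using hD
  let Δ := Q₀.biUnion D
  have c1 : Δ.card = ∑ a ∈ Q₀, (D a).card := by
    refine Finset.card_biUnion ?_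
    intro a ha a' ha' hne
    refine Finset.disjoint_left.2 fun δ e e' => hne ?_
    rw [← (d1 a ha δ e).1, ← (d1 a' ha' δ e').1]
  have c2 : ∑ a ∈ Q₀, (D a).card = 2 * Q₀.card + Q₁.card := by
    rw [Finset.sum_congr rfl d3, Finset.sum_add_distrib, Finset.sum_const, smul_eq_mul, mul_comm,
      Finset.sum_ite_mem, Finset.inter_eq_right.2 (Finset.filter_subset _ _),
      Finset.card_eq_sum_ones Q₁]
  have c3 : ncls σ Δ = Δ.card := by
    unfold ncls
    refine Finset.card_image_of_injOn ?_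
    intro δ hδ δ' hδ' e
    have e' := mk_eq_iff.1 e
    obtain ⟨a, ha, e1⟩ := Finset.mem_biUnion.1 (Finset.mem_coe.1 hδ)
    obtain ⟨a', ha', e2⟩ := Finset.mem_biUnion.1 (Finset.mem_coe.1 hδ')
    have : a = a' := by
      rw [← (d1 a ha δ e1).1, ← (d1 a' ha' δ' e2).1]
      exact mk_eq_iff.2 (hc.base h e')
    subst this
    by_contra hne
    obtain ⟨b1, b2⟩ := d2 a ha δ e1 δ' e2 hne
    obtain ⟨p, q⟩ := δ
    obtain ⟨p', q'⟩ := δ'
    simp only at b1 b2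
    subst b1
    exact h.tr.not_sd_iff.2 b2 (hc.same h (d1 a ha _ e1).2.2.2 e')
  have c4 := q Δ fun δ hδ => by
    obtain ⟨a, ha, e1⟩ := Finset.mem_biUnion.1 hδ
    exact (d1 a ha δ e1).2
  have c5 : Q₀.card + 1 = ncls ρ Y := by
    unfold ncls
    exact Finset.card_erase_add_one
      (Finset.mem_image_of_mem _ (Finset.mem_union_right _ (h1 _ hx)))
  have hrep : ∀ a ∈ Q₁, ∃ b, Br d F b ∧ Quot.mk ρ b = a := fun a ha => (Finset.mem_filter.1 ha).2
  have : Nonempty X := ⟨x₀⟩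
  choose! rep r1 r2 using hrep
  refine ⟨Q₁.image rep, ?_, fun r hr => ?_, fun b hb => ?_⟩
  · have : (Q₁.image rep).card ≤ Q₁.card := Finset.card_image_le
    omega
  · obtain ⟨a, ha, rfl⟩ := Finset.mem_image.1 hr
    exact r1 a ha
  · by_cases e : Quot.mk ρ b = Quot.mk ρ x₀
    · exact Or.inl (mk_eq_iff.1 e)
    · have : Quot.mk ρ b ∈ Q₁ := Finset.mem_filter.2 ⟨Finset.mem_erase.2 ⟨e,
        Finset.mem_image_of_mem _ (Finset.mem_union_right _ (h2 b hb))⟩, b, hb, rfl⟩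
      exact Or.inr ⟨_, Finset.mem_image_of_mem _ this, mk_eq_iff.1 (r2 _ this).symm⟩

/-- a finitely generated torsion free group generated by `T` modulo `2` has rank at most `#T` -/
theorem rank_le_of_mod_two (M : AddSubgroup Λ) (U T : Finset Λ)
    (hU : M ≤ AddSubgroup.closure (U : Set Λ)) (hT : ∀ t ∈ T, t ∈ M)
    (h2 : ∀ a ∈ M, ∃ b ∈ AddSubgroup.closure (T : Set Λ), ∃ m ∈ M, a = b + (m + m))
    {ι : Type*} [Fintype ι] (v : ι → Λ) (hv : ∀ i, v i ∈ M) (li : LinearIndependent ℤ v) :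
    Fintype.card ι ≤ T.card := by
  classical
  let M' : Submodule ℤ Λ := M.toIntSubmodule
  have hfg : M'.FG := by
    have : IsNoetherian ℤ (Submodule.span ℤ (U : Set Λ)) :=
      isNoetherian_span_of_finite ℤ U.finite_toSet
    refine isNoetherian_submodule.1 this M' fun a ha => ?_
    have := hU ha
    rw [← Submodule.span_int_eq_addSubgroupClosure] at this
    exact this
  have : Module.Finite ℤ M' := Module.Finite.iff_fg.2 hfg
  have : Module.Free ℤ M' := Module.free_of_finite_type_torsion_free'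
  let b := Module.finBasis ℤ M'
  have l1 : Fintype.card ι ≤ Module.finrank ℤ M' := by
    have : LinearIndependent ℤ fun i => (⟨v i, hv i⟩ : M') :=
      LinearIndependent.of_comp M'.subtype li
    exact this.fintype_card_le_finrank
  let φ : M' → (Fin (Module.finrank ℤ M') → ZMod 2) := fun a i => (b.repr a i : ZMod 2)
  have φadd : ∀ a a', φ (a + a') = φ a + φ a' := fun a a' => by ext i; simp [φ]
  have φneg : ∀ a, φ (-a) = -φ a := fun a => by ext i; simp [φ]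
  have φzero : φ 0 = 0 := by ext i; simp [φ]
  let T' : Finset (Fin (Module.finrank ℤ M') → ZMod 2) :=
    T.attach.image fun t => φ ⟨t.1, hT t.1 t.2⟩
  have key : ∀ a ∈ AddSubgroup.closure (T : Set Λ), ∃ ha : a ∈ M',
      φ ⟨a, ha⟩ ∈ Submodule.span (ZMod 2) (T' : Set (Fin (Module.finrank ℤ M') → ZMod 2)) := by
    intro a ha
    induction ha using AddSubgroup.closure_induction with
    | mem a ha =>
      exact ⟨hT a ha, Submodule.subset_span (Finset.mem_coe.2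
        (Finset.mem_image.2 ⟨⟨a, ha⟩, Finset.mem_attach _ _, rfl⟩))⟩
    | zero => exact ⟨M'.zero_mem, by
        have : (⟨0, M'.zero_mem⟩ : M') = 0 := rfl
        rw [this, φzero]; exact Submodule.zero_mem _⟩
    | add a a' _ _ i1 i2 =>
      obtain ⟨p1, q1⟩ := i1
      obtain ⟨p2, q2⟩ := i2
      refine ⟨M'.add_mem p1 p2, ?_⟩
      have : (⟨a + a', M'.add_mem p1 p2⟩ : M') = ⟨a, p1⟩ + ⟨a', p2⟩ := rfl
      rw [this, φadd]; exact Submodule.add_mem _ q1 q2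
    | neg a _ i1 =>
      obtain ⟨p1, q1⟩ := i1
      refine ⟨M'.neg_mem p1, ?_⟩
      have : (⟨-a, M'.neg_mem p1⟩ : M') = -⟨a, p1⟩ := rfl
      rw [this, φneg]; exact Submodule.neg_mem _ q1
  have all : ∀ a : M', φ a ∈
      Submodule.span (ZMod 2) (T' : Set (Fin (Module.finrank ℤ M') → ZMod 2)) := by
    intro a
    obtain ⟨c, hc, m, hm, e⟩ := h2 a.1 a.2
    obtain ⟨p, q⟩ := key c hc
    have : a = ⟨c, p⟩ + (⟨m, hm⟩ + ⟨m, hm⟩) := Subtype.ext e
    rw [this, φadd, φadd]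
    have z : φ ⟨m, hm⟩ + φ ⟨m, hm⟩ = 0 := by
      ext i; simp only [Pi.add_apply, Pi.zero_apply]; exact CharTwo.add_self_eq_zero _
    rw [z, add_zero]; exact q
  have top : Submodule.span (ZMod 2) (T' : Set (Fin (Module.finrank ℤ M') → ZMod 2)) = ⊤ := by
    rw [eq_top_iff, ← (Pi.basisFun (ZMod 2) (Fin (Module.finrank ℤ M'))).span_eq,
      Submodule.span_le]
    rintro _ ⟨i, rfl⟩
    have : Pi.basisFun (ZMod 2) (Fin (Module.finrank ℤ M')) i = φ (b i) := by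
      ext j
      simp only [φ, Pi.basisFun_apply, Module.Basis.repr_self, Finsupp.single_apply,
        Pi.single_apply]
      by_cases e : j = i
      · simp [e]
      · simp [e, Ne.symm e]
    rw [this]; exact all _
  have l2 := finrank_span_finset_le_card (R := ZMod 2) T'
  unfold Set.finrank at l2
  rw [top, finrank_top, Module.finrank_fin_fun] at l2
  have l3 : T'.card ≤ T.card := Finset.card_image_le.trans (by simp)
  omega

end Pool.Agent.Work.MP_904812_al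
end

-- merged part: Pool.Agent.Work.MP_904812_al.RankBound
section
/-! The group generated by the lengths has rank at most `3 n`. -/

namespace Pool.Agent.Work.MP_904812_al

set_option linter.unusedSectionVars false

open Relation

variable {Λ : Type*} [AddCommGroup Λ] [LinearOrder Λ] [IsOrderedAddMonoid Λ] {X : Type*}
variable {d : X → X → Λ} {G : Type*} [Group G] [MulAction G X]

/-- adjacency in the part of the Cayley graph spanned by `B` -/
def Adj (s B : Finset G) (g h : G) : Prop := g ∈ B ∧ h ∈ B ∧ ∃ k ∈ s, h = k * g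

theorem Adj.mono {s B B' : Finset G} (hB : B ⊆ B') {g h : G} (e : EqvGen (Adj s B) g h) :
    EqvGen (Adj s B') g h :=
  eqv_mono (fun _ _ r => EqvGen.rel _ _ ⟨hB r.1, hB r.2.1, r.2.2⟩) e

theorem ex_ball {s : Finset G} (hs : Subgroup.closure (s : Set G) = ⊤) (T : Finset G) :
    ∃ B : Finset G, 1 ∈ B ∧ T ⊆ B ∧ ∀ b ∈ B, EqvGen (Adj s B) b 1 := by
  classical
  have one : ∀ g : G, ∃ B : Finset G, 1 ∈ B ∧ g ∈ B ∧ ∀ b ∈ B, EqvGen (Adj s B) b 1 := by
    intro g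
    have hg : g ∈ Subgroup.closure (s : Set G) := hs ▸ Subgroup.mem_top g
    induction hg using Subgroup.closure_induction_left with
    | one => exact ⟨{1}, by simp, by simp, fun b hb => by
        rw [Finset.mem_singleton.1 hb]; exact EqvGen.refl _⟩
    | mul_left k hk g _ ih =>
      obtain ⟨B, h1, h2, h3⟩ := ih
      refine ⟨insert (k * g) B, by simp [h1], by simp, fun b hb => ?_⟩
      rcases Finset.mem_insert.1 hb with rfl | hb
      · exact (EqvGen.symm _ _ (EqvGen.rel _ _ ⟨by simp [h2], by simp, k, hk, rfl⟩)).trans _ _ _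
          (Adj.mono (Finset.subset_insert _ _) (h3 g h2))
      · exact Adj.mono (Finset.subset_insert _ _) (h3 b hb)
    | inv_mul_cancel k hk g _ ih =>
      obtain ⟨B, h1, h2, h3⟩ := ih
      refine ⟨insert (k⁻¹ * g) B, by simp [h1], by simp, fun b hb => ?_⟩
      rcases Finset.mem_insert.1 hb with rfl | hb
      · exact (EqvGen.rel _ g ⟨by simp, by simp [h2], k, hk, by simp⟩).trans _ _ _
          (Adj.mono (Finset.subset_insert _ _) (h3 g h2))
      · exact Adj.mono (Finset.subset_insert _ _) (h3 b hb)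
  induction T using Finset.induction_on with
  | empty =>
    obtain ⟨B, h1, -, h3⟩ := one 1
    exact ⟨B, h1, by simp, h3⟩
  | insert g T _ ih =>
    obtain ⟨B, h1, h2, h3⟩ := ih
    obtain ⟨B', k1, k2, k3⟩ := one g
    refine ⟨B ∪ B', Finset.mem_union_left _ h1, Finset.insert_subset
      (Finset.mem_union_right _ k2) (h2.trans Finset.subset_union_left), fun b hb => ?_⟩
    rcases Finset.mem_union.1 hb with hb | hb
    · exact Adj.mono Finset.subset_union_left (h3 b hb)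
    · exact Adj.mono Finset.subset_union_right (k3 b hb)

theorem Act.rank_fin (h : Act G d) {s : Finset G} (hs : Subgroup.closure (s : Set G) = ⊤)
    (x₀ : X) (T : Finset G) {ι : Type*} [Fintype ι] (v : ι → Λ)
    (hv : ∀ i, v i ∈ AddSubgroup.closure {a | ∃ g ∈ T, a = d x₀ (g • x₀)})
    (li : LinearIndependent ℤ v) : Fintype.card ι ≤ 3 * s.card := by
  classical
  have ht := h.tr
  obtain ⟨B, b1, b2, b3⟩ := ex_ball hs (s ∪ T)
  let F : Finset X := B.image fun g => g • x₀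
  have hF : ∀ g ∈ B, g • x₀ ∈ F := fun g hg => Finset.mem_image_of_mem _ hg
  have hx : x₀ ∈ F := by simpa using hF 1 b1
  have hsF : ∀ g ∈ s, g • x₀ ∈ F := fun g hg => hF g (b2 (Finset.mem_union_left _ hg))
  let J : Finset (G × X) :=
    ((s ×ˢ B).filter fun t => t.1 * t.2 ∈ B).image fun t => (t.1, t.2 • x₀)
  have hJ : ∀ j ∈ J, j.1 ∈ s ∧ j.2 ∈ F ∧ j.1 • j.2 ∈ F := by
    intro j hj
    obtain ⟨t, ht, rfl⟩ := Finset.mem_image.1 hj
    obtain ⟨t1, t2⟩ := Finset.mem_filter.1 ht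
    obtain ⟨t3, t4⟩ := Finset.mem_product.1 t1
    exact ⟨t3, hF _ t4, by simpa [mul_smul] using hF _ t2⟩
  let ρ := ρB d (bands x₀ s J)
  have hFρ : ∀ f ∈ F, EqvGen ρ f x₀ := by
    intro f hf
    obtain ⟨g, hg, rfl⟩ := Finset.mem_image.1 hf
    have key : ∀ a b, EqvGen (Adj s B) a b → EqvGen ρ (a • x₀) (b • x₀) := by
      intro a b e
      induction e with
      | rel a b r =>
        obtain ⟨r1, r2, k, hk, rfl⟩ := r
        exact EqvGen.rel _ _ ⟨(k, x₀, a • x₀), Or.inr ⟨(k, a • x₀), Finset.mem_image.2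
          ⟨(k, a), Finset.mem_filter.2 ⟨Finset.mem_product.2 ⟨hk, r1⟩, r2⟩, rfl⟩, rfl⟩,
          ht.bt_right _ _, mul_smul _ _ _⟩
      | refl a => exact EqvGen.refl _
      | symm _ _ _ ih => exact ih.symm _ _
      | trans _ _ _ _ _ i1 i2 => exact i1.trans _ _ _ i2
    simpa using key g 1 (b3 g hg)
  obtain ⟨R, r1, r2, r3⟩ := (h.index hx hsF J hJ).few h (h.compat _) hx hFρ
  obtain ⟨S, s1, s2, s3⟩ := ht.ex_special F
  have sK : ∀ c ∈ S, c ∈ Hull d F := fun c hc => (s3 c hc).elim ht.mem_hull ht.br_hull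
  have edge : ∀ a b, ρ a b → ∃ g ∈ s, b = g • a ∧ a ∈ Hull d F ∧ b ∈ Hull d F := by
    rintro a b ⟨β, ⟨g, hg, rfl⟩ | ⟨j, hj, rfl⟩, e, rfl⟩
    · exact ⟨g, hg, rfl, ht.hull_conv (ht.mem_hull hx) (ht.mem_hull hx) e,
        ht.hull_conv (ht.mem_hull (hsF g hg)) (ht.mem_hull (hsF g hg)) (h.bt g e)⟩
    · obtain ⟨j1, j2, j3⟩ := hJ j hj
      exact ⟨j.1, j1, rfl, ht.hull_conv (ht.mem_hull hx) (ht.mem_hull j2) e,
        ht.hull_conv (ht.mem_hull (hsF _ j1)) (ht.mem_hull j3) (h.bt _ e)⟩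
  let U : Finset Λ := (S ×ˢ S).image fun t => d t.1 t.2
  let L := AddSubgroup.closure (U : Set Λ)
  have hL : ∀ a ∈ S, ∀ b ∈ S, d a b ∈ L := fun a ha b hb =>
    AddSubgroup.subset_closure (Finset.mem_coe.2
      (Finset.mem_image.2 ⟨(a, b), Finset.mem_product.2 ⟨ha, hb⟩, rfl⟩))
  have inv1 : ∀ a b, EqvGen ρ a b → ((a ∈ Hull d F ∧ d x₀ a ∈ L) ↔ (b ∈ Hull d F ∧ d x₀ b ∈ L)) := by
    intro a b e
    induction e with
    | rel a b r =>
      obtain ⟨g, hg, rfl, k1, k2⟩ := edge a b r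
      have := ht.pm_base sK s2 hL (s1 _ (hsF g hg)) (s1 _ hx) k2
      rw [h.iso] at this
      rcases this with e | e
      · exact ⟨fun a => ⟨k2, by simpa using L.sub_mem a.2 e⟩,
          fun a => ⟨k1, by simpa using L.add_mem e a.2⟩⟩
      · exact ⟨fun a => ⟨k2, by simpa using L.sub_mem e a.2⟩,
          fun a => ⟨k1, by simpa using L.sub_mem e a.2⟩⟩
    | refl a => rfl
    | symm _ _ _ ih => exact ih.symm
    | trans _ _ _ _ _ i1 i2 => exact i1.trans i2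
  let Ess : X → Prop := fun p => ∃ c ∈ S, EqvGen ρ p c
  have e1 : ∀ p, Ess p → p ∈ Hull d F ∧ d x₀ p ∈ L := fun p ⟨c, hc, e⟩ =>
    (inv1 p c e).2 ⟨sK c hc, hL _ (s1 _ hx) c hc⟩
  have eS : ∀ c ∈ S, Ess c := fun c hc => ⟨c, hc, EqvGen.refl _⟩
  have emed : ∀ p q r, Ess p → Ess q → Ess r → ∃ m, Ess m ∧ d p r + (d q m + d q m) = d p q + d q r := by
    intro p q r hp hq hr
    obtain ⟨m, a1, a2, a3⟩ := ht.med' p q r
    refine ⟨m, ?_, ?_⟩
    · rcases ht.med_cases (e1 p hp).1 (e1 q hq).1 (e1 r hr).1 a1 a2 a3 with rfl | rfl | rfl | e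
      · exact hp
      · exact hq
      · exact hr
      · exact eS m (s2 m e)
    · have := ht.symm m q
      simp only [Bt] at a1 a2 a3; grind
  let M := AddSubgroup.closure {a | ∃ p q, Ess p ∧ Ess q ∧ a = d p q}
  have hM : ∀ p q, Ess p → Ess q → d p q ∈ M := fun p q hp hq =>
    AddSubgroup.subset_closure ⟨p, q, hp, hq, rfl⟩
  have ex₀ : Ess x₀ := eS _ (s1 _ hx)
  let T' : Finset Λ := (s.image fun g => d x₀ (g • x₀)) ∪ R.image fun r => d x₀ r
  let W : AddSubgroup Λ :=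
    { carrier := {a | ∃ b ∈ AddSubgroup.closure (T' : Set Λ), ∃ m ∈ M, a = b + (m + m)}
      zero_mem' := ⟨0, zero_mem _, 0, zero_mem _, by simp⟩
      add_mem' := by
        rintro _ _ ⟨b, hb, m, hm, rfl⟩ ⟨b', hb', m', hm', rfl⟩
        exact ⟨b + b', add_mem hb hb', m + m', add_mem hm hm', by abel⟩
      neg_mem' := by
        rintro _ ⟨b, hb, m, hm, rfl⟩
        exact ⟨-b, neg_mem hb, -m, neg_mem hm, by abel⟩ }
  have w1 : ∀ m ∈ M, m + m ∈ W := fun m hm => ⟨0, zero_mem _, m, hm, by simp⟩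
  have w2 : ∀ t ∈ T', t ∈ W := fun t ht =>
    ⟨t, AddSubgroup.subset_closure ht, 0, zero_mem _, by simp⟩
  have inv2 : ∀ a b, EqvGen ρ a b → Ess a → (d x₀ a ∈ W ↔ d x₀ b ∈ W) := by
    intro a b e
    induction e with
    | rel a b r =>
      intro ha
      have hb : Ess b := by
        obtain ⟨c, hc, e⟩ := ha
        exact ⟨c, hc, ((EqvGen.rel _ _ r).symm _ _).trans _ _ _ e⟩
      obtain ⟨g, hg, rfl, -, -⟩ := edge a b r
      have eg := eS _ (s1 _ (hsF g hg))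
      obtain ⟨m, m1, m2⟩ := emed x₀ (g • x₀) (g • a) ex₀ eg hb
      rw [h.iso] at m2
      have k1 := w1 _ (hM _ _ eg m1)
      have k2 : d x₀ (g • x₀) ∈ W :=
        w2 _ (Finset.mem_union_left _ (Finset.mem_image_of_mem _ hg))
      constructor
      · intro k
        have := W.sub_mem (W.add_mem k2 k) k1
        rwa [← m2, add_sub_cancel_right] at this
      · intro k
        have := W.sub_mem (W.add_mem k k1) k2
        rwa [m2, add_sub_cancel_left] at this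
    | refl a => exact fun _ => Iff.rfl
    | symm a b e ih =>
      intro ⟨c, hc, e'⟩
      exact (ih ⟨c, hc, e.trans _ _ _ e'⟩).symm
    | trans a b c e _ i1 i2 =>
      intro ⟨c, hc, e'⟩
      exact (i1 ⟨c, hc, e'⟩).trans (i2 ⟨c, hc, (e.symm _ _).trans _ _ _ e'⟩)
  have w3 : ∀ p, Ess p → d x₀ p ∈ W := by
    intro p hp
    have z : d x₀ x₀ ∈ W := by rw [ht.self]; exact zero_mem _
    obtain ⟨c, hc, e⟩ := id hp
    rcases s3 c hc with k | k
    · exact (inv2 p x₀ (e.trans _ _ _ (hFρ c k)) hp).2 z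
    · rcases r3 c k with k | ⟨r, hr, k⟩
      · exact (inv2 p x₀ (e.trans _ _ _ k) hp).2 z
      · exact (inv2 p r (e.trans _ _ _ k) hp).2
          (w2 _ (Finset.mem_union_right _ (Finset.mem_image_of_mem _ hr)))
  have both : ∀ K : AddSubgroup Λ, (∀ p, Ess p → d x₀ p ∈ K ∧ d x₀ p + d x₀ p ∈ K) → M ≤ K := by
    intro K hK
    refine (AddSubgroup.closure_le _).2 ?_
    rintro _ ⟨p, q, hp, hq, rfl⟩
    obtain ⟨m, m1, m2⟩ := emed p x₀ q hp ex₀ hq
    have := K.sub_mem (K.add_mem (hK p hp).1 (hK q hq).1) (hK m m1).2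
    rw [ht.symm x₀ p, ← m2, add_sub_cancel_right] at this
    exact this
  have hML : M ≤ L := both L fun p hp => ⟨(e1 p hp).2, L.add_mem (e1 p hp).2 (e1 p hp).2⟩
  have hMW : M ≤ W := both W fun p hp => ⟨w3 p hp, W.add_mem (w3 p hp) (w3 p hp)⟩
  have := rank_le_of_mod_two M U T' hML (by
      intro t ht
      rcases Finset.mem_union.1 ht with ht | ht
      · obtain ⟨g, hg, rfl⟩ := Finset.mem_image.1 ht
        exact hM _ _ ex₀ (eS _ (s1 _ (hsF g hg)))
      · obtain ⟨r, hr, rfl⟩ := Finset.mem_image.1 ht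
        exact hM _ _ ex₀ (eS _ (s2 _ (r2 r hr))))
    (fun a ha => hMW ha) v (fun i => (AddSubgroup.closure_le _).2 (by
      rintro _ ⟨g, hg, rfl⟩
      exact hM _ _ ex₀ (eS _ (s1 _ (hF g (b2 (Finset.mem_union_right _ hg)))))) (hv i)) li
  have c1 : T'.card ≤ s.card + R.card :=
    (Finset.card_union_le _ _).trans (add_le_add Finset.card_image_le Finset.card_image_le)
  omega

theorem Act.rank_le (h : Act G d) {s : Finset G} (hs : Subgroup.closure (s : Set G) = ⊤)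
    (x₀ : X) {ι : Type*} [Fintype ι] (v : ι → Λ)
    (hv : ∀ i, v i ∈ AddSubgroup.closure (Set.range fun g : G => d x₀ (g • x₀)))
    (li : LinearIndependent ℤ v) : Fintype.card ι ≤ 3 * s.card := by
  classical
  have mono : ∀ {T T' : Finset G}, T ⊆ T' →
      AddSubgroup.closure {a | ∃ g ∈ T, a = d x₀ (g • x₀)} ≤
        AddSubgroup.closure {a | ∃ g ∈ T', a = d x₀ (g • x₀)} := fun e =>
    AddSubgroup.closure_mono fun _ ⟨g, hg, r⟩ => ⟨g, e hg, r⟩
  have key : ∀ a ∈ AddSubgroup.closure (Set.range fun g : G => d x₀ (g • x₀)),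
      ∃ T : Finset G, a ∈ AddSubgroup.closure {a | ∃ g ∈ T, a = d x₀ (g • x₀)} := by
    intro a ha
    induction ha using AddSubgroup.closure_induction with
    | mem a ha =>
      obtain ⟨g, rfl⟩ := ha
      exact ⟨{g}, AddSubgroup.subset_closure ⟨g, by simp, rfl⟩⟩
    | zero => exact ⟨∅, zero_mem _⟩
    | add a b _ _ i1 i2 =>
      obtain ⟨T, i1⟩ := i1
      obtain ⟨T', i2⟩ := i2
      exact ⟨T ∪ T', add_mem (mono Finset.subset_union_left i1)
        (mono Finset.subset_union_right i2)⟩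
    | neg a _ i1 =>
      obtain ⟨T, i1⟩ := i1
      exact ⟨T, neg_mem i1⟩
  choose T hT using fun i => key (v i) (hv i)
  exact h.rank_fin hs x₀ (Finset.univ.biUnion T) v
    (fun i => mono (Finset.subset_biUnion_of_mem T (Finset.mem_univ i)) (hT i)) li

end Pool.Agent.Work.MP_904812_al
end

-- merged part: Pool.Agent.Work.MP_904812_al.Embed
section
/-! An ordered abelian group of rank at most `m` embeds in `ℝ^m` with the lexicographic order. -/

namespace Pool.Agent.Work.MP_904812_al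

open HahnSeries

theorem embed_of_rank {M : Type*} [AddCommGroup M] [LinearOrder M] [IsOrderedAddMonoid M] (m : ℕ)
    (hm : ∀ (k : ℕ) (v : Fin k → M), LinearIndependent ℤ v → k ≤ m) :
    ∃ f : M →+ Lex (Fin m → ℝ), StrictMono f := by
  classical
  obtain ⟨f, finj, hf⟩ := hahnEmbedding_isOrderedAddMonoid (M := M)
  have htop : ∀ γ : FiniteArchimedeanClass M, (ofLex (f γ.1.out)).orderTop = γ := by
    intro γ
    have := hf γ.1.out
    rw [ArchimedeanClass.mk_out] at this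
    apply (FiniteArchimedeanClass.withTopOrderIso M).injective
    rw [← this, FiniteArchimedeanClass.withTopOrderIso_apply_coe]
  have li : LinearIndependent ℤ fun γ : FiniteArchimedeanClass M => γ.1.out := by
    rw [linearIndependent_iff']
    intro s n hs
    by_contra hn
    push Not at hn
    obtain ⟨γ₁, h1, h2⟩ := hn
    obtain ⟨γ₀, h3, h4⟩ := Finset.exists_min_image (s.filter fun γ => n γ ≠ 0) id
      ⟨γ₁, Finset.mem_filter.2 ⟨h1, h2⟩⟩
    obtain ⟨h5, h6⟩ := Finset.mem_filter.1 h3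
    let c : M →+ ℝ := AddMonoidHom.mk' (fun a => (ofLex (f a)).coeff γ₀) (by intro a b; simp)
    have e := congrArg c hs
    simp only [map_sum, map_zsmul, map_zero] at e
    have e' : ∑ γ ∈ s, n γ • (ofLex (f γ.1.out)).coeff γ₀ = 0 := e
    rw [Finset.sum_eq_single γ₀] at e'
    · exact (smul_ne_zero h6 (coeff_orderTop_ne (htop γ₀))) e'
    · intro γ hγ hne
      by_cases c : n γ = 0
      · simp [c]
      · have := h4 γ (Finset.mem_filter.2 ⟨hγ, c⟩)
        have lt : γ₀ < γ := lt_of_le_of_ne this (Ne.symm hne)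
        rw [coeff_eq_zero_of_lt_orderTop (by rw [htop]; exact_mod_cast lt), smul_zero]
    · exact fun h => absurd h5 h
  have fin : Finite (FiniteArchimedeanClass M) := by
    by_contra hn
    have : Infinite (FiniteArchimedeanClass M) := not_finite_iff_infinite.1 hn
    let e := Infinite.natEmbedding (FiniteArchimedeanClass M)
    have := hm (m + 1) _ (li.comp (fun i : Fin (m + 1) => e i)
      (e.injective.comp Fin.val_injective))
    omega
  have : Fintype (FiniteArchimedeanClass M) := Fintype.ofFinite _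
  let o := monoEquivOfFin (FiniteArchimedeanClass M) rfl
  have hk := hm _ _ (li.comp o o.injective)
  let g : M → Lex (Fin m → ℝ) := fun a => toLex fun j =>
    if hj : j.1 < Fintype.card (FiniteArchimedeanClass M) then (ofLex (f a)).coeff (o ⟨j.1, hj⟩)
    else 0
  refine ⟨AddMonoidHom.mk' g ?_, ?_⟩
  · intro a b
    simp only [g]
    rw [← toLex_add]
    congr 1
    ext j
    by_cases hj : j.1 < Fintype.card (FiniteArchimedeanClass M) <;> simp [hj]
  · intro a b hab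
    have : f a < f b := lt_of_le_of_ne (f.monotone' hab.le) fun e => hab.ne (finj e)
    obtain ⟨i, h1, h2⟩ := (HahnSeries.lt_iff _ _).1 this
    refine ⟨⟨(o.symm i).1, (o.symm i).2.trans_le hk⟩, fun j hj => ?_, ?_⟩
    · have hj' : j.1 < (o.symm i).1 := hj
      have c : j.1 < Fintype.card (FiniteArchimedeanClass M) := hj'.trans (o.symm i).2
      change (g a) j = (g b) j
      simp only [g, Pi.toLex_apply, dif_pos c]
      refine h1 _ ?_
      rw [← o.apply_symm_apply i]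
      exact o.strictMono hj'
    · change (g a) _ < (g b) _
      simp only [g, Pi.toLex_apply, dif_pos (o.symm i).2]
      simpa using h2

end Pool.Agent.Work.MP_904812_al
end

-- merged part: Pool.Agent.Work.MP_904812_al.Build
section
/-! The tree spanned by an invariant `0`-hyperbolic pseudo-metric. -/

namespace Pool.Agent.Work.MP_904812_al

set_option linter.unusedSectionVars false

variable {Λ : Type*} [AddCommGroup Λ] [LinearOrder Λ] [IsOrderedAddMonoid Λ] {Y : Type*}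

/-- a `0`-hyperbolic pseudo-metric with a base point and Gromov products -/
structure Hyp (Λ Y : Type*) [AddCommGroup Λ] [LinearOrder Λ] where
  D : Y → Y → Λ
  o : Y
  gp : Y → Y → Λ
  self : ∀ a, D a a = 0
  symm : ∀ a b, D a b = D b a
  tri : ∀ a b c, D a c ≤ D a b + D b c
  four : ∀ x y z w, D x y + D z w ≤ max (D x z + D y w) (D x w + D y z)
  gp_eq : ∀ a b, gp a b + gp a b = D o a + D o b - D a b

namespace Hyp

variable (H : Hyp Λ Y)

theorem nonneg (a b : Y) : 0 ≤ H.D a b := by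
  have := H.tri a b a
  have := H.self a
  have := H.symm a b
  grind

theorem gp_symm (a b : Y) : H.gp a b = H.gp b a := by
  have := H.gp_eq a b
  have := H.gp_eq b a
  have := H.symm a b
  grind

theorem gp_self (a : Y) : H.gp a a = H.D H.o a := by
  have := H.gp_eq a a
  have := H.self a
  grind

theorem gp_nonneg (a b : Y) : 0 ≤ H.gp a b := by
  have := H.gp_eq a b
  have := H.tri a H.o b
  have := H.symm a H.o
  grind

theorem gp_le (a b : Y) : H.gp a b ≤ H.D H.o a := by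
  have := H.gp_eq a b
  have := H.tri H.o a b
  grind

theorem gp_ultra (a b c : Y) : min (H.gp a c) (H.gp c b) ≤ H.gp a b := by
  have := H.gp_eq a b
  have := H.gp_eq a c
  have := H.gp_eq c b
  have := H.four a b c H.o
  have := H.symm a H.o
  have := H.symm b H.o
  have := H.symm c H.o
  have := H.symm b c
  grind

/-- valid representatives -/
def Ok (r : Y × Λ) : Prop := 0 ≤ r.2 ∧ r.2 ≤ H.D H.o r.1

/-- Gromov product of representatives -/
def pi (r r' : Y × Λ) : Λ := min r.2 (min r'.2 (H.gp r.1 r'.1))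

/-- distance of representatives -/
def rho (r r' : Y × Λ) : Λ := r.2 + r'.2 - (H.pi r r' + H.pi r r')

theorem pi_symm (r r' : Y × Λ) : H.pi r r' = H.pi r' r := by
  simp only [pi, H.gp_symm r.1]; grind

theorem pi_le (r r' : Y × Λ) : H.pi r r' ≤ r.2 := min_le_left _ _

theorem pi_ultra (a b c : Y × Λ) : min (H.pi a c) (H.pi c b) ≤ H.pi a b := by
  have := H.gp_ultra a.1 b.1 c.1
  simp only [pi]; grind

theorem pi_self {r : Y × Λ} (h : H.Ok r) : H.pi r r = r.2 := by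
  have := h.2
  simp only [pi, gp_self]; grind

theorem rho_symm (r r' : Y × Λ) : H.rho r r' = H.rho r' r := by
  simp only [rho, H.pi_symm r]; abel

theorem rho_nonneg (r r' : Y × Λ) : 0 ≤ H.rho r r' := by
  have := H.pi_le r r'
  have := H.pi_le r' r
  have := H.pi_symm r r'
  simp only [rho]; grind

theorem rho_tri (a b c : Y × Λ) : H.rho a c ≤ H.rho a b + H.rho b c := by
  have := H.pi_ultra a c b
  have := H.pi_le b a
  have := H.pi_le b c
  have := H.pi_symm a b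
  simp only [rho]; grind

theorem rho_four (x y z w : Y × Λ) :
    H.rho x y + H.rho z w ≤ max (H.rho x z + H.rho y w) (H.rho x w + H.rho y z) := by
  have a1 := H.pi_ultra x y z
  have a2 := H.pi_ultra x y w
  have a3 := H.pi_ultra z w x
  have a4 := H.pi_ultra z w y
  rw [H.pi_symm z y] at a1 a4
  rw [H.pi_symm w y] at a2
  rw [H.pi_symm z x] at a3
  simp only [rho]
  generalize H.pi x y = p1 at *
  generalize H.pi z w = p2 at *
  generalize H.pi x z = p3 at *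
  generalize H.pi y w = p4 at *
  generalize H.pi x w = p5 at *
  generalize H.pi y z = p6 at *
  grind

/-- the distance function of a representative -/
def fn (r : Y × Λ) (y : Y) : Λ := H.rho r (y, H.D H.o y)

theorem ok_pt (y : Y) : H.Ok (y, H.D H.o y) := ⟨H.nonneg _ _, le_rfl⟩

theorem fn_eq (r : Y × Λ) (y : Y) :
    H.fn r y = max (H.D H.o y - r.2) (H.D r.1 y - H.D H.o r.1 + r.2) := by
  have a1 := H.gp_eq r.1 y
  have a2 := H.gp_le y r.1
  rw [H.gp_symm] at a2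
  simp only [fn, rho, pi, min_eq_right a2]
  rcases le_total r.2 (H.gp r.1 y) with e | e
  · rw [min_eq_left e, max_eq_left (by grind)]; abel
  · rw [min_eq_right e, max_eq_right (by grind)]; grind

theorem fn_pt (a y : Y) : H.fn (a, H.D H.o a) y = H.D a y := by
  rw [fn_eq]
  have := H.tri H.o a y
  simp only [sub_add_cancel]
  exact max_eq_right (by grind)

theorem rho_self {r : Y × Λ} (h : H.Ok r) : H.rho r r = 0 := by
  simp [rho, H.pi_self h]

theorem fn_le (r r' : Y × Λ) (y : Y) : |H.fn r y - H.fn r' y| ≤ H.rho r r' := by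
  have a1 := H.rho_tri r r' (y, H.D H.o y)
  have a2 := H.rho_tri r' r (y, H.D H.o y)
  rw [H.rho_symm r' r] at a2
  simp only [fn]
  rw [abs_le]; constructor <;> grind

theorem fn_self {r : Y × Λ} (h : H.Ok r) : H.fn r r.1 = H.D H.o r.1 - r.2 := by
  have := h.2
  rw [fn_eq, H.self]
  exact max_eq_left (by grind)

theorem fn_attain {r r' : Y × Λ} (h : H.Ok r) (h' : H.Ok r') :
    ∃ y, |H.fn r y - H.fn r' y| = H.rho r r' := by
  have key : ∀ {r r' : Y × Λ}, H.Ok r → min r'.2 (H.gp r.1 r'.1) ≤ r.2 →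
      H.fn r' r.1 - H.fn r r.1 = H.rho r r' := by
    intro r r' h e
    have a2 := H.gp_le r.1 r'.1
    rw [H.fn_self h]
    simp only [fn, rho, pi]
    rw [min_eq_right e, H.gp_symm r'.1, min_eq_right a2]; abel
  rcases le_total (min r'.2 (H.gp r.1 r'.1)) r.2 with e | e
  · exact ⟨r.1, by rw [abs_sub_comm, key h e, abs_of_nonneg (H.rho_nonneg _ _)]⟩
  · refine ⟨r'.1, ?_⟩
    rw [key h' ((min_le_left _ _).trans (e.trans (min_le_left _ _))), H.rho_symm,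
      abs_of_nonneg (H.rho_nonneg _ _)]

theorem rebase (b c : Y) {t : Λ} (h0 : 0 ≤ t) (h1 : t ≤ H.D b c) :
    ∃ r, H.Ok r ∧ ∀ y, H.fn r y = max (H.D b y - t) (H.D c y - H.D b c + t) := by
  have a1 := H.gp_eq b c
  have a2 := H.gp_le b c
  have a3 := H.gp_le c b
  have a4 := H.gp_nonneg b c
  rw [H.gp_symm] at a3
  rcases le_total t (H.D H.o b - H.gp b c) with e | e
  · refine ⟨(b, H.D H.o b - t), ⟨by simp only; grind, by simp only; grind⟩, fun y => ?_⟩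
    rw [fn_eq]
    have b1 := H.four H.o y b c
    have b2 := H.four c y H.o b
    have b3 := H.symm y c
    have b4 := H.symm y b
    have b5 := H.symm c H.o
    have b6 := H.symm y H.o
    have b7 := H.symm c b
    simp only
    generalize H.gp b c = g at *
    grind
  · refine ⟨(c, H.D H.o c - (H.D b c - t)), ⟨by simp only; grind, by simp only; grind⟩,
      fun y => ?_⟩
    rw [fn_eq]
    have b1 := H.four H.o y c b
    have b2 := H.four b y H.o c
    have b3 := H.symm y c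
    have b4 := H.symm y b
    have b5 := H.symm b H.o
    have b6 := H.symm y H.o
    have b7 := H.symm c b
    simp only
    generalize H.gp b c = g at *
    grind

/-- the points of the spanned tree, as distance functions -/
def Pt : Type _ := {f : Y → Λ // ∃ r, H.Ok r ∧ f = H.fn r}

/-- the point with a given representative -/
def mkPt (r : Y × Λ) (h : H.Ok r) : H.Pt := ⟨H.fn r, r, h, rfl⟩

theorem ex_rep (f : H.Pt) : ∃ r h, f = H.mkPt r h := by
  obtain ⟨f, r, h, rfl⟩ := f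
  exact ⟨r, h, rfl⟩

/-- the metric of the spanned tree -/
noncomputable def dst (f f' : H.Pt) : Λ := H.rho f.2.choose f'.2.choose

theorem dst_spec (f f' : H.Pt) :
    (∀ y, |f.1 y - f'.1 y| ≤ H.dst f f') ∧ ∃ y, |f.1 y - f'.1 y| = H.dst f f' := by
  obtain ⟨a1, a2⟩ := f.2.choose_spec
  obtain ⟨b1, b2⟩ := f'.2.choose_spec
  have a3 := fun y => congrFun a2 y
  have b3 := fun y => congrFun b2 y
  refine ⟨fun y => ?_, ?_⟩
  · rw [a3, b3]; exact H.fn_le _ _ y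
  · obtain ⟨y, hy⟩ := H.fn_attain a1 b1
    exact ⟨y, by rw [a3, b3]; exact hy⟩

theorem dst_eq {f f' : H.Pt} {δ : Λ} (h1 : ∀ y, |f.1 y - f'.1 y| ≤ δ)
    (h2 : ∃ y, |f.1 y - f'.1 y| = δ) : H.dst f f' = δ := by
  obtain ⟨a1, y, a2⟩ := H.dst_spec f f'
  obtain ⟨y', h2⟩ := h2
  exact le_antisymm (a2 ▸ h1 y) (h2 ▸ a1 y')

theorem dst_mk {r r' : Y × Λ} (h : H.Ok r) (h' : H.Ok r') :
    H.dst (H.mkPt r h) (H.mkPt r' h') = H.rho r r' :=
  H.dst_eq (H.fn_le r r') (H.fn_attain h h')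

theorem rho_line (a : Y) {t u : Λ} (h : t ≤ u) (h' : u ≤ H.D H.o a) :
    H.rho (a, t) (a, u) = u - t := by
  simp only [rho, pi, gp_self, min_eq_left h', min_eq_left h]; abel

theorem pi_down (r r' : Y × Λ) {t : Λ} (h : t ≤ r.2) : H.pi (r.1, t) r' = min t (H.pi r r') := by
  simp only [pi]
  rw [← min_assoc t r.2, min_eq_left h]

theorem tr : Tr H.dst := by
  refine ⟨fun f f' => H.rho_nonneg _ _, fun f => H.rho_self f.2.choose_spec.1, ?_,
    fun f f' => H.rho_symm _ _, fun _ _ _ => H.rho_tri _ _ _, ?_,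
    fun _ _ _ _ => H.rho_four _ _ _ _, ?_⟩
  · intro f f' e
    apply Subtype.ext
    funext y
    have := (H.dst_spec f f').1 y
    rw [e] at this
    exact sub_eq_zero.1 (abs_nonpos_iff.1 this)
  · intro f f' t h0 h1
    obtain ⟨r, h, rfl⟩ := H.ex_rep f
    obtain ⟨r', h', rfl⟩ := H.ex_rep f'
    rw [H.dst_mk] at h1 ⊢
    have p0 : 0 ≤ H.pi r r' := le_min h.1 (le_min h'.1 (H.gp_nonneg _ _))
    have p1 := H.pi_le r r'
    have p2 := H.pi_le r' r
    rw [H.pi_symm] at p2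
    have q1 := h.2
    have q2 := h'.2
    simp only [rho] at h1
    rcases le_total t (r.2 - H.pi r r') with e | e
    · have ok : H.Ok (r.1, r.2 - t) := ⟨by simp only; grind, by simp only; grind⟩
      refine ⟨H.mkPt _ ok, ?_⟩
      rw [H.dst_mk, H.dst_mk, H.rho_symm, show r = (r.1, r.2) from rfl,
        H.rho_line r.1 (by grind) q1]
      simp only [rho]
      rw [H.pi_down r r' (by grind), min_eq_right (by grind)]
      constructor <;> abel
    · have ok : H.Ok (r'.1, t - r.2 + (H.pi r r' + H.pi r r')) :=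
        ⟨by simp only; grind, by simp only; grind⟩
      refine ⟨H.mkPt _ ok, ?_⟩
      rw [H.dst_mk, H.dst_mk, H.rho_symm]
      have := H.rho_line r'.1 (t := t - r.2 + (H.pi r r' + H.pi r r')) (u := r'.2) (by grind) q2
      rw [show (r'.1, r'.2) = r' from rfl] at this
      rw [this]
      simp only [rho]
      rw [H.pi_down r' r (by grind), H.pi_symm r' r, min_eq_right (by grind)]
      constructor <;> abel
  · intro f f' f''
    obtain ⟨x, hx, rfl⟩ := H.ex_rep f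
    obtain ⟨y, hy, rfl⟩ := H.ex_rep f'
    obtain ⟨z, hz, rfl⟩ := H.ex_rep f''
    have key : ∀ x y z : Y × Λ, H.Ok x → H.Ok y → H.pi x z ≤ H.pi x y → H.pi y z ≤ H.pi x y →
        ∃ m, H.Ok m ∧ H.rho x m + H.rho m y = H.rho x y ∧ H.rho x m + H.rho m z = H.rho x z ∧
          H.rho y m + H.rho m z = H.rho y z := by
      intro x y z hx hy e1 e2
      have p0 : 0 ≤ H.pi x y := le_min hx.1 (le_min hy.1 (H.gp_nonneg _ _))
      have p1 := H.pi_le x y
      have u1 := H.pi_ultra x z y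
      have u2 := H.pi_ultra y z x
      rw [H.pi_symm y x] at u2
      have e3 : H.pi x z = H.pi y z := by
        rw [min_eq_right e2] at u1
        rw [min_eq_right e1] at u2
        exact le_antisymm u2 u1
      refine ⟨(x.1, H.pi x y), ⟨p0, p1.trans hx.2⟩, ?_⟩
      rw [H.rho_symm x, H.rho_symm y]
      simp only [rho]
      rw [H.pi_down x x p1, H.pi_down x y p1, H.pi_down x z p1, H.pi_self hx, min_self,
        min_eq_left p1, min_eq_right e1, ← e3]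
      refine ⟨?_, ?_, ?_⟩ <;> abel
    have fin : ∀ m (hm : H.Ok m), H.rho x m + H.rho m y = H.rho x y →
        H.rho x m + H.rho m z = H.rho x z → H.rho y m + H.rho m z = H.rho y z →
        ∃ m, H.dst (H.mkPt x hx) m + H.dst m (H.mkPt y hy) = H.dst (H.mkPt x hx) (H.mkPt y hy) ∧
          H.dst (H.mkPt x hx) m + H.dst m (H.mkPt z hz) = H.dst (H.mkPt x hx) (H.mkPt z hz) ∧
          H.dst (H.mkPt y hy) m + H.dst m (H.mkPt z hz) = H.dst (H.mkPt y hy) (H.mkPt z hz) :=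
      fun m hm a b c => ⟨H.mkPt m hm, by simp only [H.dst_mk]; exact ⟨a, b, c⟩⟩
    have s1 := H.pi_symm x y
    have s2 := H.pi_symm x z
    have s3 := H.pi_symm y z
    have t1 := H.rho_symm x y
    have t2 := H.rho_symm x z
    have t3 := H.rho_symm y z
    by_cases c1 : H.pi x z ≤ H.pi x y ∧ H.pi y z ≤ H.pi x y
    · obtain ⟨m, hm, a, b, c⟩ := key x y z hx hy c1.1 c1.2
      exact fin m hm a b c
    by_cases c2 : H.pi x y ≤ H.pi x z ∧ H.pi z y ≤ H.pi x z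
    · obtain ⟨m, hm, a, b, c⟩ := key x z y hx hz c2.1 c2.2
      refine fin m hm b a ?_
      rw [H.rho_symm y m, H.rho_symm m z, add_comm, c, t3]
    · obtain ⟨m, hm, a, b, c⟩ := key y z x hy hz (by grind) (by grind)
      refine fin m hm ?_ ?_ a
      · rw [H.rho_symm x m, H.rho_symm m y, add_comm, b, t1]
      · rw [H.rho_symm x m, H.rho_symm m z, add_comm, c, t2]

variable {G : Type*} [Group G] [MulAction G Y]

/-- the induced action on the spanned tree -/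
@[reducible] def action (hi : ∀ (g : G) a b, H.D (g • a) (g • b) = H.D a b) : MulAction G H.Pt where
  smul g f := ⟨fun y => f.1 (g⁻¹ • y), by
    obtain ⟨r, h, e⟩ := f.2
    obtain ⟨r', h', e'⟩ := H.rebase (g • H.o) (g • r.1) h.1 (by rw [hi]; exact h.2)
    refine ⟨r', h', funext fun y => ?_⟩
    rw [e', e, fn_eq, ← hi g H.o (g⁻¹ • y), ← hi g r.1 (g⁻¹ • y), smul_inv_smul, hi g H.o r.1]⟩
  one_smul f := Subtype.ext (funext fun y => by
    change f.1 ((1 : G)⁻¹ • y) = f.1 y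
    simp)
  mul_smul g g' f := Subtype.ext (funext fun y => by
    change f.1 ((g * g')⁻¹ • y) = f.1 (g'⁻¹ • g⁻¹ • y)
    rw [mul_inv_rev, mul_smul])

theorem actsFreely (hi : ∀ (g : G) a b, H.D (g • a) (g • b) = H.D a b)
    (hf : ∀ g : G, g ≠ 1 → H.D H.o (g • H.o) < H.D H.o (g • g • H.o)) :
    @ActsFreely Λ H.Pt G _ (H.action hi) H.dst := by
  let _ := H.action hi
  have val : ∀ (g : G) (f : H.Pt) y, (g • f).1 y = f.1 (g⁻¹ • y) := fun _ _ _ => rfl
  have nofix : ∀ g : G, g ≠ 1 → ∀ f : H.Pt, g • f ≠ f := by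
    intro g hg f e
    have e1 : ∀ y, f.1 (g • y) = f.1 y := fun y => by
      have := val g f (g • y)
      rw [e, inv_smul_smul] at this
      exact this
    obtain ⟨r, h, rfl⟩ := H.ex_rep f
    have e2 : ∀ y, H.rho r (g • y, H.D H.o (g • y)) = H.rho r (y, H.D H.o y) := e1
    have e3 : ∀ a b, H.rho (a, H.D H.o a) (b, H.D H.o b) = H.D a b := H.fn_pt
    have := H.rho_four (H.o, H.D H.o H.o) (g • g • H.o, H.D H.o (g • g • H.o))
      (g • H.o, H.D H.o (g • H.o)) r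
    rw [H.rho_symm _ r, H.rho_symm _ r, H.rho_symm _ r, e2, e2, e2, e3, e3, e3, hi,
      H.symm (g • H.o), add_comm (H.rho _ _), max_self] at this
    exact absurd (hf g hg) (not_lt.2 (le_of_add_le_add_right this))
  refine ⟨fun g f f' => ?_, nofix, fun g hg f => ?_⟩
  · obtain ⟨a1, y, a2⟩ := H.dst_spec f f'
    exact H.dst_eq (fun y => a1 _) ⟨g • y, by rw [val, val, inv_smul_smul]; exact a2⟩
  · have h1 : g ≠ 1 := fun e => hg f (by rw [e, one_smul])
    have h2 : g * g ≠ 1 := fun e => by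
      have := hf g h1
      rw [← mul_smul, e, one_smul, H.self] at this
      exact absurd this (not_lt.2 (H.nonneg _ _))
    rw [← mul_smul]
    exact nofix _ h2 f

end Hyp

end Pool.Agent.Work.MP_904812_al
end

-- merged part: Pool.Agent.Work.MP_904812_al.Main
section
/-! Finitely generated `Λ`-free groups are `ℝ^m`-free. -/

namespace Pool.Agent.Work.MP_904812_al

universe u

variable {Λ : Type*} [AddCommGroup Λ] [LinearOrder Λ] [IsOrderedAddMonoid Λ] {X : Type*}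
variable {d : X → X → Λ} {G : Type u} [Group G] [MulAction G X]

theorem ActsFreely.act (hd : IsLTree d) (ha : ActsFreely G d) : Act G d :=
  ⟨hd.tr, ha.isometry, fun g x e => by
    by_contra hg
    exact ha.no_fixed_point g hg x e⟩

theorem ActsFreely.len_lt (hd : IsLTree d) (ha : ActsFreely G d) (o : X) {g : G} (hg : g ≠ 1) :
    d o (g • o) < d o (g • g • o) := by
  have h := hd.tr
  by_contra hn
  obtain ⟨m, a1, a2, a3⟩ := h.med' o (g • o) (g⁻¹ • o)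
  have i1 : d o (g⁻¹ • o) = d o (g • o) := by
    rw [← ha.isometry g, smul_inv_smul, h.symm]
  have i2 : d (g • o) (g⁻¹ • o) = d o (g • g • o) := by
    rw [← ha.isometry g, smul_inv_smul, h.symm]
  have b1 : Bt d o (g • m) (g • o) := by
    have := (ha.act hd).bt g a2
    rw [smul_inv_smul] at this
    exact h.bt_symm this
  have i3 : d (g • m) (g • o) = d o m := by rw [ha.isometry, h.symm]
  have s1 := h.symm (g • o) m
  have le : d o (g • m) ≤ d o m := by simp only [Bt] at *; grind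
  have b2 : Bt d o (g • m) (g⁻¹ • o) := (h.bt_trans (h.bt_of_le b1 a1 le).1 a2).1
  have b3 : Bt d o (g • g • m) (g • o) := by
    have := (ha.act hd).bt g b2
    rw [smul_inv_smul] at this
    exact h.bt_symm this
  have i4 : d (g • g • m) (g • o) = d o (g • m) := by rw [ha.isometry, h.symm]
  have e : g • g • m = m := h.bt_uniq b3 a1 (by simp only [Bt] at *; grind)
  exact ha.no_inversion g (ha.no_fixed_point g hg) m e

theorem main (hd : IsLTree d) (ha : ActsFreely G d) (s : Finset G)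
    (hs : Subgroup.closure (s : Set G) = ⊤) : IsLFree G (Lex (Fin (3 * s.card) → ℝ)) := by
  obtain ⟨o⟩ := hd.nonempty
  have h := hd.tr
  let L := AddSubgroup.closure (Set.range fun g : G => d o (g • o))
  obtain ⟨f, hf⟩ := embed_of_rank (M := L) (3 * s.card) (fun k v li => by
    have := (ha.act hd).rank_le hs o (fun i => (v i : Λ)) (fun i => (v i).2)
      (li.map' L.subtype.toIntLinearMap (LinearMap.ker_eq_bot.2 Subtype.val_injective))
    simpa using this)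
  have mem : ∀ a b : G, d (a • o) (b • o) ∈ L := fun a b =>
    AddSubgroup.subset_closure ⟨a⁻¹ * b, by
      simp only
      rw [← ha.isometry a, mul_smul, smul_inv_smul]⟩
  let e : G → G → L := fun a b => ⟨d (a • o) (b • o), mem a b⟩
  let H : Hyp (Lex (Fin (3 * s.card) → ℝ)) G :=
    { D := fun a b => f (e a b)
      o := 1
      gp := fun a b => (1 / 2 : ℝ) • (f (e 1 a) + f (e 1 b) - f (e a b))
      self := fun a => by
        have : e a a = 0 := Subtype.ext (h.self _)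
        rw [this, map_zero]
      symm := fun a b => by
        have : e a b = e b a := Subtype.ext (h.symm _ _)
        rw [this]
      tri := fun a b c => by
        rw [← map_add]
        exact hf.monotone (h.tri _ _ _)
      four := fun x y z w => by
        rw [← map_add, ← map_add, ← map_add, ← hf.monotone.map_max]
        refine hf.monotone ?_
        rcases le_max_iff.1 (h.four (x • o) (y • o) (z • o) (w • o)) with c | c
        · exact le_max_of_le_left c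
        · exact le_max_of_le_right c
      gp_eq := fun a b => by rw [← add_smul]; norm_num }
  have hi : ∀ g a b : G, H.D (g • a) (g • b) = H.D a b := fun g a b => by
    have : e (g * a) (g * b) = e a b := Subtype.ext (by
      simp only [e, mul_smul, ha.isometry])
    exact congrArg f this
  refine ⟨H.Pt, H.action hi, H.dst, H.tr.isLTree ⟨H.mkPt _ (H.ok_pt 1)⟩,
    H.actsFreely hi fun g hg => hf ?_⟩
  change d ((1 : G) • o) ((g * 1) • o) < d ((1 : G) • o) ((g * (g * 1)) • o)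
  simpa [mul_smul] using ha.len_lt hd o hg

end Pool.Agent.Work.MP_904812_al
end
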