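import Pool.Agent.Work.MP_904812_al.QLa2

-- merged part: Pool.Agent.Work.MP_904812_al.QAx
section
/-! Characteristic sets of isometries of trees. -/

namespace Pool.Agent.Work.MP_904812_al

set_option linter.unusedSectionVars false
set_option linter.unusedVariables false

open Subgroup MulAction

variable {Λ : Type*} [AddCommGroup Λ] [LinearOrder Λ] [IsOrderedAddMonoid Λ] {X : Type*}
variable {d : X → X → Λ} {G : Type*} [Group G] [MulAction G X]

theorem IAct.bt (h : IAct G d) (g : G) {x p y : X} (a : Bt d x p y) :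
    Bt d (g • x) (g • p) (g • y) := by
  simp only [Bt, h.iso] at *; exact a

theorem IAct.bt_iff (h : IAct G d) (g : G) {x p y : X} :
    Bt d (g • x) (g • p) (g • y) ↔ Bt d x p y := by
  simp only [Bt, h.iso]

theorem Act.iact (h : Act G d) (hne : Nonempty X) : IAct G d := ⟨h.tr, hne, h.iso⟩

theorem IAct.comp (h : IAct G d) (H : Subgroup G) : IAct H d :=
  ⟨h.tr, h.ne, fun g x y => h.iso g.1 x y⟩

theorem QAx_glue (h : Tr d) {a b c e : X} (h1 : Bt d a b c) (h2 : Bt d b c e) (n : b ≠ c) :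
    Bt d a b e ∧ Bt d a c e := by
  have := h.four a c b e
  have := h.pos n
  have := h.symm c b
  have := h.tri a c e
  have := h.tri a b e
  simp only [Bt] at *; grind

theorem IAct.QAx_l (h : IAct G d) (g : G) (x y : X) : d (g⁻¹ • x) y = d x (g • y) := by
  rw [← h.iso g, smul_inv_smul]

theorem IAct.QAx_r (h : IAct G d) (g : G) (x y : X) : d x (g⁻¹ • y) = d (g • x) y := by
  rw [← h.iso g, smul_inv_smul]

theorem IAct.QAx_med (h : IAct G d) (g : G) (x : X) :
    ∃ m, Bt d x m (g • x) ∧ ((Mn d g m ∧ Bt d x m (g • m) ∧ Bt d x m (g⁻¹ • m) ∧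
      d x (g • x) = d m (g • m) + (d x m + d x m)) ∨ g • g • m = m) := by
  have T := h.tr
  obtain ⟨m, a1, a2, a3⟩ := T.med' x (g⁻¹ • x) (g • x)
  have b1 : Bt d x (g • m) (g • x) := by
    have := T.bt_symm (h.bt g a1)
    rwa [smul_inv_smul] at this
  have b2 : Bt d x (g⁻¹ • m) (g⁻¹ • x) := by
    have := T.bt_symm (h.bt g⁻¹ a2)
    rwa [inv_smul_smul] at this
  have e1 : d (g • m) (g • x) = d x m := by rw [h.iso, T.symm]
  have e2 : d (g⁻¹ • m) (g⁻¹ • x) = d x m := by rw [h.iso, T.symm]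
  have e3 : d x (g⁻¹ • x) = d x (g • x) := by rw [h.QAx_r, T.symm]
  refine ⟨m, a2, ?_⟩
  rcases le_total (d x m) (d x (g • m)) with hle | hle
  · left
    obtain ⟨c1, c2⟩ := T.bt_of_le a2 b1 hle
    obtain ⟨c3, c4⟩ := T.bt_of_le a1 b2 (by simp only [Bt] at *; grind)
    refine ⟨?_, c1, c3, by simp only [Bt] at *; grind⟩
    have := T.tri (g⁻¹ • x) (g⁻¹ • m) (g • x)
    have := T.tri (g⁻¹ • m) (g • m) (g • x)
    have := T.tri (g⁻¹ • m) m (g • m)
    have := T.symm (g⁻¹ • x) (g⁻¹ • m)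
    have := T.symm (g⁻¹ • x) m
    have := T.symm (g⁻¹ • m) m
    simp only [Mn, Bt] at *; grind
  · right
    obtain ⟨c1, c2⟩ := T.bt_of_le b1 a2 hle
    obtain ⟨c3, c4⟩ := T.bt_of_le b2 a1 (by simp only [Bt] at *; grind)
    have : g • m = g⁻¹ • m := T.bt_uniq c1 c3 (by simp only [Bt] at *; grind)
    rw [this, smul_inv_smul]

theorem IAct.QAx_fix (h : IAct G d) {g : G} {p : X} (e : g • p = p) : Mn d g p := by
  have : g⁻¹ • p = p := by rw [inv_smul_eq_iff, e]
  simp only [Mn, this, e]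
  exact h.tr.bt_left p p

theorem IAct.QAx_of_fix (h : IAct G d) {g : G} {p x : X} (hp : Mn d g p) (e : g • x = x) :
    g • p = p := by
  have T := h.tr
  have e1 : d x (g • p) = d x p := by conv_lhs => rw [← e, h.iso]
  have e2 : d x (g⁻¹ • p) = d x p := by rw [h.QAx_r, e]
  have e3 : d p (g⁻¹ • p) = d p (g • p) := by rw [h.QAx_r, T.symm]
  have : d p (g • p) = 0 := by
    rcases T.bt_split hp x with b | b <;> simp only [Bt] at b <;> grind
  exact (T.eq_of this).symm

theorem IAct.QAx_le (h : IAct G d) {g : G} {p : X} (hp : Mn d g p) (x : X) :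
    d p (g • p) ≤ d x (g • x) := by
  have T := h.tr
  have e1 := h.iso g x p
  have e2 := h.QAx_r g x p
  have e3 : d p (g⁻¹ • p) = d p (g • p) := by rw [h.QAx_r, T.symm]
  have t1 := T.tri x (g • x) (g • p)
  have t2 := T.tri (g • x) x p
  have s := T.symm (g • x) x
  rcases T.bt_split hp x with b | b <;> simp only [Bt] at b <;> grind

theorem IAct.QAx_len (h : IAct G d) {g : G} {p q : X} (hp : Mn d g p) (hq : Mn d g q) :
    d p (g • p) = d q (g • q) := le_antisymm (h.QAx_le hp q) (h.QAx_le hq p)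

/-- a point of the axis cannot lie behind `m` in both directions -/
theorem IAct.QAx_two (h : IAct G d) {g : G} {m y : X} (hm : Mn d g m) (hy : Mn d g y)
    (hg : g • m ≠ m) (a : Bt d y m (g • m)) (b : Bt d y m (g⁻¹ • m)) : y = m := by
  have T := h.tr
  have f := T.four (g • y) m y (g • m)
  have e := h.QAx_len hm hy
  have e1 := h.iso g y m
  have e2 := h.QAx_r g y m
  have e3 : d m (g⁻¹ • m) = d m (g • m) := by rw [h.QAx_r, T.symm]
  have := T.pos hg.symm
  have := T.symm (g • y) y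
  have := T.symm m y
  have := T.nonneg y m
  apply T.eq_of
  simp only [Bt] at *; grind

theorem IAct.QAx_pow (h : IAct G d) {g : G} {p : X} (hp : Mn d g p) (n : ℕ) :
    d p (g ^ n • p) = n • d p (g • p) := by
  have T := h.tr
  by_cases hg : g • p = p
  · have : g ^ n • p = p := by
      induction n with
      | zero => simp
      | succ n ih => rw [pow_succ, mul_smul, hg, ih]
    rw [this, hg, T.self]; simp
  have key : Bt d p (g ^ n • p) (g ^ (n + 1) • p) ∧ d p (g ^ n • p) = n • d p (g • p) := by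
    induction n with
    | zero => simp [T.bt_left, T.self]
    | succ n ih =>
      obtain ⟨i1, i2⟩ := ih
      have b : Bt d (g ^ n • p) (g ^ (n + 1) • p) (g ^ (n + 1 + 1) • p) := by
        have := h.bt (g ^ (n + 1)) hp
        rwa [← mul_smul, ← mul_smul, ← pow_succ, pow_succ g n, mul_inv_cancel_right,
          ← pow_succ] at this
      have e : d (g ^ n • p) (g ^ (n + 1) • p) = d p (g • p) := by
        rw [pow_succ, mul_smul, h.iso]
      have ne : g ^ n • p ≠ g ^ (n + 1) • p := by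
        intro c
        rw [← c, T.self] at e
        exact hg (T.eq_of e.symm).symm
      refine ⟨(QAx_glue T i1 b ne).2, ?_⟩
      simp only [Bt] at i1
      rw [← i1, i2, e, succ_nsmul]
  exact key.2

theorem IAct.QAx_ell (h : IAct G d) {g : G} {p x : X} (hp : Mn d g p) {n : ℕ} (hn : 0 < n)
    (hm : Mn d (g ^ n) p) (e : g ^ n • x = x) : g • p = p := by
  have T := h.tr
  have e1 := h.QAx_pow hp n
  rw [h.QAx_of_fix hm e, T.self] at e1
  by_contra c
  have := nsmul_pos (T.pos (Ne.symm c)) hn.ne'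
  rw [← e1] at this
  exact lt_irrefl _ this

theorem IAct.QAx_mn_pow (h : IAct G d) {g : G} {p : X} (hp : Mn d g p) (n : ℕ) :
    Mn d (g ^ n) p := by
  have e1 := h.QAx_pow hp n
  have e2 := h.QAx_pow hp (n + n)
  simp only [Mn, Bt, h.QAx_l]
  rw [← mul_smul, ← pow_add, e1, e2, add_nsmul]

theorem IAct.semi (h : IAct G d) (ni : ∀ (g : G) (y : X), g • g • y = y → ∃ p : X, g • p = p) :
    Semi G d := by
  intro g
  obtain ⟨x⟩ := h.ne
  obtain ⟨m, -, a | a⟩ := h.QAx_med g x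
  · exact ⟨m, a.1⟩
  · obtain ⟨p, hp⟩ := ni g m a
    exact ⟨p, h.QAx_fix hp⟩

theorem IAct.semi_real {d : X → X → ℝ} (h : IAct G d) : Semi G d := by
  refine h.semi fun g y e => ?_
  have T := h.tr
  have n := T.nonneg y (g • y)
  obtain ⟨m, a, b⟩ := T.ex_bt y (g • y) (t := d y (g • y) / 2) (by linarith) (by linarith)
  have c : Bt d y (g • m) (g • y) := by
    have := T.bt_symm (h.bt g a)
    rwa [e] at this
  refine ⟨m, T.bt_uniq c a ?_⟩
  have := h.iso g m y
  have := T.symm m y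
  simp only [Bt] at *; linarith

theorem ZTree.semi {d : X → X → ℤ} (h : ZTree G d) : Semi G d := by
  have T := h.act.tr
  refine h.act.semi fun g y e => ?_
  obtain ⟨n, hn⟩ : ∃ n : ℕ, d y (g • y) = n := ⟨(d y (g • y)).toNat, by
    have := T.nonneg y (g • y); omega⟩
  induction n using Nat.strong_induction_on generalizing y with
  | _ n ih =>
    rcases n with _ | _ | n
    · exact ⟨y, (T.eq_of (by simpa using hn)).symm⟩
    · exact absurd e (h.noinv g y (g • y) (by simpa using hn) rfl)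
    · obtain ⟨z, a, b⟩ := T.ex_bt y (g • y) (t := 1) (by omega) (by omega)
      have c : Bt d y (g • z) (g • y) := by
        have := T.bt_symm (h.act.bt g a)
        rwa [e] at this
      have c' : Bt d y (g • g • z) (g • y) := by
        have := T.bt_symm (h.act.bt g c)
        rwa [e] at this
      have e1 := h.act.iso g z y
      have e2 : d y (g • g • z) = d y z := by
        conv_lhs => rw [← e, h.act.iso, h.act.iso]
      have s := T.symm z y
      have e3 := T.bt_dist a c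
      refine ih n (by omega) z (T.bt_uniq c' a e2) ?_
      simp only [Bt] at *
      push_cast at hn
      rw [e3]
      have : d y z - d y (g • z) = -(n : ℤ) := by omega
      rw [this]; simp

theorem Act.semi (h : Act G d) (hne : Nonempty X) (h2 : ∀ g : G, g * g = 1 → g = 1) :
    Semi G d := by
  refine (h.iact hne).semi fun g y e => ⟨y, ?_⟩
  rw [h2 g (h.free _ y (by rw [mul_smul, e])), one_smul]

theorem IAct.mn_fix (h : IAct G d) {g : G} {p : X} (e : g • p = p) : Mn d g p := by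
  exact h.QAx_fix e

theorem IAct.mn_gate (h : IAct G d) {g : G} {p : X} (hp : Mn d g p) (x : X) :
    ∃ m, Mn d g m ∧ (∀ y, Mn d g y → Bt d x m y) ∧ Bt d x m (g • x) ∧
      d x (g • x) = d p (g • p) + (d x m + d x m) := by
  have T := h.tr
  by_cases hg : g • p = p
  · obtain ⟨m, a1, a2, a3⟩ := T.med' x p (g • x)
    have b : Bt d p (g • m) (g • x) := by
      have := T.bt_symm (h.bt g a1)
      rwa [hg] at this
    have e : g • m = m := T.bt_uniq b a3 (by conv_lhs => rw [← hg, h.iso])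
    have e1 : d m (g • x) = d x m := by conv_lhs => rw [← e, h.iso, T.symm]
    refine ⟨m, h.QAx_fix e, fun y hy => ?_, a2, ?_⟩
    · have e2 : d y (g • x) = d y x := by
        conv_lhs => rw [← h.QAx_of_fix hy hg, h.iso]
      apply T.bt_symm
      have := T.symm x m
      rcases T.bt_split a2 y with c | c
      · exact c
      · simp only [Bt] at *; grind
    · rw [hg, T.self]; simp only [Bt] at *; grind
  · obtain ⟨m, a, ⟨b1, b2, b3, b4⟩ | b⟩ := h.QAx_med g x
    · have e := h.QAx_len hp b1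
      have hm : g • m ≠ m := by
        intro c
        rw [c, T.self] at e
        exact hg (T.eq_of e).symm
      refine ⟨m, b1, fun y hy => ?_, a, by rw [e, b4]⟩
      by_contra c
      rw [← T.not_sd_iff, not_not] at c
      have c1 : Bt d y m (g • m) := by
        rw [← T.not_sd_iff] at b2 ⊢
        exact fun s => b2 (T.sd_trans c s)
      have c2 : Bt d y m (g⁻¹ • m) := by
        rw [← T.not_sd_iff] at b3 ⊢
        exact fun s => b3 (T.sd_trans c s)
      exact T.sd_ne (T.sd_symm c) (h.QAx_two b1 hy hm c1 c2).symm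
    · exact absurd (h.QAx_ell hp (n := 2) (by norm_num) (h.QAx_mn_pow hp 2) (x := m)
        (by rw [pow_two, mul_smul, b])) hg

theorem IAct.mn_iff (h : IAct G d) {g : G} {p : X} (hp : Mn d g p) (x : X) :
    Mn d g x ↔ d x (g • x) = d p (g • p) := by
  refine ⟨fun hx => h.QAx_len hx hp, fun e => ?_⟩
  obtain ⟨m, a, -, -, b⟩ := h.mn_gate hp x
  have : d x m = 0 := by grind
  rw [h.tr.eq_of this]; exact a

theorem IAct.mn_le (h : IAct G d) {g : G} {p : X} (hp : Mn d g p) (x : X) :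
    d p (g • p) ≤ d x (g • x) := by
  exact h.QAx_le hp x

theorem IAct.mn_conv (h : IAct G d) {g : G} {a p b : X} (ha : Mn d g a) (hb : Mn d g b)
    (hp : Bt d a p b) : Mn d g p := by
  have T := h.tr
  obtain ⟨m, c, e, -, -⟩ := h.mn_gate ha p
  have e1 := e a ha
  have e2 := e b hb
  have := T.tri a m b
  have := T.symm a m
  have := T.symm a p
  have := T.nonneg p m
  have : d p m = 0 := by simp only [Bt] at *; grind
  rw [T.eq_of this]; exact c

theorem IAct.mn_conj (h : IAct G d) {g : G} {p : X} (hp : Mn d g p) (a : G) :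
    Mn d (a * g * a⁻¹) (a • p) := by
  have := h.bt a hp
  simpa only [Mn, mul_inv_rev, inv_inv, mul_smul, inv_smul_smul] using this

theorem IAct.mn_inv (h : IAct G d) {g : G} {p : X} (hp : Mn d g p) : Mn d g⁻¹ p := by
  simp only [Mn, inv_inv]
  exact h.tr.bt_symm hp

theorem IAct.mn_smul (h : IAct G d) {g a : G} {p : X} (hp : Mn d g p) (c : Commute a g) :
    Mn d g (a • p) := by
  have := h.mn_conj hp a
  rwa [c.eq, mul_inv_cancel_right] at this

theorem IAct.mn_pow (h : IAct G d) {g : G} {p : X} (hp : Mn d g p) (n : ℕ) :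
    Mn d (g ^ n) p ∧ d p (g ^ n • p) = n • d p (g • p) := by
  exact ⟨h.QAx_mn_pow hp n, h.QAx_pow hp n⟩

theorem IAct.mn_zpow (h : IAct G d) {g : G} {p : X} (hp : Mn d g p) (n : ℤ) :
    Mn d (g ^ n) p ∧ d p (g ^ n • p) = |n| • d p (g • p) := by
  obtain ⟨k, rfl | rfl⟩ := n.eq_nat_or_neg
  · rw [zpow_natCast, Nat.abs_cast, natCast_zsmul]
    exact h.mn_pow hp k
  · rw [zpow_neg, zpow_natCast, abs_neg, Nat.abs_cast, natCast_zsmul, h.QAx_r, h.tr.symm]
    exact ⟨h.mn_inv (h.mn_pow hp k).1, (h.mn_pow hp k).2⟩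

/-- if a power of `g` is elliptic then `g` fixes its characteristic set -/
theorem IAct.mn_ell (h : IAct G d) {g : G} {p x : X} (hp : Mn d g p) {n : ℕ} (hn : 0 < n)
    (e : g ^ n • x = x) : g • p = p := by
  exact h.QAx_ell hp hn (h.QAx_mn_pow hp n) e

theorem IAct.QAx_dir (h : IAct G d) {g : G} {p x : X} (hp : Mn d g p) (hg : g • p ≠ p)
    (hx : Mn d g x) (ne : x ≠ p) : Sd d p x (g • p) ∨ Sd d p x (g⁻¹ • p) := by
  by_contra c
  rw [not_or, h.tr.not_sd_iff, h.tr.not_sd_iff] at c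
  exact ne (h.QAx_two hp hx hg c.1 c.2)

theorem IAct.QAx_al (h : IAct G d) {g : G} {p x y : X} (hp : Mn d g p) (hg : g • p ≠ p)
    (hx : Mn d g x) (hy : Mn d g y) : Bt d x p y ∨ Bt d p x y ∨ Bt d p y x := by
  have T := h.tr
  obtain ⟨w, a1, a2, a3⟩ := T.med' p x y
  by_cases e1 : p = w
  · subst e1; exact Or.inl a3
  by_cases e2 : x = w
  · subst e2; exact Or.inr (Or.inl a2)
  by_cases e3 : y = w
  · subst e3; exact Or.inr (Or.inr a1)
  exfalso
  have hw := h.mn_conv hp hx a1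
  have gw : g • w ≠ w := fun e => hg (h.QAx_of_fix hp e)
  rw [← T.not_sd_iff] at a1 a2 a3
  rcases h.QAx_dir hw gw hp e1 with b1 | b1 <;> rcases h.QAx_dir hw gw hx e2 with b2 | b2 <;>
    rcases h.QAx_dir hw gw hy e3 with b3 | b3 <;>
    first
      | exact a1 (T.sd_trans b1 (T.sd_symm b2))
      | exact a2 (T.sd_trans b1 (T.sd_symm b3))
      | exact a3 (T.sd_trans b2 (T.sd_symm b3))

/-- a coordinate on the axis of a hyperbolic element, with translation numbers -/
theorem IAct.mn_coord (h : IAct G d) {g : G} {p : X} (hp : Mn d g p) (hg : g • p ≠ p) :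
    ∃ (c : X → Λ) (τ : G → Λ), (∀ x y, Mn d g x → Mn d g y → d x y = |c x - c y|) ∧
      τ g = d p (g • p) ∧ (∀ a, Commute a g → ∀ x, Mn d g x → c (a • x) = c x + τ a) ∧
      (∀ a b, Commute a g → Commute b g → τ (a * b) = τ a + τ b) ∧
      ∀ a : G, (∀ x, Mn d g x → Mn d g (a • x)) →
        (∃ t, ∀ x, Mn d g x → c (a • x) = c x + t) ∨ ∃ t, ∀ x, Mn d g x → c (a • x) = t - c x := by
  classical
  have T := h.tr
  have lp := T.pos hg.symm
  let c : X → Λ := fun x => if Sd d p x (g • p) then d p x else -d p x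
  have hc : ∀ x y, Mn d g x → Mn d g y → d x y = |c x - c y| := by
    intro x y hx hy
    have n1 := T.nonneg p x
    have n2 := T.nonneg p y
    have s1 := T.symm p x
    have s2 := T.symm p y
    have s3 := T.symm x y
    have key : ∀ x y, Mn d g x → Mn d g y → Bt d p x y → d x y = |c x - c y| := by
      intro x y hx hy b
      have n1 := T.nonneg p x
      have n2 := T.nonneg x y
      by_cases e : p = x
      · subst e
        have := T.self p
        simp only [c]
        split_ifs <;> grind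
      · have s := T.sd_of_bt b e
        have : Sd d p x (g • p) ↔ Sd d p y (g • p) :=
          ⟨fun a => T.sd_trans (T.sd_symm s) a, fun a => T.sd_trans s a⟩
        simp only [c, this]
        simp only [Bt] at b
        split_ifs <;> grind
    rcases h.QAx_al hp hg hx hy with b | b | b
    · by_cases e1 : x = p
      · exact key x y hx hy (e1 ▸ T.bt_left _ _)
      by_cases e2 : y = p
      · rw [T.symm, abs_sub_comm]
        exact key y x hy hx (e2 ▸ T.bt_left _ _)
      have ns := T.not_sd_iff.2 b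
      simp only [Bt] at b
      simp only [c]
      split_ifs with q1 q2 q2
      · exact absurd (T.sd_trans q1 (T.sd_symm q2)) ns
      · grind
      · grind
      · exfalso
        have r1 := (h.QAx_dir hp hg hx e1).resolve_left q1
        have r2 := (h.QAx_dir hp hg hy e2).resolve_left q2
        exact ns (T.sd_trans r1 (T.sd_symm r2))
    · exact key x y hx hy b
    · rw [T.symm, abs_sub_comm]
      exact key y x hy hx b
  have cp : c p = 0 := by simp only [c, T.self]; split_ifs <;> simp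
  have cg : c (g • p) = d p (g • p) := if_pos (T.sd_refl hg.symm)
  have hgp : Mn d g (g • p) := h.mn_smul hp (Commute.refl g)
  have alt : ∀ a : G, (∀ x, Mn d g x → Mn d g (a • x)) →
      (∀ x, Mn d g x → c (a • x) = c x + c (a • p)) ∨
        ∀ x, Mn d g x → c (a • x) = c (a • p) - c x := by
    intro a ha
    have q : ∀ x y, Mn d g x → Mn d g y → |c (a • x) - c (a • y)| = |c x - c y| := by
      intro x y hx hy
      rw [← hc _ _ (ha x hx) (ha y hy), h.iso, hc x y hx hy]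
    have q0 := q p (g • p) hp hgp
    rw [cp, cg] at q0
    rcases le_total (c (a • p)) (c (a • g • p)) with l | l
    · left
      intro x hx
      have q1 := q x p hx hp
      have q2 := q x (g • p) hx hgp
      rw [cp] at q1
      rw [cg] at q2
      grind
    · right
      intro x hx
      have q1 := q x p hx hp
      have q2 := q x (g • p) hx hgp
      rw [cp] at q1
      rw [cg] at q2
      grind
  have tg : ∀ x, Mn d g x → c (g • x) = c x + c (g • p) := by
    rcases alt g (fun x hx => h.mn_smul hx (Commute.refl g)) with a | a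
    · exact a
    · exfalso
      have e1 := a _ hgp
      have e2 := hc p (g • g • p) hp (h.mn_smul hgp (Commute.refl g))
      have e3 := h.QAx_pow hp 2
      rw [pow_two, mul_smul, two_nsmul] at e3
      grind
  have ta : ∀ a, Commute a g → ∀ x, Mn d g x → c (a • x) = c x + c (a • p) := by
    intro a ca
    rcases alt a (fun x hx => h.mn_smul hx ca) with b | b
    · exact b
    · exfalso
      have e1 := b _ hgp
      have e2 := tg _ (h.mn_smul hp ca)
      rw [← mul_smul, ← ca.eq, mul_smul] at e2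
      grind
  refine ⟨c, fun a => c (a • p), hc, cg, ta, fun a b ca cb => ?_, fun a ha => ?_⟩
  · simp only [mul_smul]
    rw [ta a ca _ (h.mn_smul hp cb), add_comm]
  · rcases alt a ha with b | b
    · exact Or.inl ⟨_, b⟩
    · exact Or.inr ⟨_, b⟩

theorem IAct.mn_comm (h : IAct G d) {g a : G} {p : X} (hp : Mn d g p) (hg : g • p ≠ p)
    (c : Commute a g) : Mn d a p := by
  obtain ⟨e, τ, h1, -, h3, h4, -⟩ := h.mn_coord hp hg
  have c' : Commute a⁻¹ g := c.inv_left
  have m1 := h.mn_smul hp c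
  have m2 := h.mn_smul hp c'
  have e0 := h3 1 (Commute.one_left g) p hp
  have e1 := h4 a⁻¹ a c' c
  rw [one_smul] at e0
  rw [inv_mul_cancel] at e1
  have e2 := h3 a c p hp
  have e3 := h3 a⁻¹ c' p hp
  simp only [Mn, Bt]
  rw [h1 _ _ m2 hp, h1 _ _ hp m1, h1 _ _ m2 m1]
  grind

/-- an element commuting with a hyperbolic element and having a fixed point fixes the axis -/
theorem IAct.fix_axis (h : IAct G d) {g a : G} {p x : X} (hp : Mn d g p) (hg : g • p ≠ p)
    (c : Commute a g) (e : a • x = x) : a • p = p := by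
  exact h.QAx_of_fix (h.mn_comm hp hg c) e

/-- the axis of a nontrivial power of a hyperbolic element -/
theorem IAct.mn_zpow_iff (h : IAct G d) {g : G} {p : X} (hp : Mn d g p) (hg : g • p ≠ p) {n : ℤ}
    (hn : n ≠ 0) (x : X) : Mn d (g ^ n) x ↔ Mn d g x := by
  refine ⟨fun hx => ?_, fun hx => (h.mn_zpow hx n).1⟩
  obtain ⟨a, b⟩ := h.mn_zpow hp n
  refine h.mn_comm hx (fun e => ?_) (Commute.self_zpow g n)
  have e1 := h.QAx_len hx a
  rw [e, h.tr.self, b] at e1
  have := zsmul_pos (h.tr.pos hg.symm) (abs_pos.2 hn)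
  rw [← e1] at this
  exact lt_irrefl _ this

/-- translation along a segment of the characteristic set -/
theorem IAct.mn_line (h : IAct G d) {g : G} {a b : X} (ha : Mn d g a) (hb : Mn d g b) :
    ∃ δ, |δ| = d a (g • a) ∧ ∀ p, Bt d a p b → 0 ≤ d a p + δ → d a p + δ ≤ d a b →
      Bt d a (g • p) b ∧ d a (g • p) = d a p + δ := by
  have T := h.tr
  by_cases hg : g • a = a
  · refine ⟨0, by rw [hg, T.self, abs_zero], fun p hp _ _ => ?_⟩
    rw [h.QAx_of_fix (h.mn_conv ha hb hp) hg, add_zero]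
    exact ⟨hp, rfl⟩
  obtain ⟨c, τ, h1, h2, h3, -, -⟩ := h.mn_coord ha hg
  have lp := T.pos (Ne.symm hg)
  have key : ∀ p, Bt d a p b → d a p = |c a - c p| ∧ d p b = |c p - c b| ∧
      d a (g • p) = |c a - (c p + d a (g • a))| ∧ d (g • p) b = |c p + d a (g • a) - c b| := by
    intro p hp
    have m1 := h.mn_conv ha hb hp
    have m2 := h.mn_smul m1 (Commute.refl g)
    have e := h3 g (Commute.refl g) p m1
    rw [h2] at e
    exact ⟨h1 _ _ ha m1, h1 _ _ m1 hb, e ▸ h1 _ _ ha m2, e ▸ h1 _ _ m2 hb⟩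
  have e0 := h1 a b ha hb
  rcases le_total (c a) (c b) with l | l
  · refine ⟨d a (g • a), abs_of_pos lp, fun p hp q1 q2 => ?_⟩
    obtain ⟨k1, k2, k3, k4⟩ := key p hp
    simp only [Bt] at *
    clear * - Λ X d G g a b c lp e0 l p hp q1 q2 k1 k2 k3 k4; grind
  · refine ⟨-d a (g • a), by rw [abs_neg, abs_of_pos lp], fun p hp q1 q2 => ?_⟩
    obtain ⟨k1, k2, k3, k4⟩ := key p hp
    simp only [Bt] at *
    clear * - Λ X d G g a b c lp e0 l p hp q1 q2 k1 k2 k3 k4; grind

/-- an element translating a segment has the middle part of it in its characteristic set -/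
theorem IAct.mn_of_line (h : IAct G d) {g : G} {a b : X} {δ : Λ}
    (e : ∀ p, Bt d a p b → 0 ≤ d a p + δ → d a p + δ ≤ d a b →
      Bt d a (g • p) b ∧ d a (g • p) = d a p + δ)
    {p : X} (hp : Bt d a p b) (h1 : |δ| ≤ d a p) (h2 : |δ| ≤ d p b) :
    Mn d g p ∧ d p (g • p) = |δ| := by
  have T := h.tr
  have hp' : d a p + d p b = d a b := hp
  obtain ⟨a1, a2⟩ := e p hp (by grind) (by grind)
  obtain ⟨q, b1, b2⟩ := T.ex_bt a b (t := d a p - δ) (by grind) (by grind)
  have n1 := T.nonneg a p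
  have n2 := T.nonneg p b
  obtain ⟨c1, c2⟩ := e q b1 (by grind) (by grind)
  have eq : g • q = p := T.bt_uniq c1 hp (by grind)
  have eq' : g⁻¹ • p = q := by rw [inv_smul_eq_iff, eq]
  have d1 := T.bt_dist b1 hp
  have d2 := T.bt_dist hp a1
  have d3 := T.bt_dist b1 a1
  simp only [Mn, Bt, eq']
  clear * - Λ X d G g a δ p a2 q b2 d1 d2 d3; grind

theorem IAct.overlap (h : IAct G d) {g k : G} {a b p : X} (ga : Mn d g a) (gb : Mn d g b)
    (ka : Mn d k a) (kb : Mn d k b) (hp : Bt d a p b)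
    (h1 : d a (g • a) + d a (k • a) ≤ d a p) (h2 : d a (g • a) + d a (k • a) ≤ d p b) :
    g • k • p = k • g • p := by
  obtain ⟨δ, d1, d2⟩ := h.mn_line ga gb
  obtain ⟨ε, e1, e2⟩ := h.mn_line ka kb
  have hp' : d a p + d p b = d a b := hp
  obtain ⟨a1, a2⟩ := e2 p hp (by grind) (by grind)
  obtain ⟨b1, b2⟩ := d2 p hp (by grind) (by clear * - Λ X d G g k a b p h2 δ d1 ε e1 hp'; grind)
  obtain ⟨a3, a4⟩ := d2 _ a1 (by grind) (by clear * - Λ X d G g k a b p h2 δ d1 ε e1 hp' a2; grind)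
  obtain ⟨b3, b4⟩ := e2 _ b1 (by clear * - Λ X d G g k a p h1 δ d1 ε e1 a2 b2 a4; grind) (by grind)
  exact h.tr.bt_uniq a3 b3 (by grind)

theorem Act.mn_comm (h : Act G d) (s : Semi G d) {g k : G} (hg : g ≠ 1) (hk : k ≠ 1)
    (c : Commute g k) {y : X} (hy : Mn d g y) : Mn d k y := by
  exact (h.iact ⟨y⟩).mn_comm hy (fun e => hg (h.free g y e)) c.symm

theorem Act.nice (h : Act G d) (hne : Nonempty X) (h2 : ∀ g : G, g * g = 1 → g = 1) :
    Nice G := by
  have s := h.semi hne h2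
  have I := h.iact hne
  have T := h.tr
  refine ⟨fun g n hn e => ?_, fun a b c hb ab bc => ?_, fun x g hg c => ?_⟩
  · obtain ⟨p, hp⟩ := s g
    exact h.free g p (I.mn_ell hp hn (x := p) (by rw [e, one_smul]))
  · obtain ⟨p, hp⟩ := s b
    obtain ⟨e, τ, h1, -, h3, h4, -⟩ := I.mn_coord hp (fun e => hb (h.free b p e))
    have c1 := ab.mul_left bc.symm
    have c2 := bc.symm.mul_left ab
    apply h.eq_of_smul (x := p)
    apply T.eq_of
    rw [h1 _ _ (I.mn_smul hp c1) (I.mn_smul hp c2), h3 _ c1 p hp, h3 _ c2 p hp,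
      h4 _ _ ab bc.symm, h4 _ _ bc.symm ab, add_comm (τ a)]
    simp
  · obtain ⟨p, hp⟩ := s g
    obtain ⟨e, τ, h1, -, h3, -, h5⟩ := I.mn_coord hp (fun e => hg (h.free g p e))
    have ne : x * g * x⁻¹ ≠ 1 := by
      intro e
      apply hg
      have : g = x⁻¹ * (x * g * x⁻¹) * x := by group
      rw [this, e]; simp
    have pres : ∀ y, Mn d g y → Mn d g (x • y) := fun y hy =>
      h.mn_comm s ne hg c (I.mn_conj hy x)
    have hgp := I.mn_smul hp (Commute.refl g)
    rcases h5 x pres with ⟨t, ht⟩ | ⟨t, ht⟩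
    · apply h.eq_of_smul (x := p)
      apply T.eq_of
      rw [mul_smul, mul_smul, h1 _ _ (pres _ hgp) (I.mn_smul (pres _ hp) (Commute.refl g)),
        ht _ hgp, h3 g (Commute.refl g) _ hp, h3 g (Commute.refl g) _ (pres _ hp), ht _ hp,
        add_right_comm]
      simp
    · have : x * x = 1 := by
        apply h.free _ p
        apply T.eq_of
        rw [mul_smul, h1 _ _ (pres _ (pres _ hp)) hp, ht _ (pres _ hp), ht _ hp]
        simp
      rw [h2 x this]
      exact Commute.one_left g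

theorem Nice.of_inj {H : Type*} [Group H] (h : Nice G) (ι : H →* G) (hι : Function.Injective ι) :
    Nice H := by
  have cm : ∀ a b : H, Commute (ι a) (ι b) → Commute a b := fun a b e =>
    hι (by rw [map_mul, map_mul]; exact e)
  have ne : ∀ a : H, a ≠ 1 → ι a ≠ 1 := fun a ha e => ha (hι (by rw [e, map_one]))
  refine ⟨fun g n hn e => ?_, fun a b c hb ab bc => ?_, fun x g hg c => ?_⟩
  · exact hι (by rw [map_one]; exact h.tf _ n hn (by rw [← map_pow, e, map_one]))
  · exact cm _ _ (h.ct _ _ _ (ne b hb) (ab.map ι) (bc.map ι))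
  · refine cm _ _ (h.mal _ _ (ne g hg) ?_)
    have := c.map ι
    rwa [map_mul, map_mul, map_inv] at this

theorem AbFG.of_inj {H : Type*} [Group H] (h : AbFG G) (ι : H →* G)
    (hι : Function.Injective ι) : AbFG H := by
  intro A hA
  have : (A.map ι).FG := by
    apply h
    rintro _ ⟨a, ha, rfl⟩ _ ⟨b, hb, rfl⟩
    exact (hA a ha b hb).map ι
  rw [← Group.fg_iff_subgroup_fg] at this ⊢
  exact Group.fg_of_surjective (f := (A.equivMapOfInjective ι hι).symm.toMonoidHom)
    (A.equivMapOfInjective ι hι).symm.surjective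

theorem IAct.QAx_cyc [Archimedean Λ] (h : IAct G d) {g : G} {p : X} (hp : Mn d g p)
    (hg : g • p ≠ p) (A : Subgroup G) (hA : ∀ a ∈ A, Commute a g) {ε : Λ} (hε : 0 < ε)
    (hd : ∀ a ∈ A, a ≠ 1 → ε ≤ d p (a • p)) : ∃ c ∈ A, A ≤ zpowers c := by
  obtain ⟨e, τ, h1, -, h3, h4, -⟩ := h.mn_coord hp hg
  let φ : Additive A →+ Λ := AddMonoidHom.mk' (fun a => τ (a.toMul : A))
    fun a b => h4 _ _ (hA _ a.toMul.2) (hA _ b.toMul.2)
  have len : ∀ a ∈ A, d p (a • p) = |τ a| := by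
    intro a ha
    rw [h1 _ _ hp (h.mn_smul hp (hA a ha)), h3 a (hA a ha) p hp]
    simp
  have inj : Function.Injective φ := by
    rw [injective_iff_map_eq_zero]
    intro a ea
    by_contra ne
    have := hd _ a.toMul.2 (fun c => ne (by
      have : a.toMul = 1 := Subtype.ext c
      exact toMul_eq_one.1 this))
    rw [len _ a.toMul.2, show τ (a.toMul : A) = 0 from ea, abs_zero] at this
    exact absurd hε (not_lt.2 this)
  obtain ⟨b, hb⟩ := AddSubgroup.cyclic_of_isolated_zero (H := φ.range) hε (by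
    rw [Set.disjoint_left]
    rintro _ ⟨a, rfl⟩ ⟨q1, q2⟩
    have ne : ((a.toMul : A) : G) ≠ 1 := by
      intro c
      have : a = 0 := toMul_eq_one.1 (Subtype.ext c)
      rw [this, map_zero] at q1
      exact lt_irrefl _ q1
    have := hd _ a.toMul.2 ne
    rw [len _ a.toMul.2, show τ (a.toMul : A) = φ a from rfl, abs_of_pos q1] at this
    exact absurd q2 (not_lt.2 this))
  have hb' : b ∈ φ.range := by rw [hb]; exact AddSubgroup.subset_closure rfl
  obtain ⟨c, rfl⟩ := hb'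
  refine ⟨(c.toMul : A), c.toMul.2, fun a ha => ?_⟩
  have : φ (Additive.ofMul ⟨a, ha⟩) ∈ φ.range := ⟨_, rfl⟩
  rw [hb, AddSubgroup.mem_closure_singleton] at this
  obtain ⟨n, hn⟩ := this
  rw [← map_zsmul] at hn
  have := congrArg (fun t : Additive A => ((t.toMul : A) : G)) (inj hn)
  exact ⟨n, by simpa using this⟩

/-- a group of elements commuting with a hyperbolic element whose nontrivial elements move
points of the axis by a definite amount is cyclic -/
theorem IAct.cyc_real {d : X → X → ℝ} (h : IAct G d) {g : G} {p : X} (hp : Mn d g p)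
    (hg : g • p ≠ p) (A : Subgroup G) (hA : ∀ a ∈ A, Commute a g) {ε : ℝ} (hε : 0 < ε)
    (hd : ∀ a ∈ A, a ≠ 1 → ε ≤ d p (a • p)) : ∃ c ∈ A, A ≤ zpowers c := by
  exact h.QAx_cyc hp hg A hA hε hd

theorem IAct.cyc_int {d : X → X → ℤ} (h : IAct G d) {g : G} {p : X} (hp : Mn d g p)
    (hg : g • p ≠ p) (A : Subgroup G) (hA : ∀ a ∈ A, Commute a g)
    (hd : ∀ a ∈ A, a • p = p → a = 1) : ∃ c ∈ A, A ≤ zpowers c := by
  refine h.QAx_cyc hp hg A hA (ε := 1) one_pos fun a ha ne => ?_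
  have := h.tr.pos (x := p) (y := a • p) fun e => ne (hd a ha e.symm)
  omega

theorem TrivE.fix_uniq {d : X → X → ℤ} (h : ZTree G d) (t : TrivE G d) {a : G} (ha : a ≠ 1)
    {x y : X} (hx : a • x = x) (hy : a • y = y) : x = y := by
  have T := h.act.tr
  by_contra ne
  have := T.pos ne
  obtain ⟨z, b, e⟩ := T.ex_bt x y (t := 1) (by omega) (by omega)
  exact ha (t x z e a hx
    (h.act.QAx_of_fix (h.act.mn_conv (h.act.mn_fix hx) (h.act.mn_fix hy) b) hx))

theorem TrivE.ell_or_cyc {d : X → X → ℤ} (h : ZTree G d) (t : TrivE G d) (A : Subgroup G)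
    (hA : Comm A) : (∃ v : X, ∀ a ∈ A, a • v = v) ∨ ∃ c, A ≤ zpowers c := by
  by_cases h1 : ∃ g ∈ A, g ≠ 1
  · obtain ⟨g, hgA, hg⟩ := h1
    obtain ⟨p, hp⟩ := h.semi g
    by_cases e : g • p = p
    · refine Or.inl ⟨p, fun a ha => t.fix_uniq h hg ?_ e⟩
      rw [← mul_smul, (hA g hgA a ha).eq, mul_smul, e]
    · right
      obtain ⟨c, -, hc⟩ := h.act.cyc_int hp e A (fun a ha => hA a ha g hgA) (fun a ha ea => by
        by_contra ne
        refine e (t.fix_uniq h ne ?_ ea)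
        rw [← mul_smul, (hA a ha g hgA).eq, mul_smul, ea])
      exact ⟨c, hc⟩
  · push Not at h1
    obtain ⟨v⟩ := h.act.ne
    exact Or.inl ⟨v, fun a ha => by rw [h1 a ha, one_smul]⟩

theorem ZTree.fix_of_pow {d : X → X → ℤ} (h : ZTree G d) {g : G} {n : ℕ} (hn : 0 < n) {x : X}
    (e : g ^ n • x = x) : ∃ p : X, g • p = p := by
  obtain ⟨p, hp⟩ := h.semi g
  exact ⟨p, h.act.mn_ell hp hn e⟩

/-- the centraliser of a hyperbolic element of a tree of cylinders -/
theorem Bip.hyp_cyc {d : X → X → ℤ} {C : X → Prop} (b : Bip G d C) {g : G}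
    (hg : ∀ w : X, g • w ≠ w) :
    ∃ k : G, (∀ a, Commute a g ↔ a ∈ zpowers k) ∧
      ∀ n : ℤ, n ≠ 0 → ∀ w : X, k ^ n • w ≠ w := by
  have I := b.zt.act
  have T := I.tr
  obtain ⟨q, hq, cq⟩ : ∃ q, Mn d g q ∧ C q := by
    obtain ⟨p, hp⟩ := b.zt.semi g
    by_cases cp : C p
    · exact ⟨p, hp, cp⟩
    have := T.pos (hg p).symm
    obtain ⟨z, a, e⟩ := T.ex_bt p (g • p) (t := 1) (by omega) (by omega)
    refine ⟨z, I.mn_conv hp (I.mn_smul hp (Commute.refl g)) a, ?_⟩
    have := b.alt p z e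
    tauto
  have hd : ∀ a, Commute a g → a • q = q → a = 1 := by
    intro a ca e
    refine (b.acyl a q (g • q) cq ((b.inv g q).2 cq) e ?_).resolve_right (hg q).symm
    rw [← mul_smul, ca.eq, mul_smul, e]
  have mem : ∀ a, a ∈ centralizer ({g} : Set G) ↔ Commute a g := fun a => by
    rw [mem_centralizer_singleton_iff]; rfl
  obtain ⟨k, hk, hk'⟩ := I.cyc_int hq (hg q) (centralizer {g}) (fun a ha => (mem a).1 ha)
    (fun a ha => hd a ((mem a).1 ha))
  have ck := (mem k).1 hk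
  refine ⟨k, fun a => ⟨fun ca => hk' ((mem a).2 ca), ?_⟩, fun n hn w e => ?_⟩
  · rintro ⟨n, rfl⟩
    exact ck.zpow_left n
  · have e1 := hd _ (ck.zpow_left n) (I.fix_axis hq (hg q) (ck.zpow_left n) e)
    obtain ⟨j, hj⟩ := hk' ((mem g).2 (Commute.refl g))
    have e2 : g ^ n = 1 := by
      rw [← hj]; simp only
      rw [← zpow_mul, mul_comm, zpow_mul, e1, one_zpow]
    have e3 : g ^ n.natAbs = 1 := by rw [← zpow_natCast, Int.natCast_natAbs, zpow_abs_eq_one, e2]
    exact hg q (I.mn_ell hq (Int.natAbs_pos.2 hn) (x := q) (by rw [e3, one_smul]))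

theorem Bip.stab {d : X → X → ℤ} {C : X → Prop} (b : Bip G d C) {g : G} (hg : g ≠ 1) {c : X}
    (hc : C c) (e : g • c = c) (a : G) : a • c = c ↔ Commute a g := by
  refine ⟨fun ea => b.comm c hc a g ea e, fun ca => ?_⟩
  refine ((b.acyl g c (a • c) hc ((b.inv a c).2 hc) e ?_).resolve_left hg).symm
  rw [← mul_smul, ← ca.eq, mul_smul, e]

/-- long overlaps of axes force commutation -/
theorem Bip.comm_of_overlap {d : X → X → ℤ} {C : X → Prop} (b : Bip G d C) {g k : G} {x y : X}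
    (gx : Mn d g x) (gy : Mn d g y) (kx : Mn d k x) (ky : Mn d k y)
    (hl : 2 * (d x (g • x) + d x (k • x)) + 3 ≤ d x y) : Commute g k := by
  have I := b.zt.act
  have T := I.tr
  have n1 := T.nonneg x (g • x)
  have n2 := T.nonneg x (k • x)
  have pt : ∀ i : ℤ, 0 ≤ i → i ≤ 3 → ∃ p, Bt d x p y ∧ d x p = d x (g • x) + d x (k • x) + i ∧
      ((k * g)⁻¹ * (g * k)) • p = p := by
    intro i i0 i3
    obtain ⟨p, a, e⟩ := T.ex_bt x y (t := d x (g • x) + d x (k • x) + i) (by omega) (by omega)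
    refine ⟨p, a, e, ?_⟩
    have a' : d x p + d p y = d x y := a
    rw [mul_smul, inv_smul_eq_iff, mul_smul, mul_smul]
    exact I.overlap gx gy kx ky a (by omega) (by omega)
  obtain ⟨p0, a0, e0, f0⟩ := pt 0 (by omega) (by omega)
  obtain ⟨p1, a1, e1, f1⟩ := pt 1 (by omega) (by omega)
  obtain ⟨p2, a2, e2, f2⟩ := pt 2 (by omega) (by omega)
  obtain ⟨p3, a3, e3, f3⟩ := pt 3 (by omega) (by omega)
  have c1 := b.alt p0 p1 (by rw [T.bt_dist a0 a1, e0, e1]; simp)
  have c2 := b.alt p1 p2 (by rw [T.bt_dist a1 a2, e1, e2]; simp)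
  have c3 := b.alt p2 p3 (by rw [T.bt_dist a2 a3, e2, e3]; simp)
  have : (k * g)⁻¹ * (g * k) = 1 := by
    by_cases c0 : C p0
    · refine (b.acyl _ p0 p2 c0 (by tauto) f0 f2).resolve_right ?_
      rintro rfl; omega
    · refine (b.acyl _ p1 p3 (by tauto) (by tauto) f1 f3).resolve_right ?_
      rintro rfl; omega
  exact (inv_mul_eq_one.1 this).symm

end Pool.Agent.Work.MP_904812_al
end

-- merged part: Pool.Agent.Work.MP_904812_al.QCrs1
section
/-! The coarse real tree. -/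

namespace Pool.Agent.Work.MP_904812_al

set_option linter.unusedSectionVars false
set_option linter.unusedVariables false

open Subgroup MulAction

variable {Λ : Type*} [AddCommGroup Λ] [LinearOrder Λ] [IsOrderedAddMonoid Λ] {X : Type}
variable {d : X → X → Λ} {G : Type} [Group G] [MulAction G X]

theorem QCrs1_self (h : Tr d) {D : X → X → ℝ}
    (add : ∀ x p y, Bt d x p y → D x p + D p y = D x y) (x : X) : D x x = 0 := by
  have := add x x x (h.bt_left x x)
  linarith

theorem QCrs1_tri (h : Tr d) {D : X → X → ℝ} (nn : ∀ x y, 0 ≤ D x y)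
    (symm : ∀ x y, D x y = D y x) (add : ∀ x p y, Bt d x p y → D x p + D p y = D x y)
    (x y z : X) : D x z ≤ D x y + D y z := by
  obtain ⟨m, a, b, c⟩ := h.med' x y z
  have := add _ _ _ a
  have := add _ _ _ b
  have := add _ _ _ c
  have := nn m y
  have := nn y m
  linarith

theorem quot_real (h : IAct G d) (D : X → X → ℝ) (nn : ∀ x y, 0 ≤ D x y)
    (symm : ∀ x y, D x y = D y x) (add : ∀ x p y, Bt d x p y → D x p + D p y = D x y)
    (inv : ∀ (g : G) x y, D (g • x) (g • y) = D x y)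
    (ex : ∀ x y t, 0 ≤ t → t ≤ D x y → ∃ p, Bt d x p y ∧ D x p = t) :
    ∃ (Y : Type) (_ : MulAction G Y) (e : Y → Y → ℝ) (q : X → Y), IAct G e ∧
      Function.Surjective q ∧ (∀ (g : G) x, q (g • x) = g • q x) ∧
      (∀ x y, e (q x) (q y) = D x y) ∧
      ∀ x y z, Bt e (q x) z (q y) → ∃ p, Bt d x p y ∧ q p = z := by
  have ht := h.tr
  have self := QCrs1_self ht add
  have tri := QCrs1_tri ht nn symm add
  let S : Setoid X := ⟨fun x y => D x y = 0, ⟨self, fun {x y} e => by rw [symm]; exact e,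
    fun {x y z} e e' => by
      have := tri x y z
      have := nn x z
      show D x z = 0
      have e1 : D x y = 0 := e
      have e2 : D y z = 0 := e'
      linarith⟩⟩
  have wd : ∀ x y x' y', D x x' = 0 → D y y' = 0 → D x y = D x' y' := by
    intro x y x' y' e1 e2
    have := tri x x' y
    have := tri x' y' y
    have := tri x' x y'
    have := tri x y y'
    have := symm x x'
    have := symm y y'
    linarith
  let e : Quotient S → Quotient S → ℝ :=
    Quotient.lift₂ D fun x y x' y' e1 e2 => wd x y x' y' e1 e2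
  let sm : G → Quotient S → Quotient S := fun g =>
    Quotient.map (fun x => g • x) fun x y e1 => by
      show D (g • x) (g • y) = 0
      rw [inv]; exact e1
  let act : MulAction G (Quotient S) :=
    { smul := sm
      one_smul := by
        intro y
        induction y using Quotient.inductionOn with
        | h x => exact congrArg (Quotient.mk S) (one_smul G x)
      mul_smul := by
        intro g g' y
        induction y using Quotient.inductionOn with
        | h x => exact congrArg (Quotient.mk S) (mul_smul g g' x) }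
  have he : ∀ x y, e (Quotient.mk S x) (Quotient.mk S y) = D x y := fun x y => rfl
  have hs : ∀ (g : G) x, Quotient.mk S (g • x) = g • Quotient.mk S x := fun g x => rfl
  refine ⟨Quotient S, act, e, Quotient.mk S, ⟨⟨?_, ?_, ?_, ?_, ?_, ?_, ?_, ?_⟩, ?_, ?_⟩,
    Quotient.mk_surjective, hs, he, ?_⟩
  · intro x y
    induction x using Quotient.inductionOn
    induction y using Quotient.inductionOn
    exact nn _ _
  · intro x
    induction x using Quotient.inductionOn
    exact self _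
  · intro x y
    induction x using Quotient.inductionOn
    induction y using Quotient.inductionOn
    intro e0
    exact Quotient.sound e0
  · intro x y
    induction x using Quotient.inductionOn
    induction y using Quotient.inductionOn
    exact symm _ _
  · intro x y z
    induction x using Quotient.inductionOn
    induction y using Quotient.inductionOn
    induction z using Quotient.inductionOn
    exact tri _ _ _
  · intro x y t
    induction x using Quotient.inductionOn with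
    | h x =>
    induction y using Quotient.inductionOn with
    | h y =>
    intro h0 h1
    obtain ⟨p, hp, hp'⟩ := ex x y t h0 h1
    exact ⟨Quotient.mk S p, hp', add _ _ _ hp⟩
  · intro x y z w
    induction x using Quotient.inductionOn with
    | h x =>
    induction y using Quotient.inductionOn with
    | h y =>
    induction z using Quotient.inductionOn with
    | h z =>
    induction w using Quotient.inductionOn with
    | h w =>
    refine four_of_med (d := D) symm tri (Bt d) add ht.med' ?_ x y z w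
    intro a m b c hm
    rcases ht.bt_split hm c with k | k
    · exact Or.inl (ht.bt_symm k)
    · exact Or.inr (ht.bt_symm k)
  · intro x y z
    induction x using Quotient.inductionOn with
    | h x =>
    induction y using Quotient.inductionOn with
    | h y =>
    induction z using Quotient.inductionOn with
    | h z =>
    obtain ⟨m, a, b, c⟩ := ht.med' x y z
    exact ⟨Quotient.mk S m, add _ _ _ a, add _ _ _ b, add _ _ _ c⟩
  · obtain ⟨x⟩ := h.ne
    exact ⟨Quotient.mk S x⟩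
  · intro g x y
    induction x using Quotient.inductionOn
    induction y using Quotient.inductionOn
    exact inv g _ _
  · intro x y z
    induction z using Quotient.inductionOn with
    | h z =>
    intro hb
    have hb' : D x z + D z y = D x y := hb
    obtain ⟨m, a, b, c⟩ := ht.med' x y z
    refine ⟨m, a, Quotient.sound ?_⟩
    show D m z = 0
    have := add _ _ _ a
    have := add _ _ _ b
    have := add _ _ _ c
    have := symm y m
    have := symm y z
    linarith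

/-- transfer of the tree structure along an order embedding of the value groups -/
theorem QCrs1_pull {Λ₁ : Type*} [AddCommGroup Λ₁] [LinearOrder Λ₁] [IsOrderedAddMonoid Λ₁]
    {Z : Type*} {c : Z → Z → Λ} (h : Tr c) (ι : Λ₁ →+ Λ) (hι : StrictMono ι)
    (c' : Z → Z → Λ₁) (e : ∀ x y, ι (c' x y) = c x y) : Tr c' := by
  have inj := hι.injective
  refine ⟨?_, ?_, ?_, ?_, ?_, ?_, ?_, ?_⟩
  · intro x y
    rw [← hι.le_iff_le, map_zero, e]
    exact h.nonneg x y
  · intro x
    apply inj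
    rw [map_zero, e, h.self]
  · intro x y e0
    apply h.eq_of
    rw [← e, e0, map_zero]
  · intro x y
    apply inj
    rw [e, e, h.symm]
  · intro x y z
    rw [← hι.le_iff_le, map_add, e, e, e]
    exact h.tri x y z
  · intro x y t h0 h1
    obtain ⟨p, a, b⟩ := h.ex_pt x y (ι t) (by rw [← map_zero ι, hι.le_iff_le]; exact h0)
      (by rw [← e, hι.le_iff_le]; exact h1)
    refine ⟨p, inj (by rw [e, a]), inj (by rw [map_add, e, e, e, b])⟩
  · intro x y z w
    rw [← hι.le_iff_le, hι.monotone.map_max, map_add, map_add, map_add, e, e, e, e, e, e]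
    exact h.four x y z w
  · intro x y z
    obtain ⟨m, a, b, c⟩ := h.med x y z
    exact ⟨m, inj (by rw [map_add, e, e, e, a]), inj (by rw [map_add, e, e, e, b]),
      inj (by rw [map_add, e, e, e, c])⟩

theorem crs_of_act {Λ₁ : Type*} [AddCommGroup Λ₁] [LinearOrder Λ₁] [IsOrderedAddMonoid Λ₁]
    (h : Act G d) (hne : Nonempty X) (nice : Nice G) (π : Λ →+ ℝ) (mono : Monotone π)
    (surj : Function.Surjective π) (ι : Λ₁ →+ Λ) (hι : StrictMono ι)
    (ker : ∀ a, π a = 0 ↔ ∃ b, ι b = a)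
    (low : ∀ (H : Type) [Group H] (X' : Type) [MulAction H X'] (d' : X' → X' → Λ₁),
      Act H d' → Nonempty X' → Nice H → RFG H → Hier H) :
    ∃ (Y : Type) (_ : MulAction G Y) (e : Y → Y → ℝ), Crs G e := by
  have ht := h.tr
  have hi := h.iact hne
  have nn : ∀ x y, 0 ≤ π (d x y) := fun x y => by
    rw [← map_zero π]; exact mono (ht.nonneg x y)
  have add : ∀ x p y, Bt d x p y → π (d x p) + π (d p y) = π (d x y) := fun x p y b => by
    rw [← map_add]; exact congrArg π b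
  have ex : ∀ x y t, 0 ≤ t → t ≤ π (d x y) → ∃ p, Bt d x p y ∧ π (d x p) = t := by
    intro x y t h0 h1
    obtain ⟨s, rfl⟩ := surj t
    obtain ⟨p, a, b⟩ := ht.ex_bt x y (t := max 0 (min s (d x y))) (le_max_left _ _)
      (max_le (ht.nonneg x y) (min_le_right _ _))
    refine ⟨p, a, ?_⟩
    rw [b, mono.map_max, mono.map_min, map_zero, min_eq_left h1, max_eq_right h0]
  obtain ⟨Y, act, e, q, hY, qs, qe, qd, -⟩ := quot_real hi (fun x y => π (d x y)) nn
    (fun x y => by rw [ht.symm]) add (fun g x y => by rw [h.iso]) ex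
  have semi : Semi G d := h.semi hne fun g e2 => nice.tf g 2 (by norm_num) (by rw [pow_two, e2])
  have down : ∀ (g : G) p, Mn d g p → Mn e g (q p) := by
    intro g p hp
    show e (g⁻¹ • q p) (q p) + e (q p) (g • q p) = e (g⁻¹ • q p) (g • q p)
    rw [← qe, ← qe, qd, qd, qd]
    exact add _ _ _ hp
  have up : ∀ (g : G) y, Mn e g y → ∃ p, Mn d g p ∧ q p = y := by
    intro g y hy
    obtain ⟨x, rfl⟩ := qs y
    obtain ⟨p, hp⟩ := semi g
    obtain ⟨m, hm, -, -, e1⟩ := hi.mn_gate hp x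
    have e2 := (hY.mn_iff (down g p hp) (q x)).1 hy
    rw [← qe, ← qe, qd, qd] at e2
    have e3 := congrArg π e1
    rw [map_add, map_add] at e3
    refine ⟨m, hm, (hY.tr.eq_of ?_).symm⟩
    rw [qd]
    linarith
  refine ⟨Y, act, e, hY, nice, ?_, ?_, ?_⟩
  · intro g k hg hk c y hy
    obtain ⟨p, hp, rfl⟩ := up g y hy
    exact down k p (h.mn_comm semi hg hk c hp)
  · intro g k a b ga gb ka kb hl
    obtain ⟨a₁, ga₁, ea₁⟩ := up g a ga
    obtain ⟨b₁, gb₁, eb₁⟩ := up g b gb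
    obtain ⟨a₂, ka₂, ea₂⟩ := up k a ka
    obtain ⟨b₂, kb₂, eb₂⟩ := up k b kb
    have za : π (d a₂ a₁) = 0 := by rw [← qd, ea₁, ea₂, hY.tr.self]
    have zb : π (d b₂ b₁) = 0 := by rw [← qd, eb₁, eb₂, hY.tr.self]
    have hL : π (d a₁ b₁) = e a b := by rw [← qd, ea₁, eb₁]
    have key : ∀ p, Bt d a₁ p b₁ → 0 < π (d a₁ p) → 0 < π (d p b₁) → Bt d a₂ p b₂ := by
      intro p hp h1 h2
      have s1 : π (d p a₁) = π (d a₁ p) := by rw [ht.symm]
      rcases ht.bt_split hp a₂ with c | c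
      · have := add _ _ _ c
        have := nn a₂ p
        linarith
      · rcases ht.bt_split c b₂ with c' | c'
        · exact ht.bt_symm c'
        · have := add _ _ _ c'
          have := nn b₂ p
          linarith
    have n1 := hY.tr.nonneg a (g • a)
    have n2 := hY.tr.nonneg a (k • a)
    set l := e a (g • a) + e a (k • a) with hl'
    set L := e a b with hL'
    obtain ⟨p₁, bp₁, dp₁⟩ := ex a₁ b₁ ((L - 2 * l) / 4) (by linarith) (by linarith)
    obtain ⟨p₂, bp₂, dp₂⟩ := ex a₁ b₁ (L - (L - 2 * l) / 4) (by linarith) (by linarith)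
    have r₁ := add _ _ _ bp₁
    have r₂ := add _ _ _ bp₂
    have c₁ := key p₁ bp₁ (by linarith) (by linarith)
    have c₂ := key p₂ bp₂ (by linarith) (by linarith)
    have g₁ := hi.mn_conv ga₁ gb₁ bp₁
    have g₂ := hi.mn_conv ga₁ gb₁ bp₂
    have k₁ := hi.mn_conv ka₂ kb₂ c₁
    have k₂ := hi.mn_conv ka₂ kb₂ c₂
    have tr := hY.tr.tri (q a₁) (q p₁) (q p₂)
    rw [qd, qd, qd] at tr
    obtain ⟨p, bp, dp⟩ := ex p₁ p₂ (π (d p₁ p₂) / 2) (by have := nn p₁ p₂; linarith)
      (by have := nn p₁ p₂; linarith)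
    have r := add _ _ _ bp
    have lg := (hY.mn_iff ga (q p₁)).1 (down g p₁ g₁)
    have lk := (hY.mn_iff ka (q p₁)).1 (down k p₁ k₁)
    rw [← qe, qd] at lg lk
    have big : ∀ s : Λ, l < π s → d p₁ (g • p₁) + d p₁ (k • p₁) ≤ s := by
      intro s hs
      by_contra hc
      have := mono (not_le.1 hc).le
      rw [map_add, lg, lk] at this
      linarith
    have fin := hi.overlap g₁ g₂ k₁ k₂ bp (big _ (by linarith)) (big _ (by linarith))
    rw [← mul_smul, ← mul_smul] at fin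
    exact h.eq_of_smul fin
  · intro H _ j hj hy hH
    obtain ⟨y, hy⟩ := hy
    obtain ⟨x, rfl⟩ := qs y
    let A : Set X := {z | q z = q x}
    have hz : ∀ a ∈ A, ∀ b ∈ A, π (d a b) = 0 := by
      intro a ha b hb
      have ha' : q a = q x := ha
      have hb' : q b = q x := hb
      rw [← qd, ha', hb', hY.tr.self]
    have hA : ∀ a ∈ A, ∀ b ∈ A, ∀ p, Bt d a p b → p ∈ A := by
      intro a ha b hb p hp
      have ha' : q a = q x := ha
      show q p = q x
      rw [← ha']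
      refine (hY.tr.eq_of ?_).symm
      rw [qd]
      have := add _ _ _ hp
      have := hz a ha b hb
      have := nn a p
      have := nn p b
      linarith
    have hT := ht.sub A hA
    choose d' hd' using fun a b : A => (ker (d a.1 b.1)).1 (hz a.1 a.2 b.1 b.2)
    let : MulAction H A :=
      { smul := fun k z => ⟨j k • z.1, by
          have hz' : q z.1 = q x := z.2
          show q (j k • z.1) = q x
          rw [qe, hz', hy]⟩
        one_smul := by
          intro z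
          apply Subtype.ext
          show j 1 • z.1 = z.1
          rw [map_one, one_smul]
        mul_smul := by
          intro k k' z
          apply Subtype.ext
          show j (k * k') • z.1 = j k • j k' • z.1
          rw [map_mul, mul_smul] }
    refine low H A d' ⟨QCrs1_pull hT ι hι d' hd', ?_, ?_⟩ ⟨⟨x, rfl⟩⟩ (nice.of_inj j hj) hH
    · intro k a b
      apply hι.injective
      rw [hd', hd']
      exact h.iso (j k) a.1 b.1
    · intro k a ha
      have : j k • a.1 = a.1 := congrArg Subtype.val ha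
      apply hj
      rw [map_one]
      exact h.free _ _ this

theorem lex_level (n : ℕ) : ∃ (π : Lex (Fin (n + 1) → ℝ) →+ ℝ)
    (ι : Lex (Fin n → ℝ) →+ Lex (Fin (n + 1) → ℝ)), Monotone π ∧ Function.Surjective π ∧
      StrictMono ι ∧ ∀ a, π a = 0 ↔ ∃ b, ι b = a := by
  let π : Lex (Fin (n + 1) → ℝ) →+ ℝ :=
    { toFun := fun f => ofLex f 0
      map_zero' := rfl
      map_add' := fun _ _ => rfl }
  let ι : Lex (Fin n → ℝ) →+ Lex (Fin (n + 1) → ℝ) :=
    { toFun := fun f => toLex (Fin.cons (0 : ℝ) (ofLex f) : Fin (n + 1) → ℝ)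
      map_zero' := by
        apply congrArg toLex
        funext i
        refine Fin.cases rfl (fun i => rfl) i
      map_add' := by
        intro f g
        apply congrArg toLex
        funext i
        refine Fin.cases ?_ (fun i => rfl) i
        show (0 : ℝ) = 0 + 0
        simp }
  refine ⟨π, ι, ?_, ?_, ?_, ?_⟩
  · intro f g hfg
    exact Pi.apply_le_of_toLex (x := ofLex f) (y := ofLex g) (i := 0) hfg
      (fun j hj => absurd hj (Fin.not_lt_zero j))
  · intro t
    exact ⟨toLex fun _ => t, rfl⟩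
  · intro f g hfg
    exact (Fin.pi_lex_lt_cons_cons (α := fun _ => ℝ) (x₀ := 0) (y₀ := 0) (x := ofLex f)
      (y := ofLex g) (fun a b => a < b)).2 (Or.inr ⟨rfl, hfg⟩)
  · intro a
    constructor
    · intro ha
      refine ⟨toLex (Fin.tail (ofLex a)), ?_⟩
      have ha' : ofLex a 0 = 0 := ha
      show toLex (Fin.cons (0 : ℝ) (Fin.tail (ofLex a)) : Fin (n + 1) → ℝ) = a
      rw [← ha', Fin.cons_self_tail]
      rfl
    · rintro ⟨b, rfl⟩
      rfl

end Pool.Agent.Work.MP_904812_al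
end

-- merged part: Pool.Agent.Work.MP_904812_al.QColl
section
/-! Collapsing the fat classes. -/

namespace Pool.Agent.Work.MP_904812_al

set_option linter.unusedSectionVars false
set_option linter.unusedVariables false

open Subgroup MulAction

variable {G Y : Type} [Group G] [MulAction G Y] {d : Y → Y → ℝ} {F : Finset Y}
  {B : Finset (G × Y × Y)} {x₀ : Y} {g₀ : G}

/-- the segment contains an arc on which `r` is trivial -/
def QCollBlue (d : Y → Y → ℝ) (r : Y → Y → Prop) (p q : Y) : Prop :=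
  ∃ a b, a ≠ b ∧ Bt d p a q ∧ Bt d p b q ∧ ∀ x y, Bt d a x b → Bt d a y b → r x y → x = y

/-- increments of contracting functions that are constant on the classes -/
def QCollSet (d : Y → Y → ℝ) (r : Y → Y → Prop) (x y : Y) : Set ℝ :=
  {t | ∃ φ : Y → ℝ, (∀ a b, φ b - φ a ≤ d a b) ∧ (∀ a b, r a b → φ a = φ b) ∧ t = φ y - φ x}

/-- the collapsed distance -/
noncomputable def QCollD (d : Y → Y → ℝ) (r : Y → Y → Prop) (x y : Y) : ℝ :=
  sSup (QCollSet d r x y)

section dist

variable {r : Y → Y → Prop}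

theorem QColl_zero (T : Tr d) (x y : Y) : (0 : ℝ) ∈ QCollSet d r x y :=
  ⟨fun _ => 0, fun a b => by simpa using T.nonneg a b, fun _ _ _ => rfl, by simp⟩

theorem QColl_ge {φ : Y → ℝ} (h1 : ∀ a b, φ b - φ a ≤ d a b) (h2 : ∀ a b, r a b → φ a = φ b)
    (x y : Y) : φ y - φ x ≤ QCollD d r x y :=
  le_csSup ⟨d x y, fun _ ⟨ψ, a, _, e⟩ => e ▸ a x y⟩ ⟨φ, h1, h2, rfl⟩

theorem QColl_le (T : Tr d) {x y : Y} {c : ℝ} (h : ∀ φ : Y → ℝ, (∀ a b, φ b - φ a ≤ d a b) →
    (∀ a b, r a b → φ a = φ b) → φ y - φ x ≤ c) : QCollD d r x y ≤ c :=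
  csSup_le ⟨0, QColl_zero T x y⟩ fun _ ⟨φ, a, b, e⟩ => e ▸ h φ a b

theorem QColl_nn (T : Tr d) (x y : Y) : 0 ≤ QCollD d r x y := by
  simpa using QColl_ge (d := d) (r := r) (φ := fun _ => 0)
    (fun a b => by simpa using T.nonneg a b) (fun _ _ _ => rfl) x y

theorem QColl_symm (T : Tr d) (x y : Y) : QCollD d r x y = QCollD d r y x := by
  have key : ∀ x y, QCollD d r x y ≤ QCollD d r y x := fun x y => QColl_le T fun φ a b => by
    have := QColl_ge (d := d) (r := r) (φ := fun z => -φ z)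
      (fun u v => by have := a v u; have := T.symm u v; linarith)
      (fun u v e => by rw [b u v e]) y x
    linarith
  exact le_antisymm (key x y) (key y x)

theorem QColl_tri (T : Tr d) (x p y : Y) : QCollD d r x y ≤ QCollD d r x p + QCollD d r p y :=
  QColl_le T fun φ a b => by linarith [QColl_ge a b x p, QColl_ge a b p y]

theorem QColl_inv (I : IAct G d) (inv : ∀ (g : G) a b, r a b → r (g • a) (g • b)) (g : G)
    (x y : Y) : QCollD d r (g • x) (g • y) = QCollD d r x y := by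
  have key : ∀ (g : G) x y, QCollD d r (g • x) (g • y) ≤ QCollD d r x y := fun g x y =>
    QColl_le I.tr fun φ a b => QColl_ge (φ := fun z => φ (g • z))
      (fun u v => I.iso g u v ▸ a _ _) (fun u v e => b _ _ (inv g u v e)) x y
  refine le_antisymm (key g x y) ?_
  simpa using key g⁻¹ (g • x) (g • y)

theorem QColl_add (T : Tr d) (eqv : Equivalence r) (conv : ∀ a p b, r a b → Bt d a p b → r a p)
    (x p y : Y) (hp : Bt d x p y) : QCollD d r x p + QCollD d r p y = QCollD d r x y := by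
  classical
  refine le_antisymm ?_ (QColl_tri T x p y)
  rw [← le_sub_iff_add_le]
  refine QColl_le T fun φ a b => ?_
  rw [le_sub_iff_add_le, ← le_sub_iff_add_le']
  refine QColl_le T fun ψ a' b' => ?_
  have sp : ∀ z z', ¬ Bt d x p z → Bt d x p z' → Bt d z p z' := fun z z' n c =>
    (T.bt_split c z).resolve_left fun e => n (T.bt_symm e)
  have key := QColl_ge (d := d) (r := r)
    (φ := fun z => if Bt d x p z then ψ z - ψ p else φ z - φ p) (fun u v => by
      split_ifs with c1 c2 c2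
      · linarith [a' u v]
      · have e : d u p + d p v = d u v := sp u v c2 c1
        linarith [a u p, a' p v]
      · have e : d u p + d p v = d u v := T.bt_symm (sp v u c1 c2)
        linarith [a' u p, a p v]
      · linarith [a u v]) (fun u v e => by
      split_ifs with c1 c2 c2
      · rw [b' u v e]
      · have e1 := conv u p v e (T.bt_symm (sp v u c2 c1))
        rw [b' u p e1, ← b u v e, b u p e1, sub_self, sub_self]
      · have e1 := conv u p v e (sp u v c1 c2)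
        rw [b u p e1, ← b' u v e, b' u p e1, sub_self, sub_self]
      · rw [b u v e]) x y
  rw [if_pos hp] at key
  split_ifs at key with c
  · have e : x = p := T.eq_of (by
      have := T.self x
      have := T.symm p x
      simp only [Bt] at c
      linarith)
    subst e
    linarith
  · linarith

theorem QColl_ex (T : Tr d) (x y : Y) (t : ℝ) (h0 : 0 ≤ t) (h1 : t ≤ QCollD d r x y) :
    ∃ p, Bt d x p y ∧ QCollD d r x p = t := by
  have hpt : ∀ s : ℝ, ∃ p, s ∈ Set.Icc 0 (d x y) → Bt d x p y ∧ d x p = s := fun s => by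
    by_cases hs : s ∈ Set.Icc 0 (d x y)
    · obtain ⟨p, hp⟩ := T.ex_bt x y hs.1 hs.2
      exact ⟨p, fun _ => hp⟩
    · exact ⟨x, fun h => absurd h hs⟩
  choose γ hγ using hpt
  have hd : ∀ a b, QCollD d r a b ≤ d a b := fun a b => QColl_le T fun φ h _ => h a b
  have hc : ContinuousOn (fun s => QCollD d r x (γ s)) (Set.Icc 0 (d x y)) := by
    refine (LipschitzOnWith.of_dist_le' (K := 1) fun s hs s' hs' => ?_).continuousOn
    have e := T.bt_dist (hγ s hs).1 (hγ s' hs').1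
    rw [(hγ s hs).2, (hγ s' hs').2] at e
    rw [Real.dist_eq, Real.dist_eq, one_mul, ← e, abs_le]
    have := QColl_tri (r := r) T x (γ s) (γ s')
    have := QColl_tri (r := r) T x (γ s') (γ s)
    have := hd (γ s) (γ s')
    have := hd (γ s') (γ s)
    have := T.symm (γ s) (γ s')
    constructor <;> linarith
  have n := T.nonneg x y
  have e0 : γ 0 = x := (T.eq_of (hγ 0 ⟨le_rfl, n⟩).2).symm
  have e1 : γ (d x y) = y := T.bt_uniq (hγ _ ⟨n, le_rfl⟩).1 (T.bt_right x y) (hγ _ ⟨n, le_rfl⟩).2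
  obtain ⟨s, hs, e⟩ := intermediate_value_Icc n hc (show t ∈ Set.Icc _ _ from ⟨by
    have := hd x x
    rw [T.self] at this
    simp only [e0]
    linarith, by simpa only [e1] using h1⟩)
  exact ⟨γ s, (hγ s hs).1, e⟩

theorem QColl_proj (T : Tr d) {u v p q m : Y} (hp : Bt d u p v) (m1 : Bt d u m v)
    (m2 : Bt d u m q) (m3 : Bt d v m q) : Bt d p m q := by
  rcases le_total (d u p) (d u m) with c | c
  · exact (T.bt_trans (T.bt_of_le hp m1 c).1 m2).2
  · exact (T.bt_trans (T.bt_symm (T.bt_of_le m1 hp c).2) m3).2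

theorem QColl_pos (T : Tr d) (eqv : Equivalence r) (conv : ∀ a p b, r a b → Bt d a p b → r a p)
    {x y : Y} (h : QCollBlue d r x y) : QCollD d r x y ≠ 0 := by
  obtain ⟨a, b, n, ha, hb, bl⟩ := h
  intro e
  have h1 : ∀ u v, (d a v - d b v) / 2 - (d a u - d b u) / 2 ≤ d u v := fun u v => by
    linarith [T.tri a u v, T.tri b v u, T.symm u v]
  have h2 : ∀ u v, r u v → (d a u - d b u) / 2 = (d a v - d b v) / 2 := fun u v c => by
    obtain ⟨m, m1, m2, m3⟩ := T.med' a b u
    obtain ⟨m', k1, k2, k3⟩ := T.med' a b v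
    have e1 : m = m' := by
      by_contra ne
      obtain ⟨c1, c2⟩ := QAx_glue T (T.bt_symm (QColl_proj T k1 m1 m2 m3))
        (QColl_proj T m1 k1 k2 k3) ne
      exact ne (bl m m' m1 k1 (eqv.trans (eqv.symm (conv _ _ _ c c1)) (conv _ _ _ c c2)))
    subst e1
    simp only [Bt] at m2 m3 k2 k3
    linarith
  have k1 := QColl_ge h1 h2 x y
  have k2 := QColl_ge h1 h2 y x
  rw [QColl_symm T y x] at k2
  refine n (T.bt_uniq ha hb ?_)
  simp only [Bt] at ha hb
  linarith [T.symm a x, T.symm b x]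

theorem QColl_quot (I : IAct G d) (eqv : Equivalence r)
    (inv : ∀ (g : G) a b, r a b → r (g • a) (g • b)) (conv : ∀ a p b, r a b → Bt d a p b → r a p)
    (bl : ∀ x y, ¬ r x y → QCollBlue d r x y) :
    ∃ (Z : Type) (_ : MulAction G Z) (e : Z → Z → ℝ) (q : Y → Z), IAct G e ∧
      Function.Surjective q ∧ (∀ (g : G) x, q (g • x) = g • q x) ∧ (∀ x y, q x = q y ↔ r x y) ∧
      (∀ x p y, Bt d x p y → Bt e (q x) (q p) (q y)) ∧
      ∀ x y z, Bt e (q x) z (q y) → ∃ p, Bt d x p y ∧ q p = z := by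
  have T := I.tr
  obtain ⟨Z, _, e, q, J, h1, h2, h3, h4⟩ := quot_real I (QCollD d r) (QColl_nn T) (QColl_symm T)
    (QColl_add T eqv conv) (QColl_inv I inv) (QColl_ex T)
  refine ⟨Z, inferInstance, e, q, J, h1, h2, fun x y => ⟨fun c => ?_, fun c => ?_⟩,
    fun x p y c => ?_, h4⟩
  · by_contra n
    refine QColl_pos T eqv conv (bl x y n) ?_
    rw [← h3, c, J.tr.self]
  · refine J.tr.eq_of ?_
    rw [h3]
    exact le_antisymm (QColl_le T fun φ _ b => by rw [b x y c, sub_self]) (QColl_nn T x y)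
  · simp only [Bt, h3]
    exact QColl_add T eqv conv x p y c

end dist

section core

variable {r : Y → Y → Prop}

/-- the saturation of the orbit of the hull -/
def QCollS (G : Type) [Group G] [MulAction G Y] (d : Y → Y → ℝ) (r : Y → Y → Prop) (F : Finset Y) :
    Set Y := {y | ∃ g : G, ∃ x ∈ Hull d F, r y (g • x)}

/-- the segment lies in `S` and its subsegments that are not fat contain a blue arc -/
def QCollP (d : Y → Y → ℝ) (r : Y → Y → Prop) (S : Set Y) (x y : Y) : Prop :=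
  ∀ p q, Bt d x p y → Bt d x q y → p ∈ S ∧ (¬ r p q → QCollBlue d r p q)

theorem QCollS_smul (h : Fat G d r) (g : G) {y : Y} (hy : y ∈ QCollS G d r F) :
    g • y ∈ QCollS G d r F := by
  obtain ⟨k, x, hx, e⟩ := hy
  exact ⟨g * k, x, hx, by rw [mul_smul]; exact h.inv g _ _ e⟩

theorem QCollS_hull (h : Fat G d r) {y : Y} (hy : y ∈ Hull d F) : y ∈ QCollS G d r F :=
  ⟨1, y, hy, by rw [one_smul]; exact h.eqv.refl y⟩

theorem QCollP_symm (T : Tr d) {S : Set Y} {x y : Y} (a : QCollP d r S x y) : QCollP d r S y x :=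
  fun p q hp hq => a p q (T.bt_symm hp) (T.bt_symm hq)

theorem QCollP_trans (h : Fat G d r) {S : Set Y} {x x' y : Y} (a : QCollP d r S x x')
    (b : QCollP d r S x' y) : QCollP d r S x y := by
  have T := h.act.tr
  have sp : ∀ p, Bt d x p y → Bt d x p x' ∨ Bt d x' p y := fun p hp =>
    (T.bt_split hp x').imp_left T.bt_symm
  have left : ∀ {p m q}, Bt d p m q → QCollBlue d r p m → QCollBlue d r p q :=
    fun c ⟨u, v, n, c1, c2, c3⟩ => ⟨u, v, n, (T.bt_trans c1 c).1, (T.bt_trans c2 c).1, c3⟩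
  have right : ∀ {p m q}, Bt d p m q → QCollBlue d r m q → QCollBlue d r p q :=
    fun c ⟨u, v, n, c1, c2, c3⟩ => ⟨u, v, n, (T.bt_trans' c c1).2, (T.bt_trans' c c2).2, c3⟩
  have mix : ∀ {s t : Y}, QCollP d r S s x' → QCollP d r S t x' → ∀ p q, Bt d s p x' →
      Bt d t q x' → ¬ r p q → QCollBlue d r p q := by
    intro s t a b p q hp hq n
    obtain ⟨m, m1, m2, m3⟩ := T.med' p q x'
    by_cases c : r p m
    · exact right m1 ((b m q (T.bt_trans' hq m3).2 hq).2 fun e => n (h.eqv.trans c e))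
    · exact left m1 ((a p m hp (T.bt_trans' hp m2).2).2 c)
  have b' := QCollP_symm T b
  intro p q hp hq
  refine ⟨(sp p hp).elim (fun c => (a p p c c).1) fun c => (b p p c c).1, ?_⟩
  rcases sp p hp with c | c <;> rcases sp q hq with c' | c'
  · exact (a p q c c').2
  · exact mix a b' p q c (T.bt_symm c')
  · exact mix b' a p q (T.bt_symm c) c'
  · exact (b p q c c').2

theorem QCollP_smul (h : Fat G d r) (g : G) {x y : Y} (a : QCollP d r (QCollS G d r F) x y) :
    QCollP d r (QCollS G d r F) (g • x) (g • y) := by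
  intro p q hp hq
  obtain ⟨p, rfl⟩ := MulAction.surjective g p
  obtain ⟨q, rfl⟩ := MulAction.surjective g q
  obtain ⟨a1, a2⟩ := a p q ((h.act.bt_iff g).1 hp) ((h.act.bt_iff g).1 hq)
  refine ⟨QCollS_smul h g a1, fun n => ?_⟩
  obtain ⟨u, v, ne, c1, c2, c3⟩ := a2 fun e => n (h.inv g _ _ e)
  refine ⟨g • u, g • v, fun e => ne (MulAction.injective g e), h.act.bt g c1, h.act.bt g c2,
    fun s t hs ht e => ?_⟩
  obtain ⟨s, rfl⟩ := MulAction.surjective g s
  obtain ⟨t, rfl⟩ := MulAction.surjective g t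
  rw [c3 s t ((h.act.bt_iff g).1 hs) ((h.act.bt_iff g).1 ht) (by simpa using h.inv g⁻¹ _ _ e)]

theorem QCollP_all (h : Geo G d r F B x₀ g₀) (bl : BL d r F) {x y : Y} (hx : x ∈ QCollS G d r F)
    (hy : y ∈ QCollS G d r F) : QCollP d r (QCollS G d r F) x y := by
  have f := h.fat
  have T := f.act.tr
  have h0 := T.mem_hull h.x0
  have hull : ∀ x ∈ Hull d F, ∀ y ∈ Hull d F, QCollP d r (QCollS G d r F) x y :=
    fun x hx y hy p q hp hq => ⟨QCollS_hull f (T.hull_conv hx hy hp),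
      bl p q (T.hull_conv hx hy hp) (T.hull_conv hx hy hq)⟩
  have rel : ∀ (g : G), ∀ x ∈ Hull d F, ∀ y, r y (g • x) →
      QCollP d r (QCollS G d r F) (g • x) y := fun g x hx y e p q hp hq => by
    have e1 := f.conv _ _ _ (f.eqv.symm e) hp
    have e2 := f.conv _ _ _ (f.eqv.symm e) hq
    exact ⟨⟨g, x, hx, f.eqv.symm e1⟩, fun n => absurd (f.eqv.trans (f.eqv.symm e1) e2) n⟩
  have orb : ∀ g : G, QCollP d r (QCollS G d r F) x₀ (g • x₀) := fun g => by
    have hg : g ∈ closure {k : G | ∃ p ∈ F, ∃ p' ∈ F, r (k • p) p'} := h.gen ▸ mem_top g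
    induction hg using closure_induction with
    | mem k hk =>
      obtain ⟨p, hp, p', hp', e⟩ := hk
      exact QCollP_trans f (hull _ h0 _ (T.mem_hull hp')) (QCollP_trans f
        (QCollP_symm T (rel k p (T.mem_hull hp) p' (f.eqv.symm e)))
        (QCollP_smul f k (hull _ (T.mem_hull hp) _ h0)))
    | one => rw [one_smul]; exact hull _ h0 _ h0
    | mul a b _ _ ia ib => rw [mul_smul]; exact QCollP_trans f ia (QCollP_smul f a ib)
    | inv a _ ia => simpa using QCollP_symm T (QCollP_smul f a⁻¹ ia)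
  have all : ∀ y ∈ QCollS G d r F, QCollP d r (QCollS G d r F) x₀ y := by
    rintro y ⟨g, x, hx, e⟩
    exact QCollP_trans f (orb g) (QCollP_trans f (QCollP_smul f g (hull _ h0 _ hx))
      (rel g x hx y e))
  exact QCollP_trans f (QCollP_symm T (all x hx)) (all y hy)

theorem QColl_map (h : Geo G d r F B x₀ g₀) (bl : BL d r F) :
    ∃ (S : Set Y) (Z : Type) (_ : MulAction G Z) (e : Z → Z → ℝ) (q : Y → Z), IAct G e ∧
      Hull d F ⊆ S ∧ (∀ (g : G), ∀ x ∈ S, g • x ∈ S) ∧
      (∀ x ∈ S, ∀ y ∈ S, ∀ p, Bt d x p y → p ∈ S) ∧ (∀ z, ∃ y ∈ S, q y = z) ∧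
      (∀ (g : G), ∀ x ∈ S, q (g • x) = g • q x) ∧ (∀ x ∈ S, ∀ y ∈ S, q x = q y ↔ r x y) ∧
      (∀ x y, r x y → q x = q y) ∧
      (∀ x ∈ S, ∀ y ∈ S, ∀ p, Bt d x p y → Bt e (q x) (q p) (q y)) ∧
      ∀ x ∈ S, ∀ y ∈ S, ∀ z, Bt e (q x) z (q y) → ∃ p, Bt d x p y ∧ q p = z := by
  classical
  have f := h.fat
  have T := f.act.tr
  have cv : ∀ x ∈ QCollS G d r F, ∀ y ∈ QCollS G d r F, ∀ p, Bt d x p y → p ∈ QCollS G d r F :=
    fun x hx y hy p hp => (QCollP_all h bl hx hy p p hp hp).1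
  have h0 := QCollS_hull f (T.mem_hull h.x0)
  let act : MulAction G (QCollS G d r F) :=
    { smul := fun g y => ⟨g • y.1, QCollS_smul f g y.2⟩
      one_smul := fun y => Subtype.ext (one_smul G y.1)
      mul_smul := fun g g' y => Subtype.ext (mul_smul g g' y.1) }
  obtain ⟨Z, _, e, q, J, h1, h2, h3, h4, h5⟩ := QColl_quot (G := G) (Y := QCollS G d r F)
    (d := fun x y => d x.1 y.1) (r := fun x y => r x.1 y.1)
    ⟨T.sub _ cv, ⟨⟨x₀, h0⟩⟩, fun g x y => f.act.iso g x.1 y.1⟩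
    ⟨fun x => f.eqv.refl _, fun a => f.eqv.symm a, fun a b => f.eqv.trans a b⟩
    (fun g a b => f.inv g a.1 b.1) (fun a p b => f.conv a.1 p.1 b.1) (fun x y n => by
      obtain ⟨a, b, ne, c1, c2, c3⟩ :=
        (QCollP_all h bl x.2 y.2 x.1 y.1 (T.bt_left _ _) (T.bt_right _ _)).2 n
      exact ⟨⟨a, cv _ x.2 _ y.2 a c1⟩, ⟨b, cv _ x.2 _ y.2 b c2⟩,
        fun e => ne (congrArg Subtype.val e), c1, c2,
        fun u v hu hv e => Subtype.ext (c3 u.1 v.1 hu hv e)⟩)
  have hq : ∀ x (hx : x ∈ QCollS G d r F),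
      (if hy : x ∈ QCollS G d r F then q ⟨x, hy⟩ else q ⟨x₀, h0⟩) = q ⟨x, hx⟩ :=
    fun x hx => dif_pos hx
  refine ⟨QCollS G d r F, Z, inferInstance, e,
    fun x => if hy : x ∈ QCollS G d r F then q ⟨x, hy⟩ else q ⟨x₀, h0⟩, J,
    fun x hx => QCollS_hull f hx, fun g x hx => QCollS_smul f g hx, cv, fun z => ?_,
    fun g x hx => ?_, fun x hx y hy => ?_, fun x y c => ?_, fun x hx y hy p hp => ?_,
    fun x hx y hy z hz => ?_⟩
  · obtain ⟨y, rfl⟩ := h1 z
    exact ⟨y.1, y.2, hq _ y.2⟩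
  · simp only [hq x hx, hq _ (QCollS_smul f g hx)]
    exact h2 g ⟨x, hx⟩
  · simp only [hq x hx, hq y hy]
    exact h3 _ _
  · by_cases hx : x ∈ QCollS G d r F
    · have hy : y ∈ QCollS G d r F := by
        obtain ⟨g, u, hu, c'⟩ := hx
        exact ⟨g, u, hu, f.eqv.trans (f.eqv.symm c) c'⟩
      simp only [hq x hx, hq y hy]
      exact (h3 _ _).2 c
    · have hy : y ∉ QCollS G d r F := fun ⟨g, u, hu, c'⟩ => hx ⟨g, u, hu, f.eqv.trans c c'⟩
      simp only [dif_neg hx, dif_neg hy]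
  · simp only [hq x hx, hq y hy, hq p (cv x hx y hy p hp)]
    exact h4 _ _ _ hp
  · simp only [hq x hx, hq y hy] at hz
    obtain ⟨p, hp, rfl⟩ := h5 _ _ z hz
    exact ⟨p.1, hp, hq _ p.2⟩

end core

theorem collapse {r : Y → Y → Prop} (h : Geo G d r F B x₀ g₀) (bl : BL d r F) :
    ∃ (Z : Type) (_ : MulAction G Z) (e : Z → Z → ℝ) (F' : Finset Z) (B' : Finset (G × Z × Z))
      (z₀ : Z), Geo G e Eq F' B' z₀ g₀ ∧
      (∀ z : Z, ∃ y : Y, ∀ g : G, g • z = z → r (g • y) y) ∧
      ∀ p ∈ F, ∃ z ∈ F', ∀ g : G, r (g • p) p → g • z = z := by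
  classical
  obtain ⟨S, Z, _, e, q, J, hS, sm, cv, sj, eqv, iff, rq, bt, lift⟩ := QColl_map h bl
  have f := h.fat
  have T := f.act.tr
  have T' := J.tr
  have hF : ∀ p ∈ F, p ∈ S := fun p hp => hS (T.mem_hull hp)
  have h0 := hF _ h.x0
  have sm' : ∀ (g : G) x, g • x ∈ S → x ∈ S := fun g x hx => by simpa using sm g⁻¹ _ hx
  have hull : ∀ p ∈ Hull d F, q p ∈ Hull e (F.image q) := fun p ⟨u, hu, v, hv, c⟩ =>
    ⟨q u, Finset.mem_image_of_mem q hu, q v, Finset.mem_image_of_mem q hv,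
      bt u (hF u hu) v (hF v hv) p c⟩
  have back : ∀ (g : G), ∀ p ∈ S, ∀ z, q p = g • z → q (g⁻¹ • p) = z := fun g p hp z c => by
    rw [eqv _ p hp, c, inv_smul_smul]
  refine ⟨Z, inferInstance, e, F.image q, B.image fun β => (β.1, q β.2.1, q β.2.2), q x₀,
    ⟨⟨J, f.tf, eq_equivalence, fun g a b c => c ▸ rfl, fun a p b c c' => ?_, fun F₁ a b n => ?_⟩,
      fun β hβ => ?_, fun Γ _ φ _ hc => ?_, ?_, Finset.mem_image_of_mem q h.x0, h.g0, ?_, ?_, ?_,
      fun z hz => ?_⟩, fun z => ?_, fun p hp => ?_⟩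
  · subst c
    refine T'.eq_of ?_
    have := T'.self a
    have := T'.symm a p
    simp only [Bt] at c'
    linarith
  · choose s hs hs' using sj
    have n0 := T'.pos n
    obtain ⟨z₁, a1, a2⟩ := T'.ex_bt a b (t := e a b / 3) (by linarith) (by linarith)
    obtain ⟨z₂, b1, b2⟩ := T'.ex_bt a b (t := 2 * e a b / 3) (by linarith) (by linarith)
    have key : ∀ z, Bt e a z b → 0 < e a z → e a z < e a b → ∃ p ∈ S, q p = z ∧ ∀ g : G,
        g • a ∈ Hull e F₁ → g • b ∈ Hull e F₁ → g • p ∈ Hull d (F₁.image s) := by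
      intro z c c1 c2
      obtain ⟨p, hp, rfl⟩ := lift _ (hs a) _ (hs b) z (by rwa [hs', hs'])
      have pS := cv _ (hs a) _ (hs b) p hp
      refine ⟨p, pS, rfl, fun g ha hb => ?_⟩
      have up : ∀ w, g • w ∈ Hull e F₁ → w ≠ q p →
          ∃ x ∈ Hull d (F₁.image s), ¬ Bt d x (g • p) (g • s w) := by
        rintro w ⟨u, hu, v, hv, c'⟩ ne
        obtain ⟨x, hx, ex⟩ := lift _ (hs u) _ (hs v) (g • w) (by rwa [hs', hs'])
        have xS := cv _ (hs u) _ (hs v) x hx
        refine ⟨x, ⟨s u, Finset.mem_image_of_mem s hu, s v, Finset.mem_image_of_mem s hv, hx⟩,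
          fun k => ne (MulAction.injective g ?_)⟩
        have r1 := (iff x xS _ (sm g _ (hs w))).1 (by rw [ex, eqv g _ (hs w), hs'])
        have := rq _ _ (f.conv _ _ _ r1 k)
        rw [ex, eqv g p pS] at this
        exact this
      obtain ⟨x, hx, nx⟩ := up a ha (by rintro rfl; rw [T'.self] at c1; exact lt_irrefl _ c1)
      obtain ⟨y, hy, ny⟩ := up b hb (by rintro rfl; exact lt_irrefl _ c2)
      have k1 := (T.bt_split (f.act.bt g hp) x).resolve_left nx
      exact T.hull_conv hy hx ((T.bt_split k1 y).resolve_right ny)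
    obtain ⟨p₁, s1, rfl, k1⟩ := key z₁ a1 (by linarith) (by linarith)
    obtain ⟨p₂, s2, rfl, k2⟩ := key z₂ b1 (by linarith) (by linarith)
    refine (f.na (F₁.image s) p₁ p₂ fun c => ?_).subset fun g hg => ⟨k1 g hg.1 hg.2, k2 g hg.1 hg.2⟩
    rw [rq _ _ c] at a2
    linarith
  · obtain ⟨β, hβ', rfl⟩ := Finset.mem_image.1 hβ
    obtain ⟨a1, a2, a3, a4⟩ := h.ink β hβ'
    exact ⟨hull _ a1, hull _ a2, eqv _ _ (hS a1) ▸ hull _ a3, eqv _ _ (hS a2) ▸ hull _ a4⟩
  · obtain ⟨Φ, h1, h2⟩ := h.hg Γ (fun g y => φ g (q y))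
      (fun g p p' _ _ c => by simp only [rq p p' c]) (fun β hβ g p p' c c' => by
        obtain ⟨a1, a2, -, -⟩ := h.ink β hβ
        refine hc _ (Finset.mem_image_of_mem _ hβ) g (q p) (q p') ?_ ?_
        · rw [← eqv g p (sm' g p (cv _ (hS a1) _ (hS a2) _ c))]
          exact bt _ (hS a1) _ (hS a2) _ c
        · rw [← eqv g p' (sm' g p' (cv _ (hS a1) _ (hS a2) _ c'))]
          exact bt _ (hS a1) _ (hS a2) _ c')
    refine ⟨Φ, fun β hβ g z c => ?_, fun g g' z z' hz hz' c => ?_⟩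
    · obtain ⟨β, hβ', rfl⟩ := Finset.mem_image.1 hβ
      obtain ⟨a1, a2, -, -⟩ := h.ink β hβ'
      obtain ⟨p, hp, ep⟩ := lift _ (hS a1) _ (hS a2) _ c
      have := h1 β hβ' g (g⁻¹ • p) (by rwa [smul_inv_smul])
      dsimp only at this
      rwa [back g p (cv _ (hS a1) _ (hS a2) p hp) z ep] at this
    · obtain ⟨p, hp, ep⟩ := Finset.mem_image.1 hz
      obtain ⟨p', hp', ep'⟩ := Finset.mem_image.1 hz'
      have e1 := back g p (hF p hp) z ep
      have e2 := back g' p' (hF p' hp') z' ep'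
      have := h2 g g' (g⁻¹ • p) (g'⁻¹ • p') (by rwa [smul_inv_smul]) (by rwa [smul_inv_smul])
        ((iff _ (sm _ _ (hF p hp)) _ (sm _ _ (hF p' hp'))).1 (by rw [e1, e2, c]))
      dsimp only at this
      rwa [e1, e2] at this
  · refine top_le_iff.1 (h.gen ▸ closure_mono ?_)
    rintro k ⟨p, hp, p', hp', c⟩
    exact ⟨q p, Finset.mem_image_of_mem q hp, q p', Finset.mem_image_of_mem q hp',
      eqv k p (hF p hp) ▸ rq _ _ c⟩
  · exact eqv _ _ h0 ▸ Finset.mem_image_of_mem q h.xp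
  · exact eqv _ _ h0 ▸ Finset.mem_image_of_mem q h.xm
  · rw [Mn, ← eqv _ _ h0, ← eqv _ _ h0]
    exact bt _ (sm _ _ h0) _ (sm _ _ h0) _ h.mn
  · obtain ⟨p, hp, rfl⟩ := Finset.mem_image.1 hz
    rcases h.ess p hp with ⟨g, hg, c⟩ | ⟨g, c⟩
    · exact Or.inl ⟨g, hg, eqv g p (hF p hp) ▸ rq _ _ c⟩
    · exact Or.inr ⟨g, eqv g _ h0 ▸ rq _ _ c⟩
  · obtain ⟨y, hy, rfl⟩ := sj z
    exact ⟨y, fun g c => (iff _ (sm g y hy) y hy).1 (by rwa [eqv g y hy])⟩
  · exact ⟨q p, Finset.mem_image_of_mem q hp, fun g c => eqv g p (hF p hp) ▸ rq _ _ c⟩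

end Pool.Agent.Work.MP_904812_al
end

-- merged part: Pool.Agent.Work.MP_904812_al.QCyl
section
/-! The tree of cylinders of a splitting. -/

namespace Pool.Agent.Work.MP_904812_al

set_option linter.unusedSectionVars false
set_option linter.unusedVariables false

open Subgroup MulAction

variable {G V : Type} [Group G] [MulAction G V] {d : V → V → ℤ}

/-- the incidence tree of an invariant family of convex sets -/
theorem QCyl_abs {C : Type} [MulAction G C] (zt : ZTree G d) (Y : C → Set V)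
    (ne : ∀ c, (Y c).Nonempty)
    (conv : ∀ c, ∀ a ∈ Y c, ∀ b ∈ Y c, ∀ p, Bt d a p b → p ∈ Y c)
    (one : ∀ c c', c ≠ c' → ∀ a b, a ∈ Y c → a ∈ Y c' → b ∈ Y c → b ∈ Y c' → a = b)
    (conn : ∀ x y, Relation.ReflTransGen (fun a b => ∃ c, a ∈ Y c ∧ b ∈ Y c) x y)
    (equi : ∀ (g : G) x c, g • x ∈ Y (g • c) ↔ x ∈ Y c)
    (finc : ∃ E : Finset (V × C), ∀ x c, x ∈ Y c → ∃ g : G, (g • x, g • c) ∈ E)
    (acyl : ∀ (g : G) (c c' : C), g • c = c → g • c' = c' → g = 1 ∨ c = c')
    (comm : ∀ (c : C) (a b : G), a • c = c → b • c = c → Commute a b)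
    (edge : ∀ c v, v ∈ Y c → (∃ e : G, ∀ a : G, a • c = c → a • v = v → a ∈ zpowers e) ∨
      ∀ (a : G) (n : ℕ), 0 < n → a • c = c → a ^ n • v = v → a • v = v)
    (free : ∃ c : C, ∀ a : G, a • c = c → a = 1) :
    ∃ e : V ⊕ C → V ⊕ C → ℤ, Bip G e fun w => ∃ c, w = Sum.inr c := by
  classical
  obtain ⟨D, tr, adj, iso⟩ := bip_tree zt.act.tr Y ne conv one conn
  have sm : ∀ (g : G) (w : V ⊕ C), g • w = Sum.map (g • ·) (g • ·) w := fun g w => rfl
  refine ⟨D, ⟨⟨tr, ⟨Sum.inr free.choose⟩, fun g a b => ?_⟩, fun g x y h e => ?_⟩, ?_, ?_, ?_, ?_,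
    ?_, ?_, ?_⟩
  · rw [sm, sm]
    exact iso _ _ (MulAction.bijective g) (MulAction.bijective g) (equi g) a b
  · obtain ⟨v, c, -, ⟨rfl, rfl⟩ | ⟨rfl, rfl⟩⟩ := (adj x y).1 h
    · simp at e
    · simp at e
  · obtain ⟨E, hE⟩ := finc
    refine ⟨E.image (fun q => (Sum.inl q.1, Sum.inr q.2)) ∪
      E.image (fun q => (Sum.inr q.2, Sum.inl q.1)), fun x y h => ?_⟩
    obtain ⟨v, c, hv, ⟨rfl, rfl⟩ | ⟨rfl, rfl⟩⟩ := (adj x y).1 h
    · obtain ⟨g, hg⟩ := hE v c hv
      exact ⟨g, Finset.mem_union_left _ (Finset.mem_image.2 ⟨_, hg, rfl⟩)⟩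
    · obtain ⟨g, hg⟩ := hE v c hv
      exact ⟨g, Finset.mem_union_right _ (Finset.mem_image.2 ⟨_, hg, rfl⟩)⟩
  · rintro g (v | c)
    · simp
    · simp
  · intro x y h
    obtain ⟨v, c, hv, ⟨rfl, rfl⟩ | ⟨rfl, rfl⟩⟩ := (adj x y).1 h
    · simp
    · simp
  · rintro g _ _ ⟨c, rfl⟩ ⟨c', rfl⟩ e e'
    rw [Sum.smul_inr, Sum.inr.injEq] at e e'
    exact (acyl g c c' e e').imp_right fun h => by rw [h]
  · rintro _ ⟨c, rfl⟩ a b e e'
    rw [Sum.smul_inr, Sum.inr.injEq] at e e'
    exact comm c a b e e'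
  · rintro _ w ⟨c, rfl⟩ h
    obtain ⟨v, c', hv, ⟨h1, -⟩ | ⟨h1, rfl⟩⟩ := (adj _ w).1 h
    · simp at h1
    · obtain rfl : c = c' := Sum.inr.inj h1
      simpa only [Sum.smul_inr, Sum.smul_inl, Sum.inr.injEq, Sum.inl.injEq] using edge c v hv
  · obtain ⟨c, hc⟩ := free
    refine ⟨Sum.inr c, ⟨c, rfl⟩, fun a e => hc a ?_⟩
    rwa [Sum.smul_inr, Sum.inr.injEq] at e

/-- fixed point sets are convex -/
theorem QCyl_fixc (zt : ZTree G d) {a : G} {x p y : V} (hx : a • x = x) (hy : a • y = y)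
    (b : Bt d x p y) : a • p = p :=
  zt.act.QAx_of_fix (zt.act.mn_conv (zt.act.mn_fix hx) (zt.act.mn_fix hy) b) hx

/-- commuting elliptic elements have a common fixed point -/
theorem QCyl_common (zt : ZTree G d) {m m' : G} {u u' : V} (h : m • u = u) (h' : m' • u' = u')
    (c : Commute m' m) : ∃ w : V, m • w = w ∧ m' • w = w := by
  obtain ⟨w, h1, h2, -, -⟩ := zt.act.mn_gate (zt.act.mn_fix h) u'
  refine ⟨w, zt.act.QAx_of_fix h1 h, ?_⟩
  have h3 := h2 _ (zt.act.mn_smul h1 c)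
  have h4 : d u' (m' • w) = d u' w := by
    conv_lhs => rw [← h', zt.act.iso]
  refine (zt.act.tr.eq_of ?_).symm
  simp only [Bt] at h3
  omega

theorem QCyl_first (zt : ZTree G d) {x y : V} (ne : x ≠ y) : ∃ z, Bt d x z y ∧ d x z = 1 := by
  have := zt.act.tr.pos ne
  exact zt.act.tr.ex_bt x y (t := 1) (by omega) (by omega)

theorem QCyl_ne (zt : ZTree G d) {x y : V} (h : d x y = 1) : x ≠ y := by
  rintro rfl
  have := zt.act.tr.self x
  omega

/-- the points fixed by a nontrivial element of the centraliser of `g` -/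
def QCylY (V : Type) [MulAction G V] (g : G) : Set V :=
  {v | ∃ m : G, m ≠ 1 ∧ Commute m g ∧ m • v = v}

theorem QCylY_conv (nice : Nice G) (zt : ZTree G d) {g : G} (hg : g ≠ 1) {a b p : V}
    (ha : a ∈ QCylY V g) (hb : b ∈ QCylY V g) (h : Bt d a p b) : p ∈ QCylY V g := by
  obtain ⟨m, m1, mg, ma⟩ := ha
  obtain ⟨m', m1', mg', mb⟩ := hb
  obtain ⟨w, w1, w2⟩ := QCyl_common zt ma mb (nice.ct _ _ _ hg mg' mg.symm)
  rcases zt.act.tr.bt_split h w with e | e
  · exact ⟨m, m1, mg, QCyl_fixc zt w1 ma e⟩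
  · exact ⟨m', m1', mg', QCyl_fixc zt w2 mb e⟩

theorem QCylY_edge (nice : Nice G) (zt : ZTree G d) {g : G} (hg : g ≠ 1) {a b : V}
    (ha : a ∈ QCylY V g) (hb : b ∈ QCylY V g) (h : d a b = 1) :
    ∃ m : G, m ≠ 1 ∧ Commute m g ∧ m • a = a ∧ m • b = b := by
  obtain ⟨m, m1, mg, ma⟩ := ha
  obtain ⟨m', m1', mg', mb⟩ := hb
  obtain ⟨w, w1, w2⟩ := QCyl_common zt ma mb (nice.ct _ _ _ hg mg' mg.symm)
  have s := zt.act.tr.symm a b
  rcases zt.act.tr.adj_cases h w with e | e
  · exact ⟨m', m1', mg', QCyl_fixc zt w2 mb (show Bt d w a b by simp only [Bt]; omega), mb⟩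
  · exact ⟨m, m1, mg, ma, QCyl_fixc zt w1 ma (show Bt d w b a by simp only [Bt]; omega)⟩

/-- the ambient set of the cylinders -/
structure QCylP (G V : Type) where
  /-- the centraliser -/
  M : Set G
  /-- the set of vertices -/
  Y : Set V
  /-- the label of a leaf -/
  L : Set G

theorem QCylP.ext3 {p q : QCylP G V} (h1 : ∀ x, x ∈ p.M ↔ x ∈ q.M) (h2 : ∀ x, x ∈ p.Y ↔ x ∈ q.Y)
    (h3 : ∀ x, x ∈ p.L ↔ x ∈ q.L) : p = q := by
  obtain ⟨a, b, c⟩ := p
  obtain ⟨a', b', c'⟩ := q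
  obtain rfl : a = a' := Set.ext h1
  obtain rfl : b = b' := Set.ext h2
  obtain rfl : c = c' := Set.ext h3
  rfl

instance QCylP.act : MulAction G (QCylP G V) where
  smul g p := ⟨{a | g⁻¹ * a * g ∈ p.M}, {v | g⁻¹ • v ∈ p.Y}, {a | g⁻¹ * a ∈ p.L}⟩
  one_smul p := by
    refine QCylP.ext3 (fun x => ?_) (fun x => ?_) (fun x => ?_)
    · show 1⁻¹ * x * 1 ∈ p.M ↔ _
      simp
    · show (1 : G)⁻¹ • x ∈ p.Y ↔ _
      simp
    · show 1⁻¹ * x ∈ p.L ↔ _
      simp
  mul_smul g h p := by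
    refine QCylP.ext3 (fun x => ?_) (fun x => ?_) (fun x => ?_)
    · show (g * h)⁻¹ * x * (g * h) ∈ p.M ↔ h⁻¹ * (g⁻¹ * x * g) * h ∈ p.M
      simp [mul_assoc]
    · show (g * h)⁻¹ • x ∈ p.Y ↔ h⁻¹ • g⁻¹ • x ∈ p.Y
      simp [mul_smul]
    · show (g * h)⁻¹ * x ∈ p.L ↔ h⁻¹ * (g⁻¹ * x) ∈ p.L
      simp [mul_assoc]

theorem QCylP.smul_M (g : G) (p : QCylP G V) (a : G) : a ∈ (g • p).M ↔ g⁻¹ * a * g ∈ p.M :=
  Iff.rfl

theorem QCylP.smul_Y (g : G) (p : QCylP G V) (v : V) : v ∈ (g • p).Y ↔ g⁻¹ • v ∈ p.Y := Iff.rfl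

theorem QCylP.smul_L (g : G) (p : QCylP G V) (a : G) : a ∈ (g • p).L ↔ g⁻¹ * a ∈ p.L := Iff.rfl

/-- the cylinder of a centraliser -/
def QCylA (V : Type) [MulAction G V] (g : G) : QCylP G V := ⟨{a | Commute a g}, QCylY V g, ∅⟩

/-- the cylinder of an edge -/
def QCylB (G : Type) (x y : V) : QCylP G V := ⟨∅, {x, y}, ∅⟩

/-- a leaf -/
def QCylC (v₀ : V) (g : G) : QCylP G V := ⟨∅, {g • v₀}, {g}⟩

theorem QCyl_conj (h a g : G) : Commute (h⁻¹ * a * h) g ↔ Commute a (h * g * h⁻¹) := by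
  constructor
  · intro c
    have := c.map (MulAut.conj h)
    simpa [MulAut.conj_apply, mul_assoc] using this
  · intro c
    have := c.map (MulAut.conj h⁻¹)
    simpa [MulAut.conj_apply, mul_assoc] using this

theorem QCyl_conj_ne (h : G) {a : G} (ha : a ≠ 1) : h * a * h⁻¹ ≠ 1 := by
  intro e
  apply ha
  have : a = h⁻¹ * (h * a * h⁻¹) * h := by group
  rw [this, e]; simp

theorem QCylY_smul (h g : G) (v : V) : v ∈ QCylY V (h * g * h⁻¹) ↔ h⁻¹ • v ∈ QCylY V g := by
  constructor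
  · rintro ⟨m, m1, mg, mv⟩
    refine ⟨h⁻¹ * m * h, by simpa using QCyl_conj_ne h⁻¹ m1, (QCyl_conj h m g).2 mg, ?_⟩
    rw [mul_smul, mul_smul, smul_inv_smul, mv]
  · rintro ⟨m, m1, mg, mv⟩
    refine ⟨h * m * h⁻¹, QCyl_conj_ne h m1, (QCyl_conj h _ g).1 ?_, ?_⟩
    · have : h⁻¹ * (h * m * h⁻¹) * h = m := by group
      rwa [this]
    · rw [mul_smul, mul_smul, mv, smul_inv_smul]

theorem QCylA_smul (h g : G) : h • QCylA V g = QCylA V (h * g * h⁻¹) := by
  refine QCylP.ext3 (fun x => ?_) (fun x => ?_) (fun x => ?_)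
  · exact QCyl_conj h x g
  · exact (QCylY_smul h g x).symm
  · exact Iff.rfl

theorem QCylB_smul (h : G) (x y : V) : h • QCylB G x y = QCylB G (h • x) (h • y) := by
  refine QCylP.ext3 (fun v => ?_) (fun v => ?_) (fun v => ?_)
  · exact Iff.rfl
  · rw [QCylP.smul_Y]
    simp [QCylB, inv_smul_eq_iff]
  · exact Iff.rfl

theorem QCylC_smul (v₀ : V) (h g : G) : h • QCylC v₀ g = QCylC v₀ (h * g) := by
  refine QCylP.ext3 (fun v => ?_) (fun v => ?_) (fun v => ?_)
  · exact Iff.rfl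
  · rw [QCylP.smul_Y]
    simp [QCylC, inv_smul_eq_iff, mul_smul]
  · rw [QCylP.smul_L]
    simp [QCylC, inv_mul_eq_iff_eq_mul]

theorem QCylA_eq (nice : Nice G) {m g : G} (hm : m ≠ 1) (hg : g ≠ 1) (c : Commute m g) :
    QCylA V m = QCylA V g := by
  have k : ∀ a, Commute a m ↔ Commute a g := fun a =>
    ⟨fun h => nice.ct _ _ _ hm h c, fun h => nice.ct _ _ _ hg h c.symm⟩
  refine QCylP.ext3 (fun x => ?_) (fun x => ?_) (fun x => ?_)
  · exact k x
  · simp only [QCylA, QCylY, k]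
  · exact Iff.rfl

theorem QCylA_stab (nice : Nice G) {g : G} (hg : g ≠ 1) (h : G) :
    h • QCylA V g = QCylA V g ↔ Commute h g := by
  rw [QCylA_smul]
  constructor
  · intro e
    refine nice.mal h g hg ?_
    have : h * g * h⁻¹ ∈ (QCylA V (h * g * h⁻¹)).M := Commute.refl _
    rw [e] at this
    exact this
  · intro c
    rw [c.eq, mul_inv_cancel_right]

theorem QCylB_stab (zt : ZTree G d) {x y : V} (e : d x y = 1)
    (tv : ∀ a : G, a • x = x → a • y = y → a = 1) {h : G} (hh : h • QCylB G x y = QCylB G x y) :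
    h = 1 := by
  rw [QCylB_smul] at hh
  have e1 : ({h • x, h • y} : Set V) = {x, y} := congrArg QCylP.Y hh
  rcases Set.pair_eq_pair_iff.1 e1 with ⟨a, b⟩ | ⟨a, b⟩
  · exact tv h a b
  · exact absurd b (zt.noinv h x y e a)

theorem QCylC_stab (v₀ : V) {g h : G} (hh : h • QCylC v₀ g = QCylC v₀ g) : h = 1 := by
  rw [QCylC_smul] at hh
  have e1 : ({h * g} : Set G) = {g} := congrArg QCylP.L hh
  simpa using e1

/-- the admissible centralisers -/
def QCylAd (V : Type) [MulAction G V] (T : Finset G) (g : G) : Prop :=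
  g ≠ 1 ∧ ((∃ u ∈ QCylY V g, ∃ v ∈ QCylY V g, u ≠ v) ∨
    ((QCylY V g).Nonempty ∧ ∃ t ∈ T, t ≠ 1 ∧ ∃ x : G, Commute (x * t * x⁻¹) g))

/-- the cylinders -/
def QCylOk (d : V → V → ℤ) (T : Finset G) (v₀ : V) (p : QCylP G V) : Prop :=
  (∃ g, QCylAd V T g ∧ p = QCylA V g) ∨
    (∃ x y, d x y = 1 ∧ (∀ a : G, a • x = x → a • y = y → a = 1) ∧ p = QCylB G x y) ∨
    ∃ g : G, p = QCylC v₀ g

theorem QCylAd.conj {T : Finset G} {g : G} (H : QCylAd V T g) (h : G) :
    QCylAd V T (h * g * h⁻¹) := by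
  refine ⟨QCyl_conj_ne h H.1, ?_⟩
  have k : ∀ v : V, v ∈ QCylY V g → h • v ∈ QCylY V (h * g * h⁻¹) := fun v hv => by
    rw [QCylY_smul, inv_smul_smul]; exact hv
  rcases H.2 with ⟨u, hu, v, hv, ne⟩ | ⟨⟨v, hv⟩, t, ht, t1, x, c⟩
  · exact Or.inl ⟨_, k u hu, _, k v hv, fun e => ne (MulAction.injective h e)⟩
  · refine Or.inr ⟨⟨_, k v hv⟩, t, ht, t1, h * x, (QCyl_conj h _ g).1 ?_⟩
    have : h⁻¹ * (h * x * t * (h * x)⁻¹) * h = x * t * x⁻¹ := by group
    rwa [this]

theorem QCylOk.smul (zt : ZTree G d) {T : Finset G} {v₀ : V} {p : QCylP G V}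
    (H : QCylOk d T v₀ p) (h : G) : QCylOk d T v₀ (h • p) := by
  rcases H with ⟨g, hg, rfl⟩ | ⟨x, y, e, tv, rfl⟩ | ⟨g, rfl⟩
  · exact Or.inl ⟨_, hg.conj h, QCylA_smul h g⟩
  · refine Or.inr (Or.inl ⟨h • x, h • y, by rw [zt.act.iso, e], fun a ax ay => ?_,
      QCylB_smul h x y⟩)
    by_contra a1
    refine QCyl_conj_ne h⁻¹ a1 (tv _ ?_ ?_)
    · rw [inv_inv, mul_smul, mul_smul, ax, inv_smul_smul]
    · rw [inv_inv, mul_smul, mul_smul, ay, inv_smul_smul]
  · exact Or.inr (Or.inr ⟨_, QCylC_smul v₀ h g⟩)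

theorem QCylOk.stab (nice : Nice G) (zt : ZTree G d) {T : Finset G} {v₀ : V} {p : QCylP G V}
    (H : QCylOk d T v₀ p) :
    (∃ g : G, g ≠ 1 ∧ p = QCylA V g ∧ ∀ h : G, h • p = p ↔ Commute h g) ∨
      ∀ h : G, h • p = p → h = 1 := by
  rcases H with ⟨g, hg, rfl⟩ | ⟨x, y, e, tv, rfl⟩ | ⟨g, rfl⟩
  · exact Or.inl ⟨g, hg.1, rfl, QCylA_stab nice hg.1⟩
  · exact Or.inr fun h => QCylB_stab zt e tv
  · exact Or.inr fun h => QCylC_stab v₀

theorem QCylOk.ne {T : Finset G} {v₀ : V} {p : QCylP G V} (H : QCylOk d T v₀ p) :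
    p.Y.Nonempty := by
  rcases H with ⟨g, hg, rfl⟩ | ⟨x, y, e, tv, rfl⟩ | ⟨g, rfl⟩
  · rcases hg.2 with ⟨u, hu, -⟩ | ⟨h, -⟩
    · exact ⟨u, hu⟩
    · exact h
  · exact ⟨x, Or.inl rfl⟩
  · exact ⟨_, rfl⟩

theorem QCylOk.conv (nice : Nice G) (zt : ZTree G d) {T : Finset G} {v₀ : V} {p : QCylP G V}
    (H : QCylOk d T v₀ p) {a b q : V} (ha : a ∈ p.Y) (hb : b ∈ p.Y) (h : Bt d a q b) :
    q ∈ p.Y := by
  have tr := zt.act.tr
  have small : d a b ≤ 1 → q = a ∨ q = b := fun hd => by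
    have n1 := tr.nonneg a q
    have n2 := tr.nonneg q b
    simp only [Bt] at h
    by_cases e : d a q = 0
    · exact Or.inl (tr.eq_of e).symm
    · exact Or.inr (tr.eq_of (by omega))
  rcases H with ⟨g, hg, rfl⟩ | ⟨x, y, e, tv, rfl⟩ | ⟨g, rfl⟩
  · exact QCylY_conv nice zt hg.1 ha hb h
  · have : d a b ≤ 1 := by
      have s := tr.symm x y
      have s1 := tr.self x
      have s2 := tr.self y
      rcases ha with rfl | rfl <;> rcases hb with rfl | rfl <;> omega
    rcases small this with rfl | rfl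
    · exact ha
    · exact hb
  · have : d a b ≤ 1 := by
      obtain rfl : a = g • v₀ := ha
      obtain rfl : b = g • v₀ := hb
      rw [tr.self]; omega
    rcases small this with rfl | rfl
    · exact ha
    · exact hb

theorem QCylOk.det (nice : Nice G) (zt : ZTree G d) {T : Finset G} {v₀ : V} {p : QCylP G V}
    (H : QCylOk d T v₀ p) {a b : V} (ha : a ∈ p.Y) (hb : b ∈ p.Y) (h : d a b = 1) :
    (∃ m : G, m ≠ 1 ∧ m • a = a ∧ m • b = b ∧ p = QCylA V m) ∨
      ((∀ m : G, m • a = a → m • b = b → m = 1) ∧ p = QCylB G a b) := by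
  have ne := QCyl_ne zt h
  rcases H with ⟨g, hg, rfl⟩ | ⟨x, y, e, tv, rfl⟩ | ⟨g, rfl⟩
  · obtain ⟨m, m1, mg, ma, mb⟩ := QCylY_edge nice zt hg.1 ha hb h
    exact Or.inl ⟨m, m1, ma, mb, (QCylA_eq nice m1 hg.1 mg).symm⟩
  · right
    rcases ha with rfl | rfl <;> rcases hb with rfl | rfl
    · exact absurd rfl ne
    · exact ⟨tv, rfl⟩
    · refine ⟨fun m h1 h2 => tv m h2 h1, ?_⟩
      simp only [QCylB, Set.pair_comm]
    · exact absurd rfl ne
  · obtain rfl : a = g • v₀ := ha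
    obtain rfl : b = g • v₀ := hb
    exact absurd rfl ne

theorem QCylOk.one (nice : Nice G) (zt : ZTree G d) (ok : EdgeOK G d) {T : Finset G} {v₀ : V}
    {p p' : QCylP G V} (H : QCylOk d T v₀ p) (H' : QCylOk d T v₀ p') {a b : V} (ne : a ≠ b)
    (ha : a ∈ p.Y) (ha' : a ∈ p'.Y) (hb : b ∈ p.Y) (hb' : b ∈ p'.Y) : p = p' := by
  obtain ⟨z, hz, e⟩ := QCyl_first zt ne
  rcases H.det nice zt ha (H.conv nice zt ha hb hz) e with ⟨m, m1, ma, mz, rfl⟩ | ⟨tv, rfl⟩ <;>
    rcases H'.det nice zt ha' (H'.conv nice zt ha' hb' hz) e with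
      ⟨m', m1', ma', mz', rfl⟩ | ⟨tv', rfl⟩
  · exact QCylA_eq nice m1 m1' ((ok a z e).1 m m' ma mz ma' mz')
  · exact absurd (tv' m ma mz) m1
  · exact absurd (tv m' ma' mz') m1'
  · rfl

theorem QCyl_cover (zt : ZTree G d) (T : Finset G) (v₀ : V) {a b : V} (h : d a b = 1) :
    ∃ p, QCylOk d T v₀ p ∧ a ∈ p.Y ∧ b ∈ p.Y := by
  by_cases tv : ∀ m : G, m • a = a → m • b = b → m = 1
  · exact ⟨_, Or.inr (Or.inl ⟨a, b, h, tv, rfl⟩), Or.inl rfl, Or.inr rfl⟩
  · push Not at tv
    obtain ⟨m, ma, mb, m1⟩ := tv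
    have h1 : a ∈ QCylY V m := ⟨m, m1, Commute.refl m, ma⟩
    have h2 : b ∈ QCylY V m := ⟨m, m1, Commute.refl m, mb⟩
    exact ⟨_, Or.inl ⟨m, ⟨m1, Or.inl ⟨a, h1, b, h2, QCyl_ne zt h⟩⟩, rfl⟩, h1, h2⟩

theorem QCylOk.edge (nice : Nice G) (zt : ZTree G d) (ok : EdgeOK G d) {T : Finset G} {v₀ : V}
    {p : QCylP G V} (H : QCylOk d T v₀ p) (v : V) :
    (∃ e : G, ∀ a : G, a • p = p → a • v = v → a ∈ zpowers e) ∨
      ∀ (a : G) (n : ℕ), 0 < n → a • p = p → a ^ n • v = v → a • v = v := by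
  rcases H.stab nice zt with ⟨g, g1, -, st⟩ | st
  · by_contra hc
    rw [not_or] at hc
    obtain ⟨h1, h2⟩ := hc
    push Not at h2
    obtain ⟨a, n, hn, ap, an, av⟩ := h2
    obtain ⟨z, hz, e⟩ := QCyl_first zt av.symm
    rcases (ok v z e).2 with ⟨c, hc⟩ | rt
    · refine h1 ⟨c, fun b bp bv => hc b bv (QCyl_fixc zt bv ?_ hz)⟩
      have : Commute b a := nice.ct _ _ _ g1 ((st b).1 bp) ((st a).1 ap).symm
      rw [← mul_smul, this.eq, mul_smul, bv]
    · refine av (rt a n hn an (QCyl_fixc zt an ?_ hz)).1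
      rw [← mul_smul, (Commute.pow_self a n).eq, mul_smul, an]
  · exact Or.inl ⟨1, fun a ap _ => by rw [st a ap]; exact one_mem _⟩

/-- the invariant set of cylinders -/
def QCylS (zt : ZTree G d) (T : Finset G) (v₀ : V) : SubMulAction G (QCylP G V) where
  carrier := {p | QCylOk d T v₀ p}
  smul_mem' h _ H := QCylOk.smul zt H h

theorem QCyl_fin (nice : Nice G) (zt : ZTree G d) (fin : FinE G d) (ok : EdgeOK G d)
    (T : Finset G) (v₀ : V) : ∃ E : Finset (V × QCylS zt T v₀), ∀ (x : V) (c : QCylS zt T v₀),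
      x ∈ c.1.Y → ∃ g : G, (g • x, g • c) ∈ E := by
  classical
  obtain ⟨E, hE⟩ := fin
  let c₀ : QCylS zt T v₀ := ⟨QCylC v₀ 1, Or.inr (Or.inr ⟨1, rfl⟩)⟩
  have e1 : ∀ q : V × V, ∃ c : QCylS zt T v₀, d q.1 q.2 = 1 → q.1 ∈ c.1.Y ∧ q.2 ∈ c.1.Y := by
    intro q
    by_cases h : d q.1 q.2 = 1
    · obtain ⟨p, hp, h'⟩ := QCyl_cover zt T v₀ h
      exact ⟨⟨p, hp⟩, fun _ => h'⟩
    · exact ⟨c₀, fun h' => absurd h' h⟩
  have e2 : ∀ t : G, ∃ q : V × QCylS zt T v₀, ∀ q' : V × QCylS zt T v₀,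
      q'.2.1 = QCylA V t → QCylY V t = {q'.1} → q' = q := by
    intro t
    by_cases h : ∃ q : V × QCylS zt T v₀, q.2.1 = QCylA V t ∧ QCylY V t = {q.1}
    · obtain ⟨q, h1, h2⟩ := h
      refine ⟨q, fun q' h1' h2' => Prod.ext ?_ (Subtype.ext (h1'.trans h1.symm))⟩
      exact Set.singleton_injective (h2'.symm.trans h2)
    · exact ⟨(v₀, c₀), fun q' h1 h2 => absurd ⟨q', h1, h2⟩ h⟩
  choose f hf using e1
  choose r hr using e2
  refine ⟨insert (v₀, c₀) (E.image (fun q => (q.1, f q)) ∪ T.image r), fun x c hx => ?_⟩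
  have mem : ∀ (g : G) (v : V), v ∈ c.1.Y → g • v ∈ (g • c).1.Y := fun g v hv => by
    show g⁻¹ • g • v ∈ c.1.Y
    rwa [inv_smul_smul]
  by_cases two : ∃ x' ∈ c.1.Y, x ≠ x'
  · obtain ⟨x', hx', ne⟩ := two
    obtain ⟨z, hz, e⟩ := QCyl_first zt ne
    have hz' := QCylOk.conv nice zt c.2 hx hx' hz
    obtain ⟨g, hg⟩ := hE x z e
    have e' : d (g • x) (g • z) = 1 := by rw [zt.act.iso, e]
    obtain ⟨k1, k2⟩ := hf (g • x, g • z) e'
    have : f (g • x, g • z) = g • c := Subtype.ext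
      (QCylOk.one nice zt ok (f _).2 (g • c).2 (QCyl_ne zt e') k1 (mem g x hx) k2 (mem g z hz'))
    refine ⟨g, Finset.mem_insert_of_mem (Finset.mem_union_left _
      (Finset.mem_image.2 ⟨_, hg, ?_⟩))⟩
    rw [this]
  · push Not at two
    obtain ⟨p, hp⟩ := c
    rcases hp with ⟨g, hg, rfl⟩ | ⟨a, b, e, tv, rfl⟩ | ⟨g, rfl⟩
    · rcases hg.2 with ⟨u, hu, v, hv, ne⟩ | ⟨-, t, ht, t1, y, cm⟩
      · exact absurd ((two u hu).symm.trans (two v hv)) ne
      · have k : y⁻¹ • QCylA V g = QCylA V t := by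
          rw [← QCylA_eq nice (QCyl_conj_ne y t1) hg.1 cm, ← QCylA_smul, inv_smul_smul]
        refine ⟨y⁻¹, Finset.mem_insert_of_mem (Finset.mem_union_right _
          (Finset.mem_image.2 ⟨t, ht, (hr t _ k ?_).symm⟩))⟩
        have k' : QCylY V t = (y⁻¹ • QCylA V g).Y := (congrArg QCylP.Y k).symm
        rw [k']
        ext v
        rw [QCylP.smul_Y, inv_inv, Set.mem_singleton_iff, eq_inv_smul_iff]
        exact ⟨fun h => (two _ h).symm, fun h => h ▸ hx⟩
    · exact absurd ((two a (Or.inl rfl)).symm.trans (two b (Or.inr rfl))) (QCyl_ne zt e)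
    · obtain rfl : x = g • v₀ := hx
      refine ⟨g⁻¹, Finset.mem_insert.2 (Or.inl (Prod.ext (inv_smul_smul g v₀) (Subtype.ext ?_)))⟩
      show g⁻¹ • QCylC v₀ g = QCylC v₀ 1
      rw [QCylC_smul, inv_mul_cancel]

theorem ex_bip (nice : Nice G) (zt : ZTree G d) (fin : FinE G d) (ok : EdgeOK G d)
    (T : Finset G) :
    ∃ (W : Type) (_ : MulAction G W) (e : W → W → ℤ) (C : W → Prop), Bip G e C ∧
      (∀ w : W, ¬ C w → ∃ v : V, stabilizer G w = stabilizer G v) ∧
      ∀ t ∈ T, (∃ c : W, C c ∧ t • c = c) ∨ ∀ w : W, t • w ≠ w := by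
  obtain ⟨v₀⟩ := zt.act.ne
  let c₀ : QCylS zt T v₀ := ⟨QCylC v₀ 1, Or.inr (Or.inr ⟨1, rfl⟩)⟩
  have fx : ∀ (g : G) (c : QCylS zt T v₀), g • c = c ↔ g • c.1 = c.1 := fun g c =>
    Subtype.ext_iff
  obtain ⟨e, he⟩ := QCyl_abs (C := QCylS zt T v₀) zt (fun c => c.1.Y) (fun c => QCylOk.ne c.2)
    (fun c a ha b hb p h => QCylOk.conv nice zt c.2 ha hb h)
    (fun c c' ne a b h1 h2 h3 h4 => by
      by_contra hab
      exact ne (Subtype.ext (QCylOk.one nice zt ok c.2 c'.2 hab h1 h2 h3 h4)))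
    (fun x y => zt.act.tr.ind_adj (P := fun y => Relation.ReflTransGen _ x y)
      Relation.ReflTransGen.refl (fun a b h ih => by
        obtain ⟨p, hp, h'⟩ := QCyl_cover zt T v₀ h
        exact ih.tail ⟨⟨p, hp⟩, h'⟩) y)
    (fun g x c => by
      show g⁻¹ • g • x ∈ c.1.Y ↔ _
      rw [inv_smul_smul])
    (QCyl_fin nice zt fin ok T v₀)
    (fun g c c' h h' => by
      rw [fx] at h h'
      by_cases g1 : g = 1
      · exact Or.inl g1
      right
      obtain ⟨m, m1, e1, st⟩ := (QCylOk.stab nice zt c.2).resolve_right fun st => g1 (st g h)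
      obtain ⟨m', m1', e1', st'⟩ :=
        (QCylOk.stab nice zt c'.2).resolve_right fun st => g1 (st g h')
      refine Subtype.ext ?_
      rw [e1, e1', ← QCylA_eq nice g1 m1 ((st g).1 h), ← QCylA_eq nice g1 m1' ((st' g).1 h')])
    (fun c a b h h' => by
      rw [fx] at h h'
      rcases QCylOk.stab nice zt c.2 with ⟨m, m1, -, st⟩ | st
      · exact nice.ct _ _ _ m1 ((st a).1 h) ((st b).1 h').symm
      · rw [st a h]; exact Commute.one_left b)
    (fun c v _ => by simpa only [fx] using QCylOk.edge nice zt ok c.2 v)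
    ⟨c₀, fun a h => QCylC_stab v₀ ((fx a c₀).1 h)⟩
  refine ⟨V ⊕ QCylS zt T v₀, inferInstance, e, _, he, ?_, fun t ht => ?_⟩
  · rintro (v | c) h
    · refine ⟨v, Subgroup.ext fun a => ?_⟩
      simp only [mem_stabilizer_iff, Sum.smul_inl, Sum.inl.injEq]
    · exact absurd ⟨c, rfl⟩ h
  · by_cases t1 : t = 1
    · exact Or.inl ⟨Sum.inr c₀, ⟨c₀, rfl⟩, by rw [t1, one_smul]⟩
    by_cases hv : ∃ v : V, t • v = v
    · obtain ⟨v, hv⟩ := hv
      have ad : QCylAd V T t := ⟨t1, Or.inr ⟨⟨v, t, t1, Commute.refl t, hv⟩, t, ht, t1, 1,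
        by simp⟩⟩
      let c : QCylS zt T v₀ := ⟨QCylA V t, Or.inl ⟨t, ad, rfl⟩⟩
      refine Or.inl ⟨Sum.inr c, ⟨c, rfl⟩, ?_⟩
      rw [Sum.smul_inr, (fx t c).2 ((QCylA_stab nice t1 t).2 (Commute.refl t))]
    · by_cases hc : ∃ c : QCylS zt T v₀, t • c = c
      · obtain ⟨c, hc⟩ := hc
        exact Or.inl ⟨Sum.inr c, ⟨c, rfl⟩, by rw [Sum.smul_inr, hc]⟩
      · right
        rintro (v | c) h
        · exact hv ⟨v, Sum.inl.inj h⟩
        · exact hc ⟨c, Sum.inr.inj h⟩

end Pool.Agent.Work.MP_904812_al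
end
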