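import Pool.Agent.Work.MP_904812_al.Main
import Pool.Agent.Work.MP_904812_al.HDefs

-- merged part: Pool.Agent.Work.MP_904812_al.QDefs
section
/-! Definitions shared by the modules of the discrimination theorem. -/

namespace Pool.Agent.Work.MP_904812_al

open Subgroup MulAction

/-- torsion free -/
def TF (G : Type*) [Group G] : Prop := ∀ (g : G) (n : ℕ), 0 < n → g ^ n = 1 → g = 1

/-- torsion free, commutation transitive, maximal abelian subgroups malnormal -/
structure Nice (G : Type*) [Group G] : Prop where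
  tf : TF G
  ct : ∀ a b c : G, b ≠ 1 → Commute a b → Commute b c → Commute a c
  mal : ∀ x g : G, g ≠ 1 → Commute (x * g * x⁻¹) g → Commute x g

/-- a commutative subgroup -/
def Comm {G : Type*} [Group G] (A : Subgroup G) : Prop := ∀ a ∈ A, ∀ b ∈ A, Commute a b

/-- all commutative subgroups are finitely generated -/
def AbFG (G : Type*) [Group G] : Prop := ∀ A : Subgroup G, Comm A → A.FG

/-- `G` is generated by `S` and the commutative subgroups in `P` -/
def RGen {G : Type*} [Group G] (S : Finset G) (P : Finset (Subgroup G)) : Prop :=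
  (∀ A ∈ P, Comm A) ∧ closure ((S : Set G) ∪ {a | ∃ A ∈ P, a ∈ A}) = ⊤

/-- relative rank at most `μ` -/
def RFGn (G : Type*) [Group G] (μ : ℕ) : Prop :=
  ∃ (S : Finset G) (P : Finset (Subgroup G)), RGen S P ∧ S.card + P.card ≤ μ

/-- finitely generated relative to commutative subgroups -/
def RFG (G : Type*) [Group G] : Prop := ∃ μ, RFGn G μ

section trees

variable {Λ : Type*} [AddCommGroup Λ] [LinearOrder Λ] [IsOrderedAddMonoid Λ] {X : Type*}

/-- an isometric action on a nonempty tree -/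
structure IAct (G : Type*) [Group G] [MulAction G X] (d : X → X → Λ) : Prop where
  tr : Tr d
  ne : Nonempty X
  iso : ∀ (g : G) x y, d (g • x) (g • y) = d x y

/-- `p` lies in the characteristic set (axis or fixed point set) of `g` -/
def Mn {G : Type*} [Group G] [MulAction G X] (d : X → X → Λ) (g : G) (p : X) : Prop :=
  Bt d (g⁻¹ • p) p (g • p)

/-- every element is elliptic or hyperbolic -/
def Semi (G : Type*) [Group G] [MulAction G X] (d : X → X → Λ) : Prop := ∀ g : G, ∃ p, Mn d g p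

/-- `s`, `s'` are consecutive points of `S` -/
def Cons (d : X → X → Λ) (S : Finset X) (s s' : X) : Prop :=
  s ∈ S ∧ s' ∈ S ∧ s ≠ s' ∧ ∀ p ∈ S, Bt d s p s' → p = s ∨ p = s'

variable {V : Type*}

/-- an action without inversion on a simplicial tree -/
structure ZTree (G : Type*) [Group G] [MulAction G V] (d : V → V → ℤ) : Prop where
  act : IAct G d
  noinv : ∀ (g : G) x y, d x y = 1 → g • x = y → g • y ≠ x

/-- finitely many orbits of edges -/
def FinE (G : Type*) [Group G] [MulAction G V] (d : V → V → ℤ) : Prop :=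
  ∃ E : Finset (V × V), ∀ x y, d x y = 1 → ∃ g : G, (g • x, g • y) ∈ E

/-- trivial edge stabilisers -/
def TrivE (G : Type*) [Group G] [MulAction G V] (d : V → V → ℤ) : Prop :=
  ∀ x y, d x y = 1 → ∀ a : G, a • x = x → a • y = y → a = 1

/-- cyclic edge stabilisers -/
def CycE (G : Type*) [Group G] [MulAction G V] (d : V → V → ℤ) : Prop :=
  ∀ x y, d x y = 1 → ∃ c : G, ∀ a : G, a • x = x → a • y = y → a ∈ zpowers c

/-- edge stabilisers are commutative, and cyclic or closed under roots -/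
def EdgeOK (G : Type*) [Group G] [MulAction G V] (d : V → V → ℤ) : Prop :=
  ∀ x y, d x y = 1 →
    (∀ a b : G, a • x = x → a • y = y → b • x = x → b • y = y → Commute a b) ∧
    ((∃ c : G, ∀ a : G, a • x = x → a • y = y → a ∈ zpowers c) ∨
      ∀ (a : G) (n : ℕ), 0 < n → a ^ n • x = x → a ^ n • y = y → a • x = x ∧ a • y = y)

/-- a bipartite tree of cylinders -/
structure Bip (G : Type*) [Group G] [MulAction G V] (d : V → V → ℤ) (C : V → Prop) : Prop where
  zt : ZTree G d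
  fin : FinE G d
  inv : ∀ (g : G) v, C (g • v) ↔ C v
  alt : ∀ x y, d x y = 1 → (C x ↔ ¬ C y)
  acyl : ∀ (g : G) c c', C c → C c' → g • c = c → g • c' = c' → g = 1 ∨ c = c'
  comm : ∀ c, C c → ∀ a b : G, a • c = c → b • c = c → Commute a b
  edge : ∀ c v, C c → d c v = 1 → (∃ e : G, ∀ a : G, a • c = c → a • v = v → a ∈ zpowers e) ∨
    ∀ (a : G) (n : ℕ), 0 < n → a • c = c → a ^ n • v = v → a • v = v
  free : ∃ c, C c ∧ ∀ a : G, a • c = c → a = 1

/-- a rotating family -/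
structure Rot (G : Type*) [Group G] [MulAction G V] (d : V → V → ℤ) (K : V → Subgroup G) :
    Prop where
  zt : ZTree G d
  fix : ∀ w, ∀ a ∈ K w, a • w = w
  conj : ∀ w, ∀ a ∈ K w, ∀ g : G, g * a * g⁻¹ ∈ K (g • w)
  compat : ∀ w w', d w w' = 1 → ∀ a ∈ K w, a • w' = w' → a ∈ K w'

/-- `q : V → W` is the quotient of the tree `V` by the kernel of `φ` -/
structure QTree {G D W : Type*} [Group G] [Group D] [MulAction G V] [MulAction D W]
    (φ : G →* D) (d : V → V → ℤ) (e : W → W → ℤ) (q : V → W) : Prop where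
  zt : ZTree D e
  surj : Function.Surjective q
  equi : ∀ (g : G) v, q (g • v) = φ g • q v
  eq_iff : ∀ v v', q v = q v' ↔ ∃ k : G, φ k = 1 ∧ k • v = v'
  adj : ∀ x y, d x y = 1 → e (q x) (q y) = 1
  lift : ∀ x w, e (q x) w = 1 → ∃ y, d x y = 1 ∧ q y = w
  edge : ∀ x y x' y', d x y = 1 → d x' y' = 1 → q x = q x' → q y = q y' →
    ∃ k : G, φ k = 1 ∧ k • x = x' ∧ k • y = y'

end trees

/-- groups with a finite hierarchy of splittings ending in commutative groups -/
inductive Hier : ∀ (G : Type) [Group G], Prop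
  | abel (G : Type) [Group G] (h : ∀ a b : G, Commute a b) : Hier G
  | step (G : Type) [Group G] (V : Type) [MulAction G V] (d : V → V → ℤ) (zt : ZTree G d)
      (fin : FinE G d) (ok : EdgeOK G d) (ih : ∀ v : V, Hier (stabilizer G v)) : Hier G

/-- a nontrivial splitting over the trivial group -/
def FreeSplit (G : Type) [Group G] : Prop :=
  ∃ (V : Type) (_ : MulAction G V) (d : V → V → ℤ), ZTree G d ∧ TrivE G d ∧
    ∀ v : V, ∃ g : G, g • v ≠ v

/-- a cyclic splitting in which the sets of `Q` are elliptic and whose vertex groups split over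
the trivial group into groups satisfying `Ell` -/
def CSplit (G : Type) [Group G] (Ell : Set G → Prop) (Q : Set (Set G)) : Prop :=
  ∃ (V : Type) (_ : MulAction G V) (d : V → V → ℤ), ZTree G d ∧ CycE G d ∧
    (∀ A ∈ Q, ∃ v : V, ∀ a ∈ A, a • v = v) ∧
    ∀ v : V, ∃ (W : Type) (_ : MulAction (stabilizer G v) W) (e : W → W → ℤ),
      ZTree (stabilizer G v) e ∧ TrivE (stabilizer G v) e ∧
      ∀ w : W, Ell {g | ∃ h : stabilizer G v, h • w = w ∧ (h : G) = g}

/-! ### Linear isoperimetric inequality, in dual form -/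

/-- antisymmetric with coboundary bounded by `1` on the triangles given by `R` -/
def Cocy {G : Type*} [Group G] (R : Finset G) (ω : G → G → ℝ) : Prop :=
  (∀ x y, ω x y = -ω y x) ∧
    ∀ x, ∀ a ∈ R, ∀ b ∈ R, |ω x (x * a) + ω (x * a) (x * b) + ω (x * b) x| ≤ 1

/-- cochains with bounded coboundary are boundedly close to coboundaries -/
def LA (G : Type*) [Group G] : Prop :=
  ∀ S : Finset G, ∃ (R : Finset G) (C : ℝ), ∀ ω : G → G → ℝ, Cocy R ω →
    ∃ p : G → ℝ, ∀ x, ∀ s ∈ S, |ω x (x * s) - (p (x * s) - p x)| ≤ C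

/-- a malnormal family of cyclic subgroups -/
def MalFam {G J : Type*} [Group G] (e : J → G) : Prop :=
  (∀ j, e j ≠ 1) ∧ ∀ (j j' : J) (x : G) (m n : ℤ), m ≠ 0 → x * e j ^ m * x⁻¹ = e j' ^ n →
    j = j' ∧ x ∈ zpowers (e j)

/-! ### Dehn fillings -/

section fill

variable {G : Type*} [Group G]

/-- `a` lies in the centraliser of `g`, which is taken to be trivial when `g = 1` -/
def InZ (g a : G) : Prop := a = 1 ∨ (g ≠ 1 ∧ Commute a g)

/-- a filling: a conjugation invariant set meeting each centraliser in the kernel of a nonzero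
homomorphism to `ℤ` -/
structure Filling (N : Set G) : Prop where
  one : (1 : G) ∈ N
  conj : ∀ n ∈ N, ∀ x : G, x * n * x⁻¹ ∈ N
  loc : ∀ g : G, g ≠ 1 → ∃ θ : G → ℤ,
    (∀ a b, Commute a g → Commute b g → θ (a * b) = θ a + θ b) ∧
    (∃ a, Commute a g ∧ θ a ≠ 0) ∧ ∀ a, Commute a g → (a ∈ N ↔ θ a = 0)

/-- a pair (element, subgroup) that can be separated -/
def Good (p : G × Subgroup G) : Prop :=
  p.1 ∉ p.2 ∧ (∀ e ∈ p.2, Commute e p.1) ∧
    ((∃ e, p.2 = zpowers e) ∨ ∀ n : ℕ, 0 < n → p.1 ^ n ∉ p.2)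

/-- the filling separates the pairs in `Ψ` -/
def Deep (Ψ : Finset (G × Subgroup G)) (N : Set G) : Prop := ∀ p ∈ Ψ, ∀ e ∈ p.2, e⁻¹ * p.1 ∉ N

/-- true for all sufficiently deep fillings -/
def Ev (Pr : Set G → Prop) : Prop :=
  ∃ Ψ : Finset (G × Subgroup G), (∀ p ∈ Ψ, Good p) ∧ ∀ N, Filling N → Deep Ψ N → Pr N

end fill

/-- the induction hypothesis of the filling theorem -/
structure IH (G : Type*) [Group G] : Prop where
  la : Ev fun N : Set G => TF (G ⧸ normalClosure N) ∧ LA (G ⧸ normalClosure N)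
  t0 : ∀ g : G, g ≠ 1 → Ev fun N : Set G => ∀ a ∈ normalClosure N, Commute a g → a ∈ N
  t1 : ∀ a g₁ g₂ : G, (¬ ∃ z₁ z₂, InZ g₁ z₁ ∧ InZ g₂ z₂ ∧ a = z₁ * z₂) →
    Ev fun N : Set G => ∀ z₁ z₂, InZ g₁ z₁ → InZ g₂ z₂ → z₁⁻¹ * a * z₂⁻¹ ∉ normalClosure N
  t2 : ∀ g₁ g₂ : G, Ev fun N : Set G => ∀ x z₁ z₂, InZ g₁ z₁ → InZ g₂ z₂ →
    z₂ ∉ normalClosure N → x * z₁ * x⁻¹ * z₂⁻¹ ∈ normalClosure N →
    ∃ y, x⁻¹ * y ∈ normalClosure N ∧ Commute (y * g₁ * y⁻¹) g₂

/-- the subgroup of the filling kernel attached to a vertex -/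
def KV {G V : Type*} [Group G] [MulAction G V] (N : Set G) (w : V) : Subgroup G :=
  closure {n | n ∈ N ∧ n • w = w}

/-! ### Real trees -/

section real

variable {Y : Type}

/-- the coarse real tree of a free action -/
structure Crs (G : Type) [Group G] [MulAction G Y] (d : Y → Y → ℝ) : Prop where
  act : IAct G d
  nice : Nice G
  comm : ∀ g h : G, g ≠ 1 → h ≠ 1 → Commute g h → ∀ y, Mn d g y → Mn d h y
  ovl : ∀ (g h : G) a b, Mn d g a → Mn d g b → Mn d h a → Mn d h b →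
    2 * (d a (g • a) + d a (h • a)) < d a b → Commute g h
  low : ∀ (H : Type) [Group H] (ι : H →* G), Function.Injective ι →
    (∃ y : Y, ∀ h, ι h • y = y) → RFG H → Hier H

/-- a real tree with an invariant partition into convex sets -/
structure Fat (G : Type) [Group G] [MulAction G Y] (d : Y → Y → ℝ) (r : Y → Y → Prop) :
    Prop where
  act : IAct G d
  tf : TF G
  eqv : Equivalence r
  inv : ∀ (g : G) a b, r a b → r (g • a) (g • b)
  conv : ∀ a p b, r a b → Bt d a p b → r a p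
  na : ∀ (F : Finset Y) a b, ¬ r a b → {g : G | g • a ∈ Hull d F ∧ g • b ∈ Hull d F}.Finite

variable {G : Type} [Group G] [MulAction G Y]

/-- `f` only depends on the class of the point -/
def RInv (d : Y → Y → ℝ) (r : Y → Y → Prop) (F : Finset Y) {Γ : Type} (f : G → Y → Γ) : Prop :=
  ∀ (g : G) p p', g • p ∈ Hull d F → g • p' ∈ Hull d F → r p p' → f g p = f g p'

/-- the transition functions of `f` are constant along each band -/
def Closed (d : Y → Y → ℝ) (B : Finset (G × Y × Y)) {Γ : Type} [Group Γ] (f : G → Y → Γ) : Prop :=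
  ∀ β ∈ B, ∀ (g : G) p p', Bt d β.2.1 (g • p) β.2.2 → Bt d β.2.1 (g • p') β.2.2 →
    f (β.1 * g) p * (f g p)⁻¹ = f (β.1 * g) p' * (f g p')⁻¹

/-- the transition functions of `f` are coboundaries -/
def Exact (d : Y → Y → ℝ) (r : Y → Y → Prop) (F : Finset Y) (B : Finset (G × Y × Y)) {Γ : Type}
    [Group Γ] (f : G → Y → Γ) : Prop :=
  ∃ Φ : G → Γ, (∀ β ∈ B, ∀ (g : G) p, Bt d β.2.1 (g • p) β.2.2 →
      f (β.1 * g) p * (f g p)⁻¹ = Φ (β.1 * g) * (Φ g)⁻¹) ∧
    ∀ (g g' : G) p p', g • p ∈ F → g' • p' ∈ F → r p p' →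
      f g' p' * (f g p)⁻¹ = Φ g' * (Φ g)⁻¹

/-- simple connectivity of the band complex -/
def HG (G : Type) [Group G] [MulAction G Y] (d : Y → Y → ℝ) (r : Y → Y → Prop) (F : Finset Y)
    (B : Finset (G × Y × Y)) : Prop :=
  ∀ (Γ : Type) [Group Γ] (f : G → Y → Γ), RInv d r F f → Closed d B f → Exact d r F B f

/-- the bands lie in the hull -/
def InK (d : Y → Y → ℝ) (F : Finset Y) (B : Finset (G × Y × Y)) : Prop :=
  ∀ β ∈ B, β.2.1 ∈ Hull d F ∧ β.2.2 ∈ Hull d F ∧ β.1 • β.2.1 ∈ Hull d F ∧ β.1 • β.2.2 ∈ Hull d F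

/-- a geometric system -/
structure Geo (G : Type) [Group G] [MulAction G Y] (d : Y → Y → ℝ) (r : Y → Y → Prop)
    (F : Finset Y) (B : Finset (G × Y × Y)) (x₀ : Y) (g₀ : G) : Prop where
  fat : Fat G d r
  ink : InK d F B
  hg : HG G d r F B
  gen : closure {h : G | ∃ p ∈ F, ∃ p' ∈ F, r (h • p) p'} = ⊤
  x0 : x₀ ∈ F
  g0 : g₀ ≠ 1
  xp : g₀ • x₀ ∈ F
  xm : g₀⁻¹ • x₀ ∈ F
  mn : Mn d g₀ x₀
  ess : ∀ p ∈ F, (∃ g : G, g ≠ 1 ∧ r (g • p) p) ∨ ∃ g : G, r (g • x₀) p

/-- every segment of the hull that is not fat contains a segment on which `r` is trivial -/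
def BL (d : Y → Y → ℝ) (r : Y → Y → Prop) (F : Finset Y) : Prop :=
  ∀ p q, p ∈ Hull d F → q ∈ Hull d F → ¬ r p q → ∃ a b, a ≠ b ∧ Bt d p a q ∧ Bt d p b q ∧
    ∀ x y, Bt d a x b → Bt d a y b → r x y → x = y

/-- no branch point of the hull in the interior of a base of a band -/
def NoBr (d : Y → Y → ℝ) (F : Finset Y) (B : Finset (G × Y × Y)) : Prop :=
  ∀ β ∈ B, ∀ p, Bt d β.2.1 p β.2.2 → (Br d F p ∨ Br d F (β.1 • p)) → p = β.2.1 ∨ p = β.2.2

/-- the band `β` contains the image under `g` of the segment `[a, b]` -/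
def Along (d : Y → Y → ℝ) (a b : Y) (g : G) (β : G × Y × Y) : Prop :=
  Bt d β.2.1 (g • a) β.2.2 ∧ Bt d β.2.1 (g • b) β.2.2

/-- independence: along a nondegenerate segment every step is a bridge -/
def Ind (G : Type) [Group G] [MulAction G Y] (d : Y → Y → ℝ) (B : Finset (G × Y × Y)) : Prop :=
  ∀ a b : Y, a ≠ b → ∀ (g : G), ∀ β ∈ B, Along d a b g β →
    ¬ Relation.EqvGen (fun h h' : G => ∃ β' ∈ B, Along d a b h β' ∧ h' = β'.1 * h ∧
      (h, β') ≠ (g, β)) g (β.1 * g)

/-- bands and site letters -/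
def Lt (F : Finset Y) (B : Finset (G × Y × Y)) : Set (G × Y × Y) :=
  {β | β ∈ B ∨ (β.2.1 ∈ F ∧ β.2.2 = β.2.1 ∧ β.1 • β.2.1 ∈ F)}

/-- steps between points of `S` -/
def SStep (d : Y → Y → ℝ) (F : Finset Y) (B : Finset (G × Y × Y)) (S : Finset Y)
    (i : Lt F B) (p p' : Y) : Prop :=
  p ∈ S ∧ p' ∈ S ∧ Bt d i.1.2.1 p i.1.2.2 ∧ p' = i.1.1 • p

end real

/-- paths labelled by elements of a free group -/
inductive WPath {ι V : Type*} (R : ι → V → V → Prop) (x : V) : FreeGroup ι → V → Prop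
  | nil : WPath R x 1 x
  | fwd {ω : FreeGroup ι} {y z : V} {i : ι} : WPath R x ω y → R i y z →
      WPath R x (FreeGroup.of i * ω) z
  | bwd {ω : FreeGroup ι} {y z : V} {i : ι} : WPath R x ω y → R i z y →
      WPath R x ((FreeGroup.of i)⁻¹ * ω) z

/-- weighted walks in a graph -/
inductive GWalk {A E Γ : Type*} [Group Γ] (src tgt : E → A) (l : E → Γ) (a : A) : Γ → A → Prop
  | nil : GWalk src tgt l a 1 a
  | fwd {t : Γ} (e : E) : GWalk src tgt l a t (src e) → GWalk src tgt l a (l e * t) (tgt e)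
  | bwd {t : Γ} (e : E) : GWalk src tgt l a t (tgt e) → GWalk src tgt l a ((l e)⁻¹ * t) (src e)

/-- the isometry between two segments of a simplicial tree -/
def BR {V : Type*} (D : V → V → ℤ) (u v u' v' x x' : V) : Prop :=
  Bt D u x v ∧ Bt D u' x' v' ∧ D u x = D u' x'

/-- a finite simplicial model of a system of isometries -/
structure Model (G : Type) [Group G] (Ell : Set G → Prop) (Q : Set (Set G)) where
  V : Type
  D : V → V → ℤ
  par : V → Bool
  ι : Type
  lab : ι → G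
  u : ι → V
  v : ι → V
  u' : ι → V
  v' : ι → V
  core : ι → V → V → Prop
  I : Finset ι
  E : Finset (V × V)
  F : Set V
  x₀ : V
  xp : V
  xm : V
  g₀ : G
  tf : TF G
  ell_mono : ∀ A A' : Set G, A' ⊆ A → Ell A → Ell A'
  ell_conj : ∀ (A : Set G) (g : G), Ell A → Ell {a | g⁻¹ * a * g ∈ A}
  tr : Tr D
  par_adj : ∀ x y, D x y = 1 → par x ≠ par y
  len : ∀ i, D (u i) (v i) = D (u' i) (v' i)
  par_u : ∀ i, par (u i) = par (u' i)
  core_le : ∀ i x x', core i x x' → BR D (u i) (v i) (u' i) (v' i) x x'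
  hI : ∀ i, i ∉ I → u i = v i
  hE : ∀ x y, (x, y) ∈ E ↔ D x y = 1
  cnt : 2 * ∑ i ∈ I, D (u i) (v i) ≤ E.card
  gen : Function.Surjective (FreeGroup.lift lab)
  pres : ∀ ω, FreeGroup.lift lab ω = 1 →
    ω ∈ normalClosure {c | FreeGroup.lift lab c = 1 ∧ ∃ x, WPath core x c x}
  ind : ∀ x y y' ω, D x y = 1 → WPath (fun i (a b : V × V) => core i a.1 b.1 ∧
      BR D (u i) (v i) (u' i) (v' i) a.2 b.2) (x, y) ω (x, y') →
    FreeGroup.lift lab ω = 1 → ω = 1 ∧ y' = y
  fix : ∀ x, Ell {g | ∃ ω, WPath core x ω x ∧ FreeGroup.lift lab ω = g}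
  hQ : ∀ A ∈ Q, ∃ x, ∀ a ∈ A, ∃ ω, WPath core x ω x ∧ FreeGroup.lift lab ω = a
  hull : ∀ x y, D x y = 1 → ∃ f ∈ F, ∃ f' ∈ F, Bt D f x y ∧ Bt D x y f'
  ess : ∀ f ∈ F, (∃ ω, WPath core f ω f ∧ FreeGroup.lift lab ω ≠ 1) ∨ ∃ ω, WPath core x₀ ω f
  g0 : g₀ ≠ 1
  hxp : ∃ ω, WPath core x₀ ω xp ∧ FreeGroup.lift lab ω = g₀
  hxm : ∃ ω, WPath core x₀ ω xm ∧ FreeGroup.lift lab ω = g₀⁻¹
  mn : Bt D xm x₀ xp

/-- the step relation of a model -/
def Model.R {G : Type} [Group G] {Ell : Set G → Prop} {Q : Set (Set G)} (M : Model G Ell Q)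
    (i : M.ι) (x x' : M.V) : Prop :=
  BR M.D (M.u i) (M.v i) (M.u' i) (M.v' i) x x'

/-- the tree of the free group on the letters of a model -/
structure Hat {G : Type} [Group G] {Ell : Set G → Prop} {Q : Set (Set G)} (M : Model G Ell Q)
    {T : Type} [MulAction (FreeGroup M.ι) T] (d : T → T → ℤ) (pt : M.V → T) : Prop where
  zt : ZTree (FreeGroup M.ι) d
  iso : ∀ x y, d (pt x) (pt y) = M.D x y
  cover : ∀ t, ∃ (ω : FreeGroup M.ι) (x : M.V), t = ω • pt x
  path : ∀ (ω : FreeGroup M.ι) x x', ω • pt x = pt x' ↔ WPath M.R x ω x'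
  adj : ∀ t t', d t t' = 1 → ∃ (ω : FreeGroup M.ι) (x y : M.V), t = ω • pt x ∧ t' = ω • pt y
  epath : ∀ (ω : FreeGroup M.ι) x y x' y', ω • pt x = pt x' → ω • pt y = pt y' →
    WPath (fun i (a b : M.V × M.V) => M.R i a.1 b.1 ∧ M.R i a.2 b.2) (x, y) ω (x', y')

/-- the subgroup generated by the trivial core loops in the leaf of `t` -/
def Model.K {G : Type} [Group G] {Ell : Set G → Prop} {Q : Set (Set G)} (M : Model G Ell Q)
    {T : Type} [MulAction (FreeGroup M.ι) T] (pt : M.V → T) (t : T) :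
    Subgroup (FreeGroup M.ι) :=
  closure {n | ∃ (η c : FreeGroup M.ι) (y : M.V), η • pt y = t ∧ WPath M.core y c y ∧
    FreeGroup.lift M.lab c = 1 ∧ n = η * c * η⁻¹}

end Pool.Agent.Work.MP_904812_al
end

-- merged part: Pool.Agent.Work.MP_904812_al.QTr
section
/-! Simplicial trees from walls. -/

namespace Pool.Agent.Work.MP_904812_al

set_option linter.unusedSectionVars false
set_option linter.unusedVariables false

open Subgroup MulAction

section
variable {Λ : Type*} [AddCommGroup Λ] [LinearOrder Λ] [IsOrderedAddMonoid Λ] {X : Type*}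

/-- the four point condition from medians -/
theorem four_of_med {d : X → X → Λ} (symm : ∀ x y, d x y = d y x)
    (tri : ∀ x y z, d x z ≤ d x y + d y z) (I : X → X → X → Prop)
    (add : ∀ x m y, I x m y → d x m + d m y = d x y)
    (med : ∀ x y z, ∃ m, I x m y ∧ I x m z ∧ I y m z)
    (split : ∀ x m y z, I x m y → I x m z ∨ I y m z) (x y z w : X) :
    d x y + d z w ≤ max (d x z + d y w) (d x w + d y z) := by
  obtain ⟨m, a1, a2, a3⟩ := med x y z
  have b1 := add _ _ _ a1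
  have b2 := add _ _ _ a2
  have b3 := add _ _ _ a3
  have t := tri z m w
  have s1 := symm z m
  have s2 := symm y m
  rcases split x m y w a1 with c | c
  · have := add _ _ _ c
    exact le_max_of_le_right (by grind)
  · have := add _ _ _ c
    exact le_max_of_le_left (by grind)

/-- convex subsets of trees are trees -/
theorem Tr.sub {d : X → X → Λ} (h : Tr d) (A : Set X)
    (hA : ∀ a ∈ A, ∀ b ∈ A, ∀ p, Bt d a p b → p ∈ A) : Tr fun x y : A => d x.1 y.1 := by
  refine ⟨fun x y => h.nonneg _ _, fun x => h.self _, fun e => Subtype.ext (h.eq_of e),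
    fun x y => h.symm _ _, fun x y z => h.tri _ _ _, ?_, fun x y z w => h.four _ _ _ _, ?_⟩
  · intro x y t h0 h1
    obtain ⟨p, a, b⟩ := h.ex_pt x.1 y.1 t h0 h1
    exact ⟨⟨p, hA _ x.2 _ y.2 p b⟩, a, b⟩
  · intro x y z
    obtain ⟨m, a, b, c⟩ := h.med x.1 y.1 z.1
    exact ⟨⟨m, hA _ x.2 _ y.2 m a⟩, a, b, c⟩

end

variable {V : Type*}

/-- chains of a given length -/
inductive QTrCh (adj : V → V → Prop) (x : V) : ℕ → V → Prop
  | nil : QTrCh adj x 0 x
  | step {n : ℕ} {y z : V} : QTrCh adj x n y → adj y z → QTrCh adj x (n + 1) z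

theorem QTrCh.trans {adj : V → V → Prop} {x y z : V} {m n : ℕ} (a : QTrCh adj x m y)
    (b : QTrCh adj y n z) : QTrCh adj x (m + n) z := by
  induction b with
  | nil => exact a
  | step _ e ih => exact ih.step e

theorem QTrCh.symm {adj : V → V → Prop} (symm : ∀ x y, adj x y → adj y x) {x y : V} {n : ℕ}
    (a : QTrCh adj x n y) : QTrCh adj y n x := by
  induction a with
  | nil => exact .nil
  | step _ e ih =>
    have := (QTrCh.nil.step (symm _ _ e)).trans ih
    rwa [Nat.zero_add, Nat.add_comm] at this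

theorem QTrCh.map {adj : V → V → Prop} {φ : V → V} (hφ : ∀ a b, adj a b → adj (φ a) (φ b))
    {x y : V} {n : ℕ} (a : QTrCh adj x n y) : QTrCh adj (φ x) n (φ y) := by
  induction a with
  | nil => exact .nil
  | step _ e ih => exact ih.step (hφ _ _ e)

theorem QTrCh.ex {adj : V → V → Prop} {x y : V} (a : Relation.ReflTransGen adj x y) :
    ∃ n, QTrCh adj x n y := by
  induction a with
  | refl => exact ⟨0, .nil⟩
  | tail _ e ih => obtain ⟨n, hn⟩ := ih; exact ⟨n + 1, hn.step e⟩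

theorem QTrCh.zero {adj : V → V → Prop} {x y : V} (a : QTrCh adj x 0 y) : x = y := by
  cases a; rfl

theorem QTrCh.succ {adj : V → V → Prop} {x z : V} {n : ℕ} (a : QTrCh adj x (n + 1) z) :
    ∃ y, QTrCh adj x n y ∧ adj y z := by
  cases a with
  | step b e => exact ⟨_, b, e⟩

/-- the combinatorial distance -/
theorem qtr_dist (adj : V → V → Prop) (conn : ∀ x y, Relation.ReflTransGen adj x y) :
    ∃ D : V → V → ℕ, (∀ x y, QTrCh adj x (D x y) y) ∧ ∀ x y n, QTrCh adj x n y → D x y ≤ n := by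
  classical
  exact ⟨fun x y => Nat.find (QTrCh.ex (conn x y)), fun x y => Nat.find_spec (QTrCh.ex (conn x y)),
    fun x y n h => Nat.find_min' _ h⟩

theorem tr_of_walls (adj : V → V → Prop) (symm : ∀ x y, adj x y → adj y x)
    (conn : ∀ x y, Relation.ReflTransGen adj x y)
    (wall : ∀ x y, adj x y → ∃ s : V → Prop, s x ∧ ¬ s y ∧
      ∀ a b, adj a b → (s a ↔ s b) ∨ (a = x ∧ b = y) ∨ (a = y ∧ b = x)) :
    ∃ D : V → V → ℤ, Tr D ∧ (∀ x y, D x y = 1 ↔ adj x y) ∧
      ∀ φ : V → V, Function.Bijective φ → (∀ a b, adj (φ a) (φ b) ↔ adj a b) →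
        ∀ a b, D (φ a) (φ b) = D a b := by
  obtain ⟨D, hD, hm⟩ := qtr_dist adj conn
  have self : ∀ x, D x x = 0 := fun x => Nat.le_zero.1 (hm x x 0 .nil)
  have eq_of : ∀ x y, D x y = 0 → x = y := fun x y e => by
    have := hD x y
    rw [e] at this
    exact this.zero
  have sy : ∀ x y, D x y = D y x := fun x y =>
    le_antisymm (hm _ _ _ ((hD y x).symm symm)) (hm _ _ _ ((hD x y).symm symm))
  have tri : ∀ x y z, D x z ≤ D x y + D y z := fun x y z => hm _ _ _ ((hD x y).trans (hD y z))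
  have le1 : ∀ x y, adj x y → D x y ≤ 1 := fun x y e => hm _ _ _ (QTrCh.nil.step e)
  have irr : ∀ x y, adj x y → x ≠ y := by
    rintro x y e rfl
    obtain ⟨s, a, b, -⟩ := wall x x e
    exact b a
  have pred : ∀ x y n, D x y = n + 1 → ∃ z, adj z y ∧ D x z = n := by
    intro x y n e
    have := hD x y
    rw [e] at this
    obtain ⟨z, a, b⟩ := this.succ
    refine ⟨z, b, le_antisymm (hm _ _ _ a) ?_⟩
    have := tri x z y
    have := le1 z y b
    omega
  have one : ∀ x y, D x y = 1 ↔ adj x y := by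
    intro x y
    constructor
    · intro e
      obtain ⟨z, a, b⟩ := pred x y 0 e
      rw [eq_of _ _ b]; exact a
    · intro e
      have := le1 x y e
      have : D x y ≠ 0 := fun h0 => irr x y e (eq_of _ _ h0)
      omega
  -- crossing a wall
  have cross : ∀ x y, adj x y → ∀ s : V → Prop, s x → ¬ s y →
      (∀ a b, adj a b → (s a ↔ s b) ∨ (a = x ∧ b = y) ∨ (a = y ∧ b = x)) →
      ∀ z w, s z → ¬ s w → D z w = D z x + 1 + D y w := by
    intro x y e s sx sy' hs z w sz sw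
    have key : ∀ n w, QTrCh adj z n w → ¬ s w → D z x + 1 + D y w ≤ n := by
      intro n w c
      induction c with
      | nil => intro h; exact absurd sz h
      | @step n v w c e' ih =>
        intro h
        by_cases sv : s v
        · rcases hs v w e' with a | ⟨rfl, rfl⟩ | ⟨rfl, rfl⟩
          · exact absurd (a.1 sv) h
          · have := hm _ _ _ c
            have := self w
            omega
          · exact absurd sv sy'
        · have := ih sv
          have := tri y v w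
          have := le1 v w e'
          omega
    have := key _ w (hD z w) sw
    have := tri z x w
    have := tri x y w
    have := le1 x y e
    omega
  -- walls in usable form
  have wl : ∀ x y, adj x y → ∃ s : V → Prop, s x ∧ ¬ s y ∧
      (∀ a b, adj a b → (s a ↔ s b) ∨ (a = x ∧ b = y) ∨ (a = y ∧ b = x)) ∧
      (∀ z w, s z → ¬ s w → D z w = D z x + 1 + D y w) ∧
      (∀ z, s z → D z y = D z x + 1) ∧ ∀ z, ¬ s z → D z x = D z y + 1 := by
    intro x y e
    obtain ⟨s, a, b, c⟩ := wall x y e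
    have k := cross x y e s a b c
    refine ⟨s, a, b, c, k, fun z hz => ?_, fun z hz => ?_⟩
    · have := k z y hz b
      have := self y
      omega
    · have := k x z a hz
      have := self x
      have := sy x z
      have := sy y z
      omega
  have uniq : ∀ z y y1 y2, adj y1 y → adj y2 y → D z y = D z y1 + 1 → D z y = D z y2 + 1 →
      y1 = y2 := by
    intro z y y1 y2 e1 e2 f1 f2
    obtain ⟨s, a, b, c, k, k1, k2⟩ := wl y1 y e1
    by_contra hne
    have sz : s z := by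
      by_contra hz
      have := k2 z hz
      omega
    rcases c y2 y e2 with h | ⟨h, -⟩ | ⟨h, -⟩
    · have := k z y2 sz (fun h' => b (h.1 h'))
      omega
    · exact hne h.symm
    · exact irr _ _ e2 h
  have split : ∀ x m y z, D x m + D m y = D x y → D x m + D m z = D x z ∨ D y m + D m z = D y z := by
    intro x m y z e
    rcases hx : D x m with _ | n
    · left
      rw [eq_of _ _ hx]; omega
    rcases hy : D y m with _ | n'
    · right
      rw [eq_of _ _ hy]; omega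
    obtain ⟨a, a1, a2⟩ := pred x m n hx
    obtain ⟨b, b1, b2⟩ := pred y m n' hy
    have hab : a ≠ b := by
      rintro rfl
      have := tri x a y
      have := sy a y
      have := sy m y
      omega
    obtain ⟨s, -, -, -, k, k1, k2⟩ := wl a m a1
    obtain ⟨s', -, -, -, k', k1', k2'⟩ := wl b m b1
    have sx : s x := by
      by_contra h
      have := k2 x h
      omega
    have sy' : s' y := by
      by_contra h
      have := k2' y h
      omega
    by_cases hz : s z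
    · by_cases hz' : s' z
      · exact absurd (uniq z m a b a1 b1 (k1 z hz) (k1' z hz')) hab
      · right
        have := k' y z sy' hz'
        omega
    · left
      have := k x z sx hz
      omega
  have med : ∀ n x y z, D x y = n → ∃ m, D x m + D m y = D x y ∧ D x m + D m z = D x z ∧
      D y m + D m z = D y z := by
    intro n
    induction n with
    | zero =>
      intro x y z e
      have := eq_of _ _ e
      subst this
      have := self x
      exact ⟨x, by omega, by omega, by omega⟩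
    | succ n ih =>
      intro x y z e
      obtain ⟨y', a1, a2⟩ := pred x y n e
      obtain ⟨s, -, -, -, k, k1, k2⟩ := wl y' y a1
      have sx : s x := by
        by_contra h
        have := k2 x h
        omega
      by_cases hz : s z
      · obtain ⟨m, b1, b2, b3⟩ := ih x y' z a2
        have := k1 z hz
        have := tri m y' y
        have := tri x m y
        have := tri y m z
        have := le1 y' y a1
        have := sy y m
        have := sy y' m
        have := sy y z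
        have := sy y' z
        exact ⟨m, by omega, b2, by omega⟩
      · have := k x z sx hz
        have := self y
        exact ⟨y, by omega, by omega, by omega⟩
  have expt : ∀ n x y t, D x y = n → t ≤ n → ∃ p, D x p = t ∧ D x p + D p y = D x y := by
    intro n
    induction n with
    | zero =>
      intro x y t e ht
      have := self y
      exact ⟨y, by omega, by omega⟩
    | succ n ih =>
      intro x y t e ht
      by_cases h : t = n + 1
      · have := self y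
        exact ⟨y, by omega, by omega⟩
      · obtain ⟨y', a1, a2⟩ := pred x y n e
        obtain ⟨p, b1, b2⟩ := ih x y' t a2 (by omega)
        have := tri p y' y
        have := tri x p y
        have := le1 y' y a1
        exact ⟨p, b1, by omega⟩
  have sy' : ∀ x y, (D x y : ℤ) = D y x := fun x y => by rw [sy]
  have tri' : ∀ x y z, (D x z : ℤ) ≤ D x y + D y z := fun x y z => by exact_mod_cast tri x y z
  have med' : ∀ x y z, ∃ m, (D x m : ℤ) + D m y = D x y ∧ (D x m : ℤ) + D m z = D x z ∧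
      (D y m : ℤ) + D m z = D y z := fun x y z => by
    obtain ⟨m, a, b, c⟩ := med _ x y z rfl
    exact ⟨m, by omega, by omega, by omega⟩
  refine ⟨fun x y => (D x y : ℤ), ⟨fun x y => by positivity, fun x => by simp [self],
    fun e => eq_of _ _ (by exact_mod_cast e), sy', tri', ?_, ?_, med'⟩, ?_, ?_⟩
  · intro x y t h0 h1
    obtain ⟨p, a, b⟩ := expt _ x y t.toNat rfl (by omega)
    exact ⟨p, by omega, by omega⟩
  · refine four_of_med sy' tri' (fun x m y => (D x m : ℤ) + D m y = D x y) (fun _ _ _ h => h)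
      med' ?_
    intro x m y z e
    have := split x m y z (by omega)
    omega
  · intro x y
    rw [← one]
    show (D x y : ℤ) = 1 ↔ D x y = 1
    omega
  · intro φ hφ ha a b
    obtain ⟨ψ, l, r⟩ := Function.bijective_iff_has_inverse.1 hφ
    have h1 := hm _ _ _ ((hD a b).map (φ := φ) fun a b e => (ha a b).2 e)
    have h2 := hm _ _ _ ((hD (φ a) (φ b)).map (φ := ψ) fun a b e => by
      rw [← ha, r a, r b]; exact e)
    rw [l a, l b] at h2
    simp only
    omega

variable {d : V → V → ℤ}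

theorem Tr.qtr_pred {d : V → V → ℤ} (h : Tr d) {x y : V} {n : ℕ} (e : d x y = (n + 1 : ℕ)) :
    ∃ z, d z y = 1 ∧ d x z = n := by
  obtain ⟨z, a, b⟩ := h.ex_pt x y n (by omega) (by omega)
  exact ⟨z, by omega, a⟩

theorem Tr.ind_adj (h : Tr d) {P : V → Prop} {x : V} (hx : P x)
    (step : ∀ a b, d a b = 1 → P a → P b) (y : V) : P y := by
  have key : ∀ (n : ℕ) y, d x y = n → P y := by
    intro n
    induction n with
    | zero => intro y e; rw [← h.eq_of e]; exact hx
    | succ n ih =>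
      intro y e
      obtain ⟨z, a, b⟩ := h.qtr_pred e
      exact step z y a (ih z b)
  exact key (d x y).toNat y (by have := h.nonneg x y; omega)

theorem Tr.adj_cases (h : Tr d) {x y : V} (e : d x y = 1) (z : V) :
    d z y = d z x + 1 ∨ d z x = d z y + 1 := by
  obtain ⟨m, a, b, c⟩ := h.med x y z
  have n1 := h.nonneg x m
  have n2 := h.nonneg m y
  have s1 := h.symm z x
  have s2 := h.symm z y
  have s3 := h.symm x y
  by_cases h0 : d x m = 0
  · have := h.eq_of h0
    subst this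
    left; omega
  · have := h.eq_of (show d m y = 0 by omega)
    subst this
    right; omega

/-- a walk without backtracking is a geodesic -/
theorem Tr.geod (h : Tr d) (x : ℕ → V) (n : ℕ) (a : ∀ i, i < n → d (x i) (x (i + 1)) = 1)
    (nb : ∀ i, i + 2 ≤ n → x (i + 2) ≠ x i) : d (x 0) (x n) = n := by
  have key : ∀ k, k ≤ n → ∀ j, j ≤ k → d (x 0) (x j) = j := by
    intro k
    induction k with
    | zero =>
      intro _ j hj
      obtain rfl : j = 0 := by omega
      simp [h.self]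
    | succ k ih =>
      intro hk j hj
      have ih' := ih (by omega)
      by_cases hjk : j ≤ k
      · exact ih' j hjk
      obtain rfl : j = k + 1 := by omega
      have e := ih' k le_rfl
      rcases h.adj_cases (a k (by omega)) (x 0) with c | c
      · rw [c, e]; push_cast; rfl
      · exfalso
        have n1 := h.nonneg (x 0) (x (k + 1))
        obtain ⟨i, rfl⟩ : ∃ i, k = i + 1 := ⟨k - 1, by omega⟩
        have e' := ih' i (by omega)
        have a1 := a i (by omega)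
        have a2 := a (i + 1) (by omega)
        have s := h.symm (x (i + 1)) (x (i + 1 + 1))
        refine nb i (by omega) (h.bt_uniq (x := x 0) (y := x (i + 1)) ?_ ?_ ?_)
        · show d (x 0) (x (i + 1 + 1)) + d (x (i + 1 + 1)) (x (i + 1)) = _
          omega
        · simp only [Bt]; omega
        · show d (x 0) (x (i + 1 + 1)) = _
          omega
  exact key n le_rfl n le_rfl

theorem Tr.backtrack (h : Tr d) (x : ℕ → V) (n : ℕ) (hn : 0 < n)
    (a : ∀ i, i < n → d (x i) (x (i + 1)) = 1) (c : x n = x 0) :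
    ∃ i, i + 2 ≤ n ∧ x (i + 2) = x i := by
  by_contra hc
  push Not at hc
  have := h.geod x n a hc
  rw [c, h.self] at this
  omega

theorem Tr.ex_geod (h : Tr d) (a b : V) : ∃ x : ℕ → V, x 0 = a ∧
    (∀ i : ℕ, (i : ℤ) ≤ d a b → Bt d a (x i) b ∧ d a (x i) = i) ∧
    ∀ i : ℕ, (i : ℤ) < d a b → d (x i) (x (i + 1)) = 1 := by
  classical
  have ex : ∀ i : ℕ, ∃ p, (i : ℤ) ≤ d a b → Bt d a p b ∧ d a p = i := by
    intro i
    by_cases hi : (i : ℤ) ≤ d a b
    · obtain ⟨p, hp⟩ := h.ex_bt a b (t := i) (by omega) hi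
      exact ⟨p, fun _ => hp⟩
    · exact ⟨a, fun h' => absurd h' hi⟩
  choose x hx using ex
  refine ⟨x, ?_, hx, ?_⟩
  · exact (h.eq_of (hx 0 (h.nonneg a b)).2).symm
  · intro i hi
    obtain ⟨b1, e1⟩ := hx i hi.le
    obtain ⟨b2, e2⟩ := hx (i + 1) (by push_cast; omega)
    rw [h.bt_dist b1 b2, e1, e2]
    push_cast
    simp

theorem Tr.seg_finite (h : Tr d) (a b : V) : {p | Bt d a p b}.Finite := by
  refine Set.Finite.of_injOn (f := fun p => d a p) (t := Set.Icc 0 (d a b)) ?_ ?_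
    (Set.finite_Icc _ _)
  · intro p hp
    exact ⟨h.nonneg _ _, h.bt_le hp⟩
  · intro p hp q hq e
    exact h.bt_uniq hp hq e

theorem Tr.hull_finite (h : Tr d) (F : Finset V) : (Hull d F).Finite := by
  refine (F.finite_toSet.biUnion fun u _ =>
    F.finite_toSet.biUnion fun v _ => h.seg_finite u v).subset ?_
  rintro p ⟨u, hu, v, hv, a⟩
  simp only [Set.mem_iUnion]
  exact ⟨u, hu, v, hv, a⟩

/-- a map that preserves adjacency and does not fold the turns of a segment preserves its length -/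
theorem Tr.map_geod {W : Type*} {e : W → W → ℤ} (h : Tr d) (h' : Tr e) (q : V → W)
    (adj : ∀ x y, d x y = 1 → e (q x) (q y) = 1) {a b : V}
    (nf : ∀ w' w w'', Bt d a w' b → Bt d a w b → Bt d a w'' b → d w' w = 1 → d w w'' = 1 →
      w' ≠ w'' → q w' ≠ q w'') : e (q a) (q b) = d a b := by
  obtain ⟨x, x0, hx, hx'⟩ := h.ex_geod a b
  have n0 := h.nonneg a b
  obtain ⟨n, hn⟩ : ∃ n : ℕ, d a b = n := ⟨(d a b).toNat, by omega⟩
  have xn : x n = b := by
    obtain ⟨b1, e1⟩ := hx n hn.ge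
    apply h.eq_of
    simp only [Bt] at b1
    omega
  have := h'.geod (fun i => q (x i)) n (fun i hi => adj _ _ (hx' i (by omega))) (by
    intro i hi
    obtain ⟨b1, e1⟩ := hx i (by omega)
    obtain ⟨b2, e2⟩ := hx (i + 1) (by push_cast; omega)
    obtain ⟨b3, e3⟩ := hx (i + 2) (by push_cast; omega)
    refine (nf _ _ _ b1 b2 b3 (hx' i (by omega)) (hx' (i + 1) (by push_cast; omega)) ?_).symm
    intro e'
    rw [e', e3] at e1
    push_cast at e1
    omega)
  simp only [x0, xn] at this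
  rw [this, hn]

theorem Tr.cobound {B : Type*} [AddCommGroup B] (h : Tr d) (a : V → V → B)
    (anti : ∀ x y, d x y = 1 → a x y = -a y x) :
    ∃ l : V → B, ∀ x y, d x y = 1 → a x y = l y - l x := by
  rcases isEmpty_or_nonempty V with hV | ⟨⟨o⟩⟩
  · exact ⟨fun _ => 0, fun x => isEmptyElim x⟩
  choose p p0 hp hp' using h.ex_geod o
  let l : V → B := fun y => ∑ i ∈ Finset.range (d o y).toNat, a (p y i) (p y (i + 1))
  have key : ∀ x y, d x y = 1 → d o y = d o x + 1 → a x y = l y - l x := by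
    intro x y e c
    have n0 := h.nonneg o x
    obtain ⟨n, hn⟩ : ∃ n : ℕ, d o x = n := ⟨(d o x).toNat, by omega⟩
    have bx : Bt d o x y := by simp only [Bt]; omega
    have ag : ∀ i, i ≤ n → p y i = p x i := by
      intro i hi
      obtain ⟨b1, e1⟩ := hp y i (by omega)
      obtain ⟨b2, e2⟩ := hp x i (by omega)
      exact h.bt_uniq b1 (h.bt_trans b2 bx).1 (e1.trans e2.symm)
    have e1 : p y n = x := by
      obtain ⟨b1, e1⟩ := hp y n (by omega)
      exact h.bt_uniq b1 bx (e1.trans hn.symm)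
    have e2 : p y (n + 1) = y := by
      obtain ⟨b1, e1⟩ := hp y (n + 1) (by push_cast; omega)
      exact h.bt_uniq b1 (h.bt_right o y) (by rw [e1]; push_cast; omega)
    have t1 : (d o y).toNat = n + 1 := by omega
    have t2 : (d o x).toNat = n := by omega
    simp only [l, t1, t2, Finset.sum_range_succ, e1, e2]
    rw [Finset.sum_congr rfl fun i hi => by
      rw [ag i (by have := Finset.mem_range.1 hi; omega),
        ag (i + 1) (by have := Finset.mem_range.1 hi; omega)]]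
    abel
  refine ⟨l, fun x y e => ?_⟩
  rcases h.adj_cases e o with c | c
  · exact key x y e c
  · rw [anti x y e, key y x (by rw [h.symm]; exact e) c]
    abel

theorem FinE.vert {G : Type*} [Group G] [MulAction G V] (h : ZTree G d) (f : FinE G d) :
    ∃ W : Finset V, ∀ v, ∃ g : G, g • v ∈ W := by
  classical
  obtain ⟨E, hE⟩ := f
  obtain ⟨o⟩ := h.act.ne
  refine ⟨insert o (E.image Prod.fst), fun v => ?_⟩
  by_cases hv : ∃ w, d v w = 1
  · obtain ⟨w, hw⟩ := hv
    obtain ⟨g, hg⟩ := hE v w hw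
    exact ⟨g, Finset.mem_insert_of_mem (Finset.mem_image.2 ⟨_, hg, rfl⟩)⟩
  · have : o = v := h.act.tr.ind_adj (P := fun y => y = v) (x := v) rfl
      (fun a b e ha => absurd ⟨b, ha ▸ e⟩ hv) o
    exact ⟨1, by simp [this]⟩

theorem FinE.nbr {G : Type*} [Group G] [MulAction G V] (h : ZTree G d) (f : FinE G d) (v : V) :
    ∃ W : Finset V, (∀ w ∈ W, d v w = 1) ∧
      (∀ w ∈ W, ∀ w' ∈ W, ∀ g : G, g • v = v → g • w = w' → w = w') ∧
      ∀ w, d v w = 1 → ∃ g : G, g • v = v ∧ g • w ∈ W := by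
  classical
  obtain ⟨E, hE⟩ := f
  let s : Setoid {w // d v w = 1} :=
    ⟨fun w w' => ∃ g : G, g • v = v ∧ g • w.1 = w'.1,
      ⟨fun w => ⟨1, by simp, by simp⟩,
        fun ⟨g, a, b⟩ => ⟨g⁻¹, by rw [inv_smul_eq_iff, a], by rw [inv_smul_eq_iff, b]⟩,
        fun ⟨g, a, b⟩ ⟨g', a', b'⟩ =>
          ⟨g' * g, by rw [mul_smul, a, a'], by rw [mul_smul, b, b']⟩⟩⟩
  choose γ hγ using fun w : {w // d v w = 1} => hE v w.1 w.2
  have fin : Finite (Quotient s) := by
    refine Finite.of_injective (β := E) (fun q => ⟨_, hγ q.out⟩) ?_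
    intro q q' e
    simp only [Subtype.mk.injEq, Prod.mk.injEq] at e
    refine Quotient.out_equiv_out.1 ⟨(γ q'.out)⁻¹ * γ q.out, ?_, ?_⟩
    · rw [mul_smul, e.1, inv_smul_smul]
    · rw [mul_smul, e.2, inv_smul_smul]
  have := Fintype.ofFinite (Quotient s)
  refine ⟨Finset.univ.image fun q : Quotient s => q.out.1, ?_, ?_, ?_⟩
  · intro w hw
    obtain ⟨q, -, rfl⟩ := Finset.mem_image.1 hw
    exact q.out.2
  · intro w hw w' hw' g a b
    obtain ⟨q, -, rfl⟩ := Finset.mem_image.1 hw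
    obtain ⟨q', -, rfl⟩ := Finset.mem_image.1 hw'
    have e : q = q' := Quotient.out_equiv_out.1 ⟨g, a, b⟩
    rw [e]
  · intro w hw
    obtain ⟨g, a, b⟩ : s.r ⟨w, hw⟩ (Quotient.mk s ⟨w, hw⟩).out :=
      s.symm (Quotient.mk_out (s := s) ⟨w, hw⟩)
    exact ⟨g, a, Finset.mem_image.2 ⟨_, Finset.mem_univ _, b.symm⟩⟩

/-- the incidence graph of a family of convex sets that meet in at most one point -/
theorem bip_tree {Λ : Type*} [AddCommGroup Λ] [LinearOrder Λ] [IsOrderedAddMonoid Λ] {X C : Type*}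
    {d : X → X → Λ} (h : Tr d) (Y : C → Set X) (ne : ∀ c, (Y c).Nonempty)
    (conv : ∀ c, ∀ a ∈ Y c, ∀ b ∈ Y c, ∀ p, Bt d a p b → p ∈ Y c)
    (one : ∀ c c', c ≠ c' → ∀ a b, a ∈ Y c → a ∈ Y c' → b ∈ Y c → b ∈ Y c' → a = b)
    (conn : ∀ x y, Relation.ReflTransGen (fun a b => ∃ c, a ∈ Y c ∧ b ∈ Y c) x y) :
    ∃ D : X ⊕ C → X ⊕ C → ℤ, Tr D ∧
      (∀ a b, D a b = 1 ↔ ∃ x c, x ∈ Y c ∧
        ((a = Sum.inl x ∧ b = Sum.inr c) ∨ (a = Sum.inr c ∧ b = Sum.inl x))) ∧
      ∀ (φ : X → X) (ψ : C → C), Function.Bijective φ → Function.Bijective ψ →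
        (∀ x c, φ x ∈ Y (ψ c) ↔ x ∈ Y c) →
        ∀ a b, D (Sum.map φ ψ a) (Sum.map φ ψ b) = D a b := by
  let adj : X ⊕ C → X ⊕ C → Prop := fun a b => ∃ x c, x ∈ Y c ∧
    ((a = Sum.inl x ∧ b = Sum.inr c) ∨ (a = Sum.inr c ∧ b = Sum.inl x))
  have sy : ∀ a b, adj a b → adj b a := by
    rintro a b ⟨x, c, m, e | e⟩
    · exact ⟨x, c, m, Or.inr ⟨e.2, e.1⟩⟩
    · exact ⟨x, c, m, Or.inl ⟨e.2, e.1⟩⟩
  have a1 : ∀ x c, x ∈ Y c → adj (Sum.inl x) (Sum.inr c) :=
    fun x c m => ⟨x, c, m, Or.inl ⟨rfl, rfl⟩⟩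
  have c1 : ∀ x y, Relation.ReflTransGen adj (Sum.inl x) (Sum.inl y) := by
    intro x y
    induction conn x y with
    | refl => exact .refl
    | tail _ e ih =>
      obtain ⟨c, m1, m2⟩ := e
      exact (ih.tail (a1 _ c m1)).tail (sy _ _ (a1 _ c m2))
  have c2 : ∀ x b, Relation.ReflTransGen adj (Sum.inl x) b := by
    rintro x (y | c)
    · exact c1 x y
    · obtain ⟨y, hy⟩ := ne c
      exact (c1 x y).tail (a1 y c hy)
  have c3 : ∀ a b, Relation.ReflTransGen adj a b := by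
    rintro (x | c) b
    · exact c2 x b
    · obtain ⟨y, hy⟩ := ne c
      exact Relation.ReflTransGen.head (sy _ _ (a1 y c hy)) (c2 y b)
  have side : ∀ x₀ c₀, x₀ ∈ Y c₀ → ∃ S : X ⊕ C → Prop, S (Sum.inr c₀) ∧ ¬ S (Sum.inl x₀) ∧
      ∀ x c, x ∈ Y c → (S (Sum.inl x) ↔ S (Sum.inr c)) ∨ (x = x₀ ∧ c = c₀) := by
    intro x₀ c₀ m₀
    let T : X → Prop := fun x => ∃ y ∈ Y c₀, y ≠ x₀ ∧ Bt d x₀ y x
    refine ⟨Sum.elim T fun c => c = c₀ ∨ ∃ x ∈ Y c, T x, Or.inl rfl, ?_, ?_⟩
    · rintro ⟨y, -, hy, b⟩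
      have := h.bt_le b
      rw [h.self] at this
      exact hy (h.eq_of (le_antisymm this (h.nonneg _ _))).symm
    · intro x c m
      by_cases hc : c = c₀
      · subst hc
        by_cases hx : x = x₀
        · exact Or.inr ⟨hx, rfl⟩
        · exact Or.inl ⟨fun _ => Or.inl rfl, fun _ => ⟨x, m, hx, h.bt_right _ _⟩⟩
      · refine Or.inl ⟨fun t => Or.inr ⟨x, m, t⟩, ?_⟩
        rintro (e | ⟨x', m', y, my, hy, b⟩)
        · exact absurd e hc
        obtain ⟨z, b1, b2, b3⟩ := h.med' x₀ x' x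
        have mz : z ∈ Y c := conv c _ m' _ m z b3
        rcases le_total (d x₀ y) (d x₀ z) with hle | hle
        · exact ⟨y, my, hy, (h.bt_trans (h.bt_of_le b b1 hle).1 b2).1⟩
        · obtain ⟨k1, k2⟩ := h.bt_of_le b1 b hle
          have : z = y := one c c₀ hc z y mz (conv c₀ _ m₀ _ my z k1) (conv c _ mz _ m' y k2) my
          subst this
          exact ⟨z, my, hy, b2⟩
  obtain ⟨D, t, e1, e2⟩ := tr_of_walls adj sy c3 (by
    rintro a b ⟨x₀, c₀, m₀, ⟨rfl, rfl⟩ | ⟨rfl, rfl⟩⟩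
    · obtain ⟨S, s1, s2, s3⟩ := side x₀ c₀ m₀
      refine ⟨fun z => ¬ S z, s2, not_not.2 s1, ?_⟩
      rintro a b ⟨x, c, m, ⟨rfl, rfl⟩ | ⟨rfl, rfl⟩⟩
      · rcases s3 x c m with k | ⟨rfl, rfl⟩
        · exact Or.inl (not_congr k)
        · exact Or.inr (Or.inl ⟨rfl, rfl⟩)
      · rcases s3 x c m with k | ⟨rfl, rfl⟩
        · exact Or.inl (not_congr k.symm)
        · exact Or.inr (Or.inr ⟨rfl, rfl⟩)
    · obtain ⟨S, s1, s2, s3⟩ := side x₀ c₀ m₀
      refine ⟨S, s1, s2, ?_⟩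
      rintro a b ⟨x, c, m, ⟨rfl, rfl⟩ | ⟨rfl, rfl⟩⟩
      · rcases s3 x c m with k | ⟨rfl, rfl⟩
        · exact Or.inl k
        · exact Or.inr (Or.inr ⟨rfl, rfl⟩)
      · rcases s3 x c m with k | ⟨rfl, rfl⟩
        · exact Or.inl k.symm
        · exact Or.inr (Or.inl ⟨rfl, rfl⟩))
  refine ⟨D, t, e1, fun φ ψ hφ hψ hY => e2 _ (hφ.sumMap hψ) ?_⟩
  have k1 : ∀ x c, adj (Sum.inl x) (Sum.inr c) ↔ x ∈ Y c := by
    intro x c
    refine ⟨?_, a1 x c⟩
    rintro ⟨x', c', m, ⟨u, v⟩ | ⟨u, -⟩⟩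
    · cases u; cases v; exact m
    · cases u
  have k2 : ∀ x y, ¬ adj (Sum.inl x) (Sum.inl y) := by
    rintro x y ⟨x', c', -, ⟨-, v⟩ | ⟨u, -⟩⟩
    · cases v
    · cases u
  have k3 : ∀ x y, ¬ adj (Sum.inr x) (Sum.inr y) := by
    rintro x y ⟨x', c', -, ⟨u, -⟩ | ⟨-, v⟩⟩
    · cases u
    · cases v
  rintro (x | c) (y | c')
  · exact iff_of_false (k2 _ _) (k2 _ _)
  · exact (k1 _ _).trans ((hY _ _).trans (k1 _ _).symm)
  · exact ⟨fun e => sy _ _ ((k1 _ _).2 ((hY _ _).1 ((k1 _ _).1 (sy _ _ e)))),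
      fun e => sy _ _ ((k1 _ _).2 ((hY _ _).2 ((k1 _ _).1 (sy _ _ e))))⟩
  · exact iff_of_false (k3 _ _) (k3 _ _)

end Pool.Agent.Work.MP_904812_al
end

-- merged part: Pool.Agent.Work.MP_904812_al.QLa1
section
/-! Word length and the test function inequality. -/

namespace Pool.Agent.Work.MP_904812_al

set_option linter.unusedSectionVars false
set_option linter.unusedVariables false

open Subgroup MulAction

variable {G : Type*} [Group G] {S : Set G}

theorem QLa1_ex (hS : closure S = ⊤) (g : G) :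
    ∃ l : List G, (∀ s ∈ l, s ∈ S ∨ s⁻¹ ∈ S) ∧ l.prod = g := by
  have hg : g ∈ closure S := hS ▸ mem_top g
  induction hg using closure_induction with
  | mem x hx => exact ⟨[x], by simp [hx], by simp⟩
  | one => exact ⟨[], by simp, by simp⟩
  | mul x y _ _ hx hy =>
    obtain ⟨l, h1, h2⟩ := hx
    obtain ⟨m, h3, h4⟩ := hy
    refine ⟨l ++ m, fun s hs => ?_, by rw [List.prod_append, h2, h4]⟩
    rcases List.mem_append.1 hs with h | h
    · exact h1 s h
    · exact h3 s h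
  | inv x _ hx =>
    obtain ⟨l, h1, h2⟩ := hx
    refine ⟨(l.map (·⁻¹)).reverse, fun s hs => ?_, by rw [← List.prod_inv_reverse, h2]⟩
    obtain ⟨t, ht, rfl⟩ := List.mem_map.1 (List.mem_reverse.1 hs)
    rw [inv_inv]
    exact (h1 t ht).symm

theorem wlen_spec (hS : closure S = ⊤) (g : G) :
    ∃ l : List G, l.length = wlen S g ∧ (∀ s ∈ l, s ∈ S ∨ s⁻¹ ∈ S) ∧ l.prod = g := by
  obtain ⟨l, h1, h2⟩ := QLa1_ex hS g
  exact Nat.sInf_mem (s := {n | ∃ l : List G, l.length = n ∧ (∀ s ∈ l, s ∈ S ∨ s⁻¹ ∈ S) ∧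
    l.prod = g}) ⟨l.length, l, rfl, h1, h2⟩

theorem wlen_le {g : G} (l : List G) (h : ∀ s ∈ l, s ∈ S ∨ s⁻¹ ∈ S) (e : l.prod = g) :
    wlen S g ≤ l.length :=
  Nat.sInf_le ⟨l, rfl, h, e⟩

theorem wlen_one : wlen S (1 : G) = 0 :=
  Nat.le_zero.1 (wlen_le (S := S) [] (by simp) (by simp))

theorem wlen_mem {s : G} (h : s ∈ S) : wlen S s ≤ 1 :=
  wlen_le (S := S) [s] (by simp [h]) (by simp)

theorem wlen_eq_zero (hS : closure S = ⊤) {g : G} (h : wlen S g = 0) : g = 1 := by
  obtain ⟨l, h1, _, h3⟩ := wlen_spec hS g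
  rw [h, List.length_eq_zero_iff] at h1
  rw [← h3, h1, List.prod_nil]

theorem wlen_inv (g : G) : wlen S g⁻¹ = wlen S g := by
  have key : ∀ (g : G) (n : ℕ), (∃ l : List G, l.length = n ∧ (∀ s ∈ l, s ∈ S ∨ s⁻¹ ∈ S) ∧
      l.prod = g) → ∃ l : List G, l.length = n ∧ (∀ s ∈ l, s ∈ S ∨ s⁻¹ ∈ S) ∧ l.prod = g⁻¹ := by
    rintro g n ⟨l, h0, h1, h2⟩
    refine ⟨(l.map (·⁻¹)).reverse, by simp [h0], fun s hs => ?_,
      by rw [← List.prod_inv_reverse, h2]⟩
    obtain ⟨t, ht, rfl⟩ := List.mem_map.1 (List.mem_reverse.1 hs)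
    rw [inv_inv]
    exact (h1 t ht).symm
  unfold wlen
  congr 1
  ext n
  constructor
  · intro h
    have := key _ n h
    rwa [inv_inv] at this
  · exact key g n

theorem wlen_mul (hS : closure S = ⊤) (g h : G) : wlen S (g * h) ≤ wlen S g + wlen S h := by
  obtain ⟨l, h0, h1, h2⟩ := wlen_spec hS g
  obtain ⟨m, h5, h3, h4⟩ := wlen_spec hS h
  rw [← h0, ← h5, ← List.length_append]
  refine wlen_le _ (fun s hs => ?_) (by rw [List.prod_append, h2, h4])
  rcases List.mem_append.1 hs with h | h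
  · exact h1 s h
  · exact h3 s h

theorem wlen_le_one (hS : closure S = ⊤) {g : G} (h : wlen S g ≤ 1) :
    g = 1 ∨ g ∈ S ∨ g⁻¹ ∈ S := by
  obtain ⟨l, h0, h1, h2⟩ := wlen_spec hS g
  rw [← h0] at h
  match l, h, h1, h2 with
  | [], _, _, h2 => exact Or.inl (by rw [← h2, List.prod_nil])
  | [s], _, h1, h2 =>
    have : s = g := by simpa using h2
    exact Or.inr (this ▸ h1 s (by simp))
  | _ :: _ :: _, h, _, _ => simp at h

theorem ball_finite (S : Finset G) (hS : closure (S : Set G) = ⊤) (n : ℕ) :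
    {g : G | wlen (S : Set G) g ≤ n}.Finite := by
  induction n with
  | zero =>
    refine (Set.finite_singleton (1 : G)).subset fun g hg => ?_
    exact wlen_eq_zero hS (Nat.le_zero.1 hg)
  | succ n ih =>
    have hf : ((S : Set G) ∪ (S : Set G)⁻¹).Finite :=
      S.finite_toSet.union S.finite_toSet.inv
    refine ((Set.finite_singleton (1 : G)).union (hf.image2 (· * ·) ih)).subset fun g hg => ?_
    obtain ⟨l, h0, h1, h2⟩ := wlen_spec hS g
    match l, h0, h1, h2 with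
    | [], _, _, h2 => exact Or.inl (by rw [← h2, List.prod_nil]; rfl)
    | s :: m, h0, h1, h2 =>
      refine Or.inr ⟨s, h1 s (by simp), m.prod, ?_, by rw [← h2, List.prod_cons]⟩
      have h3 := wlen_le (S := (S : Set G)) m (fun t ht => h1 t (by simp [ht])) rfl
      have h4 : wlen (S : Set G) g ≤ n + 1 := hg
      simp only [List.length_cons] at h0
      show wlen (S : Set G) m.prod ≤ n
      omega

/-- geodesics -/
theorem wlen_geod (hS : closure S = ⊤) (x y : G) : ∃ γ : ℕ → G, γ 0 = x ∧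
    γ (wlen S (x⁻¹ * y)) = y ∧
    ∀ i j, i ≤ j → j ≤ wlen S (x⁻¹ * y) → wlen S ((γ i)⁻¹ * γ j) = j - i := by
  obtain ⟨l, h0, h1, h2⟩ := wlen_spec hS (x⁻¹ * y)
  refine ⟨fun i => x * (l.take i).prod, by simp, ?_, fun i j hij hj => ?_⟩
  · simp only [← h0, List.take_length, h2, mul_inv_cancel_left]
  · have e1 : (l.take j).prod = (l.take i).prod * ((l.take j).drop i).prod := by
      conv_lhs => rw [← List.take_append_drop i (l.take j), List.prod_append, List.take_take,
        min_eq_left hij]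
    have e2 : (x * (l.take i).prod)⁻¹ * (x * (l.take j).prod) = ((l.take j).drop i).prod := by
      rw [e1]; group
    have e3 : x⁻¹ * y = (l.take i).prod * ((l.take j).drop i).prod * (l.drop j).prod := by
      rw [← e1, ← List.prod_append, List.take_append_drop, h2]
    have a1 := wlen_le (S := S) (l.take i) (fun s hs => h1 s (List.mem_of_mem_take hs)) rfl
    have a2 := wlen_le (S := S) ((l.take j).drop i)
      (fun s hs => h1 s (List.mem_of_mem_take (List.mem_of_mem_drop hs))) rfl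
    have a3 := wlen_le (S := S) (l.drop j) (fun s hs => h1 s (List.mem_of_mem_drop hs)) rfl
    have a4 := wlen_mul hS ((l.take i).prod * ((l.take j).drop i).prod) (l.drop j).prod
    have a5 := wlen_mul hS (l.take i).prod ((l.take j).drop i).prod
    rw [← e3] at a4
    simp only [List.length_take, List.length_drop] at a1 a2 a3
    show wlen S ((x * (l.take i).prod)⁻¹ * (x * (l.take j).prod)) = j - i
    rw [e2]
    omega

theorem QLa1_symm (x y : G) : wlen S (x⁻¹ * y) = wlen S (y⁻¹ * x) := by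
  rw [← wlen_inv]; congr 1; group

theorem QLa1_tri (hS : closure S = ⊤) (x y z : G) :
    wlen S (x⁻¹ * z) ≤ wlen S (x⁻¹ * y) + wlen S (y⁻¹ * z) := by
  have := wlen_mul hS (x⁻¹ * y) (y⁻¹ * z)
  rwa [show x⁻¹ * y * (y⁻¹ * z) = x⁻¹ * z by group] at this

/-- truncated distance to a set -/
noncomputable def QLa1_tau (S : Set G) (K : ℕ) (A : G → Prop) (x : G) : ℕ :=
  sInf {m | m = K ∨ ∃ y, A y ∧ m = wlen S (x⁻¹ * y)}

theorem QLa1_tau_le (K : ℕ) (A : G → Prop) (x : G) : QLa1_tau S K A x ≤ K :=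
  Nat.sInf_le (Or.inl rfl)

theorem QLa1_tau_mem {K : ℕ} {A : G → Prop} (x : G) {y : G} (h : A y) :
    QLa1_tau S K A x ≤ wlen S (x⁻¹ * y) :=
  Nat.sInf_le (Or.inr ⟨y, h, rfl⟩)

theorem QLa1_tau_spec (K : ℕ) (A : G → Prop) (x : G) :
    QLa1_tau S K A x = K ∨ ∃ y, A y ∧ QLa1_tau S K A x = wlen S (x⁻¹ * y) :=
  Nat.sInf_mem (s := {m | m = K ∨ ∃ y, A y ∧ m = wlen S (x⁻¹ * y)}) ⟨K, Or.inl rfl⟩

theorem QLa1_tau_lip (hS : closure S = ⊤) (K : ℕ) (A : G → Prop) (x y : G) :
    QLa1_tau S K A x ≤ QLa1_tau S K A y + wlen S (x⁻¹ * y) := by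
  rcases QLa1_tau_spec (S := S) K A y with h | ⟨z, hz, h⟩
  · have := QLa1_tau_le (S := S) K A x
    omega
  · have h1 := QLa1_tau_mem (S := S) (K := K) x hz
    have h2 := QLa1_tri hS x y z
    omega

theorem QLa1_tau_mono (K : ℕ) {A B : G → Prop} (h : ∀ y, A y → B y) (x : G) :
    QLa1_tau S K B x ≤ QLa1_tau S K A x := by
  rcases QLa1_tau_spec (S := S) K A x with h1 | ⟨z, hz, h1⟩
  · rw [h1]; exact QLa1_tau_le _ _ _
  · rw [h1]; exact QLa1_tau_mem x (h z hz)

/-- the Voronoi test functions -/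
noncomputable def QLa1_F {J : Type} (S : Set G) (K : ℕ) (A : J → G → Prop) (j : J) (x : G) : ℕ :=
  QLa1_tau S K (fun y => ∃ j', j' ≠ j ∧ A j' y) x - QLa1_tau S K (A j) x

theorem QLa1_F_le {J : Type} (K : ℕ) (A : J → G → Prop) (j : J) (x : G) :
    QLa1_F S K A j x ≤ K :=
  (Nat.sub_le _ _).trans (QLa1_tau_le _ _ _)

theorem QLa1_F_lip (hS : closure S = ⊤) {J : Type} (K : ℕ) (A : J → G → Prop) (j : J) (x y : G) :
    QLa1_F S K A j x ≤ QLa1_F S K A j y + 2 * wlen S (x⁻¹ * y) := by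
  have h1 := QLa1_tau_lip hS K (fun y => ∃ j', j' ≠ j ∧ A j' y) x y
  have h2 := QLa1_tau_lip hS K (A j) y x
  rw [QLa1_symm y x] at h2
  unfold QLa1_F
  omega

theorem QLa1_F_uniq {J : Type} (K : ℕ) (A : J → G → Prop) (x : G) (j j' : J)
    (h : 0 < QLa1_F S K A j x) (h' : 0 < QLa1_F S K A j' x) : j = j' := by
  by_contra hne
  have h1 := QLa1_tau_mono (S := S) K (A := A j') (B := fun y => ∃ i, i ≠ j ∧ A i y)
    (fun y hy => ⟨j', fun e => hne e.symm, hy⟩) x
  have h2 := QLa1_tau_mono (S := S) K (A := A j) (B := fun y => ∃ i, i ≠ j' ∧ A i y)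
    (fun y hy => ⟨j, hne, hy⟩) x
  unfold QLa1_F at h h'
  omega

theorem QLa1_F_other {J : Type} (K : ℕ) (A : J → G → Prop) {x : G} {j j' : J} (h : A j x)
    (hne : j ≠ j') : QLa1_F S K A j' x = 0 := by
  have := QLa1_tau_mem (S := S) (K := K) (A := fun y => ∃ i, i ≠ j' ∧ A i y) x ⟨j, hne, h⟩
  rw [inv_mul_cancel, wlen_one] at this
  unfold QLa1_F
  omega

theorem QLa1_F_good {J : Type} (K : ℕ) (A : J → G → Prop) {x : G} {j : J} (h : A j x)
    (hg : ∀ j' y, j' ≠ j → A j' y → K < wlen S (x⁻¹ * y)) : QLa1_F S K A j x = K := by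
  have h1 := QLa1_tau_mem (S := S) (K := K) (A := A j) x h
  rw [inv_mul_cancel, wlen_one] at h1
  have h2 := QLa1_tau_le (S := S) K (fun y => ∃ i, i ≠ j ∧ A i y) x
  rcases QLa1_tau_spec (S := S) K (fun y => ∃ i, i ≠ j ∧ A i y) x with h3 | ⟨y, ⟨i, hi, hy⟩, h3⟩
  · unfold QLa1_F; omega
  · have := hg i y hi hy
    omega

theorem QLa1_one_sum {J : Type} (s : Finset J) (P : J → Prop) [DecidablePred P] (hP : ∀ i j, P i → P j → i = j)
    (c : ℝ) (hc : 0 ≤ c) : ∑ j ∈ s, (if P j then c else 0) ≤ c := by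
  rw [← Finset.sum_filter, Finset.sum_const, nsmul_eq_mul]
  have : (s.filter P).card ≤ 1 := Finset.card_le_one.2 fun a ha b hb =>
    hP a b (Finset.mem_filter.1 ha).2 (Finset.mem_filter.1 hb).2
  have h2 : ((s.filter P).card : ℝ) ≤ 1 := by exact_mod_cast this
  linarith only [hc, h2, mul_nonneg_of_nonpos_of_nonpos (Mathlib.Tactic.Linarith.sub_nonpos_of_le hc) (Mathlib.Tactic.Linarith.sub_nonpos_of_le h2)]

theorem QLa1_sum_F {J : Type} (K : ℕ) (A : J → G → Prop) (s : Finset J) (x : G) (c : ℕ)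
    (hc : ∀ j ∈ s, QLa1_F S K A j x ≤ c) : ∑ j ∈ s, (QLa1_F S K A j x : ℝ) ≤ c := by
  classical
  refine le_trans (Finset.sum_le_sum fun j hj => ?_)
    (QLa1_one_sum s (fun j => 0 < QLa1_F S K A j x) (QLa1_F_uniq K A x) c (Nat.cast_nonneg _))
  split_ifs with h
  · exact_mod_cast hc j hj
  · have : QLa1_F S K A j x = 0 := by omega
    rw [this]; simp

theorem QLa1_sum_diff (hS : closure S = ⊤) {J : Type} (K : ℕ) (A : J → G → Prop) (s : Finset J)
    (x y : G) : ∑ j ∈ s, |(QLa1_F S K A j y : ℝ) - QLa1_F S K A j x| ≤ 4 * wlen S (x⁻¹ * y) := by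
  classical
  have h0 : (0 : ℝ) ≤ 2 * wlen S (x⁻¹ * y) := by positivity
  have h1 := QLa1_one_sum s (fun j => 0 < QLa1_F S K A j x) (QLa1_F_uniq K A x) _ h0
  have h2 := QLa1_one_sum s (fun j => 0 < QLa1_F S K A j y) (QLa1_F_uniq K A y) _ h0
  refine le_trans (Finset.sum_le_sum (g := fun j =>
    (if 0 < QLa1_F S K A j x then (2 * wlen S (x⁻¹ * y) : ℝ) else 0) +
    (if 0 < QLa1_F S K A j y then (2 * wlen S (x⁻¹ * y) : ℝ) else 0)) fun j hj => ?_) ?_
  · have a1 := QLa1_F_lip hS K A j x y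
    have a2 := QLa1_F_lip hS K A j y x
    rw [QLa1_symm y x] at a2
    have b1 : (QLa1_F S K A j x : ℝ) ≤ QLa1_F S K A j y + 2 * wlen S (x⁻¹ * y) := by
      exact_mod_cast a1
    have b2 : (QLa1_F S K A j y : ℝ) ≤ QLa1_F S K A j x + 2 * wlen S (x⁻¹ * y) := by
      exact_mod_cast a2
    have b3 : |(QLa1_F S K A j y : ℝ) - QLa1_F S K A j x| ≤ 2 * wlen S (x⁻¹ * y) :=
      abs_le.2 ⟨by linarith only [b1], by linarith only [b2]⟩
    split_ifs with c1 c2 c2
    · linarith only [b3]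
    · linarith only [b3]
    · linarith only [b3]
    · have d1 : QLa1_F S K A j x = 0 := by omega
      have d2 : QLa1_F S K A j y = 0 := by omega
      rw [d1, d2]; simp
  · rw [Finset.sum_add_distrib]
    linarith only [h1, h2]

/-- the test cochain -/
noncomputable def QLa1_om {J : Type} (S : Set G) (K : ℕ) (A : J → G → Prop) (s : Finset J)
    (h : J → G → ℝ) (x y : G) : ℝ :=
  ∑ j ∈ s, ((QLa1_F S K A j x : ℝ) + QLa1_F S K A j y) / 2 * (h j y - h j x)

theorem QLa1_om_anti {J : Type} (K : ℕ) (A : J → G → Prop) (s : Finset J)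
    (h : J → G → ℝ) (x y : G) : QLa1_om S K A s h x y = -QLa1_om S K A s h y x := by
  unfold QLa1_om
  rw [← Finset.sum_neg_distrib]
  exact Finset.sum_congr rfl fun j _ => by ring

theorem QLa1_om_cob (hS : closure S = ⊤) {J : Type} (K : ℕ) (A : J → G → Prop) (s : Finset J)
    (h : J → G → ℝ) (L : ℕ) (hL : ∀ j x y, |h j x - h j y| ≤ L * wlen S (x⁻¹ * y)) (ρ : ℕ)
    (x y z : G) (hy : wlen S (x⁻¹ * y) ≤ ρ) (hz : wlen S (x⁻¹ * z) ≤ ρ) :
    |QLa1_om S K A s h x y + QLa1_om S K A s h y z + QLa1_om S K A s h z x| ≤ 4 * L * ρ ^ 2 := by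
  have hy' : (wlen S (x⁻¹ * y) : ℝ) ≤ ρ := by exact_mod_cast hy
  have hz' : (wlen S (x⁻¹ * z) : ℝ) ≤ ρ := by exact_mod_cast hz
  have hL0 : (0 : ℝ) ≤ L := Nat.cast_nonneg _
  have hρ : (0 : ℝ) ≤ ρ := Nat.cast_nonneg _
  unfold QLa1_om
  rw [← Finset.sum_add_distrib, ← Finset.sum_add_distrib]
  refine le_trans (Finset.abs_sum_le_sum_abs _ _) ?_
  refine le_trans (Finset.sum_le_sum (g := fun j =>
    |(QLa1_F S K A j y : ℝ) - QLa1_F S K A j x| * (L * ρ / 2) +
    |(QLa1_F S K A j z : ℝ) - QLa1_F S K A j x| * (L * ρ / 2)) fun j hj => ?_) ?_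
  · have e : ((QLa1_F S K A j x : ℝ) + QLa1_F S K A j y) / 2 * (h j y - h j x) +
        ((QLa1_F S K A j y : ℝ) + QLa1_F S K A j z) / 2 * (h j z - h j y) +
        ((QLa1_F S K A j z : ℝ) + QLa1_F S K A j x) / 2 * (h j x - h j z) =
        ((QLa1_F S K A j y : ℝ) - QLa1_F S K A j x) * (-(h j x - h j z) / 2) +
        ((QLa1_F S K A j z : ℝ) - QLa1_F S K A j x) * ((h j x - h j y) / 2) := by ring
    rw [e]
    refine le_trans (abs_add_le _ _) (add_le_add ?_ ?_)
    · rw [abs_mul]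
      refine mul_le_mul_of_nonneg_left ?_ (abs_nonneg _)
      rw [abs_div, abs_neg, abs_two]
      have := hL j x z
      have := mul_le_mul_of_nonneg_left hz' hL0
      linarith
    · rw [abs_mul]
      refine mul_le_mul_of_nonneg_left ?_ (abs_nonneg _)
      rw [abs_div, abs_two]
      have := hL j x y
      have := mul_le_mul_of_nonneg_left hy' hL0
      linarith
  · rw [Finset.sum_add_distrib, ← Finset.sum_mul, ← Finset.sum_mul]
    have h1 := QLa1_sum_diff hS K A s x y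
    have h2 := QLa1_sum_diff hS K A s x z
    have h3 : (0 : ℝ) ≤ L * ρ / 2 := by positivity
    have h4 := mul_le_mul_of_nonneg_right (h1.trans (mul_le_mul_of_nonneg_left hy' (by norm_num))) h3
    have h5 := mul_le_mul_of_nonneg_right (h2.trans (mul_le_mul_of_nonneg_left hz' (by norm_num))) h3
    linarith only [h4, h5]

theorem QLa1_om_abs {J : Type} (K : ℕ) (A : J → G → Prop) (s : Finset J)
    (h : J → G → ℝ) (x y : G) (c : ℝ) (hc0 : 0 ≤ c) (hc : ∀ j, |h j y - h j x| ≤ c) :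
    |QLa1_om S K A s h x y| ≤ K * c := by
  unfold QLa1_om
  refine le_trans (Finset.abs_sum_le_sum_abs _ _) ?_
  refine le_trans (Finset.sum_le_sum (g := fun j =>
    (QLa1_F S K A j x : ℝ) * (c / 2) + QLa1_F S K A j y * (c / 2)) fun j hj => ?_) ?_
  · have h0 : (0 : ℝ) ≤ ((QLa1_F S K A j x : ℝ) + QLa1_F S K A j y) / 2 := by positivity
    rw [abs_mul, abs_of_nonneg h0]
    have := mul_le_mul_of_nonneg_left (hc j) h0
    linarith only [this]
  · rw [Finset.sum_add_distrib, ← Finset.sum_mul, ← Finset.sum_mul]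
    have h1 := QLa1_sum_F (S := S) K A s x K (fun j _ => QLa1_F_le K A j x)
    have h2 := QLa1_sum_F (S := S) K A s y K (fun j _ => QLa1_F_le K A j y)
    have h3 : 0 ≤ c / 2 := by linarith
    have h4 := mul_le_mul_of_nonneg_right h1 h3
    have h5 := mul_le_mul_of_nonneg_right h2 h3
    linarith only [h4, h5]

theorem QLa1_om_lab (hS : closure S = ⊤) {J : Type} (K : ℕ) (A : J → G → Prop) (s : Finset J)
    (h : J → G → ℝ) (L : ℕ) (hL : ∀ j x y, |h j x - h j y| ≤ L * wlen S (x⁻¹ * y))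
    (x y : G) (j : J) (hj : j ∈ s) (hx : A j x) (hxy : wlen S (x⁻¹ * y) ≤ 1)
    (h1 : h j y - h j x = 1) : (QLa1_F S K A j x : ℝ) / 2 - L ≤ QLa1_om S K A s h x y := by
  classical
  unfold QLa1_om
  rw [← Finset.add_sum_erase _ _ hj, h1]
  have hL0 : (0 : ℝ) ≤ L := Nat.cast_nonneg _
  have a1 := QLa1_sum_F (S := S) K A (s.erase j) y 2 (fun i hi => by
    have b1 := QLa1_F_lip hS K A i y x
    rw [QLa1_F_other K A hx (Finset.ne_of_mem_erase hi).symm, QLa1_symm y x] at b1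
    omega)
  have a2 : -(∑ i ∈ s.erase j, (QLa1_F S K A i y : ℝ)) * (L / 2) ≤
      ∑ i ∈ s.erase j, ((QLa1_F S K A i x : ℝ) + QLa1_F S K A i y) / 2 * (h i y - h i x) := by
    rw [neg_mul, Finset.sum_mul, ← Finset.sum_neg_distrib]
    refine Finset.sum_le_sum fun i hi => ?_
    rw [QLa1_F_other K A hx (Finset.ne_of_mem_erase hi).symm]
    have b1 := hL i x y
    have b2 : (wlen S (x⁻¹ * y) : ℝ) ≤ 1 := by exact_mod_cast hxy
    have b3 := mul_le_mul_of_nonneg_left b2 hL0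
    have b4 := (abs_le.1 b1).2
    have b5 : (0 : ℝ) ≤ QLa1_F S K A i y := Nat.cast_nonneg _
    have b6 : -(L : ℝ) ≤ h i y - h i x := by linarith only [b3, b4]
    have b7 := mul_le_mul_of_nonneg_left b6 b5
    simp only [Nat.cast_zero, zero_add]
    linarith only [b7]
  have a3 : (0 : ℝ) ≤ QLa1_F S K A j y := Nat.cast_nonneg _
  have a4 := mul_le_mul_of_nonneg_right a1 (show (0 : ℝ) ≤ L / 2 by linarith)
  push_cast at a4
  linarith

theorem QLa1_lip (hS : closure S = ⊤) (P : G → ℝ) (c : ℝ)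
    (hP : ∀ x y, wlen S (x⁻¹ * y) ≤ 1 → |P y - P x| ≤ c) (x y : G) :
    |P y - P x| ≤ c * wlen S (x⁻¹ * y) := by
  obtain ⟨γ, h0, h1, h2⟩ := wlen_geod hS x y
  have : ∀ i, i ≤ wlen S (x⁻¹ * y) → |P (γ i) - P x| ≤ c * i := by
    intro i
    induction i with
    | zero => intro _; simp [h0]
    | succ i ih =>
      intro hi
      have a1 := ih (by omega)
      have a2 := hP (γ i) (γ (i + 1)) (by rw [h2 i (i + 1) (by omega) hi]; omega)
      have a3 := abs_sub_le (P (γ (i + 1))) (P (γ i)) (P x)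
      push_cast
      linarith only [a1, a2, a3]
  have := this _ le_rfl
  rwa [h1] at this

open Classical in
theorem poly0 (la : LA G) (S : Finset G) (hS : closure (S : Set G) = ⊤) (L : ℕ) :
    ∃ k A : ℕ, ∀ (J : Type) (n : ℕ) (γ : ℕ → G) (lab : ℕ → Option J) (h : J → G → ℝ),
      γ n = γ 0 → (∀ j x y, |h j x - h j y| ≤ L * wlen (S : Set G) (x⁻¹ * y)) →
      (∀ t, t < n → ∀ j, lab t = some j →
        wlen (S : Set G) ((γ t)⁻¹ * γ (t + 1)) ≤ 1 ∧ h j (γ (t + 1)) - h j (γ t) = 1) →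
      ((Finset.range n).filter fun t => lab t ≠ none).card ≤
        2 * ((Finset.range n).filter fun t => ∃ j, lab t = some j ∧ ∃ t', t' < n ∧ ∃ j',
          lab t' = some j' ∧ j' ≠ j ∧ wlen (S : Set G) ((γ t)⁻¹ * γ t') ≤ k).card +
        A * ∑ t ∈ (Finset.range n).filter fun t => lab t = none,
          wlen (S : Set G) ((γ t)⁻¹ * γ (t + 1)) := by
  obtain ⟨R, C, hC⟩ := la S
  set ρ : ℕ := R.sup (wlen (S : Set G)) with hρ
  set M : ℝ := 4 * L * (ρ : ℝ) ^ 2 + 1 with hM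
  have hM0 : 0 < M := by positivity
  obtain ⟨E, hE⟩ : ∃ E : ℕ, C * M ≤ E := exists_nat_ge _
  refine ⟨4 * (L + E) + 2, E + (4 * (L + E) + 2) * L, fun J n γ lab h hγ hL hlab => ?_⟩
  set K : ℕ := 4 * (L + E) + 2 with hK
  set A : J → G → Prop := fun j x => ∃ t, t < n ∧ lab t = some j ∧ γ t = x with hA
  set s : Finset J := (Finset.range n).biUnion fun t => (lab t).toFinset with hs
  set ω : G → G → ℝ := QLa1_om (S : Set G) K A s h with hω
  have hanti : ∀ x y, ω x y = -ω y x := QLa1_om_anti K A s h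
  obtain ⟨p, hp⟩ := hC (fun x y => ω x y / M) ⟨fun x y => by beta_reduce; rw [hanti x y]; ring, fun x a ha b hb => by
    have h1 := QLa1_om_cob hS K A s h L hL ρ x (x * a) (x * b)
      (by rw [inv_mul_cancel_left]; exact Finset.le_sup (f := wlen (S : Set G)) ha)
      (by rw [inv_mul_cancel_left]; exact Finset.le_sup (f := wlen (S : Set G)) hb)
    beta_reduce
    rw [← add_div, ← add_div, abs_div, abs_of_pos hM0, div_le_one hM0]
    linarith only [h1]⟩
  set P : G → ℝ := fun x => M * p x with hP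
  have hE0 : (0 : ℝ) ≤ E := Nat.cast_nonneg _
  have hL0 : (0 : ℝ) ≤ L := Nat.cast_nonneg _
  have k1 : ∀ x, ∀ a ∈ S, |ω x (x * a) - (P (x * a) - P x)| ≤ E := by
    intro x a ha
    have h1 := hp x a ha
    have e : ω x (x * a) - (P (x * a) - P x) = M * (ω x (x * a) / M - (p (x * a) - p x)) := by
      simp only [hP]; field_simp
    rw [e, abs_mul, abs_of_pos hM0]
    have := mul_le_mul_of_nonneg_left h1 hM0.le
    linarith only [hE, this]
  have k2 : ∀ x y, wlen (S : Set G) (x⁻¹ * y) ≤ 1 → |ω x y - (P y - P x)| ≤ E := by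
    intro x y hxy
    rcases wlen_le_one hS hxy with h1 | h1 | h1
    · have e : y = x := by rw [inv_mul_eq_one] at h1; exact h1.symm
      have := hanti x x
      have h2 : ω x x = 0 := by linarith only [this]
      rw [e, h2]; simp
    · have := k1 x _ h1
      rwa [mul_inv_cancel_left] at this
    · have := k1 y _ h1
      rw [show y * (x⁻¹ * y)⁻¹ = x by group, hanti y x, ← abs_neg] at this
      convert this using 2
      ring
  have k3 : ∀ x y, |P y - P x| ≤ (E + K * L) * wlen (S : Set G) (x⁻¹ * y) := by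
    refine QLa1_lip hS P _ fun x y hxy => ?_
    have h1 := k2 x y hxy
    have h2 := QLa1_om_abs (S := (S : Set G)) K A s h x y L hL0 (fun j => by
      have a1 := hL j x y
      have a2 : (wlen (S : Set G) (x⁻¹ * y) : ℝ) ≤ 1 := by exact_mod_cast hxy
      have a3 := mul_le_mul_of_nonneg_left a2 hL0
      rw [abs_sub_comm]
      linarith only [a1, a3])
    have h3 := abs_le.1 h1
    have h4 := abs_le.1 h2
    exact abs_le.2 ⟨by linarith only [h3, h4], by linarith only [h3, h4]⟩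
  set W : ℝ := L + E + 1 with hW
  have hW1 : 1 ≤ W := by linarith
  set bad : ℕ → Prop := fun t => ∃ j, lab t = some j ∧ ∃ t', t' < n ∧ ∃ j',
          lab t' = some j' ∧ j' ≠ j ∧ wlen (S : Set G) ((γ t)⁻¹ * γ t') ≤ K with hbad
  have k4 : ∀ t ∈ Finset.range n, W * ((if lab t ≠ none then 1 else 0) - 2 * (if bad t then 1 else 0)
      - (E + K * L) * (if lab t = none then (wlen (S : Set G) ((γ t)⁻¹ * γ (t + 1)) : ℝ) else 0))
      ≤ P (γ (t + 1)) - P (γ t) := by
    intro t ht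
    have ht' := Finset.mem_range.1 ht
    rcases Option.eq_none_or_eq_some (lab t) with hl | ⟨j, hl⟩
    · have hb : ¬ bad t := by
        rintro ⟨j, hj, _⟩
        rw [hl] at hj; cases hj
      rw [if_neg hb, if_pos hl, if_neg (not_not.2 hl)]
      have h1 := (abs_le.1 (k3 (γ t) (γ (t + 1)))).1
      have h2 : (0 : ℝ) ≤ (E + K * L) * wlen (S : Set G) ((γ t)⁻¹ * γ (t + 1)) := by positivity
      linarith only [h1, h2, mul_nonneg_of_nonpos_of_nonpos (Mathlib.Tactic.Linarith.sub_nonpos_of_le (Mathlib.Tactic.Linarith.natCast_nonneg ℝ L)) (Mathlib.Tactic.Linarith.sub_nonpos_of_le h2), mul_nonneg_of_nonpos_of_nonpos (Mathlib.Tactic.Linarith.sub_nonpos_of_le (Mathlib.Tactic.Linarith.natCast_nonneg ℝ E)) (Mathlib.Tactic.Linarith.sub_nonpos_of_le h2)]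
    · obtain ⟨h1, h2⟩ := hlab t ht' j hl
      have hAx : A j (γ t) := ⟨t, ht', hl, rfl⟩
      have hjs : j ∈ s := Finset.mem_biUnion.2 ⟨t, ht, by simp [hl]⟩
      have h3 := QLa1_om_lab hS K A s h L hL (γ t) (γ (t + 1)) j hjs hAx h1 h2
      have h4 := (abs_le.1 (k2 _ _ h1)).2
      have hne : lab t ≠ none := by rw [hl]; exact Option.some_ne_none j
      rw [if_pos hne, if_neg hne, mul_zero, sub_zero]
      have h5 : (0 : ℝ) ≤ QLa1_F (S : Set G) K A j (γ t) := Nat.cast_nonneg _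
      split_ifs with hb
      · linarith
      · have h6 := QLa1_F_good (S := (S : Set G)) K A hAx (fun j' y hj' hy => by
          obtain ⟨t', a1, a2, rfl⟩ := hy
          by_contra hh
          exact hb ⟨j, hl, t', a1, j', a2, hj', not_lt.1 hh⟩)
        rw [h6] at h3
        have h7 : (K : ℝ) = 4 * (L + E) + 2 := by rw [hK]; push_cast; ring
        linarith only [h3, h4, h7]
  have k5 := Finset.sum_le_sum k4
  rw [Finset.sum_range_sub (fun t => P (γ t)), hγ, sub_self, ← Finset.mul_sum,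
    Finset.sum_sub_distrib, Finset.sum_sub_distrib, ← Finset.mul_sum, ← Finset.mul_sum,
    ← Finset.sum_filter, ← Finset.sum_filter, ← Finset.sum_filter] at k5
  simp only [Finset.sum_const, nsmul_eq_mul, mul_one] at k5
  have k6 := nonpos_of_mul_nonpos_right k5 (by linarith)
  have k7 : (((Finset.range n).filter fun t => lab t ≠ none).card : ℝ) ≤
      2 * ((Finset.range n).filter bad).card + ((E + K * L : ℕ) : ℝ) *
        ((∑ t ∈ (Finset.range n).filter fun t => lab t = none,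
          wlen (S : Set G) ((γ t)⁻¹ * γ (t + 1)) : ℕ) : ℝ) := by
    push_cast
    linarith only [k6]
  exact_mod_cast k7

end Pool.Agent.Work.MP_904812_al
end

-- merged part: Pool.Agent.Work.MP_904812_al.QLa2
section
/-! The four point condition and undistorted cyclic subgroups. -/

namespace Pool.Agent.Work.MP_904812_al

set_option linter.unusedSectionVars false
set_option linter.unusedVariables false

open Subgroup MulAction

variable {G : Type*} [Group G]

/-- the word metric -/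
noncomputable def QLa2_d (S : Set G) (x y : G) : ℕ := wlen S (x⁻¹ * y)

theorem QLa2_symm (S : Set G) (x y : G) : QLa2_d S x y = QLa2_d S y x := QLa1_symm x y

theorem QLa2_tri {S : Set G} (hS : closure S = ⊤) (x y z : G) :
    QLa2_d S x z ≤ QLa2_d S x y + QLa2_d S y z := QLa1_tri hS x y z

theorem QLa2_self (S : Set G) (x : G) : QLa2_d S x x = 0 := by
  rw [QLa2_d, inv_mul_cancel, wlen_one]

/-- geodesics -/
structure QLa2_Geo (S : Set G) (p : ℕ → G) (u v : G) : Prop where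
  fst : p 0 = u
  lst : p (QLa2_d S u v) = v
  dist : ∀ i j, i ≤ j → j ≤ QLa2_d S u v → QLa2_d S (p i) (p j) = j - i

theorem QLa2_ex {S : Set G} (hS : closure S = ⊤) (u v : G) : ∃ p, QLa2_Geo S p u v := by
  obtain ⟨p, h1, h2, h3⟩ := wlen_geod hS u v
  exact ⟨p, h1, h2, h3⟩

theorem QLa2_Geo.left {S : Set G} {p : ℕ → G} {u v : G} (h : QLa2_Geo S p u v) {i : ℕ}
    (hi : i ≤ QLa2_d S u v) : QLa2_d S u (p i) = i := by
  have := h.dist 0 i (Nat.zero_le _) hi
  rwa [h.fst] at this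

theorem QLa2_Geo.right {S : Set G} {p : ℕ → G} {u v : G} (h : QLa2_Geo S p u v) {i : ℕ}
    (hi : i ≤ QLa2_d S u v) : QLa2_d S (p i) v = QLa2_d S u v - i := by
  have := h.dist i _ hi le_rfl
  rwa [h.lst] at this

theorem QLa2_Geo.two {S : Set G} {p : ℕ → G} {u v : G} (h : QLa2_Geo S p u v) {i j : ℕ}
    (hi : i ≤ QLa2_d S u v) (hj : j ≤ QLa2_d S u v) : QLa2_d S (p i) (p j) = (j - i) + (i - j) := by
  rcases le_total i j with e | e
  · rw [h.dist i j e hj]; omega
  · rw [QLa2_symm, h.dist j i e hi]; omega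

theorem QLa2_Geo.rev {S : Set G} {p : ℕ → G} {u v : G} (h : QLa2_Geo S p u v) :
    QLa2_Geo S (fun i => p (QLa2_d S u v - i)) v u := by
  refine ⟨h.lst, ?_, fun i j hij hj => ?_⟩
  · rw [QLa2_symm S v u, Nat.sub_self, h.fst]
  · rw [QLa2_symm S v u] at hj
    rw [h.two (Nat.sub_le _ _) (Nat.sub_le _ _)]
    omega

theorem QLa2_Geo.cut {S : Set G} {p : ℕ → G} {u v : G} (h : QLa2_Geo S p u v) {s : ℕ}
    (hs : s ≤ QLa2_d S u v) : QLa2_Geo S p u (p s) := by
  refine ⟨h.fst, by rw [h.left hs], fun i j hij hj => ?_⟩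
  rw [h.left hs] at hj
  exact h.dist i j hij (hj.trans hs)

/-- the polygon inequality for a hexagon with three short sides -/
theorem QLa2_hex (la : LA G) (S : Finset G) (hS : closure (S : Set G) = ⊤) :
    ∃ k A : ℕ, ∀ (σ0 σ1 σ2 : ℕ → G) (m0 m1 m2 r b : ℕ) (B0 B1 B2 : Finset ℕ),
      (∀ i j, i ≤ j → j ≤ m0 → QLa2_d (S : Set G) (σ0 i) (σ0 j) = j - i) →
      (∀ i j, i ≤ j → j ≤ m1 → QLa2_d (S : Set G) (σ1 i) (σ1 j) = j - i) →
      (∀ i j, i ≤ j → j ≤ m2 → QLa2_d (S : Set G) (σ2 i) (σ2 j) = j - i) →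
      QLa2_d (S : Set G) (σ0 m0) (σ1 0) ≤ r → QLa2_d (S : Set G) (σ1 m1) (σ2 0) ≤ r →
      QLa2_d (S : Set G) (σ2 m2) (σ0 0) ≤ r → B0.card ≤ b → B1.card ≤ b → B2.card ≤ b →
      (∀ s < m0, ((∃ s' < m1, QLa2_d (S : Set G) (σ0 s) (σ1 s') ≤ k) ∨
        ∃ s' < m2, QLa2_d (S : Set G) (σ0 s) (σ2 s') ≤ k) → s ∈ B0) →
      (∀ s < m1, ((∃ s' < m2, QLa2_d (S : Set G) (σ1 s) (σ2 s') ≤ k) ∨
        ∃ s' < m0, QLa2_d (S : Set G) (σ1 s) (σ0 s') ≤ k) → s ∈ B1) →
      (∀ s < m2, ((∃ s' < m0, QLa2_d (S : Set G) (σ2 s) (σ0 s') ≤ k) ∨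
        ∃ s' < m1, QLa2_d (S : Set G) (σ2 s) (σ1 s') ≤ k) → s ∈ B2) →
      m0 + m1 + m2 ≤ 6 * b + A * (3 * r) := by
  classical
  obtain ⟨k, A, H⟩ := poly0 la S hS 1
  refine ⟨k, A, ?_⟩
  intro σ0 σ1 σ2 m0 m1 m2 r b B0 B1 B2 g0 g1 g2 j0 j1 j2 c0 c1 c2 b0 b1 b2
  let γ : ℕ → G := fun t => if t ≤ m0 then σ0 t else if t ≤ m0 + m1 + 1 then σ1 (t - (m0 + 1))
    else if t ≤ m0 + m1 + m2 + 2 then σ2 (t - (m0 + m1 + 2)) else σ0 0
  let lab : ℕ → Option (Fin 3) := fun t => if t < m0 then some 0 else if t = m0 then none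
    else if t < m0 + m1 + 1 then some 1 else if t = m0 + m1 + 1 then none
    else if t < m0 + m1 + m2 + 2 then some 2 else none
  let o : Fin 3 → G := ![σ0 0, σ1 0, σ2 0]
  have e0 : ∀ s ≤ m0, γ s = σ0 s := fun s hs => if_pos hs
  have e1 : ∀ s ≤ m1, γ (s + (m0 + 1)) = σ1 s := fun s hs => by
    simp only [γ]
    rw [if_neg (by omega), if_pos (by omega), Nat.add_sub_cancel]
  have e2 : ∀ s ≤ m2, γ (s + (m0 + m1 + 2)) = σ2 s := fun s hs => by
    simp only [γ]
    rw [if_neg (by omega), if_neg (by omega), if_pos (by omega), Nat.add_sub_cancel]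
  have e3 : γ (m0 + m1 + m2 + 3) = σ0 0 := by
    simp only [γ]
    rw [if_neg (by omega), if_neg (by omega), if_neg (by omega)]
  have hl : ∀ t j, lab t = some j → (j = 0 ∧ t < m0) ∨ (j = 1 ∧ ∃ s < m1, t = s + (m0 + 1)) ∨
      (j = 2 ∧ ∃ s < m2, t = s + (m0 + m1 + 2)) := by
    intro t j h
    simp only [lab] at h
    split_ifs at h with a1 a2 a3 a4 a5
    · exact Or.inl ⟨(Option.some.inj h).symm, a1⟩
    · exact Or.inr (Or.inl ⟨(Option.some.inj h).symm, t - (m0 + 1), by omega, by omega⟩)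
    · exact Or.inr (Or.inr ⟨(Option.some.inj h).symm, t - (m0 + m1 + 2), by omega, by omega⟩)
  have hn : ∀ t < m0 + m1 + m2 + 3, lab t = none →
      t = m0 ∨ t = m0 + m1 + 1 ∨ t = m0 + m1 + m2 + 2 := by
    intro t ht h
    simp only [lab] at h
    split_ifs at h with a1 a2 a3 a4 a5 <;> omega
  have step : ∀ (σ : ℕ → G) (m s : ℕ), s < m →
      (∀ i j, i ≤ j → j ≤ m → QLa2_d (S : Set G) (σ i) (σ j) = j - i) →
      QLa2_d (S : Set G) (σ s) (σ (s + 1)) ≤ 1 ∧
        (QLa2_d (S : Set G) (σ 0) (σ (s + 1)) : ℝ) - QLa2_d (S : Set G) (σ 0) (σ s) = 1 := by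
    intro σ m s hs g
    rw [g s (s + 1) (by omega) (by omega), g 0 (s + 1) (by omega) (by omega),
      g 0 s (by omega) (by omega)]
    exact ⟨by omega, by simp⟩
  have key := H (Fin 3) (m0 + m1 + m2 + 3) γ lab (fun j x => QLa2_d (S : Set G) (o j) x)
    (by rw [e3, e0 0 (Nat.zero_le _)])
    (fun j x y => by
      have a1 := QLa2_tri hS (o j) x y
      have a2 := QLa2_tri hS (o j) y x
      rw [QLa2_symm _ y x] at a2
      have a3 : (QLa2_d (S : Set G) (o j) y : ℝ) ≤
          QLa2_d (S : Set G) (o j) x + QLa2_d (S : Set G) x y := by exact_mod_cast a1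
      have a4 : (QLa2_d (S : Set G) (o j) x : ℝ) ≤
          QLa2_d (S : Set G) (o j) y + QLa2_d (S : Set G) x y := by exact_mod_cast a2
      change _ ≤ ((1 : ℕ) : ℝ) * (QLa2_d (S : Set G) x y : ℝ)
      rw [Nat.cast_one, one_mul, abs_le]
      constructor <;> linarith only [a3, a4])
    (fun t ht j hj => by
      rcases hl t j hj with ⟨rfl, h⟩ | ⟨rfl, s, h, rfl⟩ | ⟨rfl, s, h, rfl⟩
      · rw [e0 t h.le, e0 (t + 1) h]
        exact step σ0 m0 t h g0
      · rw [show s + (m0 + 1) + 1 = s + 1 + (m0 + 1) by omega, e1 s h.le, e1 (s + 1) h]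
        exact step σ1 m1 s h g1
      · rw [show s + (m0 + m1 + 2) + 1 = s + 1 + (m0 + m1 + 2) by omega, e2 s h.le, e2 (s + 1) h]
        exact step σ2 m2 s h g2)
  have hsub : ((Finset.range (m0 + m1 + m2 + 3)).filter fun t => lab t = none) ⊆
      {m0, m0 + m1 + 1, m0 + m1 + m2 + 2} := fun t ht => by
    obtain ⟨a, a'⟩ := Finset.mem_filter.1 ht
    simpa using hn t (Finset.mem_range.1 a) a'
  have hc3 := (Finset.card_le_card hsub).trans Finset.card_le_three
  have hc := Finset.card_filter_add_card_filter_not (s := Finset.range (m0 + m1 + m2 + 3))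
    (fun t => lab t = none)
  rw [Finset.card_range] at hc
  have hsum : ∑ t ∈ (Finset.range (m0 + m1 + m2 + 3)).filter fun t => lab t = none,
      wlen (S : Set G) ((γ t)⁻¹ * γ (t + 1)) ≤ 3 * r := by
    refine (Finset.sum_le_card_nsmul _ _ r fun t ht => ?_).trans
      (by rw [smul_eq_mul]; exact Nat.mul_le_mul_right r hc3)
    obtain ⟨a, a'⟩ := Finset.mem_filter.1 ht
    rcases hn t (Finset.mem_range.1 a) a' with e | e | e
    · have := e1 0 (Nat.zero_le _)
      rw [zero_add] at this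
      rw [e, e0 m0 le_rfl, this]
      exact j0
    · have := e2 0 (Nat.zero_le _)
      rw [zero_add] at this
      rw [e, this, show m0 + m1 + 1 = m1 + (m0 + 1) by omega, e1 m1 le_rfl]
      exact j1
    · rw [e, e3, show m0 + m1 + m2 + 2 = m2 + (m0 + m1 + 2) by omega, e2 m2 le_rfl]
      exact j2
  have hbad : ((Finset.range (m0 + m1 + m2 + 3)).filter fun t => ∃ j, lab t = some j ∧
      ∃ t', t' < m0 + m1 + m2 + 3 ∧ ∃ j', lab t' = some j' ∧ j' ≠ j ∧
        wlen (S : Set G) ((γ t)⁻¹ * γ t') ≤ k) ⊆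
      B0 ∪ B1.image (· + (m0 + 1)) ∪ B2.image (· + (m0 + m1 + 2)) := by
    intro t ht
    obtain ⟨-, j, hj, t', -, j', hj', hne, hk⟩ := Finset.mem_filter.1 ht
    simp only [Finset.mem_union, Finset.mem_image]
    rcases hl t j hj with ⟨rfl, h⟩ | ⟨rfl, s, h, rfl⟩ | ⟨rfl, s, h, rfl⟩ <;>
      rcases hl t' j' hj' with ⟨rfl, h'⟩ | ⟨rfl, s', h', rfl⟩ | ⟨rfl, s', h', rfl⟩
    · exact absurd rfl hne
    · rw [e0 t h.le, e1 s' h'.le] at hk
      exact Or.inl (Or.inl (b0 t h (Or.inl ⟨s', h', hk⟩)))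
    · rw [e0 t h.le, e2 s' h'.le] at hk
      exact Or.inl (Or.inl (b0 t h (Or.inr ⟨s', h', hk⟩)))
    · rw [e1 s h.le, e0 t' h'.le] at hk
      exact Or.inl (Or.inr ⟨s, b1 s h (Or.inr ⟨t', h', hk⟩), rfl⟩)
    · exact absurd rfl hne
    · rw [e1 s h.le, e2 s' h'.le] at hk
      exact Or.inl (Or.inr ⟨s, b1 s h (Or.inl ⟨s', h', hk⟩), rfl⟩)
    · rw [e2 s h.le, e0 t' h'.le] at hk
      exact Or.inr ⟨s, b2 s h (Or.inl ⟨t', h', hk⟩), rfl⟩
    · rw [e2 s h.le, e1 s' h'.le] at hk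
      exact Or.inr ⟨s, b2 s h (Or.inr ⟨s', h', hk⟩), rfl⟩
    · exact absurd rfl hne
  have hb := Finset.card_le_card hbad
  have u1 := Finset.card_union_le (B0 ∪ B1.image (· + (m0 + 1))) (B2.image (· + (m0 + m1 + 2)))
  have u2 := Finset.card_union_le B0 (B1.image (· + (m0 + 1)))
  have u3 := Finset.card_image_le (s := B1) (f := (· + (m0 + 1)))
  have u4 := Finset.card_image_le (s := B2) (f := (· + (m0 + m1 + 2)))
  have u5 := Nat.mul_le_mul_left A hsum
  have key' := key.trans (Nat.add_le_add (Nat.mul_le_mul_left 2 (by convert hb)) (by convert u5))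
  have hc' : ((Finset.range (m0 + m1 + m2 + 3)).filter fun t => ¬ lab t = none).card ≤
      2 * (B0 ∪ B1.image (· + (m0 + 1)) ∪ B2.image (· + (m0 + m1 + 2))).card + A * (3 * r) := by
    convert key'
  omega

/-- points of a side which are close to another side -/
theorem QLa2_side {S : Set G} (hS : closure S = ⊤) {p q q' : ℕ → G} {u v w : G} {k a b t : ℕ}
    (hp : QLa2_Geo S p u v) (hq : QLa2_Geo S q v w) (hq' : QLa2_Geo S q' w u)
    (ha : ∀ s, a < s → 2 * s + QLa2_d S v w ≤ QLa2_d S u v + QLa2_d S w u →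
      2 * k < QLa2_d S (q' (QLa2_d S w u - s)) (p s))
    (hb : ∀ s, b < s → 2 * s + QLa2_d S w u ≤ QLa2_d S v w + QLa2_d S u v →
      2 * k < QLa2_d S (p (QLa2_d S u v - s)) (q s))
    (h1 : a < t) (h2 : t + b < QLa2_d S u v)
    (h : (∃ s ≤ QLa2_d S v w, QLa2_d S (p t) (q s) ≤ k) ∨
      ∃ s ≤ QLa2_d S w u, QLa2_d S (p t) (q' s) ≤ k) :
    QLa2_d S u v + QLa2_d S w u ≤ 2 * t + 2 * k + QLa2_d S v w ∧
      2 * t + QLa2_d S v w ≤ QLa2_d S u v + QLa2_d S w u + 2 * k := by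
  have p1 := hp.left (i := t) (by omega)
  have p2 := hp.right (i := t) (by omega)
  have t1 := QLa2_tri hS u v w
  have t2 := QLa2_tri hS u w v
  have s1 := QLa2_symm S u w
  have s2 := QLa2_symm S v w
  rcases h with ⟨s, hs, hk⟩ | ⟨s, hs, hk⟩
  · have q1 := hq.left hs
    have q2 := hq.right hs
    have a1 := QLa2_tri hS (p t) (q s) v
    have a2 := QLa2_tri hS u (p t) w
    have a3 := QLa2_tri hS (p t) (q s) w
    have a4 := QLa2_symm S v (q s)
    refine ⟨by omega, ?_⟩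
    by_contra hc
    have b1 := hb (QLa2_d S u v - t) (by omega) (by omega)
    rw [show QLa2_d S u v - (QLa2_d S u v - t) = t by omega] at b1
    have b2 := hq.two (i := s) (j := QLa2_d S u v - t) hs (by omega)
    have b3 := QLa2_tri hS (p t) (q s) (q (QLa2_d S u v - t))
    have b4 := QLa2_tri hS v (p t) (q s)
    have b5 := QLa2_symm S v (p t)
    omega
  · have q1 := hq'.left hs
    have q2 := hq'.right hs
    have a1 := QLa2_tri hS u (q' s) (p t)
    have a2 := QLa2_tri hS w (p t) v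
    have a3 := QLa2_tri hS w (q' s) (p t)
    have a4 := QLa2_symm S u (q' s)
    have a5 := QLa2_symm S (p t) (q' s)
    refine ⟨?_, by omega⟩
    by_contra hc
    have b1 := ha t h1 (by omega)
    have b2 := hq'.two (i := QLa2_d S w u - t) (j := s) (by omega) hs
    have b3 := QLa2_tri hS (q' (QLa2_d S w u - t)) (q' s) (p t)
    have b4 := QLa2_tri hS u (p t) (q' s)
    omega

/-- cutting off a corner -/
theorem QLa2_corner {S : Set G} {p q' : ℕ → G} {u v w : G} (hS : closure S = ⊤) (k : ℕ)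
    (hp : QLa2_Geo S p u v) (hq' : QLa2_Geo S q' w u) :
    ∃ a, 2 * a + QLa2_d S v w ≤ QLa2_d S u v + QLa2_d S w u ∧
      QLa2_d S (q' (QLa2_d S w u - a)) (p a) ≤ 2 * k ∧
      ∀ s, a < s → 2 * s + QLa2_d S v w ≤ QLa2_d S u v + QLa2_d S w u →
        2 * k < QLa2_d S (q' (QLa2_d S w u - s)) (p s) := by
  classical
  let P : ℕ → Prop := fun a => 2 * a + QLa2_d S v w ≤ QLa2_d S u v + QLa2_d S w u ∧
    QLa2_d S (q' (QLa2_d S w u - a)) (p a) ≤ 2 * k
  have h0 : P 0 := by
    have t1 := QLa2_tri hS v u w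
    have s1 := QLa2_symm S u v
    have s2 := QLa2_symm S u w
    refine ⟨by omega, ?_⟩
    rw [Nat.sub_zero, hq'.lst, hp.fst, QLa2_self]
    exact Nat.zero_le _
  have h1 := Nat.findGreatest_spec (P := P) (Nat.zero_le (QLa2_d S u v + QLa2_d S w u)) h0
  refine ⟨_, h1.1, h1.2, fun s hs hs' => ?_⟩
  by_contra hc
  exact Nat.findGreatest_is_greatest (P := P) hs (by omega) ⟨hs', not_lt.1 hc⟩

theorem QLa2_bad {S : Set G} (hS : closure S = ⊤) {p q q' : ℕ → G} {u v w : G} {k a b c : ℕ}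
    (hp : QLa2_Geo S p u v) (hq : QLa2_Geo S q v w) (hq' : QLa2_Geo S q' w u)
    (ha : ∀ s, a < s → 2 * s + QLa2_d S v w ≤ QLa2_d S u v + QLa2_d S w u →
      2 * k < QLa2_d S (q' (QLa2_d S w u - s)) (p s))
    (hb : ∀ s, b < s → 2 * s + QLa2_d S w u ≤ QLa2_d S v w + QLa2_d S u v →
      2 * k < QLa2_d S (p (QLa2_d S u v - s)) (q s)) :
    ∃ B : Finset ℕ, B.card ≤ 2 * k + 2 ∧ ∀ s < QLa2_d S u v - b - a,
      ((∃ s' < QLa2_d S v w - c - b, QLa2_d S (p (a + s)) (q (b + s')) ≤ k) ∨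
        ∃ s' < QLa2_d S w u - a - c, QLa2_d S (p (a + s)) (q' (c + s')) ≤ k) → s ∈ B := by
  obtain ⟨m, hm⟩ : ∃ m, m = (QLa2_d S u v + QLa2_d S w u - QLa2_d S v w) / 2 - k - a := ⟨_, rfl⟩
  refine ⟨insert 0 (Finset.Icc m (m + 2 * k)), (Finset.card_insert_le _ _).trans ?_,
    fun s hs h => ?_⟩
  · rw [Nat.card_Icc]; omega
  · rcases Nat.eq_zero_or_pos s with rfl | h0
    · exact Finset.mem_insert_self _ _
    · have := QLa2_side hS (t := a + s) hp hq hq' ha hb (by omega) (by omega) (by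
        rcases h with ⟨s', h1, h2⟩ | ⟨s', h1, h2⟩
        · exact Or.inl ⟨b + s', by omega, h2⟩
        · exact Or.inr ⟨c + s', by omega, h2⟩)
      clear h
      exact Finset.mem_insert_of_mem (Finset.mem_Icc.2 (by omega))

theorem QLa2_insize (la : LA G) (S : Finset G) (hS : closure (S : Set G) = ⊤) :
    ∃ δ : ℕ, ∀ (p p' : ℕ → G) (x y z : G) (t : ℕ), QLa2_Geo (S : Set G) p x y →
      QLa2_Geo (S : Set G) p' x z →
      2 * t + QLa2_d (S : Set G) y z ≤ QLa2_d (S : Set G) x y + QLa2_d (S : Set G) x z →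
      QLa2_d (S : Set G) x y + QLa2_d (S : Set G) x z < 2 * t + 2 + QLa2_d (S : Set G) y z →
      QLa2_d (S : Set G) (p t) (p' t) ≤ δ := by
  obtain ⟨k, A, H⟩ := QLa2_hex la S hS
  refine ⟨2 * k + 2 * (6 * (2 * k + 2) + A * (3 * (2 * k))), fun p p' x y z t hp hp' h1 h2 => ?_⟩
  obtain ⟨q, hq⟩ := QLa2_ex hS y z
  have hq' := hp'.rev
  obtain ⟨a, a1, a2, a3⟩ := QLa2_corner hS k hp hq'
  obtain ⟨b, b1, b2, b3⟩ := QLa2_corner hS k hq hp
  obtain ⟨c, c1, c2, c3⟩ := QLa2_corner hS k hq' hq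
  obtain ⟨B0, d0, f0⟩ := QLa2_bad hS (c := c) hp hq hq' a3 b3
  obtain ⟨B1, d1, f1⟩ := QLa2_bad hS (c := a) hq hq' hp b3 c3
  obtain ⟨B2, d2, f2⟩ := QLa2_bad hS (c := b) hq' hp hq c3 a3
  have s1 := QLa2_symm (S : Set G) x z
  have key := H (fun s => p (a + s)) (fun s => q (b + s))
    (fun s => p' (QLa2_d (S : Set G) x z - (c + s))) _ _ _ (2 * k) (2 * k + 2) B0 B1 B2
    (fun i j hij hj => by rw [hp.dist _ _ (by omega) (by omega)]; omega)
    (fun i j hij hj => by rw [hq.dist _ _ (by omega) (by omega)]; omega)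
    (fun i j hij hj => by rw [hq'.dist _ _ (by omega) (by omega)]; omega)
    (by rw [show a + (QLa2_d (S : Set G) x y - b - a) = QLa2_d (S : Set G) x y - b by omega]
        exact b2)
    (by rw [show b + (QLa2_d (S : Set G) y z - c - b) = QLa2_d (S : Set G) y z - c by omega]
        exact c2)
    (by rw [show c + (QLa2_d (S : Set G) z x - a - c) = QLa2_d (S : Set G) z x - a by omega]
        exact a2)
    d0 d1 d2 f0 f1 f2
  rw [show QLa2_d (S : Set G) x z - (QLa2_d (S : Set G) z x - a) = a by omega] at a2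
  have t0 := QLa2_tri hS x y z
  have t0' := QLa2_tri hS x z y
  have s2 := QLa2_symm (S : Set G) y z
  have e1 := hp.dist a t (by omega) (by omega)
  have e2 := hp'.dist a t (by omega) (by omega)
  have t1 := QLa2_tri hS (p t) (p a) (p' t)
  have t2 := QLa2_tri hS (p a) (p' a) (p' t)
  have s3 := QLa2_symm (S : Set G) (p t) (p a)
  have s4 := QLa2_symm (S : Set G) (p a) (p' a)
  omega

theorem QLa2_thin (la : LA G) (S : Finset G) (hS : closure (S : Set G) = ⊤) :
    ∃ δ : ℕ, ∀ (p p' : ℕ → G) (x y z : G) (t : ℕ), QLa2_Geo (S : Set G) p x y →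
      QLa2_Geo (S : Set G) p' x z →
      2 * t + QLa2_d (S : Set G) y z ≤ QLa2_d (S : Set G) x y + QLa2_d (S : Set G) x z →
      QLa2_d (S : Set G) (p t) (p' t) ≤ δ := by
  classical
  obtain ⟨δ, H⟩ := QLa2_insize la S hS
  refine ⟨δ, fun p p' x y z t hp hp' h1 => ?_⟩
  have ex : ∃ s, s ≤ QLa2_d (S : Set G) x y ∧
      2 * t + QLa2_d (S : Set G) (p s) z ≤ s + QLa2_d (S : Set G) x z :=
    ⟨_, le_rfl, by rw [hp.lst]; exact h1⟩
  obtain ⟨a1, a2⟩ := Nat.find_spec ex
  have a3 := fun m => Nat.find_min ex (m := m)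
  generalize Nat.find ex = s at a1 a2 a3
  refine H p p' x (p s) z t (hp.cut a1) hp' (by rw [hp.left a1]; exact a2) ?_
  rw [hp.left a1]
  rcases s with _ | s
  · rw [hp.fst]; omega
  · have b1 := a3 s (Nat.lt_succ_self s)
    have b2 := hp.dist s (s + 1) (Nat.le_succ s) a1
    have b3 := QLa2_tri hS (p s) (p (s + 1)) z
    omega

theorem QLa2_four (la : LA G) (S : Finset G) (hS : closure (S : Set G) = ⊤) :
    ∃ δ : ℕ, ∀ x y z w : G, QLa2_d (S : Set G) x y + QLa2_d (S : Set G) z w ≤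
      max (QLa2_d (S : Set G) x z + QLa2_d (S : Set G) y w)
        (QLa2_d (S : Set G) x w + QLa2_d (S : Set G) y z) + δ := by
  obtain ⟨δ, H⟩ := QLa2_thin la S hS
  refine ⟨2 * δ + 1, fun x y z w => ?_⟩
  obtain ⟨α, hα⟩ := QLa2_ex hS w x
  obtain ⟨β, hβ⟩ := QLa2_ex hS w z
  obtain ⟨η, hη⟩ := QLa2_ex hS w y
  obtain ⟨t, ht⟩ : ∃ t, t = min
    (QLa2_d (S : Set G) w x + QLa2_d (S : Set G) w z - QLa2_d (S : Set G) x z)
    (QLa2_d (S : Set G) w z + QLa2_d (S : Set G) w y - QLa2_d (S : Set G) z y) / 2 := ⟨_, rfl⟩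
  have t1 := QLa2_tri hS x w z
  have t2 := QLa2_tri hS z w y
  have t3 := QLa2_tri hS w x z
  have t4 := QLa2_tri hS w y z
  have s1 := QLa2_symm (S : Set G) x w
  have s2 := QLa2_symm (S : Set G) y w
  have s3 := QLa2_symm (S : Set G) z w
  have s4 := QLa2_symm (S : Set G) y z
  have h1 := H α β w x z t hα hβ (by omega)
  have h2 := H β η w z y t hβ hη (by omega)
  have e1 := hα.right (i := t) (by omega)
  have e2 := hη.right (i := t) (by omega)
  have a1 := QLa2_tri hS x (α t) y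
  have a2 := QLa2_tri hS (α t) (β t) y
  have a3 := QLa2_tri hS (β t) (η t) y
  have s5 := QLa2_symm (S : Set G) x (α t)
  omega

theorem four_of_la (la : LA G) (S : Finset G) (hS : closure (S : Set G) = ⊤) :
    ∃ δ : ℕ, ∀ x y z w : G,
      wlen (S : Set G) (x⁻¹ * y) + wlen (S : Set G) (z⁻¹ * w) ≤
        max (wlen (S : Set G) (x⁻¹ * z) + wlen (S : Set G) (y⁻¹ * w))
          (wlen (S : Set G) (x⁻¹ * w) + wlen (S : Set G) (y⁻¹ * z)) + δ :=
  QLa2_four la S hS

theorem hyp_of_la (la : LA G) (fg : Group.FG G) : IsHyperbolic G := by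
  obtain ⟨S, hS⟩ := fg.out
  exact ⟨S, hS, four_of_la la S hS⟩

theorem QLa2_inj (tf : TF G) {c : G} (hc : c ≠ 1) : Function.Injective fun i : ℕ => c ^ i := by
  have key : ∀ i j : ℕ, i < j → c ^ i ≠ c ^ j := fun i j h e => by
    refine hc (tf c (j - i) (by omega) ?_)
    have : c ^ j = c ^ i * c ^ (j - i) := by rw [← pow_add]; congr 1; omega
    rw [this] at e
    exact (left_eq_mul.1 e)
  intro i j e
  rcases lt_trichotomy i j with h | h | h
  · exact absurd e (key i j h)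
  · exact h
  · exact absurd e.symm (key j i h)

theorem QLa2_pow {S : Set G} (hS : closure S = ⊤) (c : G) (i : ℕ) :
    wlen S (c ^ i) ≤ i * wlen S c := by
  induction i with
  | zero => simp [wlen_one]
  | succ i ih =>
    have := wlen_mul hS (c ^ i) c
    rw [pow_succ, add_mul]
    omega

theorem QLa2_count (la : LA G) (tf : TF G) (S : Finset G) (hS : closure (S : Set G) = ⊤) {c : G}
    (hc : c ≠ 1) : ∃ N : ℕ, ∀ R Q : ℕ, (∀ i < Q, wlen (S : Set G) (c ^ i) ≤ R) →
      Q ≤ (2 * R + 1) * N := by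
  classical
  obtain ⟨δ, H⟩ := QLa2_four la S hS
  refine ⟨(ball_finite S hS (3 * δ)).toFinset.card, fun R Q hQ => ?_⟩
  obtain ⟨k, hk⟩ : ∃ k : ℕ, 4 * R + 2 * δ + 2 < wlen (S : Set G) (c ^ k) := by
    by_contra hn
    refine Set.infinite_range_of_injective (QLa2_inj tf hc)
      ((ball_finite S hS (4 * R + 2 * δ + 2)).subset ?_)
    rintro _ ⟨k, rfl⟩
    exact not_lt.1 fun h => hn ⟨k, h⟩
  obtain ⟨γ, hγ⟩ := QLa2_ex hS 1 (c ^ k)
  obtain ⟨D, hD⟩ : ∃ D, D = QLa2_d (S : Set G) 1 (c ^ k) := ⟨_, rfl⟩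
  have hD' : 4 * R + 2 * δ + 2 < D := by rw [hD, QLa2_d, inv_one, one_mul]; exact hk
  have y1 := hγ.left (i := D / 2) (by omega)
  have y2 := hγ.right (i := D / 2) (by omega)
  have inv : ∀ g a b : G, QLa2_d (S : Set G) (g * a) (g * b) = QLa2_d (S : Set G) a b :=
    fun g a b => by unfold QLa2_d; congr 1; group
  have hsub : (Finset.range Q).image (fun i => c ^ i * γ (D / 2)) ⊆
      Finset.image₂ (fun s b => γ s * b) (Finset.Icc (D / 2 - R) (D / 2 + R))
        (ball_finite S hS (3 * δ)).toFinset := by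
    intro g hg
    obtain ⟨i, hi, rfl⟩ := Finset.mem_image.1 hg
    have r0 := hQ i (Finset.mem_range.1 hi)
    have r1 : QLa2_d (S : Set G) 1 (c ^ i * 1) ≤ R := by
      rw [QLa2_d, inv_one, one_mul, mul_one]; exact r0
    have r2 : QLa2_d (S : Set G) (c ^ k) (c ^ i * c ^ k) ≤ R := by
      rw [QLa2_d, ← pow_add, add_comm, pow_add, inv_mul_cancel_left]; exact r0
    have i1 := inv (c ^ i) 1 (γ (D / 2))
    have i2 := inv (c ^ i) (γ (D / 2)) (c ^ k)
    have i3 := inv (c ^ i) 1 (c ^ k)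
    generalize c ^ i * 1 = x' at r1 i1 i3
    generalize c ^ i * c ^ k = z' at r2 i2 i3
    generalize c ^ i * γ (D / 2) = y' at i1 i2 ⊢
    have f1 := H x' z' y' 1
    have f2 := H 1 z' y' (c ^ k)
    have s1 := QLa2_symm (S : Set G) 1 x'
    have s2 := QLa2_symm (S : Set G) 1 y'
    have s3 := QLa2_symm (S : Set G) 1 z'
    have s4 := QLa2_symm (S : Set G) y' z'
    have s5 := QLa2_symm (S : Set G) (c ^ k) z'
    have s6 := QLa2_symm (S : Set G) (c ^ k) y'
    have t1 := QLa2_tri hS 1 x' y'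
    have t2 := QLa2_tri hS x' 1 y'
    have t3 := QLa2_tri hS 1 z' (c ^ k)
    have t4 := QLa2_tri hS y' (c ^ k) z'
    have g1 : QLa2_d (S : Set G) 1 y' + QLa2_d (S : Set G) y' (c ^ k) ≤ D + 2 * δ := by omega
    have g2 := hγ.left (i := QLa2_d (S : Set G) 1 y') (by omega)
    have g3 := hγ.right (i := QLa2_d (S : Set G) 1 y') (by omega)
    have f3 := H 1 (c ^ k) (γ (QLa2_d (S : Set G) 1 y')) y'
    have s7 := QLa2_symm (S : Set G) (c ^ k) (γ (QLa2_d (S : Set G) 1 y'))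
    refine Finset.mem_image₂.2 ⟨QLa2_d (S : Set G) 1 y', Finset.mem_Icc.2 (by omega),
      (γ (QLa2_d (S : Set G) 1 y'))⁻¹ * y', ?_, mul_inv_cancel_left _ _⟩
    rw [Set.Finite.mem_toFinset]
    change QLa2_d (S : Set G) (γ (QLa2_d (S : Set G) 1 y')) y' ≤ 3 * δ
    omega
  have h1 := (Finset.card_le_card hsub).trans (Finset.card_image₂_le _ _ _)
  rw [Finset.card_image_of_injective _ (fun i j e => QLa2_inj tf hc (mul_right_cancel e)),
    Finset.card_range, Nat.card_Icc] at h1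
  exact h1.trans (Nat.mul_le_mul_right _ (by omega))

theorem undist (la : LA G) (tf : TF G) (S : Finset G) (hS : closure (S : Set G) = ⊤) {c : G}
    (hc : c ≠ 1) : ∃ L : ℕ, ∀ m : ℤ, m.natAbs ≤ L * wlen (S : Set G) (c ^ m) := by
  obtain ⟨N, H⟩ := QLa2_count la tf S hS hc
  have key : ∀ n : ℕ, n ≤ 2 * N * wlen (S : Set G) (c ^ n) := by
    intro n
    by_contra hn
    obtain ⟨ρ, hρ⟩ : ∃ ρ, ρ = wlen (S : Set G) (c ^ n) := ⟨_, rfl⟩
    obtain ⟨M, hM⟩ : ∃ M, M = n * wlen (S : Set G) c := ⟨_, rfl⟩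
    obtain ⟨Q, hQ⟩ : ∃ Q, Q = (2 * M + 1) * N + 1 := ⟨_, rfl⟩
    rw [← hρ] at hn
    have n0 : 0 < n := by omega
    have h1 := H (Q * ρ + M) (Q * n) fun i hi => by
      have a1 := wlen_mul hS ((c ^ n) ^ (i / n)) (c ^ (i % n))
      rw [← pow_mul, ← pow_add, Nat.div_add_mod] at a1
      have a2 := QLa2_pow hS (c ^ n) (i / n)
      rw [← pow_mul, ← hρ] at a2
      have a3 := QLa2_pow hS c (i % n)
      have a4 : i / n * ρ ≤ Q * ρ :=
        Nat.mul_le_mul_right _ (Nat.div_le_of_le_mul (by rw [mul_comm]; exact hi.le))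
      have a5 : i % n * wlen (S : Set G) c ≤ M := by
        rw [hM]; exact Nat.mul_le_mul_right _ (Nat.mod_lt i n0).le
      omega
    have h2 : Q * (2 * N * ρ + 1) ≤ Q * n := Nat.mul_le_mul_left _ (by omega)
    have h3 : (2 * (Q * ρ + M) + 1) * N = Q * (2 * N * ρ) + (2 * M + 1) * N := by ring
    rw [mul_add, mul_one] at h2
    omega
  refine ⟨2 * N, fun m => ?_⟩
  obtain ⟨n, rfl | rfl⟩ := Int.eq_nat_or_neg m
  · rw [Int.natAbs_natCast, zpow_natCast]; exact key n
  · rw [Int.natAbs_neg, Int.natAbs_natCast, zpow_neg, zpow_natCast, wlen_inv]; exact key n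

end Pool.Agent.Work.MP_904812_al
end
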