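import Pool.Agent.Work.MP_904812_al.QCyl
import Pool.Agent.Work.MP_904812_al.QLa2

-- merged part: Pool.Agent.Work.MP_904812_al.QFat
section
/-! Directions at fat points and labelled paths. -/

namespace Pool.Agent.Work.MP_904812_al

set_option linter.unusedSectionVars false
set_option linter.unusedVariables false

open Subgroup MulAction Relation

variable {G Y : Type} [Group G] [MulAction G Y]

/-- `δ` and `δ'` start in the same class and leave it in the same direction -/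
def FSd (d : Y → Y → ℝ) (r : Y → Y → Prop) (δ δ' : Y × Y) : Prop :=
  r δ.1 δ'.1 ∧ ∃ m, Bt d δ.1 m δ.2 ∧ Bt d δ'.1 m δ'.2 ∧ ¬ r δ.1 m

/-- a step between labelled points; `E k p` says that `k` may be applied at `p` -/
def FSt (d : Y → Y → ℝ) (r : Y → Y → Prop) (F : Finset Y) (E : G → Y → Prop) (a b : G × Y) :
    Prop :=
  (b.1 = a.1 ∧ r a.2 b.2 ∧ a.2 ∈ Hull d F ∧ b.2 ∈ Hull d F) ∨
    ∃ k, E k a.2 ∧ b = (k * a.1, k • a.2)

/-- labelled paths -/
def FP (d : Y → Y → ℝ) (r : Y → Y → Prop) (F : Finset Y) (E : G → Y → Prop) :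
    G × Y → G × Y → Prop := EqvGen (FSt d r F E)

/-- a step between labelled directions -/
def DSt (d : Y → Y → ℝ) (r : Y → Y → Prop) (F : Finset Y) (Ed : G → Y × Y → Prop)
    (a b : G × Y × Y) : Prop :=
  (b.1 = a.1 ∧ FSd d r a.2 b.2 ∧ a.2.1 ∈ Hull d F ∧ b.2.1 ∈ Hull d F) ∨
    ∃ k, Ed k a.2 ∧ b = (k * a.1, k • a.2.1, k • a.2.2)

/-- the relation on directions -/
def Fσ (d : Y → Y → ℝ) (r : Y → Y → Prop) (F : Finset Y) (Ed : G → Y × Y → Prop)
    (δ δ' : Y × Y) : Prop := ∃ g : G, DSt d r F Ed (1, δ) (g, δ')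

/-- steps of points allowed by bands -/
def EB (d : Y → Y → ℝ) (B : Finset (G × Y × Y)) (k : G) (p : Y) : Prop :=
  ∃ u v, (k, u, v) ∈ B ∧ Bt d u p v

/-- steps of directions allowed by bands -/
def EdB (d : Y → Y → ℝ) (r : Y → Y → Prop) (B : Finset (G × Y × Y)) (k : G) (δ : Y × Y) : Prop :=
  ∃ u v, (k, u, v) ∈ B ∧ Bt d u δ.1 v ∧ Bt d u δ.2 v ∧ ¬ r δ.1 δ.2

/-- paths of bands containing the images of a segment -/
def UCn (d : Y → Y → ℝ) (B : Finset (G × Y × Y)) (a b : Y) : G → G → Prop :=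
  EqvGen fun g g' => ∃ β ∈ B, Along d a b g β ∧ g' = β.1 * g

variable {d : Y → Y → ℝ} {r : Y → Y → Prop} {F : Finset Y}

theorem Fat.arc (h : Fat G d r) {g : G} {a b : Y} (ha : g • a = a) (hb : g • b = b)
    (n : ¬ r a b) : g = 1 := by
  classical
  have T := h.act.tr
  have fa : ∀ k : ℕ, g ^ k • a = a := fun k => by
    induction k with
    | zero => simp
    | succ k ih => rw [pow_succ, mul_smul, ha, ih]
  have fb : ∀ k : ℕ, g ^ k • b = b := fun k => by
    induction k with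
    | zero => simp
    | succ k ih => rw [pow_succ, mul_smul, hb, ih]
  obtain ⟨i, j, hij, e⟩ := Set.Finite.exists_lt_map_eq_of_forall_mem (f := fun k : ℕ => g ^ k)
    (fun k => by
      refine ⟨?_, ?_⟩
      · rw [fa]; exact T.mem_hull (by simp)
      · rw [fb]; exact T.mem_hull (by simp)) (h.na {a, b} a b n)
  obtain ⟨k, rfl⟩ := Nat.exists_eq_add_of_lt hij
  refine h.tf g (k + 1) (by omega) ?_
  have e' : g ^ i * 1 = g ^ i * g ^ (k + 1) := by
    rw [mul_one, ← pow_add, ← add_assoc]; exact e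
  exact (mul_left_cancel e').symm

theorem Fat.inv_iff (h : Fat G d r) (g : G) {a b : Y} : r (g • a) (g • b) ↔ r a b := by
  refine ⟨fun e => ?_, h.inv g a b⟩
  simpa using h.inv g⁻¹ _ _ e

theorem Fat.conv' (h : Fat G d r) {c a b p : Y} (ha : r c a) (hb : r c b) (hp : Bt d a p b) :
    r c p := by
  exact h.eqv.trans ha (h.conv a p b (h.eqv.trans (h.eqv.symm ha) hb) hp)

/-- segments from two points of a class agree outside the class -/
theorem QFat_agree (h : Fat G d r) {p p' z m : Y} (a : r p p') (b : Bt d p z m) (n : ¬ r p z) :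
    Bt d p' z m := by
  rcases h.act.tr.bt_split b p' with c | c
  · exact absurd (h.conv' a (h.eqv.refl p) c) n
  · exact c

theorem Fat.fsd_refl (h : Fat G d r) {p q : Y} (n : ¬ r p q) : FSd d r (p, q) (p, q) := by
  exact ⟨h.eqv.refl p, q, h.act.tr.bt_right p q, h.act.tr.bt_right p q, n⟩

theorem Fat.fsd_symm (h : Fat G d r) {δ δ' : Y × Y} (a : FSd d r δ δ') : FSd d r δ' δ := by
  obtain ⟨e, m, b, c, n⟩ := a
  exact ⟨h.eqv.symm e, m, c, b, fun e' => n (h.eqv.trans e e')⟩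

theorem Fat.fsd_trans (h : Fat G d r) {δ δ' δ'' : Y × Y} (a : FSd d r δ δ')
    (b : FSd d r δ' δ'') : FSd d r δ δ'' := by
  have T := h.act.tr
  obtain ⟨e, m, a1, a2, n⟩ := a
  obtain ⟨e', m', b1, b2, n'⟩ := b
  refine ⟨h.eqv.trans e e', ?_⟩
  rcases le_total (d δ'.1 m) (d δ'.1 m') with c | c
  · have c1 := (T.bt_of_le a2 b1 c).1
    have c2 := QFat_agree h e' c1 fun e'' => n (h.eqv.trans e e'')
    exact ⟨m, a1, (T.bt_trans c2 b2).1, n⟩
  · have c1 := (T.bt_of_le b1 a2 c).1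
    have c2 := QFat_agree h (h.eqv.symm e) c1 n'
    exact ⟨m', (T.bt_trans c2 a1).1, b2, fun e'' => n' (h.eqv.trans (h.eqv.symm e) e'')⟩

theorem Fat.fsd_ne (h : Fat G d r) {δ δ' : Y × Y} (a : FSd d r δ δ') : ¬ r δ.1 δ.2 := by
  obtain ⟨-, m, b, -, n⟩ := a
  exact fun e => n (h.conv _ _ _ e b)

theorem Fat.fsd_of_bt (h : Fat G d r) {p q q' : Y} (a : Bt d p q q') (n : ¬ r p q) :
    FSd d r (p, q) (p, q') := by
  exact ⟨h.eqv.refl p, q, h.act.tr.bt_right p q, a, n⟩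

theorem Fat.fsd_base (h : Fat G d r) {p p' q : Y} (a : r p p') (n : ¬ r p q) :
    FSd d r (p, q) (p', q) := by
  exact ⟨a, q, h.act.tr.bt_right p q, h.act.tr.bt_right p' q, n⟩

theorem QFat_smul (h : Fat G d r) (g : G) {p q p' q' : Y} (a : FSd d r (p, q) (p', q')) :
    FSd d r (g • p, g • q) (g • p', g • q') := by
  obtain ⟨e, m, b, c, n⟩ := a
  exact ⟨h.inv g _ _ e, g • m, h.act.bt g b, h.act.bt g c, fun e' => n ((h.inv_iff g).1 e')⟩

theorem Fat.fsd_smul (h : Fat G d r) (g : G) {p q p' q' : Y} :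
    FSd d r (g • p, g • q) (g • p', g • q') ↔ FSd d r (p, q) (p', q') := by
  refine ⟨fun a => ?_, QFat_smul h g⟩
  simpa using QFat_smul h g⁻¹ a

theorem Fat.not_fsd (h : Fat G d r) {p q q' : Y} (a : Bt d q p q') :
    ¬ FSd d r (p, q) (p, q') := by
  have T := h.act.tr
  rintro ⟨-, m, b, c, n⟩
  have e : p = m := by
    apply T.eq_of
    have := T.tri q m q'
    have := T.symm q m
    have := T.symm q p
    have := T.nonneg p m
    simp only [Bt] at *
    linarith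
  exact n (e ▸ h.eqv.refl p)

/-- two points in different directions are separated by the class -/
theorem Fat.sep_of_not_fsd (h : Fat G d r) {p q q' : Y} (n : ¬ r p q)
    (a : ¬ FSd d r (p, q) (p, q')) : ∃ m, r p m ∧ Bt d q m q' := by
  obtain ⟨m, b, c, e⟩ := h.act.tr.med' p q q'
  refine ⟨m, ?_, e⟩
  by_contra n'
  exact a ⟨h.eqv.refl p, m, b, c, n'⟩

theorem QFat_le (h : Fat G d r) {g : G} {p q m : Y} (e : r p (g • p)) (b : Bt d p m q)
    (c : Bt d p (g⁻¹ • m) q) (n : ¬ r p m) : d p m ≤ d p (g⁻¹ • m) := by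
  have T := h.act.tr
  by_contra hlt
  rw [not_le] at hlt
  have c1 := (T.bt_of_le c b hlt.le).1
  have key : ∀ k : ℕ, ∃ z, Bt d p z m ∧ ¬ r p z ∧
      d p z = d p m - k * (d p m - d p (g⁻¹ • m)) := by
    intro k
    induction k with
    | zero => exact ⟨m, T.bt_right p m, n, by simp⟩
    | succ k ih =>
      obtain ⟨z, z1, z2, z3⟩ := ih
      have a1 := QFat_agree h e z1 z2
      have a2 : Bt d p (g⁻¹ • z) (g⁻¹ • m) := by simpa using h.act.bt g⁻¹ a1
      refine ⟨g⁻¹ • z, (T.bt_trans a2 c1).1,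
        fun e' => z2 (h.eqv.trans e (by simpa using h.inv g _ _ e')), ?_⟩
      have := h.act.iso g⁻¹ z m
      simp only [Bt] at a2 z1
      push_cast
      linarith
  obtain ⟨k, hk⟩ := exists_nat_gt (d p m / (d p m - d p (g⁻¹ • m)))
  obtain ⟨z, -, -, z3⟩ := key k
  rw [div_lt_iff₀ (by linarith)] at hk
  have := T.nonneg p z
  linarith

/-- directions have trivial stabilisers -/
theorem Fat.n1 (h : Fat G d r) {g : G} {p q : Y} (a : FSd d r (p, q) (g • p, g • q)) : g = 1 := by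
  have T := h.act.tr
  obtain ⟨e, m, b, c, n⟩ := a
  simp only at e b c n
  have c' : Bt d p (g⁻¹ • m) q := by simpa using h.act.bt g⁻¹ c
  have n' : ¬ r p (g⁻¹ • m) := fun e' => n (h.eqv.trans e (by simpa using h.inv g _ _ e'))
  have e' : r p (g⁻¹ • p) := h.eqv.symm (by simpa using h.inv g⁻¹ _ _ e)
  have l1 := QFat_le h e b c' n
  have l2 := QFat_le h e' c' (by simpa using b) n'
  rw [inv_inv, smul_inv_smul] at l2
  have fm' : g⁻¹ • m = m := T.bt_uniq c' b (le_antisymm l2 l1)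
  have fm : g • m = m := by rw [← fm', smul_inv_smul, fm']
  obtain ⟨z, z1, z2, z3⟩ := T.med' p (g • p) m
  have z4 : Bt d (g • p) (g • z) m := by simpa [fm] using h.act.bt g z2
  have fz : g • z = z := by
    refine T.bt_uniq (T.bt_symm z4) (T.bt_symm z3) ?_
    conv_lhs => rw [← fm]
    exact h.act.iso g m z
  exact h.arc fz fm fun e'' => n (h.eqv.trans (h.conv _ _ _ e z1) e'')

theorem Fat.two (h : Fat G d r) {g : G} {a b : Y} (ha : r (g • a) a) (hb : r (g • b) b)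
    (n : ¬ r a b) : g = 1 := by
  obtain ⟨m, m1, m2, m3⟩ := h.act.tr.med' (g • a) b (g • b)
  refine h.n1 (h.fsd_trans (h.fsd_base (h.eqv.symm ha) n) ⟨h.eqv.refl _, m, m1, m2, fun e => n ?_⟩)
  exact h.eqv.trans (h.eqv.trans (h.eqv.symm ha) e)
    (h.eqv.symm (h.conv _ _ _ (h.eqv.symm hb) m3))

theorem QFat_proj (T : Tr d) {u v p q m : Y} (hp : Bt d u p v) (m1 : Bt d u m v)
    (m2 : Bt d u m q) (m3 : Bt d v m q) : Bt d p m q := by
  rcases le_total (d u p) (d u m) with c | c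
  · exact (T.bt_trans (T.bt_of_le hp m1 c).1 m2).2
  · exact (T.bt_trans (T.bt_symm (T.bt_of_le m1 hp c).2) m3).2

/-- a class without special point lies in each band that it meets -/
theorem Fat.piece_sub (h : Fat G d r) {u v p q : Y} (hu : u ∈ Hull d F) (hv : v ∈ Hull d F)
    (hp : Bt d u p v) (nu : ¬ r p u) (nv : ¬ r p v) (nb : ∀ c, Br d F c → ¬ r p c)
    (hq : q ∈ Hull d F) (a : r p q) : Bt d u q v := by
  have T := h.act.tr
  obtain ⟨m, m1, m2, m3⟩ := T.med' u v q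
  have e := h.conv _ _ _ a (QFat_proj T hp m1 m2 m3)
  rcases T.med_cases hu hv hq m1 m2 m3 with rfl | rfl | rfl | c
  · exact absurd e nu
  · exact absurd e nv
  · exact m1
  · exact absurd e (nb _ c)

theorem Fat.dir_cases (h : Fat G d r) {u v p q : Y} (hu : u ∈ Hull d F) (hv : v ∈ Hull d F)
    (hp : Bt d u p v) (nu : ¬ r p u) (nv : ¬ r p v) (nb : ∀ c, Br d F c → ¬ r p c)
    (hq : q ∈ Hull d F) (a : ¬ r p q) : FSd d r (p, q) (p, u) ∨ FSd d r (p, q) (p, v) := by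
  have T := h.act.tr
  obtain ⟨m, m1, m2, m3⟩ := T.med' u v q
  have b := QFat_proj T hp m1 m2 m3
  have e : ¬ r p m := by
    intro e
    rcases T.med_cases hu hv hq m1 m2 m3 with rfl | rfl | rfl | c
    · exact nu e
    · exact nv e
    · exact a e
    · exact nb _ c e
  rcases T.bt_split m1 p with c | c
  · exact Or.inl ⟨h.eqv.refl p, m, b, c, e⟩
  · exact Or.inr ⟨h.eqv.refl p, m, b, c, e⟩

/-- finitely many classes have a large piece in the hull -/
theorem Fat.grid (h : Fat G d r) (F : Finset Y) {l : ℝ} (hl : 0 < l) :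
    ∃ T : Finset Y, ∀ a ∈ Hull d F, ∀ b ∈ Hull d F, r a b → l ≤ d a b → ∃ t ∈ T, r a t := by
  classical
  have T := h.act.tr
  have hpt : ∀ (f f' : Y) (s : ℝ), ∃ t, 0 ≤ s → s ≤ d f f' → Bt d f t f' ∧ d f t = s := by
    intro f f' s
    by_cases hs : 0 ≤ s ∧ s ≤ d f f'
    · obtain ⟨t, ht⟩ := T.ex_bt f f' hs.1 hs.2
      exact ⟨t, fun _ _ => ht⟩
    · exact ⟨f, fun h0 h1 => absurd ⟨h0, h1⟩ hs⟩
  choose pt hpt using hpt
  refine ⟨(F ×ˢ F).biUnion fun x => (Finset.range (⌈d x.1 x.2 / l⌉₊ + 1)).image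
    fun i : ℕ => pt x.1 x.2 (i * l), fun a ha b hb e hab => ?_⟩
  obtain ⟨f', hf', b1⟩ := T.hull_ext hb a
  obtain ⟨f, hf, b2⟩ := T.hull_ext ha f'
  have b3 := T.bt_symm b2
  obtain ⟨b4, b5⟩ := T.bt_trans' b3 b1
  have n0 := T.nonneg f a
  have i1 : d f a ≤ (⌈d f a / l⌉₊ : ℝ) * l := by
    rw [← div_le_iff₀ hl]; exact Nat.le_ceil _
  have i2 : (⌈d f a / l⌉₊ : ℝ) * l ≤ d f b := by
    have := (Nat.ceil_lt_add_one (div_nonneg n0 hl.le)).le
    have h2 := mul_le_mul_of_nonneg_right this hl.le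
    rw [add_mul, div_mul_cancel₀ _ hl.ne', one_mul] at h2
    simp only [Bt] at b4
    linarith
  have i3 := T.bt_le b5
  obtain ⟨t1, t2⟩ := hpt f f' (⌈d f a / l⌉₊ * l) (by positivity) (i2.trans i3)
  refine ⟨pt f f' (⌈d f a / l⌉₊ * l), ?_, h.conv _ _ _ e ?_⟩
  · simp only [Finset.mem_biUnion, Finset.mem_product, Finset.mem_image, Finset.mem_range]
    refine ⟨(f, f'), ⟨hf, hf'⟩, _, Nat.lt_succ_of_le (Nat.ceil_mono ?_), rfl⟩
    exact div_le_div_of_nonneg_right (T.bt_le b3) hl.le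
  · exact (T.bt_trans (T.bt_of_le b3 t1 (i1.trans t2.ge)).1 (T.bt_of_le t1 b5 (t2.le.trans i2)).1).2

variable {E E' : G → Y → Prop} {Ed Ed' : G → Y × Y → Prop}

theorem FP.mono (hE : ∀ k p, E k p → E' k p) {F' : Finset Y} (hF : F ⊆ F') {a b : G × Y}
    (p : FP d r F E a b) : FP d r F' E' a b := by
  have hH : ∀ x ∈ Hull d F, x ∈ Hull d F' := fun x ⟨u, hu, v, hv, c⟩ => ⟨u, hF hu, v, hF hv, c⟩
  refine eqv_mono (fun a b s => EqvGen.rel _ _ ?_) p
  rcases s with ⟨s1, s2, s3, s4⟩ | ⟨k, s1, s2⟩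
  · exact Or.inl ⟨s1, s2, hH _ s3, hH _ s4⟩
  · exact Or.inr ⟨k, hE _ _ s1, s2⟩

theorem QFat_map {α β : Type*} {ρ : α → α → Prop} {ρ' : β → β → Prop} (f : α → β)
    (h : ∀ a b, ρ a b → EqvGen ρ' (f a) (f b)) {a b : α} (e : EqvGen ρ a b) :
    EqvGen ρ' (f a) (f b) := by
  induction e with
  | rel a b s => exact h a b s
  | refl a => exact EqvGen.refl _
  | symm a b _ ih => exact EqvGen.symm _ _ ih
  | trans a b c _ _ ih ih' => exact EqvGen.trans _ _ _ ih ih'

theorem FP.mul {g g' : G} {p p' : Y} (a : FP d r F E (g, p) (g', p')) (x : G) :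
    FP d r F E (g * x, p) (g' * x, p') := by
  refine QFat_map (fun c : G × Y => (c.1 * x, c.2)) (fun a b s => EqvGen.rel _ _ ?_) a
  rcases s with ⟨s1, s2, s3, s4⟩ | ⟨k, s1, rfl⟩
  · exact Or.inl ⟨by rw [s1], s2, s3, s4⟩
  · exact Or.inr ⟨k, s1, by rw [mul_assoc]⟩

theorem FP.rel (h : Fat G d r) {g g' : G} {p p' : Y} (a : FP d r F E (g, p) (g', p')) :
    r (g⁻¹ • p) (g'⁻¹ • p') := by
  refine h.eqv.eqvGen_iff.1
    (QFat_map (fun c : G × Y => c.1⁻¹ • c.2) (fun a b s => EqvGen.rel _ _ ?_) a)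
  rcases s with ⟨s1, s2, -, -⟩ | ⟨k, -, rfl⟩
  · rw [s1]; exact h.inv _ _ _ s2
  · simpa [mul_smul] using h.eqv.refl _

theorem QFat_mul {g g' : G} {δ δ' : Y × Y} (a : EqvGen (DSt d r F Ed) (g, δ) (g', δ')) (x : G) :
    EqvGen (DSt d r F Ed) (g * x, δ) (g' * x, δ') := by
  refine QFat_map (fun c : G × Y × Y => (c.1 * x, c.2)) (fun a b s => EqvGen.rel _ _ ?_) a
  rcases s with ⟨s1, s2, s3, s4⟩ | ⟨k, s1, rfl⟩
  · exact Or.inl ⟨by rw [s1], s2, s3, s4⟩
  · exact Or.inr ⟨k, s1, by rw [mul_assoc]⟩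

theorem fσ_iff {δ δ' : Y × Y} : EqvGen (Fσ d r F Ed) δ δ' ↔
    ∃ g : G, EqvGen (DSt d r F Ed) (1, δ) (g, δ') := by
  constructor
  · intro e
    induction e with
    | rel a b s => exact s.imp fun g s => EqvGen.rel _ _ s
    | refl a => exact ⟨1, EqvGen.refl _⟩
    | symm a b _ ih =>
      obtain ⟨g, ih⟩ := ih
      exact ⟨g⁻¹, EqvGen.symm _ _ (by simpa using QFat_mul ih g⁻¹)⟩
    | trans a b c _ _ ih ih' =>
      obtain ⟨g, ih⟩ := ih
      obtain ⟨g', ih'⟩ := ih'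
      exact ⟨g' * g, EqvGen.trans _ _ _ ih (by simpa using QFat_mul ih' g)⟩
  · rintro ⟨g, e⟩
    refine QFat_map (fun c : G × Y × Y => c.2) (fun a b s => EqvGen.rel _ _ ?_) e
    rcases s with ⟨s1, s2, s3, s4⟩ | ⟨k, s1, rfl⟩
    · exact ⟨1, Or.inl ⟨rfl, s2, s3, s4⟩⟩
    · exact ⟨k * 1, Or.inr ⟨k, s1, rfl⟩⟩

theorem dst_mul {g g' : G} {δ δ' : Y × Y} (a : EqvGen (DSt d r F Ed) (g, δ) (g', δ')) (x : G) :
    EqvGen (DSt d r F Ed) (g * x, δ) (g' * x, δ') := by
  exact QFat_mul a x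

theorem dst_fp (hc : ∀ k δ, Ed k δ → E k δ.1) {g g' : G} {δ δ' : Y × Y}
    (a : EqvGen (DSt d r F Ed) (g, δ) (g', δ')) : FP d r F E (g, δ.1) (g', δ'.1) := by
  refine QFat_map (fun c : G × Y × Y => (c.1, c.2.1)) (fun a b s => EqvGen.rel _ _ ?_) a
  rcases s with ⟨s1, s2, s3, s4⟩ | ⟨k, s1, rfl⟩
  · exact Or.inl ⟨s1, s2.1, s3, s4⟩
  · exact Or.inr ⟨k, hc _ _ s1, rfl⟩

theorem QFat_step (h : Fat G d r) (hc : ∀ k δ, Ed k δ → ¬ r δ.1 δ.2) {a b : G × Y × Y}
    (s : DSt d r F Ed a b) :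
    FSd d r (a.1⁻¹ • a.2.1, a.1⁻¹ • a.2.2) (b.1⁻¹ • b.2.1, b.1⁻¹ • b.2.2) := by
  rcases s with ⟨s1, s2, -, -⟩ | ⟨k, s1, rfl⟩
  · rw [s1]; exact QFat_smul h _ s2
  · simpa [mul_smul] using
      h.fsd_refl (p := a.1⁻¹ • a.2.1) (q := a.1⁻¹ • a.2.2) fun e => hc _ _ s1 ((h.inv_iff _).1 e)

theorem dst_fsd (h : Fat G d r) (hc : ∀ k δ, Ed k δ → ¬ r δ.1 δ.2) {g g' : G} {p q p' q' : Y}
    (n : ¬ r p q) (a : EqvGen (DSt d r F Ed) (g, p, q) (g', p', q')) :
    FSd d r (g⁻¹ • p, g⁻¹ • q) (g'⁻¹ • p', g'⁻¹ • q') := by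
  have key : ∀ a b : G × Y × Y, EqvGen (DSt d r F Ed) a b → a = b ∨
      FSd d r (a.1⁻¹ • a.2.1, a.1⁻¹ • a.2.2) (b.1⁻¹ • b.2.1, b.1⁻¹ • b.2.2) := by
    intro a b e
    induction e with
    | rel a b s => exact Or.inr (QFat_step h hc s)
    | refl a => exact Or.inl rfl
    | symm a b _ ih => exact ih.imp Eq.symm h.fsd_symm
    | trans a b c _ _ ih ih' =>
      rcases ih with rfl | ih
      · exact ih'
      · rcases ih' with rfl | ih'
        · exact Or.inr ih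
        · exact Or.inr (h.fsd_trans ih ih')
  rcases key _ _ a with e | e
  · cases e
    exact h.fsd_refl fun e => n ((h.inv_iff _).1 e)
  · exact e

theorem QFat_ucn (h : IAct G d) {B : Finset (G × Y × Y)} {a b a' b' : Y} (ha : Bt d a a' b)
    (hb : Bt d a b' b) {g g' : G} (c : UCn d B a b g g') : UCn d B a' b' g g' := by
  refine eqv_mono (fun g g' s => EqvGen.rel _ _ ?_) c
  obtain ⟨β, hβ, ⟨s1, s2⟩, s3⟩ := s
  exact ⟨β, hβ, ⟨h.tr.bt_conv s1 s2 (h.bt g ha), h.tr.bt_conv s1 s2 (h.bt g hb)⟩, s3⟩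

/-- a path of directions is valid along a segment -/
theorem dst_ucn (h : Fat G d r) {B : Finset (G × Y × Y)} {g g' : G} {p q p' q' : Y}
    (n : ¬ r p q) (a : EqvGen (DSt d r F (EdB d r B)) (g, p, q) (g', p', q')) :
    ∃ x y, r (g⁻¹ • p) x ∧ ¬ r x y ∧ Bt d (g⁻¹ • p) x y ∧ Bt d (g⁻¹ • p) y (g⁻¹ • q) ∧
      UCn d B x y g g' := by
  have T := h.act.tr
  have hc : ∀ k δ, EdB d r B k δ → ¬ r δ.1 δ.2 := fun k δ ⟨_, _, _, _, _, e⟩ => e
  have key : ∀ a b : G × Y × Y, EqvGen (DSt d r F (EdB d r B)) a b → a = b ∨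
      (FSd d r (a.1⁻¹ • a.2.1, a.1⁻¹ • a.2.2) (b.1⁻¹ • b.2.1, b.1⁻¹ • b.2.2) ∧
        ∃ x y, FSd d r (a.1⁻¹ • a.2.1, a.1⁻¹ • a.2.2) (x, y) ∧ UCn d B x y a.1 b.1) := by
    intro a b e
    induction e with
    | rel a b s =>
      have s' := QFat_step h hc s
      refine Or.inr ⟨s', _, _, h.fsd_refl (h.fsd_ne s'), ?_⟩
      rcases s with ⟨s1, -, -, -⟩ | ⟨k, ⟨u, v, s1, s2, s3, -⟩, rfl⟩
      · rw [s1]; exact EqvGen.refl _
      · exact EqvGen.rel _ _ ⟨(k, u, v), s1, ⟨by simpa using s2, by simpa using s3⟩, rfl⟩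
    | refl a => exact Or.inl rfl
    | symm a b _ ih =>
      rcases ih with rfl | ⟨e, x, y, e', c⟩
      · exact Or.inl rfl
      · exact Or.inr ⟨h.fsd_symm e, x, y, h.fsd_trans (h.fsd_symm e) e', EqvGen.symm _ _ c⟩
    | trans a b c _ _ ih ih' =>
      rcases ih with rfl | ⟨e₁, x, y, f₁, c₁⟩
      · exact ih'
      · rcases ih' with rfl | ⟨e₂, x', y', f₂, c₂⟩
        · exact Or.inr ⟨e₁, x, y, f₁, c₁⟩
        · obtain ⟨e, m, m1, m2, m3⟩ := h.fsd_trans (h.fsd_symm f₁) (h.fsd_trans e₁ f₂)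
          obtain ⟨z, z1, z2, z3⟩ := T.med' x x' m
          refine Or.inr ⟨h.fsd_trans e₁ e₂, z, m, h.fsd_trans f₁
            ⟨h.conv _ _ _ e z1, m, m1, T.bt_right z m, m3⟩, EqvGen.trans _ _ _
            (QFat_ucn h.act (T.bt_trans z2 m1).1 m1 c₁)
            (QFat_ucn h.act (T.bt_trans z3 m2).1 m2 c₂)⟩
  rcases key _ _ a with e | ⟨-, x, y, ⟨e, m, m1, m2, m3⟩, c⟩
  · cases e
    exact ⟨_, _, h.eqv.refl _, fun e => n ((h.inv_iff _).1 e), T.bt_left _ _, T.bt_right _ _,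
      EqvGen.refl _⟩
  · obtain ⟨z, z1, z2, z3⟩ := T.med' (g⁻¹ • p) x m
    have rz := h.conv _ _ _ e z1
    exact ⟨z, m, rz, fun e' => m3 (h.eqv.trans rz e'), z2, m1,
      QFat_ucn h.act (T.bt_trans z3 m2).1 m2 c⟩

theorem UCn.mono (h : IAct G d) {B : Finset (G × Y × Y)} {a b a' b' : Y} (ha : Bt d a a' b)
    (hb : Bt d a b' b) {g g' : G} (c : UCn d B a b g g') : UCn d B a' b' g g' := by
  exact QFat_ucn h ha hb c

theorem UCn.smul {B : Finset (G × Y × Y)} {a b : Y} {g g' : G} (x : G)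
    (c : UCn d B (x • a) (x • b) g g') : UCn d B a b (g * x) (g' * x) := by
  refine QFat_map (fun g : G => g * x) (fun g g' s => EqvGen.rel _ _ ?_) c
  obtain ⟨β, hβ, ⟨s1, s2⟩, rfl⟩ := s
  exact ⟨β, hβ, ⟨by rwa [mul_smul], by rwa [mul_smul]⟩, mul_assoc _ _ _⟩

theorem UCn.fp (h : IAct G d) {B : Finset (G × Y × Y)} {a b p : Y} (hp : Bt d a p b) {g g' : G}
    (c : UCn d B a b g g') : FP d r F (EB d B) (g, g • p) (g', g' • p) := by
  refine QFat_map (fun g : G => (g, g • p)) (fun g g' s => EqvGen.rel _ _ ?_) c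
  obtain ⟨β, hβ, ⟨s1, s2⟩, rfl⟩ := s
  exact Or.inr ⟨β.1, ⟨β.2.1, β.2.2, hβ, h.tr.bt_conv s1 s2 (h.bt g hp)⟩, by rw [mul_smul]⟩

theorem UCn.dst (h : Fat G d r) {B : Finset (G × Y × Y)} {a b : Y} (n : ¬ r a b) {g g' : G}
    (c : UCn d B a b g g') :
    EqvGen (DSt d r F (EdB d r B)) (g, g • a, g • b) (g', g' • a, g' • b) := by
  refine QFat_map (fun g : G => (g, g • a, g • b)) (fun g g' s => EqvGen.rel _ _ ?_) c
  obtain ⟨β, hβ, ⟨s1, s2⟩, rfl⟩ := s
  exact Or.inr ⟨β.1, ⟨β.2.1, β.2.2, hβ, s1, s2, fun e => n ((h.inv_iff g).1 e)⟩,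
    by rw [mul_smul, mul_smul]⟩

theorem UCn.closed (h : IAct G d) {B : Finset (G × Y × Y)} {Γ : Type} [Group Γ] {f : G → Y → Γ}
    (hf : Closed d B f) {a b : Y} {g g' : G} (c : UCn d B a b g g') :
    f g' a * (f g a)⁻¹ = f g' b * (f g b)⁻¹ := by
  induction c with
  | rel g g' s =>
    obtain ⟨β, hβ, ⟨s1, s2⟩, rfl⟩ := s
    exact hf β hβ g a b s1 s2
  | refl g => simp
  | symm g g' _ ih => simpa using congrArg Inv.inv ih
  | trans g g' g'' _ _ ih ih' =>
    have e : ∀ p, f g'' p * (f g p)⁻¹ = (f g'' p * (f g' p)⁻¹) * (f g' p * (f g p)⁻¹) :=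
      fun p => by group
    rw [e a, e b, ih, ih']

end Pool.Agent.Work.MP_904812_al
end

-- merged part: Pool.Agent.Work.MP_904812_al.QHG0
section
/-! The index of a fat system. -/

namespace Pool.Agent.Work.MP_904812_al

set_option linter.unusedSectionVars false
set_option linter.unusedVariables false

open Subgroup MulAction Relation

variable {G Y : Type} [Group G] [MulAction G Y]

/-- classes joined to a site, or carrying a loop with nontrivial label -/
def Cone (d : Y → Y → ℝ) (r : Y → Y → Prop) (F : Finset Y) (E : G → Y → Prop) (P : Finset Y)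
    (p : Y) : Prop :=
  (∃ s ∈ P, ∃ g : G, FP d r F E (1, p) (g, s)) ∨ ∃ g : G, g ≠ 1 ∧ FP d r F E (1, p) (g, p)

/-- the relation on points -/
def Fρ (d : Y → Y → ℝ) (r : Y → Y → Prop) (F : Finset Y) (E : G → Y → Prop) (P : Finset Y)
    (a b : Y) : Prop :=
  (∃ g : G, FSt d r F E (1, a) (g, b)) ∨ (Cone d r F E P a ∧ Cone d r F E P b)

/-- the index inequality for one finite set of points -/
def QI (d : Y → Y → ℝ) (r : Y → Y → Prop) (F : Finset Y) (E : G → Y → Prop)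
    (Ed : G → Y × Y → Prop) (P : Finset Y) (A : Finset Y) (c : ℤ) : Prop :=
  ∀ Δ : Finset (Y × Y), (∀ δ ∈ Δ, δ.1 ∈ A ∧ δ.2 ∈ Hull d F ∧ ¬ r δ.1 δ.2) →
    (ncls (Fσ d r F Ed) Δ : ℤ) ≤ 2 * ncls (Fρ d r F E P) A + c

/-- the index inequality -/
def PI (d : Y → Y → ℝ) (r : Y → Y → Prop) (F : Finset Y) (B : Finset (G × Y × Y)) (P : Finset Y)
    (c : ℤ) : Prop :=
  ∃ V : Finset Y, (∀ v ∈ V, v ∈ Hull d F) ∧ ∀ A : Finset Y, V ⊆ A → (∀ y ∈ A, y ∈ Hull d F) →
    QI d r F (EB d B) (EdB d r B) P A c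

/-- bands together with the rungs of a new band before the class of `y` -/
def ER (d : Y → Y → ℝ) (r : Y → Y → Prop) (B : Finset (G × Y × Y)) (φ : G) (x y : Y) (k : G)
    (p : Y) : Prop := EB d B k p ∨ (k = φ ∧ Bt d x p y ∧ ¬ r p y)

/-- the rung at `y` is redundant -/
def TR (d : Y → Y → ℝ) (r : Y → Y → Prop) (F : Finset Y) (B : Finset (G × Y × Y)) (P : Finset Y)
    (φ : G) (x y : Y) : Prop :=
  FP d r F (ER d r B φ x y) (1, y) (φ, φ • y) ∨
    (Cone d r F (ER d r B φ x y) P y ∧ Cone d r F (ER d r B φ x y) P (φ • y))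

/-- `f'` differs from `f` by a factor that is constant on leaves and trivial on coned leaves -/
def Agree (d : Y → Y → ℝ) (r : Y → Y → Prop) (F : Finset Y) (B : Finset (G × Y × Y))
    (P : Finset Y) {Γ : Type} [Group Γ] (f f' : G → Y → Γ) : Prop :=
  ∃ γ : G × Y → Γ, (∀ (g : G) p, g • p ∈ Hull d F → f' g p = f g p * γ (g, g • p)) ∧
    (∀ a b, FP d r F (EB d B) a b → γ a = γ b) ∧
    ∀ a : G × Y, Cone d r F (EB d B) P a.2 → γ a = 1

variable {d : Y → Y → ℝ} {r : Y → Y → Prop} {F : Finset Y} {E E' : G → Y → Prop} {P : Finset Y}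

theorem Cone.mono (hE : ∀ k p, E k p → E' k p) {F' : Finset Y} (hF : F ⊆ F') {p : Y}
    (c : Cone d r F E P p) : Cone d r F' E' P p := by
  rcases c with ⟨s, hs, g, c⟩ | ⟨g, hg, c⟩
  · exact Or.inl ⟨s, hs, g, c.mono hE hF⟩
  · exact Or.inr ⟨g, hg, c.mono hE hF⟩

theorem Cone.fp {g g' : G} {p p' : Y} (c : Cone d r F E P p) (a : FP d r F E (g, p) (g', p')) :
    Cone d r F E P p' := by
  have a1 : FP d r F E (1, p') (g * g'⁻¹, p) := by
    have := FP.mul (EqvGen.symm _ _ a) g'⁻¹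
    rwa [mul_inv_cancel] at this
  rcases c with ⟨s, hs, k, c⟩ | ⟨k, hk, c⟩
  · have := c.mul (g * g'⁻¹)
    rw [one_mul] at this
    exact Or.inl ⟨s, hs, _, EqvGen.trans _ _ _ a1 this⟩
  · have b1 := c.mul (g * g'⁻¹)
    rw [one_mul] at b1
    have b2 := a.mul (g⁻¹ * (k * (g * g'⁻¹)))
    rw [mul_inv_cancel_left] at b2
    refine Or.inr ⟨_, fun e => hk ?_, EqvGen.trans _ _ _ (EqvGen.trans _ _ _ a1 b1) b2⟩
    have e1 : k = g * g'⁻¹ * (g' * (g⁻¹ * (k * (g * g'⁻¹)))) * (g * g'⁻¹)⁻¹ := by group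
    rw [e1, e]; group

theorem not_cone_uniq {g g' k : G} {p p' : Y} (n : ¬ Cone d r F E P p')
    (a : FP d r F E (k, p) (g, p')) (b : FP d r F E (k, p) (g', p')) : g = g' := by
  by_contra hne
  have c := FP.mul (EqvGen.trans _ _ _ (EqvGen.symm _ _ a) b) g⁻¹
  rw [mul_inv_cancel] at c
  exact n (Or.inr ⟨_, fun e => hne (mul_inv_eq_one.1 e).symm, c⟩)

end Pool.Agent.Work.MP_904812_al
end

-- merged part: Pool.Agent.Work.MP_904812_al.QGr
section
/-! Graphs, forests and labelled paths. -/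

namespace Pool.Agent.Work.MP_904812_al

set_option linter.unusedSectionVars false
set_option linter.unusedVariables false

open Subgroup MulAction

section walk
variable {A E Γ : Type*} [Group Γ] {src tgt : E → A} {l : E → Γ}

theorem GWalk.trans {a b c : A} {t t' : Γ} (p : GWalk src tgt l a t b)
    (p' : GWalk src tgt l b t' c) : GWalk src tgt l a (t' * t) c := by
  induction p' with
  | nil => simpa using p
  | fwd e _ ih => rw [mul_assoc]; exact GWalk.fwd e ih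
  | bwd e _ ih => rw [mul_assoc]; exact GWalk.bwd e ih

theorem GWalk.symm {a b : A} {t : Γ} (p : GWalk src tgt l a t b) : GWalk src tgt l b t⁻¹ a := by
  induction p with
  | nil => simpa using GWalk.nil
  | fwd e _ ih =>
    have h1 : GWalk src tgt l (tgt e) ((l e)⁻¹ * 1) (src e) := GWalk.bwd e GWalk.nil
    have := GWalk.trans h1 ih
    simpa [mul_inv_rev] using this
  | bwd e _ ih =>
    have h1 : GWalk src tgt l (src e) (l e * 1) (tgt e) := GWalk.fwd e GWalk.nil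
    have := GWalk.trans h1 ih
    simpa [mul_inv_rev] using this

/-- connectedness by walks -/
def QGr_setoid (src tgt : E → A) (l : E → Γ) : Setoid A where
  r a b := ∃ t, GWalk src tgt l a t b
  iseqv := ⟨fun a => ⟨1, GWalk.nil⟩, fun ⟨_, p⟩ => ⟨_, p.symm⟩,
    fun ⟨_, p⟩ ⟨_, p'⟩ => ⟨_, p.trans p'⟩⟩

theorem pot_of_hol (h : ∀ a t, GWalk src tgt l a t a → t = 1) (a₀ : A) :
    ∃ ψ : A → Γ, ψ a₀ = 1 ∧ ∀ e, ψ (tgt e) = l e * ψ (src e) := by
  let S : Setoid A := QGr_setoid src tgt l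
  have hb : ∀ a : A, ∃ t, GWalk src tgt l (Quotient.mk S a).out t a := fun a =>
    Quotient.mk_out (s := S) a
  choose ψ hψ using hb
  refine ⟨fun a => ψ a * (ψ a₀)⁻¹, by simp, fun e => ?_⟩
  have hq : Quotient.mk S (src e) = Quotient.mk S (tgt e) :=
    Quotient.sound ⟨_, GWalk.fwd e GWalk.nil⟩
  have h1 := GWalk.fwd e (hψ (src e))
  have h2 := hψ (tgt e)
  rw [← hq] at h2
  have h3 := h _ _ (GWalk.trans h1 h2.symm)
  have h4 : ψ (tgt e) = l e * ψ (src e) := by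
    rw [inv_mul_eq_one] at h3; exact h3
  simp only [h4, mul_assoc]

theorem QGr_fin_pot (src tgt : E → A) (l : E → Γ) (T : Finset E)
    (h : ∀ T' ⊆ T, T'.Nonempty → ∃ e₀ ∈ T', ∃ s : A → Prop, s (tgt e₀) ∧ ¬ s (src e₀) ∧
      ∀ e ∈ T', e ≠ e₀ → (s (src e) ↔ s (tgt e))) :
    ∃ ψ : A → Γ, ∀ e ∈ T, ψ (tgt e) = l e * ψ (src e) := by
  classical
  induction T using Finset.strongInduction with
  | H T ih =>
    rcases T.eq_empty_or_nonempty with rfl | hne
    · exact ⟨fun _ => 1, by simp⟩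
    obtain ⟨e₀, he₀, s, hs1, hs2, hs3⟩ := h T (Finset.Subset.refl _) hne
    obtain ⟨ψ, hψ⟩ := ih (T.erase e₀) (Finset.erase_ssubset he₀)
      (fun T' hT' hne' => h T' (hT'.trans (Finset.erase_subset _ _)) hne')
    refine ⟨fun a => if s a then ψ a * ((ψ (tgt e₀))⁻¹ * (l e₀ * ψ (src e₀))) else ψ a,
      fun e he => ?_⟩
    by_cases hee : e = e₀
    · subst hee
      simp [hs1, hs2]
    · have h1 := hψ e (Finset.mem_erase.2 ⟨hee, he⟩)
      have h2 := hs3 e he hee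
      by_cases h3 : s (src e)
      · simp only [h3, h2.1 h3, if_true, h1, mul_assoc]
      · have h4 : ¬ s (tgt e) := fun h4 => h3 (h2.2 h4)
        simp only [h3, h4, if_false, h1]

theorem QGr_walk_pot {a b : A} {t : Γ} (p : GWalk src tgt l a t b) :
    ∃ T : Finset E, ∀ ψ : A → Γ, (∀ e ∈ T, ψ (tgt e) = l e * ψ (src e)) → ψ b = t * ψ a := by
  classical
  induction p with
  | nil => exact ⟨∅, fun ψ _ => by simp⟩
  | fwd e _ ih =>
    obtain ⟨T, hT⟩ := ih
    refine ⟨insert e T, fun ψ hψ => ?_⟩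
    rw [hψ e (Finset.mem_insert_self _ _), hT ψ (fun e' he' => hψ e' (Finset.mem_insert_of_mem he')),
      mul_assoc]
  | bwd e _ ih =>
    obtain ⟨T, hT⟩ := ih
    refine ⟨insert e T, fun ψ hψ => ?_⟩
    have h1 := hψ e (Finset.mem_insert_self _ _)
    have h2 := hT ψ (fun e' he' => hψ e' (Finset.mem_insert_of_mem he'))
    rw [mul_assoc, ← h2, h1]
    simp

/-- potentials on forests -/
theorem forest_solve (src tgt : E → A) (l : E → Γ)
    (h : ∀ T : Finset E, T.Nonempty → ∃ e₀ ∈ T, ∃ s : A → Prop, s (tgt e₀) ∧ ¬ s (src e₀) ∧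
      ∀ e ∈ T, e ≠ e₀ → (s (src e) ↔ s (tgt e))) (a₀ : A) :
    ∃ ψ : A → Γ, ψ a₀ = 1 ∧ ∀ e, ψ (tgt e) = l e * ψ (src e) := by
  refine pot_of_hol (fun a t p => ?_) a₀
  obtain ⟨T, hT⟩ := QGr_walk_pot p
  obtain ⟨ψ, hψ⟩ := QGr_fin_pot src tgt l T (fun T' _ hne => h T' hne)
  have := hT ψ hψ
  simpa using this.symm

theorem QGr_card_le (src tgt : E → A) (S : Finset A) (T : Finset E)
    (hs : ∀ e ∈ T, src e ∈ S ∧ tgt e ∈ S)
    (h : ∀ T' ⊆ T, T'.Nonempty → ∃ e₀ ∈ T', ∃ s : A → Prop, s (tgt e₀) ∧ ¬ s (src e₀) ∧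
      ∀ e ∈ T', e ≠ e₀ → (s (src e) ↔ s (tgt e))) : T.card ≤ S.card := by
  classical
  let F : (S → ℤˣ) → (T → ℤˣ) := fun ψ e =>
    ψ ⟨tgt e, (hs e e.2).2⟩ * (ψ ⟨src e, (hs e e.2).1⟩)⁻¹
  have hF : Function.Surjective F := by
    intro l
    obtain ⟨ψ, hψ⟩ := QGr_fin_pot src tgt (fun e => if he : e ∈ T then l ⟨e, he⟩ else 1) T h
    refine ⟨fun a => ψ a, funext fun e => ?_⟩
    have := hψ e e.2
    simp only [e.2, dif_pos] at this
    simp only [F, this, mul_inv_cancel_right]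
  have h1 := Fintype.card_le_of_surjective F hF
  simp only [Fintype.card_fun, Fintype.card_units_int, Fintype.card_coe] at h1
  exact (Nat.pow_le_pow_iff_right (by norm_num)).1 h1

theorem forest_sum (src tgt : E → A) (TA : Finset A) (TE : Finset E)
    (hs : ∀ e ∈ TE, src e ∈ TA ∧ tgt e ∈ TA)
    (h : ∀ e₀ ∈ TE, ∃ s : A → Prop, s (tgt e₀) ∧ ¬ s (src e₀) ∧
      ∀ e ∈ TE, e ≠ e₀ → (s (src e) ↔ s (tgt e)))
    (w : A → ℝ) (hw : ∀ a ∈ TA, 0 ≤ w a) (hw' : ∀ e ∈ TE, w (src e) = w (tgt e)) :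
    ∑ e ∈ TE, w (src e) ≤ ∑ a ∈ TA, w a := by
  classical
  let N : TE → Finset A := fun e => {src e, tgt e}
  have hall : ∀ s : Finset TE, s.card ≤ (s.biUnion N).card := by
    intro s
    have h1 := QGr_card_le src tgt (s.biUnion N) (s.map (Function.Embedding.subtype _)) ?_ ?_
    · simpa using h1
    · intro e he
      obtain ⟨e', he', rfl⟩ := Finset.mem_map.1 he
      constructor
      · exact Finset.mem_biUnion.2 ⟨e', he', by simp [N]⟩
      · exact Finset.mem_biUnion.2 ⟨e', he', by simp [N]⟩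
    · intro T' hT' ⟨e₀, he₀⟩
      have hsub : ∀ e ∈ T', e ∈ TE := by
        intro e he
        obtain ⟨e', he', rfl⟩ := Finset.mem_map.1 (hT' he)
        exact e'.2
      obtain ⟨s', h1, h2, h3⟩ := h e₀ (hsub _ he₀)
      exact ⟨e₀, he₀, s', h1, h2, fun e he hne => h3 e (hsub e he) hne⟩
  obtain ⟨f, hf, hfN⟩ := (Finset.all_card_le_biUnion_card_iff_exists_injective N).1 hall
  have hfw : ∀ e : TE, w (src e) = w (f e) := by
    intro e
    have := hfN e
    simp only [N, Finset.mem_insert, Finset.mem_singleton] at this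
    rcases this with h1 | h1
    · rw [h1]
    · rw [h1]; exact hw' e e.2
  have hfA : ∀ e : TE, f e ∈ TA := by
    intro e
    have := hfN e
    simp only [N, Finset.mem_insert, Finset.mem_singleton] at this
    rcases this with h1 | h1
    · rw [h1]; exact (hs e e.2).1
    · rw [h1]; exact (hs e e.2).2
  calc ∑ e ∈ TE, w (src e) = ∑ e : TE, w (src e) := (Finset.sum_coe_sort TE _).symm
    _ = ∑ e : TE, w (f e) := Finset.sum_congr rfl (fun e _ => hfw e)
    _ = ∑ a ∈ Finset.univ.image f, w a := by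
        rw [Finset.sum_image (fun x _ y _ hxy => hf hxy)]
    _ ≤ ∑ a ∈ TA, w a := by
        refine Finset.sum_le_sum_of_subset_of_nonneg ?_ (fun a ha _ => hw a ha)
        intro a ha
        obtain ⟨e, _, rfl⟩ := Finset.mem_image.1 ha
        exact hfA e

theorem QGr_cross {a b : A} {t : Γ} (p : GWalk src tgt l a t b) (S : Finset A) (ha : a ∈ S)
    (hb : b ∉ S) : ∃ e, (∃ t, GWalk src tgt l a t (src e)) ∧
      ((src e ∈ S ∧ tgt e ∉ S) ∨ (src e ∉ S ∧ tgt e ∈ S)) := by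
  induction p with
  | nil => exact absurd ha hb
  | fwd e p ih =>
    by_cases h : src e ∈ S
    · exact ⟨e, ⟨_, p⟩, Or.inl ⟨h, hb⟩⟩
    · exact ih h
  | bwd e p ih =>
    by_cases h : tgt e ∈ S
    · exact ⟨e, ⟨_, GWalk.bwd e p⟩, Or.inr ⟨hb, h⟩⟩
    · exact ih h

theorem QGr_span (src tgt : E → A) (l : E → Γ) (a₀ : A) (C : Finset A)
    (hC : ∀ a, a ∈ C ↔ ∃ t, GWalk src tgt l a₀ t a) (n : ℕ) (hn : n + 1 ≤ C.card) :
    ∃ (S : Finset A) (F : Finset E) (ψ : A → Γ), a₀ ∈ S ∧ S ⊆ C ∧ S.card = n + 1 ∧ F.card = n ∧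
      ψ a₀ = 1 ∧ ∀ e ∈ F, src e ∈ S ∧ tgt e ∈ S ∧ ψ (tgt e) = l e * ψ (src e) := by
  classical
  induction n with
  | zero =>
    refine ⟨{a₀}, ∅, fun _ => 1, by simp, ?_, by simp, by simp, rfl, by simp⟩
    simpa using (hC a₀).2 ⟨1, GWalk.nil⟩
  | succ n ih =>
    obtain ⟨S, F, ψ, h1, h2, h3, h4, h5, h6⟩ := ih (by omega)
    obtain ⟨b, hbC, hbS⟩ : ∃ b ∈ C, b ∉ S := by
      by_contra hcon
      push Not at hcon
      have := Finset.card_le_card (show C ⊆ S from hcon)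
      omega
    obtain ⟨t, p⟩ := (hC b).1 hbC
    obtain ⟨e, ⟨t', p'⟩, he⟩ := QGr_cross p S h1 hbS
    have heF : e ∉ F := by
      intro heF
      have := h6 e heF
      tauto
    rcases he with ⟨he1, he2⟩ | ⟨he1, he2⟩
    · refine ⟨insert (tgt e) S, insert e F, Function.update ψ (tgt e) (l e * ψ (src e)),
        Finset.mem_insert_of_mem h1, ?_, by rw [Finset.card_insert_of_notMem he2, h3],
        by rw [Finset.card_insert_of_notMem heF, h4], ?_, ?_⟩
      · exact Finset.insert_subset ((hC _).2 ⟨_, GWalk.fwd e p'⟩) h2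
      · rw [Function.update_of_ne (by rintro h; exact he2 (h ▸ h1)), h5]
      · intro e' he'
        rcases Finset.mem_insert.1 he' with rfl | he'
        · refine ⟨Finset.mem_insert_of_mem he1, Finset.mem_insert_self _ _, ?_⟩
          rw [Function.update_self, Function.update_of_ne (by rintro h; exact he2 (h ▸ he1))]
        · obtain ⟨k1, k2, k3⟩ := h6 e' he'
          refine ⟨Finset.mem_insert_of_mem k1, Finset.mem_insert_of_mem k2, ?_⟩
          rw [Function.update_of_ne (by rintro h; exact he2 (h ▸ k2)),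
            Function.update_of_ne (by rintro h; exact he2 (h ▸ k1)), k3]
    · refine ⟨insert (src e) S, insert e F, Function.update ψ (src e) ((l e)⁻¹ * ψ (tgt e)),
        Finset.mem_insert_of_mem h1, ?_, by rw [Finset.card_insert_of_notMem he1, h3],
        by rw [Finset.card_insert_of_notMem heF, h4], ?_, ?_⟩
      · exact Finset.insert_subset ((hC _).2 ⟨_, p'⟩) h2
      · rw [Function.update_of_ne (by rintro h; exact he1 (h ▸ h1)), h5]
      · intro e' he'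
        rcases Finset.mem_insert.1 he' with rfl | he'
        · refine ⟨Finset.mem_insert_self _ _, Finset.mem_insert_of_mem he2, ?_⟩
          rw [Function.update_self, Function.update_of_ne (by rintro h; exact he1 (h ▸ he2))]
          simp
        · obtain ⟨k1, k2, k3⟩ := h6 e' he'
          refine ⟨Finset.mem_insert_of_mem k1, Finset.mem_insert_of_mem k2, ?_⟩
          rw [Function.update_of_ne (by rintro h; exact he1 (h ▸ k2)),
            Function.update_of_ne (by rintro h; exact he1 (h ▸ k1)), k3]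

theorem QGr_rank (src tgt : E → A) (l : E → Γ) (a₀ : A) (C : Finset A) (EC : Finset E)
    (hC : ∀ a, a ∈ C ↔ ∃ t, GWalk src tgt l a₀ t a) (hE : ∀ e, e ∈ EC ↔ src e ∈ C) :
    ∃ T : Finset Γ, T.card + C.card ≤ EC.card + 1 ∧
      ∀ t, GWalk src tgt l a₀ t a₀ → t ∈ closure (T : Set Γ) := by
  classical
  have hpos : 0 < C.card := Finset.card_pos.2 ⟨a₀, (hC a₀).2 ⟨1, GWalk.nil⟩⟩
  obtain ⟨S, F, ψ, h1, h2, h3, h4, h5, h6⟩ := QGr_span src tgt l a₀ C hC (C.card - 1) (by omega)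
  have hFE : F ⊆ EC := fun e he => (hE e).2 (h2 (h6 e he).1)
  let T : Finset Γ := (EC \ F).image fun e => (ψ (tgt e))⁻¹ * l e * ψ (src e)
  have hT : T.card ≤ (EC \ F).card := Finset.card_image_le
  have hc := Finset.card_sdiff_add_card_eq_card hFE
  refine ⟨T, by omega, ?_⟩
  have hmem : ∀ e, src e ∈ C → (ψ (tgt e))⁻¹ * l e * ψ (src e) ∈ closure (T : Set Γ) := by
    intro e he
    by_cases heF : e ∈ F
    · rw [(h6 e heF).2.2]
      simp
    · exact subset_closure (Finset.mem_coe.2 (Finset.mem_image.2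
        ⟨e, Finset.mem_sdiff.2 ⟨(hE e).2 he, heF⟩, rfl⟩))
  have key : ∀ t a, GWalk src tgt l a₀ t a → (ψ a)⁻¹ * t ∈ closure (T : Set Γ) := by
    intro t a p
    induction p with
    | nil => simp [h5]
    | fwd e p ih =>
      have := mul_mem (hmem e ((hC _).2 ⟨_, p⟩)) ih
      simpa [mul_assoc] using this
    | bwd e p ih =>
      have := mul_mem (inv_mem (hmem e ((hC _).2 ⟨_, GWalk.bwd e p⟩))) ih
      simpa [mul_assoc] using this
  intro t p
  simpa [h5] using key t a₀ p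

/-- the rank of the group of loops of a finite connected graph -/
theorem graph_rank [Fintype A] [Fintype E] (src tgt : E → A) (l : E → Γ) (a₀ : A)
    (conn : ∀ a, ∃ t, GWalk src tgt l a₀ t a) :
    ∃ T : Finset Γ, T.card + Fintype.card A ≤ Fintype.card E + 1 ∧
      ∀ t, GWalk src tgt l a₀ t a₀ → t ∈ closure (T : Set Γ) := by
  classical
  obtain ⟨T, h1, h2⟩ := QGr_rank src tgt l a₀ Finset.univ Finset.univ (by simpa using conn)
    (by simp)
  exact ⟨T, by simpa using h1, h2⟩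

/-- a finite graph with at most as many edges as vertices -/
theorem graph_dich [Fintype A] [Fintype E] (src tgt : E → A) (l : E → Γ)
    (h : Fintype.card E ≤ Fintype.card A) :
    (∃ a, ∀ t, GWalk src tgt l a t a → t = 1) ∨
      ∀ a, ∃ c, ∀ t, GWalk src tgt l a t a → t ∈ zpowers c := by
  classical
  by_cases h0 : ∃ a, ∀ t, GWalk src tgt l a t a → t = 1
  · exact Or.inl h0
  right
  push Not at h0
  let S : Setoid A := QGr_setoid src tgt l
  let π : A → Quotient S := Quotient.mk S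
  let C : Quotient S → Finset A := fun c => Finset.univ.filter fun a => π a = c
  let EC : Quotient S → Finset E := fun c => Finset.univ.filter fun e => π (src e) = c
  have hr : ∀ a, ∃ T : Finset Γ, T.card + (C (π a)).card ≤ (EC (π a)).card + 1 ∧
      ∀ t, GWalk src tgt l a t a → t ∈ closure (T : Set Γ) := by
    intro a
    refine QGr_rank src tgt l a _ _ (fun b => ?_) (fun e => by simp [C, EC])
    simp only [C, Finset.mem_filter, Finset.mem_univ, true_and]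
    rw [eq_comm]
    exact Quotient.eq (r := S)
  have hle : ∀ c, (C c).card ≤ (EC c).card := by
    intro c
    obtain ⟨a, rfl⟩ := Quotient.exists_rep c
    obtain ⟨T, h1, h2⟩ := hr a
    obtain ⟨t, p, ht⟩ := h0 a
    have hT : T.card ≠ 0 := by
      intro hT
      rw [Finset.card_eq_zero] at hT
      have := h2 t p
      rw [hT] at this
      simp at this
      exact ht this
    change (C (π a)).card ≤ (EC (π a)).card
    omega
  have hA : Fintype.card A = ∑ c ∈ Finset.univ.image π, (C c).card :=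
    Finset.card_eq_sum_card_fiberwise (fun a _ => by simp)
  have hE : Fintype.card E = ∑ c ∈ Finset.univ.image π, (EC c).card :=
    Finset.card_eq_sum_card_fiberwise (f := fun e => π (src e)) (fun e _ => by simp)
  intro a
  obtain ⟨T, h1, h2⟩ := hr a
  have hge : (EC (π a)).card ≤ (C (π a)).card := by
    by_contra hlt
    push Not at hlt
    have := Finset.sum_lt_sum (s := Finset.univ.image π) (fun c _ => hle c)
      ⟨π a, by simp, hlt⟩
    omega
  have hT : T.card ≤ 1 := by omega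
  obtain ⟨c, hc⟩ := (Finset.card_le_one_iff_subset_singleton).1 hT
  refine ⟨c, fun t p => ?_⟩
  have h3 : closure (T : Set Γ) ≤ zpowers c := by
    rw [closure_le]
    intro x hx
    have := hc (Finset.mem_coe.1 hx)
    rw [Finset.mem_singleton] at this
    rw [this]
    exact mem_zpowers c
  exact h3 (h2 t p)

end walk

section wpath
variable {ι V : Type*} {R R' : ι → V → V → Prop}

theorem WPath.trans {x y z : V} {ω ω' : FreeGroup ι} (p : WPath R x ω y) (p' : WPath R y ω' z) :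
    WPath R x (ω' * ω) z := by
  induction p' with
  | nil => simpa using p
  | fwd _ r ih => rw [mul_assoc]; exact WPath.fwd ih r
  | bwd _ r ih => rw [mul_assoc]; exact WPath.bwd ih r

theorem WPath.symm {x y : V} {ω : FreeGroup ι} (p : WPath R x ω y) : WPath R y ω⁻¹ x := by
  induction p with
  | nil => simpa using WPath.nil
  | fwd _ r ih =>
    have := WPath.trans (WPath.bwd WPath.nil r) ih
    simpa [mul_inv_rev] using this
  | bwd _ r ih =>
    have := WPath.trans (WPath.fwd WPath.nil r) ih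
    simpa [mul_inv_rev] using this

theorem WPath.mono (h : ∀ i a b, R i a b → R' i a b) {x y : V} {ω : FreeGroup ι}
    (p : WPath R x ω y) : WPath R' x ω y := by
  induction p with
  | nil => exact WPath.nil
  | fwd _ r ih => exact WPath.fwd ih (h _ _ _ r)
  | bwd _ r ih => exact WPath.bwd ih (h _ _ _ r)

/-- paths along a list of letters; the head of the list is the last step -/
def LPath (R : ι → V → V → Prop) (x : V) : List (ι × Bool) → V → Prop
  | [], y => y = x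
  | (i, true) :: L, z => ∃ y, LPath R x L y ∧ R i y z
  | (i, false) :: L, z => ∃ y, LPath R x L y ∧ R i z y

theorem QGr_mk_true (i : ι) (L : List (ι × Bool)) :
    FreeGroup.mk ((i, true) :: L) = FreeGroup.of i * FreeGroup.mk L := by
  rw [FreeGroup.of, FreeGroup.mul_mk]; rfl

theorem QGr_mk_false (i : ι) (L : List (ι × Bool)) :
    FreeGroup.mk ((i, false) :: L) = (FreeGroup.of i)⁻¹ * FreeGroup.mk L := by
  rw [FreeGroup.of, FreeGroup.inv_mk, FreeGroup.mul_mk]; rfl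

theorem LPath.wpath {x y : V} {L : List (ι × Bool)} (p : LPath R x L y) :
    WPath R x (FreeGroup.mk L) y := by
  induction L generalizing y with
  | nil =>
    have : y = x := p
    subst this
    exact WPath.nil
  | cons a L ih =>
    obtain ⟨i, b⟩ := a
    cases b with
    | true =>
      obtain ⟨z, h1, h2⟩ := p
      rw [QGr_mk_true]
      exact WPath.fwd (ih h1) h2
    | false =>
      obtain ⟨z, h1, h2⟩ := p
      rw [QGr_mk_false]
      exact WPath.bwd (ih h1) h2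

theorem WPath.lpath {x y : V} {ω : FreeGroup ι} (p : WPath R x ω y) :
    ∃ L, FreeGroup.mk L = ω ∧ LPath R x L y := by
  induction p with
  | nil => exact ⟨[], rfl, rfl⟩
  | @fwd ω y z i _ r ih =>
    obtain ⟨L, h1, h2⟩ := ih
    exact ⟨(i, true) :: L, by rw [QGr_mk_true, h1], ⟨y, h2, r⟩⟩
  | @bwd ω y z i _ r ih =>
    obtain ⟨L, h1, h2⟩ := ih
    exact ⟨(i, false) :: L, by rw [QGr_mk_false, h1], ⟨y, h2, r⟩⟩

theorem QGr_step (fn : ∀ i a b b', R i a b → R i a b' → b = b')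
    (inj : ∀ i a a' b, R i a b → R i a' b → a = a') {x y : V} (L₁ L₂ : List (ι × Bool)) (i : ι)
    (b : Bool) (p : LPath R x (L₁ ++ (i, b) :: (i, !b) :: L₂) y) : LPath R x (L₁ ++ L₂) y := by
  induction L₁ generalizing y with
  | nil =>
    cases b with
    | true =>
      obtain ⟨z, ⟨w, h1, h2⟩, h3⟩ := p
      rw [← fn _ _ _ _ h2 h3]
      exact h1
    | false =>
      obtain ⟨z, ⟨w, h1, h2⟩, h3⟩ := p
      rw [← inj _ _ _ _ h2 h3]
      exact h1
  | cons a L ih =>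
    obtain ⟨j, c⟩ := a
    cases c with
    | true =>
      obtain ⟨z, h1, h2⟩ := p
      exact ⟨z, ih h1, h2⟩
    | false =>
      obtain ⟨z, h1, h2⟩ := p
      exact ⟨z, ih h1, h2⟩

/-- for injective functional relations a path can be taken along the reduced word -/
theorem WPath.reduced [DecidableEq ι] (fn : ∀ i a b b', R i a b → R i a b' → b = b')
    (inj : ∀ i a a' b, R i a b → R i a' b → a = a') {x y : V} {ω : FreeGroup ι}
    (p : WPath R x ω y) : LPath R x ω.toWord y := by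
  obtain ⟨L, rfl, q⟩ := p.lpath
  rw [FreeGroup.toWord_mk]
  have hred : ∀ L', FreeGroup.Red L L' → LPath R x L' y := by
    intro L' h
    induction h with
    | refl => exact q
    | tail _ hs ih =>
      cases hs with
      | not => exact QGr_step fn inj _ _ _ _ ih
  exact hred _ FreeGroup.reduce.red

theorem WPath.eq_of_one (fn : ∀ i a b b', R i a b → R i a b' → b = b')
    (inj : ∀ i a a' b, R i a b → R i a' b → a = a') {x y : V} (p : WPath R x 1 y) : y = x := by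
  classical
  have := p.reduced fn inj
  rw [FreeGroup.toWord_one] at this
  exact this

theorem QGr_pair {x y x' y' : V} {L : List (ι × Bool)} (p : LPath R x L x')
    (p' : LPath R y L y') :
    LPath (fun i (a b : V × V) => R i a.1 b.1 ∧ R i a.2 b.2) (x, y) L (x', y') := by
  induction L generalizing x' y' with
  | nil =>
    have h1 : x' = x := p
    have h2 : y' = y := p'
    subst h1 h2
    rfl
  | cons a L ih =>
    obtain ⟨j, c⟩ := a
    cases c with
    | true =>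
      obtain ⟨z, h1, h2⟩ := p
      obtain ⟨z', h1', h2'⟩ := p'
      exact ⟨(z, z'), ih h1 h1', h2, h2'⟩
    | false =>
      obtain ⟨z, h1, h2⟩ := p
      obtain ⟨z', h1', h2'⟩ := p'
      exact ⟨(z, z'), ih h1 h1', h2, h2'⟩

theorem WPath.pair (fn : ∀ i a b b', R i a b → R i a b' → b = b')
    (inj : ∀ i a a' b, R i a b → R i a' b → a = a') {x y x' y' : V} {ω : FreeGroup ι}
    (p : WPath R x ω x') (p' : WPath R y ω y') :
    WPath (fun i (a b : V × V) => R i a.1 b.1 ∧ R i a.2 b.2) (x, y) ω (x', y') := by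
  classical
  have h := QGr_pair (p.reduced fn inj) (p'.reduced fn inj)
  have := h.wpath
  rwa [FreeGroup.mk_toWord] at this

/-- every cochain on the Cayley tree of a free group is a coboundary -/
theorem free_exact {Γ : Type*} [Group Γ] (β : FreeGroup ι → ι → Γ) :
    ∃ Φ : FreeGroup ι → Γ, Φ 1 = 1 ∧ ∀ ω i, Φ (ω * FreeGroup.of i) = β ω i * Φ ω := by
  let σ : ι → Equiv.Perm (FreeGroup ι × Γ) := fun i =>
    { toFun := fun p => (p.1 * FreeGroup.of i, β p.1 i * p.2)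
      invFun := fun p => (p.1 * (FreeGroup.of i)⁻¹, (β (p.1 * (FreeGroup.of i)⁻¹) i)⁻¹ * p.2)
      left_inv := fun p => by simp
      right_inv := fun p => by simp }
  let ρ : FreeGroup ι →* Equiv.Perm (FreeGroup ι × Γ) := FreeGroup.lift fun i => (σ i)⁻¹
  have h1 : ∀ ω p, (ρ ω p).1 = p.1 * ω⁻¹ := by
    intro ω
    induction ω using FreeGroup.induction_on with
    | C1 => intro p; simp
    | of i => intro p; simp only [ρ, FreeGroup.lift_apply_of]; rfl
    | inv_of i _ =>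
      intro p
      simp only [ρ, map_inv, FreeGroup.lift_apply_of, inv_inv]; rfl
    | mul a b ha hb =>
      intro p
      rw [map_mul, Equiv.Perm.mul_apply, ha, hb, mul_inv_rev, mul_assoc]
  refine ⟨fun ω => (ρ ω⁻¹ (1, 1)).2, by simp, fun ω i => ?_⟩
  have h2 : ρ (ω * FreeGroup.of i)⁻¹ = σ i * ρ ω⁻¹ := by
    rw [mul_inv_rev, map_mul, map_inv ρ (FreeGroup.of i)]
    simp only [ρ, FreeGroup.lift_apply_of, inv_inv]
  have h3 := h1 ω⁻¹ (1, 1)
  simp only [inv_inv, one_mul] at h3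
  show (ρ (ω * FreeGroup.of i)⁻¹ (1, 1)).2 = β ω i * (ρ ω⁻¹ (1, 1)).2
  rw [h2, Equiv.Perm.mul_apply]
  show β (ρ ω⁻¹ (1, 1)).1 i * _ = _
  rw [h3]

end wpath

end Pool.Agent.Work.MP_904812_al
end

-- merged part: Pool.Agent.Work.MP_904812_al.QHG4
section
/-! Extending closed cochains over a band of bridges. -/

namespace Pool.Agent.Work.MP_904812_al

set_option linter.unusedSectionVars false
set_option linter.unusedVariables false

open Subgroup MulAction Relation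

variable {G Y : Type} [Group G] [MulAction G Y] {d : Y → Y → ℝ} {r : Y → Y → Prop}
  {F P : Finset Y} {B : Finset (G × Y × Y)} {c : ℤ} {φ : G} {x y : Y}

theorem QHG4_back {E : G → Y → Prop} {a b : G × Y} (e : FP d r F E a b)
    (k : Cone d r F E P a.2) : Cone d r F E P b.2 :=
  Cone.fp (g := a.1) (g' := b.1) k e

theorem QHG4_symm {E : G → Y → Prop} {a b : G × Y} (e : FP d r F E a b) : FP d r F E b a :=
  EqvGen.symm _ _ e

theorem QHG4_trans {E : G → Y → Prop} {a b c : G × Y} (e : FP d r F E a b)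
    (e' : FP d r F E b c) : FP d r F E a c := EqvGen.trans _ _ _ e e'

theorem QHG4_refl {E : G → Y → Prop} (a : G × Y) : FP d r F E a a := EqvGen.refl _

theorem QHG4_one {E : G → Y → Prop} {g g' : G} {p p' : Y} (e : FP d r F E (g, p) (g', p')) :
    FP d r F E (1, p) (g' * g⁻¹, p') := by
  have := e.mul g⁻¹
  rwa [mul_inv_cancel] at this

/-- a side separating the two ends of one rung and no other translate of it -/
theorem QHG4_cut (tf : TF G) {E : G → Y → Prop} {z w : Y} (g₀ : G)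
    (n1 : ¬ FP d r F E (1, z) (φ, w)) (n2 : ¬ (Cone d r F E P z ∧ Cone d r F E P w)) :
    ∃ s : G × Y → Prop, (∀ a b, FP d r F E a b → (s a ↔ s b)) ∧
      (∀ a b : G × Y, Cone d r F E P a.2 → Cone d r F E P b.2 → (s a ↔ s b)) ∧
      s (φ * g₀, w) ∧ ¬ s (g₀, z) ∧ ∀ g, g ≠ g₀ → (s (g, z) ↔ s (φ * g, w)) := by
  by_cases hχ : ∃ χ : G, FP d r F E (1, z) (χ, w)
  · obtain ⟨χ, hχ⟩ := hχ
    have cz : ¬ Cone d r F E P z := fun k => n2 ⟨k, k.fp hχ⟩
    have hne : χ⁻¹ * φ ≠ 1 := by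
      intro e
      have : χ = φ := by rw [inv_mul_eq_one] at e; exact e
      exact n1 (this ▸ hχ)
    have mv : ∀ g, FP d r F E (φ * g, w) (χ⁻¹ * φ * g, z) := fun g => by
      have := hχ.mul (χ⁻¹ * φ * g)
      rw [one_mul, show χ * (χ⁻¹ * φ * g) = φ * g by group] at this
      exact QHG4_symm this
    have uq : ∀ g g', FP d r F E (g, z) (g', z) → g = g' := fun g g' e =>
      not_cone_uniq cz (QHG4_refl _) e
    refine ⟨fun n => ∃ m : ℕ, FP d r F E n ((χ⁻¹ * φ) ^ (m + 1) * g₀, z), ?_, ?_, ?_, ?_, ?_⟩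
    · intro a b e
      exact ⟨fun ⟨m, k⟩ => ⟨m, QHG4_trans (QHG4_symm e) k⟩, fun ⟨m, k⟩ => ⟨m, QHG4_trans e k⟩⟩
    · intro a b ka kb
      exact ⟨fun ⟨m, k⟩ => absurd (QHG4_back k ka) cz, fun ⟨m, k⟩ => absurd (QHG4_back k kb) cz⟩
    · exact ⟨0, by simpa using mv g₀⟩
    · rintro ⟨m, k⟩
      have e := uq _ _ k
      refine hne (tf _ (m + 1) (by omega) ?_)
      have e' : (χ⁻¹ * φ) ^ (m + 1) * g₀ = 1 * g₀ := by rw [one_mul]; exact e.symm
      exact mul_right_cancel e'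
    · intro g hg
      constructor
      · rintro ⟨m, k⟩
        refine ⟨m + 1, ?_⟩
        have e := uq _ _ k
        have := mv g
        rw [pow_succ', mul_assoc, ← e]
        exact this
      · rintro ⟨m, k⟩
        have e := uq _ _ (QHG4_trans (QHG4_symm (mv g)) k)
        rw [pow_succ', mul_assoc (χ⁻¹ * φ)] at e
        have e' := mul_left_cancel e
        cases m with
        | zero => exact absurd (by simpa using e') hg
        | succ m => exact ⟨m, e' ▸ QHG4_refl _⟩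
  · have nz : ∀ g g', ¬ FP d r F E (g, z) (g', w) := fun g g' e => hχ ⟨_, QHG4_one e⟩
    by_cases cw : Cone d r F E P w
    · have cz : ¬ Cone d r F E P z := fun k => n2 ⟨k, cw⟩
      refine ⟨fun n => ¬ FP d r F E n (g₀, z), ?_, ?_, ?_, ?_, ?_⟩
      · intro a b e
        exact ⟨fun k k' => k (QHG4_trans e k'), fun k k' => k (QHG4_trans (QHG4_symm e) k')⟩
      · intro a b ka kb
        exact ⟨fun _ k => cz (QHG4_back k kb), fun _ k => cz (QHG4_back k ka)⟩
      · exact fun k => nz _ _ (QHG4_symm k)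
      · exact fun k => k (QHG4_refl _)
      · intro g hg
        exact ⟨fun _ k => nz _ _ (QHG4_symm k),
          fun _ k => hg (not_cone_uniq cz (QHG4_refl _) k)⟩
    · refine ⟨fun n => FP d r F E n (φ * g₀, w), ?_, ?_, ?_, ?_, ?_⟩
      · intro a b e
        exact ⟨fun k => QHG4_trans (QHG4_symm e) k, fun k => QHG4_trans e k⟩
      · intro a b ka kb
        exact ⟨fun k => absurd (QHG4_back k ka) cw, fun k => absurd (QHG4_back k kb) cw⟩
      · exact QHG4_refl _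
      · exact nz _ _
      · intro g hg
        exact ⟨fun k => absurd k (nz _ _),
          fun k => absurd (mul_left_cancel (not_cone_uniq cw (QHG4_refl _) k)) hg⟩

/-- representatives of the classes met by a segment -/
theorem QHG4_reps (h : Fat G d r) (x y : Y) : ∃ Z : Set Y, (∀ z ∈ Z, Bt d x z y ∧ ¬ r x z) ∧
    (∀ z ∈ Z, ∀ z' ∈ Z, r z z' → z = z') ∧
    ∀ p, Bt d x p y → ¬ r x p → ∃ z ∈ Z, r z p := by
  let S : Setoid {p : Y // Bt d x p y ∧ ¬ r x p} :=
    ⟨fun a b => r a.1 b.1, ⟨fun a => h.eqv.refl _, fun e => h.eqv.symm e,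
      fun e e' => h.eqv.trans e e'⟩⟩
  refine ⟨{z | ∃ q : Quotient S, q.out.1 = z}, ?_, ?_, ?_⟩
  · rintro z ⟨q, rfl⟩
    exact q.out.2
  · rintro z ⟨q, rfl⟩ z' ⟨q', rfl⟩ e
    have : q = q' := by
      rw [← q.out_eq, ← q'.out_eq]
      exact Quotient.sound e
    rw [this]
  · intro p hp np
    exact ⟨_, ⟨Quotient.mk S ⟨p, hp, np⟩, rfl⟩, Quotient.mk_out (s := S) ⟨p, hp, np⟩⟩

/-- the correcting factor -/
theorem QHG4_gamma (h : Fat G d r)
    (nt : ∀ p, Bt d x p y → ¬ r x p → ¬ TR d r F B P φ x p) {Z : Set Y}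
    (hZ : ∀ z ∈ Z, Bt d x z y ∧ ¬ r x z) (uZ : ∀ z ∈ Z, ∀ z' ∈ Z, r z z' → z = z')
    {Γ : Type} [Group Γ] (l : G → Y → Γ) :
    ∃ γ : G × Y → Γ, (∀ a b, FP d r F (EB d B) a b → γ a = γ b) ∧
      (∀ a : G × Y, Cone d r F (EB d B) P a.2 → γ a = 1) ∧
      ∀ g, ∀ z ∈ Z, γ (φ * g, φ • z) = l g z * γ (g, z) := by
  classical
  have T := h.act.tr
  let ρ : G × Y → G × Y → Prop := fun a b => FP d r F (EB d B) a b ∨
    (Cone d r F (EB d B) P a.2 ∧ Cone d r F (EB d B) P b.2)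
  obtain ⟨a₀, ha₀⟩ : ∃ a₀ : G × Y, ∀ a : G × Y, Cone d r F (EB d B) P a.2 →
      Cone d r F (EB d B) P a₀.2 := by
    by_cases hc : ∃ a : G × Y, Cone d r F (EB d B) P a.2
    · obtain ⟨a, ha⟩ := hc
      exact ⟨a, fun _ _ => ha⟩
    · exact ⟨(1, x), fun a ha => absurd ⟨a, ha⟩ hc⟩
  have hf : ∀ S : Finset (G × Z), S.Nonempty → ∃ e₀ ∈ S, ∃ s : Quot ρ → Prop,
      s (Quot.mk ρ (φ * e₀.1, φ • e₀.2.1)) ∧ ¬ s (Quot.mk ρ (e₀.1, e₀.2.1)) ∧
      ∀ e ∈ S, e ≠ e₀ → (s (Quot.mk ρ (e.1, e.2.1)) ↔ s (Quot.mk ρ (φ * e.1, φ • e.2.1))) := by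
    intro S hS
    obtain ⟨e₀, he₀, hmax⟩ := S.exists_max_image (fun e => d x e.2.1) hS
    obtain ⟨g₀, z₀, hz₀⟩ := e₀
    have n := nt z₀ (hZ z₀ hz₀).1 (hZ z₀ hz₀).2
    obtain ⟨s, s1, s2, s3, s4, s5⟩ := QHG4_cut (P := P) h.tf g₀ (fun k => n (Or.inl k))
      (fun k => n (Or.inr k))
    have hE : ∀ k p, EB d B k p → ER d r B φ x z₀ k p := fun k p e => Or.inl e
    have inv : ∀ a b, ρ a b → s a = s b := by
      rintro a b (e | ⟨e, e'⟩)
      · exact propext (s1 a b (e.mono hE (Finset.Subset.refl _)))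
      · exact propext (s2 a b (e.mono hE (Finset.Subset.refl _))
          (e'.mono hE (Finset.Subset.refl _)))
    refine ⟨_, he₀, Quot.lift s inv, s3, s4, ?_⟩
    rintro ⟨g, z, hz⟩ he hne
    change s (g, z) ↔ s (φ * g, φ • z)
    by_cases e : z = z₀
    · subst e
      exact s5 g fun e' => hne (by rw [e'])
    · refine s1 _ _ (EqvGen.rel _ _ (Or.inr ⟨φ, Or.inr ⟨rfl, ?_, ?_⟩, rfl⟩))
      · exact (T.bt_of_le (hZ z hz).1 (hZ z₀ hz₀).1 (hmax _ he)).1
      · exact fun e' => e (uZ z hz z₀ hz₀ e')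
  obtain ⟨ψ, ψ0, hψ⟩ := forest_solve (A := Quot ρ) (E := G × Z)
    (fun e => Quot.mk ρ (e.1, e.2.1)) (fun e => Quot.mk ρ (φ * e.1, φ • e.2.1))
    (fun e => l e.1 e.2.1) hf (Quot.mk ρ a₀)
  refine ⟨fun a => ψ (Quot.mk ρ a), fun a b e => ?_, fun a ha => ?_, fun g z hz => ?_⟩
  · exact congrArg ψ (Quot.sound (Or.inl e))
  · rw [← ψ0]
    exact congrArg ψ (Quot.sound (Or.inr ⟨ha, ha₀ a ha⟩))
  · exact hψ (g, ⟨z, hz⟩)

open Classical in
theorem ext_bridge (h : Fat G d r) (ink : InK d F B) (hx : x ∈ Hull d F) (hy : y ∈ Hull d F)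
    (hx' : φ • x ∈ Hull d F) (hy' : φ • y ∈ Hull d F)
    (seed : FP d r F (EB d B) (1, x) (φ, φ • x))
    (nt : ∀ p, Bt d x p y → ¬ r x p → ¬ TR d r F B P φ x p)
    {Γ : Type} [Group Γ] {f : G → Y → Γ} (h1 : RInv d r F f) (h2 : Closed d B f) :
    ∃ f' : G → Y → Γ, RInv d r F f' ∧ Closed d (insert (φ, x, y) B) f' ∧
      Agree d r F B P f f' := by
  have T := h.act.tr
  obtain ⟨Z, hZ, uZ, eZ⟩ := QHG4_reps h x y
  let β₀ : G → Γ := fun g => f (φ * g) (g⁻¹ • x) * (f g (g⁻¹ • x))⁻¹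
  obtain ⟨γ, γ1, γ2, γ3⟩ := QHG4_gamma h nt hZ uZ
    (fun g z => (f (φ * g) (g⁻¹ • z))⁻¹ * β₀ g * f g (g⁻¹ • z))
  have rs : ∀ (g : G) p p', p ∈ Hull d F → p' ∈ Hull d F → r p p' → γ (g, p) = γ (g, p') :=
    fun g p p' a b e => γ1 _ _ (EqvGen.rel _ _ (Or.inl ⟨rfl, e, a, b⟩))
  have hH : ∀ p, Bt d x p y → p ∈ Hull d F := fun p a => T.hull_conv hx hy a
  have hH' : ∀ p, Bt d x p y → φ • p ∈ Hull d F := fun p a =>
    T.hull_conv hx' hy' (h.act.bt φ a)
  -- moving inside a class does not change the new ratio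
  have mv : ∀ (g : G) p z, Bt d x (g • p) y → Bt d x z y → r z (g • p) →
      f (φ * g) p = f (φ * g) (g⁻¹ • z) ∧ f g p = f g (g⁻¹ • z) ∧
      γ (φ * g, (φ * g) • p) = γ (φ * g, φ • z) ∧ γ (g, g • p) = γ (g, z) := by
    intro g p z a b e
    have e' : r p (g⁻¹ • z) := by
      have := h.inv g⁻¹ _ _ (h.eqv.symm e)
      rwa [inv_smul_smul] at this
    refine ⟨h1 _ _ _ ?_ ?_ e', h1 _ _ _ (hH _ a) ?_ e', ?_, ?_⟩
    · rw [mul_smul]; exact hH' _ a
    · rw [mul_smul, smul_inv_smul]; exact hH' _ b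
    · rw [smul_inv_smul]; exact hH _ b
    · rw [mul_smul]
      exact rs _ _ _ (hH' _ a) (hH' _ b) (h.inv φ _ _ (h.eqv.symm e))
    · exact rs _ _ _ (hH _ a) (hH _ b) (h.eqv.symm e)
  have key : ∀ (g : G) p, Bt d x (g • p) y →
      f (φ * g) p * γ (φ * g, (φ * g) • p) * (f g p * γ (g, g • p))⁻¹ = β₀ g := by
    intro g p a
    by_cases e : r x (g • p)
    · obtain ⟨m1, m2, m3, m4⟩ := mv g p x a (T.bt_left x y) e
      have s := γ1 _ _ (seed.mul g)
      rw [one_mul] at s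
      rw [m1, m2, m3, m4, ← s]
      simp only [β₀]
      group
    · obtain ⟨z, hz, e'⟩ := eZ _ a e
      obtain ⟨m1, m2, m3, m4⟩ := mv g p z a (hZ z hz).1 e'
      rw [m1, m2, m3, m4, γ3 g z hz]
      group
  refine ⟨fun g p => f g p * γ (g, g • p), ?_, ?_, γ, fun g p _ => rfl, γ1, γ2⟩
  · intro g p p' a b e
    change f g p * γ (g, g • p) = f g p' * γ (g, g • p')
    rw [h1 g p p' a b e, rs g _ _ a b (h.inv g _ _ e)]
  · intro β hβ g p p' a b
    rcases Finset.mem_insert.1 hβ with rfl | hβ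
    · exact (key g p a).trans (key g p' b).symm
    · have st : ∀ q, Bt d β.2.1 (g • q) β.2.2 → γ (β.1 * g, (β.1 * g) • q) = γ (g, g • q) := by
        intro q hq
        refine (γ1 _ _ (EqvGen.rel _ _ (Or.inr ⟨β.1, ⟨β.2.1, β.2.2, hβ, hq⟩, ?_⟩))).symm
        rw [mul_smul]
      have := h2 β hβ g p p' a b
      change f (β.1 * g) p * γ (β.1 * g, (β.1 * g) • p) * (f g p * γ (g, g • p))⁻¹ =
        f (β.1 * g) p' * γ (β.1 * g, (β.1 * g) • p') * (f g p' * γ (g, g • p'))⁻¹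
      rw [st p a, st p' b]
      calc _ = f (β.1 * g) p * (f g p)⁻¹ := by group
        _ = f (β.1 * g) p' * (f g p')⁻¹ := this
        _ = _ := by group

end Pool.Agent.Work.MP_904812_al
end

-- merged part: Pool.Agent.Work.MP_904812_al.QWall
section
/-! Free splittings from nested walls. -/

namespace Pool.Agent.Work.MP_904812_al

set_option linter.unusedSectionVars false
set_option linter.unusedVariables false

open Subgroup MulAction

variable {G : Type} [Group G]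

theorem QWall_pow_inj (tf : TF G) {u : G} (hu : u ≠ 1) : Function.Injective fun n : ℕ => u ^ n := by
  have key : ∀ m n : ℕ, m < n → u ^ m = u ^ n → False := by
    intro m n hmn e
    obtain ⟨k, rfl⟩ := Nat.exists_eq_add_of_lt hmn
    have e2 : u ^ m * u ^ (k + 1) = u ^ m * 1 := by
      rw [← pow_add, mul_one, ← add_assoc]; exact e.symm
    exact hu (tf u (k + 1) (Nat.succ_pos k) (mul_left_cancel e2))
  intro m n e
  rcases lt_trichotomy m n with h | h | h
  · exact (key m n h e).elim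
  · exact h
  · exact (key n m h e.symm).elim

section walls

variable {Ω : Type} [MulAction G Ω]

/-- walls with the same half space coincide -/
theorem QWall_uniq (tf : TF G) (s : Ω → Prop)
    (fin : ∀ x y : Ω, {a : G | ¬ (s (a • x) ↔ s (a • y))}.Finite) {f f' : Ω}
    (hf : s f) (hf' : ¬ s f') {a b : G} {i j : Prop}
    (e : ∀ x : Ω, (s (a • x) ↔ i) ↔ (s (b • x) ↔ j)) : a = b := by
  by_contra hne
  have hu : b * a⁻¹ ≠ 1 := fun h => hne (mul_inv_eq_one.1 h).symm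
  have step : ∀ y y' : Ω, ¬ (s y ↔ s y') → ¬ (s ((b * a⁻¹) • y) ↔ s ((b * a⁻¹) • y')) := by
    intro y y' h
    have e1 := e (a⁻¹ • y)
    have e2 := e (a⁻¹ • y')
    rw [smul_inv_smul] at e1 e2
    rw [mul_smul, mul_smul]
    (clear * - e1 e2 h; grind)
  have all : ∀ n : ℕ, ¬ (s ((b * a⁻¹) ^ n • f) ↔ s ((b * a⁻¹) ^ n • f')) := by
    intro n
    induction n with
    | zero => simp only [pow_zero, one_smul]; tauto
    | succ n ih =>
      rw [pow_succ', mul_smul, mul_smul (b * a⁻¹)]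
      exact step _ _ ih
  exact Set.infinite_of_injective_forall_mem (QWall_pow_inj tf hu) all (fin f f')

theorem QWall_nest (s : Ω → Prop)
    (nest : ∀ a : G, ∃ i j : Prop, ∀ x : Ω, ¬ ((s x ↔ i) ∧ (s (a • x) ↔ j))) (a b : G) :
    ∃ i j : Prop, ∀ x : Ω, ¬ ((s (a • x) ↔ i) ∧ (s (b • x) ↔ j)) := by
  obtain ⟨i, j, h⟩ := nest (b * a⁻¹)
  refine ⟨i, j, fun x => ?_⟩
  have := h (a • x)
  rwa [mul_smul, inv_smul_smul] at this

/-- consistent orientations at finite distance from the principal ones -/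
def QWallV (G : Type) [Group G] {Ω : Type} [MulAction G Ω] (s : Ω → Prop) : Type :=
  {o : G → Prop // (∀ a b : G, ∃ x : Ω, (s (a • x) ↔ o a) ∧ (s (b • x) ↔ o b)) ∧
    ∀ x : Ω, {a : G | ¬ (o a ↔ s (a • x))}.Finite}

theorem QWallV.ext {s : Ω → Prop} {o o' : QWallV G s} (h : ∀ a, o.1 a ↔ o'.1 a) : o = o' :=
  Subtype.ext (funext fun a => propext (h a))

instance QWall_act (s : Ω → Prop) : MulAction G (QWallV G s) where
  smul g o := ⟨fun a => o.1 (a * g), by
    refine ⟨fun a b => ?_, fun x => ?_⟩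
    · obtain ⟨x, h1, h2⟩ := o.2.1 (a * g) (b * g)
      exact ⟨g • x, by rwa [← mul_smul], by rwa [← mul_smul]⟩
    · have := (o.2.2 (g⁻¹ • x)).preimage (f := fun a : G => a * g)
        (mul_left_injective g).injOn
      refine this.subset fun a ha => ?_
      simp only [Set.mem_preimage, Set.mem_ofPred_eq, mul_smul, smul_inv_smul]
      exact ha⟩
  one_smul o := QWallV.ext fun a => by
    change o.1 (a * 1) ↔ o.1 a
    rw [mul_one]
  mul_smul g h o := QWallV.ext fun a => by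
    change o.1 (a * (g * h)) ↔ o.1 (a * g * h)
    rw [mul_assoc]

theorem QWall_smul {s : Ω → Prop} (g : G) (o : QWallV G s) (a : G) :
    (g • o).1 a = o.1 (a * g) := rfl

/-- the principal orientation of a point -/
def QWallPt (s : Ω → Prop) (fin : ∀ x y : Ω, {a : G | ¬ (s (a • x) ↔ s (a • y))}.Finite)
    (x : Ω) : QWallV G s :=
  ⟨fun a => s (a • x), fun a b => ⟨x, Iff.rfl, Iff.rfl⟩, fun y => fin x y⟩

/-- orientations that differ at exactly one wall -/
def QWallAdj {s : Ω → Prop} (o o' : QWallV G s) : Prop :=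
  ∃ a : G, ∀ b : G, ¬ (o.1 b ↔ o'.1 b) ↔ b = a

theorem QWall_diff {s : Ω → Prop} (x : Ω) (o o' : QWallV G s) :
    {a : G | ¬ (o.1 a ↔ o'.1 a)}.Finite := by
  refine ((o.2.2 x).union (o'.2.2 x)).subset fun a ha => ?_
  simp only [Set.mem_union, Set.mem_ofPred_eq] at *
  tauto

theorem QWall_conn (tf : TF G) (s : Ω → Prop)
    (fin : ∀ x y : Ω, {a : G | ¬ (s (a • x) ↔ s (a • y))}.Finite) {f f' : Ω}
    (hf : s f) (hf' : ¬ s f') (o o' : QWallV G s) : Relation.ReflTransGen QWallAdj o o' := by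
  classical
  suffices H : ∀ n : ℕ, ∀ o : QWallV G s, {a : G | ¬ (o.1 a ↔ o'.1 a)}.ncard = n →
      Relation.ReflTransGen QWallAdj o o' from H _ o rfl
  intro n
  induction n using Nat.strong_induction_on with
  | _ n ih =>
    intro o hn
    have hfin := QWall_diff f o o'
    rcases Set.eq_empty_or_nonempty {a : G | ¬ (o.1 a ↔ o'.1 a)} with he | hne
    · have : o = o' := QWallV.ext fun a => by
        by_contra h
        have : a ∈ {a : G | ¬ (o.1 a ↔ o'.1 a)} := h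
        rw [he] at this
        exact this
      rw [this]
    · obtain ⟨a, ha, hmin⟩ := hfin.exists_minimalFor
        (fun a : G => {x : Ω | s (a • x) ↔ o.1 a}) _ hne
      have ha' : ¬ (o.1 a ↔ o'.1 a) := ha
      have key : ∀ c : G, c ≠ a → ∃ x : Ω, (s (a • x) ↔ ¬ o.1 a) ∧ (s (c • x) ↔ o.1 c) := by
        intro c hc
        by_contra hno
        have sub : ∀ x : Ω, (s (c • x) ↔ o.1 c) → (s (a • x) ↔ o.1 a) := by
          intro x hx
          by_contra h
          exact hno ⟨x, by tauto, hx⟩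
        by_cases hcc : o.1 c ↔ o'.1 c
        · obtain ⟨x, h1, h2⟩ := o'.2.1 a c
          exact hno ⟨x, by (clear * - h1 h2 ha' hcc; tauto), by (clear * - h1 h2 ha' hcc; tauto)⟩
        · have := hmin (j := c) hcc (fun x hx => sub x hx)
          exact hc (QWall_uniq tf s fin hf hf' fun x => ⟨sub x, fun hx => this hx⟩)
      let o₁ : QWallV G s := ⟨fun b => if b = a then ¬ o.1 a else o.1 b, by
        refine ⟨fun b c => ?_, fun x => ?_⟩
        · by_cases hb : b = a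
          · by_cases hc : c = a
            · obtain ⟨x, h1, h2⟩ := o'.2.1 a a
              refine ⟨x, ?_, ?_⟩
              · simp only [hb, if_true]; tauto
              · simp only [hc, if_true]; tauto
            · obtain ⟨x, h1, h2⟩ := key c hc
              refine ⟨x, ?_, ?_⟩
              · simp only [hb, if_true]; exact h1
              · simp only [hc, if_false]; exact h2
          · by_cases hc : c = a
            · obtain ⟨x, h1, h2⟩ := key b hb
              refine ⟨x, ?_, ?_⟩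
              · simp only [hb, if_false]; exact h2
              · simp only [hc, if_true]; exact h1
            · obtain ⟨x, h1, h2⟩ := o.2.1 b c
              refine ⟨x, ?_, ?_⟩
              · simp only [hb, if_false]; exact h1
              · simp only [hc, if_false]; exact h2
        · refine ((o.2.2 x).union (Set.finite_singleton a)).subset fun b hb => ?_
          by_cases hba : b = a
          · exact Or.inr hba
          · left
            simp only [Set.mem_ofPred_eq, hba, if_false] at hb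
            exact hb⟩
      have o1a : o₁.1 a ↔ ¬ o.1 a := by simp [o₁]
      have o1b : ∀ b, b ≠ a → (o₁.1 b ↔ o.1 b) := by
        intro b hb
        simp [o₁, hb]
      have adj : QWallAdj o o₁ := ⟨a, fun b => by
        by_cases hb : b = a
        · subst hb; tauto
        · have := o1b b hb; tauto⟩
      refine Relation.ReflTransGen.head adj (ih _ ?_ o₁ rfl)
      rw [← hn]
      apply Set.ncard_lt_ncard _ hfin
      refine ⟨fun b hb => ?_, fun h => ?_⟩
      · simp only [Set.mem_ofPred_eq] at *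
        by_cases hba : b = a
        · subst hba; exact ha'
        · have := o1b b hba; (clear * - ha ha' hb key o1a this; grind)
      · have := h ha
        simp only [Set.mem_ofPred_eq] at this
        apply this
        rw [o1a]
        exact (not_iff.1 ha')

theorem QWall_wall (s : Ω → Prop)
    (nest : ∀ a : G, ∃ i j : Prop, ∀ x : Ω, ¬ ((s x ↔ i) ∧ (s (a • x) ↔ j)))
    (x y : QWallV G s) (h : QWallAdj x y) : ∃ t : QWallV G s → Prop, t x ∧ ¬ t y ∧
      ∀ p p', QWallAdj p p' → (t p ↔ t p') ∨ (p = x ∧ p' = y) ∨ (p = y ∧ p' = x) := by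
  obtain ⟨a, ha⟩ := h
  have haa := (ha a).2 rfl
  refine ⟨fun p => p.1 a ↔ x.1 a, Iff.rfl, by tauto, ?_⟩
  rintro p p' ⟨b, hb⟩
  by_cases hba : a = b
  · subst hba
    right
    have hpa := (hb a).2 rfl
    have key : ∀ c, c ≠ a → (p.1 c ↔ x.1 c) := by
      intro c hc
      by_contra hno
      have e1 : x.1 c ↔ y.1 c := by have := ha c; (clear * - haa hc hno hpa this; grind)
      have e2 : p.1 c ↔ p'.1 c := by have := hb c; (clear * - e1 haa hc hno hpa this; grind)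
      obtain ⟨i, j, hij⟩ := QWall_nest s nest a c
      obtain ⟨z1, a1, b1⟩ := x.2.1 a c
      obtain ⟨z2, a2, b2⟩ := y.2.1 a c
      obtain ⟨z3, a3, b3⟩ := p.2.1 a c
      obtain ⟨z4, a4, b4⟩ := p'.2.1 a c
      have := hij z1
      have := hij z2
      have := hij z3
      have := hij z4
      grind
    by_cases hpx : p.1 a ↔ x.1 a
    · left
      refine ⟨QWallV.ext fun c => ?_, QWallV.ext fun c => ?_⟩
      · by_cases hc : c = a
        · subst hc; exact hpx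
        · exact key c hc
      · by_cases hc : c = a
        · subst hc; tauto
        · have := key c hc
          have := ha c
          have := hb c
          grind
    · right
      refine ⟨QWallV.ext fun c => ?_, QWallV.ext fun c => ?_⟩
      · by_cases hc : c = a
        · subst hc; tauto
        · have := key c hc
          have := ha c
          grind
      · by_cases hc : c = a
        · subst hc; tauto
        · have := key c hc
          have := hb c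
          grind
  · left
    have := hb a
    tauto

theorem QWall_adj_smul {s : Ω → Prop} (g : G) (x y : QWallV G s) :
    QWallAdj (g • x) (g • y) ↔ QWallAdj x y := by
  have key : ∀ (g : G) (x y : QWallV G s), QWallAdj x y → QWallAdj (g • x) (g • y) := by
    rintro g x y ⟨a, ha⟩
    refine ⟨a * g⁻¹, fun b => ?_⟩
    rw [QWall_smul, QWall_smul, ha, eq_mul_inv_iff_mul_eq]
  refine ⟨fun h => ?_, key g x y⟩
  have := key g⁻¹ _ _ h
  rwa [inv_smul_smul, inv_smul_smul] at this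

theorem QWall_triv {s : Ω → Prop} {x y : QWallV G s} (h : QWallAdj x y) {g : G}
    (e : (g • x = x ∧ g • y = y) ∨ (g • x = y ∧ g • y = x)) : g = 1 := by
  obtain ⟨a, ha⟩ := h
  have haa := (ha a).2 rfl
  have : ¬ (x.1 (a * g) ↔ y.1 (a * g)) := by
    rw [← QWall_smul, ← QWall_smul]
    rcases e with ⟨e1, e2⟩ | ⟨e1, e2⟩
    · rw [e1, e2]; exact haa
    · rw [e1, e2]; tauto
  have := (ha _).1 this
  simpa using this

theorem QWall_K0 (tf : TF G) {s : Ω → Prop} (x₀ : Ω) {v p : QWallV G s} {w a : G} (hw : w ≠ 1)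
    (e : w • v = v) (ha : ¬ (v.1 a ↔ p.1 a))
    (sub : ∀ x : Ω, (s (a • w • x) ↔ v.1 a) → (s (a • x) ↔ v.1 a)) : False := by
  have e' : ∀ n : ℕ, w ^ n • v = v := by
    intro n
    induction n with
    | zero => simp
    | succ n ih => rw [pow_succ, mul_smul, e, ih]
  have sub' : ∀ n : ℕ, ∀ x : Ω, (s (a • w ^ n • x) ↔ v.1 a) → (s (a • x) ↔ v.1 a) := by
    intro n
    induction n with
    | zero => intro x hx; simpa using hx
    | succ n ih =>
      intro x hx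
      rw [pow_succ', mul_smul] at hx
      exact ih x (sub _ hx)
  have all : ∀ n : ℕ, a * w ^ n ∈ {a : G | ¬ (v.1 a ↔ p.1 a)} := by
    intro n hn
    have hv : v.1 (a * w ^ n) = v.1 a := by rw [← QWall_smul, e']
    obtain ⟨x, h1, h2⟩ := p.2.1 a (a * w ^ n)
    rw [mul_smul] at h2
    have := sub' n x (by rw [h2, ← hn, hv])
    (clear * - h1 h2 ha hn hv this; grind)
  have inj : Function.Injective fun n : ℕ => a * w ^ n := fun m n h =>
    QWall_pow_inj tf hw (mul_left_cancel h)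
  exact Set.infinite_of_injective_forall_mem inj all (QWall_diff x₀ v p)

theorem QWall_K (tf : TF G) {s : Ω → Prop}
    (nest : ∀ a : G, ∃ i j : Prop, ∀ x : Ω, ¬ ((s x ↔ i) ∧ (s (a • x) ↔ j))) (x₀ : Ω)
    {v p : QWallV G s} {g : G} (hg : g ≠ 1) (e : g • v = v)
    (mn : ∀ a : G, (p.1 a ↔ p.1 (a * g)) ∨ (p.1 a ↔ p.1 (a * g⁻¹))) : v = p := by
  have key : ∀ u a : G, u ≠ 1 → u • v = v → ¬ (v.1 a ↔ p.1 a) → (p.1 a ↔ p.1 (a * u)) →
      False := by
    intro u a hu eu ha hp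
    have eu' : u⁻¹ • v = v := by rw [inv_smul_eq_iff, eu]
    have hv : v.1 (a * u) = v.1 a := by rw [← QWall_smul, eu]
    by_cases c1 : ∀ x : Ω, (s (a • u • x) ↔ v.1 a) → (s (a • x) ↔ v.1 a)
    · exact QWall_K0 tf x₀ hu eu ha c1
    by_cases c2 : ∀ x : Ω, (s (a • u⁻¹ • x) ↔ v.1 a) → (s (a • x) ↔ v.1 a)
    · exact QWall_K0 tf x₀ (inv_ne_one.2 hu) eu' ha c2
    obtain ⟨z3, h3⟩ := not_forall.1 c1
    obtain ⟨z4, h4⟩ := not_forall.1 c2
    obtain ⟨i, j, hij⟩ := QWall_nest s nest a (a * u)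
    obtain ⟨z1, a1, b1⟩ := v.2.1 a (a * u)
    obtain ⟨z2, a2, b2⟩ := p.2.1 a (a * u)
    have k1 := hij z1
    have k2 := hij z2
    have k3 := hij z3
    have k4 := hij (u⁻¹ • z4)
    rw [mul_smul] at k3
    rw [mul_smul, smul_inv_smul] at k4
    rw [hv] at b1
    (clear * - a1 a2 b1 b2 c1 c2 h3 h4 ha hp k1 k2 k3 k4; grind)
  refine QWallV.ext fun a => ?_
  by_contra ha
  rcases mn a with h | h
  · exact key g a hg e ha h
  · exact key g⁻¹ a (inv_ne_one.2 hg) (by rw [inv_smul_eq_iff, e]) ha h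

end walls

theorem freeSplit_of_walls {Ω : Type} [MulAction G Ω] (tf : TF G) (s : Ω → Prop)
    (fin : ∀ x y : Ω, {a : G | ¬ (s (a • x) ↔ s (a • y))}.Finite)
    (nest : ∀ a : G, ∃ i j : Prop, ∀ x : Ω, ¬ ((s x ↔ i) ∧ (s (a • x) ↔ j)))
    {x₀ f f' : Ω} {g₀ : G} (g0 : g₀ ≠ 1)
    (mn : ∀ a : G, (s (a • x₀) ↔ s (a • g₀ • x₀)) ∨ (s (a • x₀) ↔ s (a • g₀⁻¹ • x₀)))
    (hf : s f) (hf' : ¬ s f')
    (ess : ∀ x : Ω, x = f ∨ x = f' → (∃ h : G, h ≠ 1 ∧ ∀ a : G, s (a • h • x) ↔ s (a • x)) ∨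
      ∃ g : G, ∀ a : G, s (a • g • x₀) ↔ s (a • x)) : FreeSplit G := by
  obtain ⟨D, tr, hadj, hiso⟩ := tr_of_walls (QWallAdj (G := G) (s := s))
    (by
      rintro x y ⟨a, ha⟩
      exact ⟨a, fun b => by rw [← ha b]; tauto⟩)
    (QWall_conn tf s fin hf hf') (QWall_wall s nest)
  refine ⟨QWallV G s, inferInstance, D, ⟨⟨tr, ⟨QWallPt s fin x₀⟩, fun g x y => ?_⟩, ?_⟩, ?_, ?_⟩
  · exact hiso (fun o => g • o) (MulAction.bijective g) (QWall_adj_smul g) x y
  · intro g x y e e1 e2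
    have hg := QWall_triv ((hadj x y).1 e) (Or.inr ⟨e1, e2⟩)
    subst hg
    rw [one_smul] at e1
    subst e1
    rw [tr.self] at e
    exact absurd e (by decide)
  · intro x y e g e1 e2
    exact QWall_triv ((hadj x y).1 e) (Or.inl ⟨e1, e2⟩)
  · intro v
    by_contra hv
    have fx : ∀ g : G, g • v = v := fun g => by
      by_contra h
      exact hv ⟨g, h⟩
    have e0 : v = QWallPt s fin x₀ := QWall_K tf nest x₀ g0 (fx g₀) fun a => by
      simpa only [QWallPt, mul_smul] using mn a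
    have e1 : ∀ x : Ω, x = f ∨ x = f' → v = QWallPt s fin x := by
      intro x hx
      rcases ess x hx with ⟨h, h1, h2⟩ | ⟨g, hg⟩
      · refine QWall_K tf nest x₀ h1 (fx h) fun a => Or.inl ?_
        simpa only [QWallPt, mul_smul] using (h2 a).symm
      · rw [← fx g, e0]
        refine QWallV.ext fun a => ?_
        simpa only [QWall_smul, QWallPt, mul_smul] using hg a
    have e2 := (e1 f (Or.inl rfl)).symm.trans (e1 f' (Or.inr rfl))
    have e3 := congrArg (fun o : QWallV G s => o.1 1) e2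
    simp only [QWallPt, one_smul] at e3
    exact hf' (e3 ▸ hf)

theorem QWall_sep {V : Type} {d : V → V → ℤ} (tr : Tr d) {a b x y : V} (ab : d a b = 1)
    (h : ¬ (Bt d x a b ↔ Bt d y a b)) : Bt d x a y ∧ Bt d x b y := by
  have := tr.adj_cases ab x
  have := tr.adj_cases ab y
  have := tr.four x b y a
  have := tr.four x a y b
  have := tr.tri x a y
  have := tr.tri x b y
  have := tr.symm a y
  have := tr.symm b y
  have := tr.symm a b
  simp only [Bt] at *
  omega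

theorem QWall_nest_edge {V : Type} {d : V → V → ℤ} (tr : Tr d) {a b a' b' : V} (ab : d a b = 1)
    (ab' : d a' b' = 1) : ∃ i j : Prop, ∀ x : V, ¬ ((Bt d x a b ↔ i) ∧ (Bt d x a' b' ↔ j)) := by
  by_cases hc : Bt d a a' b' ↔ Bt d b a' b'
  · refine ⟨¬ Bt d a' a b, ¬ Bt d a a' b', fun x hx => ?_⟩
    have h1 := QWall_sep tr (x := x) (y := a') ab (by tauto)
    have h2 := QWall_sep tr (x := x) (y := a) ab' (by tauto)
    have h3 := QWall_sep tr (x := x) (y := b) ab' (by tauto)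
    have := tr.nonneg a a'
    have := tr.nonneg b a'
    have := tr.symm a a'
    have := tr.symm b a'
    have := tr.tri a a' b
    simp only [Bt] at h1 h2 h3
    omega
  · have h1 := QWall_sep tr ab' hc
    have n1 := tr.nonneg a a'
    have n2 := tr.nonneg a' b
    have n3 := tr.nonneg a b'
    have n4 := tr.nonneg b' b
    have e1 : a = a' ∨ a' = b := by
      have : d a a' = 0 ∨ d a' b = 0 := by simp only [Bt] at h1; omega
      exact this.imp tr.eq_of tr.eq_of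
    have e2 : a = b' ∨ b' = b := by
      have : d a b' = 0 ∨ d b' b = 0 := by simp only [Bt] at h1; omega
      exact this.imp tr.eq_of tr.eq_of
    have s1 := tr.self a
    have s2 := tr.self b
    rcases e1 with rfl | rfl <;> rcases e2 with rfl | rfl
    · omega
    · exact ⟨True, False, fun x hx => by tauto⟩
    · refine ⟨True, True, fun x hx => ?_⟩
      have h2 := hx.1.2 trivial
      have h3 := hx.2.2 trivial
      simp only [Bt] at h2 h3
      omega
    · omega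

theorem freeSplit_of_edge {V : Type} [MulAction G V] {d : V → V → ℤ} (tf : TF G) (zt : ZTree G d)
    {a b x₀ f f' : V} {g₀ : G} (ab : d a b = 1) (triv : ∀ g : G, g • a = a → g • b = b → g = 1)
    (g0 : g₀ ≠ 1) (mn : Mn d g₀ x₀) (hf : Bt d f a b) (hf' : Bt d a b f')
    (ess : ∀ x : V, x = f ∨ x = f' → (∃ h : G, h ≠ 1 ∧ h • x = x) ∨ ∃ g : G, g • x₀ = x) :
    FreeSplit G := by
  have tr := zt.act.tr
  refine freeSplit_of_walls tf (fun x : V => Bt d x a b) ?_ ?_ (x₀ := x₀) (f := f) (f' := f')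
    g0 ?_ hf ?_ ?_
  · intro x y
    have inj : Function.Injective fun g : G => (g⁻¹ • a, g⁻¹ • b) := by
      intro g g' e
      simp only [Prod.mk.injEq] at e
      have := triv (g' * g⁻¹) (by rw [mul_smul, e.1, smul_inv_smul])
        (by rw [mul_smul, e.2, smul_inv_smul])
      exact (mul_inv_eq_one.1 this).symm
    refine (((tr.seg_finite x y).prod (tr.seg_finite x y)).preimage inj.injOn).subset
      fun g hg => ?_
    obtain ⟨h1, h2⟩ := QWall_sep tr ab hg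
    have k1 := zt.act.bt g⁻¹ h1
    have k2 := zt.act.bt g⁻¹ h2
    rw [inv_smul_smul, inv_smul_smul] at k1 k2
    exact ⟨k1, k2⟩
  · intro g
    obtain ⟨i, j, h⟩ := QWall_nest_edge tr ab (a' := g⁻¹ • a) (b' := g⁻¹ • b)
      (by rw [zt.act.iso, ab])
    refine ⟨i, j, fun x hx => h x ⟨hx.1, ?_⟩⟩
    rw [← zt.act.bt_iff g, smul_inv_smul, smul_inv_smul]
    exact hx.2
  · intro g
    by_contra hno
    rw [not_or] at hno
    have h1 := QWall_sep tr ab hno.1
    have h2 := QWall_sep tr ab hno.2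
    have h3 := zt.act.bt g mn
    generalize g • x₀ = X at *
    generalize g • g₀ • x₀ = Y at *
    generalize g • g₀⁻¹ • x₀ = Z at *
    have := tr.tri Z a Y
    have := tr.tri Z b Y
    have := tr.tri a X b
    have := tr.symm Z a
    have := tr.symm Z b
    have := tr.symm Z X
    have := tr.symm a X
    have := tr.nonneg X a
    have := tr.nonneg X b
    simp only [Bt] at h1 h2 h3
    omega
  · intro h
    have := tr.symm a f'
    have := tr.symm b f'
    simp only [Bt] at h hf'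
    omega
  · intro x hx
    rcases ess x hx with ⟨h, h1, h2⟩ | ⟨g, hg⟩
    · exact Or.inl ⟨h, h1, fun c => by rw [h2]⟩
    · exact Or.inr ⟨g, fun c => by rw [hg]⟩

end Pool.Agent.Work.MP_904812_al
end

-- merged part: Pool.Agent.Work.MP_904812_al.QJump0
section
/-! Finite leaves give free splittings. -/

namespace Pool.Agent.Work.MP_904812_al

set_option linter.unusedSectionVars false
set_option linter.unusedVariables false

open Subgroup MulAction Relation

variable {G Y : Type} [Group G] [MulAction G Y] {d : Y → Y → ℝ} {r : Y → Y → Prop} {F : Finset Y}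
  {B : Finset (G × Y × Y)} {x₀ : Y} {g₀ : G}

theorem QJump0_r (h : Fat G d r) {p q y y' : Y} (e : r y y') (a : FSd d r (p, q) (p, y)) :
    FSd d r (p, q) (p, y') := by
  have n : ¬ r p y := h.fsd_ne (h.fsd_symm a)
  obtain ⟨z, z1, z2, z3⟩ := h.act.tr.med' p y y'
  exact h.fsd_trans a ⟨h.eqv.refl p, z, z1, z2,
    fun e' => n (h.eqv.trans e' (h.eqv.symm (h.conv _ _ _ e z3)))⟩

theorem QJump0_r_iff (h : Fat G d r) {p q y y' : Y} (e : r y y') :
    FSd d r (p, q) (p, y) ↔ FSd d r (p, q) (p, y') :=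
  ⟨QJump0_r h e, QJump0_r h (h.eqv.symm e)⟩

theorem QJump0_k1 (h : Fat G d r) {p q y y' m : Y} (a : FSd d r (p, q) (p, y))
    (b : FSd d r (p, q) (p, y')) (c : Bt d y m y') : ¬ r p m := fun e =>
  h.not_fsd c (h.fsd_trans (h.fsd_symm (h.fsd_base e (h.fsd_ne (h.fsd_symm a))))
    (h.fsd_trans (h.fsd_trans (h.fsd_symm a) b) (h.fsd_base e (h.fsd_ne (h.fsd_symm b)))))

theorem QJump0_k2 (h : Fat G d r) {p q y y' : Y} (a : FSd d r (p, q) (p, y))
    (b : ¬ FSd d r (p, q) (p, y')) : ∃ m, r p m ∧ Bt d y m y' :=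
  h.sep_of_not_fsd (h.fsd_ne (h.fsd_symm a)) fun e => b (h.fsd_trans a e)

theorem QJump0_conv (h : Fat G d r) {p q y y' z : Y} (a : FSd d r (p, q) (p, y))
    (b : FSd d r (p, q) (p, y')) (c : Bt d y z y') : FSd d r (p, q) (p, z) := by
  by_contra hz
  obtain ⟨m, m1, m2⟩ := QJump0_k2 h a hz
  exact QJump0_k1 h a b (h.act.tr.bt_trans m2 c).1 m1

theorem QJump0_conv' (h : Fat G d r) {p q y y' z : Y} (a : ¬ FSd d r (p, q) (p, y))
    (b : ¬ FSd d r (p, q) (p, y')) (c : Bt d y z y') : ¬ FSd d r (p, q) (p, z) := by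
  intro hz
  have T := h.act.tr
  obtain ⟨m, m1, m2⟩ := QJump0_k2 h hz a
  obtain ⟨m', m1', m2'⟩ := QJump0_k2 h hz b
  have c1 := (T.bt_trans' c m2').1
  have c2 := (T.bt_trans' (T.bt_symm c1) m2).1
  exact h.fsd_ne (h.fsd_symm hz) (h.conv' m1' m1 c2)

/-- a half tree and its translate are nested -/
theorem QJump0_nest (h : Fat G d r) {p q y : Y} {a : G} (ha : a ≠ 1)
    (h1 : FSd d r (p, q) (p, y) ↔ ¬ FSd d r (p, q) (p, a⁻¹ • p))
    (h2 : FSd d r (p, q) (p, a • y) ↔ ¬ FSd d r (p, q) (p, a • p)) : False := by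
  have T := h.act.tr
  by_cases e : r p (a • p)
  · have e' : r p (a⁻¹ • p) := h.eqv.symm (by simpa using h.inv a⁻¹ _ _ e)
    have s1 := h1.2 fun c => h.fsd_ne (h.fsd_symm c) e'
    have s2 := h2.2 fun c => h.fsd_ne (h.fsd_symm c) e
    exact ha (h.n1 (h.fsd_trans (h.fsd_trans (h.fsd_symm s1) s2)
      (h.fsd_base e (h.fsd_ne (h.fsd_symm s2)))))
  · have key : ∃ m, r p m ∧ Bt d (a⁻¹ • p) m y := by
      by_cases c : FSd d r (p, q) (p, a⁻¹ • p)
      · exact QJump0_k2 h c fun c' => h1.1 c' c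
      · obtain ⟨m, m1, m2⟩ := QJump0_k2 h (h1.2 c) c
        exact ⟨m, m1, T.bt_symm m2⟩
    obtain ⟨m, m1, m2⟩ := key
    have b : Bt d p (a • m) (a • y) := by simpa using h.act.bt a m2
    have e1 : r (a • p) (a • m) := h.inv a _ _ m1
    have b' := h.fsd_of_bt b fun c => e (h.eqv.trans c (h.eqv.symm e1))
    have i1 : FSd d r (p, q) (p, a • m) ↔ FSd d r (p, q) (p, a • y) :=
      ⟨fun c => h.fsd_trans c b', fun c => h.fsd_trans c (h.fsd_symm b')⟩
    have i2 := QJump0_r_iff h (p := p) (q := q) e1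
    tauto

theorem QJump0_band (T : Tr d) (iso : IAct G d) (ink : InK d F B) {k : G} {u v y : Y}
    (hβ : (k, u, v) ∈ B) (b : Bt d u y v) : y ∈ Hull d F ∧ k • y ∈ Hull d F := by
  obtain ⟨i1, i2, i3, i4⟩ := ink _ hβ
  exact ⟨T.hull_conv i1 i2 b, T.hull_conv i3 i4 (iso.bt k b)⟩

theorem QJump0_hull (h : Fat G d r) (ink : InK d F B) {a b : G × Y × Y}
    (e : EqvGen (DSt d r F (EdB d r B)) a b) : a.2.1 ∈ Hull d F ↔ b.2.1 ∈ Hull d F := by
  induction e with
  | rel a b s =>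
    rcases s with ⟨-, -, s3, s4⟩ | ⟨k, ⟨u, v, s1, s2, -, -⟩, rfl⟩
    · exact iff_of_true s3 s4
    · obtain ⟨i1, i2⟩ := QJump0_band h.act.tr h.act ink s1 s2
      exact iff_of_true i1 i2
  | refl a => exact Iff.rfl
  | symm a b _ ih => exact ih.symm
  | trans a b c _ _ ih ih' => exact ih.trans ih'

/-- a chart meeting the leaf contains all representatives of the direction -/
theorem QJump0_leaf (h : Fat G d r) (ink : InK d F B) {p q : Y} (hp : p ∈ Hull d F) (n : ¬ r p q)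
    {g : G} (hg : ∃ δ, EqvGen (DSt d r F (EdB d r B)) (1, p, q) (g, δ)) {m y : Y}
    (hm : g • m ∈ Hull d F) (s : FSd d r (p, q) (m, y)) :
    EqvGen (DSt d r F (EdB d r B)) (1, p, q) (g, g • m, g • y) := by
  obtain ⟨⟨a, b⟩, e⟩ := hg
  have e1 := dst_fsd h (fun k δ ⟨_, _, _, _, _, e⟩ => e) n e
  rw [inv_one, one_smul, one_smul] at e1
  have e2 := (h.fsd_smul g).2 (h.fsd_trans (h.fsd_symm e1) s)
  rw [smul_inv_smul, smul_inv_smul] at e2
  exact EqvGen.trans _ _ _ e (EqvGen.rel _ _ (Or.inl ⟨rfl, e2, (QJump0_hull h ink e).1 hp, hm⟩))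

theorem QJump0_units {A A' : Prop} [Decidable A] [Decidable A'] {u u' : ℤˣ}
    (e : (if A' then (-1 : ℤˣ) else 1) * (if A then (-1 : ℤˣ) else 1)⁻¹ = u' * u⁻¹) :
    (A' ↔ u' = 1) ↔ (A ↔ u = 1) := by
  have n : (-1 : ℤˣ) ≠ 1 := by decide
  have n' : (1 : ℤˣ) ≠ -1 := by decide
  rcases Int.units_eq_one_or u with rfl | rfl <;> rcases Int.units_eq_one_or u' with rfl | rfl <;>
    by_cases hA : A <;> by_cases hA' : A' <;> simp [hA, hA', n, n'] at e ⊢

/-- the side function in the charts -/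
theorem QJump0_sigma (h : Geo G d r F B x₀ g₀) {p q : Y} (hp : p ∈ Hull d F) (n : ¬ r p q) :
    ∃ σ : G → Y → Prop,
      (∀ k u v g y, (k, u, v) ∈ B → Bt d u (g • y) v → (σ (k * g) y ↔ σ g y)) ∧
      (∀ g g' y y', g • y ∈ F → g' • y' ∈ F → r y y' → (σ g y ↔ σ g' y')) ∧
      (∀ g y, (∃ δ, EqvGen (DSt d r F (EdB d r B)) (1, p, q) (g, δ)) →
        (σ g y ↔ FSd d r (p, q) (p, y))) ∧
      ∀ g y y', ¬ (∃ δ, EqvGen (DSt d r F (EdB d r B)) (1, p, q) (g, δ)) → (σ g y ↔ σ g y') := by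
  classical
  have fat := h.fat
  have T := fat.act.tr
  obtain ⟨W, hW⟩ : ∃ W : G → Prop,
    ∀ g, W g ↔ ∃ δ, EqvGen (DSt d r F (EdB d r B)) (1, p, q) (g, δ) := ⟨_, fun _ => Iff.rfl⟩
  have cross : ∀ k u v g y y', (k, u, v) ∈ B → Bt d u (g • y) v → Bt d u (g • y') v →
      FSd d r (p, q) (p, y) → ¬ FSd d r (p, q) (p, y') → (W (k * g) ↔ W g) := by
    intro k u v g y y' hβ b b' s s'
    obtain ⟨m, m1, m2⟩ := QJump0_k2 fat s s'
    have ny : ¬ r p y := fat.fsd_ne (fat.fsd_symm s)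
    have sm := fat.fsd_trans s (fat.fsd_base m1 ny)
    have bm := T.bt_conv b b' (fat.act.bt g m2)
    obtain ⟨i1, i2⟩ := QJump0_band T fat.act h.ink hβ bm
    have st : DSt d r F (EdB d r B) (g, g • m, g • y) (k * g, (k * g) • m, (k * g) • y) :=
      Or.inr ⟨k, ⟨u, v, hβ, bm, b, fun e => ny (fat.eqv.trans m1 ((fat.inv_iff g).1 e))⟩,
        by rw [mul_smul, mul_smul]⟩
    rw [hW, hW]
    constructor
    · intro c
      exact ⟨_, EqvGen.trans _ _ _ (QJump0_leaf fat h.ink hp n c (by rwa [mul_smul]) sm)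
        (EqvGen.symm _ _ (EqvGen.rel _ _ st))⟩
    · intro c
      exact ⟨_, EqvGen.trans _ _ _ (QJump0_leaf fat h.ink hp n c i1 sm) (EqvGen.rel _ _ st)⟩
  obtain ⟨Φ, E1, E2⟩ := h.hg ℤˣ (fun g y => if W g ∧ FSd d r (p, q) (p, y) then -1 else 1)
    (fun g y y' _ _ e => by simp only [QJump0_r_iff fat (p := p) (q := q) e])
    (by
      rintro ⟨k, u, v⟩ hβ g y y' b b'
      by_cases s : FSd d r (p, q) (p, y) <;> by_cases s' : FSd d r (p, q) (p, y')
      · simp only [s, s']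
      · simp only [cross k u v g y y' hβ b b' s s', mul_inv_cancel]
      · simp only [cross k u v g y' y hβ b' b s' s, mul_inv_cancel]
      · simp only [s, s'])
  have const : ∀ a b : G × Y × Y, EqvGen (DSt d r F (EdB d r B)) a b →
      EqvGen (DSt d r F (EdB d r B)) (1, p, q) a → (Φ a.1 = 1 ↔ Φ b.1 = 1) := by
    intro a b e
    induction e with
    | rel a b s =>
      intro ea
      have eb := EqvGen.trans _ _ _ ea (EqvGen.rel _ _ s)
      rcases s with ⟨s1, -, -, -⟩ | ⟨k, ⟨u, v, s1, s2, -, -⟩, rfl⟩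
      · rw [s1]
      · have w1 : W a.1 := (hW _).2 ⟨a.2, ea⟩
        have w2 : W (k * a.1) := (hW _).2 ⟨_, eb⟩
        have := QJump0_units (E1 (k, u, v) s1 a.1 (a.1⁻¹ • a.2.1) (by rwa [smul_inv_smul]))
        simp only [w1, w2, true_and] at this
        (clear * - this; tauto)
    | refl a => exact fun _ => Iff.rfl
    | symm a b e ih => exact fun eb => (ih (EqvGen.trans _ _ _ eb (EqvGen.symm _ _ e))).symm
    | trans a b c e _ ih ih' => exact fun ea => (ih ea).trans (ih' (EqvGen.trans _ _ _ ea e))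
  refine ⟨fun g y => ((W g ∧ FSd d r (p, q) (p, y)) ↔ Φ g = 1) ↔ Φ 1 = 1, ?_, ?_, ?_, ?_⟩
  · intro k u v g y hβ b
    have := QJump0_units (E1 (k, u, v) hβ g y b)
    simp only at this ⊢
    rw [this]
  · intro g g' y y' c c' e
    have := QJump0_units (E2 g g' y y' c c' e)
    simp only at this ⊢
    rw [this]
  · rintro g y ⟨δ, e⟩
    have w : W g := (hW g).2 ⟨δ, e⟩
    have := const _ _ e (EqvGen.refl _)
    simp only [w, true_and] at this ⊢
    (clear * - this; tauto)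
  · intro g y y' c
    have w : ¬ W g := fun w => c ((hW g).1 w)
    simp only [w, false_and]

/-- connectivity of the orbit of `F` -/
theorem QJump0_conn (h : Geo G d r F B x₀ g₀) (ρ : Y → Y → Prop) (eqv : Equivalence ρ)
    (inv : ∀ (a : G) x y, ρ x y → ρ (a • x) (a • y)) (hF : ∀ x ∈ F, ∀ y ∈ F, ρ x y)
    (hr : ∀ x y, (∃ g : G, g • x ∈ F) → (∃ g : G, g • y ∈ F) → r x y → ρ x y)
    {x y : Y} (hx : ∃ g : G, g • x ∈ F) (hy : ∃ g : G, g • y ∈ F) : ρ x y := by
  have key : ∀ a : G, ρ (a • x₀) x₀ := by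
    intro a
    have ha : a ∈ closure {a : G | ∃ p ∈ F, ∃ p' ∈ F, r (a • p) p'} := h.gen ▸ mem_top a
    induction ha using closure_induction with
    | mem a ha =>
      obtain ⟨p, hp, p', hp', e⟩ := ha
      exact eqv.trans (inv a _ _ (hF _ h.x0 _ hp)) (eqv.trans
        (hr _ _ ⟨a⁻¹, by rwa [inv_smul_smul]⟩ ⟨1, by rwa [one_smul]⟩ e) (hF _ hp' _ h.x0))
    | one => rw [one_smul]; exact eqv.refl _
    | mul a b _ _ iha ihb => rw [mul_smul]; exact eqv.trans (inv a _ _ ihb) iha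
    | inv a _ ih => exact eqv.symm (by simpa using inv a⁻¹ _ _ ih)
  have key' : ∀ x : Y, (∃ g : G, g • x ∈ F) → ρ x x₀ := by
    rintro x ⟨g, hg⟩
    exact eqv.trans (by simpa using inv g⁻¹ _ _ (hF _ hg _ h.x0)) (key g⁻¹)
  exact eqv.trans (key' x hx) (eqv.symm (key' y hy))

theorem QJump0_orb {x : Y} (hx : ∃ g : G, g • x ∈ F) (a : G) : ∃ g : G, g • a • x ∈ F := by
  obtain ⟨g, hg⟩ := hx
  exact ⟨g * a⁻¹, by rwa [mul_smul, inv_smul_smul]⟩

/-- a predicate that is constant on charts and on classes is constant -/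
theorem QJump0_const (h : Geo G d r F B x₀ g₀) (Q : Y → Prop)
    (hF : ∀ (g : G) x y, g • x ∈ F → g • y ∈ F → (Q x ↔ Q y))
    (hr : ∀ x y, (∃ g : G, g • x ∈ F) → (∃ g : G, g • y ∈ F) → r x y → (Q x ↔ Q y))
    {x y : Y} (hx : ∃ g : G, g • x ∈ F) (hy : ∃ g : G, g • y ∈ F) : Q x ↔ Q y := by
  have := QJump0_conn h (fun x y => ∀ a : G, Q (a • x) ↔ Q (a • y))
    ⟨fun _ _ => Iff.rfl, fun e a => (e a).symm, fun e e' a => (e a).trans (e' a)⟩
    (fun a x y e b => by simpa only [mul_smul] using e (b * a))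
    (fun x hx y hy a => hF a⁻¹ _ _ (by rwa [inv_smul_smul]) (by rwa [inv_smul_smul]))
    (fun x y hx hy e a => hr _ _ (QJump0_orb hx a) (QJump0_orb hy a) (h.fat.inv a _ _ e)) hx hy 1
  rwa [one_smul, one_smul] at this

/-- a direction with a finite leaf gives a free splitting -/
theorem Geo.wall (h : Geo G d r F B x₀ g₀) {p q : Y} (hp : p ∈ Hull d F) (hq : q ∈ Hull d F)
    (n : ¬ r p q) (fin : {g : G | ∃ δ, EqvGen (DSt d r F (EdB d r B)) (1, p, q) (g, δ)}.Finite) :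
    FreeSplit G := by
  have fat := h.fat
  have T := fat.act.tr
  obtain ⟨σ, σ1, σ2, σ3, σ4⟩ := QJump0_sigma h hp n
  obtain ⟨W, hW⟩ : ∃ W : G → Prop,
    ∀ g, W g ↔ ∃ δ, EqvGen (DSt d r F (EdB d r B)) (1, p, q) (g, δ) := ⟨_, fun _ => Iff.rfl⟩
  simp only [← hW] at σ3 σ4 fin
  have w1 : W 1 := (hW 1).2 ⟨_, EqvGen.refl _⟩
  have σ5 : ∀ g y y', r y y' → (σ g y ↔ σ g y') := by
    intro g y y' e
    by_cases w : W g
    · rw [σ3 g y w, σ3 g y' w, QJump0_r_iff fat e]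
    · exact σ4 g y y' w
  have σ6 : ∀ a b : G × Y, FP d r F (EB d B) a b → (σ a.1 (a.1⁻¹ • a.2) ↔ σ b.1 (b.1⁻¹ • b.2)) := by
    intro a b e
    induction e with
    | rel a b s =>
      rcases s with ⟨s1, s2, -, -⟩ | ⟨k, ⟨u, v, s1, s2⟩, rfl⟩
      · rw [s1]; exact σ5 _ _ _ (fat.inv _ _ _ s2)
      · simp only [mul_inv_rev, mul_smul, inv_smul_smul]
        exact (σ1 k u v a.1 _ s1 (by rwa [smul_inv_smul])).symm
    | refl a => exact Iff.rfl
    | symm a b _ ih => exact ih.symm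
    | trans a b c _ _ ih ih' => exact ih.trans ih'
  have σ7 : ∀ g x : G, W g → (σ (g * x) (x⁻¹ • p) ↔ σ x (x⁻¹ • p)) := by
    intro g x w
    obtain ⟨δ, e⟩ := (hW g).1 w
    have e1 := dst_fp (E := EB d B) (fun k δ ⟨u, v, s1, s2, _, _⟩ => ⟨u, v, s1, s2⟩) e
    have e2 := σ6 _ _ (e1.mul x)
    have e3 := e1.rel fat
    simp only [one_mul, inv_one, one_smul, mul_inv_rev, mul_smul] at e2 e3
    exact (σ5 _ _ _ (fat.inv x⁻¹ _ _ e3)).trans e2.symm
  obtain ⟨s, hs⟩ : ∃ s : Y → Prop, ∀ (g : G) y, g • y ∈ F → (s y ↔ σ g y) :=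
    ⟨fun y => ∃ g : G, g • y ∈ F ∧ σ g y, fun g y c =>
      ⟨fun ⟨g', c', e⟩ => (σ2 _ _ _ _ c' c (fat.eqv.refl y)).1 e, fun e => ⟨g, c, e⟩⟩⟩
  have hs' : ∀ (a : G) y, y ∈ F → (s (a • y) ↔ σ a⁻¹ (a • y)) := fun a y c =>
    hs a⁻¹ _ (by rwa [inv_smul_smul])
  have sr : ∀ x y, (∃ g : G, g • x ∈ F) → (∃ g : G, g • y ∈ F) → r x y → (s x ↔ s y) := by
    rintro x y ⟨g, c⟩ ⟨g', c'⟩ e
    rw [hs g x c, hs g' y c']
    exact σ2 _ _ _ _ c c' e
  let Ω : SubMulAction G Y := ⟨{y | ∃ g : G, g • y ∈ F}, fun a _ c => QJump0_orb c a⟩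
  have mem : ∀ y ∈ F, y ∈ Ω := fun y c => ⟨1, by rwa [one_smul]⟩
  obtain ⟨f, hf, bf⟩ := T.hull_ext hq p
  obtain ⟨f', hf', bf'⟩ := T.hull_ext hp q
  refine freeSplit_of_walls (Ω := Ω) fat.tf (fun x => s x.1) ?_ ?_ (x₀ := ⟨x₀, mem _ h.x0⟩)
    (f := ⟨f, mem _ hf⟩) (f' := ⟨f', mem _ hf'⟩) h.g0 ?_ ?_ ?_ ?_
  · rintro ⟨x, hx⟩ ⟨y, hy⟩
    refine QJump0_conn h (fun x y => {a : G | ¬ (s (a • x) ↔ s (a • y))}.Finite)
      ⟨fun _ => by simp, fun e => e.subset fun a c c' => c c'.symm,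
        fun e e' => (e.union e').subset fun a c => ?_⟩ ?_ ?_ ?_ hx hy
    · by_contra c'
      simp only [Set.mem_union, Set.mem_ofPred_eq, not_or, not_not] at c c'
      exact c (c'.1.trans c'.2)
    · intro b x y e
      refine (e.preimage (mul_left_injective b).injOn).subset fun a c => ?_
      simpa only [Set.mem_preimage, Set.mem_ofPred_eq, mul_smul] using c
    · intro x hx y hy
      refine (fin.preimage inv_injective.injOn).subset fun a c => ?_
      by_contra w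
      exact c (by rw [hs' a x hx, hs' a y hy]; exact σ4 _ _ _ w)
    · intro x y hx hy e
      refine Set.finite_empty.subset fun a c => ?_
      exact c (sr _ _ (QJump0_orb hx a) (QJump0_orb hy a) (fat.inv a _ _ e))
  · intro a
    by_cases ha : a = 1
    · subst ha
      exact ⟨True, False, fun x c => by rw [one_smul] at c; tauto⟩
    have no : ∀ (g : G) y, g • y ∈ F → W g ∨ W (g * a⁻¹) →
        ¬ ((s y ↔ ¬ σ a (a⁻¹ • p)) ∧ (s (a • y) ↔ ¬ σ a⁻¹ (a • p))) := by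
      intro g y c w
      rw [hs g y c, hs (g * a⁻¹) (a • y) (by rwa [mul_smul, inv_smul_smul])]
      have j : W g → (σ (g * a⁻¹) (a • p) ↔ σ a⁻¹ (a • p)) := fun w => by
        simpa only [inv_inv] using σ7 g a⁻¹ w
      have i : W (g * a⁻¹) → (σ g (a⁻¹ • p) ↔ σ a (a⁻¹ • p)) := fun w => by
        simpa only [inv_mul_cancel_right] using σ7 (g * a⁻¹) a w
      rintro ⟨c1, c2⟩
      by_cases w : W g <;> by_cases w' : W (g * a⁻¹)
      · rw [← i w', σ3 _ _ w, σ3 _ _ w] at c1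
        rw [← j w, σ3 _ _ w', σ3 _ _ w'] at c2
        exact QJump0_nest fat ha c1 c2
      · rw [← j w, σ4 _ _ (a • p) w'] at c2
        exact iff_not_self c2
      · rw [← i w', σ4 _ _ (a⁻¹ • p) w] at c1
        exact iff_not_self c1
      · grind
    refine ⟨¬ σ a (a⁻¹ • p), ¬ σ a⁻¹ (a • p), fun x c => ?_⟩
    refine no 1 x₀ (by rw [one_smul]; exact h.x0) (Or.inl w1) ((QJump0_const h
      (fun y => (s y ↔ ¬ σ a (a⁻¹ • p)) ∧ (s (a • y) ↔ ¬ σ a⁻¹ (a • p))) ?_ ?_ x.2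
      (mem _ h.x0)).1 c)
    · intro g x y cx cy
      by_cases w : W g ∨ W (g * a⁻¹)
      · exact iff_of_false (no g x cx w) (no g y cy w)
      · rw [not_or] at w
        rw [hs g x cx, hs g y cy, hs (g * a⁻¹) (a • x) (by rwa [mul_smul, inv_smul_smul]),
          hs (g * a⁻¹) (a • y) (by rwa [mul_smul, inv_smul_smul]), σ4 g x y w.1,
          σ4 _ (a • x) (a • y) w.2]
    · intro x y hx hy e
      rw [sr x y hx hy e, sr _ _ (QJump0_orb hx a) (QJump0_orb hy a) (fat.inv a _ _ e)]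
  · intro a
    change (s (a • x₀) ↔ s (a • g₀ • x₀)) ∨ (s (a • x₀) ↔ s (a • g₀⁻¹ • x₀))
    rw [hs' a _ h.x0, hs' a _ h.xp, hs' a _ h.xm]
    by_cases w : W a⁻¹
    · rw [σ3 _ _ w, σ3 _ _ w, σ3 _ _ w]
      have b := fat.act.bt a h.mn
      have c1 := fun s1 s2 => QJump0_conv fat (p := p) (q := q) s1 s2 b
      have c2 := fun s1 s2 => QJump0_conv' fat (p := p) (q := q) s1 s2 b
      (clear * - c1 c2; tauto)
    · exact Or.inl (σ4 _ _ _ w)
  · exact (hs 1 f (by rwa [one_smul])).2 ((σ3 _ _ w1).2 (fat.fsd_of_bt bf n))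
  · exact fun c => fat.not_fsd bf' ((σ3 _ _ w1).1 ((hs 1 f' (by rwa [one_smul])).1 c))
  · intro x hx
    have hxF : x.1 ∈ F := by rcases hx with rfl | rfl <;> assumption
    rcases h.ess _ hxF with ⟨g, g1, e⟩ | ⟨g, e⟩
    · exact Or.inl ⟨g, g1, fun a =>
        sr _ _ (QJump0_orb (QJump0_orb x.2 g) a) (QJump0_orb x.2 a) (fat.inv a _ _ e)⟩
    · exact Or.inr ⟨g, fun a =>
        sr _ _ (QJump0_orb (QJump0_orb (mem _ h.x0) g) a) (QJump0_orb x.2 a) (fat.inv a _ _ e)⟩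

end Pool.Agent.Work.MP_904812_al
end

-- merged part: Pool.Agent.Work.MP_904812_al.QJump
section
/-! Either a free splitting or finitely many closed fat pieces. -/

namespace Pool.Agent.Work.MP_904812_al

set_option linter.unusedSectionVars false
set_option linter.unusedVariables false

open Subgroup MulAction Relation

variable {G Y : Type} [Group G] [MulAction G Y] {d : Y → Y → ℝ} {r : Y → Y → Prop} {F : Finset Y}
  {B : Finset (G × Y × Y)} {x₀ : Y} {g₀ : G}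

theorem QJump_iff {α : Type*} {ρ : α → α → Prop} {P : α → Prop} (h : ∀ a b, ρ a b → (P a ↔ P b))
    {a b : α} (e : EqvGen ρ a b) : P a ↔ P b := by
  induction e with
  | rel a b s => exact h a b s
  | refl a => exact Iff.rfl
  | symm a b _ ih => exact ih.symm
  | trans a b c _ _ ih ih' => exact ih.trans ih'

theorem QJump_pos {α : Type*} (s : Finset α) (f : α → ℝ) (hf : ∀ a, 0 < f a) :
    ∃ l : ℝ, 0 < l ∧ ∀ a ∈ s, l ≤ f a := by
  rcases s.eq_empty_or_nonempty with rfl | hs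
  · exact ⟨1, one_pos, by simp⟩
  · obtain ⟨a, -, ha⟩ := s.exists_min_image f hs
    exact ⟨f a, hf a, ha⟩

/-- directions of a leaf are represented in the hull -/
theorem QJump_inv (h : Geo G d r F B x₀ g₀) {p q : Y} (hp : p ∈ Hull d F) (hq : q ∈ Hull d F)
    (n : ¬ r p q) {c : G × Y × Y} (e : EqvGen (DSt d r F (EdB d r B)) (1, p, q) c) :
    ∃ x ∈ Hull d F, ∃ y ∈ Hull d F, FSd d r c.2 (x, y) := by
  have T := h.fat.act.tr
  refine (QJump_iff (P := fun c : G × Y × Y => ∃ x ∈ Hull d F, ∃ y ∈ Hull d F, FSd d r c.2 (x, y))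
    (fun a b s => ?_) e).1 ⟨p, hp, q, hq, h.fat.fsd_refl n⟩
  rcases s with ⟨-, s, -, -⟩ | ⟨k, ⟨u, v, s1, s2, s3, s4⟩, rfl⟩
  · exact ⟨fun ⟨x, hx, y, hy, e⟩ => ⟨x, hx, y, hy, h.fat.fsd_trans (h.fat.fsd_symm s) e⟩,
      fun ⟨x, hx, y, hy, e⟩ => ⟨x, hx, y, hy, h.fat.fsd_trans s e⟩⟩
  · obtain ⟨i1, i2, i3, i4⟩ := h.ink _ s1
    refine iff_of_true ⟨_, T.hull_conv i1 i2 s2, _, T.hull_conv i1 i2 s3, h.fat.fsd_refl s4⟩
      ⟨_, T.hull_conv i3 i4 (h.fat.act.bt k s2), _, T.hull_conv i3 i4 (h.fat.act.bt k s3),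
        h.fat.fsd_refl fun e => s4 ((h.fat.inv_iff k).1 e)⟩

/-- the finiteness lemma -/
theorem QJump_fl (h : Geo G d r F B x₀ g₀) {p q : Y} (hp : p ∈ Hull d F) (hq : q ∈ Hull d F)
    (n : ¬ r p q) (S : Finset Y)
    (hS : ∀ c, EqvGen (DSt d r F (EdB d r B)) (1, p, q) c → ∃ t ∈ S, r c.2.1 t) :
    FreeSplit G := by
  have T := h.fat.act.tr
  refine h.wall hp hq n (Set.Finite.subset (Set.Finite.biUnion (S ×ˢ F).finite_toSet
    (t := fun z => {g : G | FSd d r (p, q) (g⁻¹ • z.1, g⁻¹ • z.2)}) fun z _ => ?_) ?_)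
  · refine Set.Subsingleton.finite fun g hg g' hg' => ?_
    have e := QFat_smul h.fat g (h.fat.fsd_trans (h.fat.fsd_symm hg) hg')
    rw [smul_inv_smul, smul_inv_smul, ← mul_smul, ← mul_smul] at e
    exact mul_inv_eq_one.1 (h.fat.n1 e)
  · rintro g ⟨⟨x', y'⟩, e⟩
    obtain ⟨t, ht, rt⟩ := hS _ e
    obtain ⟨x, hx, y, hy, e1⟩ := QJump_inv h hp hq n e
    obtain ⟨f, hf, b⟩ := T.hull_ext hy x
    have e2 := h.fat.fsd_of_bt b (h.fat.fsd_ne (h.fat.fsd_symm e1))
    have n2 : ¬ r x f := h.fat.fsd_ne (h.fat.fsd_symm e2)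
    have e3 := h.fat.fsd_base (h.fat.eqv.trans (h.fat.eqv.symm e1.1) rt) n2
    have e4 := dst_fsd h.fat (fun k δ ⟨_, _, _, _, _, e⟩ => e) n e
    rw [inv_one, one_smul, one_smul] at e4
    simp only [Set.mem_iUnion]
    exact ⟨(t, f), by simp [ht, hf], h.fat.fsd_trans e4
      (QFat_smul h.fat g⁻¹ (h.fat.fsd_trans e1 (h.fat.fsd_trans e2 e3)))⟩

/-- the finite set of special points -/
theorem QJump_spec (h : Geo G d r F B x₀ g₀) : ∃ S : Finset Y, (∀ s ∈ S, s ∈ Hull d F) ∧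
    x₀ ∈ S ∧ (∀ c, Br d F c → c ∈ S) ∧
    ∀ k u v, (k, u, v) ∈ B → u ∈ S ∧ v ∈ S ∧ k • u ∈ S ∧ k • v ∈ S := by
  classical
  have T := h.fat.act.tr
  refine ⟨insert x₀ ((T.br_finite F).toFinset ∪
    B.biUnion fun β => {β.2.1, β.2.2, β.1 • β.2.1, β.1 • β.2.2}), fun s hs => ?_, by simp,
    fun c hc => by simp [hc], fun k u v hb => ?_⟩
  · simp only [Finset.mem_insert, Finset.mem_union, Set.Finite.mem_toFinset, Set.mem_ofPred_eq,
      Finset.mem_biUnion, Finset.mem_singleton] at hs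
    rcases hs with rfl | hs | ⟨β, hβ, hs⟩
    · exact T.mem_hull h.x0
    · exact T.br_hull hs
    · obtain ⟨i1, i2, i3, i4⟩ := h.ink _ hβ
      rcases hs with rfl | rfl | rfl | rfl <;> assumption
  · simp only [Finset.mem_insert, Finset.mem_union, Finset.mem_biUnion, Finset.mem_singleton]
    refine ⟨?_, ?_, ?_, ?_⟩ <;> exact Or.inr (Or.inr ⟨_, hb, by simp⟩)

/-- a fat point whose leaf has no special point -/
theorem QJump_one (h : Geo G d r F B x₀ g₀) {S : Finset Y} (S0 : x₀ ∈ S)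
    (Sb : ∀ c, Br d F c → c ∈ S)
    (SB : ∀ k u v, (k, u, v) ∈ B → u ∈ S ∧ v ∈ S ∧ k • u ∈ S ∧ k • v ∈ S) {p p' : Y}
    (hp : p ∈ Hull d F) (hp' : p' ∈ Hull d F) (ne : p ≠ p') (rp : r p p')
    (ns : ∀ c, FP d r F (EB d B) (1, p) c → ∀ s ∈ S, ¬ r c.2 s) : FreeSplit G := by
  have T := h.fat.act.tr
  have E := h.fat.eqv
  have rel : ∀ c, FP d r F (EB d B) (1, p) c → r c.2 (c.1 • p) := fun c e => by
    have := h.fat.inv c.1 _ _ (FP.rel h.fat (g' := c.1) (p' := c.2) e)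
    rw [inv_one, one_smul, smul_inv_smul] at this
    exact E.symm this
  have key : ∀ a, r p a → a ∈ Hull d F → ∀ c, FP d r F (EB d B) (1, p) c → c.1 • a ∈ Hull d F := by
    intro a ra ha c e
    refine ((QJump_iff (P := fun c : G × Y => FP d r F (EB d B) (1, p) c ∧ c.1 • a ∈ Hull d F)
      (fun c c' s => ?_) e).1 ⟨EqvGen.refl _, by rwa [one_smul]⟩).2
    have l : FP d r F (EB d B) (1, p) c ↔ FP d r F (EB d B) (1, p) c' :=
      ⟨fun e => EqvGen.trans _ _ _ e (EqvGen.rel _ _ s),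
        fun e => EqvGen.trans _ _ _ e (EqvGen.symm _ _ (EqvGen.rel _ _ s))⟩
    rw [← l]
    refine and_congr_right fun e => ?_
    have e' := l.1 e
    rcases s with ⟨s, -⟩ | ⟨k, ⟨u, v, s1, s2⟩, rfl⟩
    · rw [s]
    · obtain ⟨i1, i2, i3, i4⟩ := h.ink _ s1
      obtain ⟨j1, j2, j3, j4⟩ := SB _ _ _ s1
      constructor
      · intro ha
        have := h.fat.piece_sub i1 i2 s2 (ns _ e _ j1) (ns _ e _ j2)
          (fun c hc => ns _ e _ (Sb c hc)) ha (E.trans (rel _ e) (h.fat.inv _ _ _ ra))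
        rw [mul_smul]
        exact T.hull_conv i3 i4 (h.fat.act.bt k this)
      · intro ha
        have := h.fat.piece_sub i3 i4 (h.fat.act.bt k s2) (ns _ e' _ j3) (ns _ e' _ j4)
          (fun c hc => ns _ e' _ (Sb c hc)) ha (E.trans (rel _ e') (h.fat.inv _ _ _ ra))
        rw [mul_smul] at this
        exact T.hull_conv i1 i2 ((h.fat.act.bt_iff k).1 this)
  obtain ⟨S', hS'⟩ := h.fat.grid F (T.pos ne)
  refine QJump_fl h hp (T.mem_hull h.x0) (ns _ (EqvGen.refl _) _ S0) S' fun c e => ?_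
  have e' : FP d r F (EB d B) (1, p) (c.1, c.2.1) :=
    dst_fp (δ := (p, x₀)) (δ' := c.2) (fun k δ ⟨u, v, s1, s2, _⟩ => ⟨u, v, s1, s2⟩) e
  obtain ⟨t, ht, rt⟩ := hS' _ (key p (E.refl p) hp _ e') _ (key p' rp hp' _ e')
    (h.fat.inv _ _ _ rp) (h.fat.act.iso _ _ _).ge
  exact ⟨t, ht, E.trans (rel _ e') rt⟩

/-- either a free splitting or finitely many fat classes -/
theorem QJump_two (h : Geo G d r F B x₀ g₀) : FreeSplit G ∨ ∃ S : Finset Y,
    ∀ p ∈ Hull d F, ∀ p' ∈ Hull d F, p ≠ p' → r p p' → ∃ t ∈ S, r p t := by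
  classical
  have T := h.fat.act.tr
  have E := h.fat.eqv
  obtain ⟨S, SK, S0, Sb, SB⟩ := QJump_spec h
  have ch : ∀ z : Y × Y × Y, ∃ l : ℝ, 0 < l ∧
      ((∃ a b, a ≠ b ∧ r z.1 a ∧ r z.1 b ∧ Bt d z.2.1 a z.2.2 ∧ Bt d z.2.1 b z.2.2) →
        ∃ a b, l ≤ d a b ∧ r z.1 a ∧ r z.1 b ∧ Bt d z.2.1 a z.2.2 ∧ Bt d z.2.1 b z.2.2) := by
    intro z
    by_cases c : ∃ a b, a ≠ b ∧ r z.1 a ∧ r z.1 b ∧ Bt d z.2.1 a z.2.2 ∧ Bt d z.2.1 b z.2.2
    · obtain ⟨a, b, ne, c⟩ := c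
      exact ⟨d a b, T.pos ne, fun _ => ⟨a, b, le_rfl, c⟩⟩
    · exact ⟨1, one_pos, fun c' => absurd c' c⟩
  choose lf l0 hl using ch
  obtain ⟨l, lp, hl'⟩ := QJump_pos (S ×ˢ S ×ˢ S) lf l0
  let Bad : Y → Prop := fun x => x ∈ Hull d F ∧ (∃ x' ∈ Hull d F, x ≠ x' ∧ r x x') ∧
    (∀ s ∈ S, ¬ r x s) ∧ ¬ ∃ a ∈ Hull d F, ∃ b ∈ Hull d F, r x a ∧ r x b ∧ l ≤ d a b
  have b1 : ∀ x y, r x y → y ∈ Hull d F → Bad x → Bad y := by
    rintro x y e hy ⟨hx, ⟨x', hx', ne, rx⟩, ns, nb⟩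
    refine ⟨hy, ?_, fun s hs e' => ns s hs (E.trans e e'),
      fun ⟨a, ha, b, hb, ra, rb, c⟩ => nb ⟨a, ha, b, hb, E.trans e ra, E.trans e rb, c⟩⟩
    by_cases c : y = x
    · exact ⟨x', hx', c ▸ ne, c ▸ rx⟩
    · exact ⟨x, hx, c, E.symm e⟩
  have b2 : ∀ (k : G) u v x, u ∈ S → v ∈ S → k • u ∈ S → k • v ∈ S → Bt d u x v → Bad x →
      Bad (k • x) := by
    rintro k u v x j1 j2 j3 j4 s ⟨hx, ⟨x', hx', ne, rx⟩, ns, nb⟩
    have s' := h.fat.piece_sub (SK _ j1) (SK _ j2) s (ns _ j1) (ns _ j2)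
      (fun c hc => ns _ (Sb c hc)) hx' rx
    have ne' : k • x ≠ k • x' := fun e => ne (smul_left_cancel k e)
    have back : ∀ a b, l ≤ d a b → r (k • x) a → r (k • x) b → Bt d (k • u) a (k • v) →
        Bt d (k • u) b (k • v) → False := by
      intro a b c ra rb ba bb
      refine nb ⟨k⁻¹ • a, T.hull_conv (SK _ j1) (SK _ j2) ?_, k⁻¹ • b,
        T.hull_conv (SK _ j1) (SK _ j2) ?_, ?_, ?_, by rwa [h.fat.act.iso]⟩
      · simpa using h.fat.act.bt k⁻¹ ba
      · simpa using h.fat.act.bt k⁻¹ bb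
      · simpa using h.fat.inv k⁻¹ _ _ ra
      · simpa using h.fat.inv k⁻¹ _ _ rb
    have ns' : ∀ s ∈ S, ¬ r (k • x) s := by
      intro t ht e
      obtain ⟨a, b, c, ra, rb, ba, bb⟩ := hl (t, k • u, k • v) ⟨k • x, k • x', ne', E.symm e,
        E.trans (E.symm e) (h.fat.inv k _ _ rx), h.fat.act.bt k s, h.fat.act.bt k s'⟩
      exact back a b ((hl' _ (by simp [ht, j3, j4])).trans c) (E.trans e ra) (E.trans e rb) ba bb
    refine ⟨T.hull_conv (SK _ j3) (SK _ j4) (h.fat.act.bt k s),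
      ⟨k • x', T.hull_conv (SK _ j3) (SK _ j4) (h.fat.act.bt k s'), ne', h.fat.inv k _ _ rx⟩,
      ns', fun ⟨a, ha, b, hb, ra, rb, c⟩ => ?_⟩
    have sub := fun z hz rz => h.fat.piece_sub (q := z) (SK _ j3) (SK _ j4) (h.fat.act.bt k s)
      (ns' _ j3) (ns' _ j4) (fun c hc => ns' _ (Sb c hc)) hz rz
    exact back a b c ra rb (sub a ha ra) (sub b hb rb)
  by_cases hb : ∃ p, Bad p
  · obtain ⟨p, hp⟩ := hb
    have hp' := hp
    obtain ⟨hx, ⟨x', hx', ne, rx⟩, -, -⟩ := hp'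
    refine Or.inl (QJump_one h S0 Sb SB hx hx' ne rx fun c e => ?_)
    refine ((QJump_iff (P := fun c : G × Y => Bad c.2) (fun c c' s => ?_) e).1 hp).2.2.1
    rcases s with ⟨-, s2, s3, s4⟩ | ⟨k, ⟨u, v, s1, s2⟩, rfl⟩
    · exact ⟨b1 _ _ s2 s4, b1 _ _ (E.symm s2) s3⟩
    · obtain ⟨j1, j2, j3, j4⟩ := SB _ _ _ s1
      refine ⟨b2 k u v _ j1 j2 j3 j4 s2, fun c => ?_⟩
      have := b2 k⁻¹ _ _ _ j3 j4 (by rwa [inv_smul_smul]) (by rwa [inv_smul_smul])
        (h.fat.act.bt k s2) c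
      rwa [inv_smul_smul] at this
  · obtain ⟨S', hS'⟩ := h.fat.grid F lp
    refine Or.inr ⟨S ∪ S', fun p hp p' hp' ne e => ?_⟩
    by_contra c
    refine hb ⟨p, hp, ⟨p', hp', ne, e⟩, fun s hs e' => c ⟨s, by simp [hs], e'⟩, ?_⟩
    rintro ⟨a, ha, b, hb, ra, rb, c'⟩
    obtain ⟨t, ht, rt⟩ := hS' a ha b hb (E.trans (E.symm ra) rb) c'
    exact c ⟨t, by simp [ht], E.trans ra rt⟩

/-- the class of `p` has no last point on the way to `q` -/
def QJump_OE (d : Y → Y → ℝ) (r : Y → Y → Prop) (p q : Y) : Prop :=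
  ∀ y, Bt d p y q → r p y → ∃ y', y' ≠ y ∧ Bt d y y' q ∧ r p y'

theorem QJump_before (h : Fat G d r) {p y m q : Y} (a : Bt d p y q) (b : Bt d p m q) (e : r p y)
    (n : ¬ r p m) : Bt d p y m := by
  have T := h.act.tr
  rcases le_total (d p y) (d p m) with c | c
  · exact (T.bt_of_le a b c).1
  · exact absurd (h.conv _ _ _ e (T.bt_of_le b a c).1) n

theorem QJump_oe_fsd (h : Fat G d r) {p q p' q' : Y} (a : FSd d r (p, q) (p', q'))
    (o : QJump_OE d r p q) : QJump_OE d r p' q' := by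
  have T := h.act.tr
  have E := h.eqv
  obtain ⟨e, m, m1, m2, n⟩ := a
  simp only at e m1 m2 n
  intro y hy ry
  have a1 := QJump_before h hy m2 ry fun e' => n (E.trans e e')
  obtain ⟨z, z1, z2, z3⟩ := T.med' p y m
  have rz := h.conv _ _ _ (E.trans e ry) z1
  obtain ⟨z4, z5⟩ := T.bt_trans z2 m1
  obtain ⟨y', ne, b, ry'⟩ := o z z4 rz
  have a2 := QJump_before h b z5 (E.trans (E.symm rz) ry') fun e' => n (E.trans rz e')
  have a3 := (T.bt_trans' z3 a2).2
  refine ⟨y', ?_, (T.bt_trans a3 (T.bt_trans a1 m2).2).1, E.trans (E.symm e) ry'⟩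
  rintro rfl
  apply ne
  apply T.eq_of
  have := T.symm y' z
  have := T.nonneg y' z
  simp only [Bt] at z3 a2
  linarith

theorem QJump_oe_smul (h : Fat G d r) (g : G) {p q : Y} (o : QJump_OE d r (g⁻¹ • p) (g⁻¹ • q)) :
    QJump_OE d r p q := by
  intro y hy ry
  obtain ⟨y', ne, b, ry'⟩ := o _ (h.act.bt g⁻¹ hy) (h.inv g⁻¹ _ _ ry)
  refine ⟨g • y', fun e => ne (by rw [← e, inv_smul_smul]), ?_, ?_⟩
  · simpa using h.act.bt g b
  · simpa using h.inv g _ _ ry'

theorem Geo.jump (h : Geo G d r F B x₀ g₀) : FreeSplit G ∨ BL d r F := by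
  have T := h.fat.act.tr
  have E := h.fat.eqv
  rcases QJump_two h with c | ⟨S, hS⟩
  · exact Or.inl c
  by_cases o : ∃ p ∈ Hull d F, ∃ q ∈ Hull d F, ¬ r p q ∧ QJump_OE d r p q
  · obtain ⟨p, hp, q, hq, n, o⟩ := o
    refine Or.inl (QJump_fl h hp hq n S fun c e => ?_)
    obtain ⟨g, x', y'⟩ := c
    obtain ⟨x, hx, y, hy, e1⟩ := QJump_inv h hp hq n e
    have e4 := dst_fsd h.fat (fun k δ ⟨_, _, _, _, _, e⟩ => e) n e
    rw [inv_one, one_smul, one_smul] at e4
    obtain ⟨z, ne, b, rz⟩ := QJump_oe_fsd h.fat e1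
      (QJump_oe_smul h.fat g (QJump_oe_fsd h.fat e4 o)) x (T.bt_left _ _) (E.refl x)
    obtain ⟨t, ht, rt⟩ := hS x hx z (T.hull_conv hx hy b) ne.symm rz
    exact ⟨t, ht, E.trans e1.1 rt⟩
  have last : ∀ p ∈ Hull d F, ∀ q ∈ Hull d F, ¬ r p q →
      ∃ a, Bt d p a q ∧ r p a ∧ ∀ y, Bt d a y q → r p y → y = a := by
    intro p hp q hq n
    by_contra c
    refine o ⟨p, hp, q, hq, n, fun y hy ry => ?_⟩
    by_contra c'
    exact c ⟨y, hy, ry, fun y' b e => by_contra fun ne => c' ⟨y', ne, b, e⟩⟩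
  refine Or.inr fun p q hp hq n => ?_
  obtain ⟨a, a1, a2, a3⟩ := last p hp q hq n
  have ha := T.hull_conv hp hq a1
  have aq : a ≠ q := fun e => n (e ▸ a2)
  have ch : ∀ t, ∃ b, a ≠ b ∧ Bt d a b q ∧ ∀ x, Bt d a x b → r x t → ¬ r p x → x = b := by
    intro t
    by_cases c : ∃ x, Bt d a x q ∧ r x t ∧ ¬ r p x
    · obtain ⟨x, x1, x2, x3⟩ := c
      have nx : ¬ r x a := fun e => x3 (E.trans a2 (E.symm e))
      obtain ⟨b, b1, b2, b3⟩ := last x (T.hull_conv ha hq x1) a ha nx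
      exact ⟨b, fun e => nx (e ▸ b2), (T.bt_trans (T.bt_symm b1) x1).1,
        fun y y1 y2 _ => b3 y (T.bt_symm y1) (E.trans x2 (E.symm y2))⟩
    · exact ⟨q, aq, T.bt_right _ _, fun x x1 x2 x3 => absurd ⟨x, x1, x2, x3⟩ c⟩
  choose bf b1 b2 b3 using ch
  obtain ⟨l, lp, hl⟩ := QJump_pos S (fun t => d a (bf t)) fun t => T.pos (b1 t)
  have l0 : 0 < min l (d a q) := lt_min lp (T.pos aq)
  obtain ⟨b, c1, c2⟩ := T.ex_bt a q l0.le (min_le_right _ _)
  refine ⟨a, b, fun e => ?_, a1, (T.bt_trans' a1 c1).2, fun x y hx hy e => ?_⟩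
  · rw [← e, T.self] at c2
    exact l0.ne c2
  have x1 := (T.bt_trans hx c1).1
  have y1 := (T.bt_trans hy c1).1
  by_contra ne
  obtain ⟨t, ht, rt⟩ := hS x (T.hull_conv ha hq x1) y (T.hull_conv ha hq y1) ne e
  by_cases c : r p x
  · exact ne ((a3 x x1 c).trans (a3 y y1 (E.trans c e)).symm)
  · have c3 := (T.bt_of_le c1 (b2 t) (c2.le.trans ((min_le_left _ _).trans (hl t ht)))).1
    exact ne ((b3 t x (T.bt_trans hx c3).1 rt c).trans (b3 t y (T.bt_trans hy c3).1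
      (E.trans (E.symm e) rt) fun e' => c (E.trans e' (E.symm e))).symm)

end Pool.Agent.Work.MP_904812_al
end

-- merged part: Pool.Agent.Work.MP_904812_al.QInd
section
/-! Independent generators. -/

namespace Pool.Agent.Work.MP_904812_al

set_option linter.unusedSectionVars false
set_option linter.unusedVariables false

open Subgroup MulAction Relation

variable {G Y : Type} [Group G] [MulAction G Y] {d : Y → Y → ℝ} {F : Finset Y}
  {B : Finset (G × Y × Y)} {x₀ : Y} {g₀ : G}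

/-- the two ends of the base of a band -/
def QInd_st (β : G × Y × Y) (c : Bool) : Y := cond c β.2.1 β.2.2

theorem QInd_bt (T : Tr d) (β : G × Y × Y) (c : Bool) (x : Y) :
    Bt d (QInd_st β c) x (QInd_st β (!c)) ↔ Bt d β.2.1 x β.2.2 := by
  cases c
  · exact ⟨T.bt_symm, T.bt_symm⟩
  · exact Iff.rfl

theorem QInd_len (T : Tr d) (β : G × Y × Y) (c : Bool) :
    d (QInd_st β c) (QInd_st β (!c)) = d β.2.1 β.2.2 := by
  cases c
  · exact T.symm _ _
  · rfl

/-- a uniform positive constant over a finite set -/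
theorem QInd_unif {α : Type*} {S : Set α} (hS : S.Finite) (P : α → ℝ → Prop)
    (mono : ∀ e δ δ', 0 < δ' → δ' ≤ δ → P e δ → P e δ')
    (h : ∀ e ∈ S, ∃ δ, 0 < δ ∧ P e δ) : ∃ δ, 0 < δ ∧ ∀ e ∈ S, P e δ := by
  induction S, hS using Set.Finite.induction_on with
  | empty => exact ⟨1, one_pos, by simp⟩
  | @insert a s _ _ ih =>
    obtain ⟨δ, h1, h2⟩ := ih fun e he => h e (Set.mem_insert_of_mem _ he)
    obtain ⟨δ', h1', h2'⟩ := h a (Set.mem_insert _ _)
    refine ⟨min δ δ', lt_min h1 h1', fun e he => ?_⟩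
    rcases he with rfl | he
    · exact mono _ _ _ (lt_min h1 h1') (min_le_right _ _) h2'
    · exact mono _ _ _ (lt_min h1 h1') (min_le_left _ _) (h2 e he)

/-- only finitely many edges lie along a nondegenerate segment -/
theorem QInd_fin (h : Fat G d Eq) (ik : InK d F B) {a b : Y} (n : a ≠ b) :
    {e : G × (G × Y × Y) | e.2 ∈ B ∧ Along d a b e.1 e.2}.Finite := by
  have T := h.act.tr
  refine ((h.na F a b n).prod B.finite_toSet).subset ?_
  rintro ⟨g, β⟩ ⟨h1, h2, h3⟩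
  obtain ⟨k1, k2, -, -⟩ := ik β h1
  exact ⟨⟨T.hull_conv k1 k2 h2, T.hull_conv k1 k2 h3⟩, h1⟩

/-- paths of admissible bands along a segment -/
def QInd_Path (d : Y → Y → ℝ) (B : Finset (G × Y × Y)) (K : G → G × Y × Y → Prop) (u q : Y) :
    G → G → Prop :=
  EqvGen fun h h' => ∃ β ∈ B, Along d u q h β ∧ K h β ∧ h' = β.1 * h

theorem QInd_max (h : Fat G d Eq) (ik : InK d F B) (K : G → G × Y × Y → Prop) (u v : Y) (k : G) :
    ∃ q, Bt d u q v ∧ (q = u ∨ QInd_Path d B K u q 1 k) ∧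
      ∀ q', Bt d u q' v → QInd_Path d B K u q' 1 k → d u q' ≤ d u q := by
  have T := h.act.tr
  let S : Set ℝ := {s | s = 0 ∨ ∃ q, Bt d u q v ∧ QInd_Path d B K u q 1 k ∧ d u q = s}
  have h0 : (0 : ℝ) ∈ S := Or.inl rfl
  have hb : ∀ s ∈ S, s ≤ d u v := by
    rintro s (rfl | ⟨q, a, -, rfl⟩)
    · exact T.nonneg u v
    · exact T.bt_le a
  have hbd : BddAbove S := ⟨_, hb⟩
  have s0 : 0 ≤ sSup S := le_csSup hbd h0
  have s1 : sSup S ≤ d u v := csSup_le ⟨0, h0⟩ hb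
  obtain ⟨q, hq, hq'⟩ := T.ex_bt u v s0 s1
  refine ⟨q, hq, ?_, fun q' a b => ?_⟩
  swap
  · rw [hq']; exact le_csSup hbd (Or.inr ⟨q', a, b, rfl⟩)
  rcases s0.eq_or_lt with e | e
  · exact Or.inl (T.eq_of (hq'.trans e.symm)).symm
  right
  obtain ⟨q₀, a₀, a₀'⟩ := T.ex_bt u v (t := sSup S / 2) (by linarith) (by linarith)
  have n : u ≠ q₀ := by
    rintro rfl
    rw [T.self] at a₀'; linarith
  obtain ⟨δ, δ0, hδ⟩ := QInd_unif (QInd_fin h ik n)
    (fun e δ => ∀ z, d z q < δ → Along d u z e.1 e.2 → Along d u q e.1 e.2)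
    (fun e δ δ' _ l p z hz => p z (hz.trans_le l)) (by
      rintro ⟨g, β⟩ ⟨-, h2, -⟩
      by_cases c : Bt d β.2.1 (g • q) β.2.2
      · exact ⟨1, one_pos, fun z _ _ => ⟨h2, c⟩⟩
      · have t := T.tri β.2.1 (g • q) β.2.2
        have c' : d β.2.1 β.2.2 < d β.2.1 (g • q) + d (g • q) β.2.2 :=
          lt_of_le_of_ne t fun e => c e.symm
        refine ⟨(d β.2.1 (g • q) + d (g • q) β.2.2 - d β.2.1 β.2.2) / 2, by linarith,
          fun z hz hz' => ?_⟩
        exfalso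
        have e1 : d β.2.1 (g • z) + d (g • z) β.2.2 = d β.2.1 β.2.2 := hz'.2
        have e2 := T.tri β.2.1 (g • z) (g • q)
        have e3 := T.tri (g • q) (g • z) β.2.2
        have e4 := h.act.iso g z q
        have e5 := T.symm (g • q) (g • z)
        linarith)
  obtain ⟨s, hs, hs'⟩ := exists_lt_of_lt_csSup ⟨0, h0⟩
    (show max (sSup S - δ) (sSup S / 2) < sSup S from max_lt (by linarith) (by linarith))
  have l1 := (le_max_left _ _).trans_lt hs'
  have l2 := (le_max_right _ _).trans_lt hs'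
  have l3 := le_csSup hbd hs
  rcases hs with rfl | ⟨z, z1, z2, rfl⟩
  · linarith
  have b1 := (T.bt_of_le z1 hq (by linarith)).1
  have b2 := (T.bt_of_le a₀ z1 (by linarith)).1
  refine eqv_mono (fun g g' r => EqvGen.rel _ _ ?_) z2
  obtain ⟨β, hβ, r1, r2, r3⟩ := r
  refine ⟨β, hβ, hδ (g, β) ⟨hβ, r1.1, T.bt_conv r1.1 r1.2 (h.act.bt g b2)⟩ z ?_ r1, r2, r3⟩
  have : d u z + d z q = d u q := b1
  linarith

/-- the condition on aligned edges -/
def QInd_K (key : G × Y × Y → Bool → ℕ) (β : G × Y × Y) (c : Bool) (h : G) (β₁ : G × Y × Y) :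
    Prop :=
  ∀ c₁, h • QInd_st β c = QInd_st β₁ c₁ → key β₁ c₁ < key β c

/-- the data of the shrinking -/
structure QInd_Dat (d : Y → Y → ℝ) (B : Finset (G × Y × Y)) (key : G × Y × Y → Bool → ℕ)
    (q m : G × Y × Y → Bool → Y) : Prop where
  inj : ∀ β ∈ B, ∀ β' ∈ B, ∀ c c', key β c = key β' c' → β = β' ∧ c = c'
  bq : ∀ β c, Bt d (QInd_st β c) (q β c) (QInd_st β (!c))
  bm : ∀ β c, Bt d (QInd_st β c) (m β c) (q β c)
  mid : ∀ β c, 2 * d (QInd_st β c) (m β c) = d (QInd_st β c) (q β c)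
  ok : ∀ β c, q β c = QInd_st β c ∨ QInd_Path d B (QInd_K key β c) (QInd_st β c) (q β c) 1 β.1
  mx : ∀ β c q', Bt d (QInd_st β c) q' (QInd_st β (!c)) →
    QInd_Path d B (QInd_K key β c) (QInd_st β c) q' 1 β.1 →
    d (QInd_st β c) q' ≤ d (QInd_st β c) (q β c)

theorem QInd_dat (h : Fat G d Eq) (ik : InK d F B) : ∃ key q m, QInd_Dat d B key q m := by
  have T := h.act.tr
  have hf : {e : (G × Y × Y) × Bool | e.1 ∈ B}.Finite := by
    refine (B.finite_toSet.prod (Set.toFinite (Set.univ : Set Bool))).subset ?_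
    rintro ⟨β, c⟩ hβ
    exact ⟨hβ, trivial⟩
  obtain ⟨key, hk⟩ := Set.countable_iff_exists_injOn.1 hf.countable
  choose q h1 h2 h3 using fun (β : G × Y × Y) (c : Bool) =>
    QInd_max h ik (QInd_K (fun β c => key (β, c)) β c) (QInd_st β c) (QInd_st β (!c)) β.1
  choose m m1 m2 using fun (β : G × Y × Y) (c : Bool) =>
    T.ex_bt (QInd_st β c) (q β c) (t := d (QInd_st β c) (q β c) / 2)
      (by have := T.nonneg (QInd_st β c) (q β c); linarith)
      (by have := T.nonneg (QInd_st β c) (q β c); linarith)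
  refine ⟨fun β c => key (β, c), q, m, fun β hβ β' hβ' c c' e => ?_, h1, m1,
    fun β c => by rw [m2]; ring, h2, h3⟩
  have := hk (x₁ := (β, c)) hβ (x₂ := (β', c')) hβ' e
  exact Prod.mk.inj this

variable {key : G × Y × Y → Bool → ℕ} {q m : G × Y × Y → Bool → Y}

/-- the shrunk band -/
def QInd_sh (m : G × Y × Y → Bool → Y) (β : G × Y × Y) : G × Y × Y := (β.1, m β true, m β false)

theorem QInd_Dat.half (D : QInd_Dat d B key q m) (T : Tr d) (β : G × Y × Y) (c : Bool) :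
    2 * d (QInd_st β c) (m β c) ≤ d β.2.1 β.2.2 := by
  rw [D.mid, ← QInd_len T β c]; exact T.bt_le (D.bq β c)

theorem QInd_Dat.bm' (D : QInd_Dat d B key q m) (T : Tr d) (β : G × Y × Y) (c : Bool) :
    Bt d β.2.1 (m β c) β.2.2 :=
  (QInd_bt T β c _).1 (T.bt_trans (D.bm β c) (D.bq β c)).1

theorem QInd_Dat.sh_iff (D : QInd_Dat d B key q m) (T : Tr d) (β : G × Y × Y) (x : Y) :
    Bt d (m β true) x (m β false) ↔
      Bt d β.2.1 x β.2.2 ∧ ∀ c, d (QInd_st β c) (m β c) ≤ d (QInd_st β c) x := by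
  have b1 := D.bm' T β true
  have b2 := D.bm' T β false
  have l1 : 2 * d β.2.1 (m β true) ≤ d β.2.1 β.2.2 := D.half T β true
  have l2 : 2 * d β.2.2 (m β false) ≤ d β.2.1 β.2.2 := D.half T β false
  have e0 := T.bt_dist b1 b2
  have s1 := T.symm β.2.2 (m β false)
  have s2 := T.symm β.2.2 x
  constructor
  · intro a
    have b := T.bt_conv b1 b2 a
    have e1 := T.bt_dist b1 b
    have e2 := T.bt_dist b b2
    refine ⟨b, fun c => ?_⟩
    cases c
    · show d β.2.2 (m β false) ≤ d β.2.2 x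
      simp only [Bt] at *; grind
    · show d β.2.1 (m β true) ≤ d β.2.1 x
      simp only [Bt] at *; grind
  · rintro ⟨b, hc⟩
    have c1 : d β.2.1 (m β true) ≤ d β.2.1 x := hc true
    have c2 : d β.2.2 (m β false) ≤ d β.2.2 x := hc false
    have e1 := T.bt_dist b1 b
    have e2 := T.bt_dist b b2
    simp only [Bt] at *; grind

/-- real induction downwards across finitely many exceptional values -/
theorem QInd_desc (P : ℝ → Prop) {S : Set ℝ} (hS : S.Finite) {η W : ℝ} (hη : 0 < η)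
    (hA : ∀ w₁ w₂, 0 ≤ w₁ → w₁ ≤ w₂ → w₂ ≤ w₁ + η → (∀ a ∈ S, a ≤ w₁ ∨ w₂ ≤ a) → P w₂ → P w₁)
    (up : ∀ w w', w ≤ w' → P w → P w') (hW : 0 ≤ W) (hP : P W) : P 0 := by
  let A : Set ℝ := {w | 0 ≤ w ∧ P w}
  have ne : A.Nonempty := ⟨W, hW, hP⟩
  have bd : BddBelow A := ⟨0, fun w hw => hw.1⟩
  have i0 : 0 ≤ sInf A := le_csInf ne fun w hw => hw.1
  obtain ⟨δ, δ0, hδ⟩ := QInd_unif hS (fun a δ => a = sInf A ∨ δ ≤ |a - sInf A|)
    (fun a δ δ' _ l p => p.imp_right fun p => l.trans p) (fun a _ => by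
      by_cases e : a = sInf A
      · exact ⟨1, one_pos, Or.inl e⟩
      · exact ⟨|a - sInf A|, abs_pos.2 (sub_ne_zero.2 e), Or.inr le_rfl⟩)
  have m0 : 0 < min δ η := lt_min δ0 hη
  have m1 := min_le_left δ η
  have m2 := min_le_right δ η
  obtain ⟨w, hw, hw'⟩ := exists_lt_of_csInf_lt ne (show sInf A < sInf A + min δ η by linarith)
  have p1 : P (sInf A) := by
    refine hA _ (sInf A + min δ η) i0 (by linarith) (by linarith) (fun a ha => ?_)
      (up _ _ hw'.le hw.2)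
    have := hδ a ha
    (clear * - m1 this δ0; grind)
  have p2 : P (max (sInf A - min δ η) 0) := by
    refine hA _ (sInf A) (le_max_right _ _) (max_le (by linarith) i0) ?_ (fun a ha => ?_) p1
    · have := le_max_left (sInf A - min δ η) 0
      linarith
    · have := hδ a ha
      (clear * - m1 this δ0; grind)
  have l := csInf_le bd (show max (sInf A - min δ η) 0 ∈ A from ⟨le_max_right _ _, p2⟩)
  have : sInf A = 0 := by (clear * - i0 l m0; grind)
  rwa [this] at p1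

/-- the part of a base with margins `w`, `w'` -/
def QInd_M (d : Y → Y → ℝ) (m : G × Y × Y → Bool → Y) (w w' : ℝ) (β : G × Y × Y) (c : Bool)
    (x : Y) : Prop :=
  Bt d β.2.1 x β.2.2 ∧ min w (d (QInd_st β c) (m β c)) ≤ d (QInd_st β c) x ∧
    min w' (d (QInd_st β (!c)) (m β (!c))) ≤ d (QInd_st β (!c)) x

/-- the transition function is constant on that part -/
def QInd_P (d : Y → Y → ℝ) (m : G × Y × Y → Bool → Y) {Γ : Type} [Group Γ] (f : G → Y → Γ)
    (w w' : ℝ) (β : G × Y × Y) (c : Bool) : Prop :=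
  ∀ (g : G) p p', QInd_M d m w w' β c (g • p) → QInd_M d m w w' β c (g • p') →
    f (β.1 * g) p * (f g p)⁻¹ = f (β.1 * g) p' * (f g p')⁻¹

theorem QInd_side (T : Tr d) (β : G × Y × Y) {x y : Y} (hx : Bt d β.2.1 x β.2.2)
    (hy : Bt d β.2.1 y β.2.2) : ∃ c, Bt d (QInd_st β c) x y ∧ Bt d x y (QInd_st β (!c)) := by
  rcases le_total (d β.2.1 x) (d β.2.1 y) with l | l
  · exact ⟨true, T.bt_of_le hx hy l⟩
  · obtain ⟨a, b⟩ := T.bt_of_le hy hx l
    exact ⟨false, T.bt_symm b, T.bt_symm a⟩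

theorem QInd_Dat.step (D : QInd_Dat d B key q m) (h : IAct G d) {Γ : Type} [Group Γ]
    {f : G → Y → Γ} {η w₁ w₂ : ℝ}
    (hη : ∀ β ∈ B, ∀ c, q β c ≠ QInd_st β c → ∀ (g : G), ∀ β₁ ∈ B,
      Along d (QInd_st β c) (q β c) g β₁ → ∀ c₁, g • QInd_st β c ≠ QInd_st β₁ c₁ →
      η ≤ d (QInd_st β₁ c₁) (g • QInd_st β c))
    (h0 : 0 ≤ w₁) (h1 : w₁ ≤ w₂) (h2 : w₂ ≤ w₁ + η)
    (hS : ∀ β ∈ B, ∀ c, d (QInd_st β c) (m β c) ≤ w₁ ∨ w₂ ≤ d (QInd_st β c) (m β c))
    (hP : ∀ β ∈ B, ∀ c, QInd_P d m f w₂ w₂ β c) (n : ℕ) :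
    ∀ β ∈ B, ∀ c, key β c = n → QInd_P d m f w₁ w₂ β c := by
  have T := h.tr
  induction n using Nat.strong_induction_on with
  | _ n ih =>
  intro β hβ c hn
  rcases le_or_gt (d (QInd_st β c) (m β c)) w₁ with l | l
  · intro g p p' a a'
    refine hP β hβ c g p p' ⟨a.1, ?_, a.2.2⟩ ⟨a'.1, ?_, a'.2.2⟩
    · have := a.2.1
      rw [min_eq_right l] at this
      exact (min_le_right _ _).trans this
    · have := a'.2.1
      rw [min_eq_right l] at this
      exact (min_le_right _ _).trans this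
  have l2 : w₂ ≤ d (QInd_st β c) (m β c) := (hS β hβ c).resolve_left (not_le.2 l)
  have mid := D.mid β c
  have nq : q β c ≠ QInd_st β c := by
    intro e
    rw [e, T.self] at mid
    linarith
  have pa := (D.ok β c).resolve_left nq
  have s1 : ∀ (g : G) p p', Bt d β.2.1 (g • p) β.2.2 → w₁ ≤ d (QInd_st β c) (g • p) →
      d (QInd_st β c) (g • p) ≤ w₂ → Bt d β.2.1 (g • p') β.2.2 → w₁ ≤ d (QInd_st β c) (g • p') →
      d (QInd_st β c) (g • p') ≤ w₂ →
      f (β.1 * g) p * (f g p)⁻¹ = f (β.1 * g) p' * (f g p')⁻¹ := by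
    intro g p p' a1 a2 a3 b1 b2 b3
    have key1 : ∀ k k' : G, QInd_Path d B (QInd_K key β c) (QInd_st β c) (q β c) k k' →
        f (k' * g) p * (f (k * g) p)⁻¹ = f (k' * g) p' * (f (k * g) p')⁻¹ := by
      intro k k' e
      induction e with
      | rel k k' r =>
        obtain ⟨β₁, hβ₁, al, kk, rfl⟩ := r
        obtain ⟨c₁, t1, t2⟩ := QInd_side T β₁ al.1 al.2
        have pt : ∀ x, Bt d β.2.1 (g • x) β.2.2 → w₁ ≤ d (QInd_st β c) (g • x) →
            d (QInd_st β c) (g • x) ≤ w₂ → Bt d β₁.2.1 ((k * g) • x) β₁.2.2 ∧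
            d (QInd_st β₁ c₁) (k • QInd_st β c) + w₁ ≤ d (QInd_st β₁ c₁) ((k * g) • x) ∧
            w₂ ≤ d (QInd_st β₁ (!c₁)) ((k * g) • x) := by
          intro x x1 x2 x3
          have y1 := (T.bt_of_le ((QInd_bt T β c _).2 x1) (D.bq β c) (by linarith)).1
          have y2 := h.bt k y1
          have y3 := (T.bt_trans' t1 y2).1
          have y4 := (T.bt_trans y2 t2).2
          have y5 := (T.bt_trans' (T.bt_symm t2) (T.bt_symm y2)).1
          have e1 := h.iso k (QInd_st β c) (g • x)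
          have e2 := h.iso k (q β c) (g • x)
          have e3 := T.nonneg (QInd_st β₁ (!c₁)) (k • q β c)
          have e4 := T.symm (q β c) (g • x)
          rw [mul_smul]
          refine ⟨T.bt_conv al.1 al.2 y2, ?_, ?_⟩
          · simp only [Bt] at y3; linarith
          · simp only [Bt] at y5 y1; linarith
        obtain ⟨u1, u2, u3⟩ := pt p a1 a2 a3
        obtain ⟨v1, v2, v3⟩ := pt p' b1 b2 b3
        rw [mul_assoc]
        by_cases e : k • QInd_st β c = QInd_st β₁ c₁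
        · have z := T.nonneg (QInd_st β₁ c₁) (k • QInd_st β c)
          exact ih _ (hn ▸ kk c₁ e) β₁ hβ₁ c₁ rfl (k * g) p p'
            ⟨u1, (min_le_left _ _).trans (by linarith), (min_le_left _ _).trans u3⟩
            ⟨v1, (min_le_left _ _).trans (by linarith), (min_le_left _ _).trans v3⟩
        · have z := hη β hβ c nq k β₁ hβ₁ al c₁ e
          exact hP β₁ hβ₁ c₁ (k * g) p p'
            ⟨u1, (min_le_left _ _).trans (by linarith), (min_le_left _ _).trans u3⟩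
            ⟨v1, (min_le_left _ _).trans (by linarith), (min_le_left _ _).trans v3⟩
      | refl k => simp
      | symm k k' _ ih => simpa using congrArg Inv.inv ih
      | trans k k' k'' _ _ ih ih' =>
        have e : ∀ p, f (k'' * g) p * (f (k * g) p)⁻¹ =
            (f (k'' * g) p * (f (k' * g) p)⁻¹) * (f (k' * g) p * (f (k * g) p)⁻¹) :=
          fun p => by group
        rw [e p, e p', ih, ih']
    simpa using key1 1 β.1 pa
  have hl := D.half T β c
  have hl' := D.half T β (!c)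
  have len := QInd_len T β c
  obtain ⟨z, z1, z2⟩ := T.ex_bt (QInd_st β c) (QInd_st β (!c)) (t := w₂) (by linarith)
    (by have := T.nonneg (QInd_st β c) (m β c); linarith)
  have s2 : ∀ (g : G) p, QInd_M d m w₁ w₂ β c (g • p) →
      f (β.1 * g) p * (f g p)⁻¹ = f (β.1 * g) (g⁻¹ • z) * (f g (g⁻¹ • z))⁻¹ := by
    intro g p a
    have z1' := (QInd_bt T β c _).1 z1
    rcases le_total (d (QInd_st β c) (g • p)) w₂ with l3 | l3
    · have := a.2.1
      rw [min_eq_left l.le] at this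
      refine s1 g p _ a.1 this l3 ?_ ?_ ?_ <;> rw [smul_inv_smul]
      · exact z1'
      · linarith
      · linarith
    · refine hP β hβ c g p _ ⟨a.1, (min_le_left _ _).trans l3, a.2.2⟩ ?_
      rw [smul_inv_smul]
      refine ⟨z1', (min_le_left _ _).trans z2.ge, (min_le_right _ _).trans ?_⟩
      have := T.symm z (QInd_st β (!c))
      simp only [Bt] at z1
      linarith
  intro g p p' a a'
  rw [s2 g p a, s2 g p' a']

theorem QInd_Dat.closed [DecidableEq (G × Y × Y)] (D : QInd_Dat d B key q m) (h : Fat G d Eq)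
    (ik : InK d F B) {Γ : Type} [Group Γ] {f : G → Y → Γ}
    (hf : Closed d (B.image (QInd_sh m)) f) : Closed d B f := by
  have T := h.act.tr
  have hE : {e : (G × Y × Y) × Bool | e.1 ∈ B}.Finite := by
    refine (B.finite_toSet.prod (Set.toFinite (Set.univ : Set Bool))).subset ?_
    rintro ⟨β, c⟩ hβ
    exact ⟨hβ, trivial⟩
  obtain ⟨η, η0, hη⟩ := QInd_unif hE (fun e η => q e.1 e.2 ≠ QInd_st e.1 e.2 → ∀ (g : G),
      ∀ β₁ ∈ B, Along d (QInd_st e.1 e.2) (q e.1 e.2) g β₁ → ∀ c₁,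
      g • QInd_st e.1 e.2 ≠ QInd_st β₁ c₁ → η ≤ d (QInd_st β₁ c₁) (g • QInd_st e.1 e.2))
    (fun e δ δ' _ l p a g β₁ b c c₁ e' => l.trans (p a g β₁ b c c₁ e')) (by
      rintro ⟨β, c⟩ -
      by_cases n : q β c = QInd_st β c
      · exact ⟨1, one_pos, fun n' => absurd n n'⟩
      obtain ⟨δ, δ0, hδ⟩ := QInd_unif (QInd_fin h ik (Ne.symm n))
        (fun e δ => ∀ c₁, e.1 • QInd_st β c ≠ QInd_st e.2 c₁ →
          δ ≤ d (QInd_st e.2 c₁) (e.1 • QInd_st β c))
        (fun e δ δ' _ l p c₁ e' => l.trans (p c₁ e')) (by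
          rintro ⟨g, β₁⟩ -
          obtain ⟨δ, δ0, hδ⟩ := QInd_unif (Set.toFinite (Set.univ : Set Bool))
            (fun c₁ δ => g • QInd_st β c ≠ QInd_st β₁ c₁ →
              δ ≤ d (QInd_st β₁ c₁) (g • QInd_st β c))
            (fun e δ δ' _ l p e' => l.trans (p e')) (by
              intro c₁ _
              by_cases e : g • QInd_st β c = QInd_st β₁ c₁
              · exact ⟨1, one_pos, fun e' => absurd e e'⟩
              · exact ⟨_, T.pos (Ne.symm e), fun _ => le_rfl⟩)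
          exact ⟨δ, δ0, fun c₁ => hδ c₁ trivial⟩)
      exact ⟨δ, δ0, fun _ g β₁ b al => hδ (g, β₁) ⟨b, al⟩⟩)
  have hS := hE.image fun e => d (QInd_st e.1 e.2) (m e.1 e.2)
  obtain ⟨W, hW⟩ := hS.bddAbove
  have main : ∀ β ∈ B, ∀ c, QInd_P d m f 0 0 β c := by
    refine QInd_desc (fun w => ∀ β ∈ B, ∀ c, QInd_P d m f w w β c) hS η0 (W := max W 0)
      ?_ ?_ (le_max_right _ _) ?_
    · intro w₁ w₂ h0 h1 h2 h3 hP β hβ c
      have H := fun c => D.step h.act (fun β hβ c => hη (β, c) hβ) h0 h1 h2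
        (fun β hβ c => h3 _ ⟨(β, c), hβ, rfl⟩) hP _ β hβ c rfl
      have hl := D.half T β c
      have hl' := D.half T β (!c)
      have len := QInd_len T β c
      have n0 := T.nonneg β.2.1 β.2.2
      obtain ⟨z, z1, z2⟩ := T.ex_bt (QInd_st β c) (QInd_st β (!c)) (t := d β.2.1 β.2.2 / 2)
        (by linarith) (by linarith)
      have z1' := (QInd_bt T β c _).1 z1
      have z3 : d (QInd_st β (!c)) z = d β.2.1 β.2.2 / 2 := by
        have := T.symm z (QInd_st β (!c))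
        simp only [Bt] at z1
        linarith
      have s2 : ∀ (g : G) p, QInd_M d m w₁ w₁ β c (g • p) →
          f (β.1 * g) p * (f g p)⁻¹ = f (β.1 * g) (g⁻¹ • z) * (f g (g⁻¹ • z))⁻¹ := by
        intro g p a
        have a1 := (QInd_bt T β c _).2 a.1
        have := T.symm (g • p) (QInd_st β (!c))
        rcases le_total (d (QInd_st β c) (g • p)) (d β.2.1 β.2.2 / 2) with l | l
        · refine H c g p _ ⟨a.1, a.2.1, (min_le_right _ _).trans ?_⟩ ?_
          · simp only [Bt] at a1; linarith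
          · rw [smul_inv_smul]
            exact ⟨z1', (min_le_right _ _).trans (by linarith),
              (min_le_right _ _).trans (by linarith)⟩
        · refine H (!c) g p _ ⟨a.1, a.2.2, (min_le_right _ _).trans ?_⟩ ?_
          · rw [Bool.not_not]; linarith
          · rw [smul_inv_smul]
            refine ⟨z1', (min_le_right _ _).trans (by linarith), (min_le_right _ _).trans ?_⟩
            rw [Bool.not_not]; linarith
      intro g p p' a a'
      rw [s2 g p a, s2 g p' a']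
    · intro w w' l hP β hβ c g p p' a a'
      exact hP β hβ c g p p'
        ⟨a.1, (min_le_min_right _ l).trans a.2.1, (min_le_min_right _ l).trans a.2.2⟩
        ⟨a'.1, (min_le_min_right _ l).trans a'.2.1, (min_le_min_right _ l).trans a'.2.2⟩
    · intro β hβ c g p p' a a'
      have w : ∀ c, min (max W 0) (d (QInd_st β c) (m β c)) = d (QInd_st β c) (m β c) :=
        fun c => min_eq_right ((hW ⟨(β, c), hβ, rfl⟩).trans (le_max_left _ _))
      have k : ∀ x, QInd_M d m (max W 0) (max W 0) β c x → Bt d (m β true) x (m β false) := by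
        rintro x ⟨x1, x2, x3⟩
        rw [w] at x2 x3
        refine (D.sh_iff T β x).2 ⟨x1, fun c' => ?_⟩
        cases c <;> cases c' <;> assumption
      exact hf _ (Finset.mem_image_of_mem _ hβ) g p p' (k _ a) (k _ a')
  intro β hβ g p p' a a'
  exact main β hβ true g p p'
    ⟨a, (min_le_left _ _).trans (T.nonneg _ _), (min_le_left _ _).trans (T.nonneg _ _)⟩
    ⟨a', (min_le_left _ _).trans (T.nonneg _ _), (min_le_left _ _).trans (T.nonneg _ _)⟩

/-- a point of the hull that is close to a point of a base lies in the base -/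
theorem QInd_col (h : IAct G d) (ik : InK d F B) (nb : NoBr d F B) {β : G × Y × Y} (hβ : β ∈ B)
    {z w : Y} (hz : z ∈ Hull d F ∨ β.1 • z ∈ Hull d F) (hw : Bt d β.2.1 w β.2.2)
    (h1 : d z w ≤ d β.2.1 w) (h2 : d z w ≤ d β.2.2 w) : Bt d β.2.1 z β.2.2 := by
  have T := h.tr
  obtain ⟨k1, k2, k3, k4⟩ := ik β hβ
  obtain ⟨c, c1, c2, c3⟩ := T.med' β.2.1 β.2.2 z
  have key : c = β.2.1 ∨ c = β.2.2 ∨ c = z := by
    rcases hz with hz | hz
    · rcases T.med_cases k1 k2 hz c1 c2 c3 with e | e | e | e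
      · exact Or.inl e
      · exact Or.inr (Or.inl e)
      · exact Or.inr (Or.inr e)
      · exact (nb β hβ c c1 (Or.inl e)).imp_right Or.inl
    · rcases T.med_cases k3 k4 hz (h.bt _ c1) (h.bt _ c2) (h.bt _ c3) with e | e | e | e
      · exact Or.inl (smul_left_cancel _ e)
      · exact Or.inr (Or.inl (smul_left_cancel _ e))
      · exact Or.inr (Or.inr (smul_left_cancel _ e))
      · exact (nb β hβ c c1 (Or.inr e)).imp_right Or.inl
  rcases key with e | e | e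
  · rw [e] at c3
    have a := (T.bt_trans (T.bt_symm hw) c3).2
    have : d β.2.1 z = 0 := by
      have := T.symm w z
      have := T.symm w β.2.1
      have := T.nonneg β.2.1 z
      simp only [Bt] at a; linarith
    rw [← T.eq_of this]; exact T.bt_left _ _
  · rw [e] at c2
    have a := (T.bt_trans hw c2).2
    have : d β.2.2 z = 0 := by
      have := T.symm w z
      have := T.symm w β.2.2
      have := T.nonneg β.2.2 z
      simp only [Bt] at a; linarith
    rw [← T.eq_of this]; exact T.bt_right _ _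
  · rw [← e]; exact c1

/-- the relation given by a set of edges -/
def QInd_R {α ε : Type*} (s t : ε → α) (S : Set ε) (a b : α) : Prop :=
  ∃ e ∈ S, a = s e ∧ b = t e

theorem QInd_R_mono {α ε : Type*} {s t : ε → α} {S S' : Set ε} (h : S ⊆ S') {a b : α}
    (e : EqvGen (QInd_R s t S) a b) : EqvGen (QInd_R s t S') a b :=
  eqv_mono (fun _ _ ⟨e, he, r⟩ => EqvGen.rel _ _ ⟨e, h he, r⟩) e

/-- the ends of a non bridge are joined through other non bridges -/
theorem QInd_cyc {α ε : Type*} (s t : ε → α) {X : Set ε} (hX : X.Finite) {e₀ : ε} (h₀ : e₀ ∈ X)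
    (hp : EqvGen (QInd_R s t (X \ {e₀})) (s e₀) (t e₀)) :
    EqvGen (QInd_R s t ({e | e ∈ X ∧ EqvGen (QInd_R s t (X \ {e})) (s e) (t e)} \ {e₀}))
      (s e₀) (t e₀) := by
  have key : ∀ (n : ℕ) (S : Set ε), S.ncard = n → S ⊆ X \ {e₀} →
      EqvGen (QInd_R s t S) (s e₀) (t e₀) →
      EqvGen (QInd_R s t ({e | e ∈ X ∧ EqvGen (QInd_R s t (X \ {e})) (s e) (t e)} \ {e₀}))
        (s e₀) (t e₀) := by
    intro n
    induction n using Nat.strong_induction_on with
    | _ n ih =>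
    intro S hn hS p
    have fS : S.Finite := hX.subset fun e he => (hS he).1
    by_cases c : ∃ e ∈ S, EqvGen (QInd_R s t (S \ {e})) (s e₀) (t e₀)
    · obtain ⟨e, he, p'⟩ := c
      exact ih _ (hn ▸ Set.ncard_sdiff_singleton_lt_of_mem he fS) _ rfl
        (fun x hx => hS hx.1) p'
    · refine QInd_R_mono ?_ p
      intro e he
      refine ⟨⟨(hS he).1, ?_⟩, (hS he).2⟩
      have p' : EqvGen (addp (QInd_R s t (S \ {e})) (s e) (t e)) (s e₀) (t e₀) := by
        refine eqv_mono (fun a b r => EqvGen.rel _ _ ?_) p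
        obtain ⟨e', he', r1, r2⟩ := r
        by_cases z : e' = e
        · exact Or.inr ⟨z ▸ r1, z ▸ r2⟩
        · exact Or.inl ⟨e', ⟨he', z⟩, r1, r2⟩
      have sub : S \ {e} ⊆ X \ {e} := fun x hx => ⟨(hS hx.1).1, hx.2⟩
      have r0 : EqvGen (QInd_R s t (X \ {e})) (s e₀) (t e₀) :=
        EqvGen.rel _ _ ⟨e₀, ⟨h₀, fun z => (hS he).2 (Set.mem_singleton_iff.1 z).symm⟩, rfl, rfl⟩
      rcases eqv_addp p' with r | ⟨r, r'⟩ | ⟨r, r'⟩
      · exact absurd ⟨e, he, r⟩ c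
      · exact ((QInd_R_mono sub r).symm _ _).trans _ _ _
          (r0.trans _ _ _ ((QInd_R_mono sub r').symm _ _))
      · exact (QInd_R_mono sub r').trans _ _ _
          ((r0.symm _ _).trans _ _ _ (QInd_R_mono sub r))
  exact key _ _ rfl subset_rfl hp

theorem QInd_Dat.ink [DecidableEq (G × Y × Y)] (D : QInd_Dat d B key q m) (h : IAct G d)
    (ik : InK d F B) : InK d F (B.image (QInd_sh m)) := by
  have T := h.tr
  intro β' hβ'
  obtain ⟨β, hβ, rfl⟩ := Finset.mem_image.1 hβ'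
  obtain ⟨k1, k2, k3, k4⟩ := ik β hβ
  exact ⟨T.hull_conv k1 k2 (D.bm' T β true), T.hull_conv k1 k2 (D.bm' T β false),
    T.hull_conv k3 k4 (h.bt _ (D.bm' T β true)), T.hull_conv k3 k4 (h.bt _ (D.bm' T β false))⟩

theorem QInd_abs {l x y z w : ℝ} (h0 : 0 < l) (h1 : l / 2 = |x - z|) (h2 : l / 2 = |z - y|)
    (h3 : l = |x - y|) (h4 : w ≤ x) (h5 : w ≤ y) : w < z := by
  grind

theorem QInd_Dat.ind [DecidableEq (G × Y × Y)] (D : QInd_Dat d B key q m) (h : Fat G d Eq)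
    (ik : InK d F B) (nb : NoBr d F B) : Ind G d (B.image (QInd_sh m)) := by
  have T := h.act.tr
  intro a b n g₁ β₁ hβ₁ al₁ hp₁
  have ho : ∀ β' : G × Y × Y, ∃ β, β' ∈ B.image (QInd_sh m) → β ∈ B ∧ QInd_sh m β = β' := by
    intro β'
    by_cases c : β' ∈ B.image (QInd_sh m)
    · obtain ⟨β, h1, h2⟩ := Finset.mem_image.1 c
      exact ⟨β, fun _ => ⟨h1, h2⟩⟩
    · exact ⟨β', fun c' => absurd c' c⟩
  choose o ho using ho
  have hX := QInd_fin h (D.ink h.act ik) n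
  set X := {e : G × (G × Y × Y) | e.2 ∈ B.image (QInd_sh m) ∧ Along d a b e.1 e.2} with hXd
  let s : G × (G × Y × Y) → G := fun e => e.1
  let t : G × (G × Y × Y) → G := fun e => e.2.1 * e.1
  let C := {e | e ∈ X ∧ EqvGen (QInd_R s t (X \ {e})) (s e) (t e)}
  have hC₁ : (g₁, β₁) ∈ C := by
    refine ⟨⟨hβ₁, al₁⟩, eqv_mono (fun k k' r => EqvGen.rel _ _ ?_) hp₁⟩
    obtain ⟨β', r1, r2, r3, r4⟩ := r
    exact ⟨(k, β'), ⟨⟨r1, r2⟩, r4⟩, rfl, r3⟩
  have d0 := T.pos n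
  obtain ⟨p, p1, p2⟩ := T.ex_bt a b (t := d a b / 2) (by linarith) (by linarith)
  have p3 : d p b = d a b / 2 := by simp only [Bt] at p1; linarith
  let μ : (G × (G × Y × Y)) × Bool → ℝ := fun x => d (QInd_st (o x.1.2) x.2) (x.1.1 • p)
  have fC : (C ×ˢ (Set.univ : Set Bool)).Finite :=
    (hX.subset fun e he => he.1).prod (Set.toFinite _)
  obtain ⟨x₁, hx₁, m₁⟩ := Set.exists_min_image _ μ fC ⟨((g₁, β₁), true), hC₁, trivial⟩
  obtain ⟨⟨⟨g, β'⟩, c⟩, ⟨⟨hC, -⟩, hμ⟩, m₂⟩ := Set.exists_max_image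
    {x | x ∈ C ×ˢ (Set.univ : Set Bool) ∧ μ x = μ x₁} (fun x => key (o x.1.2) x.2)
    (fC.subset fun x hx => hx.1) ⟨x₁, hx₁, rfl⟩
  have M1 : ∀ e ∈ C, ∀ c', d (QInd_st (o β') c) (g • p) ≤ d (QInd_st (o e.2) c') (e.1 • p) :=
    fun e he c' => hμ.le.trans (m₁ (e, c') ⟨he, trivial⟩)
  have M2 : ∀ e ∈ C, ∀ c', d (QInd_st (o e.2) c') (e.1 • p) = d (QInd_st (o β') c) (g • p) →
      key (o e.2) c' ≤ key (o β') c :=
    fun e he c' e' => m₂ (e, c') ⟨⟨he, trivial⟩, e'.trans hμ⟩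
  have base : ∀ e ∈ X, ∀ z, Bt d a z b → Bt d (o e.2).2.1 (e.1 • z) (o e.2).2.2 ∧
      ∀ c', d (QInd_st (o e.2) c') (m (o e.2) c') ≤ d (QInd_st (o e.2) c') (e.1 • z) := by
    intro e he z hz
    have h1 := T.bt_conv he.2.1 he.2.2 (h.act.bt e.1 hz)
    rw [← (ho _ he.1).2] at h1
    exact (D.sh_iff T _ _).1 h1
  have lab : ∀ e ∈ X, (o e.2).1 = e.2.1 := fun e he =>
    (congrArg Prod.fst (ho _ he.1).2 : (QInd_sh m (o e.2)).1 = e.2.1)
  obtain ⟨hβ, hsh⟩ := ho β' hC.1.1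
  have bp : Bt d (QInd_st (o β') c) (g • p) (QInd_st (o β') (!c)) :=
    (QInd_bt T _ c _).2 (base _ hC.1 p p1).1
  have lt : d (QInd_st (o β') c) (m (o β') c) < d (QInd_st (o β') c) (g • p) := by
    obtain ⟨a1, a2⟩ := base _ hC.1 a (T.bt_left a b)
    obtain ⟨b1, b2⟩ := base _ hC.1 b (T.bt_right a b)
    have a1' : Bt d (QInd_st (o β') c) (g • a) (QInd_st (o β') (!c)) := (QInd_bt T _ c _).2 a1
    have b1' : Bt d (QInd_st (o β') c) (g • b) (QInd_st (o β') (!c)) := (QInd_bt T _ c _).2 b1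
    have a2' : d (QInd_st (o β') c) (m (o β') c) ≤ d (QInd_st (o β') c) (g • a) := a2 c
    have b2' : d (QInd_st (o β') c) (m (o β') c) ≤ d (QInd_st (o β') c) (g • b) := b2 c
    have e1 := T.bt_dist a1' bp
    have e2 := T.bt_dist bp b1'
    have e3 := T.bt_dist a1' b1'
    rw [h.act.iso] at e1 e2 e3
    exact QInd_abs d0 (p2.symm.trans e1) (p3.symm.trans e2) e3 a2' b2'
  have n0 := T.nonneg (QInd_st (o β') c) (m (o β') c)
  obtain ⟨y, y1, y2⟩ := T.ex_bt (QInd_st (o β') c) (QInd_st (o β') (!c))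
    (t := 2 * d (QInd_st (o β') c) (g • p)) (by linarith) (by
      have e1 : _ ≤ d (QInd_st (o β') (!c)) (g • p) := M1 _ hC (!c)
      have e2 := T.symm (QInd_st (o β') (!c)) (g • p)
      simp only [Bt] at bp
      linarith)
  have y3 : d y (g • p) = d (QInd_st (o β') c) (g • p) := by
    have e1 := (T.bt_of_le bp y1 (by linarith)).1
    have e2 := T.symm y (g • p)
    simp only [Bt] at e1
    linarith
  let V : G → Prop := fun k =>
    (k * g⁻¹) • QInd_st (o β') c ∈ Hull d F ∧ (k * g⁻¹) • y ∈ Hull d F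
  have tr : ∀ (k : G) z, d ((k * g⁻¹) • z) (k • p) = d z (g • p) := fun k z => by
    rw [mul_smul, h.act.iso, h.act.QAx_l]
  have edge : ∀ e ∈ C, (V (s e) ∨ V (t e)) →
      Along d (QInd_st (o β') c) y (e.1 * g⁻¹) (o e.2) := by
    intro e he hv
    have hb := (ho _ he.1.1).1
    have b1 := (base e he.1 p p1).1
    have l1 : _ ≤ d (o e.2).2.1 (e.1 • p) := M1 e he true
    have l2 : _ ≤ d (o e.2).2.2 (e.1 • p) := M1 e he false
    have ee : ∀ z : Y, (t e * g⁻¹) • z = (o e.2).1 • (e.1 * g⁻¹) • z := fun z => by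
      rw [lab e he.1, ← mul_smul, ← mul_assoc]
    constructor
    · refine QInd_col h.act ik nb hb (hv.imp (fun v => v.1) fun v => ee _ ▸ v.1) b1 ?_ ?_ <;>
        rw [tr] <;> assumption
    · refine QInd_col h.act ik nb hb (hv.imp (fun v => v.2) fun v => ee _ ▸ v.2) b1 ?_ ?_ <;>
        rw [tr, y3] <;> assumption
  have vv : ∀ e ∈ C, Along d (QInd_st (o β') c) y (e.1 * g⁻¹) (o e.2) → V (s e) ∧ V (t e) := by
    intro e he al
    obtain ⟨k1, k2, k3, k4⟩ := ik _ (ho _ he.1.1).1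
    have ee : ∀ z : Y, (t e * g⁻¹) • z = (o e.2).1 • (e.1 * g⁻¹) • z := fun z => by
      rw [lab e he.1, ← mul_smul, ← mul_assoc]
    refine ⟨⟨T.hull_conv k1 k2 al.1, T.hull_conv k1 k2 al.2⟩, ?_, ?_⟩ <;> rw [ee]
    · exact T.hull_conv k3 k4 (h.act.bt _ al.1)
    · exact T.hull_conv k3 k4 (h.act.bt _ al.2)
  have bet : ∀ e ∈ C, e ≠ (g, β') → QInd_K key (o β') c (e.1 * g⁻¹) (o e.2) := by
    intro e he ne c₁ al
    have e1 : d (QInd_st (o e.2) c₁) (e.1 • p) = d (QInd_st (o β') c) (g • p) := by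
      rw [← al, tr]
    refine lt_of_le_of_ne (M2 e he c₁ e1) fun e2 => ne ?_
    obtain ⟨e3, e4⟩ := D.inj _ (ho _ he.1.1).1 _ hβ _ _ e2
    rw [e3, e4] at al e1
    have b1 := (base e he.1 p p1).1
    rw [e3] at b1
    have e5 : e.1 • p = g • p := T.bt_uniq ((QInd_bt T _ c _).2 b1) bp e1
    have e6 : e.1 * g⁻¹ = 1 := by
      refine h.arc al (b := g • p) (by rw [mul_smul, inv_smul_smul, e5]) fun e7 => ?_
      have := T.self (g • p)
      rw [← e7] at this lt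
      linarith
    refine Prod.ext (mul_inv_eq_one.1 e6) ?_
    show e.2 = β'
    rw [← (ho _ he.1.1).2, e3, hsh]
  have path : ∀ k k', EqvGen (QInd_R s t (C \ {(g, β')})) k k' → (V k ↔ V k') ∧
      (V k → QInd_Path d B (QInd_K key (o β') c) (QInd_st (o β') c) y (k * g⁻¹) (k' * g⁻¹)) := by
    intro k k' r
    induction r with
    | rel k k' r =>
      obtain ⟨e, ⟨he, ne⟩, rfl, rfl⟩ := r
      refine ⟨⟨fun v => (vv e he (edge e he (Or.inl v))).2,
        fun v => (vv e he (edge e he (Or.inr v))).1⟩, fun v => EqvGen.rel _ _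
        ⟨o e.2, (ho _ he.1.1).1, edge e he (Or.inl v), bet e he ne, ?_⟩⟩
      rw [lab e he.1, ← mul_assoc]
    | refl k => exact ⟨Iff.rfl, fun _ => EqvGen.refl _⟩
    | symm k k' _ ih => exact ⟨ih.1.symm, fun v => (ih.2 (ih.1.2 v)).symm _ _⟩
    | trans k k' k'' _ _ ih ih' =>
      exact ⟨ih.1.trans ih'.1, fun v => (ih.2 v).trans _ _ _ (ih'.2 (ih.1.1 v))⟩
  have v0 : V g := by
    obtain ⟨k1, k2, -, -⟩ := ik _ hβ
    refine ⟨?_, ?_⟩ <;> rw [mul_inv_cancel, one_smul]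
    · exact T.hull_conv k1 k2 ((QInd_bt T _ c _).1 (T.bt_left _ _))
    · exact T.hull_conv k1 k2 ((QInd_bt T _ c _).1 y1)
  have fin := (path _ _ (QInd_cyc s t hX hC.1 hC.2)).2 v0
  have lb : (o β').1 = β'.1 := lab _ hC.1
  simp only [s, t, mul_inv_cancel, mul_inv_cancel_right, ← lb] at fin
  have e1 := D.mx _ _ _ y1 fin
  have e2 := D.mid (o β') c
  linarith

theorem ex_ind (h : Geo G d Eq F B x₀ g₀) (nb : NoBr d F B) :
    ∃ B' : Finset (G × Y × Y), Geo G d Eq F B' x₀ g₀ ∧ NoBr d F B' ∧ Ind G d B' := by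
  classical
  have T := h.fat.act.tr
  obtain ⟨key, q, m, D⟩ := QInd_dat h.fat h.ink
  refine ⟨B.image (QInd_sh m), ⟨h.fat, D.ink h.fat.act h.ink, ?_, h.gen, h.x0, h.g0, h.xp, h.xm,
    h.mn, h.ess⟩, ?_, D.ind h.fat h.ink nb⟩
  · intro Γ _ f hr hc
    obtain ⟨Φ, h1, h2⟩ := h.hg Γ f hr (D.closed h.fat h.ink hc)
    refine ⟨Φ, fun β' hβ' g p a => ?_, h2⟩
    obtain ⟨β, hβ, rfl⟩ := Finset.mem_image.1 hβ'
    exact h1 β hβ g p ((D.sh_iff T β _).1 a).1
  · intro β' hβ' p a hb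
    obtain ⟨β, hβ, rfl⟩ := Finset.mem_image.1 hβ'
    obtain ⟨a1, a2⟩ := (D.sh_iff T β _).1 a
    rcases nb β hβ p a1 hb with e | e
    · left
      have l : d β.2.1 (m β true) ≤ d β.2.1 p := a2 true
      rw [e, T.self] at l
      exact e.trans (T.eq_of (le_antisymm l (T.nonneg _ _)))
    · right
      have l : d β.2.2 (m β false) ≤ d β.2.2 p := a2 false
      rw [e, T.self] at l
      exact e.trans (T.eq_of (le_antisymm l (T.nonneg _ _)))

end Pool.Agent.Work.MP_904812_al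
end

-- merged part: Pool.Agent.Work.MP_904812_al.QIneq
section
/-! The length inequality for independent generators. -/

namespace Pool.Agent.Work.MP_904812_al

set_option linter.unusedSectionVars false
set_option linter.unusedVariables false

open Subgroup MulAction

variable {G Y : Type} [Group G] [MulAction G Y] {d : Y → Y → ℝ} {F : Finset Y}
  {B : Finset (G × Y × Y)} {x₀ : Y} {g₀ : G}

theorem QIneq_half {α : Type} [DecidableEq α] (Z : Finset α) (c : α → ℝ) (inj : Set.InjOn c Z)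
    (P : Finset (α × α)) (hP : ∀ p, p ∈ P ↔ p.1 ∈ Z ∧ p.2 ∈ Z ∧ c p.1 < c p.2 ∧
      ∀ z ∈ Z, c z ≤ c p.1 ∨ c p.2 ≤ c z) {M : α} (hM : M ∈ Z) (mx : ∀ z ∈ Z, c z ≤ c M)
    (f : α → ℝ) : ∑ p ∈ P, f p.1 = ∑ z ∈ Z.erase M, f z := by
  refine Finset.sum_nbij Prod.fst (fun p hp => ?_) (fun p hp p' hp' e => ?_) (fun z hz => ?_)
    fun _ _ => rfl
  · obtain ⟨a1, a2, a3, -⟩ := (hP p).1 hp
    refine Finset.mem_erase.2 ⟨fun e => ?_, a1⟩
    have := mx _ a2
    rw [e] at a3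
    linarith
  · obtain ⟨a1, a2, a3, a4⟩ := (hP p).1 hp
    obtain ⟨b1, b2, b3, b4⟩ := (hP p').1 hp'
    refine Prod.ext e (inj a2 b2 ?_)
    have a5 := a4 _ b2
    have b5 := b4 _ a2
    rw [e] at a3 a5
    rcases a5 with a5 | a5 <;> rcases b5 with b5 | b5 <;> linarith
  · obtain ⟨z1, z2⟩ := Finset.mem_erase.1 hz
    have lt : c z < c M := lt_of_le_of_ne (mx z z2) fun e => z1 (inj z2 hM e)
    obtain ⟨z', h1, h2⟩ := (Z.filter fun y => c z < c y).exists_min_image c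
      ⟨M, Finset.mem_filter.2 ⟨hM, lt⟩⟩
    obtain ⟨h3, h4⟩ := Finset.mem_filter.1 h1
    refine ⟨(z, z'), (hP _).2 ⟨z2, h3, h4, fun y hy => ?_⟩, rfl⟩
    rcases le_or_gt (c y) (c z) with h | h
    · exact Or.inl h
    · exact Or.inr (h2 y (Finset.mem_filter.2 ⟨hy, h⟩))

theorem QIneq_tel {α : Type} (Z : Finset α) (c : α → ℝ) (inj : Set.InjOn c Z)
    (P : Finset (α × α)) (hP : ∀ p, p ∈ P ↔ p.1 ∈ Z ∧ p.2 ∈ Z ∧ c p.1 < c p.2 ∧
      ∀ z ∈ Z, c z ≤ c p.1 ∨ c p.2 ≤ c z) {m M : α} (hm : m ∈ Z) (mn : ∀ z ∈ Z, c m ≤ c z)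
    (hM : M ∈ Z) (mx : ∀ z ∈ Z, c z ≤ c M) : ∑ p ∈ P, (c p.2 - c p.1) = c M - c m := by
  classical
  have h1 := QIneq_half Z c inj P hP hM mx c
  have h2 := QIneq_half Z (fun z => -c z) (fun a ha b hb e => inj ha hb (neg_injective e))
    (P.map (Equiv.prodComm α α).toEmbedding) (fun p => by
      rw [Finset.mem_map_equiv, hP]
      simp only [Equiv.prodComm_symm, Equiv.prodComm_apply, Prod.fst_swap, Prod.snd_swap,
        neg_lt_neg_iff, neg_le_neg_iff]
      exact ⟨fun ⟨a1, a2, a3, a4⟩ => ⟨a2, a1, a3, fun z hz => (a4 z hz).symm⟩,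
        fun ⟨a1, a2, a3, a4⟩ => ⟨a2, a1, a3, fun z hz => (a4 z hz).symm⟩⟩) hm
    (fun z hz => neg_le_neg (mn z hz)) c
  rw [Finset.sum_map] at h2
  simp only [Equiv.coe_toEmbedding, Equiv.prodComm_apply, Prod.fst_swap] at h2
  rw [Finset.sum_sub_distrib, h1, h2]
  have h3 := Finset.sum_erase_add Z c hM
  have h4 := Finset.sum_erase_add Z c hm
  linarith

open Classical in
/-- ordered pairs of consecutive points -/
noncomputable def QIneqC (d : Y → Y → ℝ) (Z : Finset Y) : Finset (Y × Y) :=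
  (Z ×ˢ Z).filter fun p => Cons d Z p.1 p.2

theorem QIneqC_mem {Z : Finset Y} {p : Y × Y} : p ∈ QIneqC d Z ↔ Cons d Z p.1 p.2 := by
  classical
  unfold QIneqC
  rw [Finset.mem_filter, Finset.mem_product]
  exact ⟨fun h => h.2, fun h => ⟨⟨h.1, h.2.1⟩, h⟩⟩

open Classical in
/-- consecutive pairs along the oriented segment from `a` to `b` -/
noncomputable def QIneqS (d : Y → Y → ℝ) (Z : Finset Y) (a b : Y) : Finset (Y × Y) :=
  (QIneqC d Z).filter fun p => Bt d a p.1 b ∧ Bt d a p.2 b ∧ d a p.1 < d a p.2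

theorem QIneqS_mem {Z : Finset Y} {a b : Y} {p : Y × Y} : p ∈ QIneqS d Z a b ↔
    Cons d Z p.1 p.2 ∧ Bt d a p.1 b ∧ Bt d a p.2 b ∧ d a p.1 < d a p.2 := by
  classical
  unfold QIneqS
  rw [Finset.mem_filter, QIneqC_mem]

theorem QIneq_between (T : Tr d) {a b y y' p : Y} (h1 : Bt d a y b) (h2 : Bt d a y' b)
    (h3 : d a y ≤ d a y') (h4 : Bt d y p y') : Bt d a p b ∧ d a y ≤ d a p ∧ d a p ≤ d a y' := by
  have a1 := (T.bt_of_le h1 h2 h3).1
  obtain ⟨a2, a3⟩ := T.bt_trans' a1 h4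
  exact ⟨T.bt_conv h1 h2 h4, T.bt_le a2, T.bt_le a3⟩

theorem QIneq_of_le (T : Tr d) {a b y y' p : Y} (h1 : Bt d a y b) (h2 : Bt d a y' b)
    (h3 : Bt d a p b) (l1 : d a y ≤ d a p) (l2 : d a p ≤ d a y') : Bt d y p y' :=
  (T.bt_trans (T.bt_of_le h1 h3 l1).1 (T.bt_of_le h3 h2 l2).1).2

theorem QIneq_sum (T : Tr d) (Z : Finset Y) (a b : Y) :
    ∑ p ∈ QIneqS d Z a b, d p.1 p.2 ≤ d a b ∧
      (a ∈ Z → b ∈ Z → ∑ p ∈ QIneqS d Z a b, d p.1 p.2 = d a b) := by
  classical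
  set Z' := Z.filter fun z => Bt d a z b with hZ'
  have mZ : ∀ z, z ∈ Z' ↔ z ∈ Z ∧ Bt d a z b := fun z => Finset.mem_filter
  have inj : Set.InjOn (d a) Z' := fun x hx y hy e =>
    T.bt_uniq ((mZ x).1 hx).2 ((mZ y).1 hy).2 e
  have hP : ∀ p, p ∈ QIneqS d Z a b ↔ p.1 ∈ Z' ∧ p.2 ∈ Z' ∧ d a p.1 < d a p.2 ∧
      ∀ z ∈ Z', d a z ≤ d a p.1 ∨ d a p.2 ≤ d a z := by
    intro p
    rw [QIneqS_mem, mZ, mZ]
    constructor
    · rintro ⟨⟨c1, c2, -, c4⟩, b1, b2, lt⟩
      refine ⟨⟨c1, b1⟩, ⟨c2, b2⟩, lt, fun z hz => ?_⟩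
      obtain ⟨z1, z2⟩ := (mZ z).1 hz
      by_contra hc
      push Not at hc
      rcases c4 z z1 (QIneq_of_le T b1 b2 z2 hc.1.le hc.2.le) with e | e <;> rw [e] at hc
      · exact lt_irrefl _ hc.1
      · exact lt_irrefl _ hc.2
    · rintro ⟨⟨c1, b1⟩, ⟨c2, b2⟩, lt, h⟩
      refine ⟨⟨c1, c2, fun e => ?_, fun z hz bz => ?_⟩, b1, b2, lt⟩
      · rw [e] at lt
        exact lt_irrefl _ lt
      · obtain ⟨z1, z2, z3⟩ := QIneq_between T b1 b2 lt.le bz
        rcases h z ((mZ z).2 ⟨hz, z1⟩) with e | e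
        · exact Or.inl (T.bt_uniq z1 b1 (le_antisymm e z2))
        · exact Or.inr (T.bt_uniq z1 b2 (le_antisymm z3 e))
  have e : ∑ p ∈ QIneqS d Z a b, d p.1 p.2 = ∑ p ∈ QIneqS d Z a b, (d a p.2 - d a p.1) := by
    refine Finset.sum_congr rfl fun p hp => ?_
    obtain ⟨-, b1, b2, lt⟩ := QIneqS_mem.1 hp
    have := (T.bt_of_le b1 b2 lt.le).1
    unfold Bt at this
    linarith
  rw [e]
  constructor
  · rcases Z'.eq_empty_or_nonempty with h0 | h0
    · rw [Finset.sum_eq_zero fun p hp => by have := ((hP p).1 hp).1; simp [h0] at this]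
      exact T.nonneg a b
    · obtain ⟨m, hm, mn⟩ := Z'.exists_min_image (d a) h0
      obtain ⟨M, hM, mx⟩ := Z'.exists_max_image (d a) h0
      rw [QIneq_tel Z' (d a) inj _ hP hm mn hM mx]
      have := T.nonneg a m
      have := T.bt_le ((mZ M).1 hM).2
      linarith
  · intro ha hb
    rw [QIneq_tel Z' (d a) inj _ hP ((mZ a).2 ⟨ha, T.bt_left a b⟩)
      (fun z _ => by rw [T.self]; exact T.nonneg a z) ((mZ b).2 ⟨hb, T.bt_right a b⟩)
      (fun z hz => T.bt_le ((mZ z).1 hz).2), T.self, sub_zero]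

/-- refining the set of points does not increase the total length -/
theorem QIneq_refine (T : Tr d) {S Z : Finset Y} (hF : F ⊆ S) (hSZ : S ⊆ Z)
    (hZ : ∀ z ∈ Z, z ∈ Hull d F) :
    ∑ p ∈ QIneqC d Z, d p.1 p.2 ≤ ∑ p ∈ QIneqC d S, d p.1 p.2 := by
  classical
  have ex : ∀ p ∈ QIneqC d Z, ∃ s ∈ QIneqC d S, p ∈ QIneqS d Z s.1 s.2 := by
    rintro ⟨y, y'⟩ hp
    have hc := QIneqC_mem.1 hp
    obtain ⟨c1, c2, c3, c4⟩ := hc
    dsimp only at c1 c2 c3 c4
    obtain ⟨f', hf', b1⟩ := T.hull_ext (hZ y' c2) y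
    obtain ⟨f, hf, b2⟩ := T.hull_ext (hZ y c1) y'
    obtain ⟨b3, b4⟩ := QAx_glue T (T.bt_symm b2) b1 c3
    have lt : d f y < d f y' := by
      have a1 := T.bt_symm b2
      have a2 := T.pos c3
      unfold Bt at a1
      linarith
    obtain ⟨s, s1, s2⟩ := (S.filter fun z => Bt d f z f' ∧ d f z ≤ d f y).exists_max_image (d f)
      ⟨f, Finset.mem_filter.2 ⟨hF hf, T.bt_left _ _, by rw [T.self]; exact T.nonneg _ _⟩⟩
    obtain ⟨s', t1, t2⟩ := (S.filter fun z => Bt d f z f' ∧ d f y' ≤ d f z).exists_min_image (d f)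
      ⟨f', Finset.mem_filter.2 ⟨hF hf', T.bt_right _ _, T.bt_le b4⟩⟩
    obtain ⟨s3, s4, s5⟩ := Finset.mem_filter.1 s1
    obtain ⟨t3, t4, t5⟩ := Finset.mem_filter.1 t1
    refine ⟨(s, s'), QIneqC_mem.2 ⟨s3, t3, fun e => ?_, fun z hz bz => ?_⟩,
      QIneqS_mem.2 ⟨QIneqC_mem.1 hp, QIneq_of_le T s4 t4 b3 s5 (by linarith),
        QIneq_of_le T s4 t4 b4 (by linarith) t5, ?_⟩⟩
    · dsimp only at e
      rw [e] at s5
      linarith
    · dsimp only at bz ⊢
      obtain ⟨z1, z2, z3⟩ := QIneq_between T s4 t4 (by linarith) bz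
      by_cases l1 : d f z ≤ d f y
      · exact Or.inl (T.bt_uniq z1 s4
          (le_antisymm (s2 z (Finset.mem_filter.2 ⟨hz, z1, l1⟩)) z2))
      by_cases l2 : d f y' ≤ d f z
      · exact Or.inr (T.bt_uniq z1 t4
          (le_antisymm z3 (t2 z (Finset.mem_filter.2 ⟨hz, z1, l2⟩))))
      push Not at l1 l2
      rcases c4 z (hSZ hz) (QIneq_of_le T b3 b4 z1 l1.le l2.le) with e | e
      · rw [e] at l1
        exact absurd l1 (lt_irrefl _)
      · rw [e] at l2
        exact absurd l2 (lt_irrefl _)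
    · dsimp only
      have a1 := (T.bt_of_le s4 b3 s5).1
      have a2 := (T.bt_of_le s4 b4 (by linarith)).1
      unfold Bt at a1 a2
      linarith
  choose! φ hφ1 hφ2 using ex
  rw [← Finset.sum_fiberwise_of_maps_to hφ1]
  refine Finset.sum_le_sum fun s _ => le_trans ?_ (QIneq_sum T Z s.1 s.2).1
  refine Finset.sum_le_sum_of_subset_of_nonneg (fun p hp => ?_) fun p _ _ => T.nonneg _ _
  obtain ⟨h1, h2⟩ := Finset.mem_filter.1 hp
  rw [← h2]
  exact hφ2 p h1

/-- points of the hull near an inner point of a segment without branch points -/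
theorem QIneq_near (T : Tr d) {u v p z : Y} {δ : ℝ} (hu : u ∈ Hull d F) (hv : v ∈ Hull d F)
    (nb : ∀ m, Bt d u m v → Br d F m → m = u ∨ m = v) (hp : Bt d u p v) (l1 : δ ≤ d u p)
    (l2 : δ ≤ d p v) (hz : z ∈ Hull d F) (l3 : d p z ≤ δ) : Bt d u z v := by
  obtain ⟨m, m1, m2, m3⟩ := T.med' u v z
  have key : m = u ∨ m = v ∨ m = z := by
    rcases T.med_cases hu hv hz m1 m2 m3 with e | e | e | e
    · exact Or.inl e
    · exact Or.inr (Or.inl e)
    · exact Or.inr (Or.inr e)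
    · exact (nb m m1 e).imp id Or.inl
  rcases key with rfl | rfl | rfl
  · have a1 := (T.bt_trans' (T.bt_symm m3) hp).1
    have a2 := T.symm p z
    have a3 := T.nonneg z m
    unfold Bt at a1
    rw [T.eq_of (show d z m = 0 by linarith)]
    exact T.bt_left _ _
  · have a1 := (T.bt_trans hp m2).2
    have a3 := T.nonneg m z
    unfold Bt at a1
    rw [← T.eq_of (show d m z = 0 by linarith)]
    exact T.bt_right _ _
  · exact m1

/-- steps along the shrunk bands -/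
def QIneqSt (d : Y → Y → ℝ) (B : Finset (G × Y × Y)) (δ : ℝ) (p p' : Y) : Prop :=
  ∃ β ∈ B, Bt d β.2.1 p β.2.2 ∧ δ ≤ d β.2.1 p ∧ δ ≤ d p β.2.2 ∧ p' = β.1 • p

theorem QIneq_closed {ρ : Y → Y → Prop} {P : Set Y} (h : ∀ a b, ρ a b → (a ∈ P ↔ b ∈ P)) {a b : Y}
    (e : Relation.EqvGen ρ a b) : a ∈ P ↔ b ∈ P := by
  induction e with
  | rel a b r => exact h a b r
  | refl a => exact Iff.rfl
  | symm a b _ ih => exact ih.symm
  | trans a b c _ _ ih ih' => exact ih.trans ih'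

theorem QIneq_hull (I : IAct G d) (ink : InK d F B) {δ : ℝ} {p q : Y} (hp : p ∈ Hull d F)
    (e : Relation.EqvGen (QIneqSt d B δ) p q) : q ∈ Hull d F := by
  refine (QIneq_closed (P := Hull d F) ?_ e).1 hp
  rintro a _ ⟨β, hβ, b1, -, -, rfl⟩
  obtain ⟨k1, k2, k3, k4⟩ := ink β hβ
  exact iff_of_true (I.tr.hull_conv k1 k2 b1) (I.tr.hull_conv k3 k4 (I.bt _ b1))

theorem QIneq_orbit (h : Fat G d Eq) (ink : InK d F B) (nb : NoBr d F B) {δ : ℝ} (hδ : 0 < δ)
    {p : Y} (hp : p ∈ Hull d F) : {q | Relation.EqvGen (QIneqSt d B δ) p q}.Finite := by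
  have I := h.act
  have T := I.tr
  by_cases hz : ∃ z ∈ Hull d F, p ≠ z
  swap
  · push Not at hz
    exact (Set.finite_singleton p).subset fun q hq => (hz q (QIneq_hull I ink hp hq)).symm
  obtain ⟨z, hz, ne⟩ := hz
  have pos := T.pos ne
  obtain ⟨b, b1, b2⟩ := T.ex_bt p z (t := min δ (d p z)) (le_min hδ.le pos.le) (min_le_right _ _)
  have hb := T.hull_conv hp hz b1
  have b3 : d p b ≤ δ := b2 ▸ min_le_left _ _
  have nb' : p ≠ b := fun e => by
    rw [← e, T.self] at b2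
    exact (lt_min hδ pos).ne b2
  refine ((h.na F p b nb').image fun g => g • p).subset fun q hq => ?_
  refine (QIneq_closed (P := (fun g : G => g • p) ''
    {g : G | g • p ∈ Hull d F ∧ g • b ∈ Hull d F}) ?_ hq).1 ⟨1, by simpa using ⟨hp, hb⟩, by simp⟩
  rintro a _ ⟨β, hβ, c1, c2, c3, rfl⟩
  obtain ⟨k1, k2, k3, k4⟩ := ink β hβ
  constructor
  · rintro ⟨g, ⟨-, g2⟩, rfl⟩
    refine ⟨β.1 * g, ⟨?_, ?_⟩, mul_smul _ _ _⟩
    · rw [mul_smul]
      exact T.hull_conv k3 k4 (I.bt _ c1)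
    · rw [mul_smul]
      refine T.hull_conv k3 k4 (I.bt _ ?_)
      exact QIneq_near T k1 k2 (fun m m1 m2 => nb β hβ m m1 (Or.inl m2)) c1 c2 c3 g2
        (by dsimp only; rw [I.iso]; exact b3)
  · rintro ⟨g, ⟨-, g2⟩, e⟩
    dsimp only at e
    have e' : (β.1⁻¹ * g) • p = a := by rw [mul_smul, e, inv_smul_smul]
    refine ⟨β.1⁻¹ * g, ⟨?_, ?_⟩, e'⟩
    · rw [e']
      exact T.hull_conv k1 k2 c1
    · have c4 := QIneq_near T (p := β.1 • a) (δ := δ) k3 k4 (fun m m1 m2 => by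
        have m3 := I.bt β.1⁻¹ m1
        rw [inv_smul_smul, inv_smul_smul] at m3
        have := nb β hβ _ m3 (Or.inr (by rwa [smul_inv_smul]))
        rwa [inv_smul_eq_iff, inv_smul_eq_iff] at this) (I.bt _ c1) (by rw [I.iso]; exact c2)
        (by rw [I.iso]; exact c3) g2 (by rw [← e, I.iso]; exact b3)
      have c5 := I.bt β.1⁻¹ c4
      rw [inv_smul_smul, inv_smul_smul] at c5
      rw [mul_smul]
      exact T.hull_conv k1 k2 c5

/-- the forest inequality for a finite invariant set of points -/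
theorem QIneq_forest (h : Fat G d Eq) (ind : Ind G d B) {B' : Finset (G × Y × Y)} (hB : B' ⊆ B)
    (u v : G × Y × Y → Y) (uv : ∀ β ∈ B', ∀ p, Bt d (u β) p (v β) → Bt d β.2.1 p β.2.2)
    (Z : Finset Y) (hu : ∀ β ∈ B', u β ∈ Z ∧ v β ∈ Z)
    (inv : ∀ β ∈ B', ∀ p, Bt d (u β) p (v β) → (p ∈ Z ↔ β.1 • p ∈ Z)) :
    ∑ β ∈ B', 2 * d (u β) (v β) ≤ ∑ p ∈ QIneqC d Z, d p.1 p.2 := by
  classical
  have I := h.act
  have T := I.tr
  set TE : Finset ((G × Y × Y) × Y × Y) := (B' ×ˢ QIneqC d Z).filter fun e =>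
    Bt d (u e.1) e.2.1 (v e.1) ∧ Bt d (u e.1) e.2.2 (v e.1) with hTE
  have mE : ∀ e, e ∈ TE ↔ e.1 ∈ B' ∧ Cons d Z e.2.1 e.2.2 ∧
      Bt d (u e.1) e.2.1 (v e.1) ∧ Bt d (u e.1) e.2.2 (v e.1) := fun e => by
    rw [hTE, Finset.mem_filter, Finset.mem_product, QIneqC_mem, and_assoc]
  have main := forest_sum (fun e : (G × Y × Y) × Y × Y => e.2)
    (fun e => (e.1.1 • e.2.1, e.1.1 • e.2.2)) (QIneqC d Z) TE ?_ ?_ (fun a => d a.1 a.2)
    (fun a _ => T.nonneg _ _) fun e _ => (I.iso _ _ _).symm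
  · refine le_trans ?_ main
    rw [hTE, Finset.sum_filter, Finset.sum_product]
    refine Finset.sum_le_sum fun β hβ => ?_
    rw [← Finset.sum_filter]
    obtain ⟨u1, v1⟩ := hu β hβ
    have e1 := (QIneq_sum T Z (u β) (v β)).2 u1 v1
    have e2 := (QIneq_sum T Z (v β) (u β)).2 v1 u1
    have e3 := T.symm (u β) (v β)
    have dj : Disjoint (QIneqS d Z (u β) (v β)) (QIneqS d Z (v β) (u β)) := by
      rw [Finset.disjoint_left]
      intro p h1 h2
      obtain ⟨-, a1, a2, a3⟩ := QIneqS_mem.1 h1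
      obtain ⟨-, -, -, a4⟩ := QIneqS_mem.1 h2
      have a5 := T.symm p.1 (v β)
      have a6 := T.symm p.2 (v β)
      unfold Bt at a1 a2
      linarith
    calc 2 * d (u β) (v β)
        = ∑ p ∈ QIneqS d Z (u β) (v β) ∪ QIneqS d Z (v β) (u β), d p.1 p.2 := by
          rw [Finset.sum_union dj, e1, e2]; linarith
      _ ≤ _ := by
          refine Finset.sum_le_sum_of_subset_of_nonneg (fun p hp => ?_) fun p _ _ => T.nonneg _ _
          rw [Finset.mem_filter, QIneqC_mem]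
          rcases Finset.mem_union.1 hp with h1 | h1
          · obtain ⟨a0, a1, a2, -⟩ := QIneqS_mem.1 h1
            exact ⟨a0, a1, a2⟩
          · obtain ⟨a0, a1, a2, -⟩ := QIneqS_mem.1 h1
            exact ⟨a0, T.bt_symm a1, T.bt_symm a2⟩
  · intro e he
    obtain ⟨a1, a2, a3, a4⟩ := (mE e).1 he
    refine ⟨QIneqC_mem.2 a2, QIneqC_mem.2 ⟨(inv _ a1 _ a3).1 a2.1, (inv _ a1 _ a4).1 a2.2.1,
      fun e' => a2.2.2.1 (smul_left_cancel _ e'), fun p hp bp => ?_⟩⟩
    have b1 := I.bt e.1.1⁻¹ bp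
    dsimp only at b1 ⊢
    rw [inv_smul_smul, inv_smul_smul] at b1
    have := a2.2.2.2 _ ((inv _ a1 _ (T.bt_conv a3 a4 b1)).2 (by rwa [smul_inv_smul])) b1
    rwa [inv_smul_eq_iff, inv_smul_eq_iff] at this
  · rintro ⟨β₀, s₀, s₀'⟩ he₀
    obtain ⟨a1, a2, a3, a4⟩ := (mE _).1 he₀
    dsimp only at a1 a2 a3 a4
    let ρ : Y × Y → Y × Y → Prop := fun a a' => ∃ e ∈ TE, e ≠ (β₀, s₀, s₀') ∧ e.2 = a ∧
      (e.1.1 • e.2.1, e.1.1 • e.2.2) = a'
    let ρ' : G → G → Prop := fun g g' => ∃ β' ∈ B, Along d s₀ s₀' g β' ∧ g' = β'.1 * g ∧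
      (g, β') ≠ (1, β₀)
    refine ⟨fun a => Relation.EqvGen ρ (β₀.1 • s₀, β₀.1 • s₀') a, Relation.EqvGen.refl _,
      fun hc => ?_, fun e he ne => ?_⟩
    swap
    · have r : Relation.EqvGen ρ e.2 (e.1.1 • e.2.1, e.1.1 • e.2.2) :=
        Relation.EqvGen.rel _ _ ⟨e, he, ne, rfl, rfl⟩
      exact ⟨fun x => x.trans _ _ _ r, fun x => x.trans _ _ _ (r.symm _ _)⟩
    have lift : ∀ a a', Relation.EqvGen ρ a a' →
        (∀ g : G, a = (g • s₀, g • s₀') →
          ∃ g' : G, a' = (g' • s₀, g' • s₀') ∧ Relation.EqvGen ρ' g g') ∧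
        ∀ g' : G, a' = (g' • s₀, g' • s₀') →
          ∃ g : G, a = (g • s₀, g • s₀') ∧ Relation.EqvGen ρ' g g' := by
      intro a a' r
      induction r with
      | rel a a' r =>
        obtain ⟨⟨β, s, s'⟩, he, ne, rfl, rfl⟩ := r
        obtain ⟨c1, -, c3, c4⟩ := (mE _).1 he
        dsimp only at c1 c3 c4 ⊢
        have key : ∀ g : G, (s, s') = (g • s₀, g • s₀') → Relation.EqvGen ρ' g (β.1 * g) := by
          intro g e
          obtain ⟨rfl, rfl⟩ := Prod.mk.inj e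
          refine Relation.EqvGen.rel _ _ ⟨β, hB c1, ⟨uv β c1 _ c3, uv β c1 _ c4⟩, rfl,
            fun e' => ne ?_⟩
          obtain ⟨rfl, rfl⟩ := Prod.mk.inj e'
          rw [one_smul, one_smul]
        refine ⟨fun g e => ⟨β.1 * g, ?_, key g e⟩, fun g' e => ?_⟩
        · obtain ⟨rfl, rfl⟩ := Prod.mk.inj e
          rw [mul_smul, mul_smul]
        · obtain ⟨e1, e2⟩ := Prod.mk.inj e
          have e3 : (s, s') = ((β.1⁻¹ * g') • s₀, (β.1⁻¹ * g') • s₀') := by
            rw [mul_smul, mul_smul, ← e1, ← e2, inv_smul_smul, inv_smul_smul]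
          refine ⟨β.1⁻¹ * g', e3, ?_⟩
          have := key _ e3
          rwa [mul_inv_cancel_left] at this
      | refl a =>
        exact ⟨fun g e => ⟨g, e, Relation.EqvGen.refl _⟩, fun g e => ⟨g, e, Relation.EqvGen.refl _⟩⟩
      | symm a a' _ ih =>
        refine ⟨fun g e => ?_, fun g e => ?_⟩
        · obtain ⟨g', e', r⟩ := ih.2 g e
          exact ⟨g', e', r.symm _ _⟩
        · obtain ⟨g', e', r⟩ := ih.1 g e
          exact ⟨g', e', r.symm _ _⟩
      | trans a a' a'' _ _ ih ih' =>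
        refine ⟨fun g e => ?_, fun g e => ?_⟩
        · obtain ⟨g', e', r⟩ := ih.1 g e
          obtain ⟨g'', e'', r'⟩ := ih'.1 g' e'
          exact ⟨g'', e'', r.trans _ _ _ r'⟩
        · obtain ⟨g', e', r⟩ := ih'.2 g e
          obtain ⟨g'', e'', r'⟩ := ih.2 g' e'
          exact ⟨g'', e'', r'.trans _ _ _ r⟩
    obtain ⟨g', e, r⟩ := (lift _ _ hc).1 β₀.1 rfl
    obtain ⟨e1, e2⟩ := Prod.mk.inj e
    have g1 : g' = 1 := h.arc e1.symm e2.symm a2.2.2.1
    subst g1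
    refine ind s₀ s₀' a2.2.2.1 1 β₀ (hB a1) ⟨?_, ?_⟩ ?_
    · rw [one_smul]
      exact uv β₀ a1 _ a3
    · rw [one_smul]
      exact uv β₀ a1 _ a4
    · rw [mul_one]
      exact r.symm _ _

theorem QIneq_delta (h : Geo G d Eq F B x₀ g₀) (nb : NoBr d F B) (ind : Ind G d B) (S : Finset Y)
    (hF : F ⊆ S) (hS : ∀ s ∈ S, s ∈ Hull d F) {δ : ℝ} (hδ : 0 < δ) :
    ∑ β ∈ B, 2 * (d β.2.1 β.2.2 - 2 * δ) ≤ ∑ p ∈ QIneqC d S, d p.1 p.2 := by
  classical
  have I := h.fat.act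
  have T := I.tr
  set B' := B.filter fun β => 2 * δ ≤ d β.2.1 β.2.2 with hB'
  have mB : ∀ β, β ∈ B' ↔ β ∈ B ∧ 2 * δ ≤ d β.2.1 β.2.2 := fun β => Finset.mem_filter
  have ex : ∀ β ∈ B', ∃ a : Y × Y, d a.1 a.2 = d β.2.1 β.2.2 - 2 * δ ∧ ∀ p, Bt d a.1 p a.2 →
      Bt d β.2.1 p β.2.2 ∧ δ ≤ d β.2.1 p ∧ δ ≤ d p β.2.2 := by
    intro β hβ
    have l := ((mB β).1 hβ).2
    obtain ⟨a, a1, a2⟩ := T.ex_bt β.2.1 β.2.2 (t := δ) hδ.le (by linarith)
    obtain ⟨b, b1, b2⟩ := T.ex_bt β.2.1 β.2.2 (t := d β.2.1 β.2.2 - δ) (by linarith) (by linarith)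
    have c1 := (T.bt_of_le a1 b1 (by linarith)).1
    refine ⟨(a, b), by unfold Bt at c1; dsimp only; linarith, fun p bp => ?_⟩
    obtain ⟨z1, z2, z3⟩ := QIneq_between T a1 b1 (by linarith) bp
    refine ⟨z1, by linarith, ?_⟩
    unfold Bt at z1
    linarith
  have : Nonempty (Y × Y) := ⟨(x₀, x₀)⟩
  choose! a ha1 ha2 using ex
  set Z₀ : Finset Y := S ∪ (B'.image (fun β => (a β).1) ∪ B'.image fun β => (a β).2) with hZ₀
  have z0 : ∀ y ∈ Z₀, y ∈ Hull d F := by
    intro y hy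
    simp only [hZ₀, Finset.mem_union, Finset.mem_image] at hy
    rcases hy with hy | ⟨β, hβ, rfl⟩ | ⟨β, hβ, rfl⟩
    · exact hS y hy
    · obtain ⟨k1, k2, -⟩ := h.ink β ((mB β).1 hβ).1
      exact T.hull_conv k1 k2 (ha2 β hβ _ (T.bt_left _ _)).1
    · obtain ⟨k1, k2, -⟩ := h.ink β ((mB β).1 hβ).1
      exact T.hull_conv k1 k2 (ha2 β hβ _ (T.bt_right _ _)).1
  have fin : (⋃ y ∈ (Z₀ : Set Y), {q | Relation.EqvGen (QIneqSt d B δ) y q}).Finite :=
    Z₀.finite_toSet.biUnion fun y hy => QIneq_orbit h.fat h.ink nb hδ (z0 y hy)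
  have mZ : ∀ q, q ∈ fin.toFinset ↔ ∃ y ∈ Z₀, Relation.EqvGen (QIneqSt d B δ) y q := fun q => by
    simp only [Set.Finite.mem_toFinset, Set.mem_iUnion, Finset.mem_coe, Set.mem_ofPred_eq,
      exists_prop]
  have sub : Z₀ ⊆ fin.toFinset := fun y hy => (mZ y).2 ⟨y, hy, Relation.EqvGen.refl _⟩
  have h1 := QIneq_forest h.fat ind (Finset.filter_subset _ _ : B' ⊆ B) (fun β => (a β).1)
    (fun β => (a β).2) (fun β hβ p bp => (ha2 β hβ p bp).1) fin.toFinset
    (fun β hβ => ⟨sub (by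
        simp only [hZ₀, Finset.mem_union, Finset.mem_image]
        exact Or.inr (Or.inl ⟨β, hβ, rfl⟩)), sub (by
        simp only [hZ₀, Finset.mem_union, Finset.mem_image]
        exact Or.inr (Or.inr ⟨β, hβ, rfl⟩))⟩)
    (fun β hβ p bp => by
      obtain ⟨c1, c2, c3⟩ := ha2 β hβ p bp
      have r : Relation.EqvGen (QIneqSt d B δ) p (β.1 • p) :=
        Relation.EqvGen.rel _ _ ⟨β, ((mB β).1 hβ).1, c1, c2, c3, rfl⟩
      rw [mZ, mZ]
      exact ⟨fun ⟨y, hy, e⟩ => ⟨y, hy, e.trans _ _ _ r⟩,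
        fun ⟨y, hy, e⟩ => ⟨y, hy, e.trans _ _ _ (r.symm _ _)⟩⟩)
  have h2 := QIneq_refine T hF (Z := fin.toFinset)
    (fun y hy => sub (Finset.mem_union_left _ hy)) fun z hz => by
      obtain ⟨y, hy, e⟩ := (mZ z).1 hz
      exact QIneq_hull I h.ink (z0 y hy) e
  refine le_trans ?_ (h1.trans h2)
  rw [← Finset.sum_filter_add_sum_filter_not B fun β => 2 * δ ≤ d β.2.1 β.2.2]
  have h3 : ∑ β ∈ B.filter fun β => ¬ 2 * δ ≤ d β.2.1 β.2.2, 2 * (d β.2.1 β.2.2 - 2 * δ) ≤ 0 :=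
    Finset.sum_nonpos fun β hβ => by
      have := (Finset.mem_filter.1 hβ).2
      push Not at this
      linarith
  have h4 : ∑ β ∈ B', 2 * (d β.2.1 β.2.2 - 2 * δ) = ∑ β ∈ B', 2 * d (a β).1 (a β).2 :=
    Finset.sum_congr rfl fun β hβ => by rw [ha1 β hβ]
  linarith

open Classical in
theorem len_ineq (h : Geo G d Eq F B x₀ g₀) (nb : NoBr d F B) (ind : Ind G d B) (S : Finset Y)
    (hF : F ⊆ S) (hBr : ∀ c, Br d F c → c ∈ S) (hS : ∀ s ∈ S, s ∈ Hull d F) :
    2 * ∑ β ∈ B, d β.2.1 β.2.2 ≤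
      ∑ p ∈ (S ×ˢ S).filter fun p => Cons d S p.1 p.2, d p.1 p.2 := by
  refine le_of_forall_pos_le_add fun ε hε => ?_
  have c0 : (0 : ℝ) ≤ B.card := Nat.cast_nonneg _
  have h1 := QIneq_delta h nb ind S hF hS (δ := ε / (4 * (B.card + 1))) (by positivity)
  rw [← Finset.mul_sum, Finset.sum_sub_distrib, Finset.sum_const, nsmul_eq_mul] at h1
  have h2 : 2 * (B.card * (2 * (ε / (4 * (B.card + 1))))) ≤ ε := by
    have e : 2 * (B.card * (2 * (ε / (4 * (B.card + 1))))) = ε * (B.card / (B.card + 1)) := by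
      field_simp
      ring
    rw [e]
    exact mul_le_of_le_one_right hε.le ((div_le_one (by positivity)).2 (by linarith))
  unfold QIneqC at h1
  linarith

end Pool.Agent.Work.MP_904812_al
end

-- merged part: Pool.Agent.Work.MP_904812_al.QGru
section
/-! The Grushko inequality. -/

namespace Pool.Agent.Work.MP_904812_al

set_option linter.unusedSectionVars false
set_option linter.unusedVariables false

open Subgroup MulAction

variable {G V : Type} [Group G] [MulAction G V] {d : V → V → ℤ}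

/-- `H` is generated by at most `n` commutative subgroups -/
def QGruRG (H : Subgroup G) (n : ℕ) : Prop :=
  ∃ P : Finset (Subgroup G), (∀ A ∈ P, Comm A) ∧ closure {a | ∃ A ∈ P, a ∈ A} = H ∧ P.card ≤ n

theorem QGruRG.bot : QGruRG (⊥ : Subgroup G) 0 :=
  ⟨∅, by simp, by simp, by simp⟩

theorem QGruRG.eq_bot {H : Subgroup G} (h : QGruRG H 0) : H = ⊥ := by
  obtain ⟨P, _, e, c⟩ := h
  have : P = ∅ := Finset.card_eq_zero.1 (by omega)
  subst this
  rw [← e]; simp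

theorem QGruRG.one {U : Subgroup G} (h : Comm U) : QGruRG U 1 :=
  ⟨{U}, by simpa using h, by simp, by simp⟩

theorem QGruRG.sup {H H' : Subgroup G} {n m : ℕ} (h : QGruRG H n) (h' : QGruRG H' m) :
    QGruRG (H ⊔ H') (n + m) := by
  classical
  obtain ⟨P, a, e, c⟩ := h
  obtain ⟨P', a', e', c'⟩ := h'
  refine ⟨P ∪ P', ?_, ?_, (Finset.card_union_le _ _).trans (by omega)⟩
  · intro A hA
    rcases Finset.mem_union.1 hA with h | h
    exacts [a A h, a' A h]
  · rw [← e, ← e', ← Subgroup.closure_union]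
    congr 1
    ext x
    simp only [Finset.mem_union, Set.mem_ofPred_eq, Set.mem_union]
    constructor
    · rintro ⟨A, h | h, hx⟩
      exacts [Or.inl ⟨A, h, hx⟩, Or.inr ⟨A, h, hx⟩]
    · rintro (⟨A, h, hx⟩ | ⟨A, h, hx⟩)
      exacts [⟨A, Or.inl h, hx⟩, ⟨A, Or.inr h, hx⟩]

theorem QGruRG.map {H : Subgroup G} {n : ℕ} (h : QGruRG H n) (f : G →* G) :
    QGruRG (H.map f) n := by
  classical
  obtain ⟨P, a, e, c⟩ := h
  refine ⟨P.image (Subgroup.map f), ?_, ?_, Finset.card_image_le.trans c⟩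
  · intro A hA
    obtain ⟨B, hB, rfl⟩ := Finset.mem_image.1 hA
    rintro _ ⟨x, hx, rfl⟩ _ ⟨y, hy, rfl⟩
    exact (a B hB x hx y hy).map f
  · rw [← e, MonoidHom.map_closure]
    congr 1
    ext x
    simp only [Finset.mem_image, Set.mem_ofPred_eq, Set.mem_image]
    constructor
    · rintro ⟨_, ⟨B, hB, rfl⟩, y, hy, rfl⟩
      exact ⟨y, ⟨B, hB, hy⟩, rfl⟩
    · rintro ⟨y, ⟨B, hB, hy⟩, rfl⟩
      exact ⟨_, ⟨B, hB, rfl⟩, y, hy, rfl⟩

theorem QGruRG.rfgn {H : Subgroup G} {n : ℕ} (h : QGruRG H n) : RFGn H n := by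
  classical
  obtain ⟨P, a, e, c⟩ := h
  refine ⟨∅, P.image (fun A => A.subgroupOf H), ⟨?_, ?_⟩, by
    simpa using Finset.card_image_le.trans c⟩
  · intro A hA
    obtain ⟨B, hB, rfl⟩ := Finset.mem_image.1 hA
    intro x hx y hy
    exact Subtype.ext (a B hB x.1 hx y.1 hy)
  · apply Subgroup.map_injective H.subtype_injective
    rw [MonoidHom.map_closure, ← MonoidHom.range_eq_map, Subgroup.range_subtype]
    refine Eq.trans ?_ e
    congr 1
    ext x
    simp only [Finset.coe_empty, Set.empty_union, Finset.mem_image, Set.mem_ofPred_eq,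
      Set.mem_image]
    constructor
    · rintro ⟨y, ⟨_, ⟨B, hB, rfl⟩, hy⟩, rfl⟩
      exact ⟨B, hB, hy⟩
    · rintro ⟨B, hB, hx⟩
      have : x ∈ H := e ▸ subset_closure ⟨B, hB, hx⟩
      exact ⟨⟨x, this⟩, ⟨_, ⟨B, hB, rfl⟩, hx⟩, rfl⟩

/-- a finite graph of groups with trivial edge groups over the tree -/
structure QGruSt (G V : Type) [Group G] where
  W : Finset ℕ
  φ : ℕ → V
  H : ℕ → Subgroup G
  r : ℕ → ℕ
  E : Finset (ℕ × G × ℕ)

namespace QGruSt

/-- paths -/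
inductive P (S : QGruSt G V) : ℕ → G → ℕ → Prop
  | grp {x : ℕ} {h : G} : x ∈ S.W → h ∈ S.H x → P S x h x
  | edge {x y : ℕ} {g : G} : (x, g, y) ∈ S.E → P S x g y
  | inv {x y : ℕ} {t : G} : P S x t y → P S y t⁻¹ x
  | mul {x y z : ℕ} {t t' : G} : P S x t y → P S y t' z → P S x (t * t') z

structure Valid (d : V → V → ℤ) (v : V) (S : QGruSt G V) : Prop where
  z : 0 ∈ S.W
  base : S.φ 0 = v
  fix : ∀ x ∈ S.W, ∀ h ∈ S.H x, h • S.φ x = S.φ x
  rg : ∀ x ∈ S.W, QGruRG (S.H x) (S.r x)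
  ed : ∀ x g y, (x, g, y) ∈ S.E → x ∈ S.W ∧ y ∈ S.W ∧ d (S.φ x) (g • S.φ y) = 1

/-- the cost -/
def χ (S : QGruSt G V) : ℤ := (S.E.card : ℤ) + 1 + (∑ x ∈ S.W, (S.r x : ℤ)) - S.W.card

def Conn (S : QGruSt G V) : Prop := ∀ x ∈ S.W, ∃ t, S.P 0 t x

/-- simulation -/
structure Sim (S S' : QGruSt G V) (π : ℕ → ℕ) (κ : ℕ → G) : Prop where
  p0 : π 0 = 0
  k0 : κ 0 = 1
  path : ∀ x t y, S.P x t y → S'.P (π x) (κ x * t * (κ y)⁻¹) (π y)
  onto : ∀ x' ∈ S'.W, ∃ x ∈ S.W, π x = x'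

theorem P.cast {S : QGruSt G V} {x y : ℕ} {t t' : G} (p : S.P x t y) (e : t = t') :
    S.P x t' y := e ▸ p

theorem sim_path {S S' : QGruSt G V} {π : ℕ → ℕ} {κ : ℕ → G}
    (hg : ∀ x ∈ S.W, ∀ h ∈ S.H x, S'.P (π x) (κ x * h * (κ x)⁻¹) (π x))
    (he : ∀ x g y, (x, g, y) ∈ S.E → S'.P (π x) (κ x * g * (κ y)⁻¹) (π y))
    (x : ℕ) (t : G) (y : ℕ) (p : S.P x t y) : S'.P (π x) (κ x * t * (κ y)⁻¹) (π y) := by
  induction p with
  | grp a b => exact hg _ a _ b
  | edge a => exact he _ _ _ a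
  | inv _ ih => exact ih.inv.cast (by group)
  | mul _ _ ih ih' => exact (ih.mul ih').cast (by group)

theorem Sim.conn {S S' : QGruSt G V} {π : ℕ → ℕ} {κ : ℕ → G} (h : Sim S S' π κ) (c : S.Conn) :
    S'.Conn := by
  intro x' hx'
  obtain ⟨x, hx, rfl⟩ := h.onto x' hx'
  obtain ⟨t, ht⟩ := c x hx
  have := h.path _ _ _ ht
  rw [h.p0] at this
  exact ⟨_, this⟩

theorem Sim.loop {S S' : QGruSt G V} {π : ℕ → ℕ} {κ : ℕ → G} (h : Sim S S' π κ) {g : G}
    (p : S.P 0 g 0) : S'.P 0 g 0 := by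
  have := h.path _ _ _ p
  rw [h.p0, h.k0] at this
  exact this.cast (by group)

theorem Valid.mem {v : V} {S : QGruSt G V} (h : Valid d v S) {x y : ℕ} {t : G} (p : S.P x t y) :
    x ∈ S.W ∧ y ∈ S.W := by
  induction p with
  | grp a b => exact ⟨a, a⟩
  | edge a => exact ⟨(h.ed _ _ _ a).1, (h.ed _ _ _ a).2.1⟩
  | inv _ ih => exact ih.symm
  | mul _ _ ih ih' => exact ⟨ih.1, ih'.2⟩

/-- add a commutative group at a vertex -/
theorem addgrp {v : V} {S : QGruSt G V} (h : Valid d v S) {y : ℕ} (hy : y ∈ S.W)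
    {U : Subgroup G} (hU : Comm U) (fx : ∀ u ∈ U, u • S.φ y = S.φ y) :
    ∃ S' : QGruSt G V, Valid d v S' ∧ S'.χ ≤ S.χ + 1 ∧ S'.E.card ≤ S.E.card ∧
      Sim S S' id (fun _ => 1) ∧ ∀ u ∈ U, S'.P y u y := by
  classical
  let S' : QGruSt G V := ⟨S.W, S.φ, Function.update S.H y (S.H y ⊔ U),
    Function.update S.r y (S.r y + 1), S.E⟩
  have hle : ∀ x, S.H x ≤ S'.H x := by
    intro x
    by_cases e : x = y
    · subst e; simp [S']
    · simp [S', e]
  refine ⟨S', ⟨h.z, h.base, ?_, ?_, h.ed⟩, ?_, le_rfl, ⟨rfl, rfl, ?_, ?_⟩, ?_⟩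
  · intro x hx a ha
    by_cases e : x = y
    · subst e
      simp only [S', Function.update_self] at ha
      have : S.H x ⊔ U ≤ stabilizer G (S.φ x) :=
        sup_le (fun a ha => h.fix x hx a ha) (fun a ha => fx a ha)
      exact this ha
    · simp only [S', Function.update_of_ne e] at ha
      exact h.fix x hx a ha
  · intro x hx
    by_cases e : x = y
    · subst e
      simp only [S', Function.update_self]
      exact (h.rg x hx).sup (QGruRG.one hU)
    · simp only [S', Function.update_of_ne e]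
      exact h.rg x hx
  · have : ∑ x ∈ S.W, (S'.r x : ℤ) = ∑ x ∈ S.W, (S.r x : ℤ) + 1 := by
      rw [← Finset.add_sum_erase _ _ hy, ← Finset.add_sum_erase S.W _ hy]
      have : ∑ x ∈ S.W.erase y, (S'.r x : ℤ) = ∑ x ∈ S.W.erase y, (S.r x : ℤ) := by
        refine Finset.sum_congr rfl fun x hx => ?_
        simp [S', Finset.ne_of_mem_erase hx]
      rw [this]
      simp only [S', Function.update_self]
      push_cast; ring
    simp only [χ]
    change (S.E.card : ℤ) + 1 + (∑ x ∈ S.W, (S'.r x : ℤ)) - S.W.card ≤ _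
    rw [this]; omega
  · apply sim_path
    · intro x hx a ha
      exact (P.grp (S := S') hx (hle x ha)).cast (by group)
    · intro x g z he
      exact (P.edge (S := S') he).cast (by group)
  · intro x hx; exact ⟨x, hx, rfl⟩
  · intro u hu
    refine P.grp (S := S') hy ?_
    simp only [S', Function.update_self]
    exact mem_sup_right hu

/-- merge two vertices -/
theorem merge (zt : ZTree G d) {v : V} {S : QGruSt G V} (h : Valid d v S) {y₁ y₂ : ℕ}
    (h₁ : y₁ ∈ S.W) (h₂ : y₂ ∈ S.W) (ne : y₁ ≠ y₂) (n0 : y₁ ≠ 0) {k : G}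
    (hk : k • S.φ y₁ = S.φ y₂) :
    ∃ (S' : QGruSt G V) (π : ℕ → ℕ) (κ : ℕ → G), Valid d v S' ∧ S'.χ ≤ S.χ + 1 ∧
      S'.E.card ≤ S.E.card ∧ Sim S S' π κ ∧ S'.P (π y₂) (κ y₂ * k * (κ y₁)⁻¹) (π y₁) := by
  classical
  let π : ℕ → ℕ := fun x => if x = y₁ then y₂ else x
  let κ : ℕ → G := fun x => if x = y₁ then k else 1
  let f : G →* G := (MulAut.conj k).toMonoidHom
  let S' : QGruSt G V := ⟨S.W.erase y₁, S.φ, Function.update S.H y₂ (S.H y₂ ⊔ (S.H y₁).map f),
    Function.update S.r y₂ (S.r y₂ + S.r y₁),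
    S.E.image fun e => (π e.1, κ e.1 * e.2.1 * (κ e.2.2)⁻¹, π e.2.2)⟩
  have hπ : ∀ x ∈ S.W, π x ∈ S'.W := by
    intro x hx
    by_cases e : x = y₁
    · simp [π, S', e, h₂, ne.symm]
    · simp [π, S', e, hx]
  have hφ : ∀ x, S.φ (π x) = κ x • S.φ x := by
    intro x
    by_cases e : x = y₁
    · simp [π, κ, e, hk]
    · simp [π, κ, e]
  have h2' : y₂ ∈ S.W.erase y₁ := Finset.mem_erase.2 ⟨ne.symm, h₂⟩
  refine ⟨S', π, κ, ⟨Finset.mem_erase.2 ⟨n0.symm, h.z⟩, h.base, ?_, ?_, ?_⟩, ?_,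
    Finset.card_image_le, ⟨by simp [π, n0.symm], by simp [κ, n0.symm], ?_, ?_⟩, ?_⟩
  · intro x hx a ha
    have hx' := Finset.mem_of_mem_erase hx
    by_cases e : x = y₂
    · subst e
      simp only [S', Function.update_self] at ha
      have : S.H x ⊔ (S.H y₁).map f ≤ stabilizer G (S.φ x) := by
        refine sup_le (fun a ha => h.fix x hx' a ha) ?_
        rintro _ ⟨b, hb, rfl⟩
        have := h.fix y₁ h₁ b hb
        change (k * b * k⁻¹) • S.φ x = S.φ x
        rw [← hk, mul_smul, mul_smul, inv_smul_smul, this]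
      exact this ha
    · simp only [S', Function.update_of_ne e] at ha
      exact h.fix x hx' a ha
  · intro x hx
    have hx' := Finset.mem_of_mem_erase hx
    by_cases e : x = y₂
    · subst e
      simp only [S', Function.update_self]
      exact (h.rg x hx').sup ((h.rg y₁ h₁).map f)
    · simp only [S', Function.update_of_ne e]
      exact h.rg x hx'
  · intro x g y he
    obtain ⟨⟨a, g', b⟩, he', e⟩ := Finset.mem_image.1 he
    simp only [Prod.mk.injEq] at e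
    obtain ⟨rfl, rfl, rfl⟩ := e
    obtain ⟨ha, hb, hd⟩ := h.ed _ _ _ he'
    refine ⟨hπ a ha, hπ b hb, ?_⟩
    change d (S.φ (π a)) (_ • S.φ (π b)) = 1
    rw [hφ, hφ, mul_smul, inv_smul_smul, mul_smul, zt.act.iso, hd]
  · have e1 : ∑ x ∈ S.W.erase y₁, (S'.r x : ℤ) = ∑ x ∈ S.W, (S.r x : ℤ) := by
      rw [← Finset.add_sum_erase S.W _ h₁, ← Finset.add_sum_erase _ _ h2',
        ← Finset.add_sum_erase _ _ h2']
      have : ∑ x ∈ (S.W.erase y₁).erase y₂, (S'.r x : ℤ) =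
          ∑ x ∈ (S.W.erase y₁).erase y₂, (S.r x : ℤ) := by
        refine Finset.sum_congr rfl fun x hx => ?_
        simp [S', Finset.ne_of_mem_erase hx]
      rw [this]
      simp only [S', Function.update_self]
      push_cast; ring
    have e2 : (S.W.erase y₁).card + 1 = S.W.card := Finset.card_erase_add_one h₁
    have e3 : S'.E.card ≤ S.E.card := Finset.card_image_le
    simp only [χ]
    change (S'.E.card : ℤ) + 1 + (∑ x ∈ S.W.erase y₁, (S'.r x : ℤ)) - (S.W.erase y₁).card ≤ _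
    rw [e1]; omega
  · apply sim_path
    · intro x hx a ha
      refine P.grp (hπ x hx) ?_
      by_cases e : x = y₁
      · subst e
        simp only [π, κ, S', if_true, Function.update_self]
        exact mem_sup_right ⟨a, ha, rfl⟩
      · simp only [π, κ, S', if_neg e, one_mul, inv_one, mul_one]
        by_cases e' : x = y₂
        · subst e'
          simp only [Function.update_self]
          exact mem_sup_left ha
        · simpa only [Function.update_of_ne e'] using ha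
    · intro x g z he
      exact P.edge (Finset.mem_image.2 ⟨_, he, rfl⟩)
  · intro x hx
    exact ⟨x, Finset.mem_of_mem_erase hx, by simp [π, Finset.ne_of_mem_erase hx]⟩
  · have : S'.P y₂ 1 y₂ := P.grp h2' (one_mem _)
    simpa [π, κ, ne.symm] using this

theorem glue (zt : ZTree G d) {v : V} {S : QGruSt G V} (h : Valid d v S) {y₁ y₂ : ℕ}
    (h₁ : y₁ ∈ S.W) (h₂ : y₂ ∈ S.W) {k : G} (hk : k • S.φ y₁ = S.φ y₂) :
    ∃ (S' : QGruSt G V) (π : ℕ → ℕ) (κ : ℕ → G), Valid d v S' ∧ S'.χ ≤ S.χ + 1 ∧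
      S'.E.card ≤ S.E.card ∧ Sim S S' π κ ∧ S'.P (π y₂) (κ y₂ * k * (κ y₁)⁻¹) (π y₁) := by
  by_cases ne : y₁ = y₂
  · subst ne
    obtain ⟨S', a, b, c, e, f⟩ := addgrp h h₁ (U := zpowers k)
      (by rintro _ ⟨m, rfl⟩ _ ⟨n, rfl⟩; exact Commute.zpow_zpow_self k m n)
      (fun u hu => (zpowers_le.2 (show k ∈ stabilizer G (S.φ y₁) from hk)) hu)
    exact ⟨S', id, fun _ => 1, a, b, c, e, (f k (mem_zpowers k)).cast (by group)⟩
  by_cases n0 : y₁ = 0
  · obtain ⟨S', π, κ, a, b, c, e, f⟩ := merge zt h h₂ h₁ (Ne.symm ne) (k := k⁻¹)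
      (by rintro rfl; exact ne n0) (by rw [← hk, inv_smul_smul])
    exact ⟨S', π, κ, a, b, c, e, f.inv.cast (by group)⟩
  · exact merge zt h h₁ h₂ ne n0 hk

/-- every vertex of the tree can be reached at no cost -/
theorem reach (zt : ZTree G d) {v : V} {S : QGruSt G V} (h : Valid d v S) (c : S.Conn) (p : V) :
    ∃ S' : QGruSt G V, Valid d v S' ∧ S'.Conn ∧ S'.χ ≤ S.χ ∧ (∀ g, S.P 0 g 0 → S'.P 0 g 0) ∧
      ∃ x, S'.φ x = p ∧ S'.P 0 1 x := by
  classical
  refine zt.act.tr.ind_adj (P := fun p => ∃ S' : QGruSt G V, Valid d v S' ∧ S'.Conn ∧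
    S'.χ ≤ S.χ ∧ (∀ g, S.P 0 g 0 → S'.P 0 g 0) ∧ ∃ x, S'.φ x = p ∧ S'.P 0 1 x) (x := v)
    ⟨S, h, c, le_rfl, fun _ a => a, 0, h.base, P.grp h.z (one_mem _)⟩ ?_ p
  rintro a b hab ⟨S₁, h₁, c₁, x₁, l₁, x, rfl, hx⟩
  obtain ⟨y, hy⟩ := Infinite.exists_notMem_finset S₁.W
  have xW := (h₁.mem hx).2
  have ne : ∀ z ∈ S₁.W, z ≠ y := fun z hz e => hy (e ▸ hz)
  let S' : QGruSt G V := ⟨insert y S₁.W, Function.update S₁.φ y b, Function.update S₁.H y ⊥,
    Function.update S₁.r y 0, insert (x, 1, y) S₁.E⟩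
  have sim : ∀ u t w, S₁.P u t w → S'.P u t w := by
    intro u t w p
    refine (sim_path (S := S₁) (S' := S') (π := id) (κ := fun _ => 1) ?_ ?_ u t w p).cast
      (by group)
    · intro z hz g hg
      refine (P.grp (S := S') (Finset.mem_insert_of_mem hz) ?_).cast (t := g) (by group)
      simpa only [S', Function.update_of_ne (ne z hz)] using hg
    · intro z g z' he
      exact (P.edge (S := S') (Finset.mem_insert_of_mem he)).cast (by group)
  have py : S'.P 0 1 y :=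
    ((sim _ _ _ hx).mul (P.edge (S := S') (Finset.mem_insert_self _ _))).cast (by group)
  refine ⟨S', ⟨Finset.mem_insert_of_mem h₁.z, ?_, ?_, ?_, ?_⟩, ?_, ?_,
    fun g a => sim _ _ _ (l₁ g a), y, by simp [S'], py⟩
  · simp only [S', Function.update_of_ne (ne 0 h₁.z)]; exact h₁.base
  · intro z hz g hg
    rcases Finset.mem_insert.1 hz with rfl | hz
    · simp only [S', Function.update_self, mem_bot] at hg
      rw [hg, one_smul]
    · simp only [S', Function.update_of_ne (ne z hz)] at hg ⊢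
      exact h₁.fix z hz g hg
  · intro z hz
    rcases Finset.mem_insert.1 hz with rfl | hz
    · simp only [S', Function.update_self]; exact QGruRG.bot
    · simp only [S', Function.update_of_ne (ne z hz)]; exact h₁.rg z hz
  · intro z g z' he
    rcases Finset.mem_insert.1 he with e | he
    · simp only [Prod.mk.injEq] at e
      obtain ⟨rfl, rfl, rfl⟩ := e
      refine ⟨Finset.mem_insert_of_mem xW, Finset.mem_insert_self _ _, ?_⟩
      simp only [S', Function.update_of_ne (ne z xW), Function.update_self, one_smul]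
      exact hab
    · obtain ⟨a1, a2, a3⟩ := h₁.ed _ _ _ he
      refine ⟨Finset.mem_insert_of_mem a1, Finset.mem_insert_of_mem a2, ?_⟩
      simp only [S', Function.update_of_ne (ne z a1), Function.update_of_ne (ne z' a2)]
      exact a3
  · intro z hz
    rcases Finset.mem_insert.1 hz with rfl | hz
    · exact ⟨1, py⟩
    · obtain ⟨t, ht⟩ := c₁ z hz
      exact ⟨t, sim _ _ _ ht⟩
  · have e1 : ∑ z ∈ insert y S₁.W, (S'.r z : ℤ) = ∑ z ∈ S₁.W, (S₁.r z : ℤ) := by
      rw [Finset.sum_insert hy]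
      have : ∑ z ∈ S₁.W, (S'.r z : ℤ) = ∑ z ∈ S₁.W, (S₁.r z : ℤ) := by
        refine Finset.sum_congr rfl fun z hz => ?_
        simp [S', ne z hz]
      rw [this]; simp [S']
    have e2 : (insert y S₁.W).card = S₁.W.card + 1 := Finset.card_insert_of_notMem hy
    have e3 : S'.E.card ≤ S₁.E.card + 1 := Finset.card_insert_le _ _
    refine le_trans ?_ x₁
    simp only [χ]
    change (S'.E.card : ℤ) + 1 + (∑ z ∈ insert y S₁.W, (S'.r z : ℤ)) - (insert y S₁.W).card ≤ _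
    rw [e1]; omega

/-- a state of cost at most `n` whose loops contain `K` -/
def Gd (d : V → V → ℤ) (v : V) (n : ℕ) (K : Set G) : Prop :=
  ∃ S : QGruSt G V, Valid d v S ∧ S.Conn ∧ S.χ ≤ n ∧ ∀ g ∈ K, S.P 0 g 0

theorem Gd.empty (v : V) : Gd (G := G) d v 0 ∅ := by
  let S : QGruSt G V := ⟨{0}, fun _ => v, fun _ => ⊥, fun _ => 0, ∅⟩
  refine ⟨S, ⟨by simp [S], rfl, ?_, fun _ _ => QGruRG.bot, by simp [S]⟩, ?_, by simp [S, χ],
    by simp⟩
  · intro x _ h hh
    rw [mem_bot.1 hh, one_smul]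
  · intro x hx
    obtain rfl : x = 0 := by simpa [S] using hx
    exact ⟨1, P.grp hx (one_mem _)⟩

theorem Gd.clos {v : V} {n : ℕ} {K K' : Set G} (h : Gd d v n K) (e : K' ⊆ closure K) :
    Gd d v n K' := by
  obtain ⟨S, a, b, c, f⟩ := h
  refine ⟨S, a, b, c, fun g hg => ?_⟩
  have hg' := e hg
  clear hg
  induction hg' using closure_induction with
  | mem x hx => exact f x hx
  | one => exact P.grp a.z (one_mem _)
  | mul x y _ _ ih ih' => exact ih.mul ih'
  | inv x _ ih => exact ih.inv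

theorem Gd.elt (zt : ZTree G d) {v : V} {n : ℕ} {K : Set G} (h : Gd d v n K) (s : G) :
    Gd d v (n + 1) (insert s K) := by
  obtain ⟨S, a, b, c, f⟩ := h
  obtain ⟨S₁, a₁, b₁, c₁, l₁, x, hx, px⟩ := reach zt a b (s • v)
  obtain ⟨S', π, κ, a', c', _, sm, p'⟩ := glue zt a₁ a₁.z (a₁.mem px).2 (k := s)
    (by rw [hx, a₁.base])
  refine ⟨S', a', sm.conn b₁, by push_cast; omega, ?_⟩
  rintro g (rfl | hg)
  · have := (sm.path _ _ _ px).mul p'
    rw [sm.p0, sm.k0] at this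
    exact this.cast (by group)
  · exact sm.loop (l₁ g (f g hg))

theorem Gd.grp (zt : ZTree G d) (t : TrivE G d) {v : V} {n : ℕ} {K : Set G} (h : Gd d v n K)
    {U : Subgroup G} (hU : Comm U) : Gd d v (n + 1) ((U : Set G) ∪ K) := by
  rcases TrivE.ell_or_cyc zt t U hU with ⟨p, hp⟩ | ⟨c, hc⟩
  · obtain ⟨S, a, b, c, f⟩ := h
    obtain ⟨S₁, a₁, b₁, c₁, l₁, x, hx, px⟩ := reach zt a b p
    obtain ⟨S', a', c', _, sm, p'⟩ := addgrp a₁ (a₁.mem px).2 hU (by rw [hx]; exact hp)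
    refine ⟨S', a', sm.conn b₁, by push_cast; omega, ?_⟩
    rintro g (hg | hg)
    · have q := sm.path _ _ _ px
      exact ((q.mul (p' g hg)).mul q.inv).cast (by group)
    · exact sm.loop (l₁ g (f g hg))
  · refine (h.elt zt c).clos ?_
    rintro g (hg | hg)
    · exact (zpowers_le.2 (subset_closure (Set.mem_insert c K))) (hc hg)
    · exact subset_closure (Set.mem_insert_of_mem _ hg)

theorem Gd.mono {v : V} {n m : ℕ} {K : Set G} (h : Gd d v n K) (e : n ≤ m) : Gd d v m K := by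
  obtain ⟨S, a, b, c, f⟩ := h
  exact ⟨S, a, b, by omega, f⟩

theorem Gd.init (zt : ZTree G d) (t : TrivE G d) {μ : ℕ} (h : RFGn G μ) (v : V) :
    Gd d v μ (Set.univ : Set G) := by
  classical
  obtain ⟨S, Q, ⟨hQ, gen⟩, c⟩ := h
  have h1 : Gd d v S.card (S : Set G) := by
    clear gen c
    induction S using Finset.induction_on with
    | empty => simpa using Gd.empty v
    | insert s S hs ih =>
      rw [Finset.card_insert_of_notMem hs, Finset.coe_insert]
      exact ih.elt zt s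
  have h2 : Gd d v (S.card + Q.card) ((S : Set G) ∪ {a | ∃ A ∈ Q, a ∈ A}) := by
    clear gen c
    induction Q using Finset.induction_on with
    | empty => simpa using h1
    | insert U Q hU ih =>
      rw [Finset.card_insert_of_notMem hU, ← add_assoc]
      refine ((ih fun A hA => hQ A (Finset.mem_insert_of_mem hA)).grp zt t
        (hQ U (Finset.mem_insert_self _ _))).clos fun g hg => subset_closure ?_
      rcases hg with hg | ⟨A, hA, hg⟩
      · exact Or.inr (Or.inl hg)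
      · rcases Finset.mem_insert.1 hA with rfl | hA
        · exact Or.inl hg
        · exact Or.inr (Or.inr ⟨A, hA, hg⟩)
  exact (h2.clos (by rw [gen]; exact fun _ _ => mem_top _)).mono c

/-- orientation of an edge -/
def Ori (e : ℕ × G × ℕ) (x : ℕ) (g : G) (y : ℕ) : Prop := e = (x, g, y) ∨ e = (y, g⁻¹, x)

theorem P.of_or {S : QGruSt G V} {e : ℕ × G × ℕ} {x y : ℕ} {g : G} (he : e ∈ S.E)
    (o : Ori e x g y) : S.P x g y := by
  rcases o with rfl | rfl
  · exact P.edge he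
  · exact (P.edge he).inv.cast (by group)

theorem Valid.of_or (zt : ZTree G d) {v : V} {S : QGruSt G V} (h : Valid d v S) {e : ℕ × G × ℕ}
    {x y : ℕ} {g : G} (he : e ∈ S.E) (o : Ori e x g y) : d (S.φ x) (g • S.φ y) = 1 := by
  rcases o with rfl | rfl
  · exact (h.ed _ _ _ he).2.2
  · have := (h.ed _ _ _ he).2.2
    rw [← zt.act.iso g, smul_inv_smul, zt.act.tr.symm] at this
    exact this

/-- a fold -/
theorem fold (zt : ZTree G d) {v : V} {S : QGruSt G V} (h : Valid d v S) (c : S.Conn)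
    {e₁ e₂ : ℕ × G × ℕ} (m₁ : e₁ ∈ S.E) (m₂ : e₂ ∈ S.E) (ne : e₁ ≠ e₂) {x y₁ y₂ : ℕ}
    {g₁ g₂ a : G} (o₁ : Ori e₁ x g₁ y₁) (o₂ : Ori e₂ x g₂ y₂) (ha : a ∈ S.H x)
    (e : a • g₁ • S.φ y₁ = g₂ • S.φ y₂) :
    ∃ S' : QGruSt G V, Valid d v S' ∧ S'.Conn ∧ S'.χ ≤ S.χ ∧ S'.E.card < S.E.card ∧
      ∀ g, S.P 0 g 0 → S'.P 0 g 0 := by
  classical
  let S₁ : QGruSt G V := ⟨S.W, S.φ, S.H, S.r, S.E.erase e₁⟩
  have h₁ : Valid d v S₁ := ⟨h.z, h.base, h.fix, h.rg,
    fun x g y he => h.ed x g y (Finset.mem_of_mem_erase he)⟩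
  have w₁ := h.mem (P.of_or m₁ o₁)
  have w₂ := h.mem (P.of_or m₂ o₂)
  obtain ⟨S', π, κ, a', c', l', sm, p'⟩ := glue zt h₁ w₁.2 w₂.2 (k := g₂⁻¹ * a * g₁)
    (by change _ • S.φ y₁ = S.φ y₂; rw [mul_smul, mul_smul, e, inv_smul_smul])
  have e2 : S₁.E.card + 1 = S.E.card := Finset.card_erase_add_one m₁
  have e3 : S₁.χ + 1 = S.χ := by
    simp only [χ]
    change (S₁.E.card : ℤ) + 1 + (∑ z ∈ S.W, (S.r z : ℤ)) - S.W.card + 1 = _
    omega
  have q₁ : S'.P (π x) (κ x * g₁ * (κ y₁)⁻¹) (π y₁) := by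
    have b1 : S₁.P x a⁻¹ x := (P.grp (S := S₁) w₁.1 ha).inv
    have b2 : S₁.P x g₂ y₂ := P.of_or (S := S₁) (Finset.mem_erase.2 ⟨ne.symm, m₂⟩) o₂
    exact ((sm.path _ _ _ (b1.mul b2)).mul p').cast (by group)
  have sm' : Sim S S' π κ := by
    refine ⟨sm.p0, sm.k0, ?_, sm.onto⟩
    apply sim_path
    · intro z hz b hb
      exact sm.path _ _ _ (P.grp (S := S₁) hz hb)
    · intro z g z' he
      by_cases q : (z, g, z') = e₁
      · rcases o₁ with o | o
        · rw [o] at q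
          simp only [Prod.mk.injEq] at q
          obtain ⟨rfl, rfl, rfl⟩ := q
          exact q₁
        · rw [o] at q
          simp only [Prod.mk.injEq] at q
          obtain ⟨rfl, rfl, rfl⟩ := q
          exact q₁.inv.cast (by group)
      · exact sm.path _ _ _ (P.edge (S := S₁) (Finset.mem_erase.2 ⟨q, he⟩))
  exact ⟨S', a', sm'.conn c, by omega, by omega, fun g p => sm'.loop p⟩

/-- the state is immersed in the tree -/
def Imm (S : QGruSt G V) : Prop :=
  ∀ e₁ ∈ S.E, ∀ e₂ ∈ S.E, ∀ x g₁ y₁ g₂ y₂, Ori e₁ x g₁ y₁ → Ori e₂ x g₂ y₂ → ∀ a ∈ S.H x,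
    a • g₁ • S.φ y₁ = g₂ • S.φ y₂ → a = 1 ∧ g₁ = g₂ ∧ y₁ = y₂

theorem imm_of (zt : ZTree G d) (t : TrivE G d) {v : V} {S : QGruSt G V} (h : Valid d v S)
    (nf : ∀ e₁ ∈ S.E, ∀ e₂ ∈ S.E, ∀ x g₁ y₁ g₂ y₂, Ori e₁ x g₁ y₁ → Ori e₂ x g₂ y₂ → ∀ a ∈ S.H x,
      a • g₁ • S.φ y₁ = g₂ • S.φ y₂ → e₁ = e₂) : S.Imm := by
  intro e₁ m₁ e₂ m₂ x g₁ y₁ g₂ y₂ o₁ o₂ a ha e
  have q := nf e₁ m₁ e₂ m₂ x g₁ y₁ g₂ y₂ o₁ o₂ a ha e
  subst q
  have d₁ := h.of_or zt m₁ o₁
  have fx := h.fix x (h.mem (P.of_or m₁ o₁)).1 a ha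
  have same : g₁ = g₂ ∧ y₁ = y₂ → a = 1 ∧ g₁ = g₂ ∧ y₁ = y₂ := by
    rintro ⟨rfl, rfl⟩
    exact ⟨t _ _ d₁ a fx e, rfl, rfl⟩
  have opp : y₁ = x → y₂ = x → g₂ = g₁⁻¹ → False := by
    rintro rfl rfl rfl
    have d₂ : d (S.φ y₂) (g₁⁻¹ • S.φ y₂) = 1 := h.of_or zt m₁ o₂
    refine zt.noinv (a * g₁) _ _ d₂ (by rw [mul_smul, e]) ?_
    rw [mul_smul, smul_inv_smul, fx]
  rcases o₁ with o₁ | o₁ <;> rcases o₂ with o₂ | o₂ <;> rw [o₁] at o₂ <;>
    simp only [Prod.mk.injEq] at o₂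
  · exact same ⟨o₂.2.1, o₂.2.2⟩
  · exact (opp o₂.2.2 o₂.1.symm (by rw [o₂.2.1, inv_inv])).elim
  · exact (opp o₂.1 o₂.2.2.symm o₂.2.1.symm).elim
  · exact same ⟨inv_injective o₂.2.1, o₂.1⟩

/-- geodesic paths -/
inductive R (d : V → V → ℤ) (v : V) (S : QGruSt G V) : G → ℕ → Prop
  | base {a : G} : a ∈ S.H 0 → R d v S a 0
  | step {t g a : G} {x y : ℕ} {e : ℕ × G × ℕ} : R d v S t x → e ∈ S.E → Ori e x g y →
      a ∈ S.H y → d v (t • g • S.φ y) = d v (t • S.φ x) + 1 → R d v S (t * g * a) y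

theorem R.grp {v : V} {S : QGruSt G V} {t a : G} {x : ℕ} (p : R d v S t x) (ha : a ∈ S.H x) :
    R d v S (t * a) x := by
  cases p with
  | base hb => exact R.base (mul_mem hb ha)
  | step p he o hb e =>
    rw [mul_assoc]
    exact R.step p he o (mul_mem hb ha) e

theorem R.edge (zt : ZTree G d) {v : V} {S : QGruSt G V} (h : Valid d v S) (im : S.Imm)
    {t g : G} {x y : ℕ} {e : ℕ × G × ℕ} (p : R d v S t x) (he : e ∈ S.E) (o : Ori e x g y) :
    R d v S (t * g) y := by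
  have tr := zt.act.tr
  have d₁ : d (t • S.φ x) (t • g • S.φ y) = 1 := by rw [zt.act.iso]; exact h.of_or zt he o
  rcases tr.adj_cases d₁ v with c | c
  · simpa using R.step p he o (one_mem _) c
  cases p with
  | base hb =>
    exfalso
    rw [h.fix 0 h.z _ hb, h.base, tr.self] at c
    have := tr.nonneg v (t • g • S.φ y)
    omega
  | @step t' g' a x' _ e' p' he' o' hb c' =>
    have fx := h.fix x (h.mem (P.of_or he o)).1 a hb
    have q : (t' * g' * a) • S.φ x = t' • g' • S.φ x := by rw [mul_smul, fx, mul_smul]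
    have d₂ : d (t' • S.φ x') (t' • g' • S.φ x) = 1 := by
      rw [zt.act.iso]; exact h.of_or zt he' o'
    rw [q] at c d₁
    have u : (t' * g' * a) • g • S.φ y = t' • S.φ x' := by
      refine tr.bt_uniq (x := v) (y := t' • g' • S.φ x) ?_ ?_ (by omega)
      · have := tr.symm (t' • g' • S.φ x) ((t' * g' * a) • g • S.φ y)
        simp only [Bt]; omega
      · simp only [Bt]; omega
    have o'' : Ori e' x g'⁻¹ x' := by
      rcases o' with o' | o'
      · exact Or.inr (by rw [inv_inv]; exact o')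
      · exact Or.inl o'
    have u' : a • g • S.φ y = g'⁻¹ • S.φ x' := by
      rw [eq_inv_smul_iff, ← smul_left_cancel_iff t', ← u, mul_smul, mul_smul]
    obtain ⟨rfl, rfl, rfl⟩ := im e he e' he' x g y g'⁻¹ x' o o'' a hb u'
    simpa using p'

theorem R.path (zt : ZTree G d) {v : V} {S : QGruSt G V} (h : Valid d v S) (im : S.Imm)
    {x y : ℕ} {t : G} (p : S.P x t y) : ∀ s, R d v S s x ↔ R d v S (s * t) y := by
  induction p with
  | grp a b =>
    intro s
    exact ⟨fun q => q.grp b, fun q => by simpa using q.grp (inv_mem b)⟩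
  | @edge x y g a =>
    intro s
    refine ⟨fun q => q.edge zt h im a (Or.inl rfl), fun q => ?_⟩
    have := q.edge zt h im a (g := g⁻¹) (y := x) (Or.inr (by rw [inv_inv]))
    simpa using this
  | @inv x y t _ ih =>
    intro s
    rw [ih (s * t⁻¹)]; simp
  | mul _ _ ih ih' =>
    intro s
    rw [ih s, ih', mul_assoc]

theorem stab_eq (zt : ZTree G d) {v : V} {S : QGruSt G V} (h : Valid d v S) (im : S.Imm)
    (all : ∀ g, S.P 0 g 0) : stabilizer G v = S.H 0 := by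
  apply le_antisymm
  · intro g hg
    have hg' : g • v = v := hg
    have q : R d v S g 0 := by
      simpa using (R.path zt h im (all g) 1).1 (R.base (one_mem _))
    generalize hx : (0 : ℕ) = x at q
    cases q with
    | base hb => exact hb
    | @step t g' a x' _ e p he o hb c =>
      exfalso
      subst hx
      have fx := h.fix 0 h.z a hb
      have : t • g' • S.φ 0 = v := by
        rw [← hg', mul_smul, mul_smul, ← h.base, fx]
      rw [this, zt.act.tr.self] at c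
      have := zt.act.tr.nonneg v (t • S.φ x')
      omega
  · intro g hg
    have := h.fix 0 h.z g hg
    rw [h.base] at this
    exact this

theorem r_lt {v : V} {S : QGruSt G V} (h : Valid d v S) (c : S.Conn) (all : ∀ g, S.P 0 g 0)
    (nf : ∃ g : G, g • v ≠ v) : (S.r 0 : ℤ) < S.χ := by
  classical
  by_contra hc
  push Not at hc
  let src : S.E → ℕ := fun e => e.1.1
  let tgt : S.E → ℕ := fun e => e.1.2.2
  let l : S.E → G := fun e => e.1.2.1⁻¹
  have wk : ∀ x t y, S.P x t y → ∃ t', GWalk src tgt l x t' y := by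
    intro x t y p
    induction p with
    | grp a b => exact ⟨1, GWalk.nil⟩
    | edge a => exact ⟨_, GWalk.fwd (src := src) (tgt := tgt) ⟨_, a⟩ GWalk.nil⟩
    | inv _ ih => obtain ⟨t', q⟩ := ih; exact ⟨_, q.symm⟩
    | mul _ _ ih ih' =>
      obtain ⟨t', q⟩ := ih
      obtain ⟨t'', q'⟩ := ih'
      exact ⟨_, q.trans q'⟩
  have hC : ∀ a, a ∈ S.W ↔ ∃ t, GWalk src tgt l 0 t a := by
    intro a
    constructor
    · intro ha
      obtain ⟨t, p⟩ := c a ha
      exact wk _ _ _ p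
    · rintro ⟨t, p⟩
      induction p with
      | nil => exact h.z
      | fwd e _ _ => exact (h.ed _ _ _ e.2).2.1
      | bwd e _ _ => exact (h.ed _ _ _ e.2).1
  have pos : 0 < S.W.card := Finset.card_pos.2 ⟨0, h.z⟩
  obtain ⟨_, F, ψ, _, _, _, hF, ψ0, hψ⟩ := QGr_span src tgt l 0 S.W hC (S.W.card - 1) (by omega)
  have f1 : F.card ≤ S.E.card := by simpa using Finset.card_le_univ F
  have nn : (0 : ℤ) ≤ ∑ x ∈ S.W.erase 0, (S.r x : ℤ) :=
    Finset.sum_nonneg fun _ _ => Int.natCast_nonneg _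
  simp only [χ] at hc
  rw [← Finset.add_sum_erase _ _ h.z] at hc
  have f2 : F = Finset.univ := by
    apply Finset.eq_univ_of_card
    simp only [Fintype.card_coe]; omega
  have f3 : ∀ x ∈ S.W.erase 0, (S.r x : ℤ) = 0 :=
    (Finset.sum_eq_zero_iff_of_nonneg fun _ _ => Int.natCast_nonneg _).1 (by omega)
  have pot : ∀ x t y, S.P x t y → (ψ x)⁻¹ * t * ψ y ∈ S.H 0 := by
    intro x t y p
    induction p with
    | @grp x a hx ha =>
      by_cases x0 : x = 0
      · subst x0; simpa [ψ0] using ha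
      · have r0 : S.r x = 0 := by
          have := f3 x (Finset.mem_erase.2 ⟨x0, hx⟩)
          omega
        have := h.rg x hx
        rw [r0] at this
        rw [this.eq_bot, mem_bot] at ha
        simp [ha]
    | @edge x y g he =>
      have := (hψ ⟨_, he⟩ (f2 ▸ Finset.mem_univ _)).2.2
      change ψ y = g⁻¹ * ψ x at this
      rw [this]; simp
    | inv _ ih => convert inv_mem ih using 1; group
    | mul _ _ ih ih' => convert mul_mem ih ih' using 1; group
  obtain ⟨g, hg⟩ := nf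
  have := pot _ _ _ (all g)
  rw [ψ0, inv_one, one_mul, mul_one] at this
  have := h.fix 0 h.z g this
  rw [h.base] at this
  exact hg this

end QGruSt

theorem grushko (zt : ZTree G d) (t : TrivE G d) (nf : ∀ v : V, ∃ g : G, g • v ≠ v) {μ : ℕ}
    (h : RFGn G μ) (v : V) : ∃ μ', μ' < μ ∧ RFGn (stabilizer G v) μ' := by
  classical
  have ex : ∃ n, ∃ S : QGruSt G V, S.Valid d v ∧ S.Conn ∧ S.χ ≤ μ ∧ (∀ g, S.P 0 g 0) ∧
      S.E.card = n := by
    obtain ⟨S, a, b, c, f⟩ := QGruSt.Gd.init zt t h v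
    exact ⟨_, S, a, b, c, fun g => f g trivial, rfl⟩
  obtain ⟨S, a, b, c, f, e⟩ := Nat.find_spec ex
  have im : S.Imm := by
    refine QGruSt.imm_of zt t a ?_
    intro e₁ m₁ e₂ m₂ x g₁ y₁ g₂ y₂ o₁ o₂ k hk q
    by_contra ne
    obtain ⟨S', a', b', c', l', f'⟩ := QGruSt.fold zt a b m₁ m₂ ne o₁ o₂ hk q
    exact Nat.find_min ex (e ▸ l') ⟨S', a', b', c'.trans c, fun g => f' g (f g), rfl⟩
  refine ⟨S.r 0, ?_, ?_⟩
  · have := QGruSt.r_lt a b f (nf v)
    omega
  · rw [QGruSt.stab_eq zt a im f]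
    exact (a.rg 0 a.z).rfgn

end Pool.Agent.Work.MP_904812_al
end
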