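import Pool.Agent.Work.MP_904812_al.QLa2
import Pool.Agent.Work.MP_904812_al.QGru
import Pool.Agent.Work.MP_904812_al.QCyl

-- merged part: Pool.Agent.Work.MP_904812_al.QHat
section
/-! The tree of the free group on the letters of a model. -/

namespace Pool.Agent.Work.MP_904812_al

set_option linter.unusedSectionVars false
set_option linter.unusedVariables false

open Subgroup MulAction

variable {G : Type} [Group G] {Ell : Set G → Prop} {Q : Set (Set G)}

theorem Model.fn (M : Model G Ell Q) (i : M.ι) (a b b' : M.V) (h : M.R i a b) (h' : M.R i a b') :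
    b = b' :=
  M.tr.bt_uniq h.2.1 h'.2.1 (h.2.2.symm.trans h'.2.2)

theorem Model.inj (M : Model G Ell Q) (i : M.ι) (a a' b : M.V) (h : M.R i a b)
    (h' : M.R i a' b) : a = a' :=
  M.tr.bt_uniq h.1 h'.1 (h.2.2.trans h'.2.2.symm)

theorem Model.iso (M : Model G Ell Q) {i : M.ι} {a b a' b' : M.V} (h : M.R i a a')
    (h' : M.R i b b') : M.D a' b' = M.D a b := by
  rw [M.tr.bt_dist h.1 h'.1, M.tr.bt_dist h.2.1 h'.2.1, h.2.2, h'.2.2]

theorem Model.QHat_par (M : Model G Ell Q) (p x : M.V) :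
    M.par x = M.par p ↔ M.D p x % 2 = 0 := by
  refine M.tr.ind_adj (P := fun x => M.par x = M.par p ↔ M.D p x % 2 = 0)
    (x := p) (by simp [M.tr.self]) (fun a b e h => ?_) x
  have h1 := M.par_adj a b e
  have h2 := M.tr.adj_cases e p
  have h3 : M.par b = M.par p ↔ ¬ M.par a = M.par p := by
    revert h1
    cases M.par a <;> cases M.par b <;> cases M.par p <;> simp
  rw [h3, h]
  omega

theorem Model.par_eq (M : Model G Ell Q) {i : M.ι} {a a' : M.V} (h : M.R i a a') :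
    M.par a' = M.par a := by
  have h1 := M.QHat_par (M.u i) a
  have h2 := M.QHat_par (M.u' i) a'
  rw [← h.2.2, ← h1, ← M.par_u] at h2
  revert h2
  cases M.par a <;> cases M.par a' <;> cases M.par (M.u i) <;> simp

theorem Model.QHat_wpar (M : Model G Ell Q) {x y : M.V} {ω : FreeGroup M.ι}
    (p : WPath M.R x ω y) : M.par y = M.par x := by
  induction p with
  | nil => rfl
  | fwd _ r ih => rw [M.par_eq r, ih]
  | bwd _ r ih => rw [← M.par_eq r, ih]

theorem Model.QHat_one (M : Model G Ell Q) {x y : M.V} {i : M.ι}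
    (p : WPath M.R x (FreeGroup.of i) y) : M.R i x y := by
  classical
  have := p.reduced M.fn M.inj
  rw [FreeGroup.toWord_of] at this
  obtain ⟨_, rfl, h⟩ := this
  exact h

theorem QHat_sep {V : Type*} {D : V → V → ℤ} (h : Tr D) {x y z w : V} (e : D x y = 1)
    (hz : D z x < D z y) (hw : ¬ D w x < D w y) :
    Bt D z x w ∧ Bt D z y w ∧ D z w = D z x + 1 + D w y := by
  have := h.adj_cases e z
  have := h.adj_cases e w
  have := h.four z y w x
  have := h.tri z x w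
  have := h.symm x w
  have := h.symm y w
  have := h.symm x y
  simp only [Bt]
  omega

/-- the identification of the copies -/
def Model.QHatS (M : Model G Ell Q) : Setoid (FreeGroup M.ι × M.V) where
  r a b := WPath M.R a.2 (b.1⁻¹ * a.1) b.2
  iseqv := ⟨fun a => by simpa using WPath.nil, fun h => by simpa using h.symm,
    fun h h' => by simpa [mul_assoc] using h.trans h'⟩

/-- the vertices of the tree -/
def Model.QHatT (M : Model G Ell Q) : Type := Quotient M.QHatS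

/-- a point of a copy -/
def Model.QHatMk (M : Model G Ell Q) (ω : FreeGroup M.ι) (x : M.V) : M.QHatT :=
  Quotient.mk M.QHatS (ω, x)

theorem Model.QHat_eq (M : Model G Ell Q) {ω ω' : FreeGroup M.ι} {x x' : M.V} :
    M.QHatMk ω x = M.QHatMk ω' x' ↔ WPath M.R x (ω'⁻¹ * ω) x' :=
  Quotient.eq (r := M.QHatS)

theorem Model.QHat_ex (M : Model G Ell Q) (t : M.QHatT) : ∃ ω x, t = M.QHatMk ω x :=
  Quotient.inductionOn t fun a => ⟨a.1, a.2, rfl⟩

instance (M : Model G Ell Q) : MulAction (FreeGroup M.ι) M.QHatT where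
  smul η := Quotient.map (fun a => (η * a.1, a.2)) fun a b h => by
    have h' : WPath M.R a.2 (b.1⁻¹ * a.1) b.2 := h
    change WPath M.R a.2 ((η * b.1)⁻¹ * (η * a.1)) b.2
    simpa [mul_assoc] using h'
  one_smul t := Quotient.inductionOn t fun a => congrArg (Quotient.mk _) (by simp)
  mul_smul η η' t := Quotient.inductionOn t fun a => congrArg (Quotient.mk _) (by simp [mul_assoc])

theorem Model.QHat_smul (M : Model G Ell Q) (η ω : FreeGroup M.ι) (x : M.V) :
    η • M.QHatMk ω x = M.QHatMk (η * ω) x := rfl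

theorem Model.QHat_inj (M : Model G Ell Q) {ω : FreeGroup M.ι} {x x' : M.V}
    (h : M.QHatMk ω x = M.QHatMk ω x') : x = x' := by
  rw [M.QHat_eq, inv_mul_cancel] at h
  exact (h.eq_of_one M.fn M.inj).symm

theorem Model.QHat_step (M : Model G Ell Q) {ω : FreeGroup M.ι} {i : M.ι} {x x' : M.V} :
    M.QHatMk (ω * FreeGroup.of i) x = M.QHatMk ω x' ↔ M.R i x x' := by
  rw [M.QHat_eq, inv_mul_cancel_left]
  exact ⟨M.QHat_one, fun h => by simpa using WPath.fwd WPath.nil h⟩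

/-- adjacency -/
def Model.QHatA (M : Model G Ell Q) (t t' : M.QHatT) : Prop :=
  ∃ ω x y, M.D x y = 1 ∧ t = M.QHatMk ω x ∧ t' = M.QHatMk ω y

theorem Model.QHatA_symm (M : Model G Ell Q) (t t' : M.QHatT) (h : M.QHatA t t') :
    M.QHatA t' t := by
  obtain ⟨ω, x, y, e, h1, h2⟩ := h
  exact ⟨ω, y, x, by rw [M.tr.symm, e], h2, h1⟩

theorem Model.QHatA_smul (M : Model G Ell Q) (η : FreeGroup M.ι) {t t' : M.QHatT}
    (h : M.QHatA t t') : M.QHatA (η • t) (η • t') := by
  obtain ⟨ω, x, y, e, rfl, rfl⟩ := h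
  exact ⟨η * ω, x, y, e, rfl, rfl⟩

theorem Model.QHat_uu (M : Model G Ell Q) (i : M.ι) : M.R i (M.u i) (M.u' i) :=
  ⟨M.tr.bt_left _ _, M.tr.bt_left _ _, by rw [M.tr.self, M.tr.self]⟩

theorem Model.QHat_conn (M : Model G Ell Q) (t t' : M.QHatT) :
    Relation.ReflTransGen M.QHatA t t' := by
  have sy : ∀ {a b}, Relation.ReflTransGen M.QHatA a b → Relation.ReflTransGen M.QHatA b a :=
    fun h => by
      induction h with
      | refl => exact .refl
      | tail _ r ih => exact ih.head (M.QHatA_symm _ _ r)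
  have c1 : ∀ ω x y, Relation.ReflTransGen M.QHatA (M.QHatMk ω x) (M.QHatMk ω y) := fun ω x y =>
    M.tr.ind_adj (P := fun y => Relation.ReflTransGen M.QHatA (M.QHatMk ω x) (M.QHatMk ω y))
      .refl (fun a b e h => h.tail ⟨ω, a, b, e, rfl, rfl⟩) y
  have c2 : ∀ (η : FreeGroup M.ι) {a b}, Relation.ReflTransGen M.QHatA a b →
      Relation.ReflTransGen M.QHatA (η • a) (η • b) := fun η _ _ h =>
    h.lift (η • ·) fun _ _ => M.QHatA_smul η
  have c3 : ∀ ω, Relation.ReflTransGen M.QHatA (M.QHatMk 1 M.x₀) (M.QHatMk ω M.x₀) := by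
    intro ω
    induction ω using FreeGroup.induction_on with
    | C1 => exact .refl
    | of i =>
      have := (M.QHat_step (ω := 1)).2 (M.QHat_uu i)
      rw [one_mul] at this
      exact (c1 _ _ (M.u' i)).trans (this ▸ c1 _ _ _)
    | inv_of i ih => simpa [M.QHat_smul] using sy (c2 (FreeGroup.of i)⁻¹ ih)
    | mul a b ha hb => exact ha.trans (by simpa [M.QHat_smul] using c2 a hb)
  obtain ⟨ω, x, rfl⟩ := M.QHat_ex t
  obtain ⟨ω', x', rfl⟩ := M.QHat_ex t'
  exact ((c1 _ _ _).trans (sy (c3 ω))).trans ((c3 ω').trans (c1 _ _ _))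

theorem Model.QHat_wall (M : Model G Ell Q) (t₀ t₁ : M.QHatT) (h : M.QHatA t₀ t₁) :
    ∃ s : M.QHatT → Prop, s t₀ ∧ ¬ s t₁ ∧
      ∀ a b, M.QHatA a b → (s a ↔ s b) ∨ (a = t₀ ∧ b = t₁) ∨ (a = t₁ ∧ b = t₀) := by
  classical
  let c : FreeGroup M.ι → M.V → Prop := fun ω z => ∃ x y, M.D x y = 1 ∧ M.QHatMk ω x = t₀ ∧
    M.QHatMk ω y = t₁ ∧ M.D z x < M.D z y
  have hc : ∀ {ω x y}, M.D x y = 1 → M.QHatMk ω x = t₀ → M.QHatMk ω y = t₁ → ∀ z,
      c ω z ↔ M.D z x < M.D z y := by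
    intro ω x y e h0 h1 z
    refine ⟨?_, fun h => ⟨x, y, e, h0, h1, h⟩⟩
    rintro ⟨x', y', -, k0, k1, h⟩
    rwa [M.QHat_inj (h0.trans k0.symm), M.QHat_inj (h1.trans k1.symm)]
  have key : ∀ ω i z z' w w', M.R i z z' → M.R i w w' → ¬ (c (ω * FreeGroup.of i) z ↔ c ω z') →
      ¬ (c (ω * FreeGroup.of i) w ↔ c ω w') := by
    intro ω i z z' w w' rz rw' hne
    have both : ∀ x y x' y', M.D x y = 1 → M.QHatMk (ω * FreeGroup.of i) x = t₀ →
        M.QHatMk (ω * FreeGroup.of i) y = t₁ → M.R i x x' → M.R i y y' → False := by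
      intro x y x' y' e h0 h1 rx ry
      refine hne ?_
      rw [hc e h0 h1, hc ((M.iso rx ry).trans e) ((M.QHat_step.2 rx).symm.trans h0)
        ((M.QHat_step.2 ry).symm.trans h1), M.iso rz rx, M.iso rz ry]
    have im : ∀ x, Bt M.D (M.u i) x (M.v i) → ∃ x', M.R i x x' := fun x hx => by
      obtain ⟨x', a, b⟩ := M.tr.ex_bt (M.u' i) (M.v' i) (M.tr.nonneg (M.u i) x)
        (M.len i ▸ M.tr.bt_le hx)
      exact ⟨x', hx, a, b.symm⟩
    have pre : ∀ x', Bt M.D (M.u' i) x' (M.v' i) → ∃ x, M.R i x x' := fun x' hx => by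
      obtain ⟨x, a, b⟩ := M.tr.ex_bt (M.u i) (M.v i) (M.tr.nonneg (M.u' i) x')
        ((M.len i).symm ▸ M.tr.bt_le hx)
      exact ⟨x, a, hx, b⟩
    have k1 : ∀ p q, Bt M.D (M.u i) p (M.v i) → Bt M.D (M.u i) q (M.v i) →
        c (ω * FreeGroup.of i) p → c (ω * FreeGroup.of i) q := by
      rintro p q hp hq ⟨x, y, e, h0, h1, hlt⟩
      by_contra hn
      obtain ⟨a, b, -⟩ := QHat_sep M.tr e hlt fun h => hn ⟨x, y, e, h0, h1, h⟩
      obtain ⟨x', rx⟩ := im x (M.tr.bt_conv hp hq a)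
      obtain ⟨y', ry⟩ := im y (M.tr.bt_conv hp hq b)
      exact both x y x' y' e h0 h1 rx ry
    have k2 : ∀ p q, Bt M.D (M.u' i) p (M.v' i) → Bt M.D (M.u' i) q (M.v' i) →
        c ω p → c ω q := by
      rintro p q hp hq ⟨x', y', e, h0, h1, hlt⟩
      by_contra hn
      obtain ⟨a, b, -⟩ := QHat_sep M.tr e hlt fun h => hn ⟨x', y', e, h0, h1, h⟩
      obtain ⟨x, rx⟩ := pre x' (M.tr.bt_conv hp hq a)
      obtain ⟨y, ry⟩ := pre y' (M.tr.bt_conv hp hq b)
      exact both x y x' y' ((M.iso rx ry).symm.trans e) ((M.QHat_step.2 rx).trans h0)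
        ((M.QHat_step.2 ry).trans h1) rx ry
    rwa [show c _ w ↔ c _ z from ⟨k1 _ _ rw'.1 rz.1, k1 _ _ rz.1 rw'.1⟩,
      show c _ w' ↔ c _ z' from ⟨k2 _ _ rw'.2.1 rz.2.1, k2 _ _ rz.2.1 rw'.2.1⟩]
  let cc : FreeGroup M.ι → M.V → ℤˣ := fun ω z => if c ω z then -1 else 1
  obtain ⟨Φ, -, hΦ⟩ := free_exact fun ω i => cc (ω * FreeGroup.of i) (M.u i) * cc ω (M.u' i)
  have st : ∀ ω i z z', M.R i z z' →
      cc (ω * FreeGroup.of i) z * Φ (ω * FreeGroup.of i) = cc ω z' * Φ ω := by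
    intro ω i z z' r
    have h1 := key ω i _ _ _ _ r (M.QHat_uu i)
    have h2 := key ω i _ _ _ _ (M.QHat_uu i) r
    rw [hΦ, ← mul_assoc, mul_left_inj]
    simp only [cc]
    split_ifs <;> simp_all
  have wd : ∀ {x η x'}, WPath M.R x η x' → ∀ ω, cc (ω * η) x * Φ (ω * η) = cc ω x' * Φ ω := by
    intro x η x' p
    induction p with
    | nil => intro ω; rw [mul_one]
    | fwd _ r ih => intro ω; rw [← mul_assoc, ih, st _ _ _ _ r]
    | bwd _ r ih => intro ω; rw [← mul_assoc, ih, ← st _ _ _ _ r, inv_mul_cancel_right]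
  let S : M.QHatT → ℤˣ := Quotient.lift (fun a => cc a.1 a.2 * Φ a.1) fun a b h => by
    have := wd (h : WPath M.R a.2 (b.1⁻¹ * a.1) b.2) b.1
    rwa [mul_inv_cancel_left] at this
  have hS : ∀ ω x, S (M.QHatMk ω x) = cc ω x * Φ ω := fun _ _ => rfl
  obtain ⟨ω₀, x₀, y₀, e₀, h0, h1⟩ := h
  refine ⟨fun t => S t = S t₀, rfl, ?_, ?_⟩
  · have a := (hc e₀ h0.symm h1.symm x₀).2 (by rw [e₀, M.tr.self]; exact one_pos)
    have b : ¬ c ω₀ y₀ := by
      rw [hc e₀ h0.symm h1.symm, M.tr.self, M.tr.symm, e₀]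
      omega
    change ¬ S t₁ = S t₀
    rw [h0, h1, hS, hS, mul_left_inj]
    simp [cc, a, b]
  · have k : ∀ ω a b, M.D a b = 1 → c ω a → ¬ c ω b → M.QHatMk ω a = t₀ ∧ M.QHatMk ω b = t₁ := by
      rintro ω a b e ⟨x, y, e', k0, k1, hlt⟩ hn
      obtain ⟨-, -, k2⟩ := QHat_sep M.tr e' hlt fun h => hn ⟨x, y, e', k0, k1, h⟩
      have := M.tr.nonneg a x
      have := M.tr.nonneg b y
      rw [M.tr.eq_of (by omega : M.D a x = 0), M.tr.eq_of (by omega : M.D b y = 0)]
      exact ⟨k0, k1⟩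
    rintro _ _ ⟨ω, a, b, e, rfl, rfl⟩
    by_cases ha : c ω a <;> by_cases hb : c ω b
    · exact Or.inl (by simp [hS, cc, ha, hb])
    · exact Or.inr (Or.inl (k ω a b e ha hb))
    · exact Or.inr (Or.inr (k ω b a (by rw [M.tr.symm, e]) hb ha).symm)
    · exact Or.inl (by simp [hS, cc, ha, hb])

theorem Model.hat (M : Model G Ell Q) : ∃ (T : Type) (_ : MulAction (FreeGroup M.ι) T)
    (d : T → T → ℤ) (pt : M.V → T), Hat M d pt := by
  obtain ⟨d, htr, hadj, hiso⟩ := tr_of_walls M.QHatA M.QHatA_symm M.QHat_conn M.QHat_wall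
  have path : ∀ (ω : FreeGroup M.ι) x x',
      ω • M.QHatMk 1 x = M.QHatMk 1 x' ↔ WPath M.R x ω x' := fun ω x x' => by
    rw [M.QHat_smul, M.QHat_eq]
    simp
  refine ⟨M.QHatT, inferInstance, d, M.QHatMk 1, ⟨⟨htr, ⟨M.QHatMk 1 M.x₀⟩, fun g =>
    hiso _ (MulAction.bijective g) fun a b => ⟨fun h => ?_, M.QHatA_smul g⟩⟩, ?_⟩, fun x y => ?_,
    fun t => ?_, path, fun t t' h => ?_, fun ω x y x' y' h h' =>
      ((path _ _ _).1 h).pair M.fn M.inj ((path _ _ _).1 h')⟩
  · simpa using M.QHatA_smul g⁻¹ h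
  · intro g t t' h e
    obtain ⟨ω, x, y, e', rfl, rfl⟩ := (hadj _ _).1 h
    rw [M.QHat_smul, M.QHat_eq] at e
    exact absurd (M.QHat_wpar e).symm (M.par_adj x y e')
  · exact M.tr.map_geod htr _ (fun x y e => (hadj _ _).2 ⟨1, x, y, e, rfl, rfl⟩)
      fun _ _ _ _ _ _ _ _ hne e => hne (M.QHat_inj e)
  · obtain ⟨ω, x, rfl⟩ := M.QHat_ex t
    exact ⟨ω, x, by rw [M.QHat_smul, mul_one]⟩
  · obtain ⟨ω, x, y, -, rfl, rfl⟩ := (hadj _ _).1 h
    exact ⟨ω, x, y, by rw [M.QHat_smul, mul_one], by rw [M.QHat_smul, mul_one]⟩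

end Pool.Agent.Work.MP_904812_al
end

-- merged part: Pool.Agent.Work.MP_904812_al.QRot
section
/-! Rotating families and quotient trees. -/

namespace Pool.Agent.Work.MP_904812_al

set_option linter.unusedSectionVars false
set_option linter.unusedVariables false

open Subgroup MulAction

variable {G V : Type*} [Group G] [MulAction G V] {d : V → V → ℤ}

/-- chains of rotations along a walk -/
inductive QRotCh (d : V → V → ℤ) (K : V → Subgroup G) (a : V) : G → V → ℕ → Prop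
  | base (k : G) : k ∈ K a → QRotCh d K a k a 0
  | step (k : G) (b : V) (n : ℕ) (c : V) (k' : G) : QRotCh d K a k b n → d b c = 1 → k' ∈ K c →
      QRotCh d K a (k * k') c (n + 1)

section chains
variable {K : V → Subgroup G}

theorem QRotCh.mul_right {a b : V} {k k' : G} {n : ℕ} (c : QRotCh d K a k b n) (h : k' ∈ K b) :
    QRotCh d K a (k * k') b n := by
  cases c with
  | base _ hk => exact .base _ (mul_mem hk h)
  | step k b n c k'' c1 e hk =>
    rw [mul_assoc]
    exact .step _ _ _ _ _ c1 e (mul_mem hk h)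

theorem QRotCh.append {a b c : V} {k k' : G} {n m : ℕ} (c1 : QRotCh d K a k b n)
    (c2 : QRotCh d K b k' c m) : QRotCh d K a (k * k') c (n + m) := by
  induction c2 with
  | base k' hk => exact c1.mul_right hk
  | step k' b' m c k'' _ e hk ih =>
    rw [← mul_assoc, ← add_assoc]
    exact .step _ _ _ _ _ ih e hk

theorem QRotCh.cast {a b a' b' : V} {k k' : G} {n n' : ℕ} (c : QRotCh d K a k b n) (e1 : a = a')
    (e2 : k = k') (e3 : b = b') (e4 : n = n') : QRotCh d K a' k' b' n' := by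
  subst e1 e2 e3 e4; exact c

theorem QRotCh.rev (h : Rot G d K) {a b : V} {k : G} {n : ℕ} (c : QRotCh d K a k b n) :
    QRotCh d K b k⁻¹ a n := by
  induction c with
  | base k hk => exact .base _ (inv_mem hk)
  | step k b n c k' _ e hk ih =>
    have c1 : QRotCh d K c (k'⁻¹ * 1) b (0 + 1) := .step _ _ _ _ _ (.base _ (inv_mem hk))
      (by rw [h.zt.act.tr.symm]; exact e) (one_mem _)
    exact (c1.append ih).cast rfl (by group) rfl (by omega)

theorem QRotCh.conj (h : Rot G d K) (g : G) {a b : V} {k : G} {n : ℕ} (c : QRotCh d K a k b n) :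
    QRotCh d K (g • a) (g * k * g⁻¹) (g • b) n := by
  induction c with
  | base k hk => exact .base _ (h.conj _ _ hk g)
  | step k b n c k' _ e hk ih =>
    exact (QRotCh.step _ _ _ (g • c) _ ih (by rw [h.zt.act.iso]; exact e) (h.conj _ _ hk g)).cast
      rfl (by group) rfl rfl

theorem QRot_geo (h : Rot G d K) (a b : V) : ∃ n, QRotCh d K a 1 b n := by
  refine h.zt.act.tr.ind_adj (P := fun b => ∃ n, QRotCh d K a 1 b n) ⟨0, .base _ (one_mem _)⟩ ?_ b
  rintro x y e ⟨n, c⟩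
  exact ⟨n + 1, (QRotCh.step _ _ _ _ _ c e (one_mem _)).cast rfl (mul_one _) rfl rfl⟩

theorem QRot_gen (h : Rot G d K) {k : G} (hk : k ∈ closure {a | ∃ w, a ∈ K w}) (w : V) :
    ∃ n, QRotCh d K w k w n := by
  induction hk using closure_induction with
  | mem x hx =>
    obtain ⟨v, hv⟩ := hx
    obtain ⟨n, c1⟩ := QRot_geo h w v
    obtain ⟨m, c2⟩ := QRot_geo h v w
    exact ⟨n + m, ((c1.mul_right hv).append c2).cast rfl (by group) rfl rfl⟩
  | one => exact ⟨0, .base _ (one_mem _)⟩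
  | mul x y _ _ ihx ihy =>
    obtain ⟨n, c1⟩ := ihx
    obtain ⟨m, c2⟩ := ihy
    exact ⟨n + m, c1.append c2⟩
  | inv x _ ih =>
    obtain ⟨n, c⟩ := ih
    exact ⟨n, c.rev h⟩

theorem QRot_side (h : Tr d) {v x b c : V} (e : d v x = 1) (e' : d b c = 1) (hb : b ≠ v)
    (hc : c ≠ v) : d b x < d b v ↔ d c x < d c v := by
  have a1 := h.adj_cases e b
  have a2 := h.adj_cases e c
  have a3 := h.four b v c x
  have a4 := h.four c v b x
  have a5 := h.pos hb
  have a6 := h.pos hc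
  have a7 := h.nonneg b x
  have a8 := h.nonneg c x
  have a9 := h.symm v c
  have a10 := h.symm v b
  have a11 := h.symm b c
  omega

theorem QRotCh.visit (h : Rot G d K) {v x : V} (e : d v x = 1) {a b : V} {k : G} {n : ℕ}
    (c : QRotCh d K a k b n) : (∃ k₁ k₂ n₁ n₂, QRotCh d K a k₁ v n₁ ∧ QRotCh d K v k₂ b n₂ ∧
      k = k₁ * k₂ ∧ n = n₁ + n₂) ∨ (d a x < d a v ↔ d b x < d b v) := by
  induction c with
  | base k hk => exact Or.inr Iff.rfl
  | step k b n c k' c1 e' hk ih =>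
    rcases ih with ⟨k₁, k₂, n₁, n₂, x1, x2, rfl, rfl⟩ | ih
    · exact Or.inl ⟨k₁, k₂ * k', n₁, n₂ + 1, x1, .step _ _ _ _ _ x2 e' hk, mul_assoc _ _ _,
        add_assoc _ _ _⟩
    · by_cases hb : b = v
      · subst hb
        exact Or.inl ⟨k, 1 * k', n, 0 + 1, c1, .step _ _ _ _ _ (.base _ (one_mem _)) e' hk,
          by rw [one_mul], rfl⟩
      by_cases hc : c = v
      · subst hc
        exact Or.inl ⟨k * k', 1, n + 1, 0, .step _ _ _ _ _ c1 e' hk, .base _ (one_mem _),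
          by rw [mul_one], rfl⟩
      exact Or.inr (ih.trans (QRot_side h.zt.act.tr e e' hb hc))

theorem QRotCh.fold (h : Rot G d K) {a b : V} {k : G} {n : ℕ} (c : QRotCh d K a k b n) :
    (d a (k • b) = n ∧ (n = 0 ∨ ∃ k₁ u κ m, QRotCh d K a k₁ u m ∧ d u b = 1 ∧ κ ∈ K b ∧
      k = k₁ * κ ∧ n = m + 1 ∧ d a (k₁ • u) = m)) ∨
    ∃ k₁ κ k₂ u v u' n₁ n₂, QRotCh d K a k₁ u n₁ ∧ d u v = 1 ∧ κ ∈ K v ∧ d v u' = 1 ∧
      QRotCh d K u' k₂ b n₂ ∧ u = κ • u' ∧ k = k₁ * κ * k₂ ∧ n = n₁ + n₂ + 2 := by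
  have tr := h.zt.act.tr
  induction c with
  | base k hk => exact Or.inl ⟨by rw [h.fix _ _ hk, tr.self]; rfl, Or.inl rfl⟩
  | step k b n c k' c1 e' hk ih =>
    rcases ih with ⟨ih1, ih2⟩ | ⟨k₁, κ, k₂, u, v, u', n₁, n₂, x1, x2, x3, x4, x5, x6, rfl, rfl⟩
    · have e1 : d (k • b) (k • c) = 1 := by rw [h.zt.act.iso]; exact e'
      have e2 : (k * k') • c = k • c := by rw [mul_smul, h.fix _ _ hk]
      rcases tr.adj_cases e1 a with y | y
      · exact Or.inl ⟨by rw [e2, y, ih1]; push_cast; rfl,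
          Or.inr ⟨k, b, k', n, c1, e', hk, rfl, rfl, ih1⟩⟩
      · right
        rcases ih2 with rfl | ⟨k₁, u, κ, m, z1, z2, z3, rfl, rfl, z6⟩
        · have := tr.nonneg a (k • c)
          push_cast at ih1
          omega
        · have e3 : (k₁ * κ) • b = k₁ • b := by rw [mul_smul, h.fix _ _ z3]
          have e4 : d (k₁ • u) ((k₁ * κ) • b) = 1 := by rw [e3, h.zt.act.iso]; exact z2
          have e5 := tr.symm ((k₁ * κ) • b) ((k₁ * κ) • c)
          push_cast at ih1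
          have e6 : k₁ • u = (k₁ * κ) • c := tr.bt_uniq (x := a) (y := (k₁ * κ) • b)
            (by unfold Bt; omega) (by unfold Bt; omega) (by omega)
          rw [mul_smul, smul_left_cancel_iff] at e6
          exact ⟨k₁, κ, k', u, b, c, m, 0, z1, z2, z3, e', .base _ hk, e6, rfl, rfl⟩
    · exact Or.inr ⟨k₁, κ, k₂ * k', u, v, u', n₁, n₂ + 1, x1, x2, x3, x4,
        .step _ _ _ _ _ x5 e' hk, x6, by group, by omega⟩

theorem QRot_loop (h : Rot G d K) (w : V) (n : ℕ) : ∀ k : G, QRotCh d K w k w n → k • w = w →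
    k ∈ K w := by
  have tr := h.zt.act.tr
  induction n using Nat.strong_induction_on with
  | _ n ih =>
  intro k c e
  rcases c.fold h with ⟨h1, -⟩ | ⟨k₁, κ, k₂, u, v, u', n₁, n₂, x1, x2, x3, x4, x5, x6, rfl, rfl⟩
  · rw [e, tr.self] at h1
    have : n = 0 := by omega
    subst this
    cases c with
    | base _ hk => exact hk
  · refine ih (n₁ + n₂) (by omega) _ ?_ e
    by_cases hu : u = u'
    · subst hu
      exact (x1.mul_right (h.compat v u x4 κ x3 x6.symm)).append x5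
    have hκ := h.fix _ _ x3
    rcases x5.visit h x4 with ⟨α, β, m₁, m₂, y1, y2, rfl, rfl⟩ | y
    · have y3 := (y1.conj h κ).cast x6.symm rfl hκ rfl
      exact ((x1.append y3).append ((QRotCh.base κ x3).append y2)).cast rfl (by group) rfl (by omega)
    rcases x1.visit h x4 with ⟨α, β, m₁, m₂, y1, y2, rfl, rfl⟩ | y'
    · have y3 := (y2.conj h κ⁻¹).cast (by rw [inv_smul_eq_iff, hκ]) rfl
        (by rw [x6, inv_smul_smul]) rfl
      exact (((y1.mul_right x3).append y3).append x5).cast rfl (by group) rfl (by omega)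
    · exfalso
      have a1 := tr.self u'
      have a2 := tr.symm v u'
      have a3 := tr.pos hu
      have a4 : d u u' < d u v := y'.1 (y.1 (by omega))
      omega

end chains

theorem Rot.mem {K : V → Subgroup G} (h : Rot G d K) {k : G}
    (hk : k ∈ closure {a | ∃ w, a ∈ K w}) {w : V} (e : k • w = w) : k ∈ K w := by
  obtain ⟨n, c⟩ := QRot_gen h hk w
  exact QRot_loop h w n k c e

theorem QRot_pot {D : Type*} [Group D] (zt : ZTree G d) (φ : G →* D)
    (hk : ∀ k, φ k = 1 → k ∈ closure {k : G | φ k = 1 ∧ ∃ v : V, k • v = v})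
    (a : V → V → ZMod 2) (sy : ∀ x y, a x y = a y x)
    (inv : ∀ k, φ k = 1 → ∀ x y, a (k • x) (k • y) = a x y) :
    ∃ l : V → ZMod 2, (∀ x y, d x y = 1 → a x y = l y - l x) ∧
      ∀ k, φ k = 1 → ∀ v, l (k • v) = l v := by
  obtain ⟨l, hl⟩ := zt.act.tr.cobound a fun x y _ => by rw [sy, ZMod.neg_eq_self_mod_two]
  refine ⟨l, hl, fun k h1 => ?_⟩
  have h2 := hk k h1
  clear h1
  induction h2 using closure_induction with
  | mem x hx =>
    obtain ⟨h1, v0, hv0⟩ := hx
    refine zt.act.tr.ind_adj (P := fun v => l (x • v) = l v) (x := v0) (by rw [hv0]) ?_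
    intro u v e p
    have a1 := hl u v e
    have a2 := hl (x • u) (x • v) (by rw [zt.act.iso]; exact e)
    rw [inv x h1, a1, p] at a2
    exact (sub_left_injective a2).symm
  | one => intro v; rw [one_smul]
  | mul x y _ _ ihx ihy => intro v; rw [mul_smul, ihx, ihy]
  | inv x _ ih => intro v; rw [← ih (x⁻¹ • v), smul_inv_smul]

theorem QRot_wall {D : Type*} [Group D] (zt : ZTree G d) (φ : G →* D)
    (hk : ∀ k, φ k = 1 → k ∈ closure {k : G | φ k = 1 ∧ ∃ v : V, k • v = v}) {x y : V}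
    (e : d x y = 1) : ∃ l : V → ZMod 2, l x ≠ l y ∧ (∀ k, φ k = 1 → ∀ v, l (k • v) = l v) ∧
      ∀ u v, d u v = 1 → l u = l v ∨
        ∃ k, φ k = 1 ∧ ((k • x = u ∧ k • y = v) ∨ (k • x = v ∧ k • y = u)) := by
  classical
  obtain ⟨l, l1, l2⟩ := QRot_pot zt φ hk (fun u v =>
    if ∃ k, φ k = 1 ∧ ((k • x = u ∧ k • y = v) ∨ (k • x = v ∧ k • y = u)) then 1 else 0)
    (fun u v => by simp only [or_comm]) (fun k h1 u v => by
      refine if_congr ⟨?_, ?_⟩ rfl rfl
      · rintro ⟨k', h2, h3⟩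
        refine ⟨k⁻¹ * k', by simp [h1, h2], ?_⟩
        simpa only [mul_smul, inv_smul_eq_iff] using h3
      · rintro ⟨k', h2, h3⟩
        refine ⟨k * k', by simp [h1, h2], ?_⟩
        simpa only [mul_smul, smul_left_cancel_iff] using h3)
  refine ⟨l, fun h => ?_, l2, fun u v e' => ?_⟩
  · have := l1 x y e
    rw [if_pos ⟨1, map_one φ, Or.inl ⟨one_smul _ _, one_smul _ _⟩⟩, h, sub_self] at this
    exact one_ne_zero this
  · by_contra hc
    rw [not_or] at hc
    have := l1 u v e'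
    rw [if_neg hc.2] at this
    exact hc.1 (sub_eq_zero.1 this.symm).symm

theorem QRot_edge {D : Type*} [Group D] (zt : ZTree G d) (φ : G →* D)
    (hk : ∀ k, φ k = 1 → k ∈ closure {k : G | φ k = 1 ∧ ∃ v : V, k • v = v}) {x y x' y' : V}
    (e : d x y = 1) (e' : d x' y' = 1) (h1 : ∃ k, φ k = 1 ∧ k • x = x')
    (h2 : ∃ k, φ k = 1 ∧ k • y = y') : ∃ k : G, φ k = 1 ∧ k • x = x' ∧ k • y = y' := by
  obtain ⟨k1, a1, a2⟩ := h1
  obtain ⟨k2, b1, b2⟩ := h2
  obtain ⟨l, l1, l2, l3⟩ := QRot_wall zt φ hk e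
  rcases l3 x' y' e' with h | ⟨k, c1, c2 | c2⟩
  · rw [← a2, ← b2, l2 _ a1, l2 _ b1] at h
    exact absurd h l1
  · exact ⟨k, c1, c2⟩
  · obtain ⟨l0, m1, m2⟩ := QRot_pot zt φ hk (fun _ _ => 1) (fun _ _ => rfl) (fun _ _ _ _ => rfl)
    have := m1 x y e
    rw [← m2 k2 b1 y, b2, ← c2.1, m2 k c1, sub_self] at this
    exact absurd this one_ne_zero

theorem quot_tree {G V D : Type} [Group G] [MulAction G V] {d : V → V → ℤ} [Group D]
    (zt : ZTree G d) (φ : G →* D) (hs : Function.Surjective φ)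
    (hk : ∀ k, φ k = 1 → k ∈ closure {k : G | φ k = 1 ∧ ∃ v : V, k • v = v}) :
    ∃ (W : Type) (_ : MulAction D W) (e : W → W → ℤ) (q : V → W), QTree φ d e q := by
  let s : Setoid V := ⟨fun v v' => ∃ k : G, φ k = 1 ∧ k • v = v',
    ⟨fun v => ⟨1, map_one φ, one_smul _ _⟩,
      fun ⟨k, h1, h2⟩ => ⟨k⁻¹, by simp [h1], by rw [← h2, inv_smul_smul]⟩,
      fun ⟨k, h1, h2⟩ ⟨k', h3, h4⟩ => ⟨k' * k, by simp [h1, h3], by rw [mul_smul, h2, h4]⟩⟩⟩
  let q : V → Quotient s := Quotient.mk s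
  have hq : ∀ v v', q v = q v' ↔ ∃ k : G, φ k = 1 ∧ k • v = v' := fun v v' => Quotient.eq
  have hsurj : Function.Surjective q := Quotient.mk_surjective
  choose σ hσ using hs
  have hwd : ∀ g g' : G, φ g = φ g' → ∀ v v', q v = q v' → q (g • v) = q (g' • v') := by
    intro g g' h v v' h'
    obtain ⟨k, h1, h2⟩ := (hq _ _).1 h'
    exact (hq _ _).2 ⟨g' * k * g⁻¹, by simp [h, h1], by rw [mul_smul, mul_smul, inv_smul_smul, h2]⟩
  let act : MulAction D (Quotient s) :=
    { smul := fun x w => Quotient.lift (fun v => q (σ x • v))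
        (fun v v' h => hwd _ _ rfl v v' (Quotient.sound h)) w
      one_smul := fun w => by
        obtain ⟨v, rfl⟩ := hsurj w
        exact (hwd (σ 1) 1 (by rw [hσ, map_one]) v v rfl).trans (by rw [one_smul])
      mul_smul := fun x y w => by
        obtain ⟨v, rfl⟩ := hsurj w
        exact (hwd (σ (x * y)) (σ x * σ y) (by rw [map_mul, hσ, hσ, hσ]) v v rfl).trans
          (by rw [mul_smul]; rfl) }
  have equi : ∀ (g : G) v, q (g • v) = φ g • q v := fun g v => hwd g (σ (φ g)) (hσ _).symm v v rfl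
  obtain ⟨e, tr, eadj, einv⟩ := tr_of_walls (fun a b => ∃ x y, d x y = 1 ∧ q x = a ∧ q y = b)
    (fun a b ⟨x, y, h1, h2, h3⟩ => ⟨y, x, by rw [zt.act.tr.symm]; exact h1, h3, h2⟩)
    (fun a b => by
      obtain ⟨x, rfl⟩ := hsurj a
      obtain ⟨y, rfl⟩ := hsurj b
      exact zt.act.tr.ind_adj (P := fun y => Relation.ReflTransGen
        (fun a b => ∃ x y, d x y = 1 ∧ q x = a ∧ q y = b) (q x) (q y)) (x := x)
        Relation.ReflTransGen.refl (fun u v h p => p.tail ⟨u, v, h, rfl, rfl⟩) y)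
    (by
      rintro _ _ ⟨x, y, h1, rfl, rfl⟩
      obtain ⟨l, l1, l2, l3⟩ := QRot_wall zt φ hk h1
      let lb : Quotient s → ZMod 2 := Quotient.lift l fun v v' ⟨k, h2, h3⟩ => by rw [← h3, l2 k h2]
      refine ⟨fun w => lb w = l x, rfl, fun h => l1 (Eq.symm h), ?_⟩
      rintro _ _ ⟨u, v, h2, rfl, rfl⟩
      rcases l3 u v h2 with h | ⟨k, c1, c2 | c2⟩
      · left
        change l u = l x ↔ l v = l x
        rw [h]
      · exact Or.inr (Or.inl ⟨((hq _ _).2 ⟨k, c1, c2.1⟩).symm, ((hq _ _).2 ⟨k, c1, c2.2⟩).symm⟩)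
      · exact Or.inr (Or.inr ⟨((hq _ _).2 ⟨k, c1, c2.2⟩).symm, ((hq _ _).2 ⟨k, c1, c2.1⟩).symm⟩))
  have hadj : ∀ (x : D) a b, (∃ u v, d u v = 1 ∧ q u = a ∧ q v = b) →
      ∃ u v, d u v = 1 ∧ q u = x • a ∧ q v = x • b := by
    rintro x _ _ ⟨u, v, h1, rfl, rfl⟩
    exact ⟨σ x • u, σ x • v, by rw [zt.act.iso]; exact h1, by rw [equi, hσ], by rw [equi, hσ]⟩
  have hedge : ∀ x y x' y', d x y = 1 → d x' y' = 1 → q x = q x' → q y = q y' →
      ∃ k : G, φ k = 1 ∧ k • x = x' ∧ k • y = y' := fun x y x' y' h1 h2 h3 h4 =>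
    QRot_edge zt φ hk h1 h2 ((hq _ _).1 h3) ((hq _ _).1 h4)
  refine ⟨Quotient s, act, e, q, ⟨⟨tr, zt.act.ne.map q, fun x a b => ?_⟩, fun x a b h1 h2 h3 => ?_⟩,
    hsurj, equi, hq, fun x y h => (eadj _ _).2 ⟨x, y, h, rfl, rfl⟩, fun x w h => ?_, hedge⟩
  · refine einv (fun w => x • w) (MulAction.bijective x) (fun a b => ⟨fun h => ?_, hadj x a b⟩) a b
    have := hadj x⁻¹ _ _ h
    simpa only [inv_smul_smul] using this
  · obtain ⟨u, v, c1, rfl, rfl⟩ := (eadj _ _).1 h1
    obtain ⟨k, -, k2, k3⟩ := hedge (σ x • u) (σ x • v) v u (by rw [zt.act.iso]; exact c1)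
      (by rw [zt.act.tr.symm]; exact c1) (by rw [equi, hσ, h2]) (by rw [equi, hσ, h3])
    exact zt.noinv (k * σ x) u v c1 (by rw [mul_smul, k2]) (by rw [mul_smul, k3])
  · obtain ⟨u, v, c1, c2, rfl⟩ := (eadj _ _).1 h
    obtain ⟨k, k1, k2⟩ := (hq _ _).1 c2
    exact ⟨k • v, by rw [← k2, zt.act.iso]; exact c1, ((hq _ _).2 ⟨k, k1, rfl⟩).symm⟩

variable {D W : Type*} [Group D] [MulAction D W] {φ : G →* D} {e : W → W → ℤ} {q : V → W}

theorem QTree.nb {K : V → Subgroup G} (h : QTree φ d e q) (r : Rot G d K)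
    (hk : ∀ k, φ k = 1 → k ∈ closure {a | ∃ w, a ∈ K w}) {w a b : V} (ha : d w a = 1)
    (hb : d w b = 1) (e' : q a = q b) : ∃ k ∈ K w, k • a = b := by
  obtain ⟨k, k1, k2, k3⟩ := h.edge w a w b ha hb rfl e'
  exact ⟨k, r.mem (hk k k1) k2, k3⟩

theorem QTree.finE (h : QTree φ d e q) (f : FinE G d) : FinE D e := by
  classical
  obtain ⟨E, hE⟩ := f
  refine ⟨E.image (Prod.map q q), fun a b ab => ?_⟩
  obtain ⟨x, rfl⟩ := h.surj a
  obtain ⟨y, h1, rfl⟩ := h.lift x b ab
  obtain ⟨g, hg⟩ := hE x y h1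
  exact ⟨φ g, Finset.mem_image.2 ⟨_, hg, by simp [h.equi]⟩⟩

theorem QTree.stab (h : QTree φ d e q) (hs : Function.Surjective φ) {x : D} {v : V}
    (e' : x • q v = q v) : ∃ g : G, φ g = x ∧ g • v = v := by
  obtain ⟨g, rfl⟩ := hs x
  rw [← h.equi] at e'
  obtain ⟨k, k1, k2⟩ := (h.eq_iff _ _).1 e'
  exact ⟨k * g, by simp [k1], by rw [mul_smul, k2]⟩

theorem QTree.estab (h : QTree φ d e q) (zt : ZTree G d) (hs : Function.Surjective φ) {x : D}
    {v w v' w' : V} (a : d v w = 1) (a' : d v' w' = 1) (e1 : x • q v = q v')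
    (e2 : x • q w = q w') : ∃ g : G, φ g = x ∧ g • v = v' ∧ g • w = w' := by
  obtain ⟨g, rfl⟩ := hs x
  rw [← h.equi] at e1 e2
  obtain ⟨k, k1, k2, k3⟩ := h.edge (g • v) (g • w) v' w' (by rw [zt.act.iso]; exact a) a' e1 e2
  exact ⟨k * g, by simp [k1], by rw [mul_smul, k2], by rw [mul_smul, k3]⟩

theorem QTree.adj_lift (h : QTree φ d e q) {a b : W} (ab : e a b = 1) :
    ∃ x y, d x y = 1 ∧ q x = a ∧ q y = b := by
  obtain ⟨x, rfl⟩ := h.surj a
  obtain ⟨y, h1, h2⟩ := h.lift x b ab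
  exact ⟨x, y, h1, rfl, h2⟩

end Pool.Agent.Work.MP_904812_al
end

-- merged part: Pool.Agent.Work.MP_904812_al.QLeaf
section
/-! Leaf trees. -/

namespace Pool.Agent.Work.MP_904812_al

set_option linter.unusedSectionVars false
set_option linter.unusedVariables false

open Subgroup MulAction

variable {G : Type} [Group G] {Ell : Set G → Prop} {Q : Set (Set G)}

variable {M : Model G Ell Q} {T : Type} [MulAction (FreeGroup M.ι) T] {d : T → T → ℤ}
  {pt : M.V → T}

/-- the leaf through `t` -/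
def QLeafL (M : Model G Ell Q) {T : Type} [MulAction (FreeGroup M.ι) T] (pt : M.V → T) (t : T) :
    Type := {p : FreeGroup M.ι × M.V // p.1 • pt p.2 = t}

instance (t : T) : MulAction (stabilizer (FreeGroup M.ι) t) (QLeafL M pt t) where
  smul a p := ⟨(a.1 * p.1.1, p.1.2), by rw [mul_smul, p.2]; exact a.2⟩
  one_smul p := Subtype.ext (Prod.ext (one_mul _) rfl)
  mul_smul a b p := Subtype.ext (Prod.ext (mul_assoc _ _ _) rfl)

theorem QLeaf_smul1 {t : T} (a : stabilizer (FreeGroup M.ι) t) (p : QLeafL M pt t) :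
    (a • p).1.1 = a.1 * p.1.1 := rfl

theorem QLeaf_smul2 {t : T} (a : stabilizer (FreeGroup M.ι) t) (p : QLeafL M pt t) :
    (a • p).1.2 = p.1.2 := rfl

/-- joined by a core path -/
def QLeafS (M : Model G Ell Q) {T : Type} [MulAction (FreeGroup M.ι) T] (pt : M.V → T) (t : T) :
    Setoid (QLeafL M pt t) where
  r p p' := WPath M.core p.1.2 (p'.1.1⁻¹ * p.1.1) p'.1.2
  iseqv := ⟨fun p => by rw [inv_mul_cancel]; exact .nil, fun h => by simpa using h.symm,
    fun h h' => by simpa [mul_assoc] using h.trans h'⟩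

/-- the core components of a leaf -/
def QLeafW (M : Model G Ell Q) {T : Type} [MulAction (FreeGroup M.ι) T] (pt : M.V → T) (t : T) :
    Type := Quotient (QLeafS M pt t)

/-- the component of a point -/
def QLeafMk {t : T} (p : QLeafL M pt t) : QLeafW M pt t := Quotient.mk _ p

theorem QLeaf_eq {t : T} {p p' : QLeafL M pt t} :
    QLeafMk p = QLeafMk p' ↔ WPath M.core p.1.2 (p'.1.1⁻¹ * p.1.1) p'.1.2 :=
  Quotient.eq (r := QLeafS M pt t)

theorem QLeaf_ex {t : T} (u : QLeafW M pt t) : ∃ p, u = QLeafMk p :=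
  Quotient.inductionOn u fun p => ⟨p, rfl⟩

instance (t : T) : MulAction (stabilizer (FreeGroup M.ι) t) (QLeafW M pt t) where
  smul a := Quotient.map (a • ·) fun p p' h => by
    have h' : WPath M.core p.1.2 (p'.1.1⁻¹ * p.1.1) p'.1.2 := h
    change WPath M.core p.1.2 ((a.1 * p'.1.1)⁻¹ * (a.1 * p.1.1)) p'.1.2
    simpa [mul_assoc] using h'
  one_smul u := Quotient.inductionOn u fun p => congrArg (Quotient.mk _) (one_smul _ p)
  mul_smul a b u := Quotient.inductionOn u fun p => congrArg (Quotient.mk _) (mul_smul a b p)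

theorem QLeaf_smul {t : T} (a : stabilizer (FreeGroup M.ι) t) (p : QLeafL M pt t) :
    a • QLeafMk p = QLeafMk (a • p) := rfl

/-- a step that is not a core step -/
def QLeafSt {t : T} (p p' : QLeafL M pt t) (i : M.ι) : Prop :=
  p.1.1 = p'.1.1 * FreeGroup.of i ∧ ¬ M.core i p.1.2 p'.1.2

/-- such a step in either direction -/
def QLeafN {t : T} (p p' : QLeafL M pt t) : Prop := ∃ i, QLeafSt p p' i ∨ QLeafSt p' p i

/-- adjacency of components -/
def QLeafA {t : T} (u v : QLeafW M pt t) : Prop :=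
  ∃ p p', QLeafN p p' ∧ u = QLeafMk p ∧ v = QLeafMk p'

theorem QLeafN.symm {t : T} {p p' : QLeafL M pt t} (h : QLeafN p p') : QLeafN p' p :=
  ⟨h.choose, h.choose_spec.symm⟩

theorem QLeafN.smul {t : T} {p p' : QLeafL M pt t} (h : QLeafN p p')
    (a : stabilizer (FreeGroup M.ι) t) : QLeafN (a • p) (a • p') := by
  obtain ⟨i, h | h⟩ := h
  · exact ⟨i, Or.inl ⟨by rw [QLeaf_smul1, QLeaf_smul1, h.1, mul_assoc], h.2⟩⟩
  · exact ⟨i, Or.inr ⟨by rw [QLeaf_smul1, QLeaf_smul1, h.1, mul_assoc], h.2⟩⟩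

theorem QLeafA.symm {t : T} {u v : QLeafW M pt t} (h : QLeafA u v) : QLeafA v u := by
  obtain ⟨p, p', h, h1, h2⟩ := h
  exact ⟨p', p, h.symm, h2, h1⟩

theorem QLeafA.smul {t : T} {u v : QLeafW M pt t} (h : QLeafA u v)
    (a : stabilizer (FreeGroup M.ι) t) : QLeafA (a • u) (a • v) := by
  obtain ⟨p, p', h, rfl, rfl⟩ := h
  exact ⟨a • p, a • p', h.smul a, rfl, rfl⟩

theorem Hat.QLeaf_inj (h : Hat M d pt) {η : FreeGroup M.ι} {z z' : M.V}
    (e : η • pt z = η • pt z') : z = z' := by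
  apply M.tr.eq_of
  rw [← h.iso, smul_left_cancel η e, h.zt.act.tr.self]

theorem Hat.QLeaf_ext (h : Hat M d pt) {t : T} {p p' : QLeafL M pt t} (e : p.1.1 = p'.1.1) :
    p = p' :=
  Subtype.ext (Prod.ext e (h.QLeaf_inj (η := p.1.1) (by rw [p.2, e, p'.2])))

theorem Hat.QLeaf_on (h : Hat M d pt) {t : T} {η c : FreeGroup M.ι} {z z' : M.V}
    (e : η • pt z = t) (p : WPath M.R z c z') : (η * c⁻¹) • pt z' = t := by
  rw [← (h.path _ _ _).2 p, mul_smul, inv_smul_smul, e]

theorem Hat.QLeaf_ind (h : Hat M d pt) {t : T} {R : M.ι → M.V → M.V → Prop}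
    (hR : ∀ i a b, R i a b → M.R i a b) (P : QLeafL M pt t → Prop)
    (st : ∀ p p' i, p.1.1 = p'.1.1 * FreeGroup.of i → R i p.1.2 p'.1.2 → (P p ↔ P p'))
    {p₀ : QLeafL M pt t} (h0 : P p₀) {c : FreeGroup M.ι} {z : M.V} (w : WPath R p₀.1.2 c z) :
    ∀ p : QLeafL M pt t, p.1.1 = p₀.1.1 * c⁻¹ → P p := by
  induction w with
  | nil => intro p e; rw [h.QLeaf_ext (p := p) (p' := p₀) (by simpa using e)]; exact h0
  | @fwd ω y z i w r ih =>
    intro p e
    have e1 := h.QLeaf_on p₀.2 (w.mono hR)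
    have e2 := h.QLeaf_on p₀.2 ((WPath.fwd w r).mono hR)
    obtain rfl : p = ⟨(_, z), e2⟩ := h.QLeaf_ext e
    exact (st ⟨(_, y), e1⟩ _ i (by simp [mul_assoc]) r).1 (ih _ rfl)
  | @bwd ω y z i w r ih =>
    intro p e
    have e1 := h.QLeaf_on p₀.2 (w.mono hR)
    have e2 := h.QLeaf_on p₀.2 ((WPath.bwd w r).mono hR)
    obtain rfl : p = ⟨(_, z), e2⟩ := h.QLeaf_ext e
    exact (st _ ⟨(_, y), e1⟩ i (by simp [mul_assoc]) r).2 (ih _ rfl)

theorem QLeaf_core {t : T} {p p' : QLeafL M pt t} {i : M.ι}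
    (e : p.1.1 = p'.1.1 * FreeGroup.of i) (c : M.core i p.1.2 p'.1.2) :
    QLeafMk p = QLeafMk p' := by
  rw [QLeaf_eq, e, inv_mul_cancel_left]
  simpa using WPath.fwd WPath.nil c

theorem Hat.QLeaf_conn (h : Hat M d pt) {t : T} (u v : QLeafW M pt t) :
    Relation.ReflTransGen QLeafA u v := by
  obtain ⟨p, rfl⟩ := QLeaf_ex u
  obtain ⟨p', rfl⟩ := QLeaf_ex v
  have w : WPath M.R p.1.2 (p'.1.1⁻¹ * p.1.1) p'.1.2 := (h.path _ _ _).1 (by
    rw [mul_smul, p.2, inv_smul_eq_iff, p'.2])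
  refine h.QLeaf_ind (fun _ _ _ r => r)
    (fun a => Relation.ReflTransGen QLeafA (QLeafMk p) (QLeafMk a)) (fun a a' i e _ => ?_)
    .refl w p' (by simp)
  by_cases c : M.core i a.1.2 a'.1.2
  · rw [QLeaf_core e c]
  · have : QLeafA (QLeafMk a) (QLeafMk a') := ⟨a, a', ⟨i, Or.inl ⟨e, c⟩⟩, rfl, rfl⟩
    exact ⟨fun k => k.tail this, fun k => k.tail this.symm⟩

theorem Hat.QLeaf_pot (h : Hat M d pt) {t : T} {a a' : QLeafL M pt t} {i : M.ι}
    (s : QLeafSt a a' i) : ∃ Φ : QLeafW M pt t → Multiplicative (ZMod 2),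
      Φ (QLeafMk a) ≠ Φ (QLeafMk a') ∧ ∀ b b' j, QLeafSt b b' j →
        Φ (QLeafMk b) = Φ (QLeafMk b') ∨ (b = a ∧ b' = a') := by
  classical
  obtain ⟨Φ, -, hΦ⟩ := free_exact (Γ := Multiplicative (ZMod 2))
    fun ω j => if ω = a'.1.1 ∧ j = i then Multiplicative.ofAdd 1 else 1
  have key : ∀ (b b' : QLeafL M pt t) j, b.1.1 = b'.1.1 * FreeGroup.of j →
      Φ b.1.1 = Φ b'.1.1 ∨ (b = a ∧ b' = a' ∧ j = i) := by
    intro b b' j e
    by_cases q : b'.1.1 = a'.1.1 ∧ j = i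
    · exact Or.inr ⟨h.QLeaf_ext (by rw [e, s.1, q.1, q.2]), h.QLeaf_ext q.1, q.2⟩
    · left
      rw [e, hΦ, if_neg q, one_mul]
  refine ⟨Quotient.lift (fun p => Φ p.1.1) fun p p' w => ?_, ?_, fun b b' j r => ?_⟩
  · have w' : WPath M.core p.1.2 (p'.1.1⁻¹ * p.1.1) p'.1.2 := w
    refine h.QLeaf_ind M.core_le (fun b => Φ p.1.1 = Φ b.1.1) (fun b b' j e c => ?_) rfl w' p'
      (by simp)
    rcases key b b' j e with q | ⟨rfl, rfl, rfl⟩
    · rw [q]
    · exact absurd c s.2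
  · show Φ a.1.1 ≠ Φ a'.1.1
    rw [s.1, hΦ, if_pos ⟨rfl, rfl⟩]
    intro e
    exact absurd (mul_eq_right.1 e) (by decide)
  · rcases key b b' j r.1 with q | ⟨q1, q2, -⟩
    · exact Or.inl q
    · exact Or.inr ⟨q1, q2⟩

theorem Hat.QLeaf_pot' (h : Hat M d pt) {t : T} {a a' : QLeafL M pt t}
    (s : QLeafN a a') : ∃ Φ : QLeafW M pt t → Multiplicative (ZMod 2),
      Φ (QLeafMk a) ≠ Φ (QLeafMk a') ∧ ∀ b b', QLeafN b b' →
        Φ (QLeafMk b) = Φ (QLeafMk b') ∨ (b = a ∧ b' = a') ∨ (b = a' ∧ b' = a) := by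
  obtain ⟨i, s | s⟩ := s
  · obtain ⟨Φ, h1, h2⟩ := h.QLeaf_pot s
    refine ⟨Φ, h1, ?_⟩
    rintro b b' ⟨j, r | r⟩
    · have := h2 _ _ _ r
      tauto
    · have := h2 _ _ _ r
      rcases this with q | q
      · exact Or.inl q.symm
      · tauto
  · obtain ⟨Φ, h1, h2⟩ := h.QLeaf_pot s
    refine ⟨Φ, h1.symm, ?_⟩
    rintro b b' ⟨j, r | r⟩
    · have := h2 _ _ _ r
      tauto
    · have := h2 _ _ _ r
      rcases this with q | q
      · exact Or.inl q.symm
      · tauto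

theorem Hat.QLeaf_uniq (h : Hat M d pt) {t : T} {a a' b b' : QLeafL M pt t} (s : QLeafN a a')
    (r : QLeafN b b') (e : QLeafMk b = QLeafMk a) (e' : QLeafMk b' = QLeafMk a') :
    b = a ∧ b' = a' := by
  obtain ⟨Φ, h1, h2⟩ := h.QLeaf_pot' s
  rcases h2 b b' r with q | q | ⟨rfl, rfl⟩
  · rw [e, e'] at q
    exact absurd q h1
  · exact q
  · exact absurd (congrArg Φ e') h1

theorem QLeaf_free {t : T} {k : stabilizer (FreeGroup M.ι) t} {p : QLeafL M pt t}
    (e : k • p = p) : k = 1 := by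
  have := congrArg (fun a : QLeafL M pt t => a.1.1) e
  exact Subtype.ext (mul_eq_right.1 this)

theorem Hat.QLeaf_tree (h : Hat M d pt) (t : T) : ∃ D : QLeafW M pt t → QLeafW M pt t → ℤ,
    ZTree (stabilizer (FreeGroup M.ι) t) D ∧ TrivE (stabilizer (FreeGroup M.ι) t) D ∧
      ∀ u v, D u v = 1 ↔ QLeafA u v := by
  obtain ⟨D, htr, hadj, hiso⟩ := tr_of_walls (QLeafA (t := t) (pt := pt)) (fun _ _ => QLeafA.symm)
    h.QLeaf_conn (by
      rintro _ _ ⟨a, a', s, rfl, rfl⟩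
      obtain ⟨Φ, h1, h2⟩ := h.QLeaf_pot' s
      refine ⟨fun u => Φ u = Φ (QLeafMk a), rfl, h1.symm, ?_⟩
      rintro _ _ ⟨b, b', r, rfl, rfl⟩
      rcases h2 b b' r with q | ⟨rfl, rfl⟩ | ⟨rfl, rfl⟩
      · left; simp only [q]
      · exact Or.inr (Or.inl ⟨rfl, rfl⟩)
      · exact Or.inr (Or.inr ⟨rfl, rfl⟩))
  obtain ⟨ω, x, e⟩ := h.cover t
  refine ⟨D, ⟨⟨htr, ⟨QLeafMk ⟨(ω, x), e.symm⟩⟩, fun g => hiso _ (MulAction.bijective g)
    fun a b => ⟨fun k => ?_, fun k => k.smul g⟩⟩, fun g u v k e1 e2 => ?_⟩,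
    fun u v k g e1 e2 => ?_, hadj⟩
  · simpa using k.smul g⁻¹
  · obtain ⟨a, a', s, rfl, rfl⟩ := (hadj _ _).1 k
    obtain ⟨q1, q2⟩ := h.QLeaf_uniq s (s.symm.smul g) e2 e1
    obtain ⟨i, r | r⟩ := s
    · have k1 := congrArg (fun a : QLeafL M pt t => a.1.1) q1
      have k2 := congrArg (fun a : QLeafL M pt t => a.1.1) q2
      simp only [QLeaf_smul1, r.1] at k1 k2
      rw [← mul_assoc, k1, mul_assoc, mul_eq_left] at k2
      have := congrArg (FreeGroup.lift fun _ : M.ι => Multiplicative.ofAdd (1 : ℤ)) k2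
      simp only [map_mul, FreeGroup.lift_apply_of, map_one] at this
      exact absurd this (by decide)
    · have k1 := congrArg (fun a : QLeafL M pt t => a.1.1) q1
      have k2 := congrArg (fun a : QLeafL M pt t => a.1.1) q2
      simp only [QLeaf_smul1, r.1] at k1 k2
      rw [← mul_assoc, k2, mul_assoc, mul_eq_left] at k1
      have := congrArg (FreeGroup.lift fun _ : M.ι => Multiplicative.ofAdd (1 : ℤ)) k1
      simp only [map_mul, FreeGroup.lift_apply_of, map_one] at this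
      exact absurd this (by decide)
  · obtain ⟨a, a', s, rfl, rfl⟩ := (hadj _ _).1 k
    exact QLeaf_free (h.QLeaf_uniq s (s.smul g) e1 e2).1

theorem Hat.QLeaf_gen (h : Hat M d pt) {t : T} {η c : FreeGroup M.ι} {y : M.V}
    (e : η • pt y = t) (w : WPath M.core y c y) : η * c * η⁻¹ ∈ stabilizer (FreeGroup M.ι) t := by
  rw [mem_stabilizer_iff, ← e, mul_smul, inv_smul_smul, mul_smul,
    (h.path _ _ _).2 (w.mono M.core_le)]

theorem Hat.QLeaf_quot (h : Hat M d pt) (t : T) {H : Type} [Group H]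
    (φ : stabilizer (FreeGroup M.ι) t →* H) (hk : ∀ a, φ a = 1 ↔ a.1 ∈ M.K pt t)
    (k : stabilizer (FreeGroup M.ι) t) (e : φ k = 1) :
    k ∈ closure {k : stabilizer (FreeGroup M.ι) t | φ k = 1 ∧ ∃ v : QLeafW M pt t, k • v = v} := by
  have : M.K pt t ≤ (closure {k : stabilizer (FreeGroup M.ι) t | φ k = 1 ∧
      ∃ v : QLeafW M pt t, k • v = v}).map (stabilizer (FreeGroup M.ι) t).subtype := by
    rw [Model.K, closure_le]
    rintro n ⟨η, c, y, e1, w, e2, rfl⟩
    refine ⟨⟨_, h.QLeaf_gen e1 w⟩, subset_closure ⟨(hk _).2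
      (subset_closure ⟨η, c, y, e1, w, e2, rfl⟩), QLeafMk ⟨(η, y), e1⟩, ?_⟩, rfl⟩
    rw [QLeaf_smul, QLeaf_eq]
    simpa [QLeaf_smul1, QLeaf_smul2, mul_assoc] using w
  obtain ⟨k', h1, h2⟩ := this ((hk k).1 e)
  rwa [← Subtype.ext h2]

theorem Hat.leaf (h : Hat M d pt) (t : T) {H : Type} [Group H]
    (φ : stabilizer (FreeGroup M.ι) t →* H) (hs : Function.Surjective φ)
    (hk : ∀ a, φ a = 1 ↔ a.1 ∈ M.K pt t) :
    ∃ (W : Type) (_ : MulAction H W) (e : W → W → ℤ), ZTree H e ∧ TrivE H e ∧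
      ∀ w : W, ∃ (η : FreeGroup M.ι) (z : M.V), ∀ x : H, x • w = w →
        ∃ (a : stabilizer (FreeGroup M.ι) t) (c : FreeGroup M.ι), φ a = x ∧
          WPath M.core z c z ∧ a.1 = η * c * η⁻¹ := by
  obtain ⟨D, zt, tv, -⟩ := h.QLeaf_tree t
  obtain ⟨W, j, e, q, hq⟩ := quot_tree zt φ hs (h.QLeaf_quot t φ hk)
  refine ⟨W, j, e, hq.zt, fun a b ab x e1 e2 => ?_, fun w => ?_⟩
  · obtain ⟨u, v, uv, rfl, rfl⟩ := hq.adj_lift ab
    obtain ⟨g, rfl, g1, g2⟩ := hq.estab zt hs uv uv e1 e2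
    rw [tv u v uv g g1 g2, map_one]
  · obtain ⟨u, rfl⟩ := hq.surj w
    obtain ⟨p, rfl⟩ := QLeaf_ex u
    refine ⟨p.1.1, p.1.2, fun x e1 => ?_⟩
    obtain ⟨g, g1, g2⟩ := hq.stab hs e1
    rw [QLeaf_smul, QLeaf_eq] at g2
    exact ⟨g, _, g1, g2, by simp [QLeaf_smul1, mul_assoc]⟩

theorem QLeaf_kill {t : T} {n : FreeGroup M.ι} (hn : n ∈ M.K pt t) :
    FreeGroup.lift M.lab n = 1 := by
  have : M.K pt t ≤ (FreeGroup.lift M.lab).ker := by
    rw [Model.K, closure_le]
    rintro n ⟨η, c, y, -, -, e, rfl⟩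
    simp [MonoidHom.mem_ker, e]
  exact this hn

theorem Hat.QLeaf_le (h : Hat M d pt) (t : T) : M.K pt t ≤ stabilizer (FreeGroup M.ι) t := by
  rw [Model.K, closure_le]
  rintro n ⟨η, c, y, e1, w, -, rfl⟩
  exact h.QLeaf_gen e1 w

theorem QLeaf_normal (t : T) : ((M.K pt t).subgroupOf (stabilizer (FreeGroup M.ι) t)).Normal := by
  refine ⟨fun n hn a => ?_⟩
  have : M.K pt t ≤ (M.K pt t).comap (MulAut.conj a.1).toMonoidHom := by
    rw [Model.K, closure_le]
    rintro n ⟨η, c, y, e1, w, e2, rfl⟩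
    exact subset_closure ⟨a.1 * η, c, y, by rw [mul_smul, e1]; exact a.2, w, e2, by
      simp [mul_assoc]⟩
  exact this hn

/-- joined by a core path that carries the point `t'` along -/
def QLeafC {t : T} (t' : T) (p p' : QLeafL M pt t) : Prop :=
  ∃ z z', p.1.1 • pt z = t' ∧ p'.1.1 • pt z' = t' ∧
    WPath (fun i (a b : M.V × M.V) => M.core i a.1 b.1 ∧
      BR M.D (M.u i) (M.v i) (M.u' i) (M.v' i) a.2 b.2) (p.1.2, z) (p'.1.1⁻¹ * p.1.1) (p'.1.2, z')

theorem QLeaf_fst {ι V : Type*} {R R' : ι → V → V → Prop} {a b : V × V} {c : FreeGroup ι}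
    (w : WPath (fun i (a b : V × V) => R i a.1 b.1 ∧ R' i a.2 b.2) a c b) :
    WPath R a.1 c b.1 ∧ WPath R' a.2 c b.2 := by
  induction w with
  | nil => exact ⟨.nil, .nil⟩
  | fwd _ r ih => exact ⟨ih.1.fwd r.1, ih.2.fwd r.2⟩
  | bwd _ r ih => exact ⟨ih.1.bwd r.1, ih.2.bwd r.2⟩

theorem QLeafC.eq {t t' : T} {p p' : QLeafL M pt t} (c : QLeafC t' p p') :
    QLeafMk p = QLeafMk p' := by
  obtain ⟨z, z', -, -, w⟩ := c
  exact QLeaf_eq.2 (QLeaf_fst w).1

theorem Hat.QLeaf_trans (h : Hat M d pt) {t t' : T} {p p' p'' : QLeafL M pt t}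
    (c : QLeafC t' p p') (c' : QLeafC t' p' p'') : QLeafC t' p p'' := by
  obtain ⟨z, z', e1, e2, w⟩ := c
  obtain ⟨y, y', e3, e4, w'⟩ := c'
  obtain rfl : z' = y := h.QLeaf_inj (e2.trans e3.symm)
  exact ⟨z, y', e1, e4, by simpa [mul_assoc] using w.trans w'⟩

theorem QLeaf_refl {t t' : T} {p : QLeafL M pt t} {z : M.V} (e : p.1.1 • pt z = t') :
    QLeafC t' p p := ⟨z, z, e, e, by rw [inv_mul_cancel]; exact .nil⟩

theorem Hat.QLeaf_rigid (h : Hat M d pt) {t t' : T} (tt : d t t' = 1) {p : QLeafL M pt t}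
    {k : stabilizer (FreeGroup M.ι) t} (hk : k.1 ∈ M.K pt t) (c : QLeafC t' (k • p) p) :
    k = 1 := by
  obtain ⟨z, z', e1, e2, w⟩ := c
  have e3 : M.D p.1.2 z = 1 := by
    rw [← h.iso, ← h.zt.act.iso (k • p).1.1, e1, ← tt]
    exact congrArg (d · t') (k • p).2
  have := (M.ind _ _ _ _ e3 w (by simp [QLeaf_smul1, QLeaf_kill hk])).1
  rw [QLeaf_smul1, inv_mul_eq_one] at this
  exact Subtype.ext (mul_eq_right.1 this.symm)

/-- reached along a geodesic of the quotient tree -/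
def QLeafG {t : T} (t' : T) (p₀ : QLeafL M pt t) (f : QLeafL M pt t → ℤ) :
    ℕ → QLeafL M pt t → Prop
  | 0, p => QLeafC t' p₀ p
  | m + 1, p => ∃ p₁ p₂, QLeafG t' p₀ f m p₁ ∧ QLeafN p₁ p₂ ∧ QLeafC t' p₂ p ∧ f p₂ = m + 1

theorem Hat.QLeaf_G (h : Hat M d pt) {t t' : T} {p₀ p p' : QLeafL M pt t}
    {f : QLeafL M pt t → ℤ} {m : ℕ} (g : QLeafG t' p₀ f m p) (c : QLeafC t' p p') :
    QLeafG t' p₀ f m p' := by
  cases m with
  | zero => exact h.QLeaf_trans g c
  | succ m =>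
    obtain ⟨p₁, p₂, a1, a2, a3, a4⟩ := g
    exact ⟨p₁, p₂, a1, a2, h.QLeaf_trans a3 c, a4⟩

theorem Hat.nofold (h : Hat M d pt) {ω n : FreeGroup M.ι} {x y y' : M.V}
    (hn : n ∈ M.K pt (ω • pt x)) (hy : M.D x y = 1) (e : n • ω • pt y = ω • pt y') : n = 1 := by
  generalize ht : ω • pt x = t at hn
  have := QLeaf_normal (M := M) (pt := pt) t
  let φ := QuotientGroup.mk' ((M.K pt t).subgroupOf (stabilizer (FreeGroup M.ι) t))
  have hk : ∀ a, φ a = 1 ↔ a.1 ∈ M.K pt t := fun a => QuotientGroup.eq_one_iff a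
  obtain ⟨D, zt, -, hadj⟩ := h.QLeaf_tree t
  obtain ⟨W, j, E, q, hq⟩ := quot_tree zt φ (QuotientGroup.mk'_surjective _)
    (h.QLeaf_quot t φ hk)
  have TE := hq.zt.act.tr
  let n' : stabilizer (FreeGroup M.ι) t := ⟨n, h.QLeaf_le t hn⟩
  let pe : QLeafL M pt t := ⟨(ω, x), ht⟩
  let p₀ := n' • pe
  let f : QLeafL M pt t → ℤ := fun p => E (q (QLeafMk p₀)) (q (QLeafMk p))
  generalize ht' : ω • pt y' = t' at e
  have e0 : p₀.1.1 • pt y = t' := by rw [← e, ← mul_smul]; rfl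
  have tt : d t t' = 1 := by
    have k := h.zt.act.iso p₀.1.1 (pt x) (pt y)
    rw [h.iso, hy, e0] at k
    rw [← k]
    exact congrArg (d · t') p₀.2.symm
  have lA : ∀ m p, QLeafG t' p₀ f m p → f p = m := by
    intro m p g
    cases m with
    | zero => simp only [f, ← QLeafC.eq g, TE.self]; rfl
    | succ m =>
      obtain ⟨p₁, p₂, -, -, a3, a4⟩ := g
      simp only [f, ← a3.eq] at a4 ⊢
      rw [a4]; push_cast; rfl
  have ad : ∀ p p' : QLeafL M pt t, QLeafN p p' → D (QLeafMk p) (QLeafMk p') = 1 :=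
    fun p p' s => (hadj _ _).2 ⟨p, p', s, rfl, rfl⟩
  have lC : ∀ m p p' z, QLeafG t' p₀ f m p → QLeafN p p' → p'.1.1 • pt z = t' →
      ∃ m', QLeafG t' p₀ f m' p' := by
    intro m p p' z g s o
    have a := hq.adj _ _ (ad p p' s)
    have fm := lA m p g
    rcases TE.adj_cases a (q (QLeafMk p₀)) with k | k
    · exact ⟨m + 1, p, p', g, s, QLeaf_refl o, by rw [← fm]; exact k⟩
    have nn := TE.nonneg (q (QLeafMk p₀)) (q (QLeafMk p'))
    cases m with
    | zero => simp only [f] at fm; omega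
    | succ m =>
      obtain ⟨p₁, p₂, a1, a2, a3, -⟩ := g
      have f1 := lA m p₁ a1
      have a' := hq.adj _ _ (ad p₁ p₂ a2)
      rw [a3.eq] at a'
      have a'' := TE.symm (q (QLeafMk p)) (q (QLeafMk p'))
      simp only [f] at fm f1
      have eq : q (QLeafMk p₁) = q (QLeafMk p') :=
        TE.bt_uniq (x := q (QLeafMk p₀)) (y := q (QLeafMk p)) (by simp only [Bt]; omega)
          (by simp only [Bt]; omega) (by omega)
      obtain ⟨k, k1, k2, k3⟩ := hq.edge _ _ _ _ (ad p' p s.symm) (ad p₁ p₂ a2) eq.symm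
        (congrArg q a3.eq.symm)
      obtain ⟨q1, q2⟩ := h.QLeaf_uniq a2 (s.symm.smul k) k2 k3
      have : k = 1 := h.QLeaf_rigid tt ((hk k).1 k1) (by rw [q2]; exact a3)
      rw [this, one_smul] at q1
      exact ⟨m, q1 ▸ a1⟩
  have lD : ∀ (c : FreeGroup M.ι) (b : M.V × M.V),
      WPath (fun i (a b : M.V × M.V) => M.R i a.1 b.1 ∧ M.R i a.2 b.2) (x, y) c b →
      ∀ p : QLeafL M pt t, p.1.1 = p₀.1.1 * c⁻¹ → ∃ m, QLeafG t' p₀ f m p := by
    intro c b w
    induction w with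
    | nil =>
      intro p e
      rw [h.QLeaf_ext (p := p) (p' := p₀) (by simpa using e)]
      exact ⟨0, QLeaf_refl e0⟩
    | @fwd c a b i w r ih =>
      intro p e
      have e1 := h.QLeaf_on p₀.2 (QLeaf_fst w).1
      have e2 := h.QLeaf_on p₀.2 (QLeaf_fst (WPath.fwd w r)).1
      have e3 := h.QLeaf_on e0 (QLeaf_fst w).2
      have e4 := h.QLeaf_on e0 (QLeaf_fst (WPath.fwd w r)).2
      obtain rfl : p = ⟨(_, b.1), e2⟩ := h.QLeaf_ext e
      obtain ⟨m, g⟩ := ih ⟨(_, a.1), e1⟩ rfl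
      by_cases cc : M.core i a.1 b.1
      · refine ⟨m, h.QLeaf_G g ⟨a.2, b.2, e3, e4, ?_⟩⟩
        simpa [mul_assoc] using WPath.fwd (R := fun i (a b : M.V × M.V) => M.core i a.1 b.1 ∧
          BR M.D (M.u i) (M.v i) (M.u' i) (M.v' i) a.2 b.2) WPath.nil ⟨cc, r.2⟩
      · exact lC m _ _ b.2 g ⟨i, Or.inl ⟨by simp [mul_assoc], cc⟩⟩ e4
    | @bwd c a b i w r ih =>
      intro p e
      have e1 := h.QLeaf_on p₀.2 (QLeaf_fst w).1
      have e2 := h.QLeaf_on p₀.2 (QLeaf_fst (WPath.bwd w r)).1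
      have e3 := h.QLeaf_on e0 (QLeaf_fst w).2
      have e4 := h.QLeaf_on e0 (QLeaf_fst (WPath.bwd w r)).2
      obtain rfl : p = ⟨(_, b.1), e2⟩ := h.QLeaf_ext e
      obtain ⟨m, g⟩ := ih ⟨(_, a.1), e1⟩ rfl
      by_cases cc : M.core i b.1 a.1
      · refine ⟨m, h.QLeaf_G g ⟨a.2, b.2, e3, e4, ?_⟩⟩
        simpa [mul_assoc] using WPath.bwd (R := fun i (a b : M.V × M.V) => M.core i a.1 b.1 ∧
          BR M.D (M.u i) (M.v i) (M.u' i) (M.v' i) a.2 b.2) WPath.nil ⟨cc, r.2⟩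
      · exact lC m _ _ b.2 g ⟨i, Or.inr ⟨by simp [mul_assoc], cc⟩⟩ e4
  have w := h.epath (ω⁻¹ * (n * ω)) x y x y'
    (by rw [mul_smul, inv_smul_eq_iff, ht]; exact p₀.2)
    (by rw [mul_smul, inv_smul_eq_iff, ht']; exact e0)
  obtain ⟨m, g⟩ := lD _ _ w pe (by simp [p₀, pe, n', QLeaf_smul1, mul_assoc])
  have fm := lA m pe g
  have : q (QLeafMk p₀) = q (QLeafMk pe) := by
    rw [← QLeaf_smul, hq.equi, (hk n').2 hn, one_smul]
  simp only [f, this, TE.self] at fm
  obtain rfl : m = 0 := by omega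
  exact congrArg Subtype.val (h.QLeaf_rigid tt (k := n') hn g)

end Pool.Agent.Work.MP_904812_al
end

-- merged part: Pool.Agent.Work.MP_904812_al.QLa3
section
/-! Isolated components. -/

namespace Pool.Agent.Work.MP_904812_al

set_option linter.unusedSectionVars false
set_option linter.unusedVariables false

open Subgroup MulAction

variable {G : Type*} [Group G]

theorem QLa3_flat (ℓ : ℕ → ℕ) (n : ℕ) : ∃ I a : ℕ → ℕ,
    (∀ t, t < ∑ i ∈ Finset.range n, ℓ i → I t < n ∧ a t < ℓ (I t)) ∧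
    (∀ f : ℕ → ℕ → ℕ, ∑ t ∈ Finset.range (∑ i ∈ Finset.range n, ℓ i), f (I t) (a t) =
      ∑ i ∈ Finset.range n, ∑ b ∈ Finset.range (ℓ i), f i b) ∧
    ∀ γ : ℕ → ℕ → G, (∀ i, i < n → γ i (ℓ i) = γ (i + 1) 0) → ∃ γ' : ℕ → G, γ' 0 = γ 0 0 ∧
      γ' (∑ i ∈ Finset.range n, ℓ i) = γ n 0 ∧ ∀ t, t < ∑ i ∈ Finset.range n, ℓ i →
        γ' t = γ (I t) (a t) ∧ γ' (t + 1) = γ (I t) (a t + 1) := by
  induction n with
  | zero => exact ⟨id, id, by simp, by simp, fun γ _ => ⟨fun _ => γ 0 0, rfl, rfl, by simp⟩⟩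
  | succ n ih =>
    obtain ⟨I, a, h1, h2, h3⟩ := ih
    set N := ∑ i ∈ Finset.range n, ℓ i with hN
    have e : ∑ i ∈ Finset.range (n + 1), ℓ i = N + ℓ n := Finset.sum_range_succ _ _
    refine ⟨fun t => if t < N then I t else n, fun t => if t < N then a t else t - N, ?_, ?_, ?_⟩
    · intro t ht
      rw [e] at ht
      by_cases h : t < N
      · simp only [h, if_true]; have := h1 t h; exact ⟨by omega, this.2⟩
      · simp only [h, if_false]; omega
    · intro f
      rw [e, Finset.sum_range_add, Finset.sum_range_succ, ← h2 f]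
      congr 1
      · exact Finset.sum_congr rfl fun t ht => by simp only [Finset.mem_range.1 ht, if_true]
      · exact Finset.sum_congr rfl fun t _ => by
          have : ¬ N + t < N := by omega
          simp only [this, if_false, Nat.add_sub_cancel_left]
    · intro γ hγ
      obtain ⟨γ', a1, a2, a3⟩ := h3 γ fun i hi => hγ i (by omega)
      have key : ∀ t, N ≤ t → (if t ≤ N then γ' t else γ n (t - N)) = γ n (t - N) := by
        intro t ht
        split_ifs with h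
        · have : t = N := by omega
          rw [this, a2, Nat.sub_self]
        · rfl
      refine ⟨fun t => if t ≤ N then γ' t else γ n (t - N), by simp [a1], ?_, fun t ht => ?_⟩
      · rw [e]
        beta_reduce
        rw [key (N + ℓ n) (by omega), Nat.add_sub_cancel_left, hγ n (by omega)]
      · by_cases h : t < N
        · have b1 : t ≤ N := by omega
          have b2 : t + 1 ≤ N := by omega
          simp only [h, b1, b2, if_true]
          exact a3 t h
        · simp only [h, if_false]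
          rw [key t (by omega), key (t + 1) (by omega)]
          exact ⟨rfl, by congr 1; omega⟩

theorem QLa3_mc {S : Set G} (hS : closure S = ⊤) (L : ℕ) (c x0 : G)
    (hc : ∀ a : ℤ, a.natAbs ≤ L * wlen S (c ^ a)) :
    ∃ h : G → ℝ, (∀ x y, |h x - h y| ≤ L * wlen S (x⁻¹ * y)) ∧ ∀ a : ℤ, h (x0 * c ^ a) = a := by
  have hL0 : (0 : ℝ) ≤ L := Nat.cast_nonneg _
  have hc' : ∀ a : ℤ, |(a : ℝ)| ≤ L * wlen S (c ^ a) := fun a => by
    have h1 : ((a.natAbs : ℕ) : ℝ) ≤ L * wlen S (c ^ a) := by exact_mod_cast hc a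
    rwa [Nat.cast_natAbs, Int.cast_abs] at h1
  have hb : ∀ y, BddBelow (Set.range fun a : ℤ =>
      (a : ℝ) + L * wlen S ((x0 * c ^ a)⁻¹ * y)) := fun y => by
    refine ⟨-(L * wlen S (x0⁻¹ * y)), ?_⟩
    rintro _ ⟨a, rfl⟩
    have h1 := QLa1_tri hS x0 y (x0 * c ^ a)
    rw [inv_mul_cancel_left, QLa1_symm y] at h1
    have h2 : (wlen S (c ^ a) : ℝ) ≤ wlen S (x0⁻¹ * y) + wlen S ((x0 * c ^ a)⁻¹ * y) := by
      exact_mod_cast h1
    have h3 := mul_le_mul_of_nonneg_left h2 hL0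
    have h4 := (abs_le.1 (hc' a)).1
    beta_reduce
    linarith
  have lip : ∀ x y, (⨅ a : ℤ, ((a : ℝ) + L * wlen S ((x0 * c ^ a)⁻¹ * x))) ≤
      (⨅ a : ℤ, ((a : ℝ) + L * wlen S ((x0 * c ^ a)⁻¹ * y))) + L * wlen S (x⁻¹ * y) := by
    intro x y
    rw [← sub_le_iff_le_add]
    refine le_ciInf fun a => ?_
    have h1 := ciInf_le (hb x) a
    have h2 := QLa1_tri hS (x0 * c ^ a) y x
    rw [QLa1_symm y x] at h2
    have h3 : (wlen S ((x0 * c ^ a)⁻¹ * x) : ℝ) ≤
        wlen S ((x0 * c ^ a)⁻¹ * y) + wlen S (x⁻¹ * y) := by exact_mod_cast h2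
    have h4 := mul_le_mul_of_nonneg_left h3 hL0
    linarith
  refine ⟨fun y => ⨅ a : ℤ, ((a : ℝ) + L * wlen S ((x0 * c ^ a)⁻¹ * y)), fun x y => ?_,
    fun a => ?_⟩
  · have h1 := lip x y
    have h2 := lip y x
    rw [QLa1_symm y x] at h2
    exact abs_le.2 ⟨by linarith, by linarith⟩
  · refine le_antisymm ?_ (le_ciInf fun b => ?_)
    · have := ciInf_le (hb (x0 * c ^ a)) a
      rwa [inv_mul_cancel, wlen_one, Nat.cast_zero, mul_zero, add_zero] at this
    · have e : (x0 * c ^ b)⁻¹ * (x0 * c ^ a) = c ^ (a - b) := by group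
      rw [e]
      have := (abs_le.1 (hc' (a - b))).2
      push_cast at this
      linarith

/-- length of a side -/
def QLa3_len {J : Type} (o : Option (J × ℤ)) : ℕ := (o.map fun p => p.2.natAbs).getD 0

/-- unit step of a side -/
def QLa3_stp {J : Type} (e : J → G) (o : Option (J × ℤ)) : G :=
  (o.map fun p => e p.1 ^ p.2.sign).getD 1

/-- polygons -/
structure QLa3_Pl {J : Type} (S : Set G) (e : J → G) (k n : ℕ) (x : ℕ → G)
    (σ : ℕ → Option (J × ℤ)) : Prop where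
  cl : x n = x 0
  sh : ∀ i, i < n → σ i = none → wlen S ((x i)⁻¹ * x (i + 1)) ≤ k
  lb : ∀ i, i < n → ∀ j m, σ i = some (j, m) → x (i + 1) = x i * e j ^ m
  co : ∀ i i', i < i' → i' < n → ∀ j m m', σ i = some (j, m) → σ i' = some (j, m') →
    (x i)⁻¹ * x i' ∉ zpowers (e j)

/-- the point `b` of side `i` is close to the point `b'` of side `i'` -/
def QLa3_Cl {J : Type} (S : Set G) (e : J → G) (k : ℕ) (x : ℕ → G) (σ : ℕ → Option (J × ℤ))
    (i b i' : ℕ) : Prop :=
  ∃ b', b' < QLa3_len (σ i') ∧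
    wlen S ((x i * QLa3_stp e (σ i) ^ b)⁻¹ * (x i' * QLa3_stp e (σ i') ^ b')) ≤ k

theorem QLa3_stp_pow {J : Type} (e : J → G) (j : J) (m : ℤ) (b : ℕ) :
    QLa3_stp e (some (j, m)) ^ b = e j ^ (m.sign * b) := by
  simp only [QLa3_stp, Option.map_some, Option.getD_some]
  rw [zpow_mul, zpow_natCast]

theorem QLa3_ite {p q : Prop} [Decidable p] [Decidable q] (h : p → q) :
    (if p then 1 else 0 : ℕ) ≤ if q then 1 else 0 := by
  split_ifs with c1 c2
  · rfl
  · exact absurd (h c1) c2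
  · omega
  · rfl

open Classical in
theorem QLa3_dir (S : Finset G) (hS : closure (S : Set G) = ⊤) {J : Type} (e : J → G)
    (heS : ∀ j, e j ∈ S) (L : ℕ) (hL : ∀ j (a : ℤ), a.natAbs ≤ L * wlen (S : Set G) (e j ^ a))
    (k A : ℕ)
    (hp : ∀ (J : Type) (n : ℕ) (γ : ℕ → G) (lab : ℕ → Option J) (h : J → G → ℝ),
      γ n = γ 0 → (∀ j x y, |h j x - h j y| ≤ L * wlen (S : Set G) (x⁻¹ * y)) →
      (∀ t, t < n → ∀ j, lab t = some j →
        wlen (S : Set G) ((γ t)⁻¹ * γ (t + 1)) ≤ 1 ∧ h j (γ (t + 1)) - h j (γ t) = 1) →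
      ((Finset.range n).filter fun t => lab t ≠ none).card ≤
        2 * ((Finset.range n).filter fun t => ∃ j, lab t = some j ∧ ∃ t', t' < n ∧ ∃ j',
          lab t' = some j' ∧ j' ≠ j ∧ wlen (S : Set G) ((γ t)⁻¹ * γ t') ≤ k).card +
        A * ∑ t ∈ (Finset.range n).filter fun t => lab t = none,
          wlen (S : Set G) ((γ t)⁻¹ * γ (t + 1)))
    (k' n : ℕ) (x : ℕ → G) (σ : ℕ → Option (J × ℤ)) (P : QLa3_Pl (S : Set G) e k' n x σ) :
    ∑ i ∈ Finset.range n, QLa3_len (σ i) ≤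
      2 * ∑ i ∈ Finset.range n, ((Finset.range (QLa3_len (σ i))).filter fun b =>
        ∃ i', i' < n ∧ i' ≠ i ∧ QLa3_Cl (S : Set G) e k x σ i b i').card + A * (k' * n) := by
  set ℓ : ℕ → ℕ := fun i => if σ i = none then 1 else QLa3_len (σ i) with hℓ
  set γ : ℕ → ℕ → G := fun i b =>
    if σ i = none then (if b = 0 then x i else x (i + 1)) else x i * QLa3_stp e (σ i) ^ b with hγ
  have γ0 : ∀ i, γ i 0 = x i := fun i => by simp [hγ]
  obtain ⟨I, a, h1, h2, h3⟩ := QLa3_flat (G := G) ℓ n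
  obtain ⟨γ', g1, g2, g3⟩ := h3 γ fun i hi => by
    rw [γ0]
    rcases Option.eq_none_or_eq_some (σ i) with h | ⟨⟨j, m⟩, h⟩
    · simp [hγ, hℓ, h]
    · simp only [hγ, hℓ, h, reduceCtorEq, if_false]
      rw [QLa3_stp_pow, P.lb i hi j m h]
      simp [QLa3_len, Int.sign_mul_abs]
  have hh : ∀ i, ∃ h : G → ℝ, (∀ x y, |h x - h y| ≤ L * wlen (S : Set G) (x⁻¹ * y)) ∧
      (0 < QLa3_len (σ i) → ∀ b : ℕ, h (x i * QLa3_stp e (σ i) ^ b) = b) := by
    intro i
    by_cases h0 : 0 < QLa3_len (σ i)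
    · rcases Option.eq_none_or_eq_some (σ i) with h | ⟨⟨j, m⟩, h⟩
      · rw [h] at h0; simp [QLa3_len] at h0
      · have hm : m ≠ 0 := by rw [h] at h0; simpa [QLa3_len] using h0
        obtain ⟨f, f1, f2⟩ := QLa3_mc hS L (QLa3_stp e (σ i)) (x i) (fun b => by
          have := hL j (m.sign * b)
          rw [Int.natAbs_mul, Int.natAbs_sign_of_ne_zero hm, one_mul, zpow_mul] at this
          simpa [h, QLa3_stp] using this)
        exact ⟨f, f1, fun _ b => by have := f2 b; rwa [zpow_natCast, Int.cast_natCast] at this⟩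
    · exact ⟨fun _ => 0, fun x y => by simp only [sub_self, abs_zero]; positivity,
        fun h => absurd h h0⟩
  choose h hh1 hh2 using hh
  set N := ∑ i ∈ Finset.range n, ℓ i with hN
  have hl : ∀ t j, (if σ (I t) = none then none else some (I t)) = some j →
      σ (I t) ≠ none ∧ j = I t := fun t j hj => by
    split_ifs at hj with h0
    exact ⟨h0, (Option.some.inj hj).symm⟩
  have key := hp ℕ N γ' (fun t => if σ (I t) = none then none else some (I t)) h
    (by rw [g1, g2, γ0, γ0, P.cl]) hh1 (fun t ht j hj => by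
      obtain ⟨b1, rfl⟩ := hl t j hj
      obtain ⟨b2, b3⟩ := g3 t ht
      have b4 := (h1 t ht).2
      simp only [hℓ, b1, if_false] at b4
      simp only [hγ, b1, if_false] at b2 b3
      rw [b2, b3, hh2 _ (by omega), hh2 _ (by omega)]
      refine ⟨?_, by push_cast; ring⟩
      rw [show (x (I t) * QLa3_stp e (σ (I t)) ^ a t)⁻¹ * (x (I t) * QLa3_stp e (σ (I t)) ^ (a t + 1))
        = QLa3_stp e (σ (I t)) by group]
      obtain ⟨⟨j, m⟩, h0⟩ := Option.ne_none_iff_exists'.1 b1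
      have hj1 := wlen_mem (S := (S : Set G)) (heS j)
      simp only [h0, QLa3_stp, Option.map_some, Option.getD_some]
      rcases Int.sign_trichotomy m with s | s | s <;> rw [s]
      · simpa using hj1
      · simp [wlen_one]
      · rw [zpow_neg, wlen_inv]; simpa using hj1)
  have e1 : ((Finset.range N).filter fun t =>
      (if σ (I t) = none then none else some (I t)) ≠ none).card =
      ∑ i ∈ Finset.range n, QLa3_len (σ i) := by
    rw [Finset.card_filter, Finset.sum_congr rfl (g := fun t => if σ (I t) = none then 0 else 1)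
      (fun t _ => by by_cases h0 : σ (I t) = none <;> simp [h0]),
      h2 (fun i _ => if σ i = none then 0 else 1)]
    refine Finset.sum_congr rfl fun i _ => ?_
    by_cases h0 : σ i = none
    · simp [h0, QLa3_len]
    · simp [h0, hℓ]
  have e2 : ∑ t ∈ (Finset.range N).filter (fun t =>
      (if σ (I t) = none then none else some (I t)) = none),
        wlen (S : Set G) ((γ' t)⁻¹ * γ' (t + 1)) ≤ k' * n := by
    rw [Finset.sum_filter]
    refine le_trans (Finset.sum_le_sum (g := fun t => if σ (I t) = none then k' else 0)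
      fun t ht => ?_) ?_
    · have ht' := Finset.mem_range.1 ht
      by_cases h0 : σ (I t) = none
      · obtain ⟨b2, b3⟩ := g3 t ht'
        have b4 := (h1 t ht').2
        simp only [hℓ, h0, if_true] at b4
        have b5 : a t = 0 := by omega
        simp only [hγ, h0, b5, if_true] at b2 b3
        simp only [h0, if_true, b2, b3]
        simpa using P.sh _ (h1 t ht').1 h0
      · simp [h0]
    · rw [h2 (fun i _ => if σ i = none then k' else 0)]
      refine le_trans (Finset.sum_le_sum (g := fun _ => k') fun i _ => ?_) (by simp [mul_comm])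
      by_cases h0 : σ i = none
      · simp [h0, hℓ]
      · simp [h0]
  have e3 : ((Finset.range N).filter fun t => ∃ j,
      (if σ (I t) = none then none else some (I t)) = some j ∧ ∃ t', t' < N ∧ ∃ j',
        (if σ (I t') = none then none else some (I t')) = some j' ∧ j' ≠ j ∧
          wlen (S : Set G) ((γ' t)⁻¹ * γ' t') ≤ k).card ≤
      ∑ i ∈ Finset.range n, ((Finset.range (QLa3_len (σ i))).filter fun b =>
        ∃ i', i' < n ∧ i' ≠ i ∧ QLa3_Cl (S : Set G) e k x σ i b i').card := by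
    rw [Finset.card_filter]
    refine le_trans (Finset.sum_le_sum (g := fun t => if σ (I t) ≠ none ∧ ∃ i', i' < n ∧
      i' ≠ I t ∧ QLa3_Cl (S : Set G) e k x σ (I t) (a t) i' then 1 else 0) fun t ht => ?_) ?_
    · have ht' := Finset.mem_range.1 ht
      refine QLa3_ite (fun c1 => ?_)
      · obtain ⟨j, hj, t', c3, j', hj', c4, c5⟩ := c1
        obtain ⟨b1, rfl⟩ := hl t j hj
        obtain ⟨b1', rfl⟩ := hl t' j' hj'
        have b2 := (g3 t ht').1
        have b2' := (g3 t' c3).1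
        have b4 := (h1 t' c3).2
        simp only [hℓ, b1', if_false] at b4
        simp only [hγ, b1, b1', if_false] at b2 b2'
        exact ⟨b1, I t', (h1 t' c3).1, c4, a t', b4, by rwa [b2, b2'] at c5⟩
    · rw [h2 (fun i b => if σ i ≠ none ∧ ∃ i', i' < n ∧ i' ≠ i ∧
        QLa3_Cl (S : Set G) e k x σ i b i' then 1 else 0)]
      refine Finset.sum_le_sum fun i _ => ?_
      by_cases h0 : σ i = none
      · simp [h0]
      · rw [Finset.card_filter]
        simp only [hℓ, h0, if_false, ne_eq, not_false_eq_true, true_and, le_refl]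
  rw [e1] at key
  have e4 := Nat.mul_le_mul_left A e2
  refine key.trans (add_le_add (Nat.mul_le_mul_left 2 ?_) ?_)
  · convert e3
  · convert e4

open Classical in
theorem QLa3_over {S : Set G} {J : Type} {e : J → G} (he : MalFam e) {k k' n : ℕ} {x : ℕ → G}
    {σ : ℕ → Option (J × ℤ)} (P : QLa3_Pl S e k' n x σ) (B : Finset G)
    (hB : ∀ g, wlen S g ≤ k → g ∈ B) {i i' : ℕ} (hi : i < n) (hi' : i' < n) (hne : i' ≠ i) :
    ((Finset.range (QLa3_len (σ i))).filter fun b => QLa3_Cl S e k x σ i b i').card ≤ B.card := by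
  have hex : ∀ b, ∃ b', QLa3_Cl S e k x σ i b i' → b' < QLa3_len (σ i') ∧
      wlen S ((x i * QLa3_stp e (σ i) ^ b)⁻¹ * (x i' * QLa3_stp e (σ i') ^ b')) ≤ k := fun b => by
    by_cases h : QLa3_Cl S e k x σ i b i'
    · obtain ⟨b', hb'⟩ := h
      exact ⟨b', fun _ => hb'⟩
    · exact ⟨0, fun h' => absurd h' h⟩
  choose β hβ using hex
  refine Finset.card_le_card_of_injOn
    (fun b => (x i * QLa3_stp e (σ i) ^ b)⁻¹ * (x i' * QLa3_stp e (σ i') ^ β b))
    (fun b hb => hB _ (hβ b (Finset.mem_filter.1 hb).2).2) fun b1 h1 b2 h2 hu => ?_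
  by_contra hb
  have a1 := Finset.mem_range.1 (Finset.mem_filter.1 h1).1
  have a2 := (hβ b1 (Finset.mem_filter.1 h1).2).1
  rcases Option.eq_none_or_eq_some (σ i) with s | ⟨⟨j, m⟩, s⟩
  · rw [s] at a1; simp [QLa3_len] at a1
  rcases Option.eq_none_or_eq_some (σ i') with s' | ⟨⟨j', m'⟩, s'⟩
  · rw [s'] at a2; simp [QLa3_len] at a2
  have hm : m ≠ 0 := by
    rintro rfl
    rw [s] at a1; simp [QLa3_len] at a1
  simp only [s, s', QLa3_stp_pow] at hu
  set u := (x i * e j ^ (m.sign * b1))⁻¹ * (x i' * e j' ^ (m'.sign * β b1)) with hu1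
  have c1 : u⁻¹ * e j ^ (m.sign * b2 - m.sign * b1) * u⁻¹⁻¹ =
      e j' ^ (m'.sign * β b2 - m'.sign * β b1) := by
    rw [inv_inv]
    conv_lhs => rw [show u⁻¹ * e j ^ (m.sign * b2 - m.sign * b1) * u =
      u⁻¹ * e j ^ (m.sign * b2 - m.sign * b1) * ((x i * e j ^ (m.sign * b2))⁻¹ *
        (x i' * e j' ^ (m'.sign * β b2))) by rw [← hu]]
    rw [hu1]; group
  obtain ⟨rfl, c2⟩ := he.2 j j' u⁻¹ _ _ (by
    rw [← mul_sub]
    refine mul_ne_zero (by simpa using hm) (sub_ne_zero.2 fun h => hb ?_)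
    exact_mod_cast h.symm) c1
  have c3 : (x i)⁻¹ * x i' ∈ zpowers (e j) := by
    have : (x i)⁻¹ * x i' = e j ^ (m.sign * b1) * u⁻¹⁻¹ * (e j ^ (m'.sign * β b1))⁻¹ := by
      rw [hu1]; group
    rw [this]
    exact mul_mem (mul_mem (zpow_mem_zpowers _ _) (inv_mem c2)) (inv_mem (zpow_mem_zpowers _ _))
  rcases lt_or_gt_of_ne hne with h | h
  · refine P.co i' i h hi j m' m s' s ?_
    have := inv_mem c3
    rwa [mul_inv_rev, inv_inv] at this
  · exact P.co i i' h hi' j m m' s s' c3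

theorem QLa3_co {S : Set G} {J : Type} {e : J → G} {k n n' : ℕ} {x y : ℕ → G}
    {σ τ : ℕ → Option (J × ℤ)} (P : QLa3_Pl S e k n x σ) (φ : ℕ → ℕ)
    (hφ : ∀ t t', t < t' → φ t < φ t')
    (h : ∀ t, t < n' → ∀ j μ, τ t = some (j, μ) → φ t < n ∧ ∃ m, σ (φ t) = some (j, m) ∧
      (x (φ t))⁻¹ * y t ∈ zpowers (e j)) :
    ∀ i i', i < i' → i' < n' → ∀ j m m', τ i = some (j, m) → τ i' = some (j, m') →
      (y i)⁻¹ * y i' ∉ zpowers (e j) := by
  intro t t' htt ht' j μ μ' s s' hc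
  obtain ⟨_, m, a2, a3⟩ := h t (by omega) j μ s
  obtain ⟨b1, m', b2, b3⟩ := h t' ht' j μ' s'
  refine P.co _ _ (hφ t t' htt) b1 j m m' a2 b2 ?_
  have : (x (φ t))⁻¹ * x (φ t') =
      ((x (φ t))⁻¹ * y t) * ((y t)⁻¹ * y t') * ((x (φ t'))⁻¹ * y t')⁻¹ := by group
  rw [this]
  exact mul_mem (mul_mem a3 hc) (inv_mem b3)

theorem QLa3_cut1 {S : Set G} {J : Type} {e : J → G} {k i d r : ℕ} {x : ℕ → G}
    {σ : ℕ → Option (J × ℤ)} (P : QLa3_Pl S e k (i + 1 + d + 1 + r) x σ) {j j' : J}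
    {m m' a a' : ℤ} (s : σ i = some (j, m)) (s' : σ (i + 1 + d) = some (j', m'))
    (hw : wlen S ((x i * e j ^ a)⁻¹ * (x (i + 1 + d) * e j' ^ a')) ≤ k) :
    ∃ (y : ℕ → G) (τ : ℕ → Option (J × ℤ)), QLa3_Pl S e k (d + 3) y τ ∧
      ∑ t ∈ Finset.range (d + 3), QLa3_len (τ t) =
        (m - a).natAbs + ∑ t ∈ Finset.range d, QLa3_len (σ (i + 1 + t)) + a'.natAbs := by
  set y : ℕ → G := fun t => if t = 0 then x i * e j ^ a else if t ≤ d + 1 then x (i + t) else
    if t = d + 2 then x (i + 1 + d) * e j' ^ a' else x i * e j ^ a with hy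
  set τ : ℕ → Option (J × ℤ) := fun t => if t = 0 then some (j, m - a) else
    if t ≤ d then σ (i + t) else if t = d + 1 then some (j', a') else none with hτ
  have y0 : y 0 = x i * e j ^ a := by simp [hy]
  have y1 : ∀ t, 0 < t → t ≤ d + 1 → y t = x (i + t) := fun t h1 h2 => by
    simp only [hy]; rw [if_neg (by omega), if_pos h2]
  have y2 : y (d + 2) = x (i + 1 + d) * e j' ^ a' := by simp [hy]
  have y3 : y (d + 3) = x i * e j ^ a := by simp [hy]
  have τ0 : τ 0 = some (j, m - a) := by simp [hτ]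
  have τ1 : ∀ t, 0 < t → t ≤ d → τ t = σ (i + t) := fun t h1 h2 => by
    simp only [hτ]; rw [if_neg (by omega), if_pos h2]
  have τ2 : τ (d + 1) = some (j', a') := by simp [hτ]
  have τ3 : τ (d + 2) = none := by simp [hτ]
  have cs : ∀ t, t < d + 3 → t = 0 ∨ (0 < t ∧ t ≤ d) ∨ t = d + 1 ∨ t = d + 2 := by omega
  refine ⟨y, τ, ⟨by rw [y0, y3], fun t ht h => ?_, fun t ht j0 m0 h => ?_,
    QLa3_co P (fun t => i + t) (fun _ _ h => by omega) fun t ht j0 m0 h => ?_⟩, ?_⟩
  · rcases cs t ht with rfl | c | rfl | rfl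
    · rw [τ0] at h; cases h
    · rw [τ1 t c.1 c.2] at h
      rw [y1 t c.1 (by omega), y1 (t + 1) (by omega) (by omega)]
      exact P.sh _ (by omega) h
    · rw [τ2] at h; cases h
    · rw [y2, y3, QLa1_symm]; exact hw
  · rcases cs t ht with rfl | c | rfl | rfl
    · rw [τ0] at h; cases h
      rw [y0, y1 _ (by omega) (by omega), P.lb i (by omega) j m s]; group
    · rw [τ1 t c.1 c.2] at h
      rw [y1 t c.1 (by omega), y1 (t + 1) (by omega) (by omega)]
      exact P.lb (i + t) (by omega) _ _ h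
    · rw [τ2] at h; cases h
      rw [y2, y1 _ (by omega) (by omega), show i + (d + 1) = i + 1 + d by omega]
    · rw [τ3] at h; cases h
  · rcases cs t ht with rfl | c | rfl | rfl
    · rw [τ0] at h; cases h
      refine ⟨by omega, m, s, ?_⟩
      rw [y0, add_zero, inv_mul_cancel_left]; exact zpow_mem_zpowers _ _
    · rw [τ1 t c.1 c.2] at h
      refine ⟨by omega, m0, h, ?_⟩
      rw [y1 t c.1 (by omega), inv_mul_cancel]; exact one_mem _
    · rw [τ2] at h; cases h
      refine ⟨by omega, m', by rw [← s']; congr 1; omega, ?_⟩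
      rw [y1 _ (by omega) (by omega), inv_mul_cancel]; exact one_mem _
    · rw [τ3] at h; cases h
  · rw [Finset.sum_range_succ, Finset.sum_range_succ, Finset.sum_range_succ', τ0, τ2, τ3,
      Finset.sum_congr rfl (g := fun t => QLa3_len (σ (i + 1 + t))) fun t ht => by
        have := Finset.mem_range.1 ht
        rw [τ1 _ (by omega) (by omega)]; congr 2; omega]
    simp only [QLa3_len, Option.map_some, Option.getD_some, Option.map_none, Option.getD_none]
    omega

theorem QLa3_cut2 {S : Set G} {J : Type} {e : J → G} {k i d r : ℕ} {x : ℕ → G}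
    {σ : ℕ → Option (J × ℤ)} (P : QLa3_Pl S e k (i + 1 + d + 1 + r) x σ) (hd : 1 ≤ d)
    {j j' : J} {m m' a a' : ℤ} (s : σ i = some (j, m)) (s' : σ (i + 1 + d) = some (j', m'))
    (hw : wlen S ((x i * e j ^ a)⁻¹ * (x (i + 1 + d) * e j' ^ a')) ≤ k) :
    ∃ (y : ℕ → G) (τ : ℕ → Option (J × ℤ)), QLa3_Pl S e k (i + 3 + r) y τ ∧
      ∑ t ∈ Finset.range (i + 3 + r), QLa3_len (τ t) =
        ∑ t ∈ Finset.range i, QLa3_len (σ t) + a.natAbs + (m' - a').natAbs +
          ∑ t ∈ Finset.range r, QLa3_len (σ (i + 1 + d + 1 + t)) := by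
  set y : ℕ → G := fun t => if t ≤ i then x t else if t = i + 1 then x i * e j ^ a else
    if t = i + 2 then x (i + 1 + d) * e j' ^ a' else x (t + d - 1) with hy
  set τ : ℕ → Option (J × ℤ) := fun t => if t < i then σ t else if t = i then some (j, a) else
    if t = i + 1 then none else if t = i + 2 then some (j', m' - a') else σ (t + d - 1) with hτ
  have y0 : ∀ t, t ≤ i → y t = x t := fun t h => by simp [hy, h]
  have y1 : y (i + 1) = x i * e j ^ a := by simp [hy]
  have y2 : y (i + 2) = x (i + 1 + d) * e j' ^ a' := by simp [hy]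
  have y3 : ∀ t, i + 3 ≤ t → y t = x (t + d - 1) := fun t h => by
    simp only [hy]; rw [if_neg (by omega), if_neg (by omega), if_neg (by omega)]
  have τ0 : ∀ t, t < i → τ t = σ t := fun t h => by simp [hτ, h]
  have τ1 : τ i = some (j, a) := by simp [hτ]
  have τ2 : τ (i + 1) = none := by simp [hτ]
  have τ3 : τ (i + 2) = some (j', m' - a') := by simp [hτ]
  have τ4 : ∀ t, i + 3 ≤ t → τ t = σ (t + d - 1) := fun t h => by
    simp only [hτ]; rw [if_neg (by omega), if_neg (by omega), if_neg (by omega), if_neg (by omega)]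
  have cs : ∀ t, t < i ∨ t = i ∨ t = i + 1 ∨ t = i + 2 ∨ i + 3 ≤ t := by omega
  refine ⟨y, τ, ⟨?_, fun t ht h => ?_, fun t ht j0 m0 h => ?_,
    QLa3_co P (fun t => if t ≤ i + 1 then t else t + d - 1)
      (fun _ _ h => by split_ifs <;> omega) fun t ht j0 m0 h => ?_⟩, ?_⟩
  · rw [y0 0 (by omega), y3 _ (by omega), ← P.cl]; congr 1; omega
  · rcases cs t with c | rfl | rfl | rfl | c
    · rw [τ0 t c] at h
      rw [y0 t (by omega), y0 (t + 1) (by omega)]
      exact P.sh _ (by omega) h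
    · rw [τ1] at h; cases h
    · rw [y1, y2]; exact hw
    · rw [τ3] at h; cases h
    · rw [τ4 t c] at h
      rw [y3 t c, y3 (t + 1) (by omega), show t + 1 + d - 1 = t + d - 1 + 1 by omega]
      exact P.sh _ (by omega) h
  · rcases cs t with c | rfl | rfl | rfl | c
    · rw [τ0 t c] at h
      rw [y0 t (by omega), y0 (t + 1) (by omega)]
      exact P.lb _ (by omega) _ _ h
    · rw [τ1] at h; cases h
      rw [y1, y0 _ le_rfl]
    · rw [τ2] at h; cases h
    · rw [τ3] at h; cases h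
      rw [y2, y3 _ (by omega), show i + 2 + 1 + d - 1 = i + 1 + d + 1 by omega,
        P.lb _ (by omega) _ _ s']
      group
    · rw [τ4 t c] at h
      rw [y3 t c, y3 (t + 1) (by omega), show t + 1 + d - 1 = t + d - 1 + 1 by omega]
      exact P.lb _ (by omega) _ _ h
  · rcases cs t with c | rfl | rfl | rfl | c
    · rw [τ0 t c] at h
      rw [if_pos (by omega)]
      refine ⟨by omega, m0, h, ?_⟩
      rw [y0 t (by omega), inv_mul_cancel]; exact one_mem _
    · rw [τ1] at h; cases h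
      rw [if_pos (by omega)]
      refine ⟨by omega, m, s, ?_⟩
      rw [y0 t le_rfl, inv_mul_cancel]; exact one_mem _
    · rw [τ2] at h; cases h
    · rw [τ3] at h; cases h
      rw [if_neg (by omega), show i + 2 + d - 1 = i + 1 + d by omega]
      refine ⟨by omega, m', s', ?_⟩
      rw [y2, inv_mul_cancel_left]; exact zpow_mem_zpowers _ _
    · rw [τ4 t c] at h
      rw [if_neg (by omega)]
      refine ⟨by omega, m0, h, ?_⟩
      rw [y3 t c, inv_mul_cancel]; exact one_mem _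
  · rw [Finset.sum_range_add, Finset.sum_range_succ, Finset.sum_range_succ, Finset.sum_range_succ,
      τ1, τ2, τ3, Finset.sum_congr rfl (g := fun t => QLa3_len (σ t)) fun t ht => by
        rw [τ0 _ (Finset.mem_range.1 ht)],
      Finset.sum_congr (s₁ := Finset.range r) rfl
        (g := fun t => QLa3_len (σ (i + 1 + d + 1 + t))) fun t ht => by
        rw [τ4 _ (by omega)]; congr 2; omega]
    simp only [QLa3_len, Option.map_some, Option.getD_some, Option.map_none, Option.getD_none]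
    omega

theorem QLa3_split (m : ℤ) (b : ℕ) (h : b < m.natAbs) :
    (m.sign * b).natAbs + (m - m.sign * b).natAbs = m.natAbs := by
  rcases lt_trichotomy m 0 with c | c | c
  · rw [Int.sign_eq_neg_one_of_neg c]; omega
  · subst c; simp at h
  · rw [Int.sign_eq_one_of_pos c]; omega

theorem QLa3_cut {S : Set G} {J : Type} {e : J → G} {k k' n : ℕ} (hk : k ≤ k') {x : ℕ → G}
    {σ : ℕ → Option (J × ℤ)} (P : QLa3_Pl S e k' n x σ) {i i' b : ℕ} (h1 : i + 3 ≤ i')
    (h2 : i' + 3 ≤ n + i) (hi' : i' < n) (hb : b < QLa3_len (σ i))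
    (hc : QLa3_Cl S e k x σ i b i') :
    ∃ (n1 n2 : ℕ) (y1 y2 : ℕ → G) (τ1 τ2 : ℕ → Option (J × ℤ)), QLa3_Pl S e k' n1 y1 τ1 ∧
      QLa3_Pl S e k' n2 y2 τ2 ∧ n1 + n2 = n + 4 ∧ 5 ≤ n1 ∧ 5 ≤ n2 ∧
      ∑ t ∈ Finset.range n, QLa3_len (σ t) =
        ∑ t ∈ Finset.range n1, QLa3_len (τ1 t) + ∑ t ∈ Finset.range n2, QLa3_len (τ2 t) := by
  obtain ⟨b', hb', hw⟩ := hc
  obtain ⟨d, rfl⟩ : ∃ d, i' = i + 1 + d := ⟨i' - i - 1, by omega⟩
  obtain ⟨r, rfl⟩ : ∃ r, n = i + 1 + d + 1 + r := ⟨n - (i + 1 + d + 1), by omega⟩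
  rcases Option.eq_none_or_eq_some (σ i) with s | ⟨⟨j, m⟩, s⟩
  · rw [s] at hb; simp [QLa3_len] at hb
  rcases Option.eq_none_or_eq_some (σ (i + 1 + d)) with s' | ⟨⟨j', m'⟩, s'⟩
  · rw [s'] at hb'; simp [QLa3_len] at hb'
  rw [s, s', QLa3_stp_pow, QLa3_stp_pow] at hw
  obtain ⟨y1, τ1, P1, e1⟩ := QLa3_cut1 P s s' (hw.trans hk)
  obtain ⟨y2, τ2, P2, e2⟩ := QLa3_cut2 P (by omega) s s' (hw.trans hk)
  refine ⟨_, _, y1, y2, τ1, τ2, P1, P2, by omega, by omega, by omega, ?_⟩
  have l1 : QLa3_len (σ i) = m.natAbs := by rw [s]; rfl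
  have l2 : QLa3_len (σ (i + 1 + d)) = m'.natAbs := by rw [s']; rfl
  have f1 := QLa3_split m b (l1 ▸ hb)
  have f2 := QLa3_split m' b' (l2 ▸ hb')
  rw [e1, e2, Finset.sum_range_add, Finset.sum_range_succ, Finset.sum_range_add,
    Finset.sum_range_succ, l1, l2]
  omega

theorem QLa3_wmono {S S' : Set G} (hS : closure S = ⊤) (h : S ⊆ S') (g : G) :
    wlen S' g ≤ wlen S g := by
  obtain ⟨l, h0, h1, h2⟩ := wlen_spec hS g
  rw [← h0]
  exact wlen_le l (fun s hs => (h1 s hs).imp (fun a => h a) (fun a => h a)) h2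

open Classical in
/-- a polygon whose sides are short or lie in pairwise distinct cosets has linear length -/
theorem isolated (la : LA G) (tf : TF G) (S : Finset G) (hS : closure (S : Set G) = ⊤)
    {J : Type} [Fintype J] (e : J → G) (he : MalFam e) :
    ∃ A : ℕ, ∀ (n : ℕ) (x : ℕ → G) (σ : ℕ → Option (J × ℤ)), x n = x 0 →
      (∀ i, i < n → σ i = none → wlen (S : Set G) ((x i)⁻¹ * x (i + 1)) ≤ 1) →
      (∀ i, i < n → ∀ j m, σ i = some (j, m) → x (i + 1) = x i * e j ^ m) →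
      (∀ i i', i < i' → i' < n → ∀ j m m', σ i = some (j, m) → σ i' = some (j, m') →
        (x i)⁻¹ * x i' ∉ zpowers (e j)) →
      ∑ i ∈ Finset.range n, ((σ i).map fun p => p.2.natAbs).getD 0 ≤ A * n := by
  set S' : Finset G := S ∪ Finset.univ.image e with hS'd
  have hsub : (S : Set G) ⊆ (S' : Set G) := fun s hs => Finset.mem_union_left _ hs
  have hS' : closure (S' : Set G) = ⊤ := top_le_iff.1 (hS ▸ closure_mono hsub)
  have heS : ∀ j, e j ∈ S' := fun j =>
    Finset.mem_union_right _ (Finset.mem_image_of_mem e (Finset.mem_univ j))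
  choose Lj hLj using fun j => undist la tf S' hS' (he.1 j)
  have hL : ∀ j (a : ℤ), a.natAbs ≤ Finset.univ.sup Lj * wlen (S' : Set G) (e j ^ a) :=
    fun j a => (hLj j a).trans
      (Nat.mul_le_mul_right _ (Finset.le_sup (f := Lj) (Finset.mem_univ j)))
  obtain ⟨k, A, hp⟩ := poly0 la S' hS' (Finset.univ.sup Lj)
  set B := (ball_finite S' hS' k).toFinset with hB
  have hBm : ∀ g, wlen (S' : Set G) g ≤ k → g ∈ B := fun g hg => by simpa [hB] using hg
  set C := 16 * B.card + A * (k + 1) with hC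
  have step : ∀ n x (σ : ℕ → Option (J × ℤ)), QLa3_Pl (S' : Set G) e (k + 1) n x σ →
      ∑ t ∈ Finset.range n, QLa3_len (σ t) ≤ C * n ∨
      ∃ (n1 n2 : ℕ) (y1 y2 : ℕ → G) (τ1 τ2 : ℕ → Option (J × ℤ)),
        QLa3_Pl (S' : Set G) e (k + 1) n1 y1 τ1 ∧ QLa3_Pl (S' : Set G) e (k + 1) n2 y2 τ2 ∧
        n1 + n2 = n + 4 ∧ 5 ≤ n1 ∧ 5 ≤ n2 ∧ ∑ t ∈ Finset.range n, QLa3_len (σ t) =
          ∑ t ∈ Finset.range n1, QLa3_len (τ1 t) + ∑ t ∈ Finset.range n2, QLa3_len (τ2 t) := by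
    intro n x σ P
    refine or_iff_not_imp_right.2 fun hn => ?_
    have d1 := QLa3_dir S' hS' e heS _ hL k A hp (k + 1) n x σ P
    have d2 : ∀ i ∈ Finset.range n, ((Finset.range (QLa3_len (σ i))).filter fun b =>
        ∃ i', i' < n ∧ i' ≠ i ∧ QLa3_Cl (S' : Set G) e k x σ i b i').card ≤ 8 * B.card := by
      intro i hi
      have hi' := Finset.mem_range.1 hi
      set Nr : Finset ℕ := ({i + 1, i + 2, i + n - 1, i + n - 2, i - 1, i - 2, i + 1 - n,
        i + 2 - n} : Finset ℕ).filter fun i' => i' < n ∧ i' ≠ i with hNr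
      have c8 : Nr.card ≤ 8 := (Finset.card_filter_le _ _).trans
        ((List.toFinset_card_le [i + 1, i + 2, i + n - 1, i + n - 2, i - 1, i - 2, i + 1 - n,
          i + 2 - n]).trans' (by simp))
      refine le_trans (Finset.card_le_card (t := Nr.biUnion fun i' =>
        (Finset.range (QLa3_len (σ i))).filter fun b => QLa3_Cl (S' : Set G) e k x σ i b i')
        fun b hb => ?_) (Finset.card_biUnion_le.trans ?_)
      · obtain ⟨hb1, i', a1, a2, a3⟩ := Finset.mem_filter.1 hb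
        refine Finset.mem_biUnion.2 ⟨i', ?_, Finset.mem_filter.2 ⟨hb1, a3⟩⟩
        refine Finset.mem_filter.2 ⟨?_, a1, a2⟩
        by_contra hc
        simp only [Finset.mem_insert, Finset.mem_singleton, not_or] at hc
        rcases lt_or_gt_of_ne a2 with c | c
        · obtain ⟨b', a4, a5⟩ := a3
          exact hn (QLa3_cut (Nat.le_succ k) P (i := i') (i' := i) (by omega) (by omega) hi' a4
            ⟨b, Finset.mem_range.1 hb1, by rwa [QLa1_symm]⟩)
        · exact hn (QLa3_cut (Nat.le_succ k) P (i := i) (i' := i') (by omega) (by omega) a1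
            (Finset.mem_range.1 hb1) a3)
      · refine le_trans (Finset.sum_le_card_nsmul _ _ B.card fun i' h' => ?_) ?_
        · have := (Finset.mem_filter.1 h').2
          exact QLa3_over he P B hBm hi' this.1 this.2
        · exact Nat.mul_le_mul_right _ c8
    have d3 := Finset.sum_le_card_nsmul _ _ _ d2
    rw [Finset.card_range, smul_eq_mul] at d3
    have e1 : C * n = 2 * (n * (8 * B.card)) + A * ((k + 1) * n) := by rw [hC]; ring
    omega
  have main : ∀ n x (σ : ℕ → Option (J × ℤ)), QLa3_Pl (S' : Set G) e (k + 1) n x σ → 5 ≤ n →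
      ∑ t ∈ Finset.range n, QLa3_len (σ t) + 20 * C ≤ 5 * (C * n) := by
    intro n
    induction n using Nat.strong_induction_on with
    | _ n ih =>
      intro x σ P h5
      rcases step n x σ P with h | ⟨n1, n2, y1, y2, τ1, τ2, P1, P2, a1, a2, a3, a4⟩
      · have := Nat.mul_le_mul_left C h5
        omega
      · have b1 := ih n1 (by omega) y1 τ1 P1 a2
        have b2 := ih n2 (by omega) y2 τ2 P2 a3
        have b3 : C * n1 + C * n2 = C * n + 4 * C := by rw [← mul_add, a1]; ring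
        omega
  refine ⟨5 * C, fun n x σ h1 h2 h3 h4 => ?_⟩
  have P : QLa3_Pl (S' : Set G) e (k + 1) n x σ := ⟨h1, fun i hi h =>
    (QLa3_wmono hS hsub _).trans ((h2 i hi h).trans (by omega)), h3, h4⟩
  show ∑ t ∈ Finset.range n, QLa3_len (σ t) ≤ 5 * C * n
  rw [mul_assoc]
  by_cases h5 : 5 ≤ n
  · have := main n x σ P h5
    omega
  · rcases step n x σ P with h | ⟨n1, n2, y1, y2, τ1, τ2, P1, P2, a1, a2, a3, a4⟩ <;> omega

end Pool.Agent.Work.MP_904812_al
end

-- merged part: Pool.Agent.Work.MP_904812_al.QLa4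
section
/-! The relative form of the linear isoperimetric inequality. -/

namespace Pool.Agent.Work.MP_904812_al

set_option linter.unusedSectionVars false
set_option linter.unusedVariables false

open Subgroup MulAction

variable {G : Type*} [Group G]

/-- weighted paths -/
inductive QLa4_Pth {X ι : Type*} (St : ι → X → X → Prop) (wt : ι → X → X → ℝ) (a : X) :
    X → ℝ → ℕ → Prop
  | nil : QLa4_Pth St wt a a 0 0
  | snoc {b c : X} {w : ℝ} {n : ℕ} (s : ι) : QLa4_Pth St wt a b w n → St s b c →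
      QLa4_Pth St wt a c (w + wt s b c) (n + 1)

theorem QLa4_Pth.trans {X ι : Type*} {St : ι → X → X → Prop} {wt : ι → X → X → ℝ} {a b c : X}
    {w w' : ℝ} {n n' : ℕ} (h : QLa4_Pth St wt a b w n) (h' : QLa4_Pth St wt b c w' n') :
    QLa4_Pth St wt a c (w + w') (n + n') := by
  induction h' with
  | nil => simpa using h
  | snoc s _ hs ih =>
    have := QLa4_Pth.snoc s ih hs
    rwa [add_assoc, add_assoc] at this

theorem QLa4_Pth.seq {X ι : Type*} [Inhabited ι] {St : ι → X → X → Prop} {wt : ι → X → X → ℝ}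
    {a b : X} {w : ℝ} {n : ℕ} (h : QLa4_Pth St wt a b w n) :
    ∃ (x : ℕ → X) (σ : ℕ → ι), x 0 = a ∧ x n = b ∧ (∀ i, i < n → St (σ i) (x i) (x (i + 1))) ∧
      ∑ i ∈ Finset.range n, wt (σ i) (x i) (x (i + 1)) = w := by
  induction h with
  | nil => exact ⟨fun _ => a, fun _ => default, rfl, rfl, fun i hi => absurd hi (by omega), by simp⟩
  | @snoc b c w n s _ hs ih =>
    obtain ⟨x, σ, h0, h1, h2, h3⟩ := ih
    refine ⟨fun i => if i ≤ n then x i else c, fun i => if i < n then σ i else s, by simp [h0],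
      by simp, fun i hi => ?_, ?_⟩
    · rcases Nat.lt_succ_iff_lt_or_eq.1 hi with hi | rfl
      · simp only [if_pos hi, if_pos hi.le, if_pos (show i + 1 ≤ n from hi)]
        exact h2 i hi
      · simpa [h1] using hs
    · rw [Finset.sum_range_succ, ← h3]
      congr 1
      · refine Finset.sum_congr rfl fun i hi => ?_
        have hi := Finset.mem_range.1 hi
        simp only [if_pos hi, if_pos hi.le, if_pos (show i + 1 ≤ n from hi)]
      · simp [h1]

theorem QLa4_pot {X ι : Type*} (St : ι → X → X → Prop) (wt : ι → X → X → ℝ) (o : X) (C : ℝ)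
    (rev : ∀ s a b, St s a b → ∃ s', St s' b a ∧ wt s' b a = -wt s a b)
    (conn : ∀ a b, ∃ w n, QLa4_Pth St wt a b w n)
    (cl : ∀ w n, QLa4_Pth St wt o o w n → w ≤ C * n) :
    ∃ p : X → ℝ, ∀ s a b, St s a b → |p b - p a - wt s a b| ≤ C := by
  let A : X → Set ℝ := fun x => {r | ∃ w n, QLa4_Pth St wt o x w n ∧ r = w - C * n}
  have hne : ∀ x, (A x).Nonempty := fun x => by
    obtain ⟨w, n, h⟩ := conn o x
    exact ⟨_, w, n, h, rfl⟩
  have hbd : ∀ x, BddAbove (A x) := fun x => by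
    obtain ⟨w₀, n₀, h₀⟩ := conn x o
    refine ⟨C * n₀ - w₀, ?_⟩
    rintro r ⟨w, n, h, rfl⟩
    have := cl _ _ (h.trans h₀)
    push_cast at this
    linarith
  have key : ∀ s a b, St s a b → sSup (A a) ≤ sSup (A b) - wt s a b + C := by
    intro s a b hs
    refine csSup_le (hne a) ?_
    rintro r ⟨w, n, h, rfl⟩
    have : w + wt s a b - C * ((n + 1 : ℕ) : ℝ) ≤ sSup (A b) :=
      le_csSup (hbd b) ⟨_, _, h.snoc s hs, rfl⟩
    push_cast at this
    linarith
  refine ⟨fun x => sSup (A x), fun s a b hs => ?_⟩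
  obtain ⟨s', hs', e⟩ := rev s a b hs
  have h1 := key s a b hs
  have h2 := key s' b a hs'
  rw [e] at h2
  exact abs_le.2 ⟨by linarith, by linarith⟩

theorem QLa4_jump (F : G → ℝ) (c : G) (B : ℝ) (h : ∀ y, |F (y * c) - F y| ≤ B) (m : ℤ) (y : G) :
    |F (y * c ^ m) - F y| ≤ B * m.natAbs := by
  have hn : ∀ (k : ℕ) (y : G), |F (y * c ^ k) - F y| ≤ B * k := by
    intro k
    induction k with
    | zero => intro y; simp
    | succ k ih =>
      intro y
      have h1 := ih y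
      have h2 := h (y * c ^ k)
      rw [mul_assoc, ← pow_succ] at h2
      have h3 := abs_sub_le (F (y * c ^ (k + 1))) (F (y * c ^ k)) (F y)
      push_cast
      linarith
  obtain ⟨k, rfl | rfl⟩ := Int.eq_nat_or_neg m
  · simpa using hn k y
  · have := hn k (y * c ^ (-(k : ℤ)))
    rw [abs_sub_comm]
    simpa using this

/-- admissible steps -/
def QLa4_St (S : Set G) {J : Type} (e : J → G) : Option (J × ℤ) → G → G → Prop
  | none, a, b => wlen S (a⁻¹ * b) ≤ 1
  | some q, a, b => b = a * e q.1 ^ q.2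

/-- weights of steps -/
def QLa4_wt {J : Type} (ω : G → G → ℝ) (β : J → G → ℝ) : Option (J × ℤ) → G → G → ℝ
  | none, a, b => ω a b
  | some q, a, b => β q.1 b - β q.1 a

theorem QLa4_split {S : Set G} {J : Type} (e : J → G) (ω : G → G → ℝ) (β : J → G → ℝ) (C : ℝ)
    (base : ∀ (n : ℕ) (x : ℕ → G) (σ : ℕ → Option (J × ℤ)), x n = x 0 →
      (∀ i, i < n → QLa4_St S e (σ i) (x i) (x (i + 1))) →
      (∀ i i', i < i' → i' < n → ∀ j m m', σ i = some (j, m) → σ i' = some (j, m') →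
        (x i)⁻¹ * x i' ∉ zpowers (e j)) →
      ∑ i ∈ Finset.range n, QLa4_wt ω β (σ i) (x i) (x (i + 1)) ≤ C * n) :
    ∀ (n : ℕ) (x : ℕ → G) (σ : ℕ → Option (J × ℤ)), x n = x 0 →
      (∀ i, i < n → QLa4_St S e (σ i) (x i) (x (i + 1))) →
      ∑ i ∈ Finset.range n, QLa4_wt ω β (σ i) (x i) (x (i + 1)) ≤ C * n := by
  intro n
  induction n using Nat.strong_induction_on with
  | _ n ih =>
    intro x σ hx hs
    by_cases hc : ∀ i i', i < i' → i' < n → ∀ j m m', σ i = some (j, m) → σ i' = some (j, m') →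
        (x i)⁻¹ * x i' ∉ zpowers (e j)
    · exact base n x σ hx hs hc
    push Not at hc
    obtain ⟨i, i', hii, hin, j, m, m', h1, h2, k, hk⟩ := hc
    obtain ⟨a, rfl⟩ : ∃ a, i' = i + 1 + a := ⟨i' - (i + 1), by omega⟩
    obtain ⟨b, rfl⟩ : ∃ b, n = i + 1 + a + 1 + b := ⟨n - (i + 1 + a + 1), by omega⟩
    have s1 := hs i (by omega)
    have s2 := hs (i + 1 + a) (by omega)
    rw [h1] at s1
    rw [h2] at s2
    simp only [QLa4_St] at s1 s2
    simp only at hk
    have hk' : x (i + 1 + a) = x i * e j ^ k := by rw [hk]; group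
    have hA := ih (a + 1) (by omega) (fun t => if t ≤ a then x (i + 1 + t) else x (i + 1))
      (fun t => if t < a then σ (i + 1 + t) else some (j, m - k)) (by simp) (fun t ht => by
        rcases Nat.lt_succ_iff_lt_or_eq.1 ht with ht | rfl
        · simp only [if_pos ht, if_pos ht.le, if_pos (show t + 1 ≤ a from ht)]
          exact hs (i + 1 + t) (by omega)
        · simp only [lt_irrefl, if_false, le_refl, if_true, if_neg (show ¬ t + 1 ≤ t by omega),
            QLa4_St]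
          rw [s1, hk']; group)
    have hB := ih (i + 1 + b) (by omega) (fun t => if t ≤ i then x t else x (t + (a + 1)))
      (fun t => if t < i then σ t else if t = i then some (j, k + m') else σ (t + (a + 1)))
      (by
        simp only [if_neg (show ¬ i + 1 + b ≤ i by omega), if_pos (Nat.zero_le i)]
        rw [← hx]; congr 1; omega)
      (fun t ht => by
        rcases lt_trichotomy t i with h | rfl | h
        · simp only [if_pos h, if_pos h.le, if_pos (show t + 1 ≤ i from h)]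
          exact hs t (by omega)
        · simp only [lt_irrefl, if_false, le_refl, if_true, if_neg (show ¬ t + 1 ≤ t by omega),
            QLa4_St]
          rw [show t + 1 + (a + 1) = t + 1 + a + 1 by omega, s2, hk']; group
        · simp only [if_neg (show ¬ t < i by omega), if_neg (show ¬ t = i by omega),
            if_neg (show ¬ t ≤ i by omega), if_neg (show ¬ t + 1 ≤ i by omega)]
          rw [show t + 1 + (a + 1) = t + (a + 1) + 1 by omega]
          exact hs _ (by omega))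
    rw [Finset.sum_range_succ] at hA
    rw [Finset.sum_range_add, Finset.sum_range_succ] at hB
    rw [Finset.sum_range_add, Finset.sum_range_succ, Finset.sum_range_add, Finset.sum_range_succ,
      h1, h2]
    have eA : ∑ t ∈ Finset.range a, QLa4_wt ω β (if t < a then σ (i + 1 + t) else some (j, m - k))
        (if t ≤ a then x (i + 1 + t) else x (i + 1))
        (if t + 1 ≤ a then x (i + 1 + (t + 1)) else x (i + 1)) =
        ∑ t ∈ Finset.range a, QLa4_wt ω β (σ (i + 1 + t)) (x (i + 1 + t)) (x (i + 1 + t + 1)) := by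
      refine Finset.sum_congr rfl fun t ht => ?_
      have ht := Finset.mem_range.1 ht
      simp only [if_pos ht, if_pos ht.le, if_pos (show t + 1 ≤ a from ht)]
      rfl
    have eB1 : ∑ t ∈ Finset.range i, QLa4_wt ω β
        (if t < i then σ t else if t = i then some (j, k + m') else σ (t + (a + 1)))
        (if t ≤ i then x t else x (t + (a + 1)))
        (if t + 1 ≤ i then x (t + 1) else x (t + 1 + (a + 1))) =
        ∑ t ∈ Finset.range i, QLa4_wt ω β (σ t) (x t) (x (t + 1)) := by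
      refine Finset.sum_congr rfl fun t ht => ?_
      have ht := Finset.mem_range.1 ht
      simp only [if_pos ht, if_pos ht.le, if_pos (show t + 1 ≤ i from ht)]
    have eB2 : ∑ t ∈ Finset.range b, QLa4_wt ω β
        (if i + 1 + t < i then σ (i + 1 + t) else if i + 1 + t = i then some (j, k + m')
          else σ (i + 1 + t + (a + 1)))
        (if i + 1 + t ≤ i then x (i + 1 + t) else x (i + 1 + t + (a + 1)))
        (if i + 1 + t + 1 ≤ i then x (i + 1 + t + 1) else x (i + 1 + t + 1 + (a + 1))) =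
        ∑ t ∈ Finset.range b, QLa4_wt ω β (σ (i + 1 + a + 1 + t)) (x (i + 1 + a + 1 + t))
          (x (i + 1 + a + 1 + t + 1)) := by
      refine Finset.sum_congr rfl fun t ht => ?_
      simp only [if_neg (show ¬ i + 1 + t < i by omega), if_neg (show ¬ i + 1 + t = i by omega),
        if_neg (show ¬ i + 1 + t ≤ i by omega), if_neg (show ¬ i + 1 + t + 1 ≤ i by omega)]
      rw [show i + 1 + t + (a + 1) = i + 1 + a + 1 + t by omega,
        show i + 1 + t + 1 + (a + 1) = i + 1 + a + 1 + t + 1 by omega]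
    rw [eA] at hA
    rw [eB1, eB2] at hB
    simp only [lt_irrefl, if_false, le_refl, if_true, if_neg (show ¬ a + 1 ≤ a by omega),
      if_neg (show ¬ i + 1 ≤ i by omega), QLa4_wt] at hA hB ⊢
    rw [show i + 1 + (a + 1) = i + 1 + a + 1 by omega] at hB
    push_cast at hA hB ⊢
    linarith

theorem rel_la (la : LA G) (tf : TF G) (fg : Group.FG G) {J : Type} [Fintype J] (e : J → G)
    (he : MalFam e) (S : Finset G) :
    ∃ (R : Finset G) (C : ℝ), ∀ (ω : G → G → ℝ) (β : J → G → ℝ), Cocy R ω →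
      (∀ j x, |β j (x * e j) - β j x - ω x (x * e j)| ≤ 1) →
      ∃ (p : G → ℝ) (κ : J → G → ℝ), (∀ j x, κ j (x * e j) = κ j x) ∧
        (∀ x, ∀ s ∈ S, |ω x (x * s) - (p (x * s) - p x)| ≤ C) ∧
        ∀ j x, |p x - β j x - κ j x| ≤ C := by
  classical
  obtain ⟨T, hT⟩ := fg.out
  set S₀ : Finset G := T ∪ S ∪ Finset.univ.image e with hS₀def
  have hS₀ : closure (S₀ : Set G) = ⊤ := by
    refine top_le_iff.1 (hT ▸ closure_mono ?_)
    intro a ha
    simp only [hS₀def, Finset.coe_union, Set.mem_union]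
    exact Or.inl (Or.inl ha)
  obtain ⟨R, C₁, hC⟩ := la S₀
  obtain ⟨A, hA⟩ := isolated la tf S₀ hS₀ e he
  set C₀ : ℝ := max C₁ 0 with hC₀
  have hC0 : 0 ≤ C₀ := le_max_right _ _
  refine ⟨R, C₀ + (C₀ + 1) * A, fun ω β hω hβ => ?_⟩
  obtain ⟨p₀, hp₀⟩ := hC ω hω
  have hanti := hω.1
  have k1 : ∀ x, ∀ a ∈ S₀, |ω x (x * a) - (p₀ (x * a) - p₀ x)| ≤ C₀ := fun x a ha =>
    (hp₀ x a ha).trans (le_max_left _ _)
  have k2 : ∀ x y, wlen (S₀ : Set G) (x⁻¹ * y) ≤ 1 → |ω x y - (p₀ y - p₀ x)| ≤ C₀ := by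
    intro x y hxy
    rcases wlen_le_one hS₀ hxy with h1 | h1 | h1
    · have e : y = x := by rw [inv_mul_eq_one] at h1; exact h1.symm
      have := hanti x x
      have h2 : ω x x = 0 := by linarith
      rw [e, h2]; simpa using hC0
    · have := k1 x _ h1
      rwa [mul_inv_cancel_left] at this
    · have := k1 y _ h1
      rw [show y * (x⁻¹ * y)⁻¹ = x by group, hanti y x, ← abs_neg] at this
      convert this using 2
      ring
  have k3 : ∀ j (m : ℤ) y, |(β j (y * e j ^ m) - p₀ (y * e j ^ m)) - (β j y - p₀ y)| ≤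
      (C₀ + 1) * m.natAbs := by
    intro j m y
    refine QLa4_jump (fun y => β j y - p₀ y) (e j) (C₀ + 1) (fun y => ?_) m y
    have h1 := abs_le.1 (hβ j y)
    have h2 := abs_le.1 (k1 y (e j) (by simp [hS₀def]))
    exact abs_le.2 ⟨by linarith, by linarith⟩
  have cl := QLa4_split (S := (S₀ : Set G)) e ω β (C₀ + (C₀ + 1) * A) (fun n x σ hx hs hiso => by
    have h1 := hA n x σ hx (fun i hi h => by have := hs i hi; rwa [h] at this)
      (fun i hi j m h => by have := hs i hi; rwa [h] at this) hiso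
    have h2 : ∀ i ∈ Finset.range n, QLa4_wt ω β (σ i) (x i) (x (i + 1)) ≤
        (p₀ (x (i + 1)) - p₀ (x i)) + C₀ +
          (C₀ + 1) * ((((σ i).map fun p => p.2.natAbs).getD 0 : ℕ) : ℝ) := by
      intro i hi
      have h3 := hs i (Finset.mem_range.1 hi)
      rcases hσ : σ i with _ | ⟨j, m⟩
      · rw [hσ] at h3
        have := abs_le.1 (k2 _ _ h3)
        simp only [QLa4_wt, Option.map_none, Option.getD_none, Nat.cast_zero]
        linarith
      · rw [hσ] at h3
        simp only [QLa4_St] at h3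
        have := abs_le.1 (k3 j m (x i))
        rw [← h3] at this
        simp only [QLa4_wt, Option.map_some, Option.getD_some]
        linarith
    refine (Finset.sum_le_sum h2).trans ?_
    rw [Finset.sum_add_distrib, Finset.sum_add_distrib,
      Finset.sum_range_sub (fun i => p₀ (x i)), hx, sub_self, ← Finset.mul_sum, Finset.sum_const,
      Finset.card_range, nsmul_eq_mul, ← Nat.cast_sum]
    have h4 : ((∑ i ∈ Finset.range n, ((σ i).map fun p => p.2.natAbs).getD 0 : ℕ) : ℝ) ≤ A * n := by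
      exact_mod_cast h1
    have h5 := mul_le_mul_of_nonneg_left h4 (show 0 ≤ C₀ + 1 by linarith)
    linarith)
  obtain ⟨p, hp⟩ := QLa4_pot (QLa4_St (S₀ : Set G) e) (QLa4_wt ω β) 1 (C₀ + (C₀ + 1) * A)
    (fun s a b hs => by
      rcases s with _ | ⟨j, m⟩
      · refine ⟨none, ?_, hanti b a⟩
        simp only [QLa4_St] at hs ⊢
        rwa [QLa1_symm]
      · refine ⟨some (j, -m), ?_, by simp only [QLa4_wt]; ring⟩
        simp only [QLa4_St] at hs ⊢
        rw [hs]; group)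
    (fun a b => by
      obtain ⟨γ, h0, h1, h2⟩ := wlen_geod hS₀ a b
      have : ∀ i, i ≤ wlen (S₀ : Set G) (a⁻¹ * b) →
          ∃ w n, QLa4_Pth (QLa4_St (S₀ : Set G) e) (QLa4_wt ω β) a (γ i) w n := by
        intro i
        induction i with
        | zero => intro _; rw [h0]; exact ⟨_, _, .nil⟩
        | succ i ih =>
          intro hi
          obtain ⟨w, n, h⟩ := ih (by omega)
          refine ⟨_, _, h.snoc none ?_⟩
          simp only [QLa4_St]
          rw [h2 i (i + 1) (by omega) hi]; omega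
      have := this _ le_rfl
      rwa [h1] at this)
    (fun w n h => by
      obtain ⟨x, σ, h0, h1, h2, h3⟩ := h.seq
      rw [← h3]
      exact cl n x σ (h1.trans h0.symm) h2)
  let rep : J → G → G := fun j x => (QuotientGroup.mk (s := zpowers (e j)) x).out
  have hrep : ∀ j x, (rep j x)⁻¹ * x ∈ zpowers (e j) := fun j x =>
    QuotientGroup.eq.1 (QuotientGroup.out_eq' _)
  refine ⟨p, fun j x => p (rep j x) - β j (rep j x), fun j x => ?_, fun x s hs => ?_, fun j x => ?_⟩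
  · have : rep j (x * e j) = rep j x := by
      simp only [rep]
      congr 1
      exact QuotientGroup.mk_mul_of_mem x (mem_zpowers _)
    simp only [this]
  · have := hp none x (x * s) (by
      simp only [QLa4_St]
      rw [inv_mul_cancel_left]
      exact wlen_mem (by simp [hS₀def, hs]))
    simp only [QLa4_wt] at this
    rwa [abs_sub_comm]
  · obtain ⟨k, hk⟩ := hrep j x
    simp only at hk
    have := hp (some (j, k)) (rep j x) x (by simp only [QLa4_St]; rw [hk]; group)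
    simp only [QLa4_wt] at this
    convert this using 2
    ring

theorem LA.congr {H : Type*} [Group H] (la : LA G) (φ : G ≃* H) : LA H := by
  classical
  intro S
  obtain ⟨R, C, h⟩ := la (S.image φ.symm)
  refine ⟨R.image φ, C, fun ω hω => ?_⟩
  obtain ⟨p, hp⟩ := h (fun a b => ω (φ a) (φ b)) ⟨fun x y => hω.1 _ _, fun x a ha b hb => by
    simpa only [map_mul] using
      hω.2 (φ x) (φ a) (Finset.mem_image_of_mem _ ha) (φ b) (Finset.mem_image_of_mem _ hb)⟩
  refine ⟨fun x => p (φ.symm x), fun x s hs => ?_⟩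
  have := hp (φ.symm x) (φ.symm s) (Finset.mem_image_of_mem _ hs)
  simpa only [map_mul, MulEquiv.apply_symm_apply] using this

theorem QLa4_prim (f : ℤ → ℝ) : ∃ q : ℤ → ℝ, ∀ n, q (n + 1) - q n = f n := by
  refine ⟨fun n => match n with
    | Int.ofNat k => ∑ i ∈ Finset.range k, f i
    | Int.negSucc k => -∑ i ∈ Finset.range (k + 1), f (Int.negSucc i), fun n => ?_⟩
  rcases n with k | k
  · show (∑ i ∈ Finset.range (k + 1), f i) - ∑ i ∈ Finset.range k, f i = f k
    rw [Finset.sum_range_succ]; ring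
  · rcases k with _ | k
    · show (∑ i ∈ Finset.range 0, f i) - -∑ i ∈ Finset.range (0 + 1), f (Int.negSucc i) = _
      simp
    · show -(∑ i ∈ Finset.range (k + 1), f (Int.negSucc i)) -
        -∑ i ∈ Finset.range (k + 1 + 1), f (Int.negSucc i) = _
      rw [Finset.sum_range_succ _ (k + 1)]; ring

theorem la_cyclic (tf : TF G) (c : G) (hc : ∀ a : G, a ∈ zpowers c) : LA G := by
  classical
  intro S
  by_cases h1 : c = 1
  · refine ⟨∅, 0, fun ω hω => ⟨fun _ => 0, fun x s _ => ?_⟩⟩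
    obtain ⟨k, hk⟩ := hc s
    have hs : s = 1 := by rw [← hk, h1]; simp
    have := hω.1 x x
    have h2 : ω x x = 0 := by linarith
    simp [hs, h2]
  have hinj : ∀ m n : ℤ, c ^ m = c ^ n → m = n := by
    intro m n h
    by_contra hne
    have h2 : c ^ (m - n) = 1 := by rw [zpow_sub, h]; simp
    have h3 : c ^ (m - n).natAbs = 1 := by
      rcases Int.natAbs_eq (m - n) with e | e
      · rw [← zpow_natCast, ← e, h2]
      · rw [e, zpow_neg, inv_eq_one, zpow_natCast] at h2; exact h2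
    exact h1 (tf c _ (by omega) h3)
  choose lg hlg using hc
  simp only at hlg
  set M : ℕ := S.sup fun s => (lg s).natAbs with hM
  refine ⟨(Finset.range (M + 1)).image (c ^ ·), M, fun ω hω => ?_⟩
  obtain ⟨q, hq⟩ := QLa4_prim fun n => ω (c ^ n) (c ^ (n + 1))
  have key : ∀ k : ℕ, k ≤ M → ∀ n : ℤ, |ω (c ^ n) (c ^ (n + k)) - (q (n + k) - q n)| ≤ k := by
    intro k
    induction k with
    | zero =>
      intro _ n
      have := hω.1 (c ^ n) (c ^ n)
      have h2 : ω (c ^ n) (c ^ n) = 0 := by linarith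
      simp [h2]
    | succ k ih =>
      intro hk n
      have a1 := abs_le.1 (ih (by omega) n)
      have a2 := abs_le.1 (hω.2 (c ^ n) (c ^ k)
        (Finset.mem_image_of_mem _ (Finset.mem_range.2 (by omega))) (c ^ (k + 1))
        (Finset.mem_image_of_mem _ (Finset.mem_range.2 (by omega))))
      have a3 := hq (n + k)
      have e1 : c ^ n * c ^ k = c ^ (n + k) := by rw [zpow_add, zpow_natCast]
      have e2 : c ^ n * c ^ (k + 1) = c ^ (n + k + 1) := by
        rw [add_assoc, zpow_add, ← zpow_natCast]; push_cast; rfl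
      rw [e1, e2, hω.1 (c ^ (n + k + 1)) (c ^ n)] at a2
      push_cast
      rw [← add_assoc]
      exact abs_le.2 ⟨by linarith, by linarith⟩
  refine ⟨fun x => q (lg x), fun x s hs => ?_⟩
  have hsM : (lg s).natAbs ≤ M := Finset.le_sup (f := fun s => (lg s).natAbs) hs
  have e1 : lg (x * s) = lg x + lg s := hinj _ _ (by rw [hlg, zpow_add, hlg, hlg])
  have e2 : x * s = c ^ (lg x + lg s) := by rw [← e1, hlg]
  have hkM : ((lg s).natAbs : ℝ) ≤ M := by exact_mod_cast hsM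
  beta_reduce
  rw [e1]
  rcases Int.natAbs_eq (lg s) with e | e
  · have := key _ hsM (lg x)
    rw [← e, ← e2, hlg] at this
    linarith
  · have := key _ hsM (lg x + lg s)
    rw [show lg x + lg s + ((lg s).natAbs : ℤ) = lg x by omega, ← e2, hlg, hω.1 (x * s) x] at this
    have h3 := abs_le.1 this
    exact abs_le.2 ⟨by linarith, by linarith⟩

end Pool.Agent.Work.MP_904812_al
end

-- merged part: Pool.Agent.Work.MP_904812_al.QLa5
section
/-! The combination theorem. -/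

namespace Pool.Agent.Work.MP_904812_al

set_option linter.unusedSectionVars false
set_option linter.unusedVariables false

open Subgroup MulAction

section aux

variable {D : Type*} [Group D]

theorem QLa5_mono {R R' : Finset D} {ω : D → D → ℝ} (h : Cocy R' ω) (s : R ⊆ R') : Cocy R ω :=
  ⟨h.1, fun x a ha b hb => h.2 x a (s ha) b (s hb)⟩

/-- two families of potentials match along `t` up to a bounded error -/
def QLa5A (f f' : (D → D → ℝ) → D → ℝ) (t : D) : Prop :=
  ∃ (R : Finset D) (C : ℝ), ∀ ω, Cocy R ω → ∀ x, |f' ω (x * t) - f ω x - ω x (x * t)| ≤ C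

theorem QLa5A.refl (f : (D → D → ℝ) → D → ℝ) : QLa5A f f 1 :=
  ⟨∅, 0, fun ω h x => by
    have := h.1 x x
    rw [mul_one, abs_le]
    constructor <;> linarith⟩

theorem QLa5A.symm {f f' : (D → D → ℝ) → D → ℝ} {t : D} (h : QLa5A f f' t) :
    QLa5A f' f t⁻¹ := by
  obtain ⟨R, C, h⟩ := h
  refine ⟨R, C, fun ω c x => ?_⟩
  have := h ω c (x * t⁻¹)
  rw [inv_mul_cancel_right, c.1 (x * t⁻¹) x] at this
  rw [abs_le] at *
  constructor <;> linarith [this.1, this.2]

theorem QLa5A.trans {f f' f'' : (D → D → ℝ) → D → ℝ} {t t' : D} (h : QLa5A f f' t)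
    (h' : QLa5A f' f'' t') : QLa5A f f'' (t * t') := by
  classical
  obtain ⟨R, C, h⟩ := h
  obtain ⟨R', C', h'⟩ := h'
  refine ⟨insert t (insert (t * t') (R ∪ R')), C + C' + 1, fun ω c x => ?_⟩
  have h1 := h ω (QLa5_mono c fun a ha => by simp [ha]) x
  have h2 := h' ω (QLa5_mono c fun a ha => by simp [ha]) (x * t)
  have h3 := c.2 x t (by simp) (t * t') (by simp)
  rw [mul_assoc] at h2
  rw [c.1 (x * (t * t')) x] at h3
  rw [abs_le] at *
  constructor <;> linarith [h1.1, h1.2, h2.1, h2.2, h3.1, h3.2]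

/-- the elements along which a family of potentials matches itself -/
def QLa5S (f : (D → D → ℝ) → D → ℝ) : Subgroup D where
  carrier := {t | QLa5A f f t}
  one_mem' := QLa5A.refl f
  mul_mem' := fun a b => QLa5A.trans a b
  inv_mem' := fun a => QLa5A.symm a

theorem QLa5A.zpowers {f : (D → D → ℝ) → D → ℝ} {t k : D} (h : QLa5A f f t)
    (hk : k ∈ zpowers t) : QLa5A f f k :=
  (zpowers_le (H := QLa5S f)).2 h hk

theorem QLa5_inv {f : D → ℝ} {t k : D} (h : ∀ x, f (x * t) = f x) (hk : k ∈ zpowers t) (x : D) :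
    f (x * k) = f x := by
  let K : Subgroup D :=
    { carrier := {k | ∀ x, f (x * k) = f x}
      one_mem' := fun x => by rw [mul_one]
      mul_mem' := fun {a b} ha hb x => by rw [← mul_assoc, hb, ha]
      inv_mem' := fun {a} ha x => by rw [← ha (x * a⁻¹), inv_mul_cancel_right] }
  exact (zpowers_le (H := K)).2 h hk x

theorem QLa5_la (p : (D → D → ℝ) → D → ℝ) (h : ∀ t, QLa5A p p t) : LA D := by
  classical
  intro S
  choose R C h using h
  refine ⟨S.biUnion R, ∑ s ∈ S, |C s|, fun ω c => ⟨p ω, fun x s hs => ?_⟩⟩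
  have h1 := h s ω (QLa5_mono c (Finset.subset_biUnion_of_mem R hs)) x
  have h2 : |C s| ≤ ∑ s ∈ S, |C s| :=
    Finset.single_le_sum (f := fun s => |C s|) (fun _ _ => abs_nonneg _) hs
  have h3 := le_abs_self (C s)
  rw [abs_le] at h1
  refine abs_le.2 ⟨?_, ?_⟩ <;> linarith [h1.1, h1.2]

theorem QLa5_int (φ : ℤ → ℝ) : ∃ F : ℤ → ℝ, ∀ n, F (n + 1) - F n = φ n := by
  refine ⟨fun n => ∑ i ∈ Finset.range n.toNat, φ i -
    ∑ i ∈ Finset.range (-n).toNat, φ (-(i : ℤ) - 1), fun n => ?_⟩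
  rcases le_or_gt 0 n with h | h
  · obtain ⟨m, rfl⟩ := Int.eq_ofNat_of_zero_le h
    have e1 : ((m : ℤ) + 1).toNat = m + 1 := by omega
    have e2 : (-((m : ℤ) + 1)).toNat = 0 := by omega
    have e3 : (-(m : ℤ)).toNat = 0 := by omega
    simp only [e1, e2, e3, Int.toNat_natCast, Finset.sum_range_succ]
    ring
  · obtain ⟨m, rfl⟩ : ∃ m : ℕ, n = -(m : ℤ) - 1 := ⟨(-n - 1).toNat, by omega⟩
    have e1 : (-(m : ℤ) - 1 + 1).toNat = 0 := by omega
    have e2 : (-(-(m : ℤ) - 1 + 1)).toNat = m := by omega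
    have e3 : (-(-(m : ℤ) - 1)).toNat = m + 1 := by omega
    have e4 : (-(m : ℤ) - 1).toNat = 0 := by omega
    simp only [e1, e2, e3, e4, Finset.sum_range_succ]
    ring

/-- coordinates along the cosets of a subgroup -/
theorem QLa5_coset (H : Subgroup D) : ∃ (r : D → D) (h : D → H), (∀ x, r x * h x = x) ∧
    ∀ x (k : H), r (x * k) = r x ∧ h (x * k) = h x * k := by
  let r : D → D := fun x => (QuotientGroup.mk x : D ⧸ H).out
  have m : ∀ x, (r x)⁻¹ * x ∈ H := fun x => QuotientGroup.eq.1 (QuotientGroup.out_eq' _)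
  have e : ∀ x (k : H), r (x * k) = r x := fun x k => by
    simp only [r, QuotientGroup.mk_mul_of_mem x k.2]
  refine ⟨r, fun x => ⟨_, m x⟩, fun x => mul_inv_cancel_left _ _, fun x k => ⟨e x k, ?_⟩⟩
  apply Subtype.ext
  simp only [e x k, coe_mul, mul_assoc]

theorem QLa5_line (tf : TF D) (ε : D) : ∃ q : (D → D → ℝ) → D → ℝ, QLa5A q q ε := by
  by_cases h1 : ε = 1
  · exact ⟨fun _ _ => 0, h1 ▸ QLa5A.refl _⟩
  have inj : Function.Injective fun n : ℤ => ε ^ n := by
    rw [injective_zpow_iff_not_isOfFinOrder, isOfFinOrder_iff_pow_eq_one]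
    rintro ⟨n, hn, e⟩
    exact h1 (tf ε n hn e)
  obtain ⟨r, h, a1, a2⟩ := QLa5_coset (zpowers ε)
  choose n hn using fun x => mem_zpowers_iff.1 (h x).2
  choose F hF using QLa5_int
  refine ⟨fun ω x => F (fun i => ω (r x * ε ^ i) (r x * ε ^ i * ε)) (n x), ∅, 0, fun ω _ x => ?_⟩
  obtain ⟨b1, b2⟩ := a2 x ⟨ε, mem_zpowers ε⟩
  have b3 : n (x * ε) = n x + 1 := by
    apply inj
    simp only at b2 ⊢
    rw [hn, b2, zpow_add_one, hn]
    rfl
  simp only at b1 ⊢
  rw [b1, b3, hF, hn, a1, sub_self, abs_zero]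

theorem QLa5_rel (H : Subgroup D) (la : LA H) (tf : TF D) (fg : Group.FG H) {J : Type} [Fintype J]
    (e : J → D) (he : ∀ j, e j ∈ H)
    (mal : ∀ (j j' : J) (x a : D), x ∈ H → a ≠ 1 → a ∈ zpowers (e j) →
      x * a * x⁻¹ ∈ zpowers (e j') → j = j' ∧ x ∈ zpowers (e j))
    (B : J → (D → D → ℝ) → D → ℝ) (hB : ∀ j, QLa5A (B j) (B j) (e j)) :
    ∃ (p : (D → D → ℝ) → D → ℝ) (κ : J → (D → D → ℝ) → D → ℝ), (∀ h ∈ H, QLa5A p p h) ∧
      (∀ j ω x, κ j ω (x * e j) = κ j ω x) ∧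
      ∀ j, ∃ (R : Finset D) (C : ℝ), ∀ ω, Cocy R ω → ∀ x, |p ω x - B j ω x - κ j ω x| ≤ C := by
  classical
  have tfH : TF H := fun g n hn h => Subtype.ext (tf g n hn (congrArg Subtype.val h))
  let e' : {j // e j ≠ 1} → H := fun j => ⟨e j, he j⟩
  have mf : MalFam e' := by
    refine ⟨fun j h => j.2 (congrArg Subtype.val h), fun j j' x m n hm h => ?_⟩
    have h' : (x : D) * e j ^ m * (x : D)⁻¹ = e j' ^ n := by
      simpa [e'] using congrArg Subtype.val h
    have ne : e j ^ m ≠ 1 := by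
      intro c
      refine j.2 (tf _ m.natAbs (Int.natAbs_pos.2 hm) ?_)
      rw [← zpow_natCast, Int.natCast_natAbs, zpow_abs_eq_one, c]
    obtain ⟨a1, k, a2⟩ := mal j j' x _ x.2 ne ⟨m, rfl⟩ ⟨n, h'.symm⟩
    exact ⟨Subtype.ext a1, k, Subtype.ext (by simpa [e'] using a2)⟩
  obtain ⟨S, hS⟩ := fg.out
  obtain ⟨R₀, C₀, h₀⟩ := rel_la la tfH fg e' mf S
  choose R₁ C₁ h₁ using hB
  obtain ⟨M, M1, M2⟩ : ∃ M : ℝ, 1 ≤ M ∧ ∀ j, C₁ j ≤ M := by
    have n0 : 0 ≤ ∑ j, |C₁ j| := Finset.sum_nonneg fun _ _ => abs_nonneg _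
    refine ⟨1 + ∑ j, |C₁ j|, by linarith, fun j => ?_⟩
    have h2 : |C₁ j| ≤ ∑ j, |C₁ j| :=
      Finset.single_le_sum (f := fun j => |C₁ j|) (fun _ _ => abs_nonneg _) (Finset.mem_univ j)
    linarith [le_abs_self (C₁ j)]
  have M0 : 0 < M := by linarith
  have dv : ∀ a c : ℝ, |a / M| ≤ c ↔ |a| ≤ M * c := fun a c => by
    rw [abs_div, abs_of_pos M0, div_le_iff₀ M0, mul_comm]
  let R : Finset D := R₀.image Subtype.val ∪ Finset.univ.biUnion R₁
  have key : ∀ (ω : D → D → ℝ) (g : D), ∃ (p : H → ℝ) (κ : {j // e j ≠ 1} → H → ℝ),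
      (∀ j x, κ j (x * e' j) = κ j x) ∧ (Cocy R ω →
        (∀ x, ∀ s ∈ S, |p (x * s) - p x - ω (g * x) (g * x * s)| ≤ M * C₀) ∧
        ∀ j x, |p x - B j.1 ω (g * x) - κ j x| ≤ M * C₀) := by
    intro ω g
    by_cases c : Cocy R ω
    swap
    · exact ⟨fun _ => 0, fun _ _ => 0, fun _ _ => rfl, fun c' => absurd c' c⟩
    obtain ⟨p, κ, a1, a2, a3⟩ := h₀ (fun x y => ω (g * x) (g * y) / M)
      (fun j x => B j.1 ω (g * x) / M) ⟨fun x y => by
        simp only
        rw [c.1, neg_div], fun x a ha b hb => by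
        simp only
        rw [← add_div, ← add_div, dv, coe_mul, coe_mul, ← mul_assoc, ← mul_assoc]
        refine (c.2 (g * x) a ?_ b ?_).trans (by linarith)
        · exact Finset.mem_union_left _ (Finset.mem_image_of_mem _ ha)
        · exact Finset.mem_union_left _ (Finset.mem_image_of_mem _ hb)⟩ (fun j x => by
        rw [← sub_div, ← sub_div, dv, coe_mul, ← mul_assoc, mul_one]
        exact (h₁ j.1 ω (QLa5_mono c ((Finset.subset_biUnion_of_mem R₁ (Finset.mem_univ _)).trans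
          Finset.subset_union_right)) (g * x)).trans (M2 _))
    refine ⟨fun x => M * p x, fun j x => M * κ j x, fun j x => by simp only [a1], fun _ =>
      ⟨fun x s hs => ?_, fun j x => ?_⟩⟩
    · have := a2 x s hs
      rw [abs_sub_comm] at this
      rw [← dv]
      convert this using 2
      rw [coe_mul, ← mul_assoc]
      field_simp
    · have := a3 j x
      rw [← dv]
      convert this using 2
      field_simp
  choose p κ a1 a2 using key
  obtain ⟨r, h, b1, b2⟩ := QLa5_coset H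
  let P : (D → D → ℝ) → D → ℝ := fun ω x => p ω (r x) (h x)
  refine ⟨P, fun j ω x => if hj : e j = 1 then P ω x - B j ω x else κ ω (r x) ⟨j, hj⟩ (h x),
    ?_, ?_, ?_⟩
  · have : closure (S : Set H) ≤ (QLa5S P).comap H.subtype := by
      rw [closure_le]
      intro s hs
      refine ⟨R, M * C₀, fun ω c x => ?_⟩
      have := (a2 ω (r x) c).1 (h x) s hs
      rw [b1] at this
      simpa only [P, subtype_apply, (b2 x s).1, (b2 x s).2] using this
    intro k hk
    exact this (x := ⟨k, hk⟩) (hS ▸ mem_top _)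
  · intro j ω x
    by_cases hj : e j = 1
    · simp only [hj, mul_one]
    · obtain ⟨c1, c2⟩ := b2 x (e' ⟨j, hj⟩)
      simp only [hj, dif_neg, not_false_eq_true]
      rw [← a1 ω (r x) ⟨j, hj⟩ (h x), ← c2, ← c1]
  · intro j
    by_cases hj : e j = 1
    · exact ⟨∅, 0, fun ω c x => by simp [hj]⟩
    · refine ⟨R, M * C₀, fun ω c x => ?_⟩
      have := (a2 ω (r x) c).2 ⟨j, hj⟩ (h x)
      rw [b1] at this
      simpa only [hj, dif_neg, not_false_eq_true] using this

theorem QLa5_rep (D V : Type*) [Group D] [MulAction D V] : ∃ (rep : V → V) (g : V → D),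
    (∀ u, g u • rep u = u) ∧ ∀ (x : D) u, rep (x • u) = rep u := by
  let rep : V → V := fun u => (Quotient.mk (orbitRel D V) u).out
  have ex : ∀ u, ∃ g : D, g • rep u = u := fun u =>
    (orbitRel D V).symm (Quotient.mk_out (s := orbitRel D V) u)
  choose g hg using ex
  refine ⟨rep, g, hg, fun x u => ?_⟩
  have : Quotient.mk (orbitRel D V) (x • u) = Quotient.mk (orbitRel D V) u :=
    Quotient.sound (mem_orbit u x)
  simp only [rep, this]

end aux

theorem la_of_bip {D V : Type} [Group D] [MulAction D V] {d : V → V → ℤ} {C : V → Prop}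
    (tf : TF D) (b : Bip D d C) (cyc : ∀ c, C c → ∃ e : D, ∀ a : D, a • c = c → a ∈ zpowers e)
    (hv : ∀ v, ¬ C v → Group.FG (stabilizer D v) ∧ LA (stabilizer D v)) : LA D := by
  classical
  have I := b.zt.act
  have T := I.tr
  obtain ⟨rep, g, hg, hr⟩ := QLa5_rep D V
  have rr : ∀ u, rep (rep u) = rep u := fun u => by rw [← hr (g u) (rep u), hg]
  have cr : ∀ u, C (rep u) ↔ C u := fun u => by rw [← b.inv (g u) (rep u), hg]
  choose W W1 W2 W3 using b.fin.nbr b.zt
  have cyc' : ∀ (c : V) (K : Subgroup D), ∃ ε : D, C c → K ⊓ stabilizer D c = zpowers ε := by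
    intro c K
    by_cases hc : C c
    · obtain ⟨e, he⟩ := cyc c hc
      obtain ⟨n, hn⟩ := (le_zpowers_iff e (K ⊓ stabilizer D c)).1 fun a ha => he a ha.2
      exact ⟨_, fun _ => hn⟩
    · exact ⟨1, fun h => absurd h hc⟩
  choose ε hε using cyc'
  choose q hq using QLa5_line tf
  have m1 : ∀ c K a, C c → (a ∈ zpowers (ε c K) ↔ a ∈ K ∧ a • c = c) := fun c K a hc => by
    rw [← hε c K hc]; rfl
  let B : V → (D → D → ℝ) → D → ℝ := fun c ω x =>
    q (ε (rep c) ⊤) ω (x * g c) - ω x (x * g c)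
  have hB1 : ∀ c, QLa5A (B c) (q (ε (rep c) ⊤)) (g c) := fun c =>
    ⟨∅, 0, fun ω _ x => by simp [B]⟩
  have hB : ∀ c a, C c → a • c = c → QLa5A (B c) (B c) a := by
    intro c a hc ha
    have h1 : (g c)⁻¹ * a * g c ∈ zpowers (ε (rep c) ⊤) := by
      rw [m1 _ _ _ ((cr c).2 hc)]
      refine ⟨mem_top _, ?_⟩
      rw [mul_smul, mul_smul, hg, ha, inv_smul_eq_iff, hg]
    have := ((hB1 c).trans ((hq _).zpowers h1)).trans (hB1 c).symm
    rwa [show g c * ((g c)⁻¹ * a * g c) * (g c)⁻¹ = a by group] at this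
  have WC : ∀ v, ¬ C v → ∀ c ∈ W v, C c := fun v hv c hc => by
    have := b.alt v c (W1 v c hc)
    tauto
  have key : ∀ v, ∃ (p : (D → D → ℝ) → D → ℝ) (κ : V → (D → D → ℝ) → D → ℝ), ¬ C v →
      (∀ h, h • v = v → QLa5A p p h) ∧
      (∀ c ∈ W v, ∀ ω x a, a • v = v → a • c = c → κ c ω (x * a) = κ c ω x) ∧
      ∀ c ∈ W v, ∃ (R : Finset D) (M : ℝ), ∀ ω, Cocy R ω → ∀ x,
        |p ω x - B c ω x - κ c ω x| ≤ M := by
    intro v
    by_cases h : C v
    · exact ⟨fun _ _ => 0, fun _ _ _ => 0, fun h' => absurd h h'⟩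
    have m2 : ∀ (c : W v) a, a ∈ zpowers (ε c (stabilizer D v)) ↔ a • v = v ∧ a • (c : V) = c :=
      fun c a => m1 _ _ a (WC v h c c.2)
    obtain ⟨p, κ, a1, a2, a3⟩ := QLa5_rel (stabilizer D v) (hv v h).2 tf (hv v h).1
      (fun c : W v => ε c (stabilizer D v)) (fun c => ((m2 c _).1 (mem_zpowers _)).1)
      (by
        intro c c' x a hx ha h1 h2
        rw [m2] at h1 h2 ⊢
        have h3 : (x * a * x⁻¹) • x • (c : V) = x • (c : V) := by
          rw [← mul_smul, inv_mul_cancel_right, mul_smul, h1.2]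
        rcases b.acyl _ _ _ ((b.inv x c).2 (WC v h c c.2)) (WC v h c' c'.2) h3 h2.2 with h4 | h4
        · exfalso
          apply ha
          rw [show a = x⁻¹ * (x * a * x⁻¹) * x by group, h4]
          group
        · have h5 := W2 v c c.2 c' c'.2 x hx h4
          exact ⟨Subtype.ext h5, hx, h4.trans h5.symm⟩)
      (fun c => B c) (fun c => hB c _ (WC v h c c.2) ((m2 c _).1 (mem_zpowers _)).2)
    refine ⟨p, fun c => if hc : c ∈ W v then κ ⟨c, hc⟩ else 0, fun _ => ⟨a1, ?_, ?_⟩⟩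
    · intro c hc ω x a h1 h2
      simp only [hc, dif_pos]
      exact QLa5_inv (a2 ⟨c, hc⟩ ω) ((m2 ⟨c, hc⟩ a).2 ⟨h1, h2⟩) x
    · intro c hc
      simp only [hc, dif_pos]
      exact a3 ⟨c, hc⟩
  choose p κ hp using key
  have ed : ∀ u u', ∃ (c : V) (x : D), d u u' = 1 →
      c ∈ W (rep u) ∧ x • rep u = u ∧ x • c = u' := by
    intro u u'
    by_cases h : d u u' = 1
    swap
    · exact ⟨u, 1, fun h' => absurd h' h⟩
    obtain ⟨k, k1, k2⟩ := W3 (rep u) ((g u)⁻¹ • u') (by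
      rw [← I.iso (g u), hg, smul_inv_smul, h])
    refine ⟨_, g u * k⁻¹, fun _ => ⟨k2, ?_, ?_⟩⟩
    · rw [mul_smul, inv_smul_eq_iff.2 k1.symm, hg]
    · rw [mul_smul, inv_smul_smul, smul_inv_smul]
  choose jj xx hx using ed
  let K : (D → D → ℝ) → V → V → ℝ := fun ω u u' => κ (rep u) (jj u u') ω (xx u u')
  have hK : ∀ v, rep v = v → ¬ C v → ∀ c ∈ W v, ∀ ω (x : D), K ω (x • v) (x • c) = κ v c ω x := by
    intro v h1 h2 c hc ω x
    obtain ⟨a1, a2, a3⟩ := hx (x • v) (x • c) (by rw [I.iso, W1 v c hc])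
    simp only [K]
    rw [hr, h1] at a1 a2 ⊢
    have a4 : (x⁻¹ * xx (x • v) (x • c)) • v = v := by rw [mul_smul, a2, inv_smul_smul]
    have a5 : (x⁻¹ * xx (x • v) (x • c)) • jj (x • v) (x • c) = c := by
      rw [mul_smul, a3, inv_smul_smul]
    have a6 := W2 v _ a1 c hc _ a4 a5
    rw [a6] at a5 ⊢
    rw [← (hp v h2).2.1 c hc ω x _ a4 a5, mul_inv_cancel_left]
  have cb : ∀ ω, ∃ l : V → ℝ, ∀ u u', d u u' = 1 →
      (if C u then -K ω u' u else K ω u u') = l u' - l u := fun ω =>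
    T.cobound (fun u u' => if C u then -K ω u' u else K ω u u') fun u u' h => by
      have := b.alt u u' h
      by_cases hu : C u
      · simp only [hu, this.1 hu, if_true, if_false]
      · simp only [hu, show C u' by tauto, if_true, if_false, neg_neg]
  choose l hl using cb
  let P : V → (D → D → ℝ) → D → ℝ := fun w ω x =>
    (if C w then q (ε w ⊤) ω x else p w ω x) + l ω (x • w)
  have s1 : ∀ w h, h • w = w → QLa5A (P w) (P w) h := by
    intro w h hh
    have : QLa5A (fun ω x => if C w then q (ε w ⊤) ω x else p w ω x)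
        (fun ω x => if C w then q (ε w ⊤) ω x else p w ω x) h := by
      by_cases hw : C w
      · simp only [hw, if_true]
        exact (hq _).zpowers ((m1 _ _ _ hw).2 ⟨mem_top _, hh⟩)
      · simp only [hw, if_false]
        exact (hp w hw).1 h hh
    obtain ⟨R, M, this⟩ := this
    refine ⟨R, M, fun ω c x => ?_⟩
    simp only [P, mul_smul, hh]
    convert this ω c x using 2
    ring
  have s2 : ∀ v, rep v = v → ¬ C v → ∀ c ∈ W v, QLa5A (P v) (P (rep c)) (g c) := by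
    intro v h1 h2 c hc
    obtain ⟨R, M, a⟩ := (hp v h2).2.2 c hc
    refine ⟨R, M, fun ω co x => ?_⟩
    have a1 := hl ω (x • v) (x • c) (by rw [I.iso, W1 v c hc])
    rw [if_neg (by rw [b.inv]; exact h2), hK v h1 h2 c hc] at a1
    have a2 := a ω co x
    simp only [P, B, mul_smul, hg, h2, (cr c).2 (WC v h2 c hc), if_true, if_false] at a2 ⊢
    rw [abs_le] at *
    constructor <;> linarith [a2.1, a2.2]
  have s3 : ∀ u u', d u u' = 1 → ¬ C u → ∃ y y' : D, y • rep u = u ∧ y' • rep u' = u' ∧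
      QLa5A (P (rep u)) (P (rep u')) (y⁻¹ * y') := by
    intro u u' h hu
    obtain ⟨a1, a2, a3⟩ := hx u u' h
    have a4 : rep u' = rep (jj u u') := by rw [← hr (xx u u') (jj u u'), a3]
    refine ⟨xx u u', xx u u' * g (jj u u'), a2, by rw [a4, mul_smul, hg, a3], ?_⟩
    rw [inv_mul_cancel_left, a4]
    exact s2 _ (rr u) (by rw [cr]; exact hu) _ a1
  have s4 : ∀ u u', d u u' = 1 → ∃ y y' : D, y • rep u = u ∧ y' • rep u' = u' ∧
      QLa5A (P (rep u)) (P (rep u')) (y⁻¹ * y') := by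
    intro u u' h
    by_cases hu : C u
    · obtain ⟨y, y', a1, a2, a3⟩ := s3 u' u (by rw [T.symm, h]) ((b.alt u u' h).1 hu)
      exact ⟨y', y, a2, a1, by simpa using a3.symm⟩
    · exact s3 u u' h hu
  obtain ⟨o⟩ := I.ne
  have s5 : ∀ u, ∀ y : D, y • rep u = u → QLa5A (P (rep o)) (P (rep u)) y := by
    intro u
    refine T.ind_adj (P := fun u => ∀ y : D, y • rep u = u → QLa5A (P (rep o)) (P (rep u)) y)
      (x := rep o) (fun y hy => ?_) (fun u u' h ih z hz => ?_) u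
    · rw [rr] at hy ⊢
      exact s1 _ y hy
    · obtain ⟨y, y', a1, a2, a3⟩ := s4 u u' h
      have := ((ih y a1).trans a3).trans (s1 (rep u') (y'⁻¹ * z) (by
        rw [mul_smul, hz, inv_smul_eq_iff, a2]))
      rwa [show y * (y⁻¹ * y') * (y'⁻¹ * z) = z by group] at this
  refine QLa5_la (P (rep o)) fun t => ?_
  have := s5 (t • rep o) t (by rw [hr, rr])
  rwa [hr, rr] at this

end Pool.Agent.Work.MP_904812_al
end
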