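import Pool.Agent.Work.MP_904812_al.QGru
import Pool.Agent.Work.MP_904812_al.QCyl
import Pool.Agent.Work.MP_904812_al.QLa2

-- merged part: Pool.Agent.Work.MP_904812_al.QHG1
section
/-! The redundant initial part of a new band. -/

namespace Pool.Agent.Work.MP_904812_al

set_option linter.unusedSectionVars false
set_option linter.unusedVariables false

open Subgroup MulAction Relation

variable {G Y : Type} [Group G] [MulAction G Y] {d : Y → Y → ℝ} {r : Y → Y → Prop}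
  {F P : Finset Y} {B : Finset (G × Y × Y)} {c : ℤ} {φ : G} {x y : Y}

/-- special points: branch points and ends of bands -/
def QHG1_S (d : Y → Y → ℝ) (F : Finset Y) (B : Finset (G × Y × Y)) : Set Y :=
  {c | Br d F c ∨ ∃ β ∈ B, c = β.2.1 ∨ c = β.2.2 ∨ c = β.1 • β.2.1 ∨ c = β.1 • β.2.2}

theorem QHG1_fin (T : Tr d) : (QHG1_S d F B).Finite := by
  classical
  refine ((T.br_finite F).union (Finset.finite_toSet (B.biUnion fun β =>
    {β.2.1, β.2.2, β.1 • β.2.1, β.1 • β.2.2}))).subset ?_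
  rintro c (hc | ⟨β, hβ, hc⟩)
  · exact Or.inl hc
  · refine Or.inr (Finset.mem_coe.2 (Finset.mem_biUnion.2 ⟨β, hβ, ?_⟩))
    simpa using hc

theorem QHG1_unif {ι : Type*} {I : Set ι} (hI : I.Finite) (Q : ι → ℝ → Prop)
    (h : ∀ i ∈ I, ∃ e, 0 < e ∧ Q i e) (mono : ∀ i e e', e' ≤ e → Q i e → Q i e') :
    ∃ e, 0 < e ∧ ∀ i ∈ I, Q i e := by
  induction I, hI using Set.Finite.induction_on with
  | empty => exact ⟨1, one_pos, by simp⟩
  | @insert a s _ _ ih =>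
    obtain ⟨e, he, h1⟩ := ih fun i hi => h i (Set.mem_insert_of_mem _ hi)
    obtain ⟨e', he', h2⟩ := h a (Set.mem_insert _ _)
    refine ⟨min e e', lt_min he he', fun i hi => ?_⟩
    rcases hi with rfl | hi
    · exact mono _ _ _ (min_le_right _ _) h2
    · exact mono _ _ _ (min_le_left _ _) (h1 i hi)

theorem QHG1_min (f : Y → ℝ) (a : Y) (l : List Y) :
    ∃ m ∈ a :: l, ∀ b ∈ a :: l, f m ≤ f b := by
  classical
  obtain ⟨m, hm, hmin⟩ := Finset.exists_min_image (a :: l).toFinset f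
    ⟨a, List.mem_toFinset.2 List.mem_cons_self⟩
  exact ⟨m, List.mem_toFinset.1 hm, fun b hb => hmin b (List.mem_toFinset.2 hb)⟩

theorem QHG1_self (T : Tr d) {a p : Y} (e : Bt d a p a) : p = a :=
  (T.eq_of (le_antisymm ((T.bt_le e).trans (T.self a).le) (T.nonneg a p))).symm

theorem QHG1_anti (T : Tr d) {a p q : Y} (e : Bt d a p q) (e' : Bt d a q p) : p = q :=
  T.bt_uniq e (T.bt_right a q) (le_antisymm (T.bt_le e) (T.bt_le e'))

theorem QHG1_live (h : IAct G d) (ink : InK d F B) {a b : Y} {g g' : G} (c : UCn d B a b g g') :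
    g • b ∈ Hull d F ↔ g' • b ∈ Hull d F := by
  induction c with
  | rel g g' s =>
    obtain ⟨β, hβ, ⟨-, s2⟩, rfl⟩ := s
    obtain ⟨k1, k2, k3, k4⟩ := ink β hβ
    refine iff_of_true (h.tr.hull_conv k1 k2 s2) ?_
    rw [mul_smul]
    exact h.tr.hull_conv k3 k4 (h.bt β.1 s2)
  | refl g => exact Iff.rfl
  | symm g g' _ ih => exact ih.symm
  | trans g g' g'' _ _ ih ih' => exact ih.trans ih'

/-- a link that survives as long as one of its ends stays in the hull -/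
def QHG1_Good (d : Y → Y → ℝ) (F : Finset Y) (B : Finset (G × Y × Y)) (y t : Y) (g g' : G) :
    Prop :=
  ∀ z, Bt d t z y → (g • z ∈ Hull d F ∨ g' • z ∈ Hull d F) → UCn d B t z g g'

/-- if the chart `g` stays in the hull after `τ`, then the image of `τ` is special -/
def QHG1_Exit (d : Y → Y → ℝ) (F : Finset Y) (B : Finset (G × Y × Y)) (y : Y) (g : G) (τ : Y) :
    Prop :=
  ∀ z, Bt d τ z y → z ≠ τ → g • z ∈ Hull d F → g • τ ∈ QHG1_S d F B

/-- a link that dies at `τ` -/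
def QHG1_BL (d : Y → Y → ℝ) (F : Finset Y) (B : Finset (G × Y × Y)) (y t τ : Y) (g g' : G) :
    Prop :=
  Bt d t τ y ∧ UCn d B t τ g g' ∧ QHG1_Exit d F B y g τ ∧ QHG1_Exit d F B y g' τ

/-- chains of links, with the list of exits -/
inductive QHG1_Mx (d : Y → Y → ℝ) (F : Finset Y) (B : Finset (G × Y × Y)) (y t : Y) :
    List Y → G → G → Prop
  | nil (g : G) : QHG1_Mx d F B y t [] g g
  | good {l : List Y} {g g' g'' : G} : QHG1_Good d F B y t g g' → QHG1_Mx d F B y t l g' g'' →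
      QHG1_Mx d F B y t l g g''
  | bad {l : List Y} {τ : Y} {g g' g'' : G} : QHG1_BL d F B y t τ g g' →
      QHG1_Mx d F B y t l g' g'' → QHG1_Mx d F B y t (τ :: l) g g''

theorem QHG1_Mx.append {t : Y} {l l' : List Y} {g g' g'' : G} (a : QHG1_Mx d F B y t l g g')
    (b : QHG1_Mx d F B y t l' g' g'') : QHG1_Mx d F B y t (l ++ l') g g'' := by
  induction a with
  | nil g => exact b
  | good r _ ih => exact QHG1_Mx.good r (ih b)
  | bad r _ ih => exact QHG1_Mx.bad r (ih b)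

theorem QHG1_Mx.mem {t : Y} {l : List Y} {g g' : G} (a : QHG1_Mx d F B y t l g g') :
    ∀ τ ∈ l, Bt d t τ y := by
  induction a with
  | nil g => simp
  | good _ _ ih => exact ih
  | bad r _ ih =>
    intro τ hτ
    rcases List.mem_cons.1 hτ with rfl | hτ
    · exact r.1
    · exact ih τ hτ

theorem QHG1_exit (h : IAct G d) (ink : InK d F B) {t b : Y} (hb : Bt d t b y) {g : G}
    {β : G × Y × Y} (hβ : β ∈ B) (s : Along d t b g β) :
    ∃ τ, QHG1_BL d F B y t τ g (β.1 * g) := by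
  have T := h.tr
  obtain ⟨k1, k2, k3, k4⟩ := ink β hβ
  obtain ⟨n, n1, n2, n3⟩ := T.med' β.2.1 β.2.2 (g • y)
  have n4 := QFat_proj T s.1 n1 n2 n3
  have e : g • g⁻¹ • n = n := smul_inv_smul g n
  have key : ∀ z, Bt d (g⁻¹ • n) z y → Bt d β.2.1 n (g • z) ∧ Bt d β.2.2 n (g • z) := by
    intro z hz
    have hz' := h.bt g hz
    rw [e] at hz'
    exact ⟨(T.bt_trans' n2 hz').1, (T.bt_trans' n3 hz').1⟩
  refine ⟨g⁻¹ • n, by simpa using h.bt g⁻¹ n4,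
    EqvGen.rel _ _ ⟨β, hβ, ⟨s.1, by rwa [e]⟩, rfl⟩, fun z hz ne hK => ?_, fun z hz ne hK => ?_⟩
  · obtain ⟨a1, a2⟩ := key z hz
    rw [e]
    rcases T.med_cases k1 k2 hK n1 a1 a2 with c | c | c | c
    · exact Or.inr ⟨β, hβ, Or.inl c⟩
    · exact Or.inr ⟨β, hβ, Or.inr (Or.inl c)⟩
    · exact absurd (by rw [c, inv_smul_smul]) ne
    · exact Or.inl c
  · obtain ⟨a1, a2⟩ := key z hz
    rw [mul_smul] at hK
    rw [mul_smul, e]
    rcases T.med_cases k3 k4 hK (h.bt β.1 n1) (h.bt β.1 a1) (h.bt β.1 a2) with c | c | c | c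
    · exact Or.inr ⟨β, hβ, Or.inr (Or.inr (Or.inl c))⟩
    · exact Or.inr ⟨β, hβ, Or.inr (Or.inr (Or.inr c))⟩
    · exact absurd (by rw [(MulAction.injective β.1) c, inv_smul_smul]) ne
    · exact Or.inl c

theorem QHG1_of_ucn (h : IAct G d) (ink : InK d F B) {t b : Y} (hb : Bt d t b y) {g g' : G}
    (c : UCn d B t b g g') :
    (∃ l, QHG1_Mx d F B y t l g g') ∧ ∃ l, QHG1_Mx d F B y t l g' g := by
  induction c with
  | rel g g' s =>
    obtain ⟨β, hβ, s, rfl⟩ := s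
    obtain ⟨τ, t1, t2, t3, t4⟩ := QHG1_exit h ink hb hβ s
    exact ⟨⟨_, QHG1_Mx.bad ⟨t1, t2, t3, t4⟩ (QHG1_Mx.nil _)⟩,
      ⟨_, QHG1_Mx.bad ⟨t1, EqvGen.symm _ _ t2, t4, t3⟩ (QHG1_Mx.nil _)⟩⟩
  | refl g => exact ⟨⟨_, QHG1_Mx.nil _⟩, ⟨_, QHG1_Mx.nil _⟩⟩
  | symm g g' _ ih => exact ih.symm
  | trans g g' g'' _ _ ih ih' =>
    obtain ⟨⟨l₁, a₁⟩, ⟨l₂, a₂⟩⟩ := ih
    obtain ⟨⟨l₃, a₃⟩, ⟨l₄, a₄⟩⟩ := ih'
    exact ⟨⟨_, a₁.append a₃⟩, ⟨_, a₄.append a₂⟩⟩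

theorem QHG1_Mx.persist (h : IAct G d) (ink : InK d F B) {t z : Y} (hz : Bt d t z y)
    {l : List Y} {g g' : G} (a : QHG1_Mx d F B y t l g g') (hl : ∀ τ ∈ l, Bt d t z τ)
    (lv : g • z ∈ Hull d F ∨ g' • z ∈ Hull d F) : UCn d B t z g g' := by
  induction a with
  | nil g => exact EqvGen.refl _
  | good r _ ih =>
    rcases lv with lv | lv
    · have c := r z hz (Or.inl lv)
      exact EqvGen.trans _ _ _ c (ih hl (Or.inl ((QHG1_live h ink c).1 lv)))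
    · have c := ih hl (Or.inr lv)
      exact EqvGen.trans _ _ _ (r z hz (Or.inr ((QHG1_live h ink c).2 lv))) c
  | bad r _ ih =>
    have c := r.2.1.mono h (h.tr.bt_left _ _) (hl _ List.mem_cons_self)
    exact EqvGen.trans _ _ _ c (ih (fun τ hτ => hl τ (List.mem_cons_of_mem _ hτ))
      (lv.imp_left (QHG1_live h ink c).1))

theorem QHG1_Mx.shift (h : IAct G d) {t t' : Y} (ht : Bt d t t' y)
    {l : List Y} {g g' : G} (a : QHG1_Mx d F B y t l g g') (hl : ∀ τ ∈ l, Bt d t t' τ) :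
    QHG1_Mx d F B y t' l g g' := by
  have T := h.tr
  induction a with
  | nil g => exact QHG1_Mx.nil g
  | good r _ ih =>
    refine QHG1_Mx.good (fun z hz lv => ?_) (ih hl)
    obtain ⟨b1, b2⟩ := T.bt_trans' ht hz
    exact (r z b2 lv).mono h b1 (T.bt_right _ _)
  | bad r _ ih =>
    have b := hl _ List.mem_cons_self
    exact QHG1_Mx.bad ⟨(T.bt_trans b r.1).2, r.2.1.mono h b (T.bt_right _ _), r.2.2⟩
      (ih fun τ hτ => hl τ (List.mem_cons_of_mem _ hτ))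

theorem QHG1_Mx.split {t : Y} {l : List Y} {g g' : G} (a : QHG1_Mx d F B y t l g g')
    (E : Y → Prop) :
    (∀ τ ∈ l, ¬ E τ) ∨ ∃ l₁ l₂ a b τa τb, QHG1_Mx d F B y t l₁ g a ∧ QHG1_Mx d F B y t l₂ b g' ∧
      (∀ τ ∈ l₁ ++ l₂, ¬ E τ ∧ τ ∈ l) ∧ (l₁ ++ l₂).length < l.length ∧ E τa ∧ E τb ∧
      τa ∈ l ∧ τb ∈ l ∧ QHG1_Exit d F B y a τa ∧ QHG1_Exit d F B y b τb := by
  induction a with
  | nil g => exact Or.inl (by simp)
  | good r _ ih =>
    rcases ih with ih | ⟨l₁, l₂, a, b, τa, τb, h1, h2⟩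
    · exact Or.inl ih
    · exact Or.inr ⟨l₁, l₂, a, b, τa, τb, QHG1_Mx.good r h1, h2⟩
  | @bad l τ g g' g'' r m ih =>
    by_cases e : E τ
    · rcases ih with ih | ⟨l₁, l₂, a, b, τa, τb, h1, h2, h3, h4, h5, h6, h7, h8, h9, h10⟩
      · exact Or.inr ⟨[], l, g, g', τ, τ, QHG1_Mx.nil g, m,
          fun σ hσ => ⟨ih σ hσ, List.mem_cons_of_mem _ hσ⟩, by simp, e, e, List.mem_cons_self,
          List.mem_cons_self, r.2.2.1, r.2.2.2⟩
      · refine Or.inr ⟨[], l₂, g, b, τ, τb, QHG1_Mx.nil g, h2, fun σ hσ => ?_, ?_, e, h6,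
          List.mem_cons_self, List.mem_cons_of_mem _ h8, r.2.2.1, h10⟩
        · have := h3 σ (List.mem_append_right _ hσ)
          exact ⟨this.1, List.mem_cons_of_mem _ this.2⟩
        · simp only [List.length_append, List.length_cons, List.length_nil] at *; omega
    · rcases ih with ih | ⟨l₁, l₂, a, b, τa, τb, h1, h2, h3, h4, h5, h6, h7, h8, h9, h10⟩
      · refine Or.inl fun σ hσ => ?_
        rcases List.mem_cons.1 hσ with rfl | hσ
        · exact e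
        · exact ih σ hσ
      · refine Or.inr ⟨τ :: l₁, l₂, a, b, τa, τb, QHG1_Mx.bad r h1, h2, fun σ hσ => ?_, ?_, h5, h6,
          List.mem_cons_of_mem _ h7, List.mem_cons_of_mem _ h8, h9, h10⟩
        · rcases List.mem_cons.1 hσ with rfl | hσ
          · exact ⟨e, List.mem_cons_self⟩
          · exact ⟨(h3 σ hσ).1, List.mem_cons_of_mem _ (h3 σ hσ).2⟩
        · simp only [List.length_append, List.length_cons] at *; omega

/-- `k` is given by a path of bands along the segment from `c` to `m` -/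
def QHG1_Real (d : Y → Y → ℝ) (B : Finset (G × Y × Y)) (c f c' f' : Y) (k : G) (m : Y) : Prop :=
  Bt d c m f ∧ k • c = c' ∧ Bt d c' (k • m) f' ∧ UCn d B c m 1 k

/-- the uniform constant -/
structure QHG1_Cst (d : Y → Y → ℝ) (r : Y → Y → Prop) (F : Finset Y) (B : Finset (G × Y × Y))
    (ε : ℝ) : Prop where
  cls : ∀ c ∈ QHG1_S d F B, ∀ f ∈ F, (∃ z, Bt d c z f ∧ z ≠ c ∧ r c z) →
    ∃ z, Bt d c z f ∧ ε ≤ d c z ∧ r c z
  sep : ∀ c ∈ QHG1_S d F B, ∀ c' ∈ QHG1_S d F B, c ≠ c' → ε ≤ d c c'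
  typ : ∀ c ∈ QHG1_S d F B, ∀ f ∈ F, ∀ c' ∈ QHG1_S d F B, ∀ f' ∈ F,
    (∃ k m, m ≠ c ∧ QHG1_Real d B c f c' f' k m) → ∃ k m, ε ≤ d c m ∧ QHG1_Real d B c f c' f' k m

theorem QHG1_cst (T : Tr d) : ∃ ε, 0 < ε ∧ QHG1_Cst d r F B ε := by
  have fS := QHG1_fin (F := F) (B := B) T
  have fP := fS.prod F.finite_toSet
  obtain ⟨e₁, p₁, h₁⟩ := QHG1_unif fP (fun i e => (∃ z, Bt d i.1 z i.2 ∧ z ≠ i.1 ∧ r i.1 z) →
    ∃ z, Bt d i.1 z i.2 ∧ e ≤ d i.1 z ∧ r i.1 z) (by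
      intro i _
      by_cases e : ∃ z, Bt d i.1 z i.2 ∧ z ≠ i.1 ∧ r i.1 z
      · obtain ⟨z, z1, z2, z3⟩ := e
        exact ⟨d i.1 z, T.pos z2.symm, fun _ => ⟨z, z1, le_rfl, z3⟩⟩
      · exact ⟨1, one_pos, fun e' => absurd e' e⟩)
    (fun i e e' le a b => (a b).imp fun z hz => ⟨hz.1, le.trans hz.2.1, hz.2.2⟩)
  obtain ⟨e₂, p₂, h₂⟩ := QHG1_unif (fS.prod fS) (fun i e => i.1 ≠ i.2 → e ≤ d i.1 i.2) (by
      intro i _
      by_cases e : i.1 = i.2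
      · exact ⟨1, one_pos, fun e' => absurd e e'⟩
      · exact ⟨d i.1 i.2, T.pos e, fun _ => le_rfl⟩)
    (fun i e e' le a b => le.trans (a b))
  obtain ⟨e₃, p₃, h₃⟩ := QHG1_unif (fP.prod fP) (fun i e =>
    (∃ k m, m ≠ i.1.1 ∧ QHG1_Real d B i.1.1 i.1.2 i.2.1 i.2.2 k m) →
      ∃ k m, e ≤ d i.1.1 m ∧ QHG1_Real d B i.1.1 i.1.2 i.2.1 i.2.2 k m) (by
      intro i _
      by_cases e : ∃ k m, m ≠ i.1.1 ∧ QHG1_Real d B i.1.1 i.1.2 i.2.1 i.2.2 k m
      · obtain ⟨k, m, z1, z2⟩ := e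
        exact ⟨d i.1.1 m, T.pos z1.symm, fun _ => ⟨k, m, le_rfl, z2⟩⟩
      · exact ⟨1, one_pos, fun e' => absurd e' e⟩)
    (fun i e e' le a b => (a b).imp fun k hk => hk.imp fun m hm => ⟨le.trans hm.1, hm.2⟩)
  refine ⟨min e₁ (min e₂ e₃), lt_min p₁ (lt_min p₂ p₃), fun c hc f hf e => ?_,
    fun c hc c' hc' e => ?_, fun c hc f hf c' hc' f' hf' e => ?_⟩
  · exact (h₁ (c, f) ⟨hc, hf⟩ e).imp fun z hz => ⟨hz.1, (min_le_left _ _).trans hz.2.1, hz.2.2⟩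
  · exact ((min_le_right _ _).trans (min_le_left _ _)).trans (h₂ (c, c') ⟨hc, hc'⟩ e)
  · exact (h₃ ((c, f), (c', f')) ⟨⟨hc, hf⟩, ⟨hc', hf'⟩⟩ e).imp fun k hk => hk.imp fun m hm =>
      ⟨((min_le_right _ _).trans (min_le_right _ _)).trans hm.1, hm.2⟩

/-- a special exit is the last point of its class -/
theorem QHG1_last (h : Fat G d r) {ε : ℝ} (C : QHG1_Cst d r F B ε) {g : G} {τ b f : Y}
    (hS : g • τ ∈ QHG1_S d F B) (hf : f ∈ F) (hb : Bt d (g • τ) (g • b) f) (lt : d τ b < ε)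
    (n : ¬ r τ b) {z : Y} (hz : Bt d τ z b) (e : r τ z) : z = τ := by
  have T := h.act.tr
  by_contra ne
  obtain ⟨z₀, z1, z2, z3⟩ := C.cls _ hS f hf ⟨g • z, (T.bt_trans (h.act.bt g hz) hb).1,
    fun e' => ne (MulAction.injective g e'), h.inv g _ _ e⟩
  refine n ((h.inv_iff g).1 (h.conv _ _ _ z3 (T.bt_of_le hb z1 ?_).1))
  rw [h.act.iso]
  exact lt.le.trans z2

theorem QHG1_follow (h : IAct G d) {ε : ℝ} (C : QHG1_Cst d r F B ε) {g : G} {p m n z : Y}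
    (hS : g • p ∈ QHG1_S d F B) (hp : g • p ∈ Hull d F) (hm : g • m ∈ Hull d F)
    (hz : g • z ∈ Hull d F) (n0 : n ≠ p) (n1 : Bt d p n m) (n2 : Bt d p n y) (z1 : Bt d p z y)
    (lt : d p y < ε) (le : ε ≤ d p m) : Bt d p z m := by
  have T := h.tr
  obtain ⟨j, j1, j2, j3⟩ := T.med' p z m
  have lz := T.bt_le z1
  have lj := T.bt_le j1
  have key : j = p → Bt d p z m := by
    rintro rfl
    rcases le_total (d j z) (d j n) with c | c
    · exact (T.bt_trans (T.bt_of_le z1 n2 c).1 n1).1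
    · have c1 := (T.bt_of_le n2 z1 c).1
      have := T.pos n0.symm
      have := T.tri z n m
      have := T.symm z n
      have := T.symm z j
      simp only [Bt] at *
      linarith
  rcases T.med_cases hp hz hm (h.bt g j1) (h.bt g j2) (h.bt g j3) with c | c | c | c
  · exact key (MulAction.injective g c)
  · exact (MulAction.injective g c : j = z) ▸ j2
  · rw [(MulAction.injective g c : j = m)] at lj
    linarith
  · by_cases e : g • p = g • j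
    · exact key (MulAction.injective g e).symm
    · have := C.sep _ hS _ (Or.inl c) e
      rw [h.iso] at this
      linarith

theorem QHG1_chunk (h : Fat G d r) {ε : ℝ} (C : QHG1_Cst d r F B ε) {a b : G} {p n f f' : Y}
    (aS : a • p ∈ QHG1_S d F B) (bS : b • p ∈ QHG1_S d F B) (aK : a • p ∈ Hull d F)
    (bK : b • p ∈ Hull d F) (hf : f ∈ F) (hf' : f' ∈ F) (n1 : Bt d p n y) (nr : ¬ r p n)
    (fa : Bt d (a • p) (a • n) f) (fb : Bt d (b • p) (b • n) f') (c : UCn d B p n a b)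
    (lt : d p y < ε) : QHG1_Good d F B y p a b := by
  have T := h.act.tr
  have n0 : n ≠ p := fun e => nr (e ▸ h.eqv.refl _)
  have c1 : UCn d B (a • p) (a • n) 1 (b * a⁻¹) := by
    have := UCn.smul (a := a • p) (b := a • n) a⁻¹ (by simpa using c)
    rwa [mul_inv_cancel] at this
  obtain ⟨k, m, m1, m2, m3, m4, m5⟩ := C.typ _ aS f hf _ bS f' hf' ⟨b * a⁻¹, a • n,
    fun e => n0 (MulAction.injective a e), fa, by simp [mul_smul], by simpa [mul_smul] using fb, c1⟩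
  have ln := T.bt_le n1
  have b1 : Bt d (a • p) (a • n) m := (T.bt_of_le fa m2 (by rw [h.act.iso]; linarith)).1
  have b2 : Bt d (b • p) (k • a • n) (k • m) := m3 ▸ h.act.bt k b1
  have e1 : k • a • n = b • n := by
    refine T.bt_uniq (T.bt_trans b2 m4).1 fb ?_
    rw [h.act.iso b, ← m3, h.act.iso, h.act.iso]
  have hk : b⁻¹ * (k * a) = 1 :=
    h.arc (a := p) (b := n) (by rw [mul_smul, mul_smul, m3, inv_smul_smul])
      (by rw [mul_smul, mul_smul, e1, inv_smul_smul]) nr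
  have hk' : k * a = b := (inv_mul_eq_one.1 hk).symm
  have c2 : UCn d B p (a⁻¹ • m) a b := by
    have := UCn.smul (a := p) (b := a⁻¹ • m) a (by simpa using m5)
    rwa [one_mul, hk'] at this
  have b3 : Bt d p n (a⁻¹ • m) := by simpa using h.act.bt a⁻¹ b1
  have le : ε ≤ d p (a⁻¹ • m) := by rwa [← h.act.iso a, smul_inv_smul]
  intro z z1 lv
  refine c2.mono h.act (T.bt_left _ _) ?_
  rcases lv with lv | lv
  · refine QHG1_follow h.act C aS aK ?_ lv n0 b3 n1 z1 lt le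
    rw [smul_inv_smul]
    exact T.hull_conv aK (T.mem_hull hf) m2
  · refine QHG1_follow h.act C bS bK ?_ lv n0 b3 n1 z1 lt le
    rw [← hk', mul_smul, smul_inv_smul]
    exact T.hull_conv bK (T.mem_hull hf') m4

theorem QHG1_SK (T : Tr d) (ink : InK d F B) {c : Y} (hc : c ∈ QHG1_S d F B) : c ∈ Hull d F := by
  rcases hc with hc | ⟨β, hβ, hc⟩
  · exact T.br_hull hc
  · obtain ⟨k1, k2, k3, k4⟩ := ink β hβ
    rcases hc with rfl | rfl | rfl | rfl <;> assumption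

theorem QHG1_step (h : Fat G d r) (ink : InK d F B) (hx : x ∈ Hull d F) (hy : y ∈ Hull d F)
    (hx' : φ • x ∈ Hull d F) (hy' : φ • y ∈ Hull d F)
    (nr : ∀ p, Bt d x p y → p ≠ y → ¬ r p y)
    (hyp : ∀ p, Bt d x p y → p ≠ y → ∃ a b, r p a ∧ ¬ r a b ∧ Bt d p a b ∧ Bt d p b y ∧
      UCn d B a b 1 φ) {ε : ℝ} (C : QHG1_Cst d r F B ε) {t : Y} (ht : Bt d x t y)
    (lt : d t y < ε) {l : List Y} (m : QHG1_Mx d F B y t l 1 φ) :
    UCn d B t y 1 φ ∨ ∃ t' l', Bt d t t' y ∧ t' ≠ y ∧ l'.length < l.length ∧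
      QHG1_Mx d F B y t' l' 1 φ := by
  have T := h.act.tr
  have mem : ∀ {l' : List Y}, (∀ τ ∈ l', τ ∈ l) → ∀ τ ∈ y :: l', Bt d t τ y := by
    intro l' hl' τ hτ
    rcases List.mem_cons.1 hτ with rfl | hτ
    · exact T.bt_right _ _
    · exact m.mem τ (hl' τ hτ)
  obtain ⟨τ₁, t1, t2⟩ := QHG1_min (d t) y l
  have t3 := mem (fun _ a => a) τ₁ t1
  have t4 : ∀ τ ∈ l, Bt d t τ₁ τ := fun τ hτ =>
    (T.bt_of_le t3 (m.mem τ hτ) (t2 τ (List.mem_cons_of_mem _ hτ))).1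
  by_cases e : τ₁ = y
  · subst e
    exact Or.inl (m.persist h.act ink t3 t4 (Or.inl (by simpa using hy)))
  right
  have t5 : τ₁ ∈ l := (List.mem_cons.1 t1).resolve_left e
  rcases m.split (fun τ => r τ₁ τ) with e' |
    ⟨l₁, l₂, a, b, τa, τb, m1, m2, h3, h4, ra, rb, la, lb, ea, eb⟩
  · exact absurd (h.eqv.refl _) (e' _ t5)
  obtain ⟨n, n1, n2⟩ := QHG1_min (d t) y (l₁ ++ l₂)
  have n3 := mem (fun τ hτ => (h3 τ hτ).2) n n1
  have n4 : ∀ τ ∈ l₁ ++ l₂, Bt d t n τ := fun τ hτ =>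
    (T.bt_of_le n3 (m.mem τ (h3 τ hτ).2) (n2 τ (List.mem_cons_of_mem _ hτ))).1
  have n5 : ¬ r τ₁ n ∧ Bt d t τ₁ n := by
    rcases List.mem_cons.1 n1 with rfl | hn
    · exact ⟨nr _ (T.bt_trans' ht t3).2 e, t3⟩
    · exact ⟨(h3 n hn).1, t4 n (h3 n hn).2⟩
  have xn := (T.bt_trans' ht n3).2
  have p1 := m1.persist h.act ink n3 (fun τ hτ => n4 τ (List.mem_append_left _ hτ))
    (Or.inl (by simpa using T.hull_conv hx hy xn))
  have p2 := m2.persist h.act ink n3 (fun τ hτ => n4 τ (List.mem_append_right _ hτ))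
    (Or.inr (T.hull_conv hx' hy' (h.act.bt φ xn)))
  have aK := (QHG1_live h.act ink p1).1 (by simpa using T.hull_conv hx hy xn)
  have bK := (QHG1_live h.act ink p2).2 (T.hull_conv hx' hy' (h.act.bt φ xn))
  -- the two exits
  have key : ∀ (g : G) (τ : Y), τ ∈ l → r τ₁ τ → QHG1_Exit d F B y g τ → g • n ∈ Hull d F →
      Bt d t τ n ∧ ¬ r τ n ∧ g • τ ∈ QHG1_S d F B ∧ (∃ f ∈ F, Bt d (g • τ) (g • n) f) ∧
        ∀ z, Bt d τ z n → r τ z → z = τ := by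
    intro g τ hτ rτ ex gK
    have k1 := m.mem τ hτ
    have k2 : ¬ r τ n := fun e => n5.1 (h.eqv.trans rτ e)
    have k3 : Bt d t τ n := by
      rcases le_total (d t τ) (d t n) with c | c
      · exact (T.bt_of_le k1 n3 c).1
      · exact absurd (h.conv _ _ _ rτ (T.bt_trans n5.2 (T.bt_of_le n3 k1 c).1).2) n5.1
    have k4 := ex n (T.bt_trans k3 n3).2 (fun e => k2 (e ▸ h.eqv.refl _)) gK
    obtain ⟨f, hf, k5⟩ := T.hull_ext gK (g • τ)
    refine ⟨k3, k2, k4, ⟨f, hf, k5⟩, fun z hz e => QHG1_last h C k4 hf k5 ?_ k2 hz e⟩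
    have := T.bt_le n3
    have := T.nonneg t τ
    simp only [Bt] at k3
    linarith
  obtain ⟨a1, a2, a3, ⟨f, hf, a4⟩, a5⟩ := key a τa la ra ea aK
  obtain ⟨b1, b2, b3, ⟨f', hf', b4⟩, b5⟩ := key b τb lb rb eb bK
  have eab : τb = τa := by
    have rab := h.eqv.trans (h.eqv.symm ra) rb
    rcases le_total (d t τa) (d t τb) with c | c
    · exact a5 _ (T.bt_of_le a1 b1 c).2 rab
    · exact (b5 _ (T.bt_of_le b1 a1 c).2 (h.eqv.symm rab)).symm
  subst eab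
  obtain ⟨c1, c2⟩ := T.bt_trans a1 n3
  have ny : τb ≠ y := fun e => a2 (by
    rw [e] at c2
    rw [QHG1_self T c2, e]
    exact h.eqv.refl _)
  obtain ⟨u, v, u1, u2, u3, u4, u5⟩ := hyp τb (T.bt_trans' ht c1).2 ny
  have u6 := (T.bt_trans u3 u4).1
  have eu : u = τb := by
    rcases le_total (d τb u) (d τb n) with c | c
    · exact a5 u (T.bt_of_le u6 c2 c).1 u1
    · exact absurd (h.conv _ _ _ u1 (T.bt_of_le c2 u6 c).1) a2
  subst eu
  obtain ⟨w, w1, w2, w3⟩ : ∃ w, Bt d u w n ∧ Bt d u w v ∧ ¬ r u w := by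
    rcases le_total (d u n) (d u v) with c | c
    · exact ⟨n, T.bt_right _ _, (T.bt_of_le c2 u4 c).1, a2⟩
    · exact ⟨v, (T.bt_of_le u4 c2 c).1, T.bt_right _ _, u2⟩
  have w4 := (T.bt_trans' a1 w1).2
  have gd : QHG1_Good d F B y u a b := by
    refine QHG1_chunk h C a3 b3 (QHG1_SK T ink a3) (QHG1_SK T ink b3) hf hf'
      (T.bt_trans w1 c2).1 w3 (T.bt_trans (h.act.bt a w1) a4).1 (T.bt_trans (h.act.bt b w1) b4).1
      ?_ ?_
    · exact EqvGen.trans _ _ _ (EqvGen.symm _ _ (p1.mono h.act a1 w4))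
        (EqvGen.trans _ _ _ (u5.mono h.act (T.bt_left _ _) w2)
          (EqvGen.symm _ _ (p2.mono h.act a1 w4)))
    · have := T.nonneg t u
      simp only [Bt] at c1
      linarith
  have sh : ∀ τ ∈ l₁ ++ l₂, Bt d t u τ := fun τ hτ => (T.bt_trans a1 (n4 τ hτ)).1
  exact ⟨u, l₁ ++ l₂, c1, ny, h4,
    (m1.shift h.act c1 fun τ hτ => sh τ (List.mem_append_left _ hτ)).append (QHG1_Mx.good gd
      (m2.shift h.act c1 fun τ hτ => sh τ (List.mem_append_right _ hτ)))⟩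

/-- the closure lemma -/
theorem ucn_closure (h : Fat G d r) (ink : InK d F B) (hx : x ∈ Hull d F) (hy : y ∈ Hull d F)
    (hx' : φ • x ∈ Hull d F) (hy' : φ • y ∈ Hull d F)
    (nr : ∀ p, Bt d x p y → p ≠ y → ¬ r p y) (xy : x ≠ y)
    (hyp : ∀ p, Bt d x p y → p ≠ y → ∃ a b, r p a ∧ ¬ r a b ∧ Bt d p a b ∧ Bt d p b y ∧
      UCn d B a b 1 φ) :
    ∃ w, Bt d x w y ∧ w ≠ y ∧ UCn d B w y 1 φ := by
  have T := h.act.tr
  obtain ⟨ε, hε, C⟩ := QHG1_cst (r := r) (F := F) (B := B) T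
  have key : ∀ (n : ℕ) (t : Y) (l : List Y), Bt d x t y → t ≠ y → d t y < ε → l.length < n →
      QHG1_Mx d F B y t l 1 φ → ∃ w, Bt d x w y ∧ w ≠ y ∧ UCn d B w y 1 φ := by
    intro n
    induction n with
    | zero => intro t l _ _ _ hl; omega
    | succ n ih =>
      intro t l ht ty lt hl m
      rcases QHG1_step h ink hx hy hx' hy' nr hyp C ht lt m with e | ⟨t', l', b1, b2, b3, b4⟩
      · exact ⟨t, ht, ty, e⟩
      · refine ih t' l' (T.bt_trans' ht b1).2 b2 ?_ (by omega) b4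
        have := T.nonneg t t'
        simp only [Bt] at b1
        linarith
  have pxy := T.pos xy
  obtain ⟨p, p1, p2⟩ := T.ex_bt x y (t := d x y - min (d x y) (ε / 2))
    (sub_nonneg.2 (min_le_left _ _)) (sub_le_self _ (le_min pxy.le (by linarith)))
  have p3 : d p y = min (d x y) (ε / 2) := by
    simp only [Bt] at p1
    linarith
  have p4 : p ≠ y := by
    intro e
    rw [e, T.self] at p3
    exact (lt_min pxy (half_pos hε)).ne p3
  obtain ⟨a, b, a1, a2, a3, a4, a5⟩ := hyp p p1 p4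
  obtain ⟨c1, c2⟩ := T.bt_trans a3 a4
  obtain ⟨l, hl⟩ := (QHG1_of_ucn h.act ink c2 a5).1
  refine key _ a l (T.bt_trans' p1 c1).2 (fun e => nr p p1 p4 (e ▸ a1)) ?_ (Nat.lt_succ_self _) hl
  have := min_le_right (d x y) (ε / 2)
  have := T.nonneg p a
  simp only [Bt] at c1
  linarith

/-- the new band is redundant along the segment from `a` to `b` -/
def QHG1_Cov (d : Y → Y → ℝ) (r : Y → Y → Prop) (F : Finset Y) (B : Finset (G × Y × Y)) (φ : G)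
    (a b : Y) : Prop :=
  (∀ p, Bt d a p b → FP d r F (EB d B) (1, p) (φ, φ • p)) ∧
    (∀ p p', Bt d a p b → Bt d a p' b → ¬ r p p' →
      EqvGen (DSt d r F (EdB d r B)) (1, p, p') (φ, φ • p, φ • p')) ∧
    ∀ (Γ : Type) [Group Γ] (f : G → Y → Γ), RInv d r F f → Closed d B f →
      ∀ (g : G) p p', Bt d a (g • p) b → Bt d a (g • p') b →
        f (φ * g) p * (f g p)⁻¹ = f (φ * g) p' * (f g p')⁻¹

theorem QHG1_Cov.mono (T : Tr d) {a b b' : Y} (c : QHG1_Cov d r F B φ a b) (e : Bt d a b' b) :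
    QHG1_Cov d r F B φ a b' :=
  ⟨fun p hp => c.1 p (T.bt_trans hp e).1,
    fun p p' hp hp' => c.2.1 p p' (T.bt_trans hp e).1 (T.bt_trans hp' e).1,
    fun Γ _ f h1 h2 g p p' hp hp' =>
      c.2.2 Γ f h1 h2 g p p' (T.bt_trans hp e).1 (T.bt_trans hp' e).1⟩

theorem QHG1_of_ucn' (h : Fat G d r) {a b : Y} (c : UCn d B a b 1 φ) :
    QHG1_Cov d r F B φ a b := by
  refine ⟨fun p hp => by simpa using c.fp (r := r) (F := F) h.act hp,
    fun p p' hp hp' n => by simpa using (c.mono h.act hp hp').dst (F := F) h n,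
    fun Γ _ f h1 h2 g p p' hp hp' => ?_⟩
  simpa using ((c.mono h.act hp hp').smul g).closed h.act h2

theorem QHG1_of_rel (h : Fat G d r) {a b : Y} (ha : a ∈ Hull d F) (hb : b ∈ Hull d F)
    (ha' : φ • a ∈ Hull d F) (hb' : φ • b ∈ Hull d F) (e : r a b)
    (s : FP d r F (EB d B) (1, a) (φ, φ • a)) : QHG1_Cov d r F B φ a b := by
  have T := h.act.tr
  refine ⟨fun p hp => ?_, fun p p' hp hp' n => absurd (h.eqv.trans
    (h.eqv.symm (h.conv _ _ _ e hp)) (h.conv _ _ _ e hp')) n, fun Γ _ f h1 h2 g p p' hp hp' => ?_⟩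
  · have rp := h.conv _ _ _ e hp
    exact EqvGen.trans _ _ _
      (EqvGen.rel (1, p) (1, a) (Or.inl ⟨rfl, h.eqv.symm rp, T.hull_conv ha hb hp, ha⟩))
      (EqvGen.trans _ _ _ s (EqvGen.rel (φ, φ • a) (φ, φ • p)
        (Or.inl ⟨rfl, h.inv φ _ _ rp, ha', T.hull_conv ha' hb' (h.act.bt φ hp)⟩)))
  · have rp : r p p' := (h.inv_iff g).1
      (h.eqv.trans (h.eqv.symm (h.conv _ _ _ e hp)) (h.conv _ _ _ e hp'))
    rw [h1 g p p' (T.hull_conv ha hb hp) (T.hull_conv ha hb hp') rp,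
      h1 (φ * g) p p' (by rw [mul_smul]; exact T.hull_conv ha' hb' (h.act.bt φ hp))
        (by rw [mul_smul]; exact T.hull_conv ha' hb' (h.act.bt φ hp')) rp]

theorem QHG1_cases (T : Tr d) {a m b p : Y} (hm : Bt d a m b) (hp : Bt d a p b) :
    Bt d a p m ∨ Bt d m p b := by
  rcases le_total (d a p) (d a m) with c | c
  · exact Or.inl (T.bt_of_le hp hm c).1
  · exact Or.inr (T.bt_of_le hm hp c).2

theorem QHG1_Cov.glue (h : Fat G d r) {a m b : Y} (ha : a ∈ Hull d F) (hb : b ∈ Hull d F)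
    (ha' : φ • a ∈ Hull d F) (hb' : φ • b ∈ Hull d F) (hm : Bt d a m b)
    (c : QHG1_Cov d r F B φ a m) (c' : QHG1_Cov d r F B φ m b) : QHG1_Cov d r F B φ a b := by
  have T := h.act.tr
  refine ⟨fun p hp => (QHG1_cases T hm hp).elim (c.1 p) (c'.1 p), fun p p' hp hp' n => ?_,
    fun Γ _ f h1 h2 g p p' hp hp' => ?_⟩
  · have tr : ∀ q q', Bt d a q b → FSd d r (p, p') (q, q') →
        EqvGen (DSt d r F (EdB d r B)) (1, q, q') (φ, φ • q, φ • q') →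
        EqvGen (DSt d r F (EdB d r B)) (1, p, p') (φ, φ • p, φ • p') := by
      intro q q' hq s e
      exact EqvGen.trans _ _ _ (EqvGen.rel (1, p, p') (1, q, q')
        (Or.inl ⟨rfl, s, T.hull_conv ha hb hp, T.hull_conv ha hb hq⟩))
        (EqvGen.trans _ _ _ e (EqvGen.rel (φ, φ • q, φ • q') (φ, φ • p, φ • p')
          (Or.inl ⟨rfl, (h.fsd_smul φ).2 (h.fsd_symm s), T.hull_conv ha' hb' (h.act.bt φ hq),
            T.hull_conv ha' hb' (h.act.bt φ hp)⟩)))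
    have mid : Bt d p m p' → (¬ r p m → EqvGen (DSt d r F (EdB d r B)) (1, p, m) (φ, φ • p, φ • m))
        → (¬ r m p' → EqvGen (DSt d r F (EdB d r B)) (1, m, p') (φ, φ • m, φ • p')) →
        EqvGen (DSt d r F (EdB d r B)) (1, p, p') (φ, φ • p, φ • p') := by
      intro e e1 e2
      by_cases k : r p m
      · exact tr m p' hm (h.fsd_base k n) (e2 fun k' => n (h.eqv.trans k k'))
      · exact tr p m hp (h.fsd_symm (h.fsd_of_bt e k)) (e1 k)
    rcases QHG1_cases T hm hp with k | k <;> rcases QHG1_cases T hm hp' with k' | k'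
    · exact c.2.1 p p' k k' n
    · exact mid (T.bt_trans k (T.bt_trans' hm k').1).2 (c.2.1 p m k (T.bt_right _ _))
        (c'.2.1 m p' (T.bt_left _ _) k')
    · exact mid (T.bt_symm (T.bt_trans k' (T.bt_trans' hm k).1).2) (c'.2.1 p m k (T.bt_left _ _))
        (c.2.1 m p' (T.bt_right _ _) k')
    · exact c'.2.1 p p' k k' n
  · have key : ∀ p, Bt d a (g • p) b →
        f (φ * g) p * (f g p)⁻¹ = f (φ * g) (g⁻¹ • m) * (f g (g⁻¹ • m))⁻¹ := by
      intro p hp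
      rcases QHG1_cases T hm hp with k | k
      · exact c.2.2 Γ f h1 h2 g p _ k (by rw [smul_inv_smul]; exact T.bt_right _ _)
      · exact c'.2.2 Γ f h1 h2 g p _ k (by rw [smul_inv_smul]; exact T.bt_left _ _)
    rw [key p hp, key p' hp']

theorem QHG1_label (h : Fat G d r) {p q : Y} (n : ¬ r p q)
    (e : EqvGen (Fσ d r F (EdB d r B)) (p, q) (φ • p, φ • q)) :
    ∃ a b, r p a ∧ ¬ r a b ∧ Bt d p a b ∧ Bt d p b q ∧ UCn d B a b 1 φ := by
  obtain ⟨g, e⟩ := fσ_iff.1 e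
  have s := dst_fsd h (fun k δ ⟨_, _, _, _, _, e⟩ => e) n e
  have e1 : g⁻¹ * φ = 1 := h.n1 (p := p) (q := q) (by simpa [mul_smul] using s)
  obtain rfl := inv_mul_eq_one.1 e1
  simpa using dst_ucn h n e

open Classical in
theorem phase1 (h : Fat G d r) (ink : InK d F B) (hx : x ∈ Hull d F) (hy : y ∈ Hull d F)
    (hx' : φ • x ∈ Hull d F) (hy' : φ • y ∈ Hull d F)
    (seed : FP d r F (EB d B) (1, x) (φ, φ • x)) :
    ∃ q, Bt d x q y ∧ (∀ p, Bt d x p q → FP d r F (EB d B) (1, p) (φ, φ • p)) ∧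
      (∀ p p', Bt d x p q → Bt d x p' q → ¬ r p p' →
        EqvGen (DSt d r F (EdB d r B)) (1, p, p') (φ, φ • p, φ • p')) ∧
      (∀ (Γ : Type) [Group Γ] (f : G → Y → Γ), RInv d r F f → Closed d B f →
        Closed d {(φ, x, q)} f) ∧
      (q = y ∨ (¬ r q y ∧ ¬ EqvGen (Fσ d r F (EdB d r B)) (q, y) (φ • q, φ • y))) := by
  have T := h.act.tr
  suffices H : ∃ q, Bt d x q y ∧ QHG1_Cov d r F B φ x q ∧
      (q = y ∨ (¬ r q y ∧ ¬ EqvGen (Fσ d r F (EdB d r B)) (q, y) (φ • q, φ • y))) by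
    obtain ⟨q, q1, q2, q3⟩ := H
    refine ⟨q, q1, q2.1, q2.2.1, fun Γ _ f h1 h2 β hβ => ?_, q3⟩
    rw [Finset.mem_singleton.1 hβ]
    exact q2.2.2 Γ f h1 h2
  have K : ∀ {p}, Bt d x p y → p ∈ Hull d F := fun hp => T.hull_conv hx hy hp
  have K' : ∀ {p}, Bt d x p y → φ • p ∈ Hull d F := fun hp => T.hull_conv hx' hy' (h.act.bt φ hp)
  have E1 : ∀ {q q'}, Bt d x q q' → Bt d x q' y → QHG1_Cov d r F B φ x q → r q q' →
      QHG1_Cov d r F B φ x q' := fun {q q'} a b c e =>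
    c.glue h hx (K b) hx' (K' b) a (QHG1_of_rel h (K (T.bt_trans a b).1) (K b)
      (K' (T.bt_trans a b).1) (K' b) e (c.1 q (T.bt_right _ _)))
  have E2 : ∀ {q q'}, Bt d x q q' → Bt d x q' y → QHG1_Cov d r F B φ x q → UCn d B q q' 1 φ →
      QHG1_Cov d r F B φ x q' := fun {q q'} a b c e =>
    c.glue h hx (K b) hx' (K' b) a (QHG1_of_ucn' h e)
  have E3 : ∀ {p a b}, Bt d x p y → QHG1_Cov d r F B φ x p → r p a → Bt d p a b → Bt d p b y →
      UCn d B a b 1 φ → QHG1_Cov d r F B φ x b := by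
    intro p a b hp c e b1 b2 u
    obtain ⟨c1, c2⟩ := T.bt_trans' hp b2
    obtain ⟨c3, c4⟩ := T.bt_trans' c1 b1
    exact E2 c4 c2 (E1 c3 (T.bt_trans c4 c2).1 c e) u
  have c0 : QHG1_Cov d r F B φ x x := QHG1_of_rel h hx hx hx' hx' (h.eqv.refl x) seed
  let A : Set ℝ := {s | ∃ q, Bt d x q y ∧ d x q = s ∧ QHG1_Cov d r F B φ x q}
  have A0 : (0 : ℝ) ∈ A := ⟨x, T.bt_left _ _, T.self x, c0⟩
  have Ab : ∀ s ∈ A, s ≤ d x y := by
    rintro s ⟨q, q1, rfl, -⟩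
    exact T.bt_le q1
  have bdd : BddAbove A := ⟨_, Ab⟩
  obtain ⟨z, z1, z2⟩ := T.ex_bt x y (le_csSup bdd A0) (csSup_le ⟨_, A0⟩ Ab)
  have up : ∀ {q}, Bt d x q y → QHG1_Cov d r F B φ x q → Bt d x q z := fun {q} a c =>
    (T.bt_of_le a z1 (z2 ▸ le_csSup bdd ⟨q, a, rfl, c⟩)).1
  have low : ∀ {q}, Bt d x q z → q ≠ z → QHG1_Cov d r F B φ x q := by
    intro q a ne
    have lt : d x q < sSup A := by
      have := T.pos ne
      simp only [Bt] at a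
      linarith
    obtain ⟨s, ⟨q', q1, rfl, c⟩, hs⟩ := exists_lt_of_lt_csSup ⟨_, A0⟩ lt
    exact c.mono T (T.bt_of_le (T.bt_trans a z1).1 q1 hs.le).1
  by_cases cz : QHG1_Cov d r F B φ x z
  · refine ⟨z, z1, cz, or_iff_not_imp_left.2 fun ne => ?_⟩
    have n : ¬ r z y := fun e => ne (QHG1_anti T z1 (up (T.bt_right _ _)
      (E1 z1 (T.bt_right _ _) cz e)))
    refine ⟨n, fun e => ?_⟩
    obtain ⟨a, b, a1, a2, a3, a4, a5⟩ := QHG1_label h n e
    obtain ⟨c1, c2⟩ := T.bt_trans' z1 a4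
    obtain rfl := QHG1_anti T c1 (up c2 (E3 z1 cz a1 a3 a4 a5))
    exact a2 (h.eqv.symm a1)
  have nr : ∀ p, Bt d x p z → p ≠ z → ¬ r p z := fun p a ne e => cz (E1 a z1 (low a ne) e)
  have nr' : ∀ p, Bt d x p z → p ≠ z → ¬ r p y := fun p a ne e =>
    nr p a ne (h.conv _ _ _ e (T.bt_trans a z1).2)
  by_contra hn
  obtain ⟨w, w1, w2, w3⟩ := ucn_closure h ink hx (K z1) hx' (K' z1) nr (fun e => cz (e ▸ c0)) (by
    intro p a ne
    have p1 := (T.bt_trans a z1).1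
    have e : EqvGen (Fσ d r F (EdB d r B)) (p, y) (φ • p, φ • y) := by
      by_contra e
      exact hn ⟨p, p1, low a ne, Or.inr ⟨nr' p a ne, e⟩⟩
    obtain ⟨u, v, a1, a2, a3, a4, a5⟩ := QHG1_label h (nr' p a ne) e
    obtain ⟨c1, c2⟩ := T.bt_trans' p1 a4
    exact ⟨u, v, a1, a2, a3, (T.bt_trans c1 (up c2 (E3 p1 (low a ne) a1 a3 a4 a5))).2, a5⟩)
  exact cz (E2 w1 z1 (low w1 w2) w3)

end Pool.Agent.Work.MP_904812_al
end

-- merged part: Pool.Agent.Work.MP_904812_al.QHG2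
section
/-! Elementary operations on the index. -/

namespace Pool.Agent.Work.MP_904812_al

set_option linter.unusedSectionVars false
set_option linter.unusedVariables false

open Subgroup MulAction Relation

section count
variable {α β : Type*}

theorem QHG2_map {ρ : α → α → Prop} {ρ' : β → β → Prop} (f : α → β)
    (h : ∀ a b, ρ a b → EqvGen ρ' (f a) (f b)) {a b : α} (e : EqvGen ρ a b) :
    EqvGen ρ' (f a) (f b) := by
  induction e with
  | rel a b s => exact h a b s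
  | refl a => exact EqvGen.refl _
  | symm a b _ ih => exact EqvGen.symm _ _ ih
  | trans a b c _ _ ih ih' => exact EqvGen.trans _ _ _ ih ih'

theorem QHG2_insert_new [i : DecidableEq α] {ρ : α → α → Prop} {A : Finset α} {a : α}
    (h : ∀ b ∈ A, ¬ EqvGen ρ a b) : ncls ρ (insert a A) = ncls ρ A + 1 := by
  obtain rfl : i = fun a b => Classical.propDecidable (a = b) := Subsingleton.elim _ _
  exact ncls_insert_new h

theorem QHG2_insert [i : DecidableEq α] (ρ : α → α → Prop) (A : Finset α) (a : α) :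
    ncls ρ (insert a A) ≤ ncls ρ A + 1 := by
  obtain rfl : i = fun a b => Classical.propDecidable (a = b) := Subsingleton.elim _ _
  exact ncls_insert ρ A a

theorem QHG2_union_le (ρ : α → α → Prop) {A B C : Finset α}
    (h : ∀ c ∈ C, (∃ a ∈ A, EqvGen ρ c a) ∨ ∃ b ∈ B, EqvGen ρ c b) :
    ncls ρ C ≤ ncls ρ A + ncls ρ B := by
  classical
  unfold ncls
  refine le_trans (Finset.card_le_card ?_) (Finset.card_union_le _ _)
  intro q hq
  simp only [Finset.mem_image, Finset.mem_union] at hq ⊢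
  obtain ⟨c, hc, rfl⟩ := hq
  rcases h c hc with ⟨a, ha, e⟩ | ⟨a, ha, e⟩
  · exact Or.inl ⟨a, ha, (mk_eq_iff.2 e).symm⟩
  · exact Or.inr ⟨a, ha, (mk_eq_iff.2 e).symm⟩

theorem QHG2_union_ge (ρ : α → α → Prop) {A B C : Finset α} (hA : A ⊆ C) (hB : B ⊆ C)
    (h : ∀ a ∈ A, ∀ b ∈ B, ¬ EqvGen ρ a b) : ncls ρ A + ncls ρ B ≤ ncls ρ C := by
  classical
  unfold ncls
  rw [← Finset.card_union_of_disjoint]
  · refine Finset.card_le_card ?_
    intro q hq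
    simp only [Finset.mem_image, Finset.mem_union] at hq ⊢
    rcases hq with ⟨a, ha, e⟩ | ⟨a, ha, e⟩
    · exact ⟨a, hA ha, e⟩
    · exact ⟨a, hB ha, e⟩
  · rw [Finset.disjoint_left]
    intro q hq hq'
    simp only [Finset.mem_image] at hq hq'
    obtain ⟨a, ha, rfl⟩ := hq
    obtain ⟨b, hb, e⟩ := hq'
    exact h a ha b hb (mk_eq_iff.1 e.symm)

theorem QHG2_image_le [DecidableEq β] {ρ : α → α → Prop} {ρ' : β → β → Prop} (f : α → β)
    {A : Finset α} (h : ∀ a ∈ A, ∀ b ∈ A, EqvGen ρ a b → EqvGen ρ' (f a) (f b)) :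
    ncls ρ' (A.image f) ≤ ncls ρ A := by
  classical
  let g : Quot ρ → Quot ρ' := fun q =>
    if hq : ∃ a ∈ A, Quot.mk ρ a = q then Quot.mk ρ' (f hq.choose) else Quot.mk ρ' (f q.out)
  unfold ncls
  refine Finset.card_le_card_of_surjOn g ?_
  intro q hq
  simp only [Finset.coe_image, Set.mem_image, Finset.mem_coe] at hq ⊢
  obtain ⟨_, ⟨a, ha, rfl⟩, rfl⟩ := hq
  have hq : ∃ b ∈ A, Quot.mk ρ b = Quot.mk ρ a := ⟨a, ha, rfl⟩
  refine ⟨_, ⟨a, ha, rfl⟩, ?_⟩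
  simp only [g, dif_pos hq]
  exact mk_eq_iff.2 (h _ hq.choose_spec.1 _ ha (mk_eq_iff.1 hq.choose_spec.2))

end count

variable {G Y : Type} [Group G] [MulAction G Y] {d : Y → Y → ℝ} {r : Y → Y → Prop}
  {F P : Finset Y} {B : Finset (G × Y × Y)} {c : ℤ} {φ : G} {x y : Y}

theorem QHG2_back {E : G → Y → Prop} {a b : G × Y} (e : FP d r F E a b)
    (k : Cone d r F E P b.2) : Cone d r F E P a.2 :=
  Cone.fp (g := b.1) (g' := a.1) k (EqvGen.symm _ _ e)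

theorem QHG2_eqv {E : G → Y → Prop} {a b : Y} : EqvGen (Fρ d r F E P) a b ↔
    (∃ g : G, FP d r F E (1, a) (g, b)) ∨ (Cone d r F E P a ∧ Cone d r F E P b) := by
  constructor
  · intro e
    induction e with
    | rel a b s => exact s.imp_left fun s => s.imp fun g s => EqvGen.rel _ _ s
    | refl a => exact Or.inl ⟨1, EqvGen.refl _⟩
    | symm a b _ ih =>
      rcases ih with ⟨g, ih⟩ | ih
      · refine Or.inl ⟨1 * g⁻¹, EqvGen.symm _ _ ?_⟩
        have := ih.mul g⁻¹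
        rwa [mul_inv_cancel] at this
      · exact Or.inr ih.symm
    | trans a b c _ _ ih ih' =>
      rcases ih with ⟨g, ih⟩ | ih <;> rcases ih' with ⟨g', ih'⟩ | ih'
      · have := ih'.mul g
        rw [one_mul] at this
        exact Or.inl ⟨g' * g, EqvGen.trans _ _ _ ih this⟩
      · exact Or.inr ⟨QHG2_back ih ih'.1, ih'.2⟩
      · exact Or.inr ⟨ih.1, ih.2.fp ih'⟩
      · exact Or.inr ⟨ih.1, ih'.2⟩
  · rintro (⟨g, e⟩ | e)
    · refine QHG2_map (fun c : G × Y => c.2) (fun a b s => EqvGen.rel _ _ (Or.inl ?_)) e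
      rcases s with ⟨s1, s2, s3, s4⟩ | ⟨k, s1, rfl⟩
      · exact ⟨1, Or.inl ⟨rfl, s2, s3, s4⟩⟩
      · exact ⟨k * 1, Or.inr ⟨k, s1, rfl⟩⟩
    · exact EqvGen.rel _ _ (Or.inr e)

theorem QHG2_bt_self (T : Tr d) {a p : Y} (e : Bt d a p a) : p = a := by
  apply T.eq_of
  have := T.self a
  have := T.symm a p
  have := T.nonneg a p
  simp only [Bt] at e
  linarith

theorem pi_base (h : Fat G d r) (x₀ : Y) : PI (G := G) d r {x₀} ∅ ∅ 0 := by
  have T := h.act.tr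
  have hH : ∀ p ∈ Hull d {x₀}, p = x₀ := by
    rintro p ⟨u, hu, v, hv, e⟩
    rw [Finset.mem_singleton] at hu hv
    subst hu hv
    exact QHG2_bt_self T e
  refine ⟨∅, by simp, fun A _ hA Δ hΔ => ?_⟩
  have : Δ = ∅ := by
    refine Finset.eq_empty_of_forall_notMem fun δ hδ => ?_
    obtain ⟨a1, a2, a3⟩ := hΔ δ hδ
    rw [hH _ (hA _ a1), hH _ a2] at a3
    exact a3 (h.eqv.refl _)
  subst this
  have := ncls_le_card (Fσ d r {x₀} (EdB (G := G) d r ∅)) ∅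
  rw [Finset.card_empty] at this
  omega

theorem QHG2_gate (T : Tr d) (ne : F.Nonempty) (f : Y) :
    ∃ z ∈ Hull d F, ∀ p ∈ Hull d F, Bt d f z p := by
  obtain ⟨u₀, hu₀⟩ := id ne
  choose m hm using fun v => T.med' f u₀ v
  obtain ⟨v₀, hv₀, hmin⟩ := F.exists_min_image (fun v => d f (m v)) ne
  have k : ∀ v ∈ F, Bt d f (m v₀) v := fun v hv =>
    (T.bt_trans (T.bt_of_le (hm v₀).1 (hm v).1 (hmin v hv)).1 (hm v).2.1).1
  refine ⟨m v₀, ⟨u₀, hu₀, v₀, hv₀, (hm v₀).2.2⟩, ?_⟩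
  rintro p ⟨u, hu, v, hv, e⟩
  rcases T.bt_split e (m v₀) with a | a
  · exact (T.bt_trans' (k u hu) a).1
  · exact (T.bt_trans' (k v hv) a).1

theorem QHG2_hull [DecidableEq Y] (T : Tr d) {f z : Y} (hz : z ∈ Hull d F)
    (gate : ∀ p ∈ Hull d F, Bt d f z p) {p : Y} (hp : p ∈ Hull d (insert f F)) :
    p ∈ Hull d F ∨ Bt d f p z := by
  have k : ∀ v ∈ F, Bt d f p v → p ∈ Hull d F ∨ Bt d f p z := by
    intro v hv e
    have e' := gate v (T.mem_hull hv)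
    rcases le_total (d f p) (d f z) with a | a
    · exact Or.inr (T.bt_of_le e e' a).1
    · exact Or.inl (T.hull_conv hz (T.mem_hull hv) (T.bt_of_le e' e a).2)
  obtain ⟨u, hu, v, hv, e⟩ := hp
  rcases Finset.mem_insert.1 hu with rfl | hu' <;> rcases Finset.mem_insert.1 hv with rfl | hv'
  · rw [QHG2_bt_self T e]
    exact Or.inr (T.bt_left _ _)
  · exact k v hv' e
  · exact k u hu' (T.bt_symm e)
  · exact Or.inl ⟨u, hu', v, hv', e⟩

theorem QHG2_sig {Ed : G → Y × Y → Prop} {δ δ' : Y × Y} (a : FSd d r δ δ')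
    (h1 : δ.1 ∈ Hull d F) (h2 : δ'.1 ∈ Hull d F) : EqvGen (Fσ d r F Ed) δ δ' :=
  EqvGen.rel _ _ ⟨1, Or.inl ⟨rfl, a, h1, h2⟩⟩

theorem QHG2_sig_mono {Ed Ed' : G → Y × Y → Prop} {F' : Finset Y} (hE : ∀ k δ, Ed k δ → Ed' k δ)
    (hF : F ⊆ F') (Δ : Finset (Y × Y)) : ncls (Fσ d r F' Ed') Δ ≤ ncls (Fσ d r F Ed) Δ := by
  have hH : ∀ x ∈ Hull d F, x ∈ Hull d F' := fun x ⟨u, hu, v, hv, c⟩ => ⟨u, hF hu, v, hF hv, c⟩
  refine ncls_mono_rel (fun a b s => EqvGen.rel _ _ ?_) Δ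
  obtain ⟨g, ⟨s1, s2, s3, s4⟩ | ⟨k, s1, s2⟩⟩ := s
  · exact ⟨g, Or.inl ⟨s1, s2, hH _ s3, hH _ s4⟩⟩
  · exact ⟨g, Or.inr ⟨k, hE _ _ s1, s2⟩⟩

open Classical in
theorem pi_addF (h : Fat G d r) (ink : InK d F B) (ne : F.Nonempty) (hP : ∀ s ∈ P, s ∈ Hull d F)
    (p : PI d r F B P c) (f : Y) : PI d r (insert f F) B P c := by
  have T := h.act.tr
  obtain ⟨V, hV, Q⟩ := p
  obtain ⟨z, hz, gate⟩ := QHG2_gate T ne f
  have sub : F ⊆ insert f F := Finset.subset_insert f F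
  have hH : ∀ p ∈ Hull d F, p ∈ Hull d (insert f F) :=
    fun p ⟨u, hu, v, hv, c⟩ => ⟨u, sub hu, v, sub hv, c⟩
  have cas : ∀ p ∈ Hull d (insert f F), p ∈ Hull d F ∨ Bt d f p z :=
    fun p hp => QHG2_hull T hz gate hp
  have both : ∀ p ∈ Hull d F, Bt d f p z → p = z := fun p hp e =>
    T.bt_uniq e (T.bt_right f z) (le_antisymm (T.bt_le e) (T.bt_le (gate p hp)))
  have thru : ∀ p ∈ Hull d F, ∀ q, Bt d f q z → Bt d p z q := fun p hp q e =>
    T.bt_symm (T.bt_trans e (gate p hp)).2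
  obtain ⟨N, hN⟩ : ∃ N : Y → Prop, ∀ p, N p ↔ Bt d f p z ∧ ¬ r z p := ⟨_, fun _ => Iff.rfl⟩
  obtain ⟨π, hπ⟩ : ∃ π : Y → Y, ∀ p, π p = if Bt d f p z then z else p := ⟨_, fun _ => rfl⟩
  have oldN : ∀ p ∈ Hull d F, ¬ N p := fun p hp e => by
    obtain ⟨e1, e2⟩ := (hN p).1 e
    rw [both p hp e1] at e2
    exact e2 (h.eqv.refl z)
  have oldπ : ∀ p ∈ Hull d F, π p = p := fun p hp => by
    rw [hπ]
    split_ifs with e
    · exact (both p hp e).symm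
    · rfl
  have proj : ∀ p ∈ Hull d (insert f F), ¬ N p → π p ∈ Hull d F ∧ r p (π p) ∧
      (π p = p ∨ π p = z) := fun p hp n => by
    by_cases e : Bt d f p z
    · have e' : π p = z := by rw [hπ, if_pos e]
      rw [e']
      refine ⟨hz, h.eqv.symm ?_, Or.inr rfl⟩
      by_contra n'
      exact n ((hN p).2 ⟨e, n'⟩)
    · have e' : π p = p := by rw [hπ, if_neg e]
      rw [e']
      exact ⟨(cas p hp).resolve_right e, h.eqv.refl p, Or.inl rfl⟩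
  have clo : ∀ p q, N p → q ∈ Hull d (insert f F) → r p q → N q := fun p q n hq e => by
    obtain ⟨e1, e2⟩ := (hN p).1 n
    rcases cas q hq with a | a
    · exact absurd (h.eqv.symm (h.conv _ _ _ e (T.bt_symm (thru q a p e1)))) e2
    · exact (hN q).2 ⟨a, fun e' => e2 (h.eqv.trans e' (h.eqv.symm e))⟩
  have K : ∀ a b : G × Y, FP d r (insert f F) (EB d B) a b →
      (N a.2 ∧ N b.2 ∧ a.1 = b.1 ∧ r a.2 b.2) ∨
      (¬ N a.2 ∧ ¬ N b.2 ∧ FP d r F (EB d B) (a.1, π a.2) (b.1, π b.2)) := by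
    intro a b e
    induction e with
    | rel a b s =>
      rcases s with ⟨s1, s2, s3, s4⟩ | ⟨k, ⟨u, v, s1, s2⟩, rfl⟩
      · by_cases n : N a.2
        · exact Or.inl ⟨n, clo _ _ n s4 s2, s1.symm, s2⟩
        · have n' : ¬ N b.2 := fun n' => n (clo _ _ n' s3 (h.eqv.symm s2))
          obtain ⟨a1, a2, -⟩ := proj _ s3 n
          obtain ⟨b1, b2, -⟩ := proj _ s4 n'
          exact Or.inr ⟨n, n', EqvGen.rel _ _ (Or.inl
            ⟨s1, h.eqv.trans (h.eqv.symm a2) (h.eqv.trans s2 b2), a1, b1⟩)⟩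
      · obtain ⟨i1, i2, i3, i4⟩ := ink _ s1
        have a1 := T.hull_conv i1 i2 s2
        have b1 := T.hull_conv i3 i4 (h.act.bt k s2)
        refine Or.inr ⟨oldN _ a1, oldN _ b1, ?_⟩
        rw [oldπ _ a1, oldπ _ b1]
        exact EqvGen.rel _ _ (Or.inr ⟨k, ⟨u, v, s1, s2⟩, rfl⟩)
    | refl a =>
      by_cases n : N a.2
      · exact Or.inl ⟨n, n, rfl, h.eqv.refl _⟩
      · exact Or.inr ⟨n, n, EqvGen.refl _⟩
    | symm a b _ ih =>
      rcases ih with ⟨a1, a2, a3, a4⟩ | ⟨a1, a2, a3⟩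
      · exact Or.inl ⟨a2, a1, a3.symm, h.eqv.symm a4⟩
      · exact Or.inr ⟨a2, a1, EqvGen.symm _ _ a3⟩
    | trans a b c _ _ ih ih' =>
      rcases ih with ⟨a1, a2, a3, a4⟩ | ⟨a1, a2, a3⟩ <;>
        rcases ih' with ⟨b1, b2, b3, b4⟩ | ⟨b1, b2, b3⟩
      · exact Or.inl ⟨a1, b2, a3.trans b3, h.eqv.trans a4 b4⟩
      · exact absurd a2 b1
      · exact absurd b1 a2
      · exact Or.inr ⟨a1, b2, EqvGen.trans _ _ _ a3 b3⟩
  have KC : ∀ a, Cone d r (insert f F) (EB d B) P a → ¬ N a ∧ Cone d r F (EB d B) P (π a) := by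
    rintro a (⟨s, hs, g, e⟩ | ⟨g, hg, e⟩)
    · rcases K _ _ e with ⟨-, a2, -⟩ | ⟨a1, -, a3⟩
      · exact absurd a2 (oldN s (hP s hs))
      · rw [oldπ s (hP s hs)] at a3
        exact ⟨a1, Or.inl ⟨s, hs, g, a3⟩⟩
    · rcases K _ _ e with ⟨-, -, a3, -⟩ | ⟨a1, -, a3⟩
      · exact absurd a3.symm hg
      · exact ⟨a1, Or.inr ⟨g, hg, a3⟩⟩
  have KE : ∀ a b, EqvGen (Fρ d r (insert f F) (EB d B) P) a b → (N a ∧ N b ∧ r a b) ∨
      (¬ N a ∧ ¬ N b ∧ EqvGen (Fρ d r F (EB d B) P) (π a) (π b)) := by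
    intro a b e
    rcases QHG2_eqv.1 e with ⟨g, e⟩ | ⟨e1, e2⟩
    · rcases K _ _ e with ⟨a1, a2, -, a4⟩ | ⟨a1, a2, a3⟩
      · exact Or.inl ⟨a1, a2, a4⟩
      · exact Or.inr ⟨a1, a2, QHG2_eqv.2 (Or.inl ⟨g, a3⟩)⟩
    · exact Or.inr ⟨(KC a e1).1, (KC b e2).1, QHG2_eqv.2 (Or.inr ⟨(KC a e1).2, (KC b e2).2⟩)⟩
  have hf : f ∈ Hull d (insert f F) := T.mem_hull (Finset.mem_insert_self f F)
  refine ⟨insert f (insert z V), fun v hv => ?_, fun A hVA hA Δ hΔ => ?_⟩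
  · rcases Finset.mem_insert.1 hv with rfl | hv
    · exact hf
    · rcases Finset.mem_insert.1 hv with rfl | hv
      · exact hH _ hz
      · exact hH _ (hV v hv)
  obtain ⟨A₀, hA₀⟩ : ∃ A₀ : Finset Y, ∀ p, p ∈ A₀ ↔ p ∈ A ∧ p ∈ Hull d F :=
    ⟨A.filter (· ∈ Hull d F), fun p => Finset.mem_filter⟩
  obtain ⟨A₁, hA₁⟩ : ∃ A₁ : Finset Y, ∀ p, p ∈ A₁ ↔ p ∈ A ∧ N p :=
    ⟨A.filter N, fun p => Finset.mem_filter⟩
  obtain ⟨Δ₀, hΔ₀⟩ : ∃ Δ₀ : Finset (Y × Y), ∀ δ, δ ∈ Δ₀ ↔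
      (δ.1 ∈ A₀ ∧ (δ.2 = z ∨ ∃ ε ∈ Δ, ε.2 = δ.2)) ∧ δ.2 ∈ Hull d F ∧ ¬ r δ.1 δ.2 :=
    ⟨(A₀ ×ˢ insert z (Δ.image Prod.snd)).filter fun δ => δ.2 ∈ Hull d F ∧ ¬ r δ.1 δ.2,
      fun δ => by
        rw [Finset.mem_filter, Finset.mem_product, Finset.mem_insert, Finset.mem_image]⟩
  have fA : f ∈ A := hVA (Finset.mem_insert_self _ _)
  have zA : z ∈ A₀ :=
    (hA₀ z).2 ⟨hVA (Finset.mem_insert_of_mem (Finset.mem_insert_self _ _)), hz⟩
  have q0 := Q A₀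
    (fun v hv => (hA₀ v).2 ⟨hVA (Finset.mem_insert_of_mem (Finset.mem_insert_of_mem hv)), hV v hv⟩)
    (fun p hp => ((hA₀ p).1 hp).2) Δ₀
    (fun δ hδ => ⟨((hΔ₀ δ).1 hδ).1.1, ((hΔ₀ δ).1 hδ).2⟩)
  have q1 := QHG2_union_ge (Fρ d r (insert f F) (EB d B) P) (A := A₀) (B := A₁) (C := A)
    (fun p hp => ((hA₀ p).1 hp).1) (fun p hp => ((hA₁ p).1 hp).1) (fun a ha b hb e => by
      rcases KE a b e with ⟨a1, -⟩ | ⟨-, a2, -⟩
      · exact oldN a ((hA₀ a).1 ha).2 a1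
      · exact a2 ((hA₁ b).1 hb).2)
  have q2 : ncls (Fρ d r F (EB d B) P) A₀ ≤ ncls (Fρ d r (insert f F) (EB d B) P) A₀ := by
    refine ncls_le_of (fun a ha => ⟨a, ha, EqvGen.refl a⟩) fun a ha b hb e => ?_
    rcases KE a b e with ⟨a1, -⟩ | ⟨-, -, a3⟩
    · exact absurd a1 (oldN a ((hA₀ a).1 ha).2)
    · rwa [oldπ a ((hA₀ a).1 ha).2, oldπ b ((hA₀ b).1 hb).2] at a3
  have q3 : ncls r A₁ ≤ ncls (Fρ d r (insert f F) (EB d B) P) A₁ := by
    refine ncls_le_of (fun a ha => ⟨a, ha, EqvGen.refl a⟩) fun a ha b hb e => ?_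
    rcases KE a b e with ⟨-, -, a3⟩ | ⟨a1, -⟩
    · exact EqvGen.rel _ _ a3
    · exact absurd ((hA₁ a).1 ha).2 a1
  have nz : ∀ p, N p → ¬ r p z := fun p n e => ((hN p).1 n).2 (h.eqv.symm e)
  have q4 : ncls (Fσ d r (insert f F) (EdB d r B)) (A₁.image fun p => (p, z)) ≤ ncls r A₁ := by
    refine QHG2_image_le _ fun a ha b hb e => ?_
    exact QHG2_sig (h.fsd_base (h.eqv.eqvGen_iff.1 e) (nz a ((hA₁ a).1 ha).2))
      (hA a ((hA₁ a).1 ha).1) (hA b ((hA₁ b).1 hb).1)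
  have q5 : ncls (Fσ d r (insert f F) (EdB d r B))
      (A₁.image fun p => if r p f then (z, f) else (p, f)) ≤ ncls r A₁ := by
    refine QHG2_image_le _ fun a ha b hb e => ?_
    have e' := h.eqv.eqvGen_iff.1 e
    by_cases n : r a f
    · rw [if_pos n, if_pos (h.eqv.trans (h.eqv.symm e') n)]
      exact EqvGen.refl _
    · rw [if_neg n, if_neg fun n' => n (h.eqv.trans e' n')]
      exact QHG2_sig (h.fsd_base e' n) (hA a ((hA₁ a).1 ha).1) (hA b ((hA₁ b).1 hb).1)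
  have q6 := QHG2_sig_mono (d := d) (r := r) (Ed := EdB d r B) (Ed' := EdB d r B)
    (fun _ _ e => e) sub Δ₀
  have q7 := QHG2_union_le (Fσ d r (insert f F) (EdB d r B))
    (A := A₁.image fun p => (p, z)) (B := A₁.image fun p => if r p f then (z, f) else (p, f))
    (C := (A₁.image fun p => (p, z)) ∪ A₁.image fun p => if r p f then (z, f) else (p, f))
    (fun δ hδ => (Finset.mem_union.1 hδ).imp (fun e => ⟨δ, e, EqvGen.refl _⟩)
      fun e => ⟨δ, e, EqvGen.refl _⟩)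
  have q8 := QHG2_union_le (Fσ d r (insert f F) (EdB d r B)) (A := Δ₀)
    (B := (A₁.image fun p => (p, z)) ∪ A₁.image fun p => if r p f then (z, f) else (p, f))
    (C := Δ) (by
      rintro ⟨p, q⟩ hδ
      obtain ⟨d1, d2, d3⟩ := hΔ _ hδ
      simp only at d1 d2 d3
      have hp := hA p d1
      by_cases n : N p
      · have pA : p ∈ A₁ := (hA₁ p).2 ⟨d1, n⟩
        have e1 := ((hN p).1 n).1
        have D1 : FSd d r (p, q) (p, z) → ∃ ε ∈ (A₁.image fun p => (p, z)) ∪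
            A₁.image fun p => if r p f then (z, f) else (p, f),
            EqvGen (Fσ d r (insert f F) (EdB d r B)) (p, q) ε := fun e =>
          ⟨(p, z), Finset.mem_union_left _ (Finset.mem_image.2 ⟨p, pA, rfl⟩), QHG2_sig e hp hp⟩
        refine Or.inr ?_
        rcases cas q d2 with a | a
        · exact D1 (h.fsd_symm (h.fsd_of_bt (T.bt_symm (thru q a p e1)) (nz p n)))
        · rcases le_total (d f p) (d f q) with l | l
          · exact D1 (h.fsd_of_bt (T.bt_of_le e1 a l).2 d3)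
          · have e := h.fsd_of_bt (T.bt_symm (T.bt_of_le a e1 l).1) d3
            have n' : ¬ r p f := h.fsd_ne (h.fsd_symm e)
            exact ⟨(p, f), Finset.mem_union_right _
              (Finset.mem_image.2 ⟨p, pA, by rw [if_neg n']⟩), QHG2_sig e hp hp⟩
      · obtain ⟨a1, a2, a3⟩ := proj p hp n
        have pA : π p ∈ A₀ := by
          rcases a3 with a3 | a3
          · exact (hA₀ _).2 ⟨by rwa [a3], a1⟩
          · rwa [a3]
        have e0 := h.fsd_base a2 d3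
        have n0 : ¬ r (π p) q := h.fsd_ne (h.fsd_symm e0)
        rcases cas q d2 with a | a
        · exact Or.inl ⟨(π p, q), (hΔ₀ _).2 ⟨⟨pA, Or.inr ⟨_, hδ, rfl⟩⟩, a, n0⟩,
            QHG2_sig e0 hp (hH _ a1)⟩
        · by_cases n1 : r (π p) z
          · have e1 := h.fsd_base n1 n0
            have e2 := h.fsd_of_bt (T.bt_symm a) (h.fsd_ne (h.fsd_symm e1))
            have fN : N f := (hN f).2 ⟨T.bt_left _ _, h.fsd_ne (h.fsd_symm e2)⟩
            exact Or.inr ⟨(z, f), Finset.mem_union_right _ (Finset.mem_image.2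
              ⟨f, (hA₁ f).2 ⟨fA, fN⟩, by rw [if_pos (h.eqv.refl f)]⟩),
              QHG2_sig (h.fsd_trans e0 (h.fsd_trans e1 e2)) hp (hH _ hz)⟩
          · exact Or.inl ⟨(π p, z), (hΔ₀ _).2 ⟨⟨pA, Or.inl rfl⟩, hz, n1⟩,
              QHG2_sig (h.fsd_trans e0 (h.fsd_symm (h.fsd_of_bt (thru _ a1 q a) n1))) hp
                (hH _ a1)⟩)
  omega

open Classical in
theorem pi_addP (h : Fat G d r) {s : Y} (hs : s ∈ Hull d F) (p : PI d r F B P c) :
    PI d r F B (insert s P) (c + 2) := by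
  obtain ⟨V, hV, Q⟩ := p
  refine ⟨V, hV, fun A hVA hA Δ hΔ => ?_⟩
  have q0 := Q A hVA hA Δ hΔ
  obtain ⟨c₀, hc₀⟩ : ∃ c₀, ∀ a, Cone d r F (EB d B) P a → Cone d r F (EB d B) P c₀ := by
    by_cases e : ∃ a, Cone d r F (EB d B) P a
    · exact e.imp fun a ha _ _ => ha
    · exact ⟨s, fun a ha => absurd ⟨a, ha⟩ e⟩
  have q1 := ncls_addp_ge (Fρ d r F (EB d B) P) s c₀ A
  have k : ∀ a, Cone d r F (EB d B) (insert s P) a →
      EqvGen (addp (Fρ d r F (EB d B) P) s c₀) a s := by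
    have k0 : ∀ a, Cone d r F (EB d B) P a → EqvGen (addp (Fρ d r F (EB d B) P) s c₀) a s :=
      fun a ha => EqvGen.trans _ _ _ (EqvGen.rel _ _ (Or.inl (Or.inr ⟨ha, hc₀ a ha⟩)))
        (EqvGen.symm _ _ (eqv_addp_self _ s c₀))
    rintro a (⟨s', hs', g, e⟩ | e)
    · rcases Finset.mem_insert.1 hs' with rfl | hs'
      · exact eqv_le_addp (QHG2_eqv.2 (Or.inl ⟨g, e⟩))
      · exact k0 a (Or.inl ⟨s', hs', g, e⟩)
    · exact k0 a (Or.inr e)
  have q2 : ncls (addp (Fρ d r F (EB d B) P) s c₀) A ≤ ncls (Fρ d r F (EB d B) (insert s P)) A := by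
    refine ncls_mono_rel (fun a b e => ?_) A
    rcases e with e | ⟨e1, e2⟩
    · exact EqvGen.rel _ _ (Or.inl (Or.inl e))
    · exact EqvGen.trans _ _ _ (k a e1) (EqvGen.symm _ _ (k b e2))
  omega

theorem QHG2_dirs (h : Fat G d r) (valid : ∀ f ∈ F, Cone d r F (EB d B) P f) (N : Finset Y)
    (hN : ∀ p ∈ N, p ∈ Hull d F ∧ ¬ Cone d r F (EB d B) P p) :
    ∃ Δ : Finset (Y × Y), (∀ δ ∈ Δ, δ.1 ∈ N ∧ δ.2 ∈ Hull d F ∧ ¬ r δ.1 δ.2) ∧
      2 * ncls (Fρ d r F (EB d B) P) N ≤ ncls (Fσ d r F (EdB d r B)) Δ := by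
  classical
  have T := h.act.tr
  have c1 : ∀ k δ, EdB d r B k δ → EB d B k δ.1 := fun k δ ⟨u, v, a1, a2, _⟩ => ⟨u, v, a1, a2⟩
  have c2 : ∀ k δ, EdB d r B k δ → ¬ r δ.1 δ.2 := fun k δ ⟨_, _, _, _, _, e⟩ => e
  induction N using Finset.induction_on with
  | empty =>
    have := ncls_le_card (Fρ d r F (EB d B) P) ∅
    rw [Finset.card_empty] at this
    exact ⟨∅, by simp, by omega⟩
  | insert p N _ ih =>
    obtain ⟨Δ, h1, h2⟩ := ih fun q hq => hN q (Finset.mem_insert_of_mem hq)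
    by_cases e : ∃ q ∈ N, EqvGen (Fρ d r F (EB d B) P) p q
    · refine ⟨Δ, fun δ hδ => ⟨Finset.mem_insert_of_mem (h1 δ hδ).1, (h1 δ hδ).2⟩, ?_⟩
      have : ncls (Fρ d r F (EB d B) P) (insert p N) ≤ ncls (Fρ d r F (EB d B) P) N := by
        refine ncls_le_of (fun a ha => ?_) fun _ _ _ _ e => e
        rcases Finset.mem_insert.1 ha with rfl | ha
        · exact e
        · exact ⟨a, ha, EqvGen.refl a⟩
      omega
    · obtain ⟨hp, np⟩ := hN p (Finset.mem_insert_self p N)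
      obtain ⟨u, hu, v, hv, b⟩ := id hp
      have nr : ∀ w ∈ F, ¬ r p w := fun w hw e' => np (QHG2_back (a := (1, p)) (b := (1, w))
        (EqvGen.rel _ _ (Or.inl ⟨rfl, e', hp, T.mem_hull hw⟩)) (valid w hw))
      have nw : ∀ w, ∀ δ ∈ Δ, ¬ EqvGen (Fσ d r F (EdB d r B)) (p, w) δ := fun w δ hδ e' => by
        obtain ⟨g, e'⟩ := fσ_iff.1 e'
        exact e ⟨δ.1, (h1 δ hδ).1, QHG2_eqv.2 (Or.inl ⟨g, dst_fp c1 e'⟩)⟩
      have i1 := QHG2_insert_new (nw v)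
      have i2 : ncls (Fσ d r F (EdB d r B)) (insert (p, u) (insert (p, v) Δ)) =
          ncls (Fσ d r F (EdB d r B)) (insert (p, v) Δ) + 1 := by
        refine QHG2_insert_new fun δ hδ => ?_
        rcases Finset.mem_insert.1 hδ with rfl | hδ
        · intro e'
          obtain ⟨g, e'⟩ := fσ_iff.1 e'
          have g1 : g = 1 := not_cone_uniq np (dst_fp c1 e') (EqvGen.refl _)
          subst g1
          have := dst_fsd h c2 (nr u hu) e'
          simp only [inv_one, one_smul] at this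
          exact h.not_fsd b this
        · exact nw u δ hδ
      have i3 := QHG2_insert (Fρ d r F (EB d B) P) N p
      refine ⟨insert (p, u) (insert (p, v) Δ), fun δ hδ => ?_, by omega⟩
      rcases Finset.mem_insert.1 hδ with rfl | hδ
      · exact ⟨Finset.mem_insert_self _ _, T.mem_hull hu, nr u hu⟩
      · rcases Finset.mem_insert.1 hδ with rfl | hδ
        · exact ⟨Finset.mem_insert_self _ _, T.mem_hull hv, nr v hv⟩
        · exact ⟨Finset.mem_insert_of_mem (h1 δ hδ).1, (h1 δ hδ).2⟩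

theorem pi_lower (h : Fat G d r) (ne : F.Nonempty)
    (valid : ∀ f ∈ F, Cone d r F (EB d B) P f) (p : PI d r F B P c) : -2 ≤ c := by
  classical
  have T := h.act.tr
  obtain ⟨V, hV, Q⟩ := p
  obtain ⟨f, hf⟩ := ne
  obtain ⟨N, hN⟩ : ∃ N : Finset Y, ∀ p, p ∈ N ↔ p ∈ V ∧ ¬ Cone d r F (EB d B) P p :=
    ⟨V.filter fun p => ¬ Cone d r F (EB d B) P p, fun p => Finset.mem_filter⟩
  obtain ⟨Δ, h1, h2⟩ := QHG2_dirs h valid N fun p hp => ⟨hV p ((hN p).1 hp).1, ((hN p).1 hp).2⟩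
  have q0 := Q V subset_rfl hV Δ fun δ hδ => ⟨((hN _).1 (h1 δ hδ).1).1, (h1 δ hδ).2⟩
  have q1 : ncls (Fρ d r F (EB d B) P) V ≤ ncls (Fρ d r F (EB d B) P) (insert f N) := by
    refine ncls_le_of (fun a ha => ?_) fun _ _ _ _ e => e
    by_cases e : Cone d r F (EB d B) P a
    · exact ⟨f, Finset.mem_insert_self _ _, EqvGen.rel _ _ (Or.inr ⟨e, valid f hf⟩)⟩
    · exact ⟨a, Finset.mem_insert_of_mem ((hN a).2 ⟨ha, e⟩), EqvGen.refl a⟩
  have q2 := QHG2_insert (Fρ d r F (EB d B) P) N f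
  omega

theorem QHG2_path {E E' : G → Y → Prop}
    (k : ∀ g p, E' g p → FP d r F E (1, p) (g, g • p) ∨
      (Cone d r F E P p ∧ Cone d r F E P (g • p))) {a b : G × Y} (e : FP d r F E' a b) :
    FP d r F E a b ∨ (Cone d r F E P a.2 ∧ Cone d r F E P b.2) := by
  induction e with
  | rel a b s =>
    rcases s with s | ⟨g, s, rfl⟩
    · exact Or.inl (EqvGen.rel _ _ (Or.inl s))
    · refine (k g a.2 s).imp_left fun e => ?_
      have := e.mul a.1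
      rwa [one_mul] at this
  | refl a => exact Or.inl (EqvGen.refl _)
  | symm a b _ ih => exact ih.imp (EqvGen.symm _ _) And.symm
  | trans a b c _ _ ih ih' =>
    rcases ih with ih | ih <;> rcases ih' with ih' | ih'
    · exact Or.inl (EqvGen.trans _ _ _ ih ih')
    · exact Or.inr ⟨QHG2_back ih ih'.1, ih'.2⟩
    · exact Or.inr ⟨ih.1, QHG2_back (EqvGen.symm _ _ ih') ih.2⟩
    · exact Or.inr ⟨ih.1, ih'.2⟩

theorem QHG2_cone {E E' : G → Y → Prop}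
    (k : ∀ g p, E' g p → FP d r F E (1, p) (g, g • p) ∨
      (Cone d r F E P p ∧ Cone d r F E P (g • p))) {a : Y} (e : Cone d r F E' P a) :
    Cone d r F E P a := by
  rcases e with ⟨s, hs, g, e⟩ | ⟨g, hg, e⟩
  · exact (QHG2_path k e).elim (fun e => Or.inl ⟨s, hs, g, e⟩) And.left
  · exact (QHG2_path k e).elim (fun e => Or.inr ⟨g, hg, e⟩) And.left

theorem QHG2_transfer {B' : Finset (G × Y × Y)} (hB : B ⊆ B')
    (k : ∀ g p, EB d B' g p → FP d r F (EB d B) (1, p) (g, g • p) ∨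
      (Cone d r F (EB d B) P p ∧ Cone d r F (EB d B) P (g • p))) (p : PI d r F B P c) :
    PI d r F B' P c := by
  obtain ⟨V, hV, Q⟩ := p
  refine ⟨V, hV, fun A hVA hA Δ hΔ => ?_⟩
  have q0 := Q A hVA hA Δ hΔ
  have q1 := QHG2_sig_mono (d := d) (r := r) (F := F) (Ed := EdB d r B) (Ed' := EdB d r B')
    (fun _ _ ⟨u, v, a, b⟩ => ⟨u, v, hB a, b⟩) subset_rfl Δ
  have q2 : ncls (Fρ d r F (EB d B) P) A ≤ ncls (Fρ d r F (EB d B') P) A := by
    refine ncls_mono_rel (fun a b e => QHG2_eqv.2 ?_) A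
    rcases e with ⟨g, e⟩ | ⟨e1, e2⟩
    · exact (QHG2_path k (EqvGen.rel _ _ e)).imp_left fun e => ⟨g, e⟩
    · exact Or.inr ⟨QHG2_cone k e1, QHG2_cone k e2⟩
  omega

open Classical in
theorem pi_red (h : Fat G d r) (p : PI d r F B P c)
    (h1 : ∀ a, Bt d x a y → FP d r F (EB d B) (1, a) (φ, φ • a)) :
    PI d r F (insert (φ, x, y) B) P c := by
  refine QHG2_transfer (Finset.subset_insert _ _) ?_ p
  rintro g a ⟨u, v, a1, a2⟩
  rcases Finset.mem_insert.1 a1 with e | a1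
  · cases e
    exact Or.inl (h1 a a2)
  · exact Or.inl (EqvGen.rel _ _ (Or.inr ⟨g, ⟨u, v, a1, a2⟩, by rw [mul_one]⟩))

open Classical in
theorem QHG2_seed (h : Fat G d r) (h1 : Cone d r F (EB d B) P x)
    (h2 : Cone d r F (EB d B) P (φ • x)) (g : G) (a : Y) (e : EB d (insert (φ, x, x) B) g a) :
    FP d r F (EB d B) (1, a) (g, g • a) ∨
      (Cone d r F (EB d B) P a ∧ Cone d r F (EB d B) P (g • a)) := by
  obtain ⟨u, v, a1, a2⟩ := e
  rcases Finset.mem_insert.1 a1 with e | a1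
  · cases e
    rw [QHG2_bt_self h.act.tr a2]
    exact Or.inr ⟨h1, h2⟩
  · exact Or.inl (EqvGen.rel _ _ (Or.inr ⟨g, ⟨u, v, a1, a2⟩, by rw [mul_one]⟩))

open Classical in
theorem cone_seed (h : Fat G d r) (h1 : Cone d r F (EB d B) P x)
    (h2 : Cone d r F (EB d B) P (φ • x)) {a : Y}
    (ha : Cone d r F (EB d (insert (φ, x, x) B)) P a) : Cone d r F (EB d B) P a := by
  exact QHG2_cone (QHG2_seed h h1 h2) ha

open Classical in
theorem pi_seed (h : Fat G d r) (p : PI d r F B P c) (h1 : Cone d r F (EB d B) P x)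
    (h2 : Cone d r F (EB d B) P (φ • x)) : PI d r F (insert (φ, x, x) B) P c := by
  exact QHG2_transfer (Finset.subset_insert _ _) (QHG2_seed h h1 h2) p

end Pool.Agent.Work.MP_904812_al
end

-- merged part: Pool.Agent.Work.MP_904812_al.QHG3
section
/-! Extending a band. -/

namespace Pool.Agent.Work.MP_904812_al

set_option linter.unusedSectionVars false
set_option linter.unusedVariables false

open Subgroup MulAction Relation

variable {G Y : Type} [Group G] [MulAction G Y] {d : Y → Y → ℝ} {r : Y → Y → Prop}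
  {F P : Finset Y} {B : Finset (G × Y × Y)} {c : ℤ} {φ : G} {x y : Y}

/-- one more rung -/
def QHG3P (E : G → Y → Prop) (φ : G) (p : Y) (k : G) (q : Y) : Prop := E k q ∨ (k = φ ∧ q = p)

/-- one more step of directions -/
def QHG3D (Ed : G → Y × Y → Prop) (φ : G) (δ₀ : Y × Y) (k : G) (δ : Y × Y) : Prop :=
  Ed k δ ∨ (k = φ ∧ δ = δ₀)

section rung

variable {E : G → Y → Prop} {Ed Ed' : G → Y × Y → Prop} {p : Y} {A : Finset Y}

theorem QHG3_touch {a b : G × Y} (e : FP d r F (QHG3P E φ p) a b) : FP d r F E a b ∨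
    ((∃ g, FP d r F E a (g, p) ∨ FP d r F E a (g, φ • p)) ∧
      ∃ g, FP d r F E b (g, p) ∨ FP d r F E b (g, φ • p)) := by
  have tr : ∀ {a b : G × Y}, FP d r F E a b →
      (∃ g, FP d r F E b (g, p) ∨ FP d r F E b (g, φ • p)) →
      ∃ g, FP d r F E a (g, p) ∨ FP d r F E a (g, φ • p) := fun e ⟨g, t⟩ =>
    ⟨g, t.imp (EqvGen.trans _ _ _ e) (EqvGen.trans _ _ _ e)⟩
  induction e with
  | rel a b s =>
    rcases s with s | ⟨k, s | ⟨rfl, s⟩, rfl⟩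
    · exact Or.inl (EqvGen.rel _ _ (Or.inl s))
    · exact Or.inl (EqvGen.rel _ _ (Or.inr ⟨k, s, rfl⟩))
    · subst s
      exact Or.inr ⟨⟨a.1, Or.inl (EqvGen.refl _)⟩, ⟨_, Or.inr (EqvGen.refl _)⟩⟩
  | refl a => exact Or.inl (EqvGen.refl _)
  | symm a b _ ih => exact ih.imp (EqvGen.symm _ _) And.symm
  | trans a b c _ _ ih ih' =>
    rcases ih with ih | ih <;> rcases ih' with ih' | ih'
    · exact Or.inl (EqvGen.trans _ _ _ ih ih')
    · exact Or.inr ⟨tr ih ih'.1, ih'.2⟩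
    · exact Or.inr ⟨ih.1, tr (EqvGen.symm _ _ ih') ih.2⟩
    · exact Or.inr ⟨ih.1, ih'.2⟩

theorem QHG3_cone {a : Y} (e : Cone d r F (QHG3P E φ p) P a) : Cone d r F E P a ∨
    ∃ g, FP d r F E (1, a) (g, p) ∨ FP d r F E (1, a) (g, φ • p) := by
  rcases e with ⟨s, hs, g, e⟩ | ⟨g, hg, e⟩
  · exact (QHG3_touch e).imp (fun e => Or.inl ⟨s, hs, g, e⟩) And.left
  · exact (QHG3_touch e).imp (fun e => Or.inr ⟨g, hg, e⟩) And.left

theorem QHG3_con {a b : G × Y} (e : FP d r F E a b) : EqvGen (Fρ d r F E P) a.2 b.2 := by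
  have := FP.mul (g := a.1) (g' := b.1) e a.1⁻¹
  rw [mul_inv_cancel] at this
  exact QHG2_eqv.2 (Or.inl ⟨_, this⟩)

theorem QHG3_red0 (s : FP d r F E (1, p) (φ, φ • p)) {a b : G × Y}
    (e : FP d r F (QHG3P E φ p) a b) : FP d r F E a b := by
  refine eqv_mono ?_ e
  rintro a b (t | ⟨k, t | ⟨rfl, t⟩, rfl⟩)
  · exact EqvGen.rel _ _ (Or.inl t)
  · exact EqvGen.rel _ _ (Or.inr ⟨k, t, rfl⟩)
  · have := s.mul a.1
    rw [one_mul, ← t] at this
    exact this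

theorem QHG3_red (s : FP d r F E (1, p) (φ, φ • p) ∨
    (Cone d r F E P p ∧ Cone d r F E P (φ • p))) {a b : Y}
    (e : EqvGen (Fρ d r F (QHG3P E φ p) P) a b) : EqvGen (Fρ d r F E P) a b := by
  rcases s with s | ⟨s1, s2⟩
  · have k : ∀ a, Cone d r F (QHG3P E φ p) P a → Cone d r F E P a := by
      rintro a (⟨t, ht, g, e⟩ | ⟨g, hg, e⟩)
      · exact Or.inl ⟨t, ht, g, QHG3_red0 s e⟩
      · exact Or.inr ⟨g, hg, QHG3_red0 s e⟩
    rcases QHG2_eqv.1 e with ⟨g, e⟩ | ⟨e1, e2⟩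
    · exact QHG3_con (QHG3_red0 s e)
    · exact QHG2_eqv.2 (Or.inr ⟨k _ e1, k _ e2⟩)
  · have k0 : ∀ a : G × Y, (∃ g, FP d r F E a (g, p) ∨ FP d r F E a (g, φ • p)) →
        Cone d r F E P a.2 := by
      rintro a ⟨g, e | e⟩
      · exact QHG2_back e s1
      · exact QHG2_back e s2
    have k : ∀ a, Cone d r F (QHG3P E φ p) P a → Cone d r F E P a := fun a e =>
      (QHG3_cone e).elim id (k0 (1, a))
    rcases QHG2_eqv.1 e with ⟨g, e⟩ | ⟨e1, e2⟩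
    · rcases QHG3_touch e with e | ⟨e1, e2⟩
      · exact QHG3_con e
      · exact QHG2_eqv.2 (Or.inr ⟨k0 _ e1, k0 _ e2⟩)
    · exact QHG2_eqv.2 (Or.inr ⟨k _ e1, k _ e2⟩)

theorem QHG3_fine (n1 : ¬ Cone d r F E P p) (n2 : ¬ Cone d r F E P (φ • p))
    (nc : ∀ g g', ¬ FP d r F E (g, p) (g', φ • p)) {a b : G × Y}
    (e : FP d r F (QHG3P E φ p) a b) : FP d r F E a b ∨
      (∃ g, FP d r F E a (g, p) ∧ FP d r F E (φ * g, φ • p) b) ∨
      ∃ g, FP d r F E a (φ * g, φ • p) ∧ FP d r F E (g, p) b := by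
  have un : ∀ {q : Y} {g g' : G} {b : G × Y}, ¬ Cone d r F E P q → FP d r F E (g, q) b →
      FP d r F E b (g', q) → g = g' := fun n e e' =>
    not_cone_uniq n (EqvGen.refl _) (EqvGen.trans _ _ _ e e')
  induction e with
  | rel a b s =>
    rcases s with s | ⟨k, s | ⟨rfl, s⟩, rfl⟩
    · exact Or.inl (EqvGen.rel _ _ (Or.inl s))
    · exact Or.inl (EqvGen.rel _ _ (Or.inr ⟨k, s, rfl⟩))
    · subst s
      exact Or.inr (Or.inl ⟨a.1, EqvGen.refl _, EqvGen.refl _⟩)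
  | refl a => exact Or.inl (EqvGen.refl _)
  | symm a b _ ih =>
    rcases ih with ih | ⟨g, i1, i2⟩ | ⟨g, i1, i2⟩
    · exact Or.inl (EqvGen.symm _ _ ih)
    · exact Or.inr (Or.inr ⟨g, EqvGen.symm _ _ i2, EqvGen.symm _ _ i1⟩)
    · exact Or.inr (Or.inl ⟨g, EqvGen.symm _ _ i2, EqvGen.symm _ _ i1⟩)
  | trans a b c _ _ ih ih' =>
    rcases ih with ih | ⟨g, i1, i2⟩ | ⟨g, i1, i2⟩ <;>
      rcases ih' with ih' | ⟨g', j1, j2⟩ | ⟨g', j1, j2⟩
    · exact Or.inl (EqvGen.trans _ _ _ ih ih')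
    · exact Or.inr (Or.inl ⟨g', EqvGen.trans _ _ _ ih j1, j2⟩)
    · exact Or.inr (Or.inr ⟨g', EqvGen.trans _ _ _ ih j1, j2⟩)
    · exact Or.inr (Or.inl ⟨g, i1, EqvGen.trans _ _ _ i2 ih'⟩)
    · exact (nc _ _ (EqvGen.symm _ _ (EqvGen.trans _ _ _ i2 j1))).elim
    · obtain rfl : g = g' := mul_left_cancel (un n2 i2 j1)
      exact Or.inl (EqvGen.trans _ _ _ i1 j2)
    · exact Or.inr (Or.inr ⟨g, i1, EqvGen.trans _ _ _ i2 ih'⟩)
    · obtain rfl : g = g' := un n1 i2 j1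
      exact Or.inl (EqvGen.trans _ _ _ i1 j2)
    · exact (nc _ _ (EqvGen.trans _ _ _ i2 j1)).elim

theorem QHG3_pt (ne : P.Nonempty) (p : Y) : ∃ u v : Y, ∀ a b,
    EqvGen (Fρ d r F (QHG3P E φ p) P) a b → EqvGen (addp (Fρ d r F E P) u v) a b := by
  obtain ⟨s, hs⟩ := ne
  have cs : Cone d r F E P s := Or.inl ⟨s, hs, 1, EqvGen.refl _⟩
  have cc : ∀ {a b u v : Y}, Cone d r F E P a → Cone d r F E P b →
      EqvGen (addp (Fρ d r F E P) u v) a b := fun e e' =>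
    eqv_le_addp (QHG2_eqv.2 (Or.inr ⟨e, e'⟩))
  have gen : ∀ u v : Y, EqvGen (addp (Fρ d r F E P) u v) p (φ • p) →
      (∀ a, Cone d r F (QHG3P E φ p) P a → EqvGen (addp (Fρ d r F E P) u v) a s) → ∀ a b,
      EqvGen (Fρ d r F (QHG3P E φ p) P) a b → EqvGen (addp (Fρ d r F E P) u v) a b := by
    intro u v e0 hc a b e
    have k0 : ∀ a : G × Y, (∃ g, FP d r F E a (g, p) ∨ FP d r F E a (g, φ • p)) →
        EqvGen (addp (Fρ d r F E P) u v) a.2 p := by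
      rintro a ⟨g, e | e⟩
      · exact eqv_le_addp (QHG3_con e)
      · exact EqvGen.trans _ _ _ (eqv_le_addp (QHG3_con e)) (EqvGen.symm _ _ e0)
    rcases QHG2_eqv.1 e with ⟨g, e⟩ | ⟨e1, e2⟩
    · rcases QHG3_touch e with e | ⟨e1, e2⟩
      · exact eqv_le_addp (QHG3_con e)
      · exact EqvGen.trans _ _ _ (k0 _ e1) (EqvGen.symm _ _ (k0 _ e2))
    · exact EqvGen.trans _ _ _ (hc _ e1) (EqvGen.symm _ _ (hc _ e2))
  have gen2 : ∀ u v : Y, EqvGen (addp (Fρ d r F E P) u v) p (φ • p) →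
      EqvGen (addp (Fρ d r F E P) u v) p s →
      ∀ a, Cone d r F (QHG3P E φ p) P a → EqvGen (addp (Fρ d r F E P) u v) a s := by
    intro u v e0 e1 a e
    rcases QHG3_cone e with e | ⟨g, e | e⟩
    · exact cc e cs
    · exact EqvGen.trans _ _ _ (eqv_le_addp (QHG3_con e)) e1
    · exact EqvGen.trans _ _ _ (eqv_le_addp (QHG3_con e))
        (EqvGen.trans _ _ _ (EqvGen.symm _ _ e0) e1)
  by_cases nc : ∃ g g', FP d r F E (g, p) (g', φ • p)
  · obtain ⟨g, g', e⟩ := nc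
    have e0 : EqvGen (addp (Fρ d r F E P) p s) p (φ • p) := eqv_le_addp (QHG3_con e)
    exact ⟨p, s, gen _ _ e0 (gen2 _ _ e0 (eqv_addp_self _ _ _))⟩
  push Not at nc
  have e0 := eqv_addp_self (Fρ d r F E P) p (φ • p)
  by_cases n1 : Cone d r F E P p
  · exact ⟨_, _, gen _ _ e0 (gen2 _ _ e0 (cc n1 cs))⟩
  by_cases n2 : Cone d r F E P (φ • p)
  · exact ⟨_, _, gen _ _ e0 (gen2 _ _ e0 (EqvGen.trans _ _ _ e0 (cc n2 cs)))⟩
  refine ⟨_, _, gen _ _ e0 fun a e => cc ?_ cs⟩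
  rcases e with ⟨t, ht, g, e⟩ | ⟨g, hg, e⟩
  · have ct : Cone d r F E P t := Or.inl ⟨t, ht, 1, EqvGen.refl _⟩
    rcases QHG3_touch e with e | ⟨-, g', e | e⟩
    · exact Or.inl ⟨t, ht, g, e⟩
    · exact (n1 (ct.fp e)).elim
    · exact (n2 (ct.fp e)).elim
  · have lp : ∀ {u v : G} {w w' : Y}, FP d r F E (1, a) (u, w) → FP d r F E (v, w') (g, a) →
        ∃ k k', FP d r F E (k, w') (k', w) := fun {u v w w'} e1 e2 => by
      have := e1.mul g
      rw [one_mul] at this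
      exact ⟨_, _, EqvGen.trans _ _ _ e2 this⟩
    rcases QHG3_fine n1 n2 nc e with e | ⟨k, e1, e2⟩ | ⟨k, e1, e2⟩
    · exact Or.inr ⟨g, hg, e⟩
    · obtain ⟨_, _, e⟩ := lp e1 e2
      exact (nc _ _ (EqvGen.symm _ _ e)).elim
    · obtain ⟨_, _, e⟩ := lp e1 e2
      exact (nc _ _ e).elim

theorem QHG3_qpt (ne : P.Nonempty) (q : QI d r F E Ed P A c) (p : Y) :
    QI d r F (QHG3P E φ p) Ed P A (c + 2) := by
  intro Δ hΔ
  obtain ⟨u, v, e⟩ := QHG3_pt (d := d) (r := r) (F := F) (E := E) (φ := φ) ne p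
  have h1 := q Δ hΔ
  have h2 := ncls_addp_ge (Fρ d r F E P) u v A
  have h3 := ncls_mono_rel (fun a b t => e a b (EqvGen.rel _ _ t)) A
  omega

theorem QHG3_qred (q : QI d r F E Ed P A c) (s : FP d r F E (1, p) (φ, φ • p) ∨
    (Cone d r F E P p ∧ Cone d r F E P (φ • p))) : QI d r F (QHG3P E φ p) Ed P A c := by
  intro Δ hΔ
  have h1 := q Δ hΔ
  have h3 := ncls_mono_rel (fun a b t => QHG3_red s (a := a) (b := b) (EqvGen.rel _ _ t)) A
  omega

theorem QHG3_smono (hE : ∀ k δ, Ed k δ → Ed' k δ) (a b : Y × Y) (t : Fσ d r F Ed a b) :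
    EqvGen (Fσ d r F Ed') a b := by
  obtain ⟨g, t | ⟨k, t, e⟩⟩ := t
  · exact EqvGen.rel _ _ ⟨g, Or.inl t⟩
  · exact EqvGen.rel _ _ ⟨g, Or.inr ⟨k, hE _ _ t, e⟩⟩

theorem QHG3_qmono (q : QI d r F E Ed P A c) (hE : ∀ k δ, Ed k δ → Ed' k δ) :
    QI d r F E Ed' P A c := by
  intro Δ hΔ
  have h1 := q Δ hΔ
  have h3 := ncls_mono_rel (QHG3_smono (d := d) (r := r) (F := F) hE) Δ
  omega

theorem QHG3_daddp {t : Y} {a b : Y × Y} (e : EqvGen (Fσ d r F (QHG3D Ed φ (p, t))) a b) :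
    EqvGen (addp (Fσ d r F Ed) (p, t) (φ • p, φ • t)) a b := by
  refine eqv_mono ?_ e
  rintro a b ⟨g, s | ⟨k, s | ⟨rfl, s⟩, e⟩⟩
  · exact EqvGen.rel _ _ (Or.inl ⟨g, Or.inl s⟩)
  · exact EqvGen.rel _ _ (Or.inl ⟨g, Or.inr ⟨k, s, e⟩⟩)
  · simp only at s
    subst s
    exact EqvGen.rel _ _ (Or.inr ⟨rfl, congrArg Prod.snd e⟩)

theorem QHG3_qdir (h : Fat G d r) (q : QI d r F E Ed P A c) {t : Y} (h1 : p ∈ A)
    (h2 : φ • p ∈ A) (h3 : t ∈ Hull d F) (h4 : φ • t ∈ Hull d F) (n : ¬ r p t)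
    (un : ¬ EqvGen (Fσ d r F Ed) (p, t) (φ • p, φ • t)) :
    QI d r F E (QHG3D Ed φ (p, t)) P A (c - 1) := by
  classical
  intro Δ hΔ
  have e1 := q (insert (p, t) (insert (φ • p, φ • t) Δ)) (by
    intro δ hδ
    rcases Finset.mem_insert.1 hδ with rfl | hδ
    · exact ⟨h1, h3, n⟩
    rcases Finset.mem_insert.1 hδ with rfl | hδ
    · exact ⟨h2, h4, fun e => n ((h.inv_iff φ).1 e)⟩
    · exact hΔ δ hδ)
  have e2 := ncls_addp_lt (A := insert (p, t) (insert (φ • p, φ • t) Δ)) (by simp) (by simp) un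
  have e3 : ncls (Fσ d r F (QHG3D Ed φ (p, t))) Δ ≤
      ncls (addp (Fσ d r F Ed) (p, t) (φ • p, φ • t))
        (insert (p, t) (insert (φ • p, φ • t) Δ)) := by
    refine le_trans (ncls_mono_set _ (B := insert (p, t) (insert (φ • p, φ • t) Δ))
      (fun a ha => by simp [ha])) (ncls_mono_rel ?_ _)
    rintro a b (s | ⟨rfl, rfl⟩)
    · exact QHG3_smono (fun _ _ e => Or.inl e) a b s
    · exact EqvGen.rel _ _ ⟨φ * 1, Or.inr ⟨φ, Or.inr ⟨rfl, rfl⟩, rfl⟩⟩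
  omega

theorem QHG3_lab (h : Fat G d r) (hc : ∀ k δ, Ed k δ → E k δ.1)
    (hn : ∀ k δ, Ed k δ → ¬ r δ.1 δ.2) {a b a' b' : Y} (n : ¬ r a b)
    (e : EqvGen (Fσ d r F Ed) (a, b) (a', b')) :
    ∃ g : G, FP d r F E (1, a) (g, a') ∧ FSd d r (a, b) (g⁻¹ • a', g⁻¹ • b') := by
  obtain ⟨g, e⟩ := fσ_iff.1 e
  have := dst_fsd h hn n e
  rw [inv_one, one_smul, one_smul] at this
  exact ⟨g, dst_fp hc e, this⟩

theorem QHG3_un1 (h : Fat G d r) (hc : ∀ k δ, Ed k δ → E k δ.1)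
    (hn : ∀ k δ, Ed k δ → ¬ r δ.1 δ.2) {t : Y} (n : ¬ r p t)
    (n0 : ¬ FP d r F E (1, p) (φ, φ • p)) :
    ¬ EqvGen (Fσ d r F Ed) (p, t) (φ • p, φ • t) := by
  intro e
  obtain ⟨g, e1, e2⟩ := QHG3_lab h hc hn n e
  rw [smul_smul, smul_smul] at e2
  have := h.n1 e2
  rw [inv_mul_eq_one] at this
  exact n0 (this ▸ e1)

theorem QHG3_un2 (h : Fat G d r) (hc : ∀ k δ, Ed k δ → E k δ.1)
    (hn : ∀ k δ, Ed k δ → ¬ r δ.1 δ.2) (b : Bt d x p y) (nx : ¬ r p x) (ny : ¬ r p y)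
    (n0 : ¬ FP d r F E (1, p) (φ, φ • p))
    (n1 : ¬ (Cone d r F E P p ∧ Cone d r F E P (φ • p))) :
    ¬ EqvGen (Fσ d r F (QHG3D Ed φ (p, x))) (p, y) (φ • p, φ • y) := by
  intro e
  have nx' : ¬ r (φ • p) (φ • x) := fun e => nx ((h.inv_iff φ).1 e)
  have b' := h.act.tr.bt_symm b
  rcases eqv_addp (QHG3_daddp e) with e | ⟨e1, e2⟩ | ⟨e1, e2⟩
  · exact QHG3_un1 h hc hn ny n0 e
  · obtain ⟨g, a1, a2⟩ := QHG3_lab h hc hn ny e1
    obtain ⟨g', a3, a4⟩ := QHG3_lab h hc hn nx' e2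
    by_cases c1 : Cone d r F E P p
    · have c2 : ¬ Cone d r F E P (φ • p) := fun c2 => n1 ⟨c1, c2⟩
      obtain rfl : g' = 1 := not_cone_uniq c2 a3 (EqvGen.refl _)
      rw [inv_one, one_smul, one_smul] at a4
      exact h.not_fsd b ((h.fsd_smul φ).1 a4)
    · obtain rfl : g = 1 := not_cone_uniq c1 a1 (EqvGen.refl _)
      rw [inv_one, one_smul, one_smul] at a2
      exact h.not_fsd b' a2
  · obtain ⟨g, a1, a2⟩ := QHG3_lab h hc hn ny e1
    obtain ⟨g', a3, a4⟩ := QHG3_lab h hc hn nx e2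
    have c2 : ¬ Cone d r F E P (φ • p) := fun c2 => n1 ⟨QHG2_back a1 c2, c2⟩
    obtain rfl : g = g' := not_cone_uniq c2 a1 a3
    rw [smul_smul, smul_smul] at a2 a4
    have a5 := (h.fsd_smul (g⁻¹ * φ)).2 a4
    have a6 := h.fsd_trans a2 a5
    rw [smul_smul, smul_smul] at a6
    have a7 := h.tf (g⁻¹ * φ) 2 (by norm_num) (by rw [pow_two]; exact h.n1 a6)
    rw [a7, one_smul, one_smul] at a2
    exact h.not_fsd b' a2

end rung

/-- bands and a set of rungs -/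
def QHG3E (d : Y → Y → ℝ) (B : Finset (G × Y × Y)) (φ : G) (W : Set Y) (k : G) (q : Y) : Prop :=
  EB d B k q ∨ (k = φ ∧ q ∈ W)

/-- bands and a set of rungs, for directions -/
def QHG3F (d : Y → Y → ℝ) (r : Y → Y → Prop) (B : Finset (G × Y × Y)) (φ : G) (x y : Y)
    (W : Set Y) (k : G) (δ : Y × Y) : Prop :=
  EdB d r B k δ ∨ (k = φ ∧ δ.1 ∈ W ∧ (δ.2 = x ∨ δ.2 = y) ∧ ¬ r δ.1 δ.2)

section sets

variable {W W' : Set Y} {p : Y} {A : Finset Y}

theorem QHG3E_ins : QHG3E d B φ (insert p W) = QHG3P (QHG3E d B φ W) φ p := by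
  funext k q
  simp only [QHG3E, QHG3P, Set.mem_insert_iff, eq_iff_iff]
  tauto

theorem QHG3E_mono (hW : W ⊆ W') (k : G) (q : Y) (e : QHG3E d B φ W k q) : QHG3E d B φ W' k q :=
  e.imp_right fun e => ⟨e.1, hW e.2⟩

theorem QHG3F_mono (hW : W ⊆ W') (k : G) (δ : Y × Y) (e : QHG3F d r B φ x y W k δ) :
    QHG3F d r B φ x y W' k δ :=
  e.imp_right fun e => ⟨e.1, hW e.2.1, e.2.2⟩

theorem QHG3_hc (k : G) (δ : Y × Y) (e : QHG3F d r B φ x y W k δ) : QHG3E d B φ W k δ.1 := by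
  rcases e with ⟨u, v, e1, e2, -⟩ | e
  · exact Or.inl ⟨u, v, e1, e2⟩
  · exact Or.inr ⟨e.1, e.2.1⟩

theorem QHG3_hn (k : G) (δ : Y × Y) (e : QHG3F d r B φ x y W k δ) : ¬ r δ.1 δ.2 := by
  rcases e with ⟨u, v, -, -, -, e⟩ | e
  · exact e
  · exact e.2.2.2

theorem QHG3_ra (q : QI d r F (QHG3E d B φ W) (QHG3F d r B φ x y W) P A c)
    (s : FP d r F (QHG3E d B φ W) (1, p) (φ, φ • p) ∨
      (Cone d r F (QHG3E d B φ W) P p ∧ Cone d r F (QHG3E d B φ W) P (φ • p))) :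
    QI d r F (QHG3E d B φ (insert p W)) (QHG3F d r B φ x y (insert p W)) P A c := by
  rw [QHG3E_ins]
  exact QHG3_qmono (QHG3_qred q s) (QHG3F_mono (Set.subset_insert _ _))

theorem QHG3_rc (h : Fat G d r) (ne : P.Nonempty)
    (q : QI d r F (QHG3E d B φ W) (QHG3F d r B φ x y W) P A c) (hx : x ∈ Hull d F)
    (hx' : φ • x ∈ Hull d F) (h1 : p ∈ A) (h2 : φ • p ∈ A) (nx : ¬ r p x) :
    QI d r F (QHG3E d B φ (insert p W)) (QHG3F d r B φ x y (insert p W)) P A (c + 1) := by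
  by_cases n0 : FP d r F (QHG3E d B φ W) (1, p) (φ, φ • p)
  · intro Δ hΔ
    have := QHG3_ra q (Or.inl n0) Δ hΔ
    omega
  have q1 := QHG3_qpt (φ := φ) ne
    (QHG3_qdir h q h1 h2 hx hx' nx (QHG3_un1 h QHG3_hc QHG3_hn nx n0)) p
  rw [QHG3E_ins, show c + 1 = c - 1 + 2 by ring]
  refine QHG3_qmono q1 ?_
  rintro k δ (e | ⟨rfl, rfl⟩)
  · exact QHG3F_mono (Set.subset_insert _ _) _ _ e
  · exact Or.inr ⟨rfl, Set.mem_insert _ _, Or.inl rfl, nx⟩

theorem QHG3_rb (h : Fat G d r) (ne : P.Nonempty)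
    (q : QI d r F (QHG3E d B φ W) (QHG3F d r B φ x y W) P A c) (hx : x ∈ Hull d F)
    (hx' : φ • x ∈ Hull d F) (hy : y ∈ Hull d F) (hy' : φ • y ∈ Hull d F) (h1 : p ∈ A)
    (h2 : φ • p ∈ A) (b : Bt d x p y) (nx : ¬ r p x) (ny : ¬ r p y) :
    QI d r F (QHG3E d B φ (insert p W)) (QHG3F d r B φ x y (insert p W)) P A c := by
  by_cases n0 : FP d r F (QHG3E d B φ W) (1, p) (φ, φ • p)
  · exact QHG3_ra q (Or.inl n0)
  by_cases n1 : Cone d r F (QHG3E d B φ W) P p ∧ Cone d r F (QHG3E d B φ W) P (φ • p)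
  · exact QHG3_ra q (Or.inr n1)
  have q1 := QHG3_qpt (φ := φ) ne (QHG3_qdir h
    (QHG3_qdir h q h1 h2 hx hx' nx (QHG3_un1 h QHG3_hc QHG3_hn nx n0)) h1 h2 hy hy' ny
    (QHG3_un2 h QHG3_hc QHG3_hn b nx ny n0 n1)) p
  rw [QHG3E_ins, show c = c - 1 - 1 + 2 by ring]
  refine QHG3_qmono q1 ?_
  rintro k δ ((e | ⟨rfl, rfl⟩) | ⟨rfl, rfl⟩)
  · exact QHG3F_mono (Set.subset_insert _ _) _ _ e
  · exact Or.inr ⟨rfl, Set.mem_insert _ _, Or.inl rfl, nx⟩
  · exact Or.inr ⟨rfl, Set.mem_insert _ _, Or.inr rfl, ny⟩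

theorem QHG3_union {ι : Type*} {J : Y → Prop} (I : Finset ι) (Pr : ι → Finset Y → Prop)
    (mono : ∀ i W W', W ⊆ W' → Pr i W → Pr i W')
    (ex : ∀ i ∈ I, ∃ W : Finset Y, (∀ w ∈ W, J w) ∧ Pr i W) :
    ∃ W : Finset Y, (∀ w ∈ W, J w) ∧ ∀ i ∈ I, Pr i W := by
  classical
  choose! f h1 h2 using ex
  refine ⟨I.biUnion f, fun w hw => ?_, fun i hi =>
    mono i _ _ (Finset.subset_biUnion_of_mem f hi) (h2 i hi)⟩
  obtain ⟨i, hi, hw⟩ := Finset.mem_biUnion.1 hw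
  exact h1 i hi w hw

theorem QHG3_supp (h : Fat G d r) (hx : x ∈ Hull d F) (hy : y ∈ Hull d F)
    (hx' : φ • x ∈ Hull d F) (hy' : φ • y ∈ Hull d F) {E : G → Y → Prop} {J : Y → Prop}
    {X : Set Y} (hX : ∀ z ∈ X, Bt d x z y)
    (hE : ∀ k p, E k p → EB d B k p ∨ (k = φ ∧ Bt d x p y ∧ (J p ∨ ∃ z ∈ X, r p z)))
    {a b : G × Y} (e : FP d r F E a b) :
    ∃ W : Finset Y, (∀ w ∈ W, J w) ∧ FP d r F (QHG3E d B φ (X ∪ W)) a b := by
  classical
  have T := h.act.tr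
  induction e with
  | rel a b s =>
    rcases s with s | ⟨k, s, rfl⟩
    · exact ⟨∅, by simp, EqvGen.rel _ _ (Or.inl s)⟩
    rcases hE _ _ s with s | ⟨rfl, s1, s2 | ⟨z, hz, s2⟩⟩
    · exact ⟨∅, by simp, EqvGen.rel _ _ (Or.inr ⟨k, Or.inl s, rfl⟩)⟩
    · exact ⟨{a.2}, by simpa using s2, EqvGen.rel _ _ (Or.inr ⟨k, Or.inr ⟨rfl, by simp⟩, rfl⟩)⟩
    · refine ⟨∅, by simp, EqvGen.trans _ (a.1, z) _ (EqvGen.rel _ _ (Or.inl ⟨rfl, s2,
        T.hull_conv hx hy s1, T.hull_conv hx hy (hX z hz)⟩))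
        (EqvGen.trans _ (k * a.1, k • z) _
          (EqvGen.rel _ _ (Or.inr ⟨k, Or.inr ⟨rfl, Or.inl hz⟩, rfl⟩))
          (EqvGen.rel _ _ (Or.inl ⟨rfl, h.inv k _ _ (h.eqv.symm s2),
            T.hull_conv hx' hy' (h.act.bt k (hX z hz)),
            T.hull_conv hx' hy' (h.act.bt k s1)⟩)))⟩
  | refl a => exact ⟨∅, by simp, EqvGen.refl _⟩
  | symm a b _ ih =>
    obtain ⟨W, h1, h2⟩ := ih
    exact ⟨W, h1, EqvGen.symm _ _ h2⟩
  | trans a b c _ _ ih ih' =>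
    obtain ⟨W, h1, h2⟩ := ih
    obtain ⟨W', h1', h2'⟩ := ih'
    refine ⟨W ∪ W', fun w hw => (Finset.mem_union.1 hw).elim (h1 w) (h1' w),
      EqvGen.trans _ _ _ (h2.mono (QHG3E_mono ?_) (Finset.Subset.refl _))
        (h2'.mono (QHG3E_mono ?_) (Finset.Subset.refl _))⟩
    · exact Set.union_subset_union_right _ (by simp)
    · exact Set.union_subset_union_right _ (by simp)

theorem QHG3_suppc (h : Fat G d r) (hx : x ∈ Hull d F) (hy : y ∈ Hull d F)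
    (hx' : φ • x ∈ Hull d F) (hy' : φ • y ∈ Hull d F) {E : G → Y → Prop} {J : Y → Prop}
    {X : Set Y} (hX : ∀ z ∈ X, Bt d x z y)
    (hE : ∀ k p, E k p → EB d B k p ∨ (k = φ ∧ Bt d x p y ∧ (J p ∨ ∃ z ∈ X, r p z)))
    {a : Y} (e : Cone d r F E P a) :
    ∃ W : Finset Y, (∀ w ∈ W, J w) ∧ Cone d r F (QHG3E d B φ (X ∪ W)) P a := by
  rcases e with ⟨s, hs, g, e⟩ | ⟨g, hg, e⟩
  · obtain ⟨W, h1, h2⟩ := QHG3_supp h hx hy hx' hy' hX hE e
    exact ⟨W, h1, Or.inl ⟨s, hs, g, h2⟩⟩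
  · obtain ⟨W, h1, h2⟩ := QHG3_supp h hx hy hx' hy' hX hE e
    exact ⟨W, h1, Or.inr ⟨g, hg, h2⟩⟩

theorem QHG3_supp2 (h : Fat G d r) (hx : x ∈ Hull d F) (hy : y ∈ Hull d F)
    (hx' : φ • x ∈ Hull d F) (hy' : φ • y ∈ Hull d F) {E : G → Y → Prop} {J : Y → Prop}
    {X : Set Y} (hX : ∀ z ∈ X, Bt d x z y)
    (hE : ∀ k p, E k p → EB d B k p ∨ (k = φ ∧ Bt d x p y ∧ (J p ∨ ∃ z ∈ X, r p z)))
    {a b : Y} {g : G} (e : FP d r F E (1, a) (g, b) ∨ (Cone d r F E P a ∧ Cone d r F E P b)) :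
    ∃ W : Finset Y, (∀ w ∈ W, J w) ∧ (FP d r F (QHG3E d B φ (X ∪ W)) (1, a) (g, b) ∨
      (Cone d r F (QHG3E d B φ (X ∪ W)) P a ∧ Cone d r F (QHG3E d B φ (X ∪ W)) P b)) := by
  classical
  rcases e with e | ⟨e1, e2⟩
  · obtain ⟨W, h1, h2⟩ := QHG3_supp h hx hy hx' hy' hX hE e
    exact ⟨W, h1, Or.inl h2⟩
  · obtain ⟨W, h1, h2⟩ := QHG3_suppc h hx hy hx' hy' hX hE e1
    obtain ⟨W', h1', h2'⟩ := QHG3_suppc h hx hy hx' hy' hX hE e2
    refine ⟨W ∪ W', fun w hw => (Finset.mem_union.1 hw).elim (h1 w) (h1' w),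
      Or.inr ⟨h2.mono (QHG3E_mono ?_) (Finset.Subset.refl _),
        h2'.mono (QHG3E_mono ?_) (Finset.Subset.refl _)⟩⟩
    · exact Set.union_subset_union_right _ (by simp)
    · exact Set.union_subset_union_right _ (by simp)

theorem QHG3_filt {X W₀ : Set Y} (hX : X ∪ W ⊆ W₀)
    (hW : ∀ w ∈ W, (∃ a ∈ A, ∃ g g', FP d r F (QHG3E d B φ W₀) (g, a) (g', w)) → w ∈ W')
    {u v : G × Y} (e : FP d r F (QHG3E d B φ (X ∪ W)) u v) :
    (∃ a ∈ A, ∃ g, FP d r F (QHG3E d B φ W₀) (g, a) u) →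
      FP d r F (QHG3E d B φ (X ∪ W')) u v := by
  have up : ∀ {u v : G × Y}, FP d r F (QHG3E d B φ (X ∪ W)) u v →
      FP d r F (QHG3E d B φ W₀) u v := fun e => e.mono (QHG3E_mono hX) (Finset.Subset.refl _)
  induction e with
  | rel u v s =>
    rintro ⟨a, ha, g, e⟩
    rcases s with s | ⟨k, s | ⟨rfl, s | s⟩, rfl⟩
    · exact EqvGen.rel _ _ (Or.inl s)
    · exact EqvGen.rel _ _ (Or.inr ⟨k, Or.inl s, rfl⟩)
    · exact EqvGen.rel _ _ (Or.inr ⟨k, Or.inr ⟨rfl, Or.inl s⟩, rfl⟩)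
    · exact EqvGen.rel _ _ (Or.inr ⟨k, Or.inr ⟨rfl, Or.inr (hW _ s ⟨a, ha, g, u.1, e⟩)⟩, rfl⟩)
  | refl u => exact fun _ => EqvGen.refl _
  | symm u v e ih =>
    rintro ⟨a, ha, g, e'⟩
    exact EqvGen.symm _ _ (ih ⟨a, ha, g, EqvGen.trans _ _ _ e' (EqvGen.symm _ _ (up e))⟩)
  | trans u v w e _ ih ih' =>
    rintro ⟨a, ha, g, e'⟩
    exact EqvGen.trans _ _ _ (ih ⟨a, ha, g, e'⟩) (ih' ⟨a, ha, g, EqvGen.trans _ _ _ e' (up e)⟩)

theorem QHG3_filt2 {X W₀ : Set Y} (hX : X ∪ W ⊆ W₀)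
    (hW : ∀ w ∈ W, (∃ a ∈ A, ∃ g g', FP d r F (QHG3E d B φ W₀) (g, a) (g', w)) → w ∈ W')
    {a b : Y} {g : G} (ha : a ∈ A) (hb : b ∈ A)
    (e : FP d r F (QHG3E d B φ (X ∪ W)) (1, a) (g, b) ∨
      (Cone d r F (QHG3E d B φ (X ∪ W)) P a ∧ Cone d r F (QHG3E d B φ (X ∪ W)) P b)) :
    FP d r F (QHG3E d B φ (X ∪ W')) (1, a) (g, b) ∨
      (Cone d r F (QHG3E d B φ (X ∪ W')) P a ∧ Cone d r F (QHG3E d B φ (X ∪ W')) P b) := by
  have k : ∀ a ∈ A, Cone d r F (QHG3E d B φ (X ∪ W)) P a →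
      Cone d r F (QHG3E d B φ (X ∪ W')) P a := by
    rintro a ha (⟨s, hs, g, e⟩ | ⟨g, hg, e⟩)
    · exact Or.inl ⟨s, hs, g, QHG3_filt hX hW e ⟨a, ha, 1, EqvGen.refl _⟩⟩
    · exact Or.inr ⟨g, hg, QHG3_filt hX hW e ⟨a, ha, 1, EqvGen.refl _⟩⟩
  exact e.imp (fun e => QHG3_filt hX hW e ⟨a, ha, 1, EqvGen.refl _⟩)
    fun e => ⟨k a ha e.1, k b hb e.2⟩

end sets

open Classical in
theorem QHG3_main (h : Fat G d r) (ne : P.Nonempty) (hx : x ∈ Hull d F) (hy : y ∈ Hull d F)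
    (hx' : φ • x ∈ Hull d F) (hy' : φ • y ∈ Hull d F)
    (seed : FP d r F (EB d B) (1, x) (φ, φ • x)) (n : ¬ r x y)
    (un : ¬ EqvGen (Fσ d r F (EdB d r B)) (x, y) (φ • x, φ • y)) (p : PI d r F B P c) {c' : ℤ}
    (hc : c' = c ∨ (c' = c - 1 ∧ TR d r F B P φ x y)) :
    PI d r F (insert (φ, x, y) B) P c' := by
  have T := h.act.tr
  obtain ⟨V, hV, p⟩ := p
  refine ⟨insert x (insert y (insert (φ • x) (insert (φ • y) V))), ?_, fun A hA hK Δ hΔ => ?_⟩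
  · intro v hv
    simp only [Finset.mem_insert] at hv
    rcases hv with rfl | rfl | rfl | rfl | hv
    exacts [hx, hy, hx', hy', hV v hv]
  have mx : x ∈ A := hA (by simp)
  have my : y ∈ A := hA (by simp)
  have mx' : φ • x ∈ A := hA (by simp)
  have my' : φ • y ∈ A := hA (by simp)
  let J : Y → Prop := fun w => Bt d x w y ∧ ¬ r w x ∧ ¬ r w y
  have X1 : ∀ z ∈ ({x} : Set Y), Bt d x z y := by
    rintro z rfl; exact T.bt_left _ _
  have X2 : ∀ z ∈ ({y, x} : Set Y), Bt d x z y := by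
    rintro z (rfl | rfl)
    exacts [T.bt_right _ _, T.bt_left _ _]
  have E1 : ∀ k p, ER d r B φ x y k p → EB d B k p ∨
      (k = φ ∧ Bt d x p y ∧ (J p ∨ ∃ z ∈ ({x} : Set Y), r p z)) := by
    rintro k p (e | ⟨e1, e2, e3⟩)
    · exact Or.inl e
    · by_cases e : r p x
      · exact Or.inr ⟨e1, e2, Or.inr ⟨x, rfl, e⟩⟩
      · exact Or.inr ⟨e1, e2, Or.inl ⟨e2, e, e3⟩⟩
  have E2 : ∀ k p, EB d (insert (φ, x, y) B) k p → EB d B k p ∨
      (k = φ ∧ Bt d x p y ∧ (J p ∨ ∃ z ∈ ({y, x} : Set Y), r p z)) := by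
    rintro k p ⟨u, v, e1, e2⟩
    rcases Finset.mem_insert.1 e1 with e1 | e1
    · obtain ⟨rfl, rfl, rfl⟩ : k = φ ∧ u = x ∧ v = y := by simpa using e1
      by_cases e : r p u
      · exact Or.inr ⟨rfl, e2, Or.inr ⟨u, Or.inr rfl, e⟩⟩
      by_cases e' : r p v
      · exact Or.inr ⟨rfl, e2, Or.inr ⟨v, Or.inl rfl, e'⟩⟩
      · exact Or.inr ⟨rfl, e2, Or.inl ⟨e2, e, e'⟩⟩
    · exact Or.inl ⟨u, v, e1, e2⟩
  have mono2 : ∀ {X : Set Y} {W W' : Finset Y} {a b : Y} {g : G}, W ⊆ W' →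
      (FP d r F (QHG3E d B φ (X ∪ W)) (1, a) (g, b) ∨
        (Cone d r F (QHG3E d B φ (X ∪ W)) P a ∧ Cone d r F (QHG3E d B φ (X ∪ W)) P b)) →
      FP d r F (QHG3E d B φ (X ∪ W')) (1, a) (g, b) ∨
        (Cone d r F (QHG3E d B φ (X ∪ W')) P a ∧ Cone d r F (QHG3E d B φ (X ∪ W')) P b) := by
    intro X W W' a b g hW e
    have m : ∀ k q, QHG3E d B φ (X ∪ W) k q → QHG3E d B φ (X ∪ W') k q :=
      QHG3E_mono (Set.union_subset_union_right _ (by exact_mod_cast hW))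
    exact e.imp (fun e => e.mono m (Finset.Subset.refl _))
      fun e => ⟨e.1.mono m (Finset.Subset.refl _), e.2.mono m (Finset.Subset.refl _)⟩
  obtain ⟨W₁, j1, w1⟩ := QHG3_union (J := J) (A ×ˢ A) (fun i W =>
    EqvGen (Fρ d r F (EB d (insert (φ, x, y) B)) P) i.1 i.2 → ∃ g : G,
      FP d r F (QHG3E d B φ ({y, x} ∪ W)) (1, i.1) (g, i.2) ∨
      (Cone d r F (QHG3E d B φ ({y, x} ∪ W)) P i.1 ∧
        Cone d r F (QHG3E d B φ ({y, x} ∪ W)) P i.2))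
    (fun i W W' hW e e' => (e e').imp fun g e => mono2 hW e) (by
      intro i _
      by_cases e : EqvGen (Fρ d r F (EB d (insert (φ, x, y) B)) P) i.1 i.2
      · have : ∃ g : G, FP d r F (EB d (insert (φ, x, y) B)) (1, i.1) (g, i.2) ∨
            (Cone d r F (EB d (insert (φ, x, y) B)) P i.1 ∧
              Cone d r F (EB d (insert (φ, x, y) B)) P i.2) := by
          rcases QHG2_eqv.1 e with ⟨g, e⟩ | e
          exacts [⟨g, Or.inl e⟩, ⟨1, Or.inr e⟩]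
        obtain ⟨g, e⟩ := this
        obtain ⟨W, h1, h2⟩ := QHG3_supp2 h hx hy hx' hy' X2 E2 e
        exact ⟨W, h1, fun _ => ⟨g, h2⟩⟩
      · exact ⟨∅, by simp, fun e' => (e e').elim⟩)
  obtain ⟨W₂, j2, w2⟩ : ∃ W : Finset Y, (∀ w ∈ W, J w) ∧ (TR d r F B P φ x y →
      FP d r F (QHG3E d B φ ({x} ∪ W)) (1, y) (φ, φ • y) ∨
      (Cone d r F (QHG3E d B φ ({x} ∪ W)) P y ∧ Cone d r F (QHG3E d B φ ({x} ∪ W)) P (φ • y))) := by
    by_cases e : TR d r F B P φ x y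
    · obtain ⟨W, h1, h2⟩ := QHG3_supp2 h hx hy hx' hy' X1 E1 e
      exact ⟨W, h1, fun _ => h2⟩
    · exact ⟨∅, by simp, fun e' => (e e').elim⟩
  let W₃ := W₁ ∪ W₂
  let W := W₃.filter fun w => ∃ a ∈ A, ∃ g g', FP d r F (QHG3E d B φ ({y, x} ∪ W₃)) (g, a) (g', w)
  have hW : ∀ w ∈ (W₃ : Set Y), (∃ a ∈ A, ∃ g g',
      FP d r F (QHG3E d B φ ({y, x} ∪ W₃)) (g, a) (g', w)) → w ∈ (W : Set Y) :=
    fun w h1 h2 => Finset.mem_filter.2 ⟨h1, h2⟩
  have jW : ∀ w ∈ W, J w := fun w hw =>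
    (Finset.mem_union.1 (Finset.mem_filter.1 hw).1).elim (j1 w) (j2 w)
  let A' := A ∪ (W ∪ W.image fun w => φ • w)
  have sA : A ⊆ A' := Finset.subset_union_left
  have q0 := p A' (fun v hv => sA (hA (by simp [hv]))) (by
    intro v hv
    simp only [A', Finset.mem_union, Finset.mem_image] at hv
    rcases hv with hv | hv | ⟨w, hw, rfl⟩
    · exact hK v hv
    · exact T.hull_conv hx hy (jW v hv).1
    · exact T.hull_conv hx' hy' (h.act.bt φ (jW w hw).1))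
  have q1 : QI d r F (QHG3E d B φ {x}) (QHG3F d r B φ x y {x}) P A' (c - 1) := by
    have := QHG3_qred (QHG3_qdir h q0 (sA mx) (sA mx') hy hy' n un) (Or.inl seed)
    have e : QHG3E d B φ {x} = QHG3P (EB d B) φ x := rfl
    rw [e]
    refine QHG3_qmono this ?_
    rintro k δ (e | ⟨rfl, rfl⟩)
    · exact Or.inl e
    · exact Or.inr ⟨rfl, rfl, Or.inr rfl, n⟩
  have q2 : ∀ U : Finset Y, U ⊆ W →
      QI d r F (QHG3E d B φ ({x} ∪ U)) (QHG3F d r B φ x y ({x} ∪ U)) P A' (c - 1) := by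
    intro U
    induction U using Finset.induction_on with
    | empty => intro _; simpa using q1
    | insert w U _ ih =>
      intro hU
      have hw := hU (Finset.mem_insert_self _ _)
      rw [Finset.coe_insert, Set.union_insert]
      exact QHG3_rb h ne (ih ((Finset.subset_insert _ _).trans hU)) hx hx' hy hy'
        (by simp [A', hw]) (by
          simp only [A', Finset.mem_union, Finset.mem_image]
          exact Or.inr (Or.inr ⟨w, hw, rfl⟩)) (jW w hw).1 (jW w hw).2.1 (jW w hw).2.2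
  have q3 : QI d r F (QHG3E d B φ ({y, x} ∪ W)) (QHG3F d r B φ x y ({y, x} ∪ W)) P A' c' := by
    rw [Set.insert_union]
    rcases hc with rfl | ⟨rfl, tr⟩
    · have := QHG3_rc h ne (q2 W (Finset.Subset.refl _)) hx hx' (sA my) (sA my')
        fun e => n (h.eqv.symm e)
      rwa [sub_add_cancel] at this
    · refine QHG3_ra (q2 W (Finset.Subset.refl _)) (QHG3_filt2 (W := W₃) ?_ hW my my'
        (mono2 Finset.subset_union_right (w2 tr)))
      exact Set.union_subset_union_left _ (Set.subset_insert _ _)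
  have e1 := q3 Δ fun δ hδ => ⟨sA (hΔ δ hδ).1, (hΔ δ hδ).2⟩
  have e2 : ncls (Fσ d r F (EdB d r (insert (φ, x, y) B))) Δ ≤
      ncls (Fσ d r F (QHG3F d r B φ x y ({y, x} ∪ W))) Δ := by
    refine ncls_mono_rel (QHG3_smono ?_) Δ
    rintro k δ (⟨u, v, a1, a2⟩ | ⟨rfl, a1, a2, a3⟩)
    · exact ⟨u, v, Finset.mem_insert_of_mem a1, a2⟩
    · refine ⟨x, y, Finset.mem_insert_self _ _, a1.elim (X2 _) fun a => (jW _ a).1, ?_, a3⟩
      rcases a2 with a2 | a2 <;> rw [a2]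
      exacts [T.bt_left _ _, T.bt_right _ _]
  have e3 : ncls (Fρ d r F (QHG3E d B φ ({y, x} ∪ W)) P) A' ≤
      ncls (Fρ d r F (EB d (insert (φ, x, y) B)) P) A := by
    have k : ∀ w ∈ W, ∃ a ∈ A, EqvGen (Fρ d r F (QHG3E d B φ ({y, x} ∪ W)) P) w a := by
      intro w hw
      obtain ⟨a, ha, g, g', e⟩ := (Finset.mem_filter.1 hw).2
      exact ⟨a, ha, EqvGen.symm _ _ (QHG3_con
        (QHG3_filt (Set.Subset.refl _) hW e ⟨a, ha, g, EqvGen.refl _⟩))⟩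
    refine ncls_le_of (fun v hv => ?_) fun a ha b hb e => ?_
    · simp only [A', Finset.mem_union, Finset.mem_image] at hv
      rcases hv with hv | hv | ⟨w, hw, rfl⟩
      · exact ⟨v, hv, EqvGen.refl _⟩
      · exact k v hv
      · obtain ⟨a, ha, e⟩ := k w hw
        exact ⟨a, ha, EqvGen.trans _ _ _ (EqvGen.symm _ _ (EqvGen.rel _ _
          (Or.inl ⟨φ * 1, Or.inr ⟨φ, Or.inr ⟨rfl, Or.inr hw⟩, rfl⟩⟩))) e⟩
    · obtain ⟨g, e⟩ := w1 (a, b) (Finset.mem_product.2 ⟨ha, hb⟩) e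
      rcases QHG3_filt2 (W := W₃) (Set.Subset.refl _) hW ha hb
        (mono2 Finset.subset_union_left e) with e | e
      · exact QHG2_eqv.2 (Or.inl ⟨g, e⟩)
      · exact QHG2_eqv.2 (Or.inr e)
  omega

open Classical in
theorem pi_extend (h : Fat G d r) (ink : InK d F B) (hP : ∀ s ∈ P, s ∈ Hull d F)
    (ne : P.Nonempty) (hx : x ∈ Hull d F) (hy : y ∈ Hull d F)
    (hx' : φ • x ∈ Hull d F) (hy' : φ • y ∈ Hull d F)
    (seed : FP d r F (EB d B) (1, x) (φ, φ • x)) (n : ¬ r x y)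
    (un : ¬ EqvGen (Fσ d r F (EdB d r B)) (x, y) (φ • x, φ • y)) (p : PI d r F B P c) :
    (TR d r F B P φ x y → PI d r F (insert (φ, x, y) B) P (c - 1)) ∧
    (Cone d r F (EB d B) P y ∨ Cone d r F (EB d B) P (φ • y) →
      PI d r F (insert (φ, x, y) B) P c) := by
  exact ⟨fun tr => QHG3_main h ne hx hy hx' hy' seed n un p (Or.inr ⟨rfl, tr⟩),
    fun _ => QHG3_main h ne hx hy hx' hy' seed n un p (Or.inl rfl)⟩

end Pool.Agent.Work.MP_904812_al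
end

-- merged part: Pool.Agent.Work.MP_904812_al.QHG5
section
/-! Systems of minimal index are simply connected. -/

namespace Pool.Agent.Work.MP_904812_al

set_option linter.unusedSectionVars false
set_option linter.unusedVariables false

open Subgroup MulAction Relation

variable {G Y : Type} [Group G] [MulAction G Y] {d : Y → Y → ℝ} {r : Y → Y → Prop}
  {F P : Finset Y} {B : Finset (G × Y × Y)} {c : ℤ} {φ : G} {x y : Y}

open Classical

theorem QHG5_hull {F' : Finset Y} (hF : F ⊆ F') {p : Y} (hp : p ∈ Hull d F) : p ∈ Hull d F' := by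
  obtain ⟨u, hu, v, hv, a⟩ := hp
  exact ⟨u, hF hu, v, hF hv, a⟩

theorem QHG5_eb {B' : Finset (G × Y × Y)} (hB : B ⊆ B') (k : G) (p : Y) (e : EB d B k p) :
    EB d B' k p := by
  obtain ⟨u, v, h1, h2⟩ := e
  exact ⟨u, v, hB h1, h2⟩

theorem QHG5_ink (ink : InK d F B) (hx : x ∈ Hull d F) (hy : y ∈ Hull d F)
    (hx' : φ • x ∈ Hull d F) (hy' : φ • y ∈ Hull d F) : InK d F (insert (φ, x, y) B) := by
  intro β hβ
  rcases Finset.mem_insert.1 hβ with rfl | hβ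
  · exact ⟨hx, hy, hx', hy'⟩
  · exact ink β hβ

theorem QHG5_step (h : Fat G d r) {u v p : Y} (hβ : (φ, u, v) ∈ B) (a : Bt d u p v) (g : G) :
    FP d r F (EB d B) (g, p) (φ * g, φ • p) :=
  EqvGen.rel _ _ (Or.inr ⟨φ, ⟨u, v, hβ, a⟩, rfl⟩)

theorem QHG5_step1 (h : Fat G d r) {u v p : Y} (hβ : (φ, u, v) ∈ B) (a : Bt d u p v) :
    FP d r F (EB d B) (1, p) (φ, φ • p) := by
  have := QHG5_step (F := F) h hβ a 1
  rwa [mul_one] at this

theorem QHG5_rstep {E : G → Y → Prop} {p p' : Y} (a : r p p') (hp : p ∈ Hull d F)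
    (hp' : p' ∈ Hull d F) (g : G) : FP d r F E (g, p) (g, p') :=
  EqvGen.rel _ _ (Or.inl ⟨rfl, a, hp, hp'⟩)

/-- a redundant band does not change the classes of directions -/
theorem QHG5_sigma {q : Y} (R2 : ∀ p p', Bt d x p q → Bt d x p' q → ¬ r p p' →
      EqvGen (DSt d r F (EdB d r B)) (1, p, p') (φ, φ • p, φ • p')) {δ δ' : Y × Y}
    (e : EqvGen (Fσ d r F (EdB d r (insert (φ, x, q) B))) δ δ') :
    EqvGen (Fσ d r F (EdB d r B)) δ δ' := by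
  refine eqv_mono ?_ e
  rintro a b ⟨g, s | ⟨k, ⟨u, v, h1, h2, h3, h4⟩, s⟩⟩
  · exact EqvGen.rel _ _ ⟨g, Or.inl s⟩
  · rcases Finset.mem_insert.1 h1 with e1 | h1
    · obtain ⟨rfl, rfl, rfl⟩ : k = φ ∧ u = x ∧ v = q := by simpa using e1
      have hb : b = (k • a.1, k • a.2) := congrArg Prod.snd s
      rw [hb]
      exact fσ_iff.2 ⟨k, R2 a.1 a.2 h2 h3 h4⟩
    · exact EqvGen.rel _ _ ⟨g, Or.inr ⟨k, ⟨u, v, h1, h2, h3, h4⟩, s⟩⟩

theorem QHG5_un (h : Fat G d r) {Ed : G → Y × Y → Prop} {q p : Y} (hq : q ∈ Hull d F)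
    (hq' : φ • q ∈ Hull d F) (a : Bt d q p y) (n : ¬ r q p)
    (e : EqvGen (Fσ d r F Ed) (q, p) (φ • q, φ • p)) :
    EqvGen (Fσ d r F Ed) (q, y) (φ • q, φ • y) := by
  have a1 := h.fsd_of_bt a n
  have a2 := (h.fsd_smul φ).2 a1
  exact EqvGen.trans _ (q, p) _ (EqvGen.rel _ _ ⟨1, Or.inl ⟨rfl, h.fsd_symm a1, hq, hq⟩⟩)
    (EqvGen.trans _ (φ • q, φ • p) _ e (EqvGen.rel _ _ ⟨1, Or.inl ⟨rfl, a2, hq', hq'⟩⟩))

theorem QHG5_grow (h : Fat G d r) (ink : InK d F B) (hP : ∀ s ∈ P, s ∈ Hull d F)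
    (ne : P.Nonempty) (hx : x ∈ Hull d F) (hy : y ∈ Hull d F) (hx' : φ • x ∈ Hull d F)
    (hy' : φ • y ∈ Hull d F) (seed : FP d r F (EB d B) (1, x) (φ, φ • x))
    (cy : Cone d r F (EB d B) P (φ • y)) (p : PI d r F B P c) :
    ∃ B', B ⊆ B' ∧ InK d F B' ∧ PI d r F B' P c ∧ FP d r F (EB d B') (1, y) (φ, φ • y) := by
  have T := h.act.tr
  obtain ⟨q, hq, R1, R2, -, R4⟩ := phase1 h ink hx hy hx' hy' seed
  have q1 := T.hull_conv hx hy hq
  have q2 := T.hull_conv hx' hy' (h.act.bt φ hq)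
  have p1 := pi_red (x := x) (y := q) h p R1
  have i1 := QHG5_ink ink hx q1 hx' q2
  have s1 : FP d r F (EB d (insert (φ, x, q) B)) (1, q) (φ, φ • q) :=
    QHG5_step1 h (Finset.mem_insert_self _ _) (T.bt_right x q)
  rcases R4 with rfl | ⟨n, un⟩
  · exact ⟨_, Finset.subset_insert _ _, i1, p1, s1⟩
  · refine ⟨_, (Finset.subset_insert _ _).trans (Finset.subset_insert _ _),
      QHG5_ink i1 q1 hy q2 hy',
      (pi_extend h i1 hP ne q1 hy q2 hy' s1 n (fun e => un (QHG5_sigma R2 e)) p1).2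
        (Or.inr (cy.mono (QHG5_eb (Finset.subset_insert _ _)) (Finset.Subset.refl _))),
      QHG5_step1 h (Finset.mem_insert_self _ _) (T.bt_right q y)⟩

section ext

variable {Γ : Type} [Group Γ] {f f' f'' : G → Y → Γ} {F' F'' : Finset Y}
  {B' B'' : Finset (G × Y × Y)}

/-- extension of systems with cochains -/
def QHG5Le (d : Y → Y → ℝ) (r : Y → Y → Prop) (P F : Finset Y) (B : Finset (G × Y × Y))
    (f : G → Y → Γ) (F' : Finset Y) (B' : Finset (G × Y × Y)) (f' : G → Y → Γ) : Prop :=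
  F ⊆ F' ∧ B ⊆ B' ∧ Agree d r F B P f f'

theorem QHG5_agree_eq (e : ∀ (g : G) p, g • p ∈ Hull d F → f' g p = f g p) :
    Agree d r F B P f f' :=
  ⟨fun _ => 1, fun g p hp => by rw [mul_one, e g p hp], fun _ _ _ => rfl, fun _ _ => rfl⟩

theorem QHG5Le.refl : QHG5Le d r P F B f F B f :=
  ⟨Finset.Subset.refl _, Finset.Subset.refl _, QHG5_agree_eq fun _ _ _ => rfl⟩

theorem QHG5Le.trans (a : QHG5Le d r P F B f F' B' f') (b : QHG5Le d r P F' B' f' F'' B'' f'') :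
    QHG5Le d r P F B f F'' B'' f'' := by
  obtain ⟨a1, a2, γ, a3, a4, a5⟩ := a
  obtain ⟨b1, b2, γ', b3, b4, b5⟩ := b
  refine ⟨a1.trans b1, a2.trans b2, fun z => γ z * γ' z, fun g p hp => ?_, fun u v e => ?_,
    fun u e => ?_⟩
  · rw [b3 g p (QHG5_hull a1 hp), a3 g p hp, mul_assoc]
  · show γ u * γ' u = γ v * γ' v
    rw [a4 u v e, b4 u v (e.mono (QHG5_eb a2) a1)]
  · show γ u * γ' u = 1
    rw [a5 u e, b5 u (e.mono (QHG5_eb a2) a1), mul_one]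

theorem QHG5Le.val (a : QHG5Le d r P F B f F' B' f') {g g' : G} {p p' : Y}
    (hp : g • p ∈ Hull d F) (hp' : g' • p' ∈ Hull d F)
    (e : FP d r F (EB d B) (g, g • p) (g', g' • p') ∨
      (Cone d r F (EB d B) P (g • p) ∧ Cone d r F (EB d B) P (g' • p'))) :
    f' g' p' * (f' g p)⁻¹ = f g' p' * (f g p)⁻¹ := by
  obtain ⟨-, -, γ, a3, a4, a5⟩ := a
  have : γ (g, g • p) = γ (g', g' • p') := by
    rcases e with e | ⟨e1, e2⟩
    · exact a4 _ _ e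
    · rw [a5 (g, g • p) e1, a5 (g', g' • p') e2]
  rw [a3 g p hp, a3 g' p' hp', this]
  group

/-- systems with cochains, all of whose points except `y` are coned -/
structure QHG5V (d : Y → Y → ℝ) (r : Y → Y → Prop) (P : Finset Y) (c : ℤ) (F : Finset Y)
    (B : Finset (G × Y × Y)) (f : G → Y → Γ) (y : Set Y) : Prop where
  sub : P ⊆ F
  ink : InK d F B
  valid : ∀ z ∈ F, Cone d r F (EB d B) P z ∨ z ∈ y
  pi : PI d r F B P c
  rinv : RInv d r F f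
  cl : Closed d B f

theorem QHG5_addF (h : Fat G d r) (ne : P.Nonempty) (v : QHG5V d r P c F B f ∅) (z : Y) :
    ∃ f' : G → Y → Γ, QHG5V d r P c (insert z F) B f' {z} ∧
      QHG5Le d r P F B f (insert z F) B f' := by
  have T := h.act.tr
  have neF : F.Nonempty := ne.mono v.sub
  choose π h1 h2 using QHG2_gate T neF
  have fix : ∀ p ∈ Hull d F, π p = p := fun p hp => by
    have := h2 p p hp
    have e1 := T.nonneg p (π p)
    have e2 := T.nonneg (π p) p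
    have e3 := T.self p
    apply T.eq_of
    simp only [Bt] at this
    linarith
  have sub : F ⊆ insert z F := Finset.subset_insert _ _
  have e : ∀ (g : G) p, g • p ∈ Hull d F → f g (g⁻¹ • π (g • p)) = f g p := fun g p hp => by
    rw [fix _ hp, inv_smul_smul]
  refine ⟨fun g p => f g (g⁻¹ • π (g • p)), ⟨v.sub.trans sub, fun β hβ => ?_, fun w hw => ?_,
    pi_addF h v.ink neF (fun s hs => T.mem_hull (v.sub hs)) v.pi z, ?_, ?_⟩,
    sub, Finset.Subset.refl _, QHG5_agree_eq e⟩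
  · obtain ⟨a1, a2, a3, a4⟩ := v.ink β hβ
    exact ⟨QHG5_hull sub a1, QHG5_hull sub a2, QHG5_hull sub a3, QHG5_hull sub a4⟩
  · rcases Finset.mem_insert.1 hw with rfl | hw
    · exact Or.inr rfl
    · rcases v.valid w hw with a | a
      · exact Or.inl (a.mono (fun _ _ a => a) sub)
      · exact a.elim
  · intro g p p' _ _ a
    refine v.rinv g _ _ (by rw [smul_inv_smul]; exact h1 _) (by rw [smul_inv_smul]; exact h1 _) ?_
    apply h.inv
    have a' := h.inv g _ _ a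
    by_cases e1 : π (g • p) = π (g • p')
    · rw [e1]; exact h.eqv.refl _
    · have b1 := h2 (g • p) _ (h1 (g • p'))
      have b2 := h2 (g • p') _ (h1 (g • p))
      have n1 := T.pos e1
      have k : Bt d (g • p) (π (g • p)) (g • p') ∧ Bt d (g • p) (π (g • p')) (g • p') := by
        clear * - d G Y g p π p' T F P ne neF b1 b2 n1
        have := T.four (g • p) (π (g • p')) (g • p') (π (g • p))
        have := T.tri (g • p) (π (g • p)) (g • p')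
        have := T.tri (g • p) (π (g • p')) (g • p')
        have := T.symm (π (g • p)) (π (g • p'))
        have := T.symm (g • p') (π (g • p'))
        have := T.symm (g • p') (π (g • p))
        simp only [Bt] at *
        grind
      exact h.eqv.trans (h.eqv.symm (h.conv _ _ _ a' k.1)) (h.conv _ _ _ a' k.2)
  · intro β hβ g p p' a a'
    obtain ⟨a1, a2, a3, a4⟩ := v.ink β hβ
    have k : ∀ p, Bt d β.2.1 (g • p) β.2.2 → g • p ∈ Hull d F ∧ (β.1 * g) • p ∈ Hull d F :=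
      fun p a => ⟨T.hull_conv a1 a2 a, by
        rw [mul_smul]; exact T.hull_conv a3 a4 (h.act.bt _ a)⟩
    show f _ _ * (f _ _)⁻¹ = f _ _ * (f _ _)⁻¹
    rw [e _ _ (k p a).1, e _ _ (k p a).2, e _ _ (k p' a').1, e _ _ (k p' a').2]
    exact v.cl β hβ g p p' a a'

theorem QHG5_closed {β : G × Y × Y} (a : Closed d {β} f) (b : Closed d B f) :
    Closed d (insert β B) f := by
  intro β' h
  rcases Finset.mem_insert.1 h with rfl | h
  · exact a _ (Finset.mem_singleton_self _)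
  · exact b _ h

theorem QHG5_band (h : Fat G d r) (ne : P.Nonempty)
    (hmin : ∀ (F : Finset Y) (B : Finset (G × Y × Y)) (c' : ℤ), P ⊆ F → InK d F B →
      (∀ z ∈ F, Cone d r F (EB d B) P z) → PI d r F B P c' → c ≤ c')
    (v : QHG5V d r P c F B f {y}) (hx : x ∈ Hull d F) (hy : y ∈ Hull d F)
    (hx' : φ • x ∈ Hull d F) (hy' : φ • y ∈ Hull d F)
    (seed : FP d r F (EB d B) (1, x) (φ, φ • x)) (cy : Cone d r F (EB d B) P (φ • y)) :
    ∃ (B' : Finset (G × Y × Y)) (f' : G → Y → Γ), QHG5V d r P c F B' f' ∅ ∧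
      QHG5Le d r P F B f F B' f' ∧ (φ, x, y) ∈ B' := by
  have T := h.act.tr
  have hP : ∀ s ∈ P, s ∈ Hull d F := fun s hs => T.mem_hull (v.sub hs)
  have val : ∀ B' : Finset (G × Y × Y), B ⊆ B' → FP d r F (EB d B') (1, y) (φ, φ • y) →
      ∀ z ∈ F, Cone d r F (EB d B') P z := by
    intro B' hB e z hz
    rcases v.valid z hz with a | rfl
    · exact a.mono (QHG5_eb hB) (Finset.Subset.refl _)
    · exact (cy.mono (QHG5_eb hB) (Finset.Subset.refl _)).fp (EqvGen.symm _ _ e)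
  obtain ⟨q, hq, R1, R2, R3, R4⟩ := phase1 h v.ink hx hy hx' hy' seed
  have q1 := T.hull_conv hx hy hq
  have q2 := T.hull_conv hx' hy' (h.act.bt φ hq)
  have p1 := pi_red (x := x) (y := q) h v.pi R1
  have i1 := QHG5_ink v.ink hx q1 hx' q2
  have s1 : FP d r F (EB d (insert (φ, x, q) B)) (1, q) (φ, φ • q) :=
    QHG5_step1 h (Finset.mem_insert_self _ _) (T.bt_right x q)
  have c1 := QHG5_closed (R3 Γ f v.rinv v.cl) v.cl
  have u1 : B ⊆ insert (φ, x, q) B := Finset.subset_insert _ _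
  rcases R4 with rfl | ⟨n, un⟩
  · exact ⟨_, f, ⟨v.sub, i1, fun z hz => Or.inl (val _ u1 s1 z hz), p1, v.rinv, c1⟩,
      ⟨Finset.Subset.refl _, u1, QHG5_agree_eq fun _ _ _ => rfl⟩, Finset.mem_insert_self _ _⟩
  have un1 : ¬ EqvGen (Fσ d r F (EdB d r (insert (φ, x, q) B))) (q, y) (φ • q, φ • y) :=
    fun e => un (QHG5_sigma R2 e)
  have cy1 := cy.mono (QHG5_eb u1) (Finset.Subset.refl F)
  have nt : ∀ p, Bt d q p y → ¬ r q p → ¬ TR d r F (insert (φ, x, q) B) P φ q p := by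
    intro p hp np tr
    have w1 := T.hull_conv q1 hy hp
    have w2 := T.hull_conv q2 hy' (h.act.bt φ hp)
    have p2 := (pi_extend h i1 hP ne q1 w1 q2 w2 s1 np
      (fun e => un1 (QHG5_un h q1 q2 hp np e)) p1).1 tr
    have u2 : insert (φ, x, q) B ⊆ insert (φ, q, p) (insert (φ, x, q) B) :=
      Finset.subset_insert _ _
    obtain ⟨B', b1, b2, b3, b4⟩ := QHG5_grow h (QHG5_ink i1 q1 w1 q2 w2) hP ne w1 hy w2 hy'
      (QHG5_step1 h (Finset.mem_insert_self _ _) (T.bt_right q p))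
      (cy1.mono (QHG5_eb u2) (Finset.Subset.refl F)) p2
    have := hmin F B' _ v.sub b2 (val B' (u1.trans (u2.trans b1)) b4) b3
    omega
  obtain ⟨f', r2, c2, a2⟩ := ext_bridge h i1 q1 hy q2 hy' s1 nt v.rinv c1
  have p2 := (pi_extend h i1 hP ne q1 hy q2 hy' s1 n un1 p1).2 (Or.inr cy1)
  have i2 := QHG5_ink i1 q1 hy q2 hy'
  have m1 : (φ, x, q) ∈ insert (φ, q, y) (insert (φ, x, q) B) := by simp
  have m2 : (φ, q, y) ∈ insert (φ, q, y) (insert (φ, x, q) B) := by simp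
  have spl : ∀ a, Bt d x a y → Bt d x a q ∨ Bt d q a y := fun a ha => by
    rcases le_total (d x a) (d x q) with e | e
    · exact Or.inl (T.bt_of_le ha hq e).1
    · exact Or.inr (T.bt_trans (T.bt_of_le hq ha e).1 ha).2
  have p3 := pi_red (x := x) (y := y) (φ := φ) h p2 fun a ha => by
    rcases spl a ha with e | e
    · exact QHG5_step1 h m1 e
    · exact QHG5_step1 h m2 e
  have u2 : insert (φ, x, q) B ⊆ insert (φ, q, y) (insert (φ, x, q) B) :=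
    Finset.subset_insert _ _
  have u3 : insert (φ, q, y) (insert (φ, x, q) B) ⊆
      insert (φ, x, y) (insert (φ, q, y) (insert (φ, x, q) B)) := Finset.subset_insert _ _
  refine ⟨_, f', ⟨v.sub, QHG5_ink i2 hx hy hx' hy', fun z hz => Or.inl (val _
    (u1.trans (u2.trans u3)) (QHG5_step1 h (Finset.mem_insert_self _ _) (T.bt_right x y)) z hz),
    p3, r2, QHG5_closed ?_ c2⟩, QHG5Le.trans (f' := f) (F' := F)
      ⟨Finset.Subset.refl _, u1, QHG5_agree_eq fun _ _ _ => rfl⟩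
      ⟨Finset.Subset.refl _, u2.trans u3, a2⟩, Finset.mem_insert_self _ _⟩
  intro β hβ g
  rw [Finset.mem_singleton.1 hβ]
  have k : ∀ p, Bt d x (g • p) y →
      f' (φ * g) p * (f' g p)⁻¹ = f' (φ * g) (g⁻¹ • q) * (f' g (g⁻¹ • q))⁻¹ := fun p hp => by
    rcases spl _ hp with e | e
    · exact c2 _ m1 g p _ e (by rw [smul_inv_smul]; exact T.bt_right x q)
    · exact c2 _ m2 g p _ e (by rw [smul_inv_smul]; exact T.bt_left q y)
  intro p p' hp hp'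
  exact (k p hp).trans (k p' hp').symm

theorem QHG5_complete (h : Fat G d r) (ne : P.Nonempty)
    (hmin : ∀ (F : Finset Y) (B : Finset (G × Y × Y)) (c' : ℤ), P ⊆ F → InK d F B →
      (∀ z ∈ F, Cone d r F (EB d B) P z) → PI d r F B P c' → c ≤ c')
    (v : QHG5V d r P c F B f ∅) (hx : x ∈ Hull d F) (hx' : φ • x ∈ Hull d F)
    (seed : FP d r F (EB d B) (1, x) (φ, φ • x)) (W : Finset Y) (hW : W ⊆ F) :
    ∃ (F' : Finset Y) (B' : Finset (G × Y × Y)) (f' : G → Y → Γ), QHG5V d r P c F' B' f' ∅ ∧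
      QHG5Le d r P F B f F' B' f' ∧ ∀ w ∈ W, (φ, x, φ⁻¹ • w) ∈ B' := by
  have T := h.act.tr
  induction W using Finset.induction_on with
  | empty => exact ⟨F, B, f, v, QHG5Le.refl, by simp⟩
  | insert w W _ ih =>
    obtain ⟨F₁, B₁, f₁, v₁, l₁, m₁⟩ := ih ((Finset.subset_insert _ _).trans hW)
    obtain ⟨f₂, v₂, l₂⟩ := QHG5_addF h ne v₁ (φ⁻¹ • w)
    have l := l₁.trans l₂
    have hw : w ∈ F := hW (Finset.mem_insert_self _ _)
    have cw : Cone d r F (EB d B) P w := (v.valid w hw).resolve_right fun a => a.elim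
    obtain ⟨B₃, f₃, v₃, l₃, m₃⟩ := QHG5_band (φ := φ) (x := x) h ne hmin v₂ (QHG5_hull l.1 hx)
      (T.mem_hull (Finset.mem_insert_self _ _)) (QHG5_hull l.1 hx')
      (by rw [smul_inv_smul]; exact T.mem_hull (l.1 hw)) (seed.mono (QHG5_eb l.2.1) l.1)
      (by rw [smul_inv_smul]; exact cw.mono (QHG5_eb l.2.1) l.1)
    refine ⟨_, B₃, f₃, v₃, l.trans l₃, fun w' hw' => ?_⟩
    rcases Finset.mem_insert.1 hw' with rfl | hw'
    · exact m₃
    · exact l₃.2.1 (m₁ w' hw')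

/-- the chart `g` is covered from the chart `g₀` with transition `t` -/
def QHG5Cov (d : Y → Y → ℝ) (r : Y → Y → Prop) (P : Finset Y) (c : ℤ) (F : Finset Y)
    (B : Finset (G × Y × Y)) (f : G → Y → Γ) (g₀ g : G) (t : Γ) : Prop :=
  ∃ (F' : Finset Y) (B' : Finset (G × Y × Y)) (f' : G → Y → Γ), QHG5V d r P c F' B' f' ∅ ∧
    QHG5Le d r P F B f F' B' f' ∧ ∀ p, g • p ∈ Hull d F → g₀ • p ∈ Hull d F' ∧
      FP d r F' (EB d B') (g₀, g₀ • p) (g, g • p) ∧ f' g p * (f' g₀ p)⁻¹ = t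

theorem QHG5_cov (h : Fat G d r) (ne : P.Nonempty)
    (hmin : ∀ (F : Finset Y) (B : Finset (G × Y × Y)) (c' : ℤ), P ⊆ F → InK d F B →
      (∀ z ∈ F, Cone d r F (EB d B) P z) → PI d r F B P c' → c ≤ c')
    (v : QHG5V d r P c F' B' f' ∅) (l : QHG5Le d r P F B f F' B' f') {g₀ g : G} {p : Y}
    (h1 : g • p ∈ Hull d F) (h0 : g₀ • p ∈ Hull d F')
    (e : FP d r F' (EB d B') (g₀, g₀ • p) (g, g • p)) :
    QHG5Cov d r P c F B f g₀ g (f' g p * (f' g₀ p)⁻¹) := by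
  have T := h.act.tr
  have e1 : (g * g₀⁻¹) • g₀ • p = g • p := by rw [smul_smul, inv_mul_cancel_right]
  have seed : FP d r F' (EB d B') (1, g₀ • p) (g * g₀⁻¹, (g * g₀⁻¹) • g₀ • p) := by
    have := e.mul g₀⁻¹
    rwa [mul_inv_cancel, ← e1] at this
  obtain ⟨F₁, B₁, f₁, v₁, l₁, m₁⟩ := QHG5_complete h ne hmin v h0
    (by rw [e1]; exact QHG5_hull l.1 h1) seed F l.1
  refine ⟨F₁, B₁, f₁, v₁, l.trans l₁, fun p' hp' => ?_⟩
  obtain ⟨w, hw, a⟩ := T.hull_ext hp' (g • p)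
  have a' : Bt d (g₀ • p) (g₀ • p') ((g * g₀⁻¹)⁻¹ • w) := by
    have := h.act.bt (g * g₀⁻¹)⁻¹ a
    rwa [smul_smul, smul_smul, show (g * g₀⁻¹)⁻¹ * g = g₀ by group] at this
  have hβ := m₁ w hw
  obtain ⟨b1, b2, -, -⟩ := v₁.ink _ hβ
  refine ⟨T.hull_conv b1 b2 a', ?_, ?_⟩
  · have := QHG5_step (F := F₁) h hβ a' g₀
    rwa [inv_mul_cancel_right, smul_smul, inv_mul_cancel_right] at this
  · have := v₁.cl _ hβ g₀ p' p a' (T.bt_left _ _)
    simp only [inv_mul_cancel_right] at this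
    rw [this]
    exact l₁.val h0 (QHG5_hull l.1 h1) (Or.inl e)

/-- links between charts -/
def QHG5Lk (d : Y → Y → ℝ) (r : Y → Y → Prop) (F : Finset Y) (B : Finset (G × Y × Y))
    (a : (G × Y) × G × Y) : Prop :=
  a.1.1 • a.1.2 ∈ Hull d F ∧ a.2.1 • a.2.2 ∈ Hull d F ∧
    ((a.1.2 = a.2.2 ∧ FP d r F (EB d B) (a.1.1, a.1.1 • a.1.2) (a.2.1, a.2.1 • a.2.2)) ∨
      (a.1.1 • a.1.2 ∈ F ∧ a.2.1 • a.2.2 ∈ F ∧ r a.1.2 a.2.2))

theorem QHG5Lk.symm (h : Fat G d r) {a b : G × Y} (l : QHG5Lk d r F B (a, b)) :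
    QHG5Lk d r F B (b, a) := by
  obtain ⟨l1, l2, ⟨l3, l4⟩ | ⟨l3, l4, l5⟩⟩ := l
  · exact ⟨l2, l1, Or.inl ⟨l3.symm, EqvGen.symm _ _ l4⟩⟩
  · exact ⟨l2, l1, Or.inr ⟨l4, l3, h.eqv.symm l5⟩⟩

theorem QHG5_link (h : Fat G d r) (ne : P.Nonempty)
    (hmin : ∀ (F : Finset Y) (B : Finset (G × Y × Y)) (c' : ℤ), P ⊆ F → InK d F B →
      (∀ z ∈ F, Cone d r F (EB d B) P z) → PI d r F B P c' → c ≤ c')
    (v : QHG5V d r P c F B f ∅) {g₀ g g' : G} {p p' : Y} {t : Γ}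
    (cv : QHG5Cov d r P c F B f g₀ g t) (lk : QHG5Lk d r F B ((g, p), (g', p'))) :
    QHG5Cov d r P c F B f g₀ g' (f g' p' * (f g p)⁻¹ * t) := by
  have T := h.act.tr
  obtain ⟨F₁, B₁, f₁, v₁, l₁, m⟩ := cv
  obtain ⟨k1, k2, k3⟩ := lk
  obtain ⟨m1, m2, m3⟩ := m p k1
  simp only at k1 k2 k3
  rcases k3 with ⟨rfl, k3⟩ | ⟨k3, k4, k5⟩
  · have := QHG5_cov h ne hmin v₁ l₁ k2 m1
      (EqvGen.trans _ _ _ m2 (k3.mono (QHG5_eb l₁.2.1) l₁.1))
    rw [← l₁.val k1 k2 (Or.inl k3), ← m3]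
    simpa [mul_assoc] using this
  · have c1 : Cone d r F (EB d B) P (g • p) := (v.valid _ k3).resolve_right fun a => a.elim
    have c2 : Cone d r F (EB d B) P (g' • p') := (v.valid _ k4).resolve_right fun a => a.elim
    obtain ⟨f₂, v₂, l₂⟩ := QHG5_addF h ne v₁ (g₀ • p')
    have l := l₁.trans l₂
    have n1 : g₀ • p ∈ Hull d (insert (g₀ • p') F₁) := QHG5_hull l₂.1 m1
    have n2 : g₀ • p' ∈ Hull d (insert (g₀ • p') F₁) := T.mem_hull (Finset.mem_insert_self _ _)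
    have c3 : Cone d r (insert (g₀ • p') F₁) (EB d B₁) P (g₀ • p') :=
      ((c1.mono (QHG5_eb l.2.1) l.1).fp
        (EqvGen.symm _ _ (m2.mono (fun _ _ a => a) l₂.1))).fp
        (QHG5_rstep (h.inv g₀ _ _ k5) n1 n2 (1 : G))
    have e1 : (g' * g₀⁻¹) • g₀ • p' = g' • p' := by rw [smul_smul, inv_mul_cancel_right]
    have c4 : Cone d r (insert (g₀ • p') F₁) (EB d B₁) P ((g' * g₀⁻¹) • g₀ • p') := by
      rw [e1]; exact c2.mono (QHG5_eb l.2.1) l.1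
    have n3 : (g' * g₀⁻¹) • g₀ • p' ∈ Hull d (insert (g₀ • p') F₁) := by
      rw [e1]; exact QHG5_hull l.1 k2
    have u : B₁ ⊆ insert (g' * g₀⁻¹, g₀ • p', g₀ • p') B₁ := Finset.subset_insert _ _
    have v₃ : QHG5V d r P c (insert (g₀ • p') F₁) (insert (g' * g₀⁻¹, g₀ • p', g₀ • p') B₁) f₂
        ∅ := by
      refine ⟨v₂.sub, QHG5_ink v₂.ink n2 n2 n3 n3, fun z hz => Or.inl ?_,
        pi_seed h v₂.pi c3 c4, v₂.rinv, QHG5_closed ?_ v₂.cl⟩
      · rcases v₂.valid z hz with a | rfl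
        · exact a.mono (QHG5_eb u) (Finset.Subset.refl _)
        · exact c3.mono (QHG5_eb u) (Finset.Subset.refl _)
      · intro β hβ g₁ a a' b b'
        rw [Finset.mem_singleton.1 hβ] at b b'
        have k : ∀ z, Bt d (g₀ • p') z (g₀ • p') → z = g₀ • p' := fun z hz => by
          have e1 := T.nonneg z (g₀ • p')
          have e2 := T.nonneg (g₀ • p') z
          have e3 := T.self (g₀ • p')
          apply T.eq_of
          simp only [Bt] at hz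
          linarith
        have : a = a' := smul_left_cancel g₁ ((k _ b).trans (k _ b').symm)
        rw [this]
    have l₃ : QHG5Le d r P F B f (insert (g₀ • p') F₁)
        (insert (g' * g₀⁻¹, g₀ • p', g₀ • p') B₁) f₂ := ⟨l.1, l.2.1.trans u, l.2.2⟩
    have := QHG5_cov h ne hmin v₃ l₃ k2 n2 (by
      have := QHG5_step (F := insert (g₀ • p') F₁) h
        (Finset.mem_insert_self (g' * g₀⁻¹, g₀ • p', g₀ • p') B₁) (T.bt_left _ _) g₀
      rwa [inv_mul_cancel_right, e1] at this)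
    rw [← l.val k1 k2 (Or.inr ⟨c1, c2⟩), ← m3, ← l₂.val m1 (QHG5_hull l₁.1 k1) (Or.inl m2),
      v₂.rinv g₀ p p' n1 n2 k5]
    simpa [mul_assoc] using this

end ext

theorem fat_hg (h : Fat G d r) (ne : P.Nonempty) :
    ∃ (F : Finset Y) (B : Finset (G × Y × Y)), P ⊆ F ∧ InK d F B ∧ HG G d r F B ∧
      ∀ p ∈ F, (∃ g : G, g ≠ 1 ∧ r (g • p) p) ∨ ∃ g : G, ∃ s ∈ P, r (g • s) p := by
  have T := h.act.tr
  obtain ⟨x₀, hx₀⟩ := id ne
  have i1 : ∀ W : Finset Y, PI (G := G) d r (insert x₀ W) ∅ ∅ 0 := by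
    intro W
    induction W using Finset.induction_on with
    | empty => exact pi_base h x₀
    | insert w W _ ih =>
      rw [Finset.insert_comm]
      exact pi_addF h (by intro β hβ; simp at hβ) (by simp) (by simp) ih w
  have i2 : ∀ W : Finset Y, W ⊆ P → ∃ c, PI (G := G) d r P ∅ W c := by
    intro W
    induction W using Finset.induction_on with
    | empty => exact fun _ => ⟨0, by simpa [Finset.insert_eq_of_mem hx₀] using i1 P⟩
    | insert w W _ ih =>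
      intro hW
      obtain ⟨c, p⟩ := ih ((Finset.subset_insert _ _).trans hW)
      exact ⟨_, pi_addP h (T.mem_hull (hW (Finset.mem_insert_self _ _))) p⟩
  obtain ⟨c₁, p₁⟩ := i2 P (Finset.Subset.refl _)
  obtain ⟨c, ⟨F, B, h1, h2, h3, h4⟩, hmin⟩ := Int.exists_least_of_bdd
    (P := fun c => ∃ (F : Finset Y) (B : Finset (G × Y × Y)), P ⊆ F ∧ InK d F B ∧
      (∀ z ∈ F, Cone d r F (EB d B) P z) ∧ PI d r F B P c)
    ⟨-2, fun c ⟨F, B, h1, _, h3, h4⟩ => pi_lower h (ne.mono h1) h3 h4⟩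
    ⟨c₁, P, ∅, Finset.Subset.refl _, by intro β hβ; simp at hβ,
      fun z hz => Or.inl ⟨z, hz, 1, EqvGen.refl _⟩, p₁⟩
  have hmin' : ∀ (F : Finset Y) (B : Finset (G × Y × Y)) (c' : ℤ), P ⊆ F → InK d F B →
      (∀ z ∈ F, Cone d r F (EB d B) P z) → PI d r F B P c' → c ≤ c' :=
    fun F B c' a1 a2 a3 a4 => hmin c' ⟨F, B, a1, a2, a3, a4⟩
  refine ⟨F, B, h1, h2, fun Γ _ f r1 c1 => ?_, fun p hp => ?_⟩
  · have v : QHG5V d r P c F B f ∅ := ⟨h1, h2, fun z hz => Or.inl (h3 z hz), h4, r1, c1⟩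
    have x1 : ∀ g : G, g • g⁻¹ • x₀ ∈ Hull d F := fun g => by
      rw [smul_inv_smul]; exact T.mem_hull (h1 hx₀)
    have walk : ∀ (g₀ g : G) (t : Γ), GWalk (E := {a // QHG5Lk d r F B a}) (fun a => a.1.1.1)
        (fun a => a.1.2.1) (fun a => f a.1.2.1 a.1.2.2 * (f a.1.1.1 a.1.1.2)⁻¹) g₀ t g →
        QHG5Cov d r P c F B f g₀ g t := by
      intro g₀ g t w
      induction w with
      | nil =>
        have := QHG5_cov h ne hmin' v QHG5Le.refl (x1 g₀) (x1 g₀) (EqvGen.refl _)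
        rwa [mul_inv_cancel] at this
      | fwd e _ ih => exact QHG5_link h ne hmin' v ih e.2
      | bwd e _ ih =>
        have := QHG5_link h ne hmin' v ih (QHG5Lk.symm h (a := e.1.1) (b := e.1.2) e.2)
        simpa using this
    obtain ⟨Φ, -, hΦ⟩ := pot_of_hol (fun g t w => by
      obtain ⟨_, _, _, _, _, m⟩ := walk g g t w
      rw [← (m _ (x1 g)).2.2, mul_inv_cancel]) (1 : G)
    have key : ∀ (g g' : G) p p', QHG5Lk d r F B ((g, p), (g', p')) →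
        f g' p' * (f g p)⁻¹ = Φ g' * (Φ g)⁻¹ := fun g g' p p' l => by
      have := hΦ ⟨_, l⟩
      simp only at this
      rw [this, mul_inv_cancel_right]
    refine ⟨Φ, fun β hβ g p a => key _ _ _ _ ?_, fun g g' p p' a a' e => key _ _ _ _
      ⟨T.mem_hull a, T.mem_hull a', Or.inr ⟨a, a', e⟩⟩⟩
    obtain ⟨a1, a2, a3, a4⟩ := h2 β hβ
    refine ⟨T.hull_conv a1 a2 a, ?_, Or.inl ⟨rfl, ?_⟩⟩
    · show (β.1 * g) • p ∈ _
      rw [mul_smul]; exact T.hull_conv a3 a4 (h.act.bt _ a)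
    · show FP d r F (EB d B) (g, g • p) (β.1 * g, (β.1 * g) • p)
      rw [mul_smul]; exact QHG5_step h hβ a g
  · rcases h3 p hp with ⟨s, hs, g, e⟩ | ⟨g, hg, e⟩
    · have := e.rel h
      rw [inv_one, one_smul] at this
      exact Or.inr ⟨g⁻¹, s, hs, h.eqv.symm this⟩
    · have := e.rel h
      rw [inv_one, one_smul] at this
      exact Or.inl ⟨g⁻¹, inv_ne_one.2 hg, h.eqv.symm this⟩

end Pool.Agent.Work.MP_904812_al
end

-- merged part: Pool.Agent.Work.MP_904812_al.QNoBr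
section
/-! Subdividing bands at branch points. -/

namespace Pool.Agent.Work.MP_904812_al

set_option linter.unusedSectionVars false
set_option linter.unusedVariables false

open Subgroup MulAction

variable {G Y : Type} [Group G] [MulAction G Y] {d : Y → Y → ℝ} {F : Finset Y}
  {B : Finset (G × Y × Y)} {x₀ : Y} {g₀ : G}

/-- a function that is constant between consecutive points of `S` is constant on the segment -/
theorem QNoBr_chain (t : Tr d) {u v : Y} {S : Finset Y} (hu : u ∈ S) (hv : v ∈ S)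
    (hS : ∀ s ∈ S, Bt d u s v) {Γ : Type} (τ : Y → Γ)
    (hτ : ∀ s ∈ S, ∀ s' ∈ S, (∀ p ∈ S, Bt d s p s' → p = s ∨ p = s') →
      ∀ q, Bt d s q s' → τ q = τ s) :
    ∀ q, Bt d u q v → τ q = τ u := by
  classical
  have key : ∀ n : ℕ, ∀ q, Bt d u q v → (S.filter fun s => d u s < d u q).card = n →
      τ q = τ u := by
    intro n
    induction n using Nat.strong_induction_on with
    | _ n ih =>
      intro q hq hn
      by_cases e : u = q
      · rw [← e]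
      have hpos : 0 < d u q := t.pos e
      have hne : (S.filter fun s => d u s < d u q).Nonempty :=
        ⟨u, Finset.mem_filter.2 ⟨hu, by rw [t.self]; exact hpos⟩⟩
      have hne' : (S.filter fun s => d u q ≤ d u s).Nonempty :=
        ⟨v, Finset.mem_filter.2 ⟨hv, t.bt_le hq⟩⟩
      obtain ⟨s, hs, hmax⟩ := Finset.exists_max_image _ (fun s => d u s) hne
      obtain ⟨s', hs', hmin⟩ := Finset.exists_min_image _ (fun s => d u s) hne'
      obtain ⟨hsS, hslt⟩ := Finset.mem_filter.1 hs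
      obtain ⟨hs'S, hs'le⟩ := Finset.mem_filter.1 hs'
      have b1 : Bt d u s v := hS s hsS
      have b2 : Bt d u s' v := hS s' hs'S
      have b3 : Bt d u s q := (t.bt_of_le b1 hq hslt.le).1
      have b4 : Bt d u q s' := (t.bt_of_le hq b2 hs'le).1
      have b5 : Bt d s q s' := (t.bt_trans b3 b4).2
      have b6 : Bt d u s s' := (t.bt_trans b3 b4).1
      have hc : ∀ p ∈ S, Bt d s p s' → p = s ∨ p = s' := by
        intro p hp bp
        have c1 := t.bt_trans' b6 bp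
        have c2 : d u s ≤ d u p := t.bt_le c1.1
        have c3 : d u p ≤ d u s' := t.bt_le c1.2
        by_cases hl : d u p < d u q
        · left
          have := hmax p (Finset.mem_filter.2 ⟨hp, hl⟩)
          exact t.bt_uniq (hS p hp) b1 (le_antisymm this c2)
        · right
          have := hmin p (Finset.mem_filter.2 ⟨hp, not_lt.1 hl⟩)
          exact t.bt_uniq (hS p hp) b2 (le_antisymm c3 this)
      rw [hτ s hsS s' hs'S hc q b5]
      refine ih _ ?_ s b1 rfl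
      rw [← hn]
      apply Finset.card_lt_card
      refine ⟨fun x hx => ?_, fun hsub => ?_⟩
      · obtain ⟨a, b⟩ := Finset.mem_filter.1 hx
        exact Finset.mem_filter.2 ⟨a, b.trans hslt⟩
      · have := (Finset.mem_filter.1 (hsub hs)).2
        exact lt_irrefl _ this
  intro q hq
  exact key _ q hq rfl

/-- the subdivision points of a band -/
theorem QNoBr_pts (t : Tr d) (F : Finset Y) (β : G × Y × Y) :
    ∃ S : Finset Y, ∀ p, p ∈ S ↔ Bt d β.2.1 p β.2.2 ∧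
      (p = β.2.1 ∨ p = β.2.2 ∨ Br d F p ∨ Br d F (β.1 • p)) := by
  have f1 : {c | Br d F c}.Finite := t.br_finite F
  have f2 : {p : Y | Br d F (β.1 • p)}.Finite := by
    have := f1.preimage (f := fun p : Y => β.1 • p) (MulAction.injective β.1).injOn
    exact this
  have f3 : {p : Y | Bt d β.2.1 p β.2.2 ∧
      (p = β.2.1 ∨ p = β.2.2 ∨ Br d F p ∨ Br d F (β.1 • p))}.Finite := by
    refine Set.Finite.subset
      ((((Set.finite_singleton β.2.1).union (Set.finite_singleton β.2.2)).union f1).union f2) ?_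
    rintro p ⟨-, h | h | h | h⟩
    · exact Or.inl (Or.inl (Or.inl h))
    · exact Or.inl (Or.inl (Or.inr h))
    · exact Or.inl (Or.inr h)
    · exact Or.inr h
  exact ⟨f3.toFinset, fun p => by simp⟩

theorem ex_nobr (h : Geo G d Eq F B x₀ g₀) :
    ∃ B' : Finset (G × Y × Y), Geo G d Eq F B' x₀ g₀ ∧ NoBr d F B' := by
  classical
  have t : Tr d := h.fat.act.tr
  have iso := h.fat.act.iso
  choose S hS using QNoBr_pts (G := G) t F
  let B' : Finset (G × Y × Y) := B.biUnion fun β =>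
    (((S β) ×ˢ (S β)).filter fun x => ∀ p ∈ S β, Bt d x.1 p x.2 → p = x.1 ∨ p = x.2).image
      fun x => (β.1, x.1, x.2)
  have mem : ∀ γ : G × Y × Y, γ ∈ B' ↔ ∃ β ∈ B, γ.1 = β.1 ∧ γ.2.1 ∈ S β ∧ γ.2.2 ∈ S β ∧
      ∀ p ∈ S β, Bt d γ.2.1 p γ.2.2 → p = γ.2.1 ∨ p = γ.2.2 := by
    intro γ
    simp only [B', Finset.mem_biUnion, Finset.mem_image, Finset.mem_filter, Finset.mem_product]
    constructor
    · rintro ⟨β, hβ, x, ⟨⟨a, b⟩, c⟩, rfl⟩
      exact ⟨β, hβ, rfl, a, b, c⟩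
    · rintro ⟨β, hβ, a, b, c, e⟩
      refine ⟨β, hβ, (γ.2.1, γ.2.2), ⟨⟨b, c⟩, e⟩, ?_⟩
      rw [← a]
  have sub : ∀ β, ∀ s ∈ S β, ∀ s' ∈ S β, ∀ q, Bt d s q s' → Bt d β.2.1 q β.2.2 :=
    fun β s hs s' hs' q hq => t.bt_conv ((hS β s).1 hs).1 ((hS β s').1 hs').1 hq
  have bts : ∀ (g : G) {x p y : Y}, Bt d x p y → Bt d (g • x) (g • p) (g • y) := by
    intro g x p y a
    simp only [Bt, iso] at *; exact a
  refine ⟨B', ⟨h.fat, ?_, ?_, h.gen, h.x0, h.g0, h.xp, h.xm, h.mn, h.ess⟩, ?_⟩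
  · intro γ hγ
    obtain ⟨β, hβ, e, a, b, -⟩ := (mem γ).1 hγ
    obtain ⟨k1, k2, k3, k4⟩ := h.ink β hβ
    have a' := ((hS β _).1 a).1
    have b' := ((hS β _).1 b).1
    rw [e]
    exact ⟨t.hull_conv k1 k2 a', t.hull_conv k1 k2 b', t.hull_conv k3 k4 (bts _ a'),
      t.hull_conv k3 k4 (bts _ b')⟩
  · intro Γ _ f hf hc
    have hcB : Closed d B f := by
      intro β hβ g
      have key := QNoBr_chain t (S := S β) (u := β.2.1) (v := β.2.2)
        ((hS β _).2 ⟨t.bt_left _ _, Or.inl rfl⟩)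
        ((hS β _).2 ⟨t.bt_right _ _, Or.inr (Or.inl rfl)⟩)
        (fun s hs => ((hS β s).1 hs).1)
        (fun q => f (β.1 * g) (g⁻¹ • q) * (f g (g⁻¹ • q))⁻¹) (by
          intro s hs s' hs' hcons q hq
          have hm : (β.1, s, s') ∈ B' := (mem _).2 ⟨β, hβ, rfl, hs, hs', hcons⟩
          refine hc _ hm g (g⁻¹ • q) (g⁻¹ • s) ?_ ?_
          · simpa using hq
          · simpa using t.bt_left s s')
      intro p p' hp hp'
      have e1 := key _ hp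
      have e2 := key _ hp'
      simp only [inv_smul_smul] at e1 e2
      rw [e1, e2]
    obtain ⟨Φ, h1, h2⟩ := h.hg Γ f hf hcB
    refine ⟨Φ, ?_, h2⟩
    intro γ hγ g p hp
    obtain ⟨β, hβ, e, a, b, -⟩ := (mem γ).1 hγ
    rw [e]
    exact h1 β hβ g p (sub β _ a _ b _ hp)
  · intro γ hγ p hp hbr
    obtain ⟨β, hβ, e, a, b, c⟩ := (mem γ).1 hγ
    refine c p ((hS β p).2 ⟨sub β _ a _ b _ hp, ?_⟩) hp
    rw [e] at hbr
    exact Or.inr (Or.inr hbr)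

end Pool.Agent.Work.MP_904812_al
end

-- merged part: Pool.Agent.Work.MP_904812_al.QCore
section
/-! The finite core and the presentation. -/

namespace Pool.Agent.Work.MP_904812_al

set_option linter.unusedSectionVars false
set_option linter.unusedVariables false

open Subgroup MulAction

section paths

variable {ι V : Type*} {R : ι → V → V → Prop}

/-- one step in either direction -/
def QCore_One (R : ι → V → V → Prop) (y : V) (t : FreeGroup ι) (z : V) : Prop :=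
  ∃ i, (R i y z ∧ t = FreeGroup.of i) ∨ (R i z y ∧ t = (FreeGroup.of i)⁻¹)

/-- the steps between points of `A` -/
def QCore_Res (R : ι → V → V → Prop) (A : V → Prop) (i : ι) (p q : V) : Prop :=
  R i p q ∧ A p ∧ A q

theorem QCore_ind {x : V} {mot : FreeGroup ι → V → Prop} (nil : mot 1 x)
    (step : ∀ ω y t z, WPath R x ω y → mot ω y → QCore_One R y t z → mot (t * ω) z)
    {ω : FreeGroup ι} {y : V} (p : WPath R x ω y) : mot ω y := by
  induction p with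
  | nil => exact nil
  | fwd p r ih => exact step _ _ _ _ p ih ⟨_, Or.inl ⟨r, rfl⟩⟩
  | bwd p r ih => exact step _ _ _ _ p ih ⟨_, Or.inr ⟨r, rfl⟩⟩

theorem QCore_snoc {x y z : V} {ω t : FreeGroup ι} (p : WPath R x ω y) (o : QCore_One R y t z) :
    WPath R x (t * ω) z := by
  obtain ⟨i, ⟨r, rfl⟩ | ⟨r, rfl⟩⟩ := o
  · exact p.fwd r
  · exact p.bwd r

theorem QCore_res {A : V → Prop} {y z : V} {t : FreeGroup ι} (o : QCore_One R y t z) (hy : A y)
    (hz : A z) : QCore_One (QCore_Res R A) y t z := by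
  obtain ⟨i, ⟨r, rfl⟩ | ⟨r, rfl⟩⟩ := o
  · exact ⟨i, Or.inl ⟨⟨r, hy, hz⟩, rfl⟩⟩
  · exact ⟨i, Or.inr ⟨⟨r, hz, hy⟩, rfl⟩⟩

theorem QCore_unres {A : V → Prop} {y z : V} {t : FreeGroup ι}
    (o : QCore_One (QCore_Res R A) y t z) : QCore_One R y t z ∧ A y ∧ A z := by
  obtain ⟨i, ⟨r, rfl⟩ | ⟨r, rfl⟩⟩ := o
  · exact ⟨⟨i, Or.inl ⟨r.1, rfl⟩⟩, r.2.1, r.2.2⟩
  · exact ⟨⟨i, Or.inr ⟨r.1, rfl⟩⟩, r.2.2, r.2.1⟩

theorem QCore_res_mono {A A' : V → Prop} (h : ∀ v, A v → A' v) {x y : V} {ω : FreeGroup ι}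
    (p : WPath (QCore_Res R A) x ω y) : WPath (QCore_Res R A') x ω y :=
  p.mono fun _ _ _ r => ⟨r.1, h _ r.2.1, h _ r.2.2⟩

/-- a path visits finitely many points -/
theorem QCore_fin {K : Set V} (hK : ∀ y t z, QCore_One R y t z → y ∈ K ∧ z ∈ K) {x y : V}
    {ω : FreeGroup ι} (p : WPath R x ω y) :
    ∃ P : Finset V, (∀ v ∈ P, v ∈ K) ∧ WPath (QCore_Res R (· ∈ P)) x ω y := by
  classical
  refine QCore_ind (mot := fun ω y => ∃ P : Finset V, (∀ v ∈ P, v ∈ K) ∧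
    WPath (QCore_Res R (· ∈ P)) x ω y) ⟨∅, by simp, WPath.nil⟩ ?_ p
  rintro ω y t z - ⟨P, hP, q⟩ o
  refine ⟨insert y (insert z P), ?_, QCore_snoc (QCore_res_mono ?_ q) (QCore_res o ?_ ?_)⟩
  · intro v hv
    simp only [Finset.mem_insert] at hv
    rcases hv with rfl | rfl | hv
    · exact (hK _ _ _ o).1
    · exact (hK _ _ _ o).2
    · exact hP v hv
  · intro v hv; simp [hv]
  · simp
  · simp

/-- a path avoids `A` or can be cut at a point of `A` -/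
theorem QCore_cut (A : V → Prop) {x y : V} {ω : FreeGroup ι} (p : WPath R x ω y) :
    WPath (QCore_Res R fun v => ¬ A v) x ω y ∨
      ∃ s ω₁ ω₂, A s ∧ WPath R x ω₁ s ∧ WPath R s ω₂ y ∧ ω = ω₂ * ω₁ := by
  refine QCore_ind (mot := fun ω y => WPath (QCore_Res R fun v => ¬ A v) x ω y ∨
    ∃ s ω₁ ω₂, A s ∧ WPath R x ω₁ s ∧ WPath R s ω₂ y ∧ ω = ω₂ * ω₁) (Or.inl WPath.nil) ?_ p
  rintro ω y t z p (q | ⟨s, ω₁, ω₂, hs, q₁, q₂, rfl⟩) o
  · by_cases hy : A y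
    · exact Or.inr ⟨y, ω, t * 1, hy, p, QCore_snoc WPath.nil o, by rw [mul_one]⟩
    by_cases hz : A z
    · exact Or.inr ⟨z, t * ω, 1, hz, QCore_snoc p o, WPath.nil, by rw [one_mul]⟩
    exact Or.inl (QCore_snoc q (QCore_res o hy hz))
  · exact Or.inr ⟨s, ω₁, t * ω₂, hs, q₁, QCore_snoc q₂ o, by rw [mul_assoc]⟩

/-- a finite set which carries all the paths between points of `S₀` -/
theorem QCore_core {K : Set V} (hK : ∀ y t z, QCore_One R y t z → y ∈ K ∧ z ∈ K) (S₀ : Finset V)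
    (h0 : ∀ s ∈ S₀, s ∈ K) (fin : {x | x ∉ S₀ ∧ ∃ s ∈ S₀, ∃ t, QCore_One R s t x}.Finite)
    (triv : ∀ x ω, WPath (QCore_Res R fun v => v ∉ S₀) x ω x → ω = 1) :
    ∃ S : Finset V, S₀ ⊆ S ∧ (∀ s ∈ S, s ∈ K) ∧
      ∀ s ∈ S₀, ∀ s' ∈ S₀, ∀ ω, WPath R s ω s' → WPath (QCore_Res R (· ∈ S)) s ω s' := by
  classical
  have ex : ∀ x : V × V, ∃ P : Finset V, (∀ v ∈ P, v ∈ K) ∧ ∀ ω,
      WPath (QCore_Res R fun v => v ∉ S₀) x.1 ω x.2 → WPath (QCore_Res R (· ∈ P)) x.1 ω x.2 := by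
    intro x
    by_cases hx : ∃ ω, WPath (QCore_Res R fun v => v ∉ S₀) x.1 ω x.2
    · obtain ⟨ω₀, p₀⟩ := hx
      obtain ⟨P, hP, q⟩ := QCore_fin hK (p₀.mono fun _ _ _ r => r.1)
      refine ⟨P, hP, fun ω p => ?_⟩
      have e := triv _ _ (p.trans p₀.symm)
      rw [inv_mul_eq_one] at e
      exact e ▸ q
    · exact ⟨∅, by simp, fun ω p => absurd ⟨ω, p⟩ hx⟩
  choose P hP hP' using ex
  set N := fin.toFinset with hN
  have memN : ∀ x s t, x ∉ S₀ → s ∈ S₀ → QCore_One R s t x → x ∈ N := fun x s t hx hs o =>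
    fin.mem_toFinset.2 ⟨hx, s, hs, t, o⟩
  have symm : ∀ y t z, QCore_One R y t z → QCore_One R z t⁻¹ y := by
    rintro y t z ⟨i, ⟨r, rfl⟩ | ⟨r, rfl⟩⟩
    · exact ⟨i, Or.inr ⟨r, rfl⟩⟩
    · exact ⟨i, Or.inl ⟨r, inv_inv _⟩⟩
  set S := S₀ ∪ N ∪ (N ×ˢ N).biUnion P with hS
  have s0 : ∀ v ∈ S₀, v ∈ S := fun v hv => by simp [hS, hv]
  have s1 : ∀ v ∈ N, v ∈ S := fun v hv => Finset.mem_union_left _ (Finset.mem_union_right _ hv)
  have s2 : ∀ x ∈ N, ∀ x' ∈ N, ∀ ω, WPath (QCore_Res R fun v => v ∉ S₀) x ω x' →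
      WPath (QCore_Res R (· ∈ S)) x ω x' := fun x hx x' hx' ω p =>
    QCore_res_mono (fun v hv => Finset.mem_union_right _ (Finset.mem_biUnion.2
      ⟨(x, x'), Finset.mem_product.2 ⟨hx, hx'⟩, hv⟩)) (hP' (x, x') ω p)
  refine ⟨S, s0, fun s hs => ?_, fun s hs s' hs' ω p => ?_⟩
  · rcases Finset.mem_union.1 hs with hs | hs
    · rcases Finset.mem_union.1 hs with hs | hs
      · exact h0 s hs
      · obtain ⟨-, s', -, t, o⟩ := fin.mem_toFinset.1 hs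
        exact (hK _ _ _ o).2
    · obtain ⟨x, -, hx⟩ := Finset.mem_biUnion.1 hs
      exact hP x s hx
  · have key := QCore_ind (mot := fun ω y => (y ∈ S₀ ∧ WPath (QCore_Res R (· ∈ S)) s ω y) ∨
        (y ∉ S₀ ∧ ∃ x ∈ N, ∃ ω₁ ω₂, WPath (QCore_Res R (· ∈ S)) s ω₁ x ∧
          WPath (QCore_Res R fun v => v ∉ S₀) x ω₂ y ∧ ω = ω₂ * ω₁))
      (Or.inl ⟨hs, WPath.nil⟩) ?_ p
    · rcases key with h | h
      · exact h.2
      · exact absurd hs' h.1
    rintro ω y t z - (⟨hy, q⟩ | ⟨hy, x, hx, ω₁, ω₂, q₁, q₂, rfl⟩) o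
    · by_cases hz : z ∈ S₀
      · exact Or.inl ⟨hz, QCore_snoc q (QCore_res o (s0 _ hy) (s0 _ hz))⟩
      · have hz' := memN _ _ _ hz hy o
        exact Or.inr ⟨hz, z, hz', t * ω, 1, QCore_snoc q (QCore_res o (s0 _ hy) (s1 _ hz')),
          WPath.nil, by rw [one_mul]⟩
    · by_cases hz : z ∈ S₀
      · have hy' := memN _ _ _ hy hz (symm _ _ _ o)
        exact Or.inl ⟨hz, QCore_snoc (q₁.trans (s2 x hx y hy' _ q₂))
          (QCore_res o (s1 _ hy') (s0 _ hz))⟩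
      · exact Or.inr ⟨hz, x, hx, ω₁, t * ω₂, q₁, QCore_snoc q₂ (QCore_res o hy hz),
          by rw [mul_assoc]⟩

end paths

variable {G Y : Type} [Group G] [MulAction G Y] {d : Y → Y → ℝ} {F : Finset Y}
  {B : Finset (G × Y × Y)} {x₀ : Y} {g₀ : G}

/-- a closed path along a nondegenerate segment has trivial word -/
theorem Ind.word (ind : Ind G d B) {a b : Y} (ab : a ≠ b) {g : G} {ω : FreeGroup (Lt F B)}
    (p : WPath (fun (i : Lt F B) (h h' : G) => i.1 ∈ B ∧ Along d a b h i.1 ∧ h' = i.1.1 * h)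
      g ω g) : ω = 1 := by
  obtain ⟨ψ, -, hψ⟩ := forest_solve
    (E := {e : G × Lt F B // e.2.1 ∈ B ∧ Along d a b e.1 e.2.1}) (fun e => e.1.1)
    (fun e => e.1.2.1.1 * e.1.1) (fun e => FreeGroup.of e.1.2) (fun T ⟨e₀, he₀⟩ =>
      ⟨e₀, he₀, fun h => ¬ Relation.EqvGen (fun h h' : G => ∃ β' ∈ B, Along d a b h β' ∧
          h' = β'.1 * h ∧ (h, β') ≠ (e₀.1.1, e₀.1.2.1)) e₀.1.1 h,
        ind a b ab _ _ e₀.2.1 e₀.2.2, fun h => h (Relation.EqvGen.refl _), fun e _ hne => by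
          have r : Relation.EqvGen (fun h h' : G => ∃ β' ∈ B, Along d a b h β' ∧
              h' = β'.1 * h ∧ (h, β') ≠ (e₀.1.1, e₀.1.2.1)) e.1.1 (e.1.2.1.1 * e.1.1) :=
            Relation.EqvGen.rel _ _ ⟨_, e.2.1, e.2.2, rfl, fun h => hne (Subtype.ext (Prod.ext
              (Prod.mk.inj h).1 (Subtype.ext (Prod.mk.inj h).2)))⟩
          exact not_congr ⟨fun h => h.trans _ _ _ r, fun h => h.trans _ _ _ (r.symm _ _)⟩⟩) g
  have key : ∀ {ω : FreeGroup (Lt F B)} {g' : G},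
      WPath (fun (i : Lt F B) (h h' : G) => i.1 ∈ B ∧ Along d a b h i.1 ∧ h' = i.1.1 * h)
        g ω g' → ψ g' = ω * ψ g := by
    intro ω g' p
    induction p with
    | nil => rw [one_mul]
    | @fwd ω y z i _ r ih =>
      obtain ⟨r1, r2, rfl⟩ := r
      rw [mul_assoc, ← ih]
      exact hψ ⟨(y, i), r1, r2⟩
    | @bwd ω y z i _ r ih =>
      obtain ⟨r1, r2, rfl⟩ := r
      rw [mul_assoc, ← ih, eq_inv_mul_iff_mul_eq]
      exact (hψ ⟨(z, i), r1, r2⟩).symm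
  simpa using (key p).symm

/-- the steps given by the letters -/
def QCore_R (d : Y → Y → ℝ) (F : Finset Y) (B : Finset (G × Y × Y)) (i : Lt F B) (x x' : Y) :
    Prop := Bt d i.1.2.1 x i.1.2.2 ∧ x' = i.1.1 • x

theorem QCore_bt_self (T : Tr d) {u x : Y} (a : Bt d u x u) : x = u := by
  apply T.eq_of
  have := T.self u
  have := T.symm u x
  simp only [Bt] at a
  linarith

theorem QCore_site (T : Tr d) {i : Lt F B} {x x' : Y} (r : QCore_R d F B i x x') :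
    i.1 ∈ B ∨ (x ∈ F ∧ x' ∈ F) := by
  rcases i.2 with h | ⟨h1, h2, h3⟩
  · exact Or.inl h
  · obtain ⟨r1, rfl⟩ := r
    rw [h2] at r1
    rw [QCore_bt_self T r1]
    exact Or.inr ⟨h1, h3⟩

theorem QCore_hull (A : IAct G d) (ink : InK d F B) {i : Lt F B} {x x' : Y}
    (r : QCore_R d F B i x x') : x ∈ Hull d F ∧ x' ∈ Hull d F := by
  rcases QCore_site A.tr r with h | h
  · obtain ⟨k1, k2, k3, k4⟩ := ink _ h
    obtain ⟨r1, rfl⟩ := r
    exact ⟨A.tr.hull_conv k1 k2 r1, A.tr.hull_conv k3 k4 (A.bt _ r1)⟩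
  · exact ⟨A.tr.mem_hull h.1, A.tr.mem_hull h.2⟩

/-- only two directions at a point which is not a branch point -/
theorem QCore_two (T : Tr d) {u v y z : Y} (hu : u ∈ Hull d F) (hv : v ∈ Hull d F)
    (hz : z ∈ Hull d F) (a : Bt d u y v) (nu : y ≠ u) (nv : y ≠ v) (nz : y ≠ z)
    (nb : ¬ Br d F y) : Sd d y z u ∨ Sd d y z v := by
  by_contra hn
  rw [not_or, T.not_sd_iff, T.not_sd_iff] at hn
  exact nb ⟨z, hz, u, hu, v, hv, nz, nu, nv, hn.1, hn.2, a⟩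

theorem QCore_shrink (T : Tr d) {u v y z : Y} (hu : u ∈ Hull d F) (hv : v ∈ Hull d F)
    (hz : z ∈ Hull d F) (a : Bt d u y v) (nu : y ≠ u) (nv : y ≠ v) (nz : y ≠ z)
    (nb : ¬ Br d F y) : ∃ m, y ≠ m ∧ Bt d y m z ∧ Bt d u m v := by
  rcases QCore_two T hu hv hz a nu nv nz nb with s | s
  · obtain ⟨m, m1, m2, m3⟩ := T.sd_med s
    exact ⟨m, m1, m2, T.bt_conv a (T.bt_left u v) m3⟩
  · obtain ⟨m, m1, m2, m3⟩ := T.sd_med s
    exact ⟨m, m1, m2, T.bt_conv a (T.bt_right u v) m3⟩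

/-- the steps of bands which contain the image of the segment `[a, b]` -/
def QCore_Al (d : Y → Y → ℝ) (F : Finset Y) (B : Finset (G × Y × Y)) (a b : Y) (i : Lt F B)
    (h h' : G) : Prop := i.1 ∈ B ∧ Along d a b h i.1 ∧ h' = i.1.1 * h

/-- a small segment around `x` is carried along the word `ω` -/
def QCore_Inv (d : Y → Y → ℝ) (F : Finset Y) (B : Finset (G × Y × Y)) (x : Y)
    (ω : FreeGroup (Lt F B)) (h : G) (a b : Y) : Prop :=
  x ≠ a ∧ x ≠ b ∧ Bt d a x b ∧ a ∈ Hull d F ∧ b ∈ Hull d F ∧ WPath (QCore_Al d F B a b) 1 ω h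

theorem QCore_shrink2 (A : IAct G d) {x : Y} {ω : FreeGroup (Lt F B)} {h : G} {a b u v : Y}
    (I : QCore_Inv d F B x ω h a b) (ha : h • a ∈ Hull d F) (hb : h • b ∈ Hull d F)
    (hu : u ∈ Hull d F) (hv : v ∈ Hull d F) (c : Bt d u (h • x) v) (nu : h • x ≠ u)
    (nv : h • x ≠ v) (nb : ¬ Br d F (h • x)) :
    ∃ a' b', QCore_Inv d F B x ω h a' b' ∧ Bt d u (h • a') v ∧ Bt d u (h • b') v := by
  have T := A.tr
  obtain ⟨i1, i2, i3, i4, i5, i6⟩ := I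
  have hx := T.hull_conv i4 i5 i3
  obtain ⟨m, m1, m2, m3⟩ := QCore_shrink T hu hv ha c nu nv
    (fun e => i1 (MulAction.injective h e)) nb
  obtain ⟨n, n1, n2, n3⟩ := QCore_shrink T hu hv hb c nu nv
    (fun e => i2 (MulAction.injective h e)) nb
  obtain ⟨m, rfl⟩ := MulAction.surjective h m
  obtain ⟨n, rfl⟩ := MulAction.surjective h n
  rw [A.bt_iff] at m2 n2
  have c1 := T.bt_trans (T.bt_symm m2) i3
  have c2 := T.bt_trans (T.bt_symm n2) (T.bt_symm c1.2)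
  have c3 := T.bt_trans (T.bt_symm n2) (T.bt_symm i3)
  refine ⟨m, n, ⟨fun e => m1 (e ▸ rfl), fun e => n1 (e ▸ rfl), T.bt_symm c2.2,
    T.hull_conv hx i4 m2, T.hull_conv hx i5 n2, i6.mono ?_⟩, m3, n3⟩
  rintro i g g' ⟨r1, r2, r3⟩
  exact ⟨r1, ⟨T.bt_conv r2.1 r2.2 (A.bt g c1.1), T.bt_conv r2.1 r2.2 (A.bt g (T.bt_symm c3.1))⟩, r3⟩

theorem QCore_fix_dir (h : Fat G d Eq) {g : G} {x a : Y} (e : g • x = x) (s : Sd d x (g • a) a) :
    g = 1 := by
  have T := h.act.tr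
  obtain ⟨m, m1, m2, m3⟩ := T.sd_med s
  have m4 := h.act.bt g m3
  rw [e] at m4
  have m5 : d x (g • m) = d x m := by rw [← h.act.iso g x m, e]
  exact h.arc e (T.bt_uniq m4 m2 m5) m1

/-- paths which avoid the special points have trivial loops -/
theorem QCore_triv (h : Geo G d Eq F B x₀ g₀) (ind : Ind G d B) {S₀ : Finset Y} (h1 : F ⊆ S₀)
    (h2 : ∀ c, Br d F c → c ∈ S₀)
    (h3 : ∀ β ∈ B, β.2.1 ∈ S₀ ∧ β.2.2 ∈ S₀ ∧ β.1 • β.2.1 ∈ S₀ ∧ β.1 • β.2.2 ∈ S₀) (x : Y)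
    (ω : FreeGroup (Lt F B)) (p : WPath (QCore_Res (QCore_R d F B) fun v => v ∉ S₀) x ω x) :
    ω = 1 := by
  have A := h.fat.act
  have T := A.tr
  by_cases hx : x ∈ Hull d F ∧ x ∉ S₀
  swap
  · refine (QCore_ind (mot := fun ω y => ω = 1 ∧ y = x) ⟨rfl, rfl⟩ ?_ p).1
    rintro ω y t z - ⟨-, rfl⟩ o
    obtain ⟨⟨i, ⟨r, -⟩ | ⟨r, -⟩⟩, o2, -⟩ := QCore_unres o
    · exact absurd ⟨(QCore_hull A h.ink r).1, o2⟩ hx
    · exact absurd ⟨(QCore_hull A h.ink r).2, o2⟩ hx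
  obtain ⟨⟨f, hf, f', hf', hb⟩, hx⟩ := hx
  have key := QCore_ind (mot := fun ω y => ∃ (g : G) (a b : Y), y = g • x ∧
    QCore_Inv d F B x ω g a b ∧ g • a ∈ Hull d F ∧ g • b ∈ Hull d F)
    ⟨1, f, f', (one_smul _ _).symm, ⟨fun e => hx (e ▸ h1 hf), fun e => hx (e ▸ h1 hf'), hb,
      T.mem_hull hf, T.mem_hull hf', WPath.nil⟩, by rw [one_smul]; exact T.mem_hull hf,
      by rw [one_smul]; exact T.mem_hull hf'⟩ ?_ p
  · obtain ⟨g, a, b, e, ⟨i1, i2, i3, i4, i5, i6⟩, ha, hb⟩ := key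
    have nb : ¬ Br d F x := fun c => hx (h2 _ c)
    have na' : x ≠ g • a := fun c => i1 (MulAction.injective g (e.symm.trans c))
    have nb' : x ≠ g • b := fun c => i2 (MulAction.injective g (e.symm.trans c))
    have g1 : g = 1 := by
      rcases QCore_two T i4 i5 ha i3 i1 i2 na' nb with s | s
      · exact QCore_fix_dir h.fat e.symm s
      rcases QCore_two T i4 i5 hb i3 i1 i2 nb' nb with s' | s'
      swap
      · exact QCore_fix_dir h.fat e.symm s'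
      have s2 : Sd d x ((g * g) • a) (g • b) := by
        have : Sd d (g • x) (g • g • a) (g • b) := by simpa only [Sd, A.iso] using s
        rwa [← e, ← mul_smul] at this
      refine h.fat.tf g 2 two_pos ?_
      rw [pow_two]
      exact QCore_fix_dir h.fat (by rw [mul_smul, ← e, ← e]) (T.sd_trans s2 s')
    subst g1
    refine ind.word (a := a) (b := b) (fun c => i1 ?_) i6
    subst c
    exact QCore_bt_self T i3
  rintro ω y t z - ⟨g, a, b, rfl, I, ha, hb⟩ o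
  obtain ⟨⟨i, ⟨r, rfl⟩ | ⟨r, rfl⟩⟩, o2, o3⟩ := QCore_unres o
  · have hi : i.1 ∈ B := (QCore_site T r).resolve_right fun c => o2 (h1 c.1)
    obtain ⟨k1, k2, k3, k4⟩ := h.ink _ hi
    obtain ⟨l1, l2, -, -⟩ := h3 _ hi
    obtain ⟨r1, rfl⟩ := r
    obtain ⟨a', b', ⟨i1, i2, i3, i4, i5, i6⟩, c1, c2⟩ := QCore_shrink2 A I ha hb k1 k2 r1
      (fun c => o2 (c ▸ l1)) (fun c => o2 (c ▸ l2)) (fun c => o2 (h2 _ c))
    refine ⟨i.1.1 * g, a', b', (mul_smul _ _ _).symm,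
      ⟨i1, i2, i3, i4, i5, i6.fwd ⟨hi, ⟨c1, c2⟩, rfl⟩⟩, ?_, ?_⟩
    · rw [mul_smul]; exact T.hull_conv k3 k4 (A.bt _ c1)
    · rw [mul_smul]; exact T.hull_conv k3 k4 (A.bt _ c2)
  · have hi : i.1 ∈ B := (QCore_site T r).resolve_right fun c => o2 (h1 c.2)
    obtain ⟨k1, k2, k3, k4⟩ := h.ink _ hi
    obtain ⟨-, -, l1, l2⟩ := h3 _ hi
    obtain ⟨r1, r2⟩ := r
    obtain ⟨a', b', ⟨i1, i2, i3, i4, i5, i6⟩, c1, c2⟩ := QCore_shrink2 A I ha hb k3 k4
      (r2 ▸ A.bt _ r1) (fun c => o2 (c ▸ l1)) (fun c => o2 (c ▸ l2)) (fun c => o2 (h2 _ c))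
    have c3 : ∀ {w : Y}, Bt d (i.1.1 • i.1.2.1) (g • w) (i.1.1 • i.1.2.2) →
        Bt d i.1.2.1 ((i.1.1⁻¹ * g) • w) i.1.2.2 := fun c => by
      simpa only [mul_smul, inv_smul_smul] using A.bt i.1.1⁻¹ c
    exact ⟨i.1.1⁻¹ * g, a', b', by rw [mul_smul, r2, inv_smul_smul],
      ⟨i1, i2, i3, i4, i5, i6.bwd ⟨hi, ⟨c3 c1, c3 c2⟩, (mul_inv_cancel_left _ _).symm⟩⟩,
      T.hull_conv k1 k2 (c3 c1), T.hull_conv k1 k2 (c3 c2)⟩

/-- simple connectivity gives the presentation -/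
theorem QCore_pres (h : Geo G d Eq F B x₀ g₀) (N : Subgroup (FreeGroup (Lt F B))) [N.Normal]
    (hN : ∀ p ω, WPath (QCore_R d F B) p ω p →
      FreeGroup.lift (fun i : Lt F B => i.1.1) ω = 1 → ω ∈ N)
    (ω : FreeGroup (Lt F B)) (e : FreeGroup.lift (fun i : Lt F B => i.1.1) ω = 1) : ω ∈ N := by
  have T := h.fat.act.tr
  have ex : ∀ p : Y, ∃ ψ : G → FreeGroup (Lt F B) ⧸ N, ∀ (g : G) (i : Lt F B),
      Bt d i.1.2.1 (g • p) i.1.2.2 →
        ψ (i.1.1 * g) = QuotientGroup.mk' N (FreeGroup.of i) * ψ g := by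
    intro p
    refine (pot_of_hol (E := {e : G × Lt F B // Bt d e.2.1.2.1 (e.1 • p) e.2.1.2.2})
      (src := fun e => e.1.1) (tgt := fun e => e.1.2.1.1 * e.1.1)
      (l := fun e => QuotientGroup.mk' N (FreeGroup.of e.1.2)) (fun a t w => ?_) 1).imp
      fun ψ hψ g i c => hψ.2 ⟨(g, i), c⟩
    have key : ∀ {t : FreeGroup (Lt F B) ⧸ N} {b : G}, GWalk
        (E := {e : G × Lt F B // Bt d e.2.1.2.1 (e.1 • p) e.2.1.2.2}) (fun e => e.1.1)
        (fun e => e.1.2.1.1 * e.1.1) (fun e => QuotientGroup.mk' N (FreeGroup.of e.1.2)) a t b →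
        ∃ ω, WPath (QCore_R d F B) (a • p) ω (b • p) ∧ t = QuotientGroup.mk' N ω ∧
          b = FreeGroup.lift (fun i : Lt F B => i.1.1) ω * a := by
      intro t b w
      induction w with
      | nil => exact ⟨1, WPath.nil, (map_one _).symm, by simp⟩
      | fwd e _ ih =>
        obtain ⟨ω, q, rfl, e'⟩ := ih
        refine ⟨_, q.fwd (i := e.1.2) ⟨e.2, mul_smul _ _ _⟩, (map_mul _ _ _).symm, ?_⟩
        rw [map_mul, FreeGroup.lift_apply_of, mul_assoc, ← e']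
      | bwd e _ ih =>
        obtain ⟨ω, q, rfl, e'⟩ := ih
        refine ⟨_, q.bwd (i := e.1.2) ⟨e.2, mul_smul _ _ _⟩, by rw [map_mul, map_inv], ?_⟩
        rw [map_mul, map_inv, FreeGroup.lift_apply_of, mul_assoc, ← e', inv_mul_cancel_left]
    obtain ⟨ω, q, rfl, e'⟩ := key w
    exact (QuotientGroup.eq_one_iff ω).2 (hN _ _ q (by simpa using e'.symm))
  choose ψ hψ using ex
  have hψ' : ∀ (p : Y) (g : G) (i : Lt F B), Bt d i.1.2.1 (g • p) i.1.2.2 →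
      ψ p (i.1.1 * g) * (ψ p g)⁻¹ = QuotientGroup.mk' N (FreeGroup.of i) := fun p g i c => by
    rw [hψ p g i c, mul_inv_cancel_right]
  obtain ⟨Φ, Φ1, Φ2⟩ := h.hg _ (fun g p => ψ p g) (fun g p p' _ _ e => by rw [e])
    (fun β hβ g p p' c c' =>
      (hψ' p g ⟨β, Or.inl hβ⟩ c).trans (hψ' p' g ⟨β, Or.inl hβ⟩ c').symm)
  have one : ∀ (i : Lt F B) (g : G),
      Φ (i.1.1 * g) = QuotientGroup.mk' N (FreeGroup.of i) * Φ g := by
    intro i g
    have c : Bt d i.1.2.1 (g • g⁻¹ • i.1.2.1) i.1.2.2 := by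
      rw [smul_inv_smul]; exact T.bt_left _ _
    rw [← hψ' _ g i c, ← mul_inv_eq_iff_eq_mul]
    rcases i.2 with hi | ⟨h1, -, h3⟩
    · exact (Φ1 _ hi g _ c).symm
    · exact (Φ2 g (i.1.1 * g) _ _ (by rwa [smul_inv_smul])
        (by rwa [mul_smul, smul_inv_smul]) rfl).symm
  have all : ∀ (ω : FreeGroup (Lt F B)) (g : G),
      Φ (FreeGroup.lift (fun i : Lt F B => i.1.1) ω * g) = QuotientGroup.mk' N ω * Φ g := by
    intro ω
    induction ω using FreeGroup.induction_on with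
    | C1 => intro g; simp
    | of i => intro g; rw [FreeGroup.lift_apply_of]; exact one i g
    | inv_of i _ =>
      intro g
      rw [map_inv, map_inv, FreeGroup.lift_apply_of, eq_inv_mul_iff_mul_eq, ← one,
        mul_inv_cancel_left]
    | mul x y hx hy => intro g; rw [map_mul, map_mul, mul_assoc, hx, hy, mul_assoc]
  have := all ω 1
  rw [e, mul_one] at this
  exact (QuotientGroup.eq_one_iff ω).1 (by simpa using this.symm)

theorem ex_core (h : Geo G d Eq F B x₀ g₀) (ind : Ind G d B) :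
    ∃ S : Finset Y, F ⊆ S ∧ (∀ c, Br d F c → c ∈ S) ∧ (∀ s ∈ S, s ∈ Hull d F) ∧
      (∀ β ∈ B, β.2.1 ∈ S ∧ β.2.2 ∈ S ∧ β.1 • β.2.1 ∈ S ∧ β.1 • β.2.2 ∈ S) ∧
      ∀ ω : FreeGroup (Lt F B), FreeGroup.lift (fun i : Lt F B => i.1.1) ω = 1 →
        ω ∈ normalClosure {c : FreeGroup (Lt F B) |
          FreeGroup.lift (fun i : Lt F B => i.1.1) c = 1 ∧ ∃ p, WPath (SStep d F B S) p c p} := by
  classical
  have A := h.fat.act
  have T := A.tr
  obtain ⟨S₀, h0, h1, h2, h3⟩ : ∃ S₀ : Finset Y, (∀ s ∈ S₀, s ∈ Hull d F) ∧ F ⊆ S₀ ∧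
      (∀ c, Br d F c → c ∈ S₀) ∧
      ∀ β ∈ B, β.2.1 ∈ S₀ ∧ β.2.2 ∈ S₀ ∧ β.1 • β.2.1 ∈ S₀ ∧ β.1 • β.2.2 ∈ S₀ := by
    refine ⟨F ∪ (T.br_finite F).toFinset ∪
      B.biUnion fun β => {β.2.1, β.2.2, β.1 • β.2.1, β.1 • β.2.2}, fun s hs => ?_,
      fun s hs => by simp [hs], fun c hc => by simp [hc], fun β hβ => ?_⟩
    · simp only [Finset.mem_union, Set.Finite.mem_toFinset, Set.mem_ofPred_eq, Finset.mem_biUnion,
        Finset.mem_insert, Finset.mem_singleton] at hs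
      rcases hs with (hs | hs) | ⟨β, hβ, hs⟩
      · exact T.mem_hull hs
      · exact T.br_hull hs
      · obtain ⟨k1, k2, k3, k4⟩ := h.ink _ hβ
        rcases hs with rfl | rfl | rfl | rfl <;> assumption
    · refine ⟨?_, ?_, ?_, ?_⟩ <;>
        exact Finset.mem_union_right _ (Finset.mem_biUnion.2 ⟨β, hβ, by simp⟩)
  have triv := QCore_triv h ind h1 h2 h3
  obtain ⟨S, s1, s2, s3⟩ := QCore_core (R := QCore_R d F B) (K := Hull d F) (by
      rintro y t z ⟨i, ⟨r, -⟩ | ⟨r, -⟩⟩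
      · exact QCore_hull A h.ink r
      · exact (QCore_hull A h.ink r).symm) S₀ h0 (by
      refine Set.Finite.subset (Finset.finite_toSet (((B ×ˢ S₀).image fun x => x.1.1 • x.2) ∪
        (B ×ˢ S₀).image fun x => x.1.1⁻¹ • x.2)) ?_
      rintro x ⟨hx, s, hs, t, i, ⟨r, -⟩ | ⟨r, -⟩⟩
      · have hi : i.1 ∈ B := (QCore_site T r).resolve_right fun c => hx (h1 c.2)
        exact Finset.mem_coe.2 (Finset.mem_union_left _ (Finset.mem_image.2
          ⟨(i.1, s), Finset.mem_product.2 ⟨hi, hs⟩, r.2.symm⟩))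
      · have hi : i.1 ∈ B := (QCore_site T r).resolve_right fun c => hx (h1 c.1)
        exact Finset.mem_coe.2 (Finset.mem_union_right _ (Finset.mem_image.2
          ⟨(i.1, s), Finset.mem_product.2 ⟨hi, hs⟩, by rw [r.2]; exact inv_smul_smul _ _⟩))) triv
  refine ⟨S, h1.trans s1, fun c hc => s1 (h2 c hc), s2, fun β hβ => ?_, ?_⟩
  · obtain ⟨k1, k2, k3, k4⟩ := h3 β hβ
    exact ⟨s1 k1, s1 k2, s1 k3, s1 k4⟩
  refine QCore_pres h _ fun p ω q e => ?_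
  rcases QCore_cut (· ∈ S₀) q with q | ⟨s, ω₁, ω₂, hs, q₁, q₂, rfl⟩
  · rw [triv _ _ q]; exact one_mem _
  · have c : ω₁ * ω₂ ∈ normalClosure {c : FreeGroup (Lt F B) |
        FreeGroup.lift (fun i : Lt F B => i.1.1) c = 1 ∧ ∃ p, WPath (SStep d F B S) p c p} := by
      refine subset_normalClosure ⟨?_, s, (s3 s hs s hs _ (q₂.trans q₁)).mono ?_⟩
      · rw [map_mul] at e ⊢
        exact mul_eq_one_comm.1 e
      · exact fun i a b r => ⟨r.2.1, r.2.2, r.1.1, r.1.2⟩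
    exact Subgroup.Normal.mem_comm inferInstance c

end Pool.Agent.Work.MP_904812_al
end

-- merged part: Pool.Agent.Work.MP_904812_al.QPsi
section
/-! The rational approximation. -/

namespace Pool.Agent.Work.MP_904812_al

set_option linter.unusedSectionVars false
set_option linter.unusedVariables false

open Subgroup MulAction

variable {G Y : Type} [Group G] [MulAction G Y] {d : Y → Y → ℝ} {F : Finset Y}
  {B : Finset (G × Y × Y)} {x₀ : Y} {g₀ : G}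

theorem QPsi_pos (T : Finset ℝ) : ∃ ψ : ℝ →ₗ[ℚ] ℚ, ∀ t ∈ T, 0 < t → 0 < ψ t := by
  classical
  let b := Module.Basis.ofVectorSpace ℚ ℝ
  let J := T.biUnion fun t => (b.repr t).support
  have hsum : ∀ t ∈ T, ∀ {M : Type} [AddCommGroup M] [Module ℚ M] (f : _ → M),
      (b.repr t).sum (fun i c => c • f i) = ∑ i : J, b.repr t i • f i := by
    intro t ht M _ _ f
    rw [Finsupp.sum_of_support_subset _ (s := J) (Finset.subset_biUnion_of_mem
      (fun t => (b.repr t).support) ht) _ (by simp), Finset.sum_coe_sort J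
      (fun i => b.repr t i • f i)]
  let U : Set (J → ℝ) := ⋂ t ∈ T.filter (0 < ·), {x | 0 < ∑ i : J, b.repr t i • x i}
  have hU : IsOpen U := by
    refine isOpen_biInter_finset fun t _ => isOpen_lt continuous_const ?_
    fun_prop
  have hb : (fun i : J => b i) ∈ U := by
    simp only [U, Set.mem_iInter, Set.mem_ofPred_eq, Finset.mem_filter]
    rintro t ⟨ht, h0⟩
    rw [← hsum t ht]
    have := b.linearCombination_repr t
    rw [Finsupp.linearCombination_apply] at this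
    rwa [this]
  have hd : DenseRange (Pi.map fun (_ : J) (q : ℚ) => (q : ℝ)) :=
    DenseRange.piMap fun _ => Rat.denseRange_cast
  obtain ⟨q, hq⟩ := hd.exists_mem_open hU ⟨_, hb⟩
  refine ⟨b.constr ℚ fun i => if h : i ∈ J then q ⟨i, h⟩ else 0, fun t ht h0 => ?_⟩
  simp only [U, Set.mem_iInter, Set.mem_ofPred_eq, Finset.mem_filter] at hq
  have := hq t ⟨ht, h0⟩
  rw [Module.Basis.constr_apply, hsum t ht]
  simp only [Finset.coe_mem, dite_true]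
  have e : ((∑ i : J, b.repr t i • q i : ℚ) : ℝ) = ∑ i : J, b.repr t i • ((q i : ℚ) : ℝ) := by
    push_cast
    refine Finset.sum_congr rfl fun i _ => ?_
    simp [Rat.smul_def]
  have h1 : (0 : ℝ) < ((∑ i : J, b.repr t i • q i : ℚ) : ℝ) := by rw [e]; exact this
  exact_mod_cast h1

theorem ex_psi (T : Finset ℝ) : ∃ ψ : ℝ →+ ℚ, (∀ t ∈ T, 0 < t → 0 < ψ t) ∧
    ∀ t ∈ T, ∃ n : ℤ, ψ t = 2 * n := by
  classical
  obtain ⟨φ, hφ⟩ := QPsi_pos T
  let N : ℕ := ∏ t ∈ T, (φ t).den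
  have hN : 0 < N := Finset.prod_pos fun t _ => (φ t).den_pos
  refine ⟨((2 * N : ℚ) • φ).toAddMonoidHom, fun t ht h0 => ?_, fun t ht => ?_⟩
  · have := hφ t ht h0
    simp only [LinearMap.toAddMonoidHom_coe, LinearMap.smul_apply, smul_eq_mul]
    positivity
  · obtain ⟨c, hc⟩ : (φ t).den ∣ N := Finset.dvd_prod_of_mem _ ht
    refine ⟨c * (φ t).num, ?_⟩
    simp only [LinearMap.toAddMonoidHom_coe, LinearMap.smul_apply, smul_eq_mul]
    rw [hc]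
    push_cast
    have := Rat.mul_den_eq_num (φ t)
    rw [← this]; ring

/-- a simplicial approximation of the finite set `S` -/
structure QPsiAp (d : Y → Y → ℝ) (S : Finset Y) (o : Y) {V : Type} (D : V → V → ℤ)
    (pt : Y → V) : Prop where
  tr : Tr D
  cmp : ∀ a ∈ S, ∀ b ∈ S, ∀ c ∈ S, ∀ e ∈ S, ∀ a' ∈ S, ∀ b' ∈ S, ∀ c' ∈ S, ∀ e' ∈ S,
    d a b + d c e ≤ d a' b' + d c' e' ↔
      D (pt a) (pt b) + D (pt c) (pt e) ≤ D (pt a') (pt b') + D (pt c') (pt e')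
  even : ∀ a ∈ S, ∀ b ∈ S, Even (D (pt a) (pt b))
  cover : ∀ x, ∃ s ∈ S, Bt D (pt o) x (pt s)

theorem QPsi_int (S : Finset Y) (Q : Finset (Y × Y))
    (hB : ∀ β ∈ B, β.2.1 ∈ S ∧ β.2.2 ∈ S) (hQ : ∀ p ∈ Q, p.1 ∈ S ∧ p.2 ∈ S)
    (hs : ∀ a, d a a = 0)
    (le : 2 * ∑ β ∈ B, d β.2.1 β.2.2 ≤ ∑ p ∈ Q, d p.1 p.2) :
    ∃ D₀ : Y → Y → ℤ,
      (∀ a ∈ S, ∀ b ∈ S, ∀ c ∈ S, ∀ e ∈ S, ∀ a' ∈ S, ∀ b' ∈ S, ∀ c' ∈ S, ∀ e' ∈ S,
        d a b + d c e ≤ d a' b' + d c' e' ↔ D₀ a b + D₀ c e ≤ D₀ a' b' + D₀ c' e') ∧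
      (∀ a, D₀ a a = 0) ∧ (∀ a ∈ S, ∀ b ∈ S, Even (D₀ a b)) ∧
      2 * ∑ β ∈ B, D₀ β.2.1 β.2.2 ≤ ∑ p ∈ Q, D₀ p.1 p.2 := by
  classical
  let T₁ : Finset ℝ := (S ×ˢ S).image fun p => d p.1 p.2
  let T₂ : Finset ℝ := ((T₁ ×ˢ T₁) ×ˢ (T₁ ×ˢ T₁)).image fun p => p.1.1 + p.1.2 - (p.2.1 + p.2.2)
  let δ : ℝ := ∑ p ∈ Q, d p.1 p.2 - 2 * ∑ β ∈ B, d β.2.1 β.2.2
  obtain ⟨ψ, hp, he⟩ := ex_psi (insert δ (T₁ ∪ T₂))
  have m₁ : ∀ a ∈ S, ∀ b ∈ S, d a b ∈ T₁ := fun a ha b hb =>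
    Finset.mem_image.2 ⟨(a, b), Finset.mem_product.2 ⟨ha, hb⟩, rfl⟩
  have hnum : ∀ a ∈ S, ∀ b ∈ S, (((ψ (d a b)).num : ℤ) : ℚ) = ψ (d a b) ∧
      Even (ψ (d a b)).num := by
    intro a ha b hb
    obtain ⟨n, hn⟩ := he _ (Finset.mem_insert_of_mem (Finset.mem_union_left _ (m₁ a ha b hb)))
    have : ψ (d a b) = ((2 * n : ℤ) : ℚ) := by rw [hn]; push_cast; rfl
    rw [this, Rat.num_intCast]
    exact ⟨rfl, even_two_mul n⟩
  have lt : ∀ t₁ ∈ T₁, ∀ t₂ ∈ T₁, ∀ t₃ ∈ T₁, ∀ t₄ ∈ T₁, t₁ + t₂ < t₃ + t₄ →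
      ψ t₁ + ψ t₂ < ψ t₃ + ψ t₄ := by
    intro t₁ h₁ t₂ h₂ t₃ h₃ t₄ h₄ h
    have := hp (t₃ + t₄ - (t₁ + t₂)) (Finset.mem_insert_of_mem (Finset.mem_union_right _
      (Finset.mem_image.2 ⟨((t₃, t₄), (t₁, t₂)), by simp [*], rfl⟩))) (by linarith)
    simp only [map_sub, map_add] at this
    linarith
  refine ⟨fun a b => (ψ (d a b)).num, ?_, fun a => by simp [hs], fun a ha b hb =>
    (hnum a ha b hb).2, ?_⟩
  · intro a ha b hb c hc e he a' ha' b' hb' c' hc' e' he'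
    rw [← Int.cast_le (R := ℚ)]
    push_cast
    rw [(hnum a ha b hb).1, (hnum c hc e he).1, (hnum a' ha' b' hb').1, (hnum c' hc' e' he').1]
    constructor
    · intro h
      rcases h.lt_or_eq with h | h
      · exact (lt _ (m₁ _ ha _ hb) _ (m₁ _ hc _ he) _ (m₁ _ ha' _ hb') _ (m₁ _ hc' _ he') h).le
      · rw [← map_add, ← map_add, h]
    · intro h
      by_contra hn
      exact absurd (lt _ (m₁ _ ha' _ hb') _ (m₁ _ hc' _ he') _ (m₁ _ ha _ hb) _ (m₁ _ hc _ he)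
        (not_le.1 hn)) (not_lt.2 h)
  · rw [← Int.cast_le (R := ℚ)]
    push_cast
    rw [Finset.sum_congr rfl fun β hβ => (hnum _ (hB β hβ).1 _ (hB β hβ).2).1,
      Finset.sum_congr rfl fun p hp => (hnum _ (hQ p hp).1 _ (hQ p hp).2).1]
    have e : ψ δ = ∑ p ∈ Q, ψ (d p.1 p.2) - 2 * ∑ β ∈ B, ψ (d β.2.1 β.2.2) := by
      simp only [δ, two_mul, map_sub, map_add, map_sum]
    have h0 : 0 ≤ δ := by simp only [δ]; linarith
    rcases h0.lt_or_eq with h | h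
    · have := hp δ (Finset.mem_insert_self _ _) h
      linarith
    · rw [← h, map_zero] at e
      linarith

theorem QPsi_tree (T : Tr d) (S : Finset Y) {o : Y} (ho : o ∈ S) (D₀ : Y → Y → ℤ)
    (cmp : ∀ a ∈ S, ∀ b ∈ S, ∀ c ∈ S, ∀ e ∈ S, ∀ a' ∈ S, ∀ b' ∈ S, ∀ c' ∈ S, ∀ e' ∈ S,
      d a b + d c e ≤ d a' b' + d c' e' ↔ D₀ a b + D₀ c e ≤ D₀ a' b' + D₀ c' e')
    (hs : ∀ a, D₀ a a = 0) (ev : ∀ a ∈ S, ∀ b ∈ S, Even (D₀ a b)) :
    ∃ (V : Type) (D : V → V → ℤ) (pt : Y → V), QPsiAp d S o D pt ∧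
      ∀ a ∈ S, ∀ b ∈ S, D (pt a) (pt b) = D₀ a b := by
  classical
  let H : Hyp ℤ S :=
    { D := fun a b => D₀ a b
      o := ⟨o, ho⟩
      gp := fun a b => (D₀ o a + D₀ o b - D₀ a b) / 2
      self := fun a => hs a
      symm := fun a b => by
        have e1 := (cmp a a.2 b b.2 a a.2 a a.2 b b.2 a a.2 a a.2 a a.2).1 (by rw [T.symm a b])
        have e2 := (cmp b b.2 a a.2 a a.2 a a.2 a a.2 b b.2 a a.2 a a.2).1 (by rw [T.symm a b])
        omega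
      tri := fun a b c => by
        have e1 := (cmp a a.2 c c.2 a a.2 a a.2 a a.2 b b.2 b b.2 c c.2).1
          (by rw [T.self, add_zero]; exact T.tri _ _ _)
        rw [hs] at e1
        omega
      four := fun x y z w => by
        rcases le_max_iff.1 (T.four x y z w) with e | e
        · exact le_max_of_le_left ((cmp x x.2 y y.2 z z.2 w w.2 x x.2 z z.2 y y.2 w w.2).1 e)
        · exact le_max_of_le_right ((cmp x x.2 y y.2 z z.2 w w.2 x x.2 w w.2 y y.2 z z.2).1 e)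
      gp_eq := fun a b => by
        obtain ⟨k, hk⟩ := ev o ho a a.2
        obtain ⟨l, hl⟩ := ev o ho b b.2
        obtain ⟨m, hm⟩ := ev a a.2 b b.2
        simp only
        omega }
  let p₀ : S → H.Pt := fun a => H.mkPt (a, H.D H.o a) (H.ok_pt a)
  let pt : Y → H.Pt := fun a => if h : a ∈ S then p₀ ⟨a, h⟩ else p₀ ⟨o, ho⟩
  have iso : ∀ a ∈ S, ∀ b ∈ S, H.dst (pt a) (pt b) = D₀ a b := by
    intro a ha b hb
    simp only [pt, dif_pos ha, dif_pos hb, p₀]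
    rw [H.dst_mk]
    exact H.fn_pt ⟨a, ha⟩ ⟨b, hb⟩
  refine ⟨H.Pt, H.dst, pt, ⟨H.tr, ?_, ?_, ?_⟩, iso⟩
  · intro a ha b hb c hc e he a' ha' b' hb' c' hc' e' he'
    rw [iso a ha b hb, iso c hc e he, iso a' ha' b' hb', iso c' hc' e' he']
    exact cmp a ha b hb c hc e he a' ha' b' hb' c' hc' e' he'
  · intro a ha b hb
    rw [iso a ha b hb]
    exact ev a ha b hb
  · intro x
    obtain ⟨⟨a, t⟩, hr, rfl⟩ := H.ex_rep x
    refine ⟨a, a.2, ?_⟩
    unfold Bt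
    rw [iso o ho a a.2]
    simp only [pt, dif_pos ho, dif_pos a.2, p₀]
    rw [H.dst_mk, H.dst_mk, H.rho_line a hr.2 le_rfl]
    have h0 : H.D H.o ⟨o, ho⟩ = 0 := hs o
    have h1 := hr.1
    have h2 := H.gp_nonneg ⟨o, ho⟩ a
    simp only [Hyp.rho, Hyp.pi, h0] at *
    rw [min_eq_left (le_min h1 h2)]
    change _ = H.D H.o a
    omega

namespace QPsiAp

variable {S : Finset Y} {o : Y} {V : Type} {D : V → V → ℤ} {pt : Y → V}

theorem bt (A : QPsiAp d S o D pt) (T : Tr d) {a p b : Y} (ha : a ∈ S) (hp : p ∈ S)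
    (hb : b ∈ S) : Bt d a p b ↔ Bt D (pt a) (pt p) (pt b) := by
  have e := A.cmp a ha p hp p hp b hb a ha b hb a ha a ha
  rw [T.self, A.tr.self, add_zero, add_zero] at e
  have := T.tri a p b
  have := A.tr.tri (pt a) (pt p) (pt b)
  unfold Bt
  constructor
  · intro h; have := e.1 h.le; omega
  · intro h; have := e.2 h.le; linarith

theorem eq (A : QPsiAp d S o D pt) {a b a' b' : Y} (ha : a ∈ S) (hb : b ∈ S) (ha' : a' ∈ S)
    (hb' : b' ∈ S) (e : d a b = d a' b') : D (pt a) (pt b) = D (pt a') (pt b') := by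
  have e1 := (A.cmp a ha b hb a ha a ha a' ha' b' hb' a ha a ha).1 (by rw [e])
  have e2 := (A.cmp a' ha' b' hb' a ha a ha a ha b hb a ha a ha).1 (by rw [e])
  omega

theorem inj (A : QPsiAp d S o D pt) (T : Tr d) {a b : Y} (ha : a ∈ S) (hb : b ∈ S)
    (e : pt a = pt b) : a = b := by
  have e1 := (A.cmp a ha b hb a ha a ha a ha a ha a ha a ha).2 (by rw [← e])
  rw [T.self] at e1
  exact T.eq_of (le_antisymm (by linarith) (T.nonneg _ _))

theorem sd (A : QPsiAp d S o D pt) (T : Tr d) {p a b : Y} (hp : p ∈ S) (ha : a ∈ S)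
    (hb : b ∈ S) : Sd d p a b ↔ Sd D (pt p) (pt a) (pt b) := by
  rw [← not_iff_not, T.not_sd_iff, A.tr.not_sd_iff]
  exact A.bt T ha hp hb

theorem finite (A : QPsiAp d S o D pt) : Finite V := by
  have : (Set.univ : Set V).Finite :=
    (S.finite_toSet.biUnion fun s _ => A.tr.seg_finite (pt o) (pt s)).subset fun x _ => by
      obtain ⟨s, hs, h⟩ := A.cover x
      exact Set.mem_biUnion hs h
  exact Set.finite_univ_iff.1 this

theorem hull (A : QPsiAp d S o D pt) (T : Tr d) (hF : F ⊆ S) (hS : ∀ s ∈ S, s ∈ Hull d F)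
    (ho : o ∈ F) {x y : V} (e : D x y = 1) :
    ∃ f ∈ F, ∃ f' ∈ F, Bt D (pt f) x y ∧ Bt D x y (pt f') := by
  have R := A.tr
  have ext : ∀ z, ∃ f ∈ F, Bt D (pt o) z (pt f) := by
    intro z
    obtain ⟨s, hs, h⟩ := A.cover z
    obtain ⟨f, hf, h'⟩ := T.hull_ext (hS s hs) o
    exact ⟨f, hf, (R.bt_trans h ((A.bt T (hF ho) hs (hF hf)).1 h')).1⟩
  rcases R.adj_cases e (pt o) with c | c
  · obtain ⟨f, hf, h⟩ := ext y
    have b : Bt D (pt o) x y := by unfold Bt; omega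
    exact ⟨o, ho, f, hf, b, (R.bt_trans b h).2⟩
  · obtain ⟨f, hf, h⟩ := ext x
    have b : Bt D (pt o) y x := by have := R.symm x y; unfold Bt; omega
    exact ⟨f, hf, o, ho, R.bt_symm (R.bt_trans b h).2, R.bt_symm b⟩

theorem cons_left (A : QPsiAp d S o D pt) (T : Tr d) (hBr : ∀ c, Br d F c → c ∈ S)
    (hS : ∀ s ∈ S, s ∈ Hull d F) {s s' t t' : Y} (c : Cons d S s s') (c' : Cons d S t t')
    {x y : V} (e : D x y = 1) (a₁ : Bt D (pt s) x y) (a₂ : Bt D x y (pt s'))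
    (b₁ : Bt D (pt t) x y) (b₂ : Bt D x y (pt t')) : s = t := by
  have R := A.tr
  have ne : x ≠ y := by rintro rfl; rw [R.self] at e; omega
  have key : ∀ {s s' t : Y}, Cons d S s s' → t ∈ S → Bt D (pt s) x y → Bt D x y (pt s') →
      Bt D (pt t) x y → D (pt t) x = D (pt t) (pt s) + D (pt s) x := by
    intro s s' t c ht a₁ a₂ b₁
    obtain ⟨hs, hs', -, hc⟩ := c
    obtain ⟨m, m₁, m₂, m₃⟩ := T.med' s s' t
    have hm : m ∈ S := by
      rcases T.med_cases (hS s hs) (hS s' hs') (hS t ht) m₁ m₂ m₃ with rfl | rfl | rfl | h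
      exacts [hs, hs', ht, hBr _ h]
    have g₁ := (QAx_glue R a₁ a₂ ne).1
    have g₂ := (QAx_glue R b₁ a₂ ne).1
    rcases hc m hm m₁ with rfl | rfl
    · have := R.bt_symm ((A.bt T hs' hs ht).1 m₃)
      unfold Bt at *
      omega
    · have := (A.bt T hs hs' ht).1 m₂
      have := R.tri (pt s) x (pt t)
      have := R.symm x (pt t)
      have := R.symm (pt m) (pt t)
      have := R.nonneg y (pt m)
      unfold Bt at *
      omega
  have k₁ := key c c'.1 a₁ a₂ b₁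
  have k₂ := key c' c.1 b₁ b₂ a₁
  have := R.symm (pt s) (pt t)
  exact A.inj T c.1 c'.1 (R.eq_of (by omega))

open Classical in
theorem count (A : QPsiAp d S o D pt) (T : Tr d) (hBr : ∀ c, Br d F c → c ∈ S)
    (hS : ∀ s ∈ S, s ∈ Hull d F) (E : Finset (V × V)) (hE : ∀ x y, (x, y) ∈ E ↔ D x y = 1) :
    ∑ p ∈ (S ×ˢ S).filter fun p => Cons d S p.1 p.2, D (pt p.1) (pt p.2) ≤ E.card := by
  have R := A.tr
  let Ec : Y × Y → Finset (V × V) := fun p =>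
    E.filter fun e => Bt D (pt p.1) e.1 e.2 ∧ Bt D e.1 e.2 (pt p.2)
  have h1 : ∀ p, D (pt p.1) (pt p.2) ≤ (Ec p).card := by
    intro p
    have : (Finset.Ico 0 (D (pt p.1) (pt p.2))).card ≤ (Ec p).card := by
      refine Finset.card_le_card_of_surjOn (fun e => D (pt p.1) e.1) fun j hj => ?_
      obtain ⟨j0, j1⟩ := Finset.mem_Ico.1 (Finset.mem_coe.1 hj)
      obtain ⟨x, x1, x2⟩ := R.ex_bt (pt p.1) (pt p.2) j0 j1.le
      obtain ⟨y, y1, y2⟩ := R.ex_bt (pt p.1) (pt p.2) (t := j + 1) (by omega) (by omega)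
      obtain ⟨b1, b2⟩ := R.bt_of_le x1 y1 (by omega)
      refine ⟨(x, y), Finset.mem_coe.2 (Finset.mem_filter.2 ⟨(hE x y).2 ?_, b1, b2⟩), x2⟩
      unfold Bt at b1
      omega
    rw [Int.card_Ico] at this
    have := R.nonneg (pt p.1) (pt p.2)
    omega
  have h2 : ∑ p ∈ (S ×ˢ S).filter fun p => Cons d S p.1 p.2, (Ec p).card ≤ E.card := by
    rw [← Finset.card_biUnion]
    · exact Finset.card_le_card (Finset.biUnion_subset.2 fun p _ => Finset.filter_subset _ _)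
    · intro p hp q hq ne
      refine Finset.disjoint_left.2 fun e h h' => ne ?_
      have cp := (Finset.mem_filter.1 (Finset.mem_coe.1 hp)).2
      have cq := (Finset.mem_filter.1 (Finset.mem_coe.1 hq)).2
      obtain ⟨e0, a₁, a₂⟩ := Finset.mem_filter.1 h
      obtain ⟨-, b₁, b₂⟩ := Finset.mem_filter.1 h'
      have e1 : D e.1 e.2 = 1 := (hE _ _).1 e0
      have sy : ∀ {s s' : Y}, Cons d S s s' → Cons d S s' s := fun c =>
        ⟨c.2.1, c.1, c.2.2.1.symm, fun z hz b => (c.2.2.2 z hz (T.bt_symm b)).symm⟩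
      exact Prod.ext (A.cons_left T hBr hS cp cq e1 a₁ a₂ b₁ b₂)
        (A.cons_left T hBr hS (sy cp) (sy cq) (by rw [R.symm, e1]) (R.bt_symm a₂) (R.bt_symm a₁)
          (R.bt_symm b₂) (R.bt_symm b₁))
  calc _ ≤ ∑ p ∈ (S ×ˢ S).filter fun p => Cons d S p.1 p.2, ((Ec p).card : ℤ) :=
        Finset.sum_le_sum fun p _ => h1 p
    _ ≤ _ := by exact_mod_cast h2

end QPsiAp

theorem QPsi_mono {ι V : Type} {R R' : ι → V → V → Prop} (h : ∀ i a b, R i a b → R' i a b)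
    {x y : V} {ω : FreeGroup ι} (p : WPath R x ω y) : WPath R' x ω y := by
  induction p with
  | nil => exact .nil
  | fwd _ r ih => exact ih.fwd (h _ _ _ r)
  | bwd _ r ih => exact ih.bwd (h _ _ _ r)

theorem QPsi_map {ι V W : Type} {R : ι → V → V → Prop} {R' : ι → W → W → Prop} (f : V → W)
    (h : ∀ i a b, R i a b → R' i (f a) (f b)) {x y : V} {ω : FreeGroup ι} (p : WPath R x ω y) :
    WPath R' (f x) ω (f y) := by
  induction p with
  | nil => exact .nil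
  | fwd _ r ih => exact ih.fwd (h _ _ _ r)
  | bwd _ r ih => exact ih.bwd (h _ _ _ r)

theorem QPsi_nil {ι V : Type} {R : ι → V → V → Prop} {x y : V} {ω : FreeGroup ι}
    (h : ∀ i z, ¬ R i x z ∧ ¬ R i z x) (p : WPath R x ω y) : ω = 1 ∧ y = x := by
  induction p with
  | nil => exact ⟨rfl, rfl⟩
  | fwd _ r ih => exact absurd (ih.2 ▸ r) (h _ _).1
  | bwd _ r ih => exact absurd (ih.2 ▸ r) (h _ _).2

/-- the core steps of the model -/
def QPsiCore (d : Y → Y → ℝ) (F : Finset Y) (B : Finset (G × Y × Y)) (S : Finset Y) {V : Type}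
    (pt : Y → V) (i : Lt F B) (x x' : V) : Prop :=
  ∃ p p', SStep d F B S i p p' ∧ x = pt p ∧ x' = pt p'

/-- the data from which the model is built -/
structure QPsiSet (d : Y → Y → ℝ) (F : Finset Y) (B : Finset (G × Y × Y)) (S : Finset Y) (o : Y)
    {V : Type} (D : V → V → ℤ) (pt : Y → V) : Prop where
  act : IAct G d
  ap : QPsiAp d S o D pt
  hF : F ⊆ S
  hS : ∀ s ∈ S, s ∈ Hull d F
  ho : o ∈ F
  ends : ∀ β ∈ B, β.2.1 ∈ S ∧ β.2.2 ∈ S ∧ β.1 • β.2.1 ∈ S ∧ β.1 • β.2.2 ∈ S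

namespace QPsiSet

variable {S : Finset Y} {o : Y} {V : Type} {D : V → V → ℤ} {pt : Y → V}

theorem ends' (Z : QPsiSet d F B S o D pt) (i : Lt F B) :
    i.1.2.1 ∈ S ∧ i.1.2.2 ∈ S ∧ i.1.1 • i.1.2.1 ∈ S ∧ i.1.1 • i.1.2.2 ∈ S := by
  rcases i.2 with h | ⟨h1, h2, h3⟩
  · exact Z.ends _ h
  · rw [h2]; exact ⟨Z.hF h1, Z.hF h1, Z.hF h3, Z.hF h3⟩

theorem core_le (Z : QPsiSet d F B S o D pt) (i : Lt F B) {p : Y} (hp : p ∈ S)
    (hp' : i.1.1 • p ∈ S) (b : Bt d i.1.2.1 p i.1.2.2) :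
    BR D (pt i.1.2.1) (pt i.1.2.2) (pt (i.1.1 • i.1.2.1)) (pt (i.1.1 • i.1.2.2)) (pt p)
      (pt (i.1.1 • p)) := by
  obtain ⟨e₁, e₂, e₃, e₄⟩ := Z.ends' i
  exact ⟨(Z.ap.bt Z.act.tr e₁ hp e₂).1 b, (Z.ap.bt Z.act.tr e₃ hp' e₄).1 (Z.act.bt _ b),
    Z.ap.eq e₁ hp e₃ hp' (Z.act.iso _ _ _).symm⟩

theorem site (Z : QPsiSet d F B S o D pt) {g : G} {p : Y} (hp : p ∈ F) (hp' : g • p ∈ F) :
    ∃ ω, WPath (QPsiCore d F B S pt) (pt p) ω (pt (g • p)) ∧
      FreeGroup.lift (fun i : Lt F B => i.1.1) ω = g := by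
  let i : Lt F B := ⟨(g, p, p), Or.inr ⟨hp, rfl, hp'⟩⟩
  refine ⟨FreeGroup.of i * 1, WPath.nil.fwd
    ⟨p, g • p, ⟨Z.hF hp, Z.hF hp', Z.act.tr.bt_left p p, rfl⟩, rfl, rfl⟩, by simp [i]⟩

theorem track (Z : QPsiSet d F B S o D pt) {p : Y} (hp : p ∈ S) {ω : FreeGroup (Lt F B)} {y : V}
    (w : WPath (QPsiCore d F B S pt) (pt p) ω y) :
    FreeGroup.lift (fun i : Lt F B => i.1.1) ω • p ∈ S ∧
      y = pt (FreeGroup.lift (fun i : Lt F B => i.1.1) ω • p) := by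
  induction w with
  | nil => simpa using hp
  | fwd _ r ih =>
    obtain ⟨q, q', ⟨h1, h2, -, rfl⟩, e, rfl⟩ := r
    have := Z.ap.inj Z.act.tr ih.1 h1 (ih.2.symm.trans e)
    simp only [map_mul, FreeGroup.lift_apply_of, mul_smul, this]
    exact ⟨h2, trivial⟩
  | bwd _ r ih =>
    obtain ⟨q, q', ⟨h1, h2, -, rfl⟩, rfl, e⟩ := r
    have := Z.ap.inj Z.act.tr ih.1 h2 (ih.2.symm.trans e)
    simp only [map_mul, map_inv, FreeGroup.lift_apply_of, mul_smul, this, inv_smul_smul]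
    exact ⟨h1, trivial⟩

theorem step (Z : QPsiSet d F B S o D pt) (i : Lt F B) {q : Y} (hq : q ∈ S)
    (hq' : i.1.1 • q ∈ S) (b : Bt d i.1.2.1 q i.1.2.2) {a a' : V}
    (r : BR D (pt i.1.2.1) (pt i.1.2.2) (pt (i.1.1 • i.1.2.1)) (pt (i.1.1 • i.1.2.2)) a a')
    (e : D (pt q) a = 1 ∨ D (pt (i.1.1 • q)) a' = 1) :
    D (pt q) a = 1 ∧ D (pt (i.1.1 • q)) a' = 1 ∧ i.1 ∈ B ∧ ∃ w ∈ S, i.1.1 • w ∈ S ∧
      Bt d i.1.2.1 w i.1.2.2 ∧ Bt D (pt q) a (pt w) ∧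
        Bt D (pt (i.1.1 • q)) a' (pt (i.1.1 • w)) := by
  have R := Z.ap.tr
  have T := Z.act.tr
  obtain ⟨e₁, e₂, e₃, e₄⟩ := Z.ends' i
  obtain ⟨c₁, c₂, c₃⟩ := Z.core_le i hq hq' b
  obtain ⟨r₁, r₂, r₃⟩ := r
  have f₁ := R.bt_dist c₁ r₁
  have f₂ := R.bt_dist c₂ r₂
  rw [← c₃, ← r₃, ← f₁] at f₂
  have g₁ : D (pt q) a = 1 := by rcases e with e | e; exacts [e, f₂ ▸ e]
  refine ⟨g₁, f₂.trans g₁, ?_, ?_⟩
  · rcases i.2 with h | ⟨-, h, -⟩
    · exact h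
    · exfalso
      rw [h] at c₁ r₁
      have := R.bt_le c₁
      have := R.bt_le r₁
      have := R.nonneg (pt i.1.2.1) (pt q)
      have := R.nonneg (pt i.1.2.1) a
      have := R.self (pt i.1.2.1)
      rw [g₁, show D (pt i.1.2.1) (pt q) - D (pt i.1.2.1) a = 0 by omega] at f₁
      simp at f₁
  · rcases le_total (D (pt i.1.2.1) (pt q)) (D (pt i.1.2.1) a) with c | c
    · exact ⟨_, e₂, e₄, T.bt_right _ _, (R.bt_of_le c₁ r₁ c).2,
        (R.bt_of_le c₂ r₂ (by omega)).2⟩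
    · exact ⟨_, e₁, e₃, T.bt_left _ _, R.bt_symm (R.bt_of_le r₁ c₁ c).1,
        R.bt_symm (R.bt_of_le r₂ c₂ (by omega)).1⟩

theorem sd_of (Z : QPsiSet d F B S o D pt) {q s w : Y} (hq : q ∈ S) (hs : s ∈ S) (hw : w ∈ S)
    {y : V} (e : D (pt q) y = 1) (a : Bt D (pt q) y (pt s)) (b : Bt D (pt q) y (pt w)) :
    Sd d q s w := by
  have R := Z.ap.tr
  have ne : pt q ≠ y := by intro h; rw [h, R.self] at e; omega
  exact (Z.ap.sd Z.act.tr hq hs hw).2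
    (R.sd_trans (R.sd_symm (R.sd_of_bt a ne)) (R.sd_of_bt b ne))

theorem shrink (Z : QPsiSet d F B S o D pt) {p z z' : Y} (b : Bt d p z' z) {g h : G}
    {ω : FreeGroup (Lt F B)}
    (w : WPath (fun (i : Lt F B) (h h' : G) => i.1 ∈ B ∧ Along d p z h i.1 ∧ h' = i.1.1 * h)
      g ω h) :
    WPath (fun (i : Lt F B) (h h' : G) => i.1 ∈ B ∧ Along d p z' h i.1 ∧ h' = i.1.1 * h)
      g ω h :=
  QPsi_mono (fun i a _ r => ⟨r.1, ⟨r.2.1.1, Z.act.tr.bt_conv r.2.1.1 r.2.1.2 (Z.act.bt a b)⟩,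
    r.2.2⟩) w

theorem inv (Z : QPsiSet d F B S o D pt) {p s : Y} (hp : p ∈ S) (hs : s ∈ S) {y : V}
    (e : D (pt p) y = 1) (b : Bt D (pt p) y (pt s)) {ω : FreeGroup (Lt F B)} {c : V × V}
    (w : WPath (fun (i : Lt F B) (a b : V × V) => QPsiCore d F B S pt i a.1 b.1 ∧
      BR D (pt i.1.2.1) (pt i.1.2.2) (pt (i.1.1 • i.1.2.1)) (pt (i.1.1 • i.1.2.2)) a.2 b.2)
      (pt p, y) ω c) :
    ∃ h : G, FreeGroup.lift (fun i : Lt F B => i.1.1) ω = h ∧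
      h • p ∈ S ∧ c.1 = pt (h • p) ∧ D (pt (h • p)) c.2 = 1 ∧ ∃ z, p ≠ z ∧ Bt d p z s ∧ ∃ s₁ ∈ S,
        Bt D (pt (h • p)) c.2 (pt s₁) ∧ Sd d (h • p) (h • z) s₁ ∧
        WPath (fun (i : Lt F B) (h h' : G) => i.1 ∈ B ∧ Along d p z h i.1 ∧ h' = i.1.1 * h)
          1 ω h := by
  have R := Z.ap.tr
  have T := Z.act.tr
  induction w with
  | nil =>
    have ne : p ≠ s := by
      rintro rfl
      have := R.bt_le b
      rw [R.self] at this
      omega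
    refine ⟨1, map_one _, ?_⟩
    simp only [one_smul]
    exact ⟨hp, trivial, e, s, ne, T.bt_right _ _, s, hs, b, T.sd_refl ne, .nil⟩
  | @fwd ω c c' i _ r ih =>
    obtain ⟨h, h0, h1, h2, h3, z, z1, z2, s₁, s1, s2, s3, s4⟩ := ih
    obtain ⟨⟨q, q', ⟨q1, q2, q3, rfl⟩, q4, q5⟩, r⟩ := r
    obtain rfl := Z.ap.inj T h1 q1 (h2.symm.trans q4)
    obtain ⟨-, k2, k3, w, w1, w2, w3, w4, w5⟩ := Z.step i q1 q2 q3 r (Or.inl h3)
    obtain ⟨m, m1, m2, m3⟩ := T.sd_med (T.sd_trans s3 (Z.sd_of q1 s1 w1 h3 s2 w4))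
    have m4 : Bt d p (h⁻¹ • m) z := by simpa using Z.act.bt h⁻¹ m2
    refine ⟨i.1.1 * h, by simp [h0], ?_⟩
    simp only [mul_smul]
    refine ⟨q2, q5, k2, h⁻¹ • m, fun e => m1 (by rw [e, smul_inv_smul]), (T.bt_trans m4 z2).1,
      _, w2, w5, ?_, (Z.shrink m4 s4).fwd ⟨k3, ⟨q3, ?_⟩, rfl⟩⟩
    · rw [smul_inv_smul]
      exact T.sd_of_bt (Z.act.bt _ m3) fun e => m1 (smul_left_cancel _ e)
    · rw [smul_inv_smul]
      exact T.bt_conv q3 w3 m3
  | @bwd ω c c' i _ r ih =>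
    obtain ⟨h, h0, h1, h2, h3, z, z1, z2, s₁, s1, s2, s3, s4⟩ := ih
    obtain ⟨⟨q, q', ⟨q1, q2, q3, rfl⟩, q4, q5⟩, r⟩ := r
    have e1 := Z.ap.inj T h1 q2 (h2.symm.trans q5)
    have e2 : (i.1.1⁻¹ * h) • p = q := by rw [mul_smul, e1, inv_smul_smul]
    rw [e1] at h3 s2 s3
    obtain ⟨k1, -, k3, w, w1, w2, w3, w4, w5⟩ := Z.step i q1 q2 q3 r (Or.inr h3)
    obtain ⟨m, m1, m2, m3⟩ := T.sd_med (T.sd_trans s3 (Z.sd_of q2 s1 w2 h3 s2 w5))
    have m4 : Bt d p (h⁻¹ • m) z := by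
      rw [← e1] at m2
      simpa using Z.act.bt h⁻¹ m2
    have m5 : Bt d q (i.1.1⁻¹ • m) w := by simpa using Z.act.bt i.1.1⁻¹ m3
    have e3 : (i.1.1⁻¹ * h) • h⁻¹ • m = i.1.1⁻¹ • m := by rw [mul_smul, smul_inv_smul]
    refine ⟨i.1.1⁻¹ * h, by simp [h0], ?_⟩
    rw [e2]
    refine ⟨q1, q4, k1, h⁻¹ • m, fun e => m1 (by rw [← e1, e, smul_inv_smul]),
      (T.bt_trans m4 z2).1, w, w1, w4, ?_,
      (Z.shrink m4 s4).bwd ⟨k3, ⟨?_, ?_⟩, by rw [mul_inv_cancel_left]⟩⟩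
    · rw [e3]
      exact T.sd_of_bt m5 fun e => m1 (by rw [e, smul_inv_smul])
    · rw [e2]; exact q3
    · rw [e3]; exact T.bt_conv q3 w3 m5

theorem ind (Z : QPsiSet d F B S o D pt) (hi : Ind G d B) (x y y' : V)
    (ω : FreeGroup (Lt F B)) (e : D x y = 1)
    (w : WPath (fun (i : Lt F B) (a b : V × V) => QPsiCore d F B S pt i a.1 b.1 ∧
      BR D (pt i.1.2.1) (pt i.1.2.2) (pt (i.1.1 • i.1.2.1)) (pt (i.1.1 • i.1.2.2)) a.2 b.2)
      (x, y) ω (x, y'))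
    (h1 : FreeGroup.lift (fun i : Lt F B => i.1.1) ω = 1) : ω = 1 ∧ y' = y := by
  have R := Z.ap.tr
  have T := Z.act.tr
  by_cases hx : ∃ p ∈ S, x = pt p
  · obtain ⟨p, hp, rfl⟩ := hx
    obtain ⟨-, -, s, hs, -, b⟩ := Z.ap.hull T Z.hF Z.hS Z.ho e
    obtain ⟨h, h0, -, -, h3, z, z1, z2, s₁, s1, s2, s3, s4⟩ := Z.inv hp (Z.hF hs) e b w
    obtain rfl : h = 1 := h0.symm.trans h1
    simp only [one_smul] at h3 s2 s3
    refine ⟨hi.word z1 s4, ?_⟩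
    obtain ⟨m, m1, m2, m3⟩ := R.sd_med ((Z.ap.sd T hp (Z.hF hs) s1).1
      (T.sd_trans (T.sd_symm (T.sd_of_bt z2 z1)) s3))
    have := R.pos m1
    exact R.bt_uniq (R.bt_of_le s2 m3 (by omega)).1 (R.bt_of_le b m2 (by omega)).1 (by omega)
  · have := QPsi_nil (fun i z => ⟨?_, ?_⟩) w
    · exact ⟨this.1, congrArg Prod.snd this.2⟩
    · rintro ⟨⟨p, p', ⟨a, -⟩, b, -⟩, -⟩
      exact hx ⟨p, a, b⟩
    · rintro ⟨⟨p, p', ⟨-, a, -⟩, -, b⟩, -⟩
      exact hx ⟨p', a, b⟩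

theorem fix (Z : QPsiSet d F B S o D pt) (x : V) : ∃ z : Y, ∀ ω,
    WPath (QPsiCore d F B S pt) x ω x → FreeGroup.lift (fun i : Lt F B => i.1.1) ω • z = z := by
  by_cases hx : ∃ p ∈ S, x = pt p
  · obtain ⟨p, hp, rfl⟩ := hx
    refine ⟨p, fun ω w => ?_⟩
    obtain ⟨a, b⟩ := Z.track hp w
    exact (Z.ap.inj Z.act.tr hp a b).symm
  · refine ⟨o, fun ω w => ?_⟩
    have := QPsi_nil (fun i z => ⟨?_, ?_⟩) w
    · rw [this.1, map_one, one_smul]
    · rintro ⟨p, p', ⟨a, -⟩, b, -⟩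
      exact hx ⟨p, a, b⟩
    · rintro ⟨p, p', ⟨-, a, -⟩, -, b⟩
      exact hx ⟨p', a, b⟩

end QPsiSet

theorem ex_model (h : Geo G d Eq F B x₀ g₀) :
    Nonempty (Model G (fun A => ∃ z : Y, ∀ a ∈ A, a • z = z)
      {A | ∃ p ∈ F, A = {g : G | g • p = p}}) := by
  classical
  obtain ⟨B₁, h₁, nb₁⟩ := ex_nobr h
  obtain ⟨B, h, nb, hi⟩ := ex_ind h₁ nb₁
  obtain ⟨S, hF, hBr, hS, ends, pres⟩ := ex_core h hi
  have T := h.fat.act.tr
  obtain ⟨D₀, cmp, hs, ev, le⟩ := QPsi_int S _ (fun β hβ => ⟨(ends β hβ).1, (ends β hβ).2.1⟩)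
    (fun p hp => Finset.mem_product.1 (Finset.mem_filter.1 hp).1) T.self
    (len_ineq h nb hi S hF hBr hS)
  obtain ⟨V, D, pt, A, iso⟩ := QPsi_tree T S (hF h.x0) D₀ cmp hs ev
  have Z : QPsiSet d F B S x₀ D pt := ⟨h.fat.act, A, hF, hS, h.x0, ends⟩
  have := A.finite
  have := Fintype.ofFinite V
  have hE : ∀ x y : V, (x, y) ∈ (Finset.univ.filter fun e : V × V => D e.1 e.2 = 1) ↔
      D x y = 1 := by simp
  refine ⟨{
    V := V
    D := D
    par := fun x => decide (Even (D (pt x₀) x))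
    ι := Lt F B
    lab := fun i => i.1.1
    u := fun i => pt i.1.2.1
    v := fun i => pt i.1.2.2
    u' := fun i => pt (i.1.1 • i.1.2.1)
    v' := fun i => pt (i.1.1 • i.1.2.2)
    core := QPsiCore d F B S pt
    I := B.subtype (· ∈ Lt F B)
    E := Finset.univ.filter fun e : V × V => D e.1 e.2 = 1
    F := pt '' F
    x₀ := pt x₀
    xp := pt (g₀ • x₀)
    xm := pt (g₀⁻¹ • x₀)
    g₀ := g₀
    tf := h.fat.tf
    ell_mono := fun A A' hA ⟨z, hz⟩ => ⟨z, fun a ha => hz a (hA ha)⟩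
    ell_conj := ?_
    tr := A.tr
    par_adj := ?_
    len := ?_
    par_u := ?_
    core_le := ?_
    hI := ?_
    hE := hE
    cnt := ?_
    gen := ?_
    pres := ?_
    ind := Z.ind hi
    fix := ?_
    hQ := ?_
    hull := ?_
    ess := ?_
    g0 := h.g0
    hxp := Z.site h.x0 h.xp
    hxm := Z.site h.x0 h.xm
    mn := (A.bt T (hF h.xm) (hF h.x0) (hF h.xp)).1 h.mn }⟩
  · rintro A g ⟨z, hz⟩
    refine ⟨g • z, fun a ha => ?_⟩
    have := hz _ ha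
    rw [mul_smul, mul_smul, inv_smul_eq_iff] at this
    exact this
  · intro x y e
    simp only [ne_eq, decide_eq_decide, Int.even_iff]
    rcases A.tr.adj_cases e (pt x₀) with c | c <;> omega
  · intro i
    obtain ⟨e₁, e₂, e₃, e₄⟩ := Z.ends' i
    exact A.eq e₁ e₂ e₃ e₄ (h.fat.act.iso _ _ _).symm
  · intro i
    obtain ⟨e₁, e₂, e₃, e₄⟩ := Z.ends' i
    simp [A.even _ (hF h.x0) _ e₁, A.even _ (hF h.x0) _ e₃]
  · rintro i x x' ⟨p, p', ⟨a, b, c, rfl⟩, rfl, rfl⟩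
    exact Z.core_le i a b c
  · intro i hi
    rcases i.2 with c | ⟨-, c, -⟩
    · exact absurd (Finset.mem_subtype.2 c) hi
    · rw [c]
  · rw [Finset.sum_subtype_of_mem (p := (· ∈ Lt F B))
      (fun β : G × Y × Y => D (pt β.2.1) (pt β.2.2)) fun β hβ => Or.inl hβ]
    refine le_trans ?_ (A.count T hBr hS _ hE)
    rw [Finset.sum_congr rfl fun β hβ => iso _ (ends β hβ).1 _ (ends β hβ).2.1,
      Finset.sum_congr rfl fun p hp => iso _ (Finset.mem_filter.1 hp).2.1 _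
        (Finset.mem_filter.1 hp).2.2.1]
    exact le
  · rw [← MonoidHom.range_eq_top, eq_top_iff, ← h.gen, closure_le]
    rintro g ⟨p, hp, p', hp', rfl⟩
    obtain ⟨ω, -, e⟩ := Z.site hp hp'
    exact ⟨ω, e⟩
  · intro ω e
    refine normalClosure_mono ?_ (pres ω e)
    rintro c ⟨c1, p, c2⟩
    exact ⟨c1, pt p, QPsi_map pt (fun i a b r => ⟨a, b, r, rfl, rfl⟩) c2⟩
  · intro x
    obtain ⟨z, hz⟩ := Z.fix x
    refine ⟨z, ?_⟩
    rintro a ⟨ω, w, rfl⟩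
    exact hz ω w
  · rintro A ⟨p, hp, rfl⟩
    refine ⟨pt p, fun a ha => ?_⟩
    have ha' : a • p = p := ha
    have := Z.site (g := a) hp (by rw [ha']; exact hp)
    rwa [ha'] at this
  · intro x y e
    obtain ⟨f, hf, f', hf', a⟩ := A.hull T hF hS h.x0 e
    exact ⟨_, ⟨f, hf, rfl⟩, _, ⟨f', hf', rfl⟩, a⟩
  · rintro _ ⟨p, hp, rfl⟩
    rcases h.ess p hp with ⟨g, g1, e⟩ | ⟨g, rfl⟩
    · obtain ⟨ω, w, e'⟩ := Z.site (g := g) hp (by rw [e]; exact hp)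
      rw [e] at w
      exact Or.inl ⟨ω, w, e' ▸ g1⟩
    · obtain ⟨ω, w, -⟩ := Z.site h.x0 hp
      exact Or.inr ⟨ω, w⟩

end Pool.Agent.Work.MP_904812_al
end
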