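import Pool.Agent.Work.MP_904812_al.QLa5
import Pool.Agent.Work.MP_904812_al.QGru
import Pool.Agent.Work.MP_904812_al.QCyl
import Pool.Agent.Work.MP_904812_al.QLa2
import Pool.Agent.Work.MP_904812_al.QPsi

-- merged part: Pool.Agent.Work.MP_904812_al.QMod
section
/-! The dichotomy for models. -/

namespace Pool.Agent.Work.MP_904812_al

set_option linter.unusedSectionVars false
set_option linter.unusedVariables false

open Subgroup MulAction

variable {G : Type} [Group G] {Ell : Set G → Prop} {Q : Set (Set G)}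

/-- oriented unit edges of a model -/
noncomputable def Model.QModA (M : Model G Ell Q) : Finset (M.V × M.V) :=
  M.E.filter fun p => M.par p.1 = false

theorem Model.QMod_memA (M : Model G Ell Q) {p : M.V × M.V} :
    p ∈ M.QModA ↔ M.D p.1 p.2 = 1 ∧ M.par p.1 = false := by
  rw [Model.QModA, Finset.mem_filter, ← M.hE]

open Classical in
/-- the steps between oriented unit edges -/
noncomputable def Model.QModE (M : Model G Ell Q) : Finset (M.ι × (M.V × M.V) × (M.V × M.V)) :=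
  (M.I ×ˢ M.QModA ×ˢ M.QModA).filter fun t => M.R t.1 t.2.1.1 t.2.2.1 ∧ M.R t.1 t.2.1.2 t.2.2.2

theorem Model.QMod_memE (M : Model G Ell Q) {t : M.ι × (M.V × M.V) × (M.V × M.V)} :
    t ∈ M.QModE ↔ (t.1 ∈ M.I ∧ t.2.1 ∈ M.QModA ∧ t.2.2 ∈ M.QModA) ∧
      M.R t.1 t.2.1.1 t.2.2.1 ∧ M.R t.1 t.2.1.2 t.2.2.2 := by
  simp only [Model.QModE, Finset.mem_filter, Finset.mem_product]

theorem Model.QMod_cardA (M : Model G Ell Q) : M.E.card ≤ 2 * M.QModA.card := by
  classical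
  have h : M.E ⊆ M.QModA ∪ M.QModA.image Prod.swap := by
    rintro ⟨x, y⟩ hp
    have e := (M.hE x y).1 hp
    rw [Finset.mem_union]
    by_cases hx : M.par x = false
    · exact Or.inl (M.QMod_memA.2 ⟨e, hx⟩)
    · refine Or.inr (Finset.mem_image.2 ⟨(y, x), M.QMod_memA.2 ⟨by rw [M.tr.symm]; exact e, ?_⟩, rfl⟩)
      have := M.par_adj x y e
      revert this hx
      cases M.par x <;> cases M.par y <;> simp
  have := (Finset.card_le_card h).trans (Finset.card_union_le _ _)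
  have := Finset.card_image_le (s := M.QModA) (f := Prod.swap)
  omega

theorem QMod_edge {V : Type} {D : V → V → ℤ} (h : Tr D) {u v x y : V} (hx : Bt D u x v)
    (hy : Bt D u y v) (e : D x y = 1) : D u y = D u x + 1 ∨ D u x = D u y + 1 := h.adj_cases e u

theorem Model.QMod_cardE (M : Model G Ell Q) : M.QModE.card ≤ M.QModA.card := by
  classical
  have h1 : M.QModE.card ≤ (M.I.sigma fun i => Finset.range (M.D (M.u i) (M.v i)).toNat).card := by
    refine Finset.card_le_card_of_injOn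
      (fun t => ⟨t.1, (min (M.D (M.u t.1) t.2.1.1) (M.D (M.u t.1) t.2.1.2)).toNat⟩) ?_ ?_
    · rintro ⟨i, ⟨x, y⟩, ⟨x', y'⟩⟩ ht
      obtain ⟨⟨a1, a2, a3⟩, r1, r2⟩ := M.QMod_memE.1 (Finset.mem_coe.1 ht)
      have e := (M.QMod_memA.1 a2).1
      have c := QMod_edge M.tr r1.1 r2.1 e
      have b1 := M.tr.bt_le r1.1
      have b2 := M.tr.bt_le r2.1
      have b3 := M.tr.nonneg (M.u i) x
      have b4 := M.tr.nonneg (M.u i) y
      simp only [Finset.coe_sigma, Set.mem_sigma_iff, Finset.mem_coe, Finset.mem_range] at *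
      refine ⟨a1, ?_⟩
      omega
    · rintro ⟨i, ⟨x, y⟩, ⟨x', y'⟩⟩ ht ⟨j, ⟨z, w⟩, ⟨z', w'⟩⟩ hs e
      obtain ⟨⟨a1, a2, a3⟩, r1, r2⟩ := M.QMod_memE.1 (Finset.mem_coe.1 ht)
      obtain ⟨⟨b1, b2, b3⟩, s1, s2⟩ := M.QMod_memE.1 (Finset.mem_coe.1 hs)
      obtain ⟨rfl, e2⟩ := Sigma.mk.inj_iff.1 e
      have e3 := eq_of_heq e2
      obtain ⟨c1, c2⟩ := M.QMod_memA.1 a2
      obtain ⟨c3, c4⟩ := M.QMod_memA.1 b2
      have d1 := QMod_edge M.tr r1.1 r2.1 c1
      have d2 := QMod_edge M.tr s1.1 s2.1 c3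
      have n1 := M.tr.nonneg (M.u i) x
      have n2 := M.tr.nonneg (M.u i) y
      have n3 := M.tr.nonneg (M.u i) z
      have n4 := M.tr.nonneg (M.u i) w
      simp only at *
      have key : x = z ∧ y = w := by
        by_cases hxz : M.D (M.u i) x = M.D (M.u i) z
        · exact ⟨M.tr.bt_uniq r1.1 s1.1 hxz, M.tr.bt_uniq r2.1 s2.1 (by omega)⟩
        · have f1 : x = w := M.tr.bt_uniq r1.1 s2.1 (by omega)
          have := M.par_adj z w c3
          rw [← f1, c2, c4] at this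
          exact absurd rfl this
      obtain ⟨rfl, rfl⟩ := key
      rw [M.fn i x x' z' r1 s1, M.fn i y y' w' r2 s2]
  rw [Finset.card_sigma] at h1
  simp only [Finset.card_range] at h1
  have h2 : ((∑ i ∈ M.I, (M.D (M.u i) (M.v i)).toNat : ℕ) : ℤ) = ∑ i ∈ M.I, M.D (M.u i) (M.v i) := by
    push_cast
    exact Finset.sum_congr rfl fun i _ => Int.toNat_of_nonneg (M.tr.nonneg _ _)
  have h3 := M.cnt
  have h4 := M.QMod_cardA
  omega

/-- source of a step -/
def Model.QModS (M : Model G Ell Q) (t : M.QModE) : M.QModA :=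
  ⟨t.1.2.1, (M.QMod_memE.1 t.2).1.2.1⟩

/-- target of a step -/
def Model.QModT (M : Model G Ell Q) (t : M.QModE) : M.QModA :=
  ⟨t.1.2.2, (M.QMod_memE.1 t.2).1.2.2⟩

theorem Model.QMod_I (M : Model G Ell Q) {i : M.ι} {x y x' y' : M.V} (r1 : M.R i x x')
    (r2 : M.R i y y') (e : M.D x y = 1) : i ∈ M.I := by
  by_contra hi
  have h0 := M.hI i hi
  have b1 := M.tr.bt_le r1.1
  have b2 := M.tr.bt_le r2.1
  have c := QMod_edge M.tr r1.1 r2.1 e
  have n1 := M.tr.nonneg (M.u i) x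
  have n2 := M.tr.nonneg (M.u i) y
  rw [← h0, M.tr.self] at b1 b2
  omega

theorem Model.QMod_walk (M : Model G Ell Q) (a : M.QModA) {ω : FreeGroup M.ι} {p : M.V × M.V}
    (w : WPath (fun i (a b : M.V × M.V) => M.R i a.1 b.1 ∧ M.R i a.2 b.2) a.1 ω p) :
    ∃ hp : p ∈ M.QModA, GWalk M.QModS M.QModT (fun t => M.lab t.1.1) a
      (FreeGroup.lift M.lab ω) ⟨p, hp⟩ := by
  induction w with
  | nil => exact ⟨a.2, by rw [map_one]; exact GWalk.nil⟩
  | @fwd ω y z i _ r ih =>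
    obtain ⟨hy, ih⟩ := ih
    obtain ⟨c1, c2⟩ := M.QMod_memA.1 hy
    have hz : z ∈ M.QModA :=
      M.QMod_memA.2 ⟨(M.iso r.1 r.2).trans c1, (M.par_eq r.1).trans c2⟩
    refine ⟨hz, ?_⟩
    rw [map_mul, FreeGroup.lift_apply_of]
    exact GWalk.fwd (⟨(i, y, z), M.QMod_memE.2 ⟨⟨M.QMod_I r.1 r.2 c1, hy, hz⟩, r⟩⟩ : M.QModE) ih
  | @bwd ω y z i _ r ih =>
    obtain ⟨hy, ih⟩ := ih
    obtain ⟨c1, c2⟩ := M.QMod_memA.1 hy
    have c3 := (M.iso r.1 r.2).symm.trans c1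
    have hz : z ∈ M.QModA := M.QMod_memA.2 ⟨c3, (M.par_eq r.1).symm.trans c2⟩
    refine ⟨hz, ?_⟩
    rw [map_mul, map_inv, FreeGroup.lift_apply_of]
    exact GWalk.bwd (⟨(i, z, y), M.QMod_memE.2 ⟨⟨M.QMod_I r.1 r.2 c3, hz, hy⟩, r⟩⟩ : M.QModE) ih

section hat

variable {M : Model G Ell Q} {T : Type} [MulAction (FreeGroup M.ι) T] {d : T → T → ℤ}
  {pt : M.V → T}

theorem Hat.QMod_core (h : Hat M d pt) {ω : FreeGroup M.ι} {x x' : M.V}
    (w : WPath M.core x ω x') : ω • pt x = pt x' :=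
  (h.path ω x x').2 (w.mono M.core_le)

theorem Hat.QMod_rot (h : Hat M d pt) : Rot (FreeGroup M.ι) d (M.K pt) where
  zt := h.zt
  fix := by
    intro w a ha
    induction ha using closure_induction with
    | mem n hn =>
      obtain ⟨η, c, y, rfl, w1, -, rfl⟩ := hn
      rw [mul_smul, mul_smul, inv_smul_smul, h.QMod_core w1]
    | one => exact one_smul _ _
    | mul a b _ _ ha hb => rw [mul_smul, hb, ha]
    | inv a _ ha => rw [inv_smul_eq_iff, ha]
  conj := by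
    intro w a ha g
    induction ha using closure_induction with
    | mem n hn =>
      obtain ⟨η, c, y, rfl, w1, w2, rfl⟩ := hn
      exact subset_closure ⟨g * η, c, y, mul_smul _ _ _, w1, w2, by group⟩
    | one => simp
    | mul a b _ _ ha hb =>
      have := mul_mem ha hb
      rwa [show g * a * g⁻¹ * (g * b * g⁻¹) = g * (a * b) * g⁻¹ by group] at this
    | inv a _ ha =>
      have := inv_mem ha
      rwa [show (g * a * g⁻¹)⁻¹ = g * a⁻¹ * g⁻¹ by group] at this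
  compat := by
    intro w w' e a ha hw
    obtain ⟨ω, x, y, rfl, rfl⟩ := h.adj w w' e
    rw [h.zt.act.iso, h.iso] at e
    rw [h.nofold ha e hw]
    exact one_mem _

theorem QMod_ker (pt : M.V → T) {k : FreeGroup M.ι} (hk : FreeGroup.lift M.lab k = 1) :
    k ∈ closure {a | ∃ w, a ∈ M.K pt w} := by
  refine closure_mono ?_ (M.pres k hk)
  intro a ha
  obtain ⟨c, ⟨c1, x, c2⟩, c3⟩ := Group.mem_conjugatesOfSet_iff.1 ha
  obtain ⟨η, rfl⟩ := isConj_iff.1 c3
  exact ⟨η • pt x, subset_closure ⟨η, c, x, rfl, c2, c1, rfl⟩⟩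

theorem QMod_K_ker {t : T} {a : FreeGroup M.ι} (ha : a ∈ M.K pt t) :
    FreeGroup.lift M.lab a = 1 := by
  induction ha using closure_induction with
  | mem n hn =>
    obtain ⟨η, c, y, -, -, w2, rfl⟩ := hn
    simp [w2]
  | one => exact map_one _
  | mul a b _ _ ha hb => rw [map_mul, ha, hb, one_mul]
  | inv a _ ha => rw [map_inv, ha, inv_one]

end hat

theorem Model.dich (M : Model G Ell Q) : FreeSplit G ∨ CSplit G Ell Q := by
  obtain ⟨T, _, d, pt, h⟩ := M.hat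
  have rot := h.QMod_rot
  obtain ⟨W, _, e, q, hq⟩ := quot_tree h.zt (FreeGroup.lift M.lab) M.gen fun k hk =>
    Subgroup.closure_mono (fun a ha => ha.elim fun w ha =>
      And.intro (QMod_K_ker ha) (Exists.intro w (rot.fix w a ha))) (QMod_ker pt hk)
  have iso : ∀ a b, e (q (pt a)) (q (pt b)) = M.D a b := by
    intro a b
    refine M.tr.map_geod hq.zt.act.tr (fun x => q (pt x))
      (fun x y hxy => hq.adj _ _ ((h.iso x y).trans hxy)) ?_
    intro w' w w'' _ _ _ e1 e2 ne eq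
    rw [M.tr.symm] at e1
    obtain ⟨k, k1, k2⟩ := hq.nb rot (fun k hk => QMod_ker pt hk) ((h.iso _ _).trans e1)
      ((h.iso _ _).trans e2) eq
    have k3 : k = 1 := h.nofold (ω := 1) (x := w) (y := w') (y' := w'') (by simpa using k1) e1
      (by simpa using k2)
    rw [k3, one_smul] at k2
    have := h.iso w' w''
    rw [k2, h.zt.act.tr.self] at this
    exact ne (M.tr.eq_of this.symm)
  have bt : ∀ {a b c}, Bt M.D a b c → Bt e (q (pt a)) (q (pt b)) (q (pt c)) := by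
    intro a b c hb
    simp only [Bt, iso]
    exact hb
  have core : ∀ {ω x x'}, WPath M.core x ω x' →
      FreeGroup.lift M.lab ω • q (pt x) = q (pt x') := by
    intro ω x x' w
    rw [← hq.equi, h.QMod_core w]
  have walk : ∀ (a : M.QModA) (g : G), g • q (pt a.1.1) = q (pt a.1.1) →
      g • q (pt a.1.2) = q (pt a.1.2) →
      GWalk M.QModS M.QModT (fun t => M.lab t.1.1) a g a := by
    intro a g e1 e2
    have e0 := (h.iso _ _).trans (M.QMod_memA.1 a.2).1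
    obtain ⟨ω, rfl, w1, w2⟩ := hq.estab h.zt M.gen e0 e0 e1 e2
    exact (M.QMod_walk a (h.epath ω _ _ _ _ w1 w2)).2
  rcases graph_dich M.QModS M.QModT (fun t => M.lab t.1.1)
    (by simpa only [Fintype.card_coe] using M.QMod_cardE) with ⟨a, ha⟩ | hc
  · left
    have e0 := (M.QMod_memA.1 a.2).1
    obtain ⟨f, hf, f', hf', b1, b2⟩ := M.hull _ _ e0
    obtain ⟨ωp, p1, p2⟩ := M.hxp
    obtain ⟨ωm, m1, m2⟩ := M.hxm
    have ess : ∀ f ∈ M.F, (∃ g : G, g ≠ 1 ∧ g • q (pt f) = q (pt f)) ∨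
        ∃ g : G, g • q (pt M.x₀) = q (pt f) := by
      intro f hf
      rcases M.ess f hf with ⟨ω, w1, w2⟩ | ⟨ω, w1⟩
      · exact Or.inl ⟨_, w2, core w1⟩
      · exact Or.inr ⟨_, core w1⟩
    refine freeSplit_of_edge M.tf hq.zt ((iso _ _).trans e0)
      (fun g e1 e2 => ha g (walk a g e1 e2)) M.g0 (x₀ := q (pt M.x₀)) ?_ (bt b1) (bt b2) ?_
    · unfold Mn
      rw [← m2, core m1, ← p2, core p1]
      exact bt M.mn
    · rintro x (rfl | rfl)
      · exact ess f hf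
      · exact ess f' hf'
  · right
    refine ⟨W, inferInstance, e, hq.zt, ?_, ?_, ?_⟩
    · have key : ∀ (g : G) (x y : M.V), M.D x y = 1 → M.par x = false → ∃ c : G, ∀ a : G,
          a • g • q (pt x) = g • q (pt x) → a • g • q (pt y) = g • q (pt y) → a ∈ zpowers c := by
        intro g x y e1 e2
        obtain ⟨c, hc⟩ := hc ⟨(x, y), M.QMod_memA.2 ⟨e1, e2⟩⟩
        refine ⟨g * c * g⁻¹, fun a a1 a2 => ?_⟩
        obtain ⟨n, hn⟩ := hc (g⁻¹ * a * g) (walk _ _ (by rw [mul_smul, mul_smul, a1, inv_smul_smul])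
          (by rw [mul_smul, mul_smul, a2, inv_smul_smul]))
        refine ⟨n, ?_⟩
        simp only at hn ⊢
        rw [conj_zpow, hn]
        group
      intro a b ab
      obtain ⟨t, t', e1, rfl, rfl⟩ := hq.adj_lift ab
      obtain ⟨ω, x, y, rfl, rfl⟩ := h.adj t t' e1
      rw [h.zt.act.iso, h.iso] at e1
      rw [hq.equi, hq.equi]
      by_cases hx : M.par x = false
      · exact key _ x y e1 hx
      · have hy : M.par y = false := by
          have := M.par_adj x y e1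
          revert this hx
          cases M.par x <;> cases M.par y <;> simp
        obtain ⟨c, hc⟩ := key (FreeGroup.lift M.lab ω) y x (by rw [M.tr.symm]; exact e1) hy
        exact ⟨c, fun a a1 a2 => hc a a2 a1⟩
    · intro A hA
      obtain ⟨x, hx⟩ := M.hQ A hA
      refine ⟨q (pt x), fun a ha => ?_⟩
      obtain ⟨ω, w, rfl⟩ := hx a ha
      exact core w
    · intro v
      obtain ⟨t, rfl⟩ := hq.surj v
      let ψ : stabilizer (FreeGroup M.ι) t →* stabilizer G (q t) :=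
        ((FreeGroup.lift M.lab).comp (stabilizer (FreeGroup M.ι) t).subtype).codRestrict _
          fun a => by
            rw [mem_stabilizer_iff, MonoidHom.comp_apply, ← hq.equi]
            exact congrArg q a.2
      have hψ : ∀ a, (ψ a : G) = FreeGroup.lift M.lab a.1 := fun _ => rfl
      obtain ⟨W', _, e', z1, z2, z3⟩ := h.leaf t ψ
        (fun x => by
          obtain ⟨g, g1, g2⟩ := hq.stab M.gen x.2
          exact ⟨⟨g, g2⟩, Subtype.ext g1⟩)
        (fun a => ⟨fun ha => rot.mem (QMod_ker pt (by rw [← hψ, ha]; rfl)) a.2,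
          fun ha => Subtype.ext ((hψ a).trans (QMod_K_ker ha))⟩)
      refine ⟨W', inferInstance, e', z1, z2, fun w => ?_⟩
      obtain ⟨η, z, hz⟩ := z3 w
      refine M.ell_mono _ _ ?_ (M.ell_conj _ (FreeGroup.lift M.lab η) (M.fix z))
      rintro g ⟨x, x1, rfl⟩
      obtain ⟨a, c, rfl, a2, a3⟩ := hz x x1
      refine ⟨c, a2, ?_⟩
      rw [hψ, a3, map_mul, map_mul, map_inv]
      group

end Pool.Agent.Work.MP_904812_al
end

-- merged part: Pool.Agent.Work.MP_904812_al.QRel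
section
/-! Relative finite generation of vertex groups. -/

namespace Pool.Agent.Work.MP_904812_al

set_option linter.unusedSectionVars false
set_option linter.unusedVariables false

open Subgroup MulAction

variable {G V : Type} [Group G] [MulAction G V] {d : V → V → ℤ}

/-- a first step towards another vertex -/
theorem QRel_step (h : Tr d) (v : V) :
    ∃ dir : V → V, ∀ q, q ≠ v → d v (dir q) = 1 ∧ Bt d v (dir q) q := by
  have : ∀ q, ∃ w, q ≠ v → d v w = 1 ∧ Bt d v w q := by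
    intro q
    by_cases hq : q = v
    · exact ⟨v, fun h' => absurd hq h'⟩
    · have hp := h.pos (Ne.symm hq)
      obtain ⟨w, a, b⟩ := h.ex_bt v q (t := 1) (by omega) (by omega)
      exact ⟨w, fun _ => ⟨b, a⟩⟩
  choose dir hdir using this
  exact ⟨dir, hdir⟩

/-- different first steps: the vertex lies between the targets -/
theorem QRel_dir (h : Tr d) {v w w' q q' : V} (a : d v w = 1) (b : Bt d v w q)
    (a' : d v w' = 1) (b' : Bt d v w' q') (n : w ≠ w') : Bt d q v q' := by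
  obtain ⟨m, m1, m2, m3⟩ := h.med' v q q'
  by_cases hm : m = v
  · rw [hm] at m3; exact m3
  · have hp := h.pos (Ne.symm hm)
    have c1 := (h.bt_of_le b m1 (by omega)).1
    have c2 := (h.bt_of_le b' m2 (by omega)).1
    exact absurd (h.bt_uniq c1 c2 (by omega)) n

/-- a function on the group that is invariant under right multiplication by generators -/
theorem QRel_const {B : Type*} {X : Set G} (gen : closure X = ⊤) (c : G → B)
    (hc : ∀ s ∈ X, ∀ g, c (g * s) = c g) (g : G) : c g = c 1 := by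
  have key : ∀ s ∈ closure X, ∀ g, c (g * s) = c g := by
    intro s hs
    induction hs using closure_induction with
    | mem x hx => exact hc x hx
    | one => intro g; rw [mul_one]
    | mul x y _ _ hx hy => intro g; rw [← mul_assoc, hy, hx]
    | inv x _ hx =>
      intro g
      have := hx (g * x⁻¹)
      rw [inv_mul_cancel_right] at this
      exact this.symm
  have := key g (gen ▸ mem_top g) 1
  rwa [one_mul] at this

theorem QRel_main (zt : ZTree G d) (S : Finset G) {J : Type} (I : Finset J)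
    (p : J → V) (U : J → Subgroup G) (hU : ∀ j, ∀ a ∈ U j, a • p j = p j)
    (gen : closure ((S : Set G) ∪ {a | ∃ j ∈ I, a ∈ U j}) = ⊤) (v : V) :
    ∃ (T : Finset G) (W : Finset V) (x : J → G), (∀ t ∈ T, t • v = v) ∧ (∀ w ∈ W, d v w = 1) ∧
      ∀ g : G, g • v = v → g ∈ closure ((T : Set G) ∪ {a | a • v = v ∧ ∃ w ∈ W, a • w = w} ∪
        {a | ∃ j ∈ I, x j • p j = v ∧ (x j)⁻¹ * a * x j ∈ U j}) := by
  classical
  have h := zt.act.tr
  let F : Finset V := insert v (S.image (fun s => s • v) ∪ I.image p)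
  let A : Finset V := (h.hull_finite F).toFinset
  have hA : ∀ a, a ∈ A ↔ a ∈ Hull d F := fun a => Set.Finite.mem_toFinset _
  have Av : v ∈ A := (hA _).2 (h.mem_hull (Finset.mem_insert_self _ _))
  have As : ∀ s ∈ S, s • v ∈ A := fun s hs => (hA _).2 (h.mem_hull
    (Finset.mem_insert_of_mem (Finset.mem_union_left _ (Finset.mem_image_of_mem _ hs))))
  have Ap : ∀ j ∈ I, p j ∈ A := fun j hj => (hA _).2 (h.mem_hull
    (Finset.mem_insert_of_mem (Finset.mem_union_right _ (Finset.mem_image_of_mem _ hj))))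
  have Aconv : ∀ a ∈ A, ∀ b ∈ A, ∀ z, Bt d a z b → z ∈ A := fun a ha b hb z e =>
    (hA _).2 (h.hull_conv ((hA _).1 ha) ((hA _).1 hb) e)
  obtain ⟨τ, hτ⟩ : ∃ τ : V → G, ∀ (a : V) (g : G), g • a = v → τ a • v = a := by
    have : ∀ a : V, ∃ t : G, ∀ g : G, g • a = v → t • v = a := by
      intro a
      by_cases ha : ∃ g : G, g • a = v
      · obtain ⟨g, hg⟩ := ha
        exact ⟨g⁻¹, fun _ _ => by rw [← hg, inv_smul_smul]⟩
      · exact ⟨1, fun g hg => absurd ⟨g, hg⟩ ha⟩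
    choose τ hτ using this
    exact ⟨τ, hτ⟩
  obtain ⟨t, ht⟩ : ∃ t : (V × V) × (V × V) → G, ∀ (e : (V × V) × (V × V)) (g : G),
      g • e.1.1 = e.2.1 → g • e.1.2 = e.2.2 → t e • e.1.1 = e.2.1 ∧ t e • e.1.2 = e.2.2 := by
    have : ∀ e : (V × V) × (V × V), ∃ t : G, ∀ g : G,
        g • e.1.1 = e.2.1 → g • e.1.2 = e.2.2 → t • e.1.1 = e.2.1 ∧ t • e.1.2 = e.2.2 := by
      intro e
      by_cases he : ∃ g : G, g • e.1.1 = e.2.1 ∧ g • e.1.2 = e.2.2
      · obtain ⟨g, hg⟩ := he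
        exact ⟨g, fun _ _ _ => hg⟩
      · exact ⟨1, fun g a b => absurd ⟨g, a, b⟩ he⟩
    choose t ht using this
    exact ⟨t, ht⟩
  let T₀ : Finset G := insert (τ v)
    (((A ×ˢ A) ×ˢ (A ×ˢ A)).image (fun e => (τ e.2.1)⁻¹ * t e * τ e.1.1) ∪
      (S.image fun s => (τ (s • v))⁻¹ * s * τ v))
  let T : Finset G := T₀.filter fun g => g • v = v
  let W : Finset V := ((A ×ˢ A).image fun e => (τ e.1)⁻¹ • e.2).filter fun w => d v w = 1
  let x : J → G := fun j => (τ (p j))⁻¹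
  refine ⟨T, W, x, fun t ht => (Finset.mem_filter.1 ht).2, fun w hw => (Finset.mem_filter.1 hw).2,
    ?_⟩
  set H := closure ((T : Set G) ∪ {a | a • v = v ∧ ∃ w ∈ W, a • w = w} ∪
        {a | ∃ j ∈ I, x j • p j = v ∧ (x j)⁻¹ * a * x j ∈ U j}) with hH
  have HT : ∀ g ∈ T₀, g • v = v → g ∈ H := fun g hg e =>
    subset_closure (Or.inl (Or.inl (Finset.mem_coe.2 (Finset.mem_filter.2 ⟨hg, e⟩))))
  -- two descriptions of one edge
  have edge : ∀ (w a b a' b' : V) (k k' : G), d v w = 1 → a ∈ A → b ∈ A → a' ∈ A → b' ∈ A →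
      k • a = v → k • b = w → k' • a' = v → k' • b' = w →
      ((k' * τ a' : G) : G ⧸ H) = (k * τ a : G) := by
    intro w a b a' b' k k' hw ha hb ha' hb' e1 e2 e1' e2'
    rw [QuotientGroup.eq]
    have f1 : (k'⁻¹ * k) • a = a' := by rw [mul_smul, e1, ← e1', inv_smul_smul]
    have f2 : (k'⁻¹ * k) • b = b' := by rw [mul_smul, e2, ← e2', inv_smul_smul]
    obtain ⟨t1, t2⟩ := ht ((a, b), (a', b')) _ f1 f2
    have ta := hτ a k e1
    have ta' := hτ a' k' e1'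
    set u := t ((a, b), (a', b')) with hu
    simp only at t1 t2
    have m1 : (τ a')⁻¹ * u * τ a ∈ H := by
      apply HT
      · exact Finset.mem_insert_of_mem (Finset.mem_union_left _ (Finset.mem_image.2
          ⟨((a, b), (a', b')), by simp [ha, hb, ha', hb'], rfl⟩))
      · rw [mul_smul, mul_smul, ta, t1, inv_smul_eq_iff, ta']
    have m2 : (τ a)⁻¹ * (u⁻¹ * (k'⁻¹ * k)) * τ a ∈ H := by
      have g1 : (u⁻¹ * (k'⁻¹ * k)) • a = a := by rw [mul_smul, f1, ← t1, inv_smul_smul]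
      have g2 : (u⁻¹ * (k'⁻¹ * k)) • b = b := by rw [mul_smul, f2, ← t2, inv_smul_smul]
      have iv : (τ a)⁻¹ • a = v := by rw [inv_smul_eq_iff, ta]
      refine subset_closure (Or.inl (Or.inr ⟨?_, (τ a)⁻¹ • b, ?_, ?_⟩))
      · rw [mul_smul, mul_smul, ta, g1, iv]
      · refine Finset.mem_filter.2 ⟨Finset.mem_image.2 ⟨(a, b), by simp [ha, hb], rfl⟩, ?_⟩
        rw [← iv, zt.act.iso, ← zt.act.iso k, e1, e2, hw]
      · rw [mul_smul, mul_smul, smul_inv_smul, g2]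
    have := mul_mem m1 m2
    have e : (τ a')⁻¹ * u * τ a * ((τ a)⁻¹ * (u⁻¹ * (k'⁻¹ * k)) * τ a) =
        (k' * τ a')⁻¹ * (k * τ a) := by group
    rwa [e] at this
  obtain ⟨c', hc'⟩ : ∃ c' : V → G ⧸ H, ∀ (w a b : V) (k : G), d v w = 1 → a ∈ A → b ∈ A →
      k • a = v → k • b = w → c' w = (k * τ a : G) := by
    have : ∀ w : V, ∃ y : G ⧸ H, ∀ (a b : V) (k : G), d v w = 1 → a ∈ A → b ∈ A →
        k • a = v → k • b = w → y = (k * τ a : G) := by
      intro w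
      by_cases hw : ∃ (a b : V) (k : G), a ∈ A ∧ b ∈ A ∧ k • a = v ∧ k • b = w
      · obtain ⟨a', b', k', ha', hb', e1', e2'⟩ := hw
        exact ⟨(k' * τ a' : G), fun a b k hw ha hb e1 e2 =>
          edge w a b a' b' k k' hw ha hb ha' hb' e1 e2 e1' e2'⟩
      · exact ⟨(1 : G), fun a b k _ ha hb e1 e2 => absurd ⟨a, b, k, ha, hb, e1, e2⟩ hw⟩
    choose c' hc' using this
    exact ⟨c', hc'⟩
  obtain ⟨dir, hdir⟩ := QRel_step h v
  let c : G → G ⧸ H := fun g => if g⁻¹ • v ∈ A then (g * τ (g⁻¹ • v) : G) else c' (dir (g • v))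
  have c1 : ∀ (g : G) (a : V), a ∈ A → g • a = v → c g = (g * τ a : G) := by
    intro g a ha e
    have : g⁻¹ • v = a := by rw [← e, inv_smul_smul]
    simp only [c, this, if_pos ha]
  have c2 : ∀ (g : G) (a : V), a ∈ A → g • a ≠ v → c g = c' (dir (g • a)) := by
    intro g a ha e
    obtain ⟨d1, d2⟩ := hdir _ e
    by_cases hv : g⁻¹ • v ∈ A
    · have b : Bt d (g⁻¹ • v) (g⁻¹ • dir (g • a)) a := by
        have := zt.act.bt g⁻¹ d2
        rwa [inv_smul_smul] at this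
      rw [c1 g _ hv (smul_inv_smul _ _)]
      exact (hc' _ _ _ g d1 hv (Aconv _ hv _ ha _ b) (smul_inv_smul _ _) (smul_inv_smul _ _)).symm
    · have e' : g • v ≠ v := by
        intro e'
        apply hv
        rw [inv_smul_eq_iff.2 e'.symm]; exact Av
      obtain ⟨d1', d2'⟩ := hdir _ e'
      have : dir (g • v) = dir (g • a) := by
        by_contra n
        have b := zt.act.bt g⁻¹ (QRel_dir h d1' d2' d1 d2 n)
        rw [inv_smul_smul, inv_smul_smul] at b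
        exact hv (Aconv _ Av _ ha _ b)
      simp only [c, if_neg hv, this]
  have inv : ∀ s ∈ ((S : Set G) ∪ {a | ∃ j ∈ I, a ∈ U j}), ∀ g, c (g * s) = c g := by
    rintro s (hs | ⟨j, hj, hs⟩) g
    · have hs' : s ∈ S := hs
      by_cases e : (g * s) • v = v
      · have e2 : g • s • v = v := by rw [← mul_smul]; exact e
        rw [c1 _ _ Av e, c1 _ _ (As s hs') e2, eq_comm, QuotientGroup.eq]
        have : (g * τ (s • v))⁻¹ * (g * s * τ v) = (τ (s • v))⁻¹ * s * τ v := by group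
        rw [this]
        apply HT
        · exact Finset.mem_insert_of_mem (Finset.mem_union_right _ (Finset.mem_image_of_mem _ hs'))
        · rw [mul_smul, mul_smul, hτ v _ e, inv_smul_eq_iff, hτ _ _ e2]
      · have e2 : g • s • v ≠ v := by rw [← mul_smul]; exact e
        rw [c2 _ _ Av e, c2 _ _ (As s hs') e2, mul_smul]
    · have e0 : (g * s) • p j = g • p j := by rw [mul_smul, hU j s hs]
      by_cases e : g • p j = v
      · rw [c1 _ _ (Ap j hj) (e0.trans e), c1 _ _ (Ap j hj) e, eq_comm, QuotientGroup.eq]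
        have : (g * τ (p j))⁻¹ * (g * s * τ (p j)) = (τ (p j))⁻¹ * s * τ (p j) := by group
        rw [this]
        refine subset_closure (Or.inr ⟨j, hj, ?_, ?_⟩)
        · show (τ (p j))⁻¹ • p j = v
          rw [inv_smul_eq_iff, hτ _ _ e]
        · have : (x j)⁻¹ * ((τ (p j))⁻¹ * s * τ (p j)) * x j = s := by
            simp only [x]; group
          rw [this]; exact hs
      · rw [c2 _ _ (Ap j hj) (by rw [e0]; exact e), c2 _ _ (Ap j hj) e, e0]
  intro g hg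
  have e := QRel_const gen c inv g
  rw [c1 _ _ Av hg, c1 _ _ Av (one_smul _ _), eq_comm, QuotientGroup.eq] at e
  have tv : τ v ∈ H := HT _ (Finset.mem_insert_self _ _) (hτ v _ hg)
  have := mul_mem (mul_mem tv e) (inv_mem tv)
  have e' : τ v * ((1 * τ v)⁻¹ * (g * τ v)) * (τ v)⁻¹ = g := by group
  rwa [e'] at this

theorem relFG (zt : ZTree G d) (fin : FinE G d) (S : Finset G) {J : Type} (I : Finset J)
    (p : J → V) (U : J → Subgroup G) (hU : ∀ j, ∀ a ∈ U j, a • p j = p j)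
    (gen : closure ((S : Set G) ∪ {a | ∃ j ∈ I, a ∈ U j}) = ⊤) (v : V) :
    ∃ (T : Finset G) (W : Finset V) (x : J → G), (∀ t ∈ T, t • v = v) ∧ (∀ w ∈ W, d v w = 1) ∧
      ∀ g : G, g • v = v → g ∈ closure ((T : Set G) ∪ {a | a • v = v ∧ ∃ w ∈ W, a • w = w} ∪
        {a | ∃ j ∈ I, x j • p j = v ∧ (x j)⁻¹ * a * x j ∈ U j}) :=
  QRel_main zt S I p U hU gen v

theorem fg_stab (zt : ZTree G d) (fin : FinE G d) (fg : Group.FG G)
    (he : ∀ x y : V, d x y = 1 → (stabilizer G x ⊓ stabilizer G y).FG) (v : V) :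
    Group.FG (stabilizer G v) := by
  classical
  obtain ⟨S, hS⟩ := Group.fg_def.1 fg
  obtain ⟨T, W, x, hT, hW, hg⟩ := QRel_main zt S (J := Unit) ∅ (fun _ => v) (fun _ => ⊥)
    (fun j a ha => by rw [mem_bot.1 ha, one_smul]) (by simpa using hS) v
  rw [Group.fg_iff_subgroup_fg]
  have e : stabilizer G v = closure (T : Set G) ⊔ ⨆ w ∈ W, stabilizer G v ⊓ stabilizer G w := by
    apply le_antisymm
    · intro g hg'
      refine (closure_le _).2 ?_ (hg g hg')
      rintro a ((ha | ⟨ha, w, hw, e⟩) | ⟨j, hj, -⟩)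
      · exact mem_sup_left (subset_closure ha)
      · refine mem_sup_right ?_
        exact (le_iSup₂_of_le (f := fun w (_ : w ∈ W) => stabilizer G v ⊓ stabilizer G w) w hw
          le_rfl) ⟨ha, e⟩
      · simp at hj
    · refine sup_le ((closure_le _).2 fun t ht => hT t ht) (iSup₂_le fun w _ => inf_le_left)
  rw [e]
  exact Subgroup.FG.sup ⟨T, rfl⟩ (Subgroup.FG.biSup_finset W _ fun w hw => he v w (hW w hw))

/-- points on different sides of an edge -/
theorem QRel_side (h : Tr d) {x y z z' : V} (e : d x y = 1) (a : d z y = d z x + 1)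
    (b : ¬ d z' y = d z' x + 1) : Bt d z x z' ∧ Bt d z y z' := by
  have b' := (h.adj_cases e z').resolve_left b
  have := h.four z y x z'
  have := h.tri z x z'
  have := h.tri x y z'
  have := h.symm x z'
  have := h.symm y z'
  have := h.symm x y
  simp only [Bt]
  omega

/-- an edge on a geodesic between two translates of the hull lies in one translate -/
theorem QRel_edge (zt : ZTree G d) {X : Set G} (gen : closure X = ⊤) (F : Finset V)
    (hX : ∀ s ∈ X, ∃ a ∈ F, s • a ∈ F) {x y a b : V} {g g' : G} (e : d x y = 1)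
    (ha : a ∈ Hull d F) (hb : b ∈ Hull d F) (b1 : Bt d (g • a) x y) (b2 : Bt d x y (g' • b)) :
    ∃ k : G, k • x ∈ Hull d F ∧ k • y ∈ Hull d F := by
  have h := zt.act.tr
  by_contra hn
  push Not at hn
  have same : ∀ (k : G) (z z' : V), z ∈ Hull d F → z' ∈ Hull d F →
      d (k • z) y = d (k • z) x + 1 → d (k • z') y = d (k • z') x + 1 := by
    intro k z z' hz hz' s
    by_contra s'
    obtain ⟨c1, c2⟩ := QRel_side h e s s'
    have c1' := zt.act.bt k⁻¹ c1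
    have c2' := zt.act.bt k⁻¹ c2
    rw [inv_smul_smul, inv_smul_smul] at c1' c2'
    exact hn k⁻¹ (h.hull_conv hz hz' c1') (h.hull_conv hz hz' c2')
  let σ : G → Prop := fun k => d (k • a) y = d (k • a) x + 1
  have inv : ∀ s ∈ X, ∀ k, σ (k * s) = σ k := by
    intro s hs k
    obtain ⟨q, hq, hq'⟩ := hX s hs
    have q1 := h.mem_hull (d := d) hq
    have q2 := h.mem_hull (d := d) hq'
    apply propext
    constructor
    · intro u
      have := same _ _ _ ha q1 u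
      rw [mul_smul] at this
      exact same _ _ _ q2 ha this
    · intro u
      have := same _ _ _ ha q2 u
      rw [← mul_smul] at this
      exact same _ _ _ q1 ha this
  have e1 : σ g := by
    simp only [σ, Bt] at *
    omega
  have e2 : σ g' := by
    rw [QRel_const gen σ inv g', ← QRel_const gen σ inv g]; exact e1
  have := same _ _ _ ha hb e2
  have := h.symm (g' • b) y
  have := h.symm (g' • b) x
  simp only [Bt] at b2
  omega

theorem hier_of_tree (zt : ZTree G d) (ok : EdgeOK G d) {S : Finset G} {P : Finset (Subgroup G)}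
    (hg : RGen S P) (hP : ∀ A ∈ P, (∃ v : V, ∀ a ∈ A, a • v = v) ∨ ∃ c, A ≤ zpowers c)
    (ih : ∀ v : V, RFG (stabilizer G v) → Hier (stabilizer G v)) : Hier G := by
  classical
  have h := zt.act.tr
  obtain ⟨v₀⟩ := zt.act.ne
  obtain ⟨p, hp⟩ : ∃ p : Subgroup G → V, ∀ A : Subgroup G, (∃ v : V, ∀ a ∈ A, a • v = v) →
      ∀ a ∈ A, a • p A = p A := by
    have : ∀ A : Subgroup G, ∃ q : V, (∃ v : V, ∀ a ∈ A, a • v = v) → ∀ a ∈ A, a • q = q := by
      intro A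
      by_cases hA : ∃ v : V, ∀ a ∈ A, a • v = v
      · obtain ⟨v, hv⟩ := hA
        exact ⟨v, fun _ => hv⟩
      · exact ⟨v₀, fun h' => absurd h' hA⟩
    choose p hp using this
    exact ⟨p, hp⟩
  obtain ⟨c, hc⟩ : ∃ c : Subgroup G → G, ∀ A : Subgroup G, (∃ e, A ≤ zpowers e) →
      A ≤ zpowers (c A) := by
    have : ∀ A : Subgroup G, ∃ q : G, (∃ e, A ≤ zpowers e) → A ≤ zpowers q := by
      intro A
      by_cases hA : ∃ e, A ≤ zpowers e
      · obtain ⟨e, he⟩ := hA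
        exact ⟨e, fun _ => he⟩
      · exact ⟨1, fun h' => absurd h' hA⟩
    choose c hc using this
    exact ⟨c, hc⟩
  let I : Finset (Subgroup G) := P.filter fun A => ∃ v : V, ∀ a ∈ A, a • v = v
  let U : Subgroup G → Subgroup G := fun A => if A ∈ I then A else ⊥
  let S' : Finset G := S ∪ P.image c
  have hU : ∀ j, ∀ a ∈ U j, a • p j = p j := by
    intro j a ha
    by_cases hj : j ∈ I
    · simp only [U, if_pos hj] at ha
      exact hp j (Finset.mem_filter.1 hj).2 a ha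
    · simp only [U, if_neg hj] at ha
      rw [mem_bot.1 ha, one_smul]
  have gen : closure ((S' : Set G) ∪ {a | ∃ j ∈ I, a ∈ U j}) = ⊤ := by
    rw [eq_top_iff, ← hg.2, closure_le]
    rintro a (ha | ⟨A, hA, ha⟩)
    · exact subset_closure (Or.inl (Finset.mem_coe.2 (Finset.mem_union_left _ ha)))
    · rcases hP A hA with e | e
      · have hI : A ∈ I := Finset.mem_filter.2 ⟨hA, e⟩
        exact subset_closure (Or.inr ⟨A, hI, by simp only [U, if_pos hI]; exact ha⟩)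
      · refine (zpowers_le.2 ?_) (hc A e ha)
        exact subset_closure (Or.inl (Finset.mem_coe.2
          (Finset.mem_union_right _ (Finset.mem_image_of_mem _ hA))))
  -- vertex groups
  have hv : ∀ v : V, Hier (stabilizer G v) := by
    intro v
    apply ih
    obtain ⟨T, W, x, hT, hW, hgen⟩ := QRel_main zt S' I p U hU gen v
    let T' : Finset (stabilizer G v) := T.attach.image fun t => ⟨t.1, hT t.1 t.2⟩
    let Q : Subgroup G → Subgroup (stabilizer G v) := fun j =>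
      ((U j).comap (MulAut.conj (x j)⁻¹).toMonoidHom).subgroupOf (stabilizer G v)
    have hQ : ∀ j (a : stabilizer G v), a ∈ Q j ↔ (x j)⁻¹ * a.1 * x j ∈ U j := by
      intro j a
      simp [Q, mem_subgroupOf]
    let P' : Finset (Subgroup (stabilizer G v)) :=
      W.image (fun w => (stabilizer G w).subgroupOf (stabilizer G v)) ∪ I.image Q
    refine ⟨T'.card + P'.card, T', P', ⟨?_, ?_⟩, le_rfl⟩
    · intro A hA
      rcases Finset.mem_union.1 hA with hA | hA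
      · obtain ⟨w, hw, rfl⟩ := Finset.mem_image.1 hA
        intro a ha b hb
        have := (ok v w (hW w hw)).1 a.1 b.1 a.2 ha b.2 hb
        exact Subtype.ext this
      · obtain ⟨j, hj, rfl⟩ := Finset.mem_image.1 hA
        intro a ha b hb
        rw [hQ] at ha hb
        simp only [U, if_pos hj] at ha hb
        have := hg.1 j (Finset.mem_filter.1 hj).1 _ ha _ hb
        have e : a.1 * b.1 = b.1 * a.1 := by
          have e' : (x j)⁻¹ * a.1 * x j * ((x j)⁻¹ * b.1 * x j) =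
            (x j)⁻¹ * b.1 * x j * ((x j)⁻¹ * a.1 * x j) := this
          calc a.1 * b.1 = x j * ((x j)⁻¹ * a.1 * x j * ((x j)⁻¹ * b.1 * x j)) * (x j)⁻¹ := by group
            _ = x j * ((x j)⁻¹ * b.1 * x j * ((x j)⁻¹ * a.1 * x j)) * (x j)⁻¹ := by rw [e']
            _ = b.1 * a.1 := by group
        exact Subtype.ext e
    · rw [eq_top_iff]
      intro g _
      have key : closure ((T : Set G) ∪ {a | a • v = v ∧ ∃ w ∈ W, a • w = w} ∪
          {a | ∃ j ∈ I, x j • p j = v ∧ (x j)⁻¹ * a * x j ∈ U j}) ≤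
          (closure ((T' : Set (stabilizer G v)) ∪ {a | ∃ A ∈ P', a ∈ A})).map
            (stabilizer G v).subtype := by
        rw [closure_le]
        rintro a ((ha | ⟨ha, w, hw, e⟩) | ⟨j, hj, e, ha⟩)
        · refine ⟨⟨a, hT a ha⟩, subset_closure (Or.inl (Finset.mem_coe.2 ?_)), rfl⟩
          exact Finset.mem_image.2 ⟨⟨a, ha⟩, Finset.mem_attach _ _, rfl⟩
        · refine ⟨⟨a, ha⟩, subset_closure (Or.inr ⟨_, Finset.mem_union_left _
            (Finset.mem_image_of_mem _ hw), ?_⟩), rfl⟩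
          exact e
        · have ha' : a • v = v := by
            have := hU j _ ha
            rw [mul_smul, mul_smul, e, inv_smul_eq_iff, e] at this
            exact this
          refine ⟨⟨a, ha'⟩, subset_closure (Or.inr ⟨_, Finset.mem_union_right _
            (Finset.mem_image_of_mem _ hj), ?_⟩), rfl⟩
          exact (hQ j _).2 ha
      obtain ⟨g', hg', e⟩ := key (hgen g.1 g.2)
      have : g' = g := Subtype.ext e
      rw [← this]; exact hg'
  -- the invariant subtree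
  let F : Finset V := insert v₀ (S'.image (fun s => s • v₀) ∪ I.image p)
  have hX : ∀ s ∈ ((S' : Set G) ∪ {a | ∃ j ∈ I, a ∈ U j}), ∃ a ∈ F, s • a ∈ F := by
    rintro s (hs | ⟨j, hj, hs⟩)
    · exact ⟨v₀, Finset.mem_insert_self _ _, Finset.mem_insert_of_mem
        (Finset.mem_union_left _ (Finset.mem_image_of_mem _ hs))⟩
    · have : p j ∈ F :=
        Finset.mem_insert_of_mem (Finset.mem_union_right _ (Finset.mem_image_of_mem _ hj))
      exact ⟨p j, this, by rw [hU j s hs]; exact this⟩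
  let Y : SubMulAction G V :=
    { carrier := {y | ∃ (g : G) (a : V), a ∈ Hull d F ∧ g • a = y}
      smul_mem' := by
        rintro k y ⟨g, a, ha, rfl⟩
        exact ⟨k * g, a, ha, mul_smul _ _ _⟩ }
  have hY : ∀ y, y ∈ Y ↔ ∃ (g : G) (a : V), a ∈ Hull d F ∧ g • a = y := fun y => Iff.rfl
  have conv : ∀ a ∈ (Y : Set V), ∀ b ∈ (Y : Set V), ∀ q, Bt d a q b → q ∈ (Y : Set V) := by
    intro a ha b hb q e
    by_cases hq : a = q
    · rw [← hq]; exact ha
    obtain ⟨g, a', ha', rfl⟩ := (hY a).1 ha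
    obtain ⟨g', b', hb', rfl⟩ := (hY b).1 hb
    have hpos := h.pos hq
    obtain ⟨z, z1, z2⟩ := h.ex_bt (g • a') q (t := d (g • a') q - 1) (by omega) (by omega)
    have z3 : d z q = 1 := by simp only [Bt] at z1; omega
    obtain ⟨k, -, k2⟩ := QRel_edge zt gen F hX z3 ha' hb' z1 (h.bt_trans z1 e).2
    exact (hY q).2 ⟨k⁻¹, _, k2, inv_smul_smul _ _⟩
  have hfin : {e : Y × Y | e.1.1 ∈ Hull d F ∧ e.2.1 ∈ Hull d F}.Finite := by
    refine Set.Finite.of_finite_image (f := fun e : Y × Y => (e.1.1, e.2.1))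
      (((h.hull_finite F).prod (h.hull_finite F)).subset ?_) ?_
    · rintro _ ⟨e, he, rfl⟩
      exact he
    · intro e _ e' _ ee
      exact Prod.ext (Subtype.ext (congrArg Prod.fst ee)) (Subtype.ext (congrArg Prod.snd ee))
  refine Hier.step G Y (fun x y => d x.1 y.1) ⟨⟨Tr.sub h (Y : Set V) conv, ?_, ?_⟩, ?_⟩ ?_ ?_ ?_
  · exact ⟨⟨v₀, (hY _).2 ⟨1, v₀, h.mem_hull (Finset.mem_insert_self _ _), one_smul _ _⟩⟩⟩
  · intro g x y
    exact zt.act.iso g x.1 y.1
  · intro g x y e e1 e2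
    exact zt.noinv g x.1 y.1 e (congrArg Subtype.val e1) (congrArg Subtype.val e2)
  · refine ⟨hfin.toFinset, fun x y e => ?_⟩
    obtain ⟨g, a, ha, e1⟩ := (hY _).1 x.2
    obtain ⟨g', b, hb, e2⟩ := (hY _).1 y.2
    obtain ⟨k, k1, k2⟩ := QRel_edge zt gen F hX (g := g) (g' := g') e ha hb
      (by rw [e1]; exact h.bt_left _ _) (by rw [e2]; exact h.bt_right _ _)
    exact ⟨k, (Set.Finite.mem_toFinset _).2 ⟨k1, k2⟩⟩
  · intro x y e
    have fx : ∀ (a : G) (z : Y), a • z = z ↔ a • z.1 = z.1 := fun a z => Subtype.ext_iff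
    simp only [fx]
    exact ok x.1 y.1 e
  · intro y
    have e : stabilizer G y = stabilizer G y.1 := by
      ext a
      exact Subtype.ext_iff
    rw [e]
    exact hv y.1

end Pool.Agent.Work.MP_904812_al
end

-- merged part: Pool.Agent.Work.MP_904812_al.QCrs2
section
/-! Cylinders of the coarse real tree. -/

namespace Pool.Agent.Work.MP_904812_al

set_option linter.unusedSectionVars false
set_option linter.unusedVariables false

open Subgroup MulAction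

section aux

variable {G Y : Type} [Group G] [MulAction G Y] {d : Y → Y → ℝ}

/-- the characteristic set of `g` is a cylinder -/
def QCrs2Cy (d : Y → Y → ℝ) (g : G) : Prop :=
  g ≠ 1 ∧ (∃ a b, a ≠ b ∧ Mn d g a ∧ Mn d g b) ∧
    ∀ ε : ℝ, 0 < ε → ∃ k : G, k ≠ 1 ∧ Commute k g ∧ ∃ y, Mn d g y ∧ d y (k • y) < ε

/-- two points in a common cylinder -/
def QCrs2St (G : Type) [Group G] [MulAction G Y] (d : Y → Y → ℝ) (a b : Y) : Prop :=
  ∃ g : G, QCrs2Cy d g ∧ Mn d g a ∧ Mn d g b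

/-- the equivalence relation generated by the cylinders -/
def QCrs2R (G : Type) [Group G] [MulAction G Y] (d : Y → Y → ℝ) : Y → Y → Prop :=
  Relation.ReflTransGen (QCrs2St G d)

theorem QCrs2_small (h : Crs G d) {g : G} (c : QCrs2Cy d g) {ε : ℝ} (hε : 0 < ε) :
    ∃ k : G, k ≠ 1 ∧ Commute k g ∧ ∀ y, Mn d g y → Mn d k y ∧ d y (k • y) < ε := by
  obtain ⟨k, hk, ck, y, hy, e⟩ := c.2.2 ε hε
  refine ⟨k, hk, ck, fun z hz => ?_⟩
  have m1 := h.comm g k c.1 hk ck.symm y hy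
  have m2 := h.comm g k c.1 hk ck.symm z hz
  exact ⟨m2, by rw [h.act.QAx_len m2 m1]; exact e⟩

theorem QCrs2_conj_ne {g : G} (hg : g ≠ 1) (x : G) : x * g * x⁻¹ ≠ 1 := by
  intro e
  apply hg
  have : g = x⁻¹ * (x * g * x⁻¹) * x := by group
  rw [this, e]; simp

theorem QCrs2_conj (h : Crs G d) {g : G} (c : QCrs2Cy d g) (x : G) :
    QCrs2Cy d (x * g * x⁻¹) := by
  obtain ⟨hg, ⟨a, b, ab, ha, hb⟩, sm⟩ := c
  refine ⟨QCrs2_conj_ne hg x, ⟨x • a, x • b, fun e => ab (MulAction.injective x e),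
    h.act.mn_conj ha x, h.act.mn_conj hb x⟩, fun ε hε => ?_⟩
  obtain ⟨k, hk, ck, y, hy, e⟩ := sm ε hε
  refine ⟨x * k * x⁻¹, QCrs2_conj_ne hk x, ?_, x • y, h.act.mn_conj hy x, ?_⟩
  · show x * k * x⁻¹ * (x * g * x⁻¹) = x * g * x⁻¹ * (x * k * x⁻¹)
    calc x * k * x⁻¹ * (x * g * x⁻¹) = x * (k * g) * x⁻¹ := by group
      _ = x * (g * k) * x⁻¹ := by rw [ck.eq]
      _ = _ := by group
  · rw [mul_smul, mul_smul, inv_smul_smul, h.act.iso]
    exact e

theorem QCrs2_mn_conj_iff (h : Crs G d) (g x : G) (p : Y) :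
    Mn d (x * g * x⁻¹) p ↔ Mn d g (x⁻¹ • p) := by
  constructor
  · intro hp
    have := h.act.mn_conj hp x⁻¹
    rwa [show x⁻¹ * (x * g * x⁻¹) * x⁻¹⁻¹ = g by group] at this
  · intro hp
    have := h.act.mn_conj hp x
    rwa [smul_inv_smul] at this

theorem QCrs2_cyl (h : Crs G d) {g g' : G} (c : QCrs2Cy d g) (c' : QCrs2Cy d g') {a b : Y}
    (ab : a ≠ b) (ga : Mn d g a) (gb : Mn d g b) (ga' : Mn d g' a) (gb' : Mn d g' b) :
    Commute g g' := by
  have l := h.act.tr.pos ab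
  obtain ⟨k, hk, ck, sk⟩ := QCrs2_small h c (ε := d a b / 4) (by linarith)
  obtain ⟨k', hk', ck', sk'⟩ := QCrs2_small h c' (ε := d a b / 4) (by linarith)
  have e1 := (sk a ga).2
  have e2 := (sk' a ga').2
  have kk := h.ovl k k' a b (sk a ga).1 (sk b gb).1 (sk' a ga').1 (sk' b gb').1 (by linarith)
  exact h.nice.ct g k' g' hk' (h.nice.ct g k k' hk ck.symm kk) ck'

theorem QCrs2_tri (h : Crs G d) {g : G} (hg : g ≠ 1) :
    QCrs2Cy d g ∨ (∃ p, Mn d g p ∧ ∀ q, Mn d g q → q = p) ∨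
      ∀ A : Subgroup G, (∀ a ∈ A, Commute a g) → ∃ c ∈ A, A ≤ zpowers c := by
  obtain ⟨p, hp⟩ := h.act.semi_real g
  by_cases h1 : ∀ q, Mn d g q → q = p
  · exact Or.inr (Or.inl ⟨p, hp, h1⟩)
  by_cases h2 : QCrs2Cy d g
  · exact Or.inl h2
  right; right
  push Not at h1
  obtain ⟨q, hq, qp⟩ := h1
  have h3 : ∃ ε : ℝ, 0 < ε ∧ ∀ k : G, k ≠ 1 → Commute k g → ε ≤ d p (k • p) := by
    by_contra hc
    push Not at hc
    refine h2 ⟨hg, ⟨q, p, qp, hq, hp⟩, fun ε hε => ?_⟩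
    obtain ⟨k, hk, ck, e⟩ := hc ε hε
    exact ⟨k, hk, ck, p, hp, e⟩
  obtain ⟨ε, hε, he⟩ := h3
  intro A hA
  refine h.act.cyc_real hp (fun e => ?_) A hA hε fun a ha n => he a n (hA a ha)
  have := he g hg (Commute.refl g)
  rw [e, h.act.tr.self] at this
  linarith

theorem QCrs2_symm {a b : Y} (e : QCrs2R G d a b) : QCrs2R G d b a := by
  induction e with
  | refl => exact Relation.ReflTransGen.refl
  | tail _ s ih =>
    obtain ⟨g, c, x, y⟩ := s
    exact Relation.ReflTransGen.head ⟨g, c, y, x⟩ ih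

theorem QCrs2_inv (h : Crs G d) (x : G) {a b : Y} (e : QCrs2R G d a b) :
    QCrs2R G d (x • a) (x • b) := by
  induction e with
  | refl => exact Relation.ReflTransGen.refl
  | tail _ s ih =>
    obtain ⟨g, c, p, q⟩ := s
    exact Relation.ReflTransGen.tail ih
      ⟨x * g * x⁻¹, QCrs2_conj h c x, h.act.mn_conj p x, h.act.mn_conj q x⟩

theorem QCrs2_conv (h : Crs G d) {a p b : Y} (e : QCrs2R G d a b) (hp : Bt d a p b) :
    QCrs2R G d a p := by
  induction e with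
  | refl =>
    have := h.act.tr.bt_le hp
    rw [h.act.tr.self] at this
    have e := h.act.tr.eq_of (le_antisymm this (h.act.tr.nonneg a p))
    rw [← e]
    exact Relation.ReflTransGen.refl
  | @tail b' b e s ih =>
    obtain ⟨g, c, x, y⟩ := s
    rcases h.act.tr.bt_split hp b' with k | k
    · exact ih (h.act.tr.bt_symm k)
    · exact Relation.ReflTransGen.tail e ⟨g, c, x, h.act.mn_conv x y k⟩

/-- small translations along a segment which returns infinitely often to a hull -/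
theorem QCrs2_trans (h : Crs G d) (F : Finset Y) {a b : Y} (ab : a ≠ b)
    (inf : {g : G | g • a ∈ Hull d F ∧ g • b ∈ Hull d F}.Infinite) {ε : ℝ} (hε : 0 < ε) :
    ∃ k : G, k ≠ 1 ∧ ∃ η : ℝ, 0 ≤ η ∧ η < ε ∧ ∀ p, Bt d a p b → η ≤ d a p → η ≤ d p b →
      Mn d k p ∧ d p (k • p) = η := by
  classical
  have I := h.act
  have T := I.tr
  have ex : ∀ g : G, ∃ f f' : Y, (g • a ∈ Hull d F ∧ g • b ∈ Hull d F) →
      f ∈ F ∧ f' ∈ F ∧ Bt d f (g • a) f' ∧ Bt d f (g • b) f' ∧ Bt d f (g • a) (g • b) := by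
    intro g
    by_cases hg : g • a ∈ Hull d F ∧ g • b ∈ Hull d F
    · obtain ⟨f', hf', e'⟩ := T.hull_ext hg.2 (g • a)
      obtain ⟨f, hf, e⟩ := T.hull_ext hg.1 (g • b)
      have e2 := T.bt_symm e
      obtain ⟨k1, k2⟩ := QAx_glue T e2 e' (fun e => ab (MulAction.injective g e))
      exact ⟨f, f', fun _ => ⟨hf, hf', k1, k2, e2⟩⟩
    · exact ⟨a, a, fun c => absurd c hg⟩
  choose f f' hf using ex
  set D : ℝ := ∑ x ∈ F ×ˢ F, d x.1 x.2 with hD
  have hle : ∀ u ∈ F, ∀ v ∈ F, d u v ≤ D := fun u hu v hv =>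
    Finset.single_le_sum (f := fun x : Y × Y => d x.1 x.2) (s := F ×ˢ F)
      (fun x _ => T.nonneg x.1 x.2) (a := (u, v)) (Finset.mem_product.2 ⟨hu, hv⟩)
  obtain ⟨g, hg, g', hg', ne, e⟩ := inf.exists_ne_map_eq_of_mapsTo
    (f := fun g : G => (f g, f' g, ⌊d (f g) (g • a) / ε⌋))
    (t := ((F ×ˢ F ×ˢ Finset.Icc (0 : ℤ) ⌊D / ε⌋ : Finset (Y × Y × ℤ)) : Set (Y × Y × ℤ)))
    (by
      intro g hg
      obtain ⟨k1, k2, k3, -, -⟩ := hf g hg
      simp only [Finset.coe_product, Set.mem_prod, Finset.mem_coe, Finset.mem_Icc]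
      refine ⟨k1, k2, Int.floor_nonneg.2 (div_nonneg (T.nonneg _ _) hε.le), Int.floor_mono ?_⟩
      exact div_le_div_of_nonneg_right ((T.bt_le k3).trans (hle _ k1 _ k2)) hε.le)
    (Finset.finite_toSet _)
  simp only [Prod.mk.injEq] at e
  obtain ⟨e1, e2, e3⟩ := e
  obtain ⟨-, -, a1, a2, a3⟩ := hf g hg
  obtain ⟨-, -, b1, b2, b3⟩ := hf g' hg'
  rw [← e1] at b1 b2 b3 e3
  rw [← e2] at b1 b2
  set u := f g
  set v := f' g
  have close : |d u (g' • a) - d u (g • a)| < ε := by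
    have := Int.abs_sub_lt_one_of_floor_eq_floor e3.symm
    rw [← sub_div, abs_div, abs_of_pos hε, div_lt_one hε] at this
    exact this
  have along : ∀ x : G, Bt d u (x • b) v → Bt d u (x • a) (x • b) → ∀ p, Bt d a p b →
      Bt d u (x • p) v ∧ d u (x • p) = d u (x • a) + d a p := by
    intro x c1 c2 p hp
    have c3 := I.bt x hp
    obtain ⟨c4, c5⟩ := T.bt_trans' c2 c3
    refine ⟨(T.bt_trans c5 c1).1, ?_⟩
    have c6 : d u (x • a) + d (x • a) (x • p) = d u (x • p) := c4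
    rw [I.iso] at c6
    exact c6.symm
  refine ⟨g⁻¹ * g', fun e => ne (inv_mul_eq_one.1 e), |d u (g' • a) - d u (g • a)|,
    abs_nonneg _, close, fun p hp h1 h2 => ?_⟩
  refine I.mn_of_line (δ := d u (g' • a) - d u (g • a)) (fun p hp q1 q2 => ?_) hp h1 h2
  obtain ⟨q, hq, eq⟩ := T.ex_bt a b q1 q2
  obtain ⟨s1, s2⟩ := along g a2 a3 q hq
  obtain ⟨t1, t2⟩ := along g' b2 b3 p hp
  have : g • q = g' • p := T.bt_uniq s1 t1 (by rw [s2, t2, eq]; ring)
  have e4 : (g⁻¹ * g') • p = q := by rw [mul_smul, ← this, inv_smul_smul]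
  rw [e4]
  exact ⟨hq, eq⟩

theorem QCrs2_end (h : Crs G d) {g : G} {a b : Y} (ab : a ≠ b)
    (hi : ∀ p, Bt d a p b → 0 < d a p → 0 < d p b → Mn d g p) : Mn d g a := by
  have I := h.act
  have T := I.tr
  have l := T.pos ab
  obtain ⟨p, hp⟩ := I.semi_real g
  obtain ⟨m, hm, gate, -, -⟩ := I.mn_gate hp a
  by_cases e : a = m
  · rw [e]; exact hm
  exfalso
  have t := T.pos e
  have m1 := min_le_left (d a m) (d a b)
  have m2 := min_le_right (d a m) (d a b)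
  have m3 := lt_min t l
  obtain ⟨q, hq, eq⟩ := T.ex_bt a b (t := min (d a m) (d a b) / 2) (by linarith) (by linarith)
  have hq' : d a q + d q b = d a b := hq
  have := T.bt_le (gate q (hi q hq (by linarith) (by linarith)))
  linarith

theorem QCrs2_na (h : Crs G d) (F : Finset Y) (a b : Y) (n : ¬ QCrs2R G d a b) :
    {g : G | g • a ∈ Hull d F ∧ g • b ∈ Hull d F}.Finite := by
  by_contra inf
  have I := h.act
  have T := I.tr
  have ab : a ≠ b := by
    rintro rfl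
    exact n Relation.ReflTransGen.refl
  have l := T.pos ab
  have K := fun ε (hε : 0 < ε) => QCrs2_trans h F ab inf hε
  obtain ⟨p₁, hp₁, e₁⟩ := T.ex_bt a b (t := d a b / 4) (by linarith) (by linarith)
  obtain ⟨p₂, hp₂, e₂⟩ := T.ex_bt a b (t := 3 * d a b / 4) (by linarith) (by linarith)
  have hp₁' : d a p₁ + d p₁ b = d a b := hp₁
  have hp₂' : d a p₂ + d p₂ b = d a b := hp₂
  have e12 : d p₁ p₂ = d a b / 2 := by
    rw [T.bt_dist hp₁ hp₂, e₁, e₂, abs_of_neg (by linarith)]; ring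
  obtain ⟨k₀, hk₀, η₀, n₀, l₀, s₀⟩ := K (d a b / 8) (by linarith)
  obtain ⟨u₁, v₁⟩ := s₀ p₁ hp₁ (by linarith) (by linarith)
  obtain ⟨u₂, v₂⟩ := s₀ p₂ hp₂ (by linarith) (by linarith)
  have K' : ∀ ε : ℝ, 0 < ε → ∃ k : G, k ≠ 1 ∧ Commute k k₀ ∧ d p₁ (k • p₁) < ε ∧
      ∀ p, Bt d a p b → ε ≤ d a p → ε ≤ d p b → Mn d k p := by
    intro ε hε
    have m1 := min_le_left ε (d a b / 8)
    have m2 := min_le_right ε (d a b / 8)
    obtain ⟨k, hk, η, n', l', s⟩ := K (min ε (d a b / 8)) (lt_min hε (by linarith))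
    obtain ⟨x₁, y₁⟩ := s p₁ hp₁ (by linarith) (by linarith)
    obtain ⟨x₂, y₂⟩ := s p₂ hp₂ (by linarith) (by linarith)
    refine ⟨k, hk, h.ovl k k₀ p₁ p₂ x₁ x₂ u₁ u₂ (by linarith), by linarith, fun p hp c1 c2 => ?_⟩
    exact (s p hp (by linarith) (by linarith)).1
  have cy : QCrs2Cy d k₀ := by
    refine ⟨hk₀, ⟨p₁, p₂, ?_, u₁, u₂⟩, fun ε hε => ?_⟩
    · rintro rfl
      rw [T.self] at e12
      linarith
    · obtain ⟨k, hk, ck, e, -⟩ := K' ε hε
      exact ⟨k, hk, ck, p₁, u₁, e⟩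
  have int : ∀ p, Bt d a p b → 0 < d a p → 0 < d p b → Mn d k₀ p := by
    intro p hp c1 c2
    obtain ⟨k, hk, ck, -, s⟩ := K' (min (d a p) (d p b)) (lt_min c1 c2)
    exact h.comm k k₀ hk hk₀ ck p (s p hp (min_le_left _ _) (min_le_right _ _))
  refine n (Relation.ReflTransGen.single ⟨k₀, cy, QCrs2_end h ab int, QCrs2_end h ab.symm ?_⟩)
  intro p hp c1 c2
  exact int p (T.bt_symm hp) (by rwa [T.symm]) (by rwa [T.symm])

theorem QCrs2_fat (h : Crs G d) : Fat G d (QCrs2R G d) :=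
  ⟨h.act, h.nice.tf, ⟨fun _ => Relation.ReflTransGen.refl, QCrs2_symm,
    fun e e' => Relation.ReflTransGen.trans e e'⟩, fun g _ _ e => QCrs2_inv h g e,
    fun _ _ _ e hp => QCrs2_conv h e hp, QCrs2_na h⟩

theorem QCrs2_comm (h : Crs G d) (A : Subgroup G) (hA : Comm A) :
    (∃ c, A ≤ zpowers c) ∨ ∃ y, ∀ a ∈ A, QCrs2R G d (a • y) y := by
  by_cases h1 : ∃ g ∈ A, g ≠ 1
  · obtain ⟨g, hgA, hg⟩ := h1
    rcases QCrs2_tri h hg with c | ⟨p, hp, u⟩ | c
    · obtain ⟨y, -, -, hy, -⟩ := c.2.1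
      exact Or.inr ⟨y, fun a ha => Relation.ReflTransGen.single
        ⟨g, c, h.act.mn_smul hy (hA a ha g hgA), hy⟩⟩
    · refine Or.inr ⟨p, fun a ha => ?_⟩
      rw [u _ (h.act.mn_smul hp (hA a ha g hgA))]
      exact Relation.ReflTransGen.refl
    · obtain ⟨c, -, hc⟩ := c A fun a ha => hA a ha g hgA
      exact Or.inl ⟨c, hc⟩
  · push Not at h1
    exact Or.inl ⟨1, fun a ha => by rw [h1 a ha]; exact one_mem _⟩

/-- the stabiliser of a cylinder is the centraliser -/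
theorem QCrs2_stab (h : Crs G d) {g : G} (c : QCrs2Cy d g) (x : G) :
    (∀ p, Mn d g (x⁻¹ • p) ↔ Mn d g p) ↔ Commute x g := by
  constructor
  · intro e
    obtain ⟨a, b, ab, ha, hb⟩ := c.2.1
    refine h.nice.mal x g c.1 (QCrs2_cyl h (QCrs2_conj h c x) c ab ?_ ?_ ha hb)
    · exact (QCrs2_mn_conj_iff h g x a).2 ((e a).2 ha)
    · exact (QCrs2_mn_conj_iff h g x b).2 ((e b).2 hb)
  · intro e p
    refine ⟨fun hp => ?_, fun hp => h.act.mn_smul hp e.inv_left⟩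
    have := h.act.mn_smul hp e
    rwa [smul_inv_smul] at this

theorem QCrs2_hier (h : Crs G d) (H : Type) [Group H] (ι : H →* G) (hι : Function.Injective ι)
    (y : Y) (hy : ∀ a, QCrs2R G d (ι a • y) y) (hH : RFG H) : Hier H := by
  have I := h.act
  have T := I.tr
  let R : Set Y := {x | QCrs2R G d y x}
  have Rconv : ∀ a ∈ R, ∀ b ∈ R, ∀ p, Bt d a p b → p ∈ R := by
    intro a ha b hb p hp
    exact Relation.ReflTransGen.trans ha
      (QCrs2_conv h (Relation.ReflTransGen.trans (QCrs2_symm ha) hb) hp)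
  have Rinv : ∀ (k : H), ∀ x ∈ R, ι k • x ∈ R := fun k x hx =>
    Relation.ReflTransGen.trans (QCrs2_symm (hy k)) (QCrs2_inv h (ι k) hx)
  have Rcy : ∀ g : G, QCrs2Cy d g → ∀ a ∈ R, Mn d g a → ∀ z, Mn d g z → z ∈ R :=
    fun g c a ha ga z gz => Relation.ReflTransGen.tail ha ⟨g, c, ga, gz⟩
  let C : Type := {S : Set Y // ∃ g : G, QCrs2Cy d g ∧ (∀ x, x ∈ S ↔ Mn d g x) ∧ S ⊆ R}
  let Z : C → Set R := fun c => {x | x.1 ∈ c.1}
  obtain ⟨D, TD, adj, iso⟩ := bip_tree (T.sub R Rconv) Z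
    (by
      rintro ⟨S, g, c, hS, sub⟩
      obtain ⟨a, -, -, ha, -⟩ := c.2.1
      exact ⟨⟨a, sub ((hS a).2 ha)⟩, (hS a).2 ha⟩)
    (by
      rintro ⟨S, g, c, hS, sub⟩ a ha b hb p hp
      exact (hS _).2 (I.mn_conv ((hS _).1 ha) ((hS _).1 hb) hp))
    (by
      rintro ⟨S, g, c, hS, sub⟩ ⟨S', g', c', hS', sub'⟩ ne a b h1 h2 h3 h4
      by_contra ab
      apply ne
      have cm := QCrs2_cyl h c c' (a := a.1) (b := b.1) (fun e => ab (Subtype.ext e))
        ((hS _).1 h1) ((hS _).1 h3) ((hS' _).1 h2) ((hS' _).1 h4)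
      apply Subtype.ext
      ext x
      show x ∈ S ↔ x ∈ S'
      rw [hS, hS']
      exact ⟨h.comm g g' c.1 c'.1 cm x, h.comm g' g c'.1 c.1 cm.symm x⟩)
    (by
      rintro ⟨a, ha⟩ ⟨b, hb⟩
      have e : QCrs2R G d a b := Relation.ReflTransGen.trans (QCrs2_symm ha) hb
      induction e with
      | refl => exact Relation.ReflTransGen.refl
      | @tail b' b e s ih =>
        obtain ⟨g, c, x1, x2⟩ := s
        have hb' : b' ∈ R := Relation.ReflTransGen.trans ha e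
        refine Relation.ReflTransGen.tail (ih hb') ⟨⟨{x | Mn d g x}, g, c, fun x => Iff.rfl,
          fun z hz => Rcy g c b' hb' x1 z hz⟩, x1, x2⟩)
  let actR : MulAction H R :=
    { smul := fun k x => ⟨ι k • x.1, Rinv k x.1 x.2⟩
      one_smul := by
        intro z
        apply Subtype.ext
        show ι 1 • z.1 = z.1
        rw [map_one, one_smul]
      mul_smul := by
        intro k k' z
        apply Subtype.ext
        show ι (k * k') • z.1 = ι k • ι k' • z.1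
        rw [map_mul, mul_smul] }
  let actC : MulAction H C :=
    { smul := fun k c => ⟨{x | (ι k)⁻¹ • x ∈ c.1}, by
        obtain ⟨S, g, cy, hS, sub⟩ := c
        refine ⟨ι k * g * (ι k)⁻¹, QCrs2_conj h cy _, fun x => ?_, fun x hx => ?_⟩
        · rw [QCrs2_mn_conj_iff h]
          exact hS _
        · have := Rinv k _ (sub hx)
          rwa [smul_inv_smul] at this⟩
      one_smul := by
        intro c
        apply Subtype.ext
        ext x
        show (ι 1)⁻¹ • x ∈ c.1 ↔ x ∈ c.1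
        rw [map_one, inv_one, one_smul]
      mul_smul := by
        intro k k' c
        apply Subtype.ext
        ext x
        show (ι (k * k'))⁻¹ • x ∈ c.1 ↔ (ι k')⁻¹ • (ι k)⁻¹ • x ∈ c.1
        rw [map_mul, mul_inv_rev, mul_smul] }
  have sR : ∀ (k : H) (x : R), (k • x).1 = ι k • x.1 := fun _ _ => rfl
  have sC : ∀ (k : H) (c : C) x, x ∈ (k • c).1 ↔ (ι k)⁻¹ • x ∈ c.1 := fun _ _ _ => Iff.rfl
  have stC : ∀ (c : C), ∃ g : G, QCrs2Cy d g ∧ (∀ x, x ∈ c.1 ↔ Mn d g x) ∧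
      ∀ k : H, k • c = c ↔ Commute (ι k) g := by
    intro c
    obtain ⟨g, cy, hS, -⟩ := c.2
    refine ⟨g, cy, hS, fun k => ?_⟩
    rw [← QCrs2_stab h cy]
    constructor
    · intro e p
      rw [← hS, ← hS, ← sC, e]
    · intro e
      apply Subtype.ext
      ext x
      rw [sC, hS, hS]
      exact e x
  have cm : ∀ a b : H, Commute (ι a) (ι b) → Commute a b := fun a b e =>
    hι (by rw [map_mul, map_mul]; exact e)
  have comC : ∀ (c : C) (a b : H), a • c = c → b • c = c → Commute a b := by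
    intro c a b ha hb
    obtain ⟨g, cy, -, st⟩ := stC c
    exact cm a b (h.nice.ct _ g _ cy.1 ((st a).1 ha) ((st b).1 hb).symm)
  have root : ∀ (x : R) (c : C), x ∈ Z c → ∀ (a : H) (n : ℕ), 0 < n → a ^ n • x = x →
      a ^ n • c = c → a • x = x ∧ a • c = c := by
    intro x c hx a n hn e1 e2
    by_cases a1 : ι a = 1
    · have : a = 1 := hι (by rw [a1, map_one])
      rw [this]
      exact ⟨one_smul _ _, one_smul _ _⟩
    obtain ⟨g, cy, hS, st⟩ := stC c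
    have an : ι a ^ n ≠ 1 := fun e => a1 (h.nice.tf _ n hn e)
    have c1 := (st _).1 e2
    rw [map_pow] at c1
    have c2 := h.nice.ct (ι a) _ g an (Commute.self_pow _ n) c1
    refine ⟨Subtype.ext ?_, (st a).2 c2⟩
    have e3 := congrArg Subtype.val e1
    rw [sR, map_pow] at e3
    exact I.mn_ell (h.comm g (ι a) cy.1 a1 c2.symm _ ((hS _).1 hx)) hn e3
  have zt : ZTree H D := by
    refine ⟨⟨TD, ⟨Sum.inl ⟨y, Relation.ReflTransGen.refl⟩⟩, fun k a b => ?_⟩, ?_⟩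
    · refine iso (fun x => k • x) (fun c => k • c) (MulAction.bijective k) (MulAction.bijective k)
        (fun x c => ?_) a b
      show (k • x).1 ∈ (k • c).1 ↔ x.1 ∈ c.1
      rw [sC, sR, inv_smul_smul]
    · intro k a b e e1
      obtain ⟨x, c, -, ⟨rfl, rfl⟩ | ⟨rfl, rfl⟩⟩ := (adj a b).1 e
      · rw [Sum.smul_inl] at e1
        exact absurd e1 Sum.inl_ne_inr
      · rw [Sum.smul_inr] at e1
        exact absurd e1 Sum.inr_ne_inl
  have ok : EdgeOK H D := by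
    intro a b e
    obtain ⟨x, c, hx, ⟨rfl, rfl⟩ | ⟨rfl, rfl⟩⟩ := (adj a b).1 e
    · simp only [Sum.smul_inl, Sum.smul_inr, Sum.inl.injEq, Sum.inr.injEq]
      exact ⟨fun a b _ h1 _ h2 => comC c a b h1 h2, Or.inr (root x c hx)⟩
    · simp only [Sum.smul_inl, Sum.smul_inr, Sum.inl.injEq, Sum.inr.injEq]
      exact ⟨fun a b h1 _ h2 _ => comC c a b h1 h2,
        Or.inr fun a n hn e1 e2 => (root x c hx a n hn e2 e1).symm⟩
  obtain ⟨μ, S, P, hg, -⟩ := hH
  refine hier_of_tree zt ok hg (fun A hA => ?_) (fun v hv => ?_)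
  · have cA := hg.1 A hA
    by_cases h1 : ∃ a ∈ A, a ≠ 1
    · obtain ⟨a₀, ha₀, n₀⟩ := h1
      have g1 : ι a₀ ≠ 1 := fun e => n₀ (hι (by rw [e, map_one]))
      have ca : ∀ a ∈ A, Commute (ι a) (ι a₀) := fun a ha => (cA a ha a₀ ha₀).map ι
      obtain ⟨p, hp⟩ := I.semi_real (ι a₀)
      obtain ⟨m, hm, -, bm, -⟩ := I.mn_gate hp y
      have yR : y ∈ R := Relation.ReflTransGen.refl
      have mR : m ∈ R := Rconv y yR _ (Rinv a₀ y yR) m bm
      rcases QCrs2_tri h g1 with c | ⟨q, hq, u⟩ | c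
      · left
        refine ⟨Sum.inr ⟨{x | Mn d (ι a₀) x}, ι a₀, c, fun x => Iff.rfl,
          fun z hz => Rcy _ c m mR hm z hz⟩, fun a ha => ?_⟩
        rw [Sum.smul_inr]
        congr 1
        apply Subtype.ext
        ext x
        rw [sC]
        exact (QCrs2_stab h c (ι a)).2 (ca a ha) x
      · left
        refine ⟨Sum.inl ⟨m, mR⟩, fun a ha => ?_⟩
        rw [Sum.smul_inl]
        congr 1
        apply Subtype.ext
        rw [sR]
        exact (u _ (I.mn_smul hm (ca a ha))).trans (u _ hm).symm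
      · right
        obtain ⟨_, ⟨c₀, -, rfl⟩, hc⟩ := c (A.map ι) (by
          rintro _ ⟨a, ha, rfl⟩
          exact ca a ha)
        refine ⟨c₀, fun a ha => ?_⟩
        obtain ⟨n, hn⟩ := hc ⟨a, ha, rfl⟩
        exact ⟨n, hι (by rw [map_zpow]; exact hn)⟩
    · push Not at h1
      exact Or.inr ⟨1, fun a ha => by rw [h1 a ha]; exact one_mem _⟩
  · rcases v with x | c
    · refine h.low _ (ι.comp (stabilizer H (Sum.inl x : R ⊕ C)).subtype)
        (hι.comp Subtype.val_injective) ⟨x.1, fun k => ?_⟩ hv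
      have e : k.1 • (Sum.inl x : R ⊕ C) = Sum.inl x := k.2
      rw [Sum.smul_inl] at e
      exact congrArg Subtype.val (Sum.inl_injective e)
    · refine Hier.abel _ fun a b => ?_
      have ea : a.1 • (Sum.inr c : R ⊕ C) = Sum.inr c := a.2
      have eb : b.1 • (Sum.inr c : R ⊕ C) = Sum.inr c := b.2
      rw [Sum.smul_inr] at ea eb
      exact Subtype.ext (comC c a.1 b.1 (Sum.inr_injective ea) (Sum.inr_injective eb)).eq

end aux

theorem fat_of_crs {G Y : Type} [Group G] [MulAction G Y] {d : Y → Y → ℝ} (h : Crs G d) :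
    ∃ r : Y → Y → Prop, Fat G d r ∧
      (∀ A : Subgroup G, Comm A → (∃ c, A ≤ zpowers c) ∨ ∃ y, ∀ a ∈ A, r (a • y) y) ∧
      ∀ (H : Type) [Group H] (ι : H →* G), Function.Injective ι →
        (∃ y, ∀ a, r (ι a • y) y) → RFG H → Hier H := by
  refine ⟨QCrs2R G d, QCrs2_fat h, QCrs2_comm h, fun H _ ι hι hy hH => ?_⟩
  obtain ⟨y, hy⟩ := hy
  exact QCrs2_hier h H ι hι y hy hH

end Pool.Agent.Work.MP_904812_al
end

-- merged part: Pool.Agent.Work.MP_904812_al.QAb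
section
/-! Commutative subgroups are finitely generated. -/

namespace Pool.Agent.Work.MP_904812_al

set_option linter.unusedSectionVars false
set_option linter.unusedVariables false

open Subgroup MulAction

/-- conjugation invariant, additive on the centralisers, zero on `Φ` -/
def QAbH {G : Type} [Group G] (T Φ : Finset G) {B : Type} [AddCommGroup B] (φ : G → B) : Prop :=
  (∀ x a, φ (x * a * x⁻¹) = φ a) ∧
    (∀ t ∈ T, t ≠ 1 → ∀ a b, Commute a t → Commute b t → φ (a * b) = φ a + φ b) ∧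
    ∀ a ∈ Φ, φ a = 0

/-- a homomorphism that agrees with `φ` on the centralisers -/
def QAbE {G : Type} [Group G] (T : Finset G) {B : Type} [AddCommGroup B] (φ θ : G → B) : Prop :=
  (∀ a b, θ (a * b) = θ a + θ b) ∧ ∀ t ∈ T, t ≠ 1 → ∀ a, Commute a t → θ a = φ a

/-- the extension property -/
def QAbP (G : Type) [Group G] : Prop :=
  ∀ T : Finset G, ∃ Φ : Finset G, ∀ (B : Type) [AddCommGroup B] (φ : G → B),
    QAbH T Φ φ → ∃ θ, QAbE T φ θ

theorem QAb_supp {G : Type} (z : FreeAbelianGroup G) : ∃ F : Finset G,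
    ∀ (B : Type) [AddCommGroup B] (φ : G → B), (∀ a ∈ F, φ a = 0) →
      FreeAbelianGroup.lift φ z = 0 := by
  classical
  induction z using FreeAbelianGroup.induction_on with
  | zero => exact ⟨∅, fun B _ φ _ => map_zero _⟩
  | of x => exact ⟨{x}, fun B _ φ h => by
      rw [FreeAbelianGroup.lift_apply_of]; exact h x (by simp)⟩
  | neg x h =>
    obtain ⟨F, hF⟩ := h
    exact ⟨F, fun B _ φ h => by rw [map_neg, hF B φ h, neg_zero]⟩
  | add x y hx hy =>
    obtain ⟨F, hF⟩ := hx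
    obtain ⟨F', hF'⟩ := hy
    exact ⟨F ∪ F', fun B _ φ h => by
      rw [map_add, hF B φ fun a ha => h a (by simp [ha]), hF' B φ fun a ha => h a (by simp [ha]),
        add_zero]⟩

theorem QAb_univ {G : Type} [Group G] {T Φ : Finset G}
    (h : ∀ (B : Type) [AddCommGroup B] (φ : G → B), QAbH T Φ φ → ∃ θ, QAbE T φ θ)
    (S : Finset G) : ∃ Φ' : Finset G, ∀ (B : Type) [AddCommGroup B] (φ : G → B),
      QAbH T Φ' φ → ∃ θ, QAbE T φ θ ∧ ∀ s ∈ S, θ s = 0 := by
  classical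
  let R : AddSubgroup (FreeAbelianGroup G) :=
    { carrier := {z | ∀ (B : Type) [AddCommGroup B] (φ : G → B), QAbH T Φ φ →
        FreeAbelianGroup.lift φ z = 0}
      zero_mem' := fun B _ φ _ => map_zero _
      add_mem' := fun {a b} ha hb B _ φ h => by rw [map_add, ha B φ h, hb B φ h, add_zero]
      neg_mem' := fun {a} ha B _ φ h => by rw [map_neg, ha B φ h, neg_zero] }
  let m : FreeAbelianGroup G →+ FreeAbelianGroup G ⧸ R := QuotientAddGroup.mk' R
  have mz : ∀ z, z ∈ R → m z = 0 := fun z hz => (QuotientAddGroup.eq_zero_iff z).2 hz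
  obtain ⟨θ₀, h1, h2⟩ := h (FreeAbelianGroup G ⧸ R) (fun a => m (FreeAbelianGroup.of a)) (by
    refine ⟨fun x a => ?_, fun t ht t1 a b ca cb => ?_, fun a ha => mz _ fun B _ φ hφ => ?_⟩
    · rw [← sub_eq_zero, ← map_sub]
      refine mz _ fun B _ φ hφ => ?_
      rw [map_sub, FreeAbelianGroup.lift_apply_of, FreeAbelianGroup.lift_apply_of, hφ.1, sub_self]
    · rw [← sub_eq_zero, ← map_add, ← map_sub]
      refine mz _ fun B _ φ hφ => ?_
      rw [map_sub, map_add, FreeAbelianGroup.lift_apply_of, FreeAbelianGroup.lift_apply_of,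
        FreeAbelianGroup.lift_apply_of, hφ.2.1 t ht t1 a b ca cb, sub_self]
    · rw [FreeAbelianGroup.lift_apply_of]; exact hφ.2.2 a ha)
  have sj : ∀ s, ∃ z, m z = θ₀ s := fun s => QuotientAddGroup.mk'_surjective R _
  choose z hz using sj
  choose F hF using fun s => QAb_supp (z s)
  refine ⟨Φ ∪ S.biUnion F, fun B _ φ hφ => ?_⟩
  have hφ' : QAbH T Φ φ := ⟨hφ.1, hφ.2.1, fun a ha => hφ.2.2 a (by simp [ha])⟩
  let u : FreeAbelianGroup G ⧸ R →+ B :=
    QuotientAddGroup.lift R (FreeAbelianGroup.lift φ) fun z hz => hz B φ hφ'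
  have hu : ∀ z, u (m z) = FreeAbelianGroup.lift φ z := fun z => rfl
  refine ⟨fun a => u (θ₀ a), ⟨fun a b => by simp only [h1, map_add], fun t ht t1 a ca => ?_⟩,
    fun s hs => ?_⟩
  · simp only [h2 t ht t1 a ca, hu, FreeAbelianGroup.lift_apply_of]
  · show u (θ₀ s) = 0
    rw [← hz, hu]
    exact hF s B φ fun a ha => hφ.2.2 a (by
      simp only [Finset.mem_union, Finset.mem_biUnion]
      exact Or.inr ⟨s, hs, ha⟩)

theorem QAb_rep (G X : Type) [Group G] [MulAction G X] :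
    ∃ (r : X → X) (τ : X → G), (∀ (g : G) x, r (g • x) = r x) ∧ ∀ x, τ x • r x = x := by
  let r : X → X := fun x => (Quotient.mk (orbitRel G X) x).out
  have h : ∀ x, ∃ g : G, g • r x = x := fun x => by
    have : (orbitRel G X) x (r x) := Quotient.exact (Quotient.out_eq _).symm
    exact this
  choose τ hτ using h
  refine ⟨r, τ, fun g x => ?_, hτ⟩
  have : Quotient.mk (orbitRel G X) (g • x) = Quotient.mk (orbitRel G X) x :=
    Quotient.sound ⟨g, rfl⟩
  simp only [r, this]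

variable {G W : Type} [Group G] [MulAction G W] {e : W → W → ℤ} {C : W → Prop}

theorem QAb_ext (b : Bip G e C) {B : Type} [AddCommGroup B] (c : G → W → B)
    (coc : ∀ g h w, c (g * h) w = c g (h • w) + c h w)
    (ed : ∀ w w', e w w' = 1 → ∀ a : G, a • w = w → a • w' = w' → c a w = c a w') :
    ∃ θ : G → B, (∀ a b, θ (a * b) = θ a + θ b) ∧ ∀ (a : G) w, a • w = w → θ a = c a w := by
  classical
  have I := b.zt.act
  have T := I.tr
  obtain ⟨r, σ, h1, h2⟩ := QAb_rep G (W × W)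
  let f : W → W → B := fun w w' => c (σ (w, w')) (r (w, w')).2 - c (σ (w, w')) (r (w, w')).1
  have hf : ∀ (g : G) w w', e w w' = 1 →
      f (g • w) (g • w') = c g w' - c g w + f w w' := by
    intro g w w' he
    have r1 : r (g • w, g • w') = r (w, w') := h1 g (w, w')
    have a1 : σ (w, w') • (r (w, w')).1 = w := congrArg Prod.fst (h2 (w, w'))
    have a2 : σ (w, w') • (r (w, w')).2 = w' := congrArg Prod.snd (h2 (w, w'))
    have a3 : σ (g • w, g • w') • (r (w, w')).1 = g • w := by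
      have := congrArg Prod.fst (h2 (g • w, g • w'))
      rwa [r1] at this
    have a4 : σ (g • w, g • w') • (r (w, w')).2 = g • w' := by
      have := congrArg Prod.snd (h2 (g • w, g • w'))
      rwa [r1] at this
    have e1 : e (r (w, w')).1 (r (w, w')).2 = 1 := by
      rw [← I.iso (σ (w, w')), a1, a2, he]
    have s1 : ((σ (g • w, g • w'))⁻¹ * (g * σ (w, w'))) • (r (w, w')).1 = (r (w, w')).1 := by
      rw [mul_smul, mul_smul, a1, inv_smul_eq_iff, a3]
    have s2 : ((σ (g • w, g • w'))⁻¹ * (g * σ (w, w'))) • (r (w, w')).2 = (r (w, w')).2 := by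
      rw [mul_smul, mul_smul, a2, inv_smul_eq_iff, a4]
    have k := ed _ _ e1 _ s1 s2
    have k1 := coc (σ (g • w, g • w')) ((σ (g • w, g • w'))⁻¹ * (g * σ (w, w'))) (r (w, w')).1
    have k2 := coc (σ (g • w, g • w')) ((σ (g • w, g • w'))⁻¹ * (g * σ (w, w'))) (r (w, w')).2
    rw [mul_inv_cancel_left, s1, coc, a1] at k1
    rw [mul_inv_cancel_left, s2, coc, a2] at k2
    simp only [f, r1]
    rw [eq_sub_of_add_eq k1.symm, eq_sub_of_add_eq k2.symm, k]
    abel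
  let a : W → W → B := fun w w' => if C w' then f w w' else -f w' w
  have ha : ∀ (g : G) w w', e w w' = 1 →
      a (g • w) (g • w') = c g w' - c g w + a w w' := by
    intro g w w' he
    by_cases h : C w'
    · simp only [a, b.inv, h, if_true]
      exact hf g w w' he
    · simp only [a, b.inv, h, if_false]
      rw [hf g w' w (by rw [T.symm, he])]
      abel
  obtain ⟨l, hl⟩ := T.cobound a (fun x y he => by
    have := b.alt x y he
    by_cases h : C y
    · have : ¬ C x := by tauto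
      simp [a, h, this]
    · have : C x := by tauto
      simp [a, h, this])
  obtain ⟨o⟩ := I.ne
  have key : ∀ (g : G) w, c g w - l (g • w) + l w = c g o - l (g • o) + l o := by
    intro g
    refine T.ind_adj (x := o) rfl fun x y he h => ?_
    rw [← h]
    have k := ha g x y he
    rw [hl _ _ he, hl _ _ (by rw [I.iso, he])] at k
    rw [eq_add_of_sub_eq k]
    abel
  refine ⟨fun g => c g o - l (g • o) + l o, fun g h => ?_, fun g w hw => ?_⟩
  · show c (g * h) o - l ((g * h) • o) + l o =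
      (c g o - l (g • o) + l o) + (c h o - l (h • o) + l o)
    rw [← key g (h • o), coc, mul_smul]
    abel
  · show c g o - l (g • o) + l o = c g w
    rw [← key g w, hw]
    abel

theorem QAb_one {B : Type} [AddCommGroup B] {φ : G → B} (h : φ (1 * 1) = φ 1 + φ 1) :
    φ 1 = 0 := by
  rw [mul_one] at h
  exact left_eq_add.1 h

theorem QAb_vert (b : Bip G e C) {v : W} (hv : ¬ C v) (ih : QAbP (stabilizer G v)) :
    ∃ Φ : Finset G, ∀ (B : Type) [AddCommGroup B] (φ : G → B),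
      (∀ x a, φ (x * a * x⁻¹) = φ a) →
      (∀ c, C c → ∀ a a' : G, a • c = c → a' • c = c → φ (a * a') = φ a + φ a') →
      (∀ a ∈ Φ, φ a = 0) → ∃ θ : G → B,
        (∀ a a' : G, a • v = v → a' • v = v → θ (a * a') = θ a + θ a') ∧
        ∀ w, e v w = 1 → ∀ a : G, a • v = v → a • w = w → θ a = φ a := by
  classical
  obtain ⟨N, n1, -, n3⟩ := b.fin.nbr b.zt v
  have ex : ∀ w : W, ∃ k : stabilizer G v, (k : G) • w = w ∧
      ((∃ a : G, a ≠ 1 ∧ a • v = v ∧ a • w = w) → k ≠ 1) := by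
    intro w
    by_cases h : ∃ a : G, a ≠ 1 ∧ a • v = v ∧ a • w = w
    · obtain ⟨a, a1, a2, a3⟩ := h
      exact ⟨⟨a, a2⟩, a3, fun _ e => a1 (congrArg Subtype.val e)⟩
    · exact ⟨1, by simp, fun h' => absurd h' h⟩
  choose k k1 k2 using ex
  have cw : ∀ w, e v w = 1 → C w := fun w hw => by
    have := b.alt v w hw
    tauto
  obtain ⟨Φ, hΦ⟩ := ih (N.image k)
  refine ⟨Φ.image Subtype.val, fun B _ φ h1 h2 h3 => ?_⟩
  obtain ⟨θ, t1, t2⟩ := hΦ B (fun a => φ a) (by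
    refine ⟨fun x a => h1 _ _, fun t ht ne a a' ca ca' => ?_,
      fun a ha => h3 _ (Finset.mem_image_of_mem _ ha)⟩
    obtain ⟨w, hw, rfl⟩ := Finset.mem_image.1 ht
    have ne' : (k w : G) ≠ 1 := fun e => ne (Subtype.ext e)
    have c := cw w (n1 w hw)
    exact h2 w c _ _ ((b.stab ne' c (k1 w) _).2 (ca.map (stabilizer G v).subtype))
      ((b.stab ne' c (k1 w) _).2 (ca'.map (stabilizer G v).subtype)))
  have t0 : θ 1 = 0 := QAb_one (t1 1 1)
  refine ⟨fun a => if h : a • v = v then θ ⟨a, h⟩ else 0, fun a a' ha ha' => ?_,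
    fun w hw a ha haw => ?_⟩
  · have : (a * a') • v = v := by rw [mul_smul, ha', ha]
    simp only [ha, ha', this, dif_pos]
    exact t1 ⟨a, ha⟩ ⟨a', ha'⟩
  · simp only [ha, dif_pos]
    by_cases a1 : a = 1
    · subst a1
      rw [QAb_one (h2 w (cw w hw) 1 1 haw haw)]
      exact t0
    obtain ⟨g, g1, g2⟩ := n3 w hw
    have f1 : (g * a * g⁻¹) • v = v := by
      rw [mul_smul, mul_smul, inv_smul_eq_iff.2 g1.symm, ha, g1]
    have f2 : (g * a * g⁻¹) • g • w = g • w := by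
      rw [mul_smul, mul_smul, inv_smul_smul, haw]
    have ne : k (g • w) ≠ 1 := k2 _ ⟨g * a * g⁻¹, fun e => a1 (by simpa using e), f1, f2⟩
    have := t2 _ (Finset.mem_image_of_mem _ g2) ne ⟨g * a * g⁻¹, f1⟩
      (Subtype.ext (b.comm _ (cw _ (n1 _ g2)) _ _ f2 (k1 _)))
    simp only [h1] at this
    rw [← this]
    have e1 : (⟨g * a * g⁻¹, f1⟩ : stabilizer G v) = ⟨g, g1⟩ * ⟨a, ha⟩ * ⟨g, g1⟩⁻¹ := rfl
    have e2 := t1 ⟨g, g1⟩ ⟨g, g1⟩⁻¹
    rw [mul_inv_cancel, t0] at e2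
    rw [e1, t1, t1, add_right_comm, ← e2, zero_add]

theorem QAb_glue (b : Bip G e C) (ih : ∀ v, ¬ C v → QAbP (stabilizer G v)) :
    ∃ Φ : Finset G, ∀ (B : Type) [AddCommGroup B] (φ : G → B),
      (∀ x a, φ (x * a * x⁻¹) = φ a) →
      (∀ c, C c → ∀ a a' : G, a • c = c → a' • c = c → φ (a * a') = φ a + φ a') →
      (∀ a ∈ Φ, φ a = 0) → ∃ θ : G → B, (∀ a a', θ (a * a') = θ a + θ a') ∧
        ∀ c, C c → ∀ a : G, a • c = c → θ a = φ a := by
  classical
  have I := b.zt.act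
  obtain ⟨r, τ, h1, h2⟩ := QAb_rep G W
  obtain ⟨N, hN⟩ := b.fin.vert b.zt
  have ex : ∀ v, ∃ Φ : Finset G, ∀ (B : Type) [AddCommGroup B] (φ : G → B),
      (∀ x a, φ (x * a * x⁻¹) = φ a) →
      (∀ c, C c → ∀ a a' : G, a • c = c → a' • c = c → φ (a * a') = φ a + φ a') →
      (∀ a ∈ Φ, φ a = 0) → ∃ θ : G → B,
        (∀ a a' : G, a • v = v → a' • v = v → θ (a * a') = θ a + θ a') ∧
        (∀ w, e v w = 1 → ∀ a : G, a • v = v → a • w = w → θ a = φ a) ∧
        (C v → θ = φ) := by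
    intro v
    by_cases hv : C v
    · exact ⟨∅, fun B _ φ _ k _ => ⟨φ, k v hv, fun _ _ _ _ _ => rfl, fun _ => rfl⟩⟩
    · obtain ⟨Φ, hΦ⟩ := QAb_vert b hv (ih v hv)
      refine ⟨Φ, fun B _ φ k1 k2 k3 => ?_⟩
      obtain ⟨θ, t1, t2⟩ := hΦ B φ k1 k2 k3
      exact ⟨θ, t1, t2, fun h => absurd h hv⟩
  choose Φ hΦ using ex
  refine ⟨N.biUnion fun v => Φ (r v), fun B _ φ k1 k2 k3 => ?_⟩
  have ex2 : ∀ v, ∃ θ : G → B, (∃ w, v = r w) →
      (∀ a a' : G, a • v = v → a' • v = v → θ (a * a') = θ a + θ a') ∧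
        (∀ w, e v w = 1 → ∀ a : G, a • v = v → a • w = w → θ a = φ a) ∧
        (C v → θ = φ) := by
    intro v
    by_cases hv : ∃ w, v = r w
    · obtain ⟨w, rfl⟩ := hv
      obtain ⟨g, hg⟩ := hN w
      obtain ⟨θ, hθ⟩ := hΦ (r w) B φ k1 k2 fun a ha => k3 a (by
        simp only [Finset.mem_biUnion]
        exact ⟨_, hg, by rwa [h1]⟩)
      exact ⟨θ, fun _ => hθ⟩
    · exact ⟨φ, fun h => absurd h hv⟩
  choose θ hθ using ex2
  have fx : ∀ (g : G) w, ((τ (g • w))⁻¹ * g * τ w) • r w = r w := fun g w => by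
    rw [mul_smul, mul_smul, h2, inv_smul_eq_iff, ← h1 g w, h2]
  have cj : ∀ (a : G) w, φ ((τ w)⁻¹ * a * τ w) = φ a := fun a w => by
    have := k1 (τ w)⁻¹ a
    rwa [inv_inv] at this
  have ed : ∀ w w', e w w' = 1 → ∀ a : G, a • w = w → a • w' = w' →
      θ (r w) ((τ (a • w))⁻¹ * a * τ w) = φ a := by
    intro w w' he a ha ha'
    rw [(hθ (r w) ⟨w, rfl⟩).2.1 ((τ w)⁻¹ • w') ?_ _ (fx a w) ?_, ha, cj]
    · rw [← I.iso (τ w), h2, smul_inv_smul, he]
    · rw [ha, mul_smul, mul_smul, smul_inv_smul, ha']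
  obtain ⟨ϑ, t1, t2⟩ := QAb_ext b (fun g w => θ (r w) ((τ (g • w))⁻¹ * g * τ w))
    (fun g h w => by
      have f1 := fx g (h • w)
      rw [h1] at f1 ⊢
      rw [← (hθ (r w) ⟨w, rfl⟩).1 _ _ f1 (fx h w), mul_smul]
      congr 1
      group)
    (fun w w' he a ha ha' => by
      rw [ed w w' he a ha ha', ed w' w (by rw [I.tr.symm, he]) a ha' ha])
  refine ⟨ϑ, t1, fun c hc a ha => ?_⟩
  have : C (r c) := by rw [← b.inv (τ c), h2]; exact hc
  rw [t2 a c ha, (hθ (r c) ⟨c, rfl⟩).2.2 this, ha, cj]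

theorem QAb_ell (b : Bip G e C) (ih : ∀ v, ¬ C v → QAbP (stabilizer G v)) (T : Finset G)
    (hT : ∀ t ∈ T, ∃ c, C c ∧ t • c = c) :
    ∃ Φ : Finset G, ∀ (B : Type) [AddCommGroup B] (φ : G → B),
      QAbH T Φ φ → ∃ θ, QAbE T φ θ := by
  classical
  obtain ⟨Φ, hΦ⟩ := QAb_glue b ih
  refine ⟨Φ, fun B _ φ ⟨h1, h2, h3⟩ => ?_⟩
  let P : G → Prop := fun a => ∃ t ∈ T, t ≠ 1 ∧ ∃ x, Commute (x * a * x⁻¹) t
  obtain ⟨θ, t1, t2⟩ := hΦ B (fun a => if P a then φ a else 0) (fun x a => by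
    have : P (x * a * x⁻¹) ↔ P a := by
      constructor
      · rintro ⟨t, ht, ne, y, c⟩
        exact ⟨t, ht, ne, y * x, by convert c using 1; group⟩
      · rintro ⟨t, ht, ne, y, c⟩
        exact ⟨t, ht, ne, y * x⁻¹, by convert c using 1; group⟩
    simp only [this, h1]) (fun c hc a a' ha ha' => by
    by_cases h : ∃ t ∈ T, t ≠ 1 ∧ ∃ x : G, t • x • c = x • c
    · obtain ⟨t, ht, ne, x, hx⟩ := h
      have k : ∀ a : G, a • c = c → Commute (x * a * x⁻¹) t := fun a ha =>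
        (b.stab ne ((b.inv x c).2 hc) hx _).1 (by rw [mul_smul, mul_smul, inv_smul_smul, ha])
      have p : ∀ a : G, a • c = c → P a := fun a ha => ⟨t, ht, ne, x, k a ha⟩
      have haa : (a * a') • c = c := by rw [mul_smul, ha', ha]
      simp only [p a ha, p a' ha', p _ haa, if_true]
      rw [← h1 x a, ← h1 x a', ← h2 t ht ne _ _ (k a ha) (k a' ha'), ← h1 x (a * a')]
      congr 1
      group
    · have z : ∀ a : G, a • c = c → (if P a then φ a else 0) = 0 := by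
        intro a ha
        split_ifs with p
        · obtain ⟨t, ht, ne, x, cx⟩ := p
          obtain ⟨c', hc', e'⟩ := hT t ht
          rcases b.acyl (x * a * x⁻¹) (x • c) c' ((b.inv x c).2 hc) hc'
            (by rw [mul_smul, mul_smul, inv_smul_smul, ha]) ((b.stab ne hc' e' _).2 cx) with q | q
          · have : a = 1 := by simpa using q
            rw [this]
            exact QAb_one (h2 t ht ne 1 1 (Commute.one_left _) (Commute.one_left _))
          · exact absurd ⟨t, ht, ne, x, by rw [q, e']⟩ h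
        · rfl
      have haa : (a * a') • c = c := by rw [mul_smul, ha', ha]
      simp only [z a ha, z a' ha', z _ haa, add_zero])
    (fun a ha => by simp only [h3 a ha, ite_self])
  refine ⟨θ, t1, fun t ht ne a ca => ?_⟩
  obtain ⟨c, hc, e'⟩ := hT t ht
  have p : P a := ⟨t, ht, ne, 1, by simpa using ca⟩
  rw [t2 c hc a ((b.stab ne hc e' _).2 ca)]
  simp only [p, if_true]

theorem QAb_zpow {B : Type} [AddCommGroup B] {φ : G → B} {k : G}
    (h : ∀ a ∈ zpowers k, ∀ b ∈ zpowers k, φ (a * b) = φ a + φ b) (hk : φ k = 0) :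
    ∀ a ∈ zpowers k, φ a = 0 := by
  have h0 : φ 1 = 0 := QAb_one (h 1 (one_mem _) 1 (one_mem _))
  rintro _ ⟨n, rfl⟩
  induction n using Int.induction_on with
  | zero => simpa using h0
  | succ n ih =>
    simp only at ih ⊢
    rw [zpow_add_one, h _ (zpow_mem_zpowers _ _) _ (mem_zpowers _), ih, hk, add_zero]
  | pred n ih =>
    simp only at ih ⊢
    have := h (k ^ (-(n : ℤ) - 1)) (zpow_mem_zpowers _ _) _ (mem_zpowers k)
    rw [← zpow_add_one, sub_add_cancel, ih, hk, add_zero] at this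
    exact this.symm

theorem QAb_step (b : Bip G e C) (ih : ∀ v, ¬ C v → QAbP (stabilizer G v)) (T : Finset G)
    (hT : ∀ t ∈ T, (∃ c, C c ∧ t • c = c) ∨ ∀ w : W, t • w ≠ w) :
    ∃ Φ : Finset G, ∀ (B : Type) [AddCommGroup B] (φ : G → B),
      QAbH T Φ φ → ∃ θ, QAbE T φ θ := by
  classical
  obtain ⟨Φ, hΦ⟩ := QAb_ell b ih (T.filter fun t => ∃ c, C c ∧ t • c = c)
    fun t ht => (Finset.mem_filter.1 ht).2
  have ex : ∀ t : G, ∃ k : G, (∀ w : W, t • w ≠ w) → ∀ a, Commute a t ↔ a ∈ zpowers k := by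
    intro t
    by_cases h : ∀ w : W, t • w ≠ w
    · obtain ⟨k, hk, -⟩ := b.hyp_cyc h
      exact ⟨k, fun _ => hk⟩
    · exact ⟨1, fun h' => absurd h' h⟩
  choose k hk using ex
  obtain ⟨Φ', hΦ'⟩ := QAb_univ hΦ (T.image k)
  refine ⟨Φ' ∪ T.image k, fun B _ φ ⟨h1, h2, h3⟩ => ?_⟩
  obtain ⟨θ, ⟨t1, t2⟩, t3⟩ := hΦ' B φ ⟨h1, fun t ht => h2 t (Finset.mem_filter.1 ht).1,
    fun a ha => h3 a (Finset.mem_union_left _ ha)⟩
  refine ⟨θ, t1, fun t ht ne a ca => ?_⟩
  rcases hT t ht with h | h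
  · exact t2 t (Finset.mem_filter.2 ⟨ht, h⟩) ne a ca
  · have m := Finset.mem_image_of_mem k ht
    have ha := (hk t h a).1 ca
    rw [QAb_zpow (fun a _ b _ => t1 a b) (t3 _ m) a ha,
      QAb_zpow (fun a ha b hb => h2 t ht ne a b ((hk t h a).2 ha) ((hk t h b).2 hb))
        (h3 _ (Finset.mem_union_right _ m)) a ha]

theorem QAb_hier {G : Type} [Group G] (h : Hier G) : Nice G → QAbP G := by
  induction h with
  | abel G h =>
    intro _ T
    refine ⟨∅, fun B _ φ ⟨_, h2, _⟩ => ?_⟩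
    by_cases q : ∃ t ∈ T, t ≠ 1
    · obtain ⟨t, ht, ne⟩ := q
      exact ⟨φ, fun a b => h2 t ht ne a b (h _ _) (h _ _), fun _ _ _ _ _ => rfl⟩
    · exact ⟨fun _ => 0, fun _ _ => by simp, fun t ht ne => absurd ⟨t, ht, ne⟩ q⟩
  | step G V d zt fin ok _ ih =>
    intro nice T
    obtain ⟨W, j, e, C, b, h1, h2⟩ := ex_bip nice zt fin ok T
    refine QAb_step b (fun w hw => ?_) T h2
    obtain ⟨v, hv⟩ := h1 w hw
    rw [hv]
    exact ih v (nice.of_inj (stabilizer G v).subtype Subtype.val_injective)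

theorem abfg_of_hier {G : Type} [Group G] (h : Hier G) (nice : Nice G) (fg : Group.FG G) :
    AbFG G := by
  classical
  intro A hA
  by_cases h1 : ∃ g ∈ A, g ≠ 1
  swap
  · push Not at h1
    rw [(Subgroup.eq_bot_iff_forall A).2 h1]
    exact Subgroup.FG.bot
  obtain ⟨g, hg, g1⟩ := h1
  let M : Subgroup G := centralizer {g}
  have mem : ∀ a, a ∈ M ↔ Commute a g := fun a => by
    rw [mem_centralizer_singleton_iff]; rfl
  have cm : ∀ a b, a ∈ M → b ∈ M → Commute a b := fun a b ha hb =>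
    nice.ct a g b g1 ((mem a).1 ha) ((mem b).1 hb).symm
  let _ : CommGroup M := { (inferInstance : Group M) with
    mul_comm := fun a b => Subtype.ext (cm a b a.2 b.2) }
  have uq : ∀ a x y : G, x * a * x⁻¹ ∈ M → y * a * y⁻¹ ∈ M → x * a * x⁻¹ = y * a * y⁻¹ := by
    intro a x y hx hy
    by_cases a1 : x * a * x⁻¹ = 1
    · have : a = 1 := by simpa using a1
      simp [this]
    have e : y * a * y⁻¹ = (y * x⁻¹) * (x * a * x⁻¹) * (y * x⁻¹)⁻¹ := by group
    have := nice.mal (y * x⁻¹) _ a1 (by rw [← e]; exact cm _ _ hy hx)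
    rw [e, this.eq, mul_inv_cancel_right]
  have ex : ∀ a : G, ∃ m : M, (∀ x, x * a * x⁻¹ ∈ M → (m : G) = x * a * x⁻¹) ∧
      ((¬ ∃ x, x * a * x⁻¹ ∈ M) → m = 1) := by
    intro a
    by_cases q : ∃ x, x * a * x⁻¹ ∈ M
    · obtain ⟨x, hx⟩ := q
      exact ⟨⟨_, hx⟩, fun y hy => uq a x y hx hy, fun h => absurd ⟨x, hx⟩ h⟩
    · exact ⟨1, fun x hx => absurd ⟨x, hx⟩ q, fun _ => rfl⟩
  choose ψ p1 p2 using ex
  have pc : ∀ x a, ψ (x * a * x⁻¹) = ψ a := by
    intro x a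
    by_cases q : ∃ y, y * a * y⁻¹ ∈ M
    · obtain ⟨y, hy⟩ := q
      have e : (y * x⁻¹) * (x * a * x⁻¹) * (y * x⁻¹)⁻¹ = y * a * y⁻¹ := by group
      apply Subtype.ext
      rw [p1 a y hy, p1 _ (y * x⁻¹) (by rw [e]; exact hy), e]
    · rw [p2 a q, p2]
      rintro ⟨y, hy⟩
      exact q ⟨y * x, by convert hy using 1; group⟩
  have pm : ∀ m : M, ψ m = m := fun m => Subtype.ext (by
    rw [p1 m 1 (by simp)]; simp)
  obtain ⟨Φ, hΦ⟩ := QAb_hier h nice {g}
  let N : Submodule ℤ (Additive M) :=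
    Submodule.span ℤ ((Φ.image fun a => Additive.ofMul (ψ a) : Finset (Additive M)) :
      Set (Additive M))
  obtain ⟨θ, t1, t2⟩ := hΦ (Additive M ⧸ N) (fun a => N.mkQ (Additive.ofMul (ψ a))) (by
    refine ⟨fun x a => by simp only [pc], fun t ht _ a b ca cb => ?_, fun a ha => ?_⟩
    · rw [Finset.mem_singleton] at ht
      subst ht
      have e : ψ (a * b) = ψ a * ψ b := by
        have k1 := pm ⟨a, (mem a).2 ca⟩
        have k2 := pm ⟨b, (mem b).2 cb⟩
        have k3 := pm (⟨a, (mem a).2 ca⟩ * ⟨b, (mem b).2 cb⟩)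
        simp only [Subgroup.coe_mul] at k1 k2 k3
        rw [k1, k2, k3]
      simp only [e, ofMul_mul, map_add]
    · exact (Submodule.Quotient.mk_eq_zero N).2 (Submodule.subset_span (by
        simp only [Finset.coe_image]
        exact ⟨a, ha, rfl⟩)))
  let f : G →* Multiplicative (Additive M ⧸ N) :=
    MonoidHom.mk' (fun a => Multiplicative.ofAdd (θ a)) fun a b => by simp only [t1, ofAdd_add]
  have fs : Function.Surjective f := by
    intro y
    obtain ⟨m, hm⟩ := N.mkQ_surjective y.toAdd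
    refine ⟨(m.toMul : M), ?_⟩
    show Multiplicative.ofAdd (θ _) = y
    rw [t2 g (by simp) g1 _ ((mem _).1 m.toMul.2)]
    simp only [pm, ofMul_toMul, hm, ofAdd_toAdd]
  have f1 : Group.FG (Multiplicative (Additive M ⧸ N)) := Group.fg_of_surjective fs
  have f2 : Module.Finite ℤ (Additive M ⧸ N) :=
    Module.Finite.iff_addGroup_fg.2 (AddGroup.fg_iff_mul_fg.2 f1)
  have f3 : Module.Finite ℤ N := Module.Finite.span_of_finite ℤ (Finset.finite_toSet _)
  have f4 : Module.Finite ℤ (Additive M) := .of_submodule_quotient N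
  have f5 : (A.subgroupOf M).FG := by
    rw [Subgroup.fg_iff_add_fg, ← AddSubgroup.toIntSubmodule_toAddSubgroup
      (A.subgroupOf M).toAddSubgroup, ← Submodule.fg_iff_addSubgroup_fg]
    exact IsNoetherian.noetherian _
  have le : A ≤ M := fun a ha => (mem a).2 (hA a ha g hg)
  rw [← Subgroup.map_subgroupOf_eq_of_le le]
  rw [← Group.fg_iff_subgroup_fg] at f5 ⊢
  exact Group.fg_of_surjective (f := ((A.subgroupOf M).equivMapOfInjective M.subtype
    Subtype.val_injective).toMonoidHom) (MulEquiv.surjective _)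

end Pool.Agent.Work.MP_904812_al
end

-- merged part: Pool.Agent.Work.MP_904812_al.QFill0
section
/-! Fillings: the filter, existence, commutative groups. -/

namespace Pool.Agent.Work.MP_904812_al

set_option linter.unusedSectionVars false
set_option linter.unusedVariables false

open Subgroup MulAction

variable {G : Type*} [Group G]

theorem Ev.of_all {P : Set G → Prop} (h : ∀ N, Filling N → P N) : Ev P := by
  exact ⟨∅, by simp, fun N f _ => h N f⟩

theorem Ev.mono {P Q : Set G → Prop} (h : Ev P) (hPQ : ∀ N, Filling N → P N → Q N) : Ev Q := by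
  obtain ⟨Ψ, h1, h2⟩ := h
  exact ⟨Ψ, h1, fun N f d => hPQ N f (h2 N f d)⟩

theorem Ev.and {P Q : Set G → Prop} (h : Ev P) (h' : Ev Q) : Ev fun N => P N ∧ Q N := by
  classical
  obtain ⟨Ψ, h1, h2⟩ := h
  obtain ⟨Ψ', h3, h4⟩ := h'
  refine ⟨Ψ ∪ Ψ', fun p hp => (Finset.mem_union.1 hp).elim (h1 p) (h3 p), fun N f d => ⟨?_, ?_⟩⟩
  · exact h2 N f fun p hp => d p (Finset.mem_union_left _ hp)
  · exact h4 N f fun p hp => d p (Finset.mem_union_right _ hp)

theorem Ev.all {ι : Type*} (T : Set ι) (hT : T.Finite) {P : ι → Set G → Prop}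
    (h : ∀ i ∈ T, Ev (P i)) : Ev fun N => ∀ i ∈ T, P i N := by
  induction T, hT using Set.Finite.induction_on with
  | empty => exact Ev.of_all fun N _ i hi => hi.elim
  | @insert a s _ _ ih =>
    refine ((h a (Set.mem_insert _ _)).and (ih fun i hi => h i (Set.mem_insert_of_mem _ hi))).mono
      fun N _ hN i hi => ?_
    rcases hi with rfl | hi
    exacts [hN.1, hN.2 i hi]

theorem Ev.good {m : G} {E : Subgroup G} (h : Good (m, E)) :
    Ev fun N => ∀ e ∈ E, e⁻¹ * m ∉ N := by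
  exact ⟨{(m, E)}, fun p hp => Finset.mem_singleton.1 hp ▸ h,
    fun N _ d => d _ (Finset.mem_singleton_self _)⟩

theorem Ev.not_mem (tf : TF G) {m : G} (h : m ≠ 1) : Ev fun N => m ∉ N := by
  refine (Ev.good (m := m) (E := ⊥) ⟨by simpa using h, fun e he => ?_,
    Or.inl ⟨1, by simp⟩⟩).mono fun N _ hN => by simpa using hN 1 (one_mem _)
  rw [mem_bot.1 he]
  exact Commute.one_left _

/-- additive on the centraliser of `g` -/
def QFill0.Ad (g : G) (θ : G → ℤ) : Prop :=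
  ∀ a b, Commute a g → Commute b g → θ (a * b) = θ a + θ b

theorem QFill0.Ad.one {g : G} {θ : G → ℤ} (h : QFill0.Ad g θ) : θ 1 = 0 := by
  have := h 1 1 (Commute.one_left _) (Commute.one_left _)
  rw [mul_one] at this
  omega

theorem QFill0.Ad.inv {g a : G} {θ : G → ℤ} (h : QFill0.Ad g θ) (ha : Commute a g) :
    θ a⁻¹ = -θ a := by
  have := h a a⁻¹ ha ha.inv_left
  rw [mul_inv_cancel, h.one] at this
  omega

theorem QFill0.Ad.pow {g a : G} {θ : G → ℤ} (h : QFill0.Ad g θ) (ha : Commute a g) (n : ℕ) :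
    θ (a ^ n) = n * θ a := by
  induction n with
  | zero => simpa using h.one
  | succ n ih => rw [pow_succ, h _ _ (ha.pow_left n) ha, ih]; push_cast; ring

theorem QFill0.Ad.zpow {g a : G} {θ : G → ℤ} (h : QFill0.Ad g θ) (ha : Commute a g) (n : ℤ) :
    θ (a ^ n) = n * θ a := by
  obtain ⟨k, rfl | rfl⟩ := n.eq_nat_or_neg
  · rw [zpow_natCast, h.pow ha]
  · rw [zpow_neg, zpow_natCast, h.inv (ha.pow_left k), h.pow ha]; ring

theorem Filling.inv {N : Set G} (f : Filling N) {n : G} (h : n ∈ N) : n⁻¹ ∈ N := by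
  by_cases h1 : n = 1
  · simpa [h1] using f.one
  obtain ⟨θ, ad, -, hθ⟩ := f.loc n h1
  have c := Commute.refl n
  rw [hθ _ c.inv_left, QFill0.Ad.inv ad c, (hθ _ c).1 h, neg_zero]

theorem Filling.mul (nice : Nice G) {N : Set G} (f : Filling N) {a b : G} (ha : a ∈ N)
    (hb : b ∈ N) (c : Commute a b) : a * b ∈ N := by
  by_cases h1 : a = 1
  · simpa [h1] using hb
  obtain ⟨θ, ad, -, hθ⟩ := f.loc a h1
  have c' := Commute.refl a
  rw [hθ _ (c'.mul_left c.symm), ad _ _ c' c.symm, (hθ _ c').1 ha, (hθ _ c.symm).1 hb, add_zero]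

/-- a filling meets cyclic centralisers trivially -/
theorem Filling.cyc {N : Set G} (f : Filling N) {n k : G} (h : n ∈ N)
    (c : ∀ a, Commute a n ↔ a ∈ zpowers k) : n = 1 := by
  by_contra h1
  obtain ⟨θ, ad, ⟨a, ha, h0⟩, hθ⟩ := f.loc n h1
  have ck := (c k).2 (mem_zpowers k)
  obtain ⟨j, rfl⟩ := mem_zpowers_iff.1 ((c a).1 ha)
  obtain ⟨i, hi⟩ := mem_zpowers_iff.1 ((c n).1 (Commute.refl n))
  have h2 := (hθ _ (Commute.refl n)).1 h
  rw [QFill0.Ad.zpow ad ck] at h0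
  have h3 := QFill0.Ad.zpow ad ck i
  rw [hi, h2] at h3
  rcases mul_eq_zero.1 h3.symm with h4 | h4
  · exact h1 (by rw [← hi, h4, zpow_zero])
  · exact h0 (by rw [h4, mul_zero])

theorem Filling.nc {N : Set G} (f : Filling N) : normalClosure N = closure N := by
  have : Group.conjugatesOfSet N = N := by
    refine Set.Subset.antisymm (fun x hx => ?_) Group.subset_conjugatesOfSet
    obtain ⟨a, ha, hc⟩ := Group.mem_conjugatesOfSet_iff.1 hx
    obtain ⟨c, rfl⟩ := isConj_iff.1 hc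
    exact f.conj a ha c
  rw [normalClosure, this]

namespace QFill0

theorem chi (nice : Nice G) (ab : AbFG G) {g m : G} (hg : g ≠ 1) (E : Subgroup G)
    (hm : Commute m g) (h : ∀ n : ℕ, 0 < n → m ^ n ∉ E) :
    ∃ χ : G → ℤ, Ad g χ ∧ (∀ e ∈ E, χ e = 0) ∧ χ m ≠ 0 := by
  classical
  let M : Subgroup G := centralizer {g}
  have hM : ∀ a, a ∈ M ↔ Commute a g := fun a => mem_centralizer_singleton_iff
  have hc : Comm M := fun a ha b hb => nice.ct a g b hg ((hM a).1 ha) ((hM b).1 hb).symm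
  let : CommGroup M := { (inferInstance : Group M) with
    mul_comm := fun a b => Subtype.ext (hc a a.2 b b.2) }
  have : Group.FG M := (Group.fg_iff_subgroup_fg M).2 (ab M hc)
  have : Module.Finite ℤ (Additive M) := Module.Finite.iff_addGroup_fg.2 inferInstance
  let E' : Submodule ℤ (Additive M) :=
    { carrier := {a | ∃ n : ℕ, 0 < n ∧ ((a.toMul : M) : G) ^ n ∈ E}
      zero_mem' := ⟨1, one_pos, by simp⟩
      add_mem' := by
        rintro a b ⟨n, hn, ha⟩ ⟨k, hk, hb⟩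
        refine ⟨n * k, by positivity, ?_⟩
        rw [toMul_add, coe_mul, (hc _ a.toMul.2 _ b.toMul.2).mul_pow]
        exact mul_mem (by rw [pow_mul]; exact pow_mem ha _) (by rw [pow_mul']; exact pow_mem hb _)
      smul_mem' := by
        rintro c a ⟨n, hn, ha⟩
        refine ⟨n, hn, ?_⟩
        rw [toMul_zsmul, coe_zpow, ← zpow_natCast, ← zpow_mul, mul_comm, zpow_mul, zpow_natCast]
        exact zpow_mem ha _ }
  have : Module.IsTorsionFree ℤ (Additive M ⧸ E') := by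
    refine Module.IsTorsionFree.of_smul_eq_zero fun r x hx => ?_
    obtain ⟨a, rfl⟩ := Submodule.Quotient.mk_surjective E' x
    rw [← Submodule.Quotient.mk_smul, Submodule.Quotient.mk_eq_zero] at hx
    by_cases hr : r = 0
    · exact Or.inl hr
    refine Or.inr ((Submodule.Quotient.mk_eq_zero _).2 ?_)
    obtain ⟨n, hn, ha⟩ := hx
    rw [toMul_zsmul, coe_zpow, ← zpow_natCast, ← zpow_mul] at ha
    refine ⟨(r * n).natAbs, Int.natAbs_pos.2 (mul_ne_zero hr (by exact_mod_cast hn.ne')), ?_⟩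
    rw [← zpow_natCast]
    rcases Int.natAbs_eq (r * n) with h1 | h1
    · rwa [← h1]
    · rw [h1, zpow_neg] at ha
      exact inv_mem_iff.1 ha
  obtain ⟨φ, h1, h2⟩ := E'.exists_dual_map_eq_bot_of_notMem
    (x := Additive.ofMul ⟨m, (hM m).2 hm⟩) (fun ⟨n, hn, ha⟩ => h n hn ha) inferInstance
  refine ⟨fun a => if ha : a ∈ M then φ (Additive.ofMul ⟨a, ha⟩) else 0, fun a b ha hb => ?_,
    fun e he => ?_, ?_⟩
  · beta_reduce
    rw [dif_pos ((hM _).2 ha), dif_pos ((hM _).2 hb), dif_pos ((hM _).2 (ha.mul_left hb)),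
      ← map_add]
    rfl
  · beta_reduce
    split_ifs with h3
    · have : φ (Additive.ofMul ⟨e, h3⟩) ∈ E'.map φ :=
        Submodule.mem_map_of_mem ⟨1, one_pos, by simpa using he⟩
      rwa [h2, Submodule.mem_bot] at this
    · rfl
  · beta_reduce
    rwa [dif_pos ((hM _).2 hm)]

theorem comb (g : G) (T : Set (Set G × G × (G → ℤ))) (hT : T.Finite)
    (h : ∀ t ∈ T, Ad g t.2.2 ∧ (∀ e ∈ t.1, t.2.2 e = 0) ∧ t.2.2 t.2.1 ≠ 0) :
    ∃ θ : G → ℤ, Ad g θ ∧ ∀ t ∈ T, ∀ e ∈ t.1, θ e ≠ θ t.2.1 := by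
  suffices H : ∃ (θ : G → ℤ) (Q : ℤ), 0 < Q ∧ Ad g θ ∧ ∀ t ∈ T, ∃ q : ℤ, q ∣ Q ∧
      (∀ e ∈ t.1, q ∣ θ e) ∧ ¬ q ∣ θ t.2.1 by
    obtain ⟨θ, Q, -, ad, H⟩ := H
    refine ⟨θ, ad, fun t ht e he h1 => ?_⟩
    obtain ⟨q, -, h2, h3⟩ := H t ht
    exact h3 (h1 ▸ h2 e he)
  induction T, hT using Set.Finite.induction_on with
  | empty => exact ⟨fun _ => 0, 1, one_pos, fun _ _ _ _ => rfl, fun t ht => ht.elim⟩
  | @insert a s _ _ ih =>
    obtain ⟨θ, Q, hQ, ad, H⟩ := ih fun t ht => h t (Set.mem_insert_of_mem _ ht)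
    obtain ⟨ad', h1, h2⟩ := h a (Set.mem_insert _ _)
    set q₀ := Q * |a.2.2 a.2.1| + 1 with hq
    have hq0 : 0 < q₀ := by positivity
    refine ⟨fun x => q₀ * θ x + Q * a.2.2 x, q₀ * Q, by positivity, fun x y hx hy => ?_,
      fun t ht => ?_⟩
    · beta_reduce
      rw [ad x y hx hy, ad' x y hx hy]; ring
    rcases ht with rfl | ht
    · refine ⟨q₀, dvd_mul_right _ _, fun e he => ?_, fun h3 => ?_⟩
      · beta_reduce
        rw [h1 e he, mul_zero, add_zero]; exact dvd_mul_right _ _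
      · have h4 := (dvd_add_right (dvd_mul_right _ _)).1 h3
        have h5 := Int.le_of_dvd (abs_pos.2 (mul_ne_zero hQ.ne' h2)) ((dvd_abs _ _).2 h4)
        rw [abs_mul, abs_of_pos hQ] at h5
        omega
    · obtain ⟨q, h3, h4, h5⟩ := H t ht
      refine ⟨q, h3.mul_left _, fun e he => dvd_add ((h4 e he).mul_left _) (h3.mul_right _),
        fun h6 => h5 ?_⟩
      have h7 := (dvd_add_left (h3.mul_right _)).1 h6
      rw [hq, add_mul, one_mul] at h7
      exact (dvd_add_right ((h3.mul_right _).mul_right _)).1 h7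

theorem red (nice : Nice G) (ab : AbFG G) {p : G × Subgroup G} (hp : Good p) :
    ∃ t : Set G × G × (G → ℤ), (Ad p.1 t.2.2 ∧ (∀ e ∈ t.1, t.2.2 e = 0) ∧ t.2.2 t.2.1 ≠ 0) ∧
      ∀ θ : G → ℤ, Ad p.1 θ → (∀ e ∈ t.1, θ e ≠ θ t.2.1) → ∀ e ∈ p.2, θ e ≠ θ p.1 := by
  obtain ⟨m, E⟩ := p
  obtain ⟨h1, h2, h3⟩ := hp
  dsimp only at h1 h2 h3 ⊢
  have hm : m ≠ 1 := fun h => h1 (h ▸ one_mem _)
  by_cases h4 : ∀ n : ℕ, 0 < n → m ^ n ∉ E
  · obtain ⟨χ, h5⟩ := chi nice ab hm E (Commute.refl m) h4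
    exact ⟨(E, m, χ), h5, fun θ _ h => h⟩
  obtain ⟨e, rfl⟩ := h3.resolve_right h4
  push Not at h4
  obtain ⟨n, hn, h4⟩ := h4
  obtain ⟨j, hj⟩ := mem_zpowers_iff.1 h4
  have ce := h2 e (mem_zpowers e)
  have he : e ≠ 1 := by
    rintro rfl
    exact hm (nice.tf m n hn (by rw [← hj, one_zpow]))
  obtain ⟨χ, h5⟩ := chi nice ab hm ⊥ ce fun k hk h => he (nice.tf e k hk (mem_bot.1 h))
  refine ⟨((⊥ : Subgroup G), e, χ), h5, fun θ ad h x hx h6 => ?_⟩
  obtain ⟨i, rfl⟩ := mem_zpowers_iff.1 hx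
  have h7 : θ e ≠ 0 := fun h7 => h 1 (one_mem _) (by rw [ad.one, h7])
  have h8 := ad.pow (Commute.refl m) n
  rw [← hj, ad.zpow ce, ← h6, ad.zpow ce, ← mul_assoc] at h8
  have h9 := mul_right_cancel₀ h7 h8
  have : m * (e ^ i)⁻¹ = 1 := nice.tf _ n hn (by
    rw [(ce.zpow_left i).symm.inv_right.mul_pow, ← hj, h9, inv_pow, ← zpow_natCast, ← zpow_mul,
      mul_comm i, mul_inv_cancel])
  exact h1 (by rw [mul_inv_eq_one.1 this]; exact hx)

theorem conj_ne {g x : G} (hg : g ≠ 1) : x * g * x⁻¹ ≠ 1 := by simpa using hg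

theorem conj_comm {a b : G} (h : Commute a b) (x : G) :
    Commute (x * a * x⁻¹) (x * b * x⁻¹) := h.map (MulAut.conj x)

theorem reps (nice : Nice G) : ∃ r x : G → G, (∀ g, g ≠ 1 → r g ≠ 1 ∧
    Commute (x g * g * (x g)⁻¹) (r g)) ∧
    ∀ g g' y, g ≠ 1 → g' ≠ 1 → Commute (y * g * y⁻¹) g' → r g = r g' := by
  classical
  let R : G → G → Prop := fun g k => k ≠ 1 ∧ ∃ x, Commute (x * g * x⁻¹) k
  have : Nonempty G := ⟨1⟩
  have h1 : ∀ g, g ≠ 1 → R g (Classical.epsilon (R g)) := fun g hg =>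
    Classical.epsilon_spec ⟨g, hg, 1, by simp⟩
  have h2 : ∀ g g' y, g ≠ 1 → g' ≠ 1 → Commute (y * g * y⁻¹) g' → ∀ k, R g' k → R g k := by
    rintro g g' y hg hg' c k ⟨hk, x, hx⟩
    refine ⟨hk, x * y, nice.ct _ _ _ (conj_ne hg') ?_ hx⟩
    have := conj_comm c x
    rwa [show x * (y * g * y⁻¹) * x⁻¹ = x * y * g * (x * y)⁻¹ by group] at this
  choose! x hx using fun g hg => (h1 g hg).2
  refine ⟨fun g => Classical.epsilon (R g), x, fun g hg => ⟨(h1 g hg).1, hx g hg⟩,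
    fun g g' y hg hg' c => ?_⟩
  have : R g = R g' := by
    funext k
    refine propext ⟨h2 g' g y⁻¹ hg' hg ?_ k, h2 g g' y hg hg' c k⟩
    have := conj_comm c.symm y⁻¹
    rwa [show y⁻¹ * (y * g * y⁻¹) * y⁻¹⁻¹ = g by group] at this
  beta_reduce
  rw [this]

end QFill0

open QFill0 in
theorem Ev.ex (nice : Nice G) (ab : AbFG G) {P : Set G → Prop} (h : Ev P) :
    ∃ N, Filling N ∧ P N := by
  classical
  obtain ⟨Ψ, hΨ, hP⟩ := h
  obtain ⟨r, x, hr, hrr⟩ := reps nice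
  have canon : ∀ a y, a ≠ 1 → Commute (y * a * y⁻¹) (r a) →
      y * a * y⁻¹ = x a * a * (x a)⁻¹ := by
    intro a y ha c
    have h1 := nice.ct _ _ _ (hr a ha).1 c (hr a ha).2.symm
    have e : y * a * y⁻¹ = y * (x a)⁻¹ * (x a * a * (x a)⁻¹) * (y * (x a)⁻¹)⁻¹ := by group
    rw [e] at h1 ⊢
    rw [(nice.mal _ _ (conj_ne ha) h1).eq, mul_inv_cancel_right]
  have inM : ∀ g a, g ≠ 1 → Commute a g → Commute (x g * a * (x g)⁻¹) (r g) :=
    fun g a hg c => nice.ct _ _ _ (conj_ne hg) (conj_comm c _) (hr g hg).2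
  have outM : ∀ g a, g ≠ 1 → Commute a (r g) → Commute ((x g)⁻¹ * a * x g) g := by
    intro g a hg c
    have := conj_comm (nice.ct _ _ _ (hr g hg).1 c (hr g hg).2.symm) (x g)⁻¹
    rwa [show (x g)⁻¹ * (x g * g * (x g)⁻¹) * (x g)⁻¹⁻¹ = g by group, inv_inv] at this
  choose! t ht using fun p hp => red nice ab (hΨ p hp)
  have hΘ : ∀ ρ : G, ρ ≠ 1 → ∃ θ : G → ℤ, Ad ρ θ ∧ θ ρ ≠ 0 ∧ ∀ p ∈ Ψ, r p.1 = ρ → ∀ e ∈ (t p).1,
      θ (x p.1 * e * (x p.1)⁻¹) ≠ θ (x p.1 * (t p).2.1 * (x p.1)⁻¹) := by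
    intro ρ hρ
    obtain ⟨χ, h0⟩ := chi nice ab hρ ⊥ (Commute.refl ρ)
      fun k hk h => hρ (nice.tf ρ k hk (mem_bot.1 h))
    let F : G × Subgroup G → Set G × G × (G → ℤ) := fun p =>
      ((fun e => x p.1 * e * (x p.1)⁻¹) '' (t p).1, x p.1 * (t p).2.1 * (x p.1)⁻¹,
        fun a => (t p).2.2 ((x p.1)⁻¹ * a * x p.1))
    obtain ⟨θ, ad, hθ⟩ := comb ρ (insert (((⊥ : Subgroup G) : Set G), ρ, χ)
      (F '' {p | p ∈ Ψ ∧ r p.1 = ρ}))
      (((Ψ.finite_toSet.subset fun p hp => hp.1).image F).insert _) (by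
        rintro _ (rfl | ⟨p, ⟨hp, rfl⟩, rfl⟩)
        · exact h0
        have hm : p.1 ≠ 1 := fun h => (hΨ p hp).1 (h ▸ one_mem _)
        obtain ⟨⟨h1, h2, h3⟩, -⟩ := ht p hp
        refine ⟨fun a b ha hb => ?_, ?_, ?_⟩
        · simp only [F]
          rw [← h1 _ _ (outM _ _ hm ha) (outM _ _ hm hb)]
          congr 1
          group
        · rintro _ ⟨e, he, rfl⟩
          simp only [F]
          rw [← h2 e he]
          congr 1
          group
        · simp only [F]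
          convert h3 using 2
          group)
    refine ⟨θ, ad, fun h => hθ _ (Set.mem_insert _ _) 1 (one_mem (⊥ : Subgroup G))
      (by rw [ad.one, h]), fun p hp h e he => ?_⟩
    exact hθ (F p) (Set.mem_insert_of_mem _ ⟨p, ⟨hp, h⟩, rfl⟩) _ ⟨e, he, rfl⟩
  choose! Θ hΘ using hΘ
  let N : Set G := {a | a = 1 ∨ Θ (r a) (x a * a * (x a)⁻¹) = 0}
  have adg : ∀ g, g ≠ 1 → Ad g fun a => Θ (r g) (x g * a * (x g)⁻¹) := by
    intro g hg a b ha hb
    beta_reduce
    rw [← (hΘ _ (hr g hg).1).1 _ _ (inM g a hg ha) (inM g b hg hb)]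
    congr 1
    group
  have mem : ∀ g, g ≠ 1 → ∀ a, Commute a g → (a ∈ N ↔ Θ (r g) (x g * a * (x g)⁻¹) = 0) := by
    intro g hg a c
    by_cases ha : a = 1
    · subst ha
      exact ⟨fun _ => (adg g hg).one, fun _ => Or.inl rfl⟩
    have h1 : r a = r g := hrr a g 1 ha hg (by simpa using c)
    rw [canon a (x g) ha (h1 ▸ inM g a hg c), ← h1]
    exact or_iff_right ha
  have f : Filling N := by
    refine ⟨Or.inl rfl, fun n hn z => ?_, fun g hg =>
      ⟨fun a => Θ (r g) (x g * a * (x g)⁻¹), adg g hg,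
      ⟨(x g)⁻¹ * r g * x g, outM g _ hg (Commute.refl _), ?_⟩, mem g hg⟩⟩
    · by_cases h1 : n = 1
      · exact Or.inl (by simp [h1])
      have h2 : r n = r (z * n * z⁻¹) := hrr n _ z h1 (conj_ne h1) (Commute.refl _)
      have e : x n * z⁻¹ * (z * n * z⁻¹) * (x n * z⁻¹)⁻¹ = x n * n * (x n)⁻¹ := by group
      refine Or.inr ?_
      rw [← canon _ (x n * z⁻¹) (conj_ne h1) (by rw [e, ← h2]; exact (hr n h1).2), e, ← h2]
      exact hn.resolve_left h1
    · beta_reduce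
      rw [show x g * ((x g)⁻¹ * r g * x g) * (x g)⁻¹ = r g by group]
      exact (hΘ _ (hr g hg).1).2.1
  refine ⟨N, f, hP N f fun p hp e he h1 => ?_⟩
  have hm : p.1 ≠ 1 := fun h => (hΨ p hp).1 (h ▸ one_mem _)
  have ce := (hΨ p hp).2.1 e he
  have h2 := (ht p hp).2 _ (adg _ hm) ((hΘ _ (hr _ hm).1).2.2 p hp rfl) e he
  have h3 := (mem _ hm _ (ce.inv_left.mul_left (Commute.refl _))).1 h1
  have h4 := adg _ hm _ _ ce.inv_left (Commute.refl _)
  have h5 := (adg _ hm).inv ce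
  beta_reduce at h2 h4 h5
  omega

theorem ih_abel (tf : TF G) (h : ∀ a b : G, Commute a b) : IH G := by
  have nice : Nice G := ⟨tf, fun _ _ _ _ _ _ => h _ _, fun _ _ _ _ => h _ _⟩
  have nc : ∀ N : Set G, Filling N → ∀ a ∈ normalClosure N, a ∈ N := by
    intro N f a ha
    rw [f.nc] at ha
    induction ha using closure_induction with
    | mem x hx => exact hx
    | one => exact f.one
    | mul x y _ _ hx hy => exact f.mul nice hx hy (h _ _)
    | inv x _ hx => exact f.inv hx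
  refine ⟨Ev.of_all fun N f => ?_, fun g _ => Ev.of_all fun N f a ha _ => nc N f a ha,
    fun a g₁ g₂ H => ?_, fun g₁ g₂ => Ev.of_all fun N f x z₁ z₂ _ _ _ _ =>
      ⟨x, by simp, h _ _⟩⟩
  · suffices H : ∃ φ : G ⧸ normalClosure N →* Multiplicative ℤ, Function.Injective φ by
      obtain ⟨φ, hφ⟩ := H
      have t : TF (G ⧸ normalClosure N) := fun q n hn hq => hφ (by
        have := congrArg (fun z => (φ z).toAdd) hq
        simp only [map_pow, toAdd_pow, map_one, toAdd_one, nsmul_eq_mul, mul_eq_zero] at this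
        rw [map_one]
        exact toAdd_eq_zero.1 (this.resolve_left (by exact_mod_cast hn.ne')))
      have := isCyclic_of_injective φ hφ
      obtain ⟨c, hc⟩ := IsCyclic.exists_generator (α := G ⧸ normalClosure N)
      exact ⟨t, la_cyclic t c hc⟩
    obtain ⟨θ, ad, hθ⟩ : ∃ θ : G → ℤ, (∀ a b, θ (a * b) = θ a + θ b) ∧ ∀ a, a ∈ N ↔ θ a = 0 := by
      by_cases h1 : ∀ g : G, g = 1
      · exact ⟨fun _ => 0, fun _ _ => rfl, fun a => ⟨fun _ => rfl, fun _ => h1 a ▸ f.one⟩⟩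
      push Not at h1
      obtain ⟨g, hg⟩ := h1
      obtain ⟨θ, ad, -, hθ⟩ := f.loc g hg
      exact ⟨θ, fun a b => ad a b (h _ _) (h _ _), fun a => hθ a (h _ _)⟩
    let ψ : G →* Multiplicative ℤ := MonoidHom.mk' (fun a => Multiplicative.ofAdd (θ a))
      fun a b => by rw [ad, ofAdd_add]
    refine ⟨QuotientGroup.lift _ ψ fun a ha => ofAdd_eq_one.2 ((hθ a).1 (nc N f a ha)),
      (injective_iff_map_eq_one _).2 fun q hq => ?_⟩
    obtain ⟨a, rfl⟩ := QuotientGroup.mk_surjective q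
    exact (QuotientGroup.eq_one_iff a).2 (subset_normalClosure ((hθ a).2 (ofAdd_eq_one.1 hq)))
  · have h1 : g₁ = 1 := by
      by_contra h1
      exact H ⟨a, 1, Or.inr ⟨h1, h _ _⟩, Or.inl rfl, (mul_one a).symm⟩
    have h2 : g₂ = 1 := by
      by_contra h2
      exact H ⟨1, a, Or.inl rfl, Or.inr ⟨h2, h _ _⟩, (one_mul a).symm⟩
    have h3 : a ≠ 1 := fun h3 => H ⟨1, 1, Or.inl rfl, Or.inl rfl, by simp [h3]⟩
    refine (Ev.not_mem tf h3).mono fun N f hN z₁ z₂ i1 i2 h4 => hN (nc N f a ?_)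
    rw [i1.resolve_right fun h => h.1 h1, i2.resolve_right fun h => h.1 h2] at h4
    simpa using h4

end Pool.Agent.Work.MP_904812_al
end

-- merged part: Pool.Agent.Work.MP_904812_al.QFill1
section
/-! Fillings of a tree of cylinders: the quotient tree. -/

namespace Pool.Agent.Work.MP_904812_al

set_option linter.unusedSectionVars false
set_option linter.unusedVariables false

open Subgroup MulAction

variable {G V : Type} [Group G] [MulAction G V] {d : V → V → ℤ} {C : V → Prop}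

theorem mem_KV_iff {N : Set G} (f : Filling N) (v : V) (a : stabilizer G v) :
    a ∈ normalClosure (Subtype.val ⁻¹' N : Set (stabilizer G v)) ↔ a.1 ∈ KV N v := by
  have h1 : Group.conjugatesOfSet (Subtype.val ⁻¹' N : Set (stabilizer G v)) =
      Subtype.val ⁻¹' N := by
    refine Set.Subset.antisymm (fun x hx => ?_) Group.subset_conjugatesOfSet
    obtain ⟨a, ha, hc⟩ := Group.mem_conjugatesOfSet_iff.1 hx
    obtain ⟨c, rfl⟩ := isConj_iff.1 hc
    exact f.conj a.1 ha c.1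
  have h2 : (stabilizer G v).subtype '' (Subtype.val ⁻¹' N) = {n | n ∈ N ∧ n • v = v} := by
    ext n
    exact ⟨fun ⟨x, hx, e⟩ => e ▸ ⟨hx, x.2⟩, fun h => ⟨⟨n, h.2⟩, h.1, rfl⟩⟩
  rw [normalClosure, h1, KV, ← h2, ← MonoidHom.map_closure]
  exact (mem_map_iff_mem (stabilizer G v).subtype_injective).symm

theorem QFill1_fix {N : Set G} {w : V} {a : G} (ha : a ∈ KV N w) : a • w = w :=
  (closure_le (stabilizer G w)).2 (fun _ hn => hn.2) ha

theorem QFill1_conj {N : Set G} (f : Filling N) {w : V} {a : G} (ha : a ∈ KV N w) (g : G) :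
    g * a * g⁻¹ ∈ KV N (g • w) := by
  induction ha using closure_induction with
  | mem x hx =>
    exact subset_closure ⟨f.conj x hx.1 g, by rw [mul_smul, inv_smul_smul, mul_smul, hx.2]⟩
  | one => simp
  | mul x y _ _ hx hy =>
    rw [show g * (x * y) * g⁻¹ = g * x * g⁻¹ * (g * y * g⁻¹) by group]
    exact mul_mem hx hy
  | inv x _ hx =>
    rw [show g * x⁻¹ * g⁻¹ = (g * x * g⁻¹)⁻¹ by group]
    exact inv_mem hx

/-- an element that describes the stabiliser of `c` in the stabiliser of `v` -/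
theorem QFill1_edge (b : Bip G d C) {c : V} (hc : C c) (v : V) :
    ∃ e : stabilizer G v, ∀ a : stabilizer G v, a.1 • c = c ↔ InZ e a := by
  by_cases h : ∃ e : stabilizer G v, e ≠ 1 ∧ e.1 • c = c
  · obtain ⟨e, h1, h2⟩ := h
    refine ⟨e, fun a => ?_⟩
    rw [b.stab (fun h => h1 (Subtype.ext h)) hc h2]
    refine ⟨fun h => Or.inr ⟨h1, Subtype.ext h⟩, ?_⟩
    rintro (rfl | h)
    · exact Commute.one_left _
    · exact congrArg Subtype.val h.2
  · refine ⟨1, fun a => ⟨fun ha => Or.inl ?_, ?_⟩⟩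
    · by_contra h1
      exact h ⟨a, h1, ha⟩
    · rintro (rfl | h)
      · exact one_smul _ _
      · exact absurd rfl h.1

theorem KV_c (nice : Nice G) (b : Bip G d C) {N : Set G} (f : Filling N) {c : V} (hc : C c)
    {a : G} (ha : a ∈ KV N c) : a ∈ N := by
  induction ha using closure_induction with
  | mem x hx => exact hx.1
  | one => exact f.one
  | mul x y h1 h2 hx hy => exact f.mul nice hx hy (b.comm c hc x y (QFill1_fix h1) (QFill1_fix h2))
  | inv x _ hx => exact f.inv hx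

theorem QFill1_filling (nice : Nice G) (b : Bip G d C) {v : V} (hv : ¬ C v) :
    Ev fun N : Set G => Filling (Subtype.val ⁻¹' N : Set (stabilizer G v)) := by
  obtain ⟨W, -, -, hW⟩ := b.fin.nbr b.zt v
  have I := b.zt.act
  have T := I.tr
  have h1 : Ev fun N : Set G => ∀ w ∈ (W : Set V), (∃ e : G, e ≠ 1 ∧ e • v = v ∧ e • w = w) →
      ∃ e : G, e ∉ N ∧ e • v = v ∧ e • w = w := by
    refine Ev.all _ W.finite_toSet fun w _ => ?_
    by_cases h : ∃ e : G, e ≠ 1 ∧ e • v = v ∧ e • w = w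
    · obtain ⟨e, h1, h2⟩ := h
      exact (Ev.not_mem nice.tf h1).mono fun N _ hN _ => ⟨e, hN, h2⟩
    · exact Ev.of_all fun N _ h' => absurd h' h
  refine h1.mono fun N f hN => ⟨f.one, fun n hn x => f.conj n.1 hn x.1, fun g hg => ?_⟩
  have hg' : g.1 ≠ 1 := fun h => hg (Subtype.ext h)
  have gv : g.1 • v = v := g.2
  obtain ⟨θ, ad, ⟨a, ca, ha⟩, hθ⟩ := f.loc g.1 hg'
  have cm : ∀ x : stabilizer G v, Commute x g → Commute x.1 g.1 := fun x h =>
    congrArg Subtype.val h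
  refine ⟨fun x => θ x.1, fun x y hx hy => ad _ _ (cm x hx) (cm y hy), ?_,
    fun x hx => hθ _ (cm x hx)⟩
  by_cases av : a • v = v
  · exact ⟨⟨a, av⟩, Subtype.ext ca, ha⟩
  have ga : g.1 • a • v = a • v := by rw [← mul_smul, ← ca.eq, mul_smul, gv]
  have p := T.pos (Ne.symm av)
  obtain ⟨c, bc, ec⟩ := T.ex_bt v (a • v) (t := 1) (by omega) (by omega)
  have gc : g.1 • c = c := I.QAx_of_fix (I.mn_conv (I.mn_fix gv) (I.mn_fix ga) bc) gv
  have hc : C c := by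
    have := b.alt v c ec
    tauto
  obtain ⟨x, xv, xc⟩ := hW c ec
  obtain ⟨e, eN, ev, ec'⟩ := hN _ xc ⟨x * g.1 * x⁻¹, QFill0.conj_ne hg',
    by rw [mul_smul, inv_smul_eq_iff.2 xv.symm, mul_smul, gv, xv],
    by rw [mul_smul, inv_smul_smul, mul_smul, gc]⟩
  have k1 : (x⁻¹ * e * x) • v = v := by rw [mul_smul, mul_smul, xv, ev, inv_smul_eq_iff, xv]
  have k2 : Commute (x⁻¹ * e * x) g.1 :=
    (b.stab hg' hc gc _).1 (by rw [mul_smul, mul_smul, ec', inv_smul_smul])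
  refine ⟨⟨_, k1⟩, Subtype.ext k2, fun h => eN ?_⟩
  have := f.conj _ ((hθ _ k2).2 h) x
  rwa [show x * (x⁻¹ * e * x) * x⁻¹ = e by group] at this

theorem ev_vertex (nice : Nice G) (b : Bip G d C) {v : V} (hv : ¬ C v)
    {P : Set (stabilizer G v) → Prop} (h : Ev P) :
    Ev fun N : Set G => P (Subtype.val ⁻¹' N) := by
  obtain ⟨Ψ, hΨ, hP⟩ := h
  have h1 : Ev fun N : Set G => ∀ p ∈ (Ψ : Set (stabilizer G v × Subgroup (stabilizer G v))),
      ∀ e ∈ p.2, e⁻¹ * p.1 ∉ (Subtype.val ⁻¹' N : Set (stabilizer G v)) := by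
    refine Ev.all _ Ψ.finite_toSet fun p hp => ?_
    obtain ⟨g1, g2, g3⟩ := hΨ p hp
    have inj := (stabilizer G v).subtype_injective
    refine (Ev.good (m := p.1.1) (E := p.2.map (stabilizer G v).subtype)
      ⟨fun h => g1 ((mem_map_iff_mem inj).1 h), ?_, ?_⟩).mono
      fun N _ hN e he => hN e.1 (mem_map_of_mem _ he)
    · rintro _ ⟨e, he, rfl⟩
      exact congrArg Subtype.val (g2 e he)
    · rcases g3 with ⟨e, he⟩ | g3
      · exact Or.inl ⟨e.1, by rw [he, MonoidHom.map_zpowers]; rfl⟩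
      · exact Or.inr fun n hn h => g3 n hn ((mem_map_iff_mem inj).1 h)
  exact (h1.and (QFill1_filling nice b hv)).mono fun N _ hN => hP _ hN.2 hN.1

theorem ev_rot (nice : Nice G) (b : Bip G d C) (ih : ∀ v, ¬ C v → IH (stabilizer G v)) :
    Ev fun N : Set G => Rot G d (KV N) ∧
      ∀ k ∈ normalClosure N, k ∈ closure {a | ∃ w : V, a ∈ KV N w} := by
  obtain ⟨E, hE⟩ := b.fin
  have h1 : Ev fun N : Set G => ∀ p ∈ (E : Set (V × V)), ¬ C p.1 → C p.2 →
      ∀ a ∈ KV N p.1, a • p.2 = p.2 → a ∈ N := by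
    refine Ev.all _ E.finite_toSet fun p _ => ?_
    by_cases hv : C p.1
    · exact Ev.of_all fun N _ h => absurd hv h
    by_cases hc : C p.2
    swap
    · exact Ev.of_all fun N _ _ h => absurd h hc
    obtain ⟨e, he⟩ := QFill1_edge b hc p.1
    by_cases e1 : e = 1
    · refine Ev.of_all fun N f _ _ a ha ac => ?_
      rcases (he ⟨a, QFill1_fix ha⟩).1 ac with h | h
      · rw [show a = 1 from congrArg Subtype.val h]
        exact f.one
      · exact absurd e1 h.1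
    refine (ev_vertex nice b hv ((ih _ hv).t0 e e1)).mono fun N f hN _ _ a ha ac => ?_
    rcases (he ⟨a, QFill1_fix ha⟩).1 ac with h | h
    · rw [show a = 1 from congrArg Subtype.val h]
      exact f.one
    · exact hN ⟨a, QFill1_fix ha⟩ ((mem_KV_iff f _ _).2 ha) h.2
  refine h1.mono fun N f hN => ⟨⟨b.zt, fun w a ha => QFill1_fix ha,
    fun w a ha g => QFill1_conj f ha g, fun w w' e a ha aw => subset_closure ⟨?_, aw⟩⟩,
    fun k hk => ?_⟩
  · by_cases hw : C w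
    · exact KV_c nice b f hw ha
    have hw' : C w' := by
      have := b.alt w w' e
      tauto
    obtain ⟨g, hg⟩ := hE w w' e
    have h2 := hN _ hg (fun h => hw ((b.inv g w).1 h)) ((b.inv g w').2 hw') _
      (QFill1_conj f ha g) (by simp only [mul_smul, inv_smul_smul, aw])
    have := f.conj _ h2 g⁻¹
    rwa [show g⁻¹ * (g * a * g⁻¹) * g⁻¹⁻¹ = a by group] at this
  · rw [f.nc] at hk
    refine (closure_le _).2 (fun n hn => ?_) hk
    by_cases h : ∃ w : V, n • w = w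
    · obtain ⟨w, hw⟩ := h
      exact subset_closure ⟨w, subset_closure ⟨hn, hw⟩⟩
    · push Not at h
      obtain ⟨k, hk, -⟩ := b.hyp_cyc h
      rw [f.cyc hn hk]
      exact one_mem _

theorem ev_turn (nice : Nice G) (b : Bip G d C) (ih : ∀ v, ¬ C v → IH (stabilizer G v))
    {w' w w'' : V} (h1 : d w' w = 1) (h2 : d w w'' = 1) (ne : w' ≠ w'') :
    Ev fun N : Set G => ∀ k ∈ KV N w, k • w' ≠ w'' := by
  by_cases h0 : ∃ a : G, a • w = w ∧ a • w' = w''
  swap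
  · exact Ev.of_all fun N _ k hk e => h0 ⟨k, QFill1_fix hk, e⟩
  obtain ⟨a, aw, aw'⟩ := h0
  by_cases hw : C w
  · have h1' : d w w' = 1 := by rw [b.zt.act.tr.symm]; exact h1
    refine (Ev.good (m := a) (E := stabilizer G w ⊓ stabilizer G w')
      ⟨fun h => ne (h.2.symm.trans aw'), fun e he => b.comm w hw e a he.1 aw, ?_⟩).mono
      fun N f hN k hk e => ?_
    · rcases b.edge w w' hw h1' with ⟨e, he⟩ | he
      · obtain ⟨n, hn⟩ := (le_zpowers_iff e (stabilizer G w ⊓ stabilizer G w')).1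
          fun x hx => he x hx.1 hx.2
        exact Or.inl ⟨_, hn⟩
      · exact Or.inr fun n hn h => ne ((he a n hn aw h.2).symm.trans aw')
    · have kw := QFill1_fix hk
      have c := (b.comm w hw a k aw kw).inv_right
      refine hN (a * k⁻¹) ⟨(stabilizer G w).mul_mem aw ((stabilizer G w).inv_mem kw), ?_⟩ ?_
      · show (a * k⁻¹) • w' = w'
        rw [c.eq, mul_smul, aw', inv_smul_eq_iff, e]
      · rw [show (a * k⁻¹)⁻¹ * a = k by group]
        exact KV_c nice b f hw hk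
  · have hw' : C w' := (b.alt w' w h1).2 hw
    obtain ⟨e, he⟩ := QFill1_edge b hw' w
    refine (ev_vertex nice b hw ((ih _ hw).t1 ⟨a, aw⟩ 1 e ?_)).mono fun N f hN k hk ek => ?_
    · rintro ⟨z₁, z₂, i1, i2, h⟩
      rw [i1.resolve_right fun h => h.1 rfl, one_mul] at h
      exact ne (((he _).2 (h ▸ i2)).symm.trans aw')
    · have kw := QFill1_fix hk
      refine hN 1 (⟨k, kw⟩⁻¹ * ⟨a, aw⟩) (Or.inl rfl) ((he _).1 ?_) ?_
      · show (k⁻¹ * a) • w' = w'
        rw [mul_smul, aw', inv_smul_eq_iff, ek]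
      · rw [show ∀ x y : stabilizer G w, 1⁻¹ * x * (y⁻¹ * x)⁻¹ = y from fun x y => by group]
        exact (mem_KV_iff f _ _).2 hk

/-- the key step of the lifting lemma -/
theorem ev_lift2 (nice : Nice G) (b : Bip G d C) (ih : ∀ v, ¬ C v → IH (stabilizer G v))
    {c v c₁ c₂ : V} (hc : C c) (h0 : d c v = 1) (h1 : d v c₁ = 1) (h2 : d v c₂ = 1) :
    Ev fun N : Set G => ∀ k ∈ KV N v, ∀ a : G, a • c = c → a • v = v → k • a • c₁ = c₂ →
      ∃ a' : G, a' • c = c ∧ a' • v = v ∧ a' • c₁ = c₂ := by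
  by_cases H : ∃ a' : G, a' • c = c ∧ a' • v = v ∧ a' • c₁ = c₂
  · exact Ev.of_all fun N _ _ _ _ _ _ _ => H
  by_cases H' : ∃ a : G, a • v = v ∧ a • c₁ = c₂
  swap
  · exact Ev.of_all fun N _ k hk a _ av e => absurd ⟨k * a,
      by rw [mul_smul, av, QFill1_fix hk], by rw [mul_smul, e]⟩ H'
  obtain ⟨a₀, av₀, ac₀⟩ := H'
  have hv : ¬ C v := (b.alt c v h0).1 hc
  have hc₁ : C c₁ := by
    have := b.alt v c₁ h1
    tauto
  obtain ⟨e, he⟩ := QFill1_edge b hc v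
  obtain ⟨e₁, he₁⟩ := QFill1_edge b hc₁ v
  refine (ev_vertex nice b hv ((ih _ hv).t1 ⟨a₀, av₀⟩ e e₁ ?_)).mono
    fun N f hN k hk a ac av ek => ?_
  · rintro ⟨z₁, z₂, i1, i2, h⟩
    refine H ⟨z₁.1, (he _).2 i1, z₁.2, ?_⟩
    rw [← ac₀, show a₀ = z₁.1 * z₂.1 from congrArg Subtype.val h, mul_smul, (he₁ _).2 i2]
  · have kv := QFill1_fix hk
    refine absurd ?_ (hN ⟨a, av⟩ (⟨a, av⟩⁻¹ * ⟨k, kv⟩⁻¹ * ⟨a₀, av₀⟩) ((he _).1 ac) ((he₁ _).1 ?_))
    · rw [show ∀ x y z : stabilizer G v, x⁻¹ * z * (x⁻¹ * y⁻¹ * z)⁻¹ = x⁻¹ * y * x⁻¹⁻¹ from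
        fun x y z => by group]
      exact normalClosure_normal.conj_mem _ ((mem_KV_iff f _ _).2 hk) _
    · show (a⁻¹ * k⁻¹ * a₀) • c₁ = c₁
      rw [mul_smul, mul_smul, ac₀, ← ek, inv_smul_smul, inv_smul_smul]

end Pool.Agent.Work.MP_904812_al
end

-- merged part: Pool.Agent.Work.MP_904812_al.QFillA
section
/-! Fillings of a tree of cylinders: acylindricity and hyperbolicity of the quotient. -/

namespace Pool.Agent.Work.MP_904812_al

set_option linter.unusedSectionVars false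
set_option linter.unusedVariables false

open Subgroup MulAction

variable {G V : Type} [Group G] [MulAction G V] {d : V → V → ℤ} {C : V → Prop}

theorem QFillA_KV_le (N : Set G) (v : V) {a : G} (ha : a ∈ KV N v) : a ∈ normalClosure N :=
  (closure_le (normalClosure N)).2 (fun n hn => subset_normalClosure hn.1) ha

theorem QFillA_mk (N : Set G) (k : G) :
    QuotientGroup.mk' (normalClosure N) k = 1 ↔ k ∈ normalClosure N :=
  QuotientGroup.eq_one_iff k

theorem QFillA_conj {N : Set G} {k : G} (hk : k ∈ normalClosure N) (x : G) :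
    x * k * x⁻¹ ∈ normalClosure N :=
  (inferInstance : (normalClosure N).Normal).conj_mem k hk x

/-- the quotient tree of a filling -/
theorem QFillA_setup {N : Set G} (r : Rot G d (KV N))
    (hk : ∀ k ∈ normalClosure N, k ∈ closure {a | ∃ w : V, a ∈ KV N w}) :
    ∃ (W : Type) (_ : MulAction (G ⧸ normalClosure N) W) (e : W → W → ℤ) (q : V → W),
      QTree (QuotientGroup.mk' (normalClosure N)) d e q := by
  refine quot_tree r.zt _ (QuotientGroup.mk'_surjective _) fun k h => ?_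
  refine closure_mono ?_ (hk k ((QFillA_mk N k).1 h))
  rintro a ⟨w, ha⟩
  exact ⟨(QFillA_mk N a).2 (QFillA_KV_le N w ha), w, r.fix w a ha⟩

theorem QFillA_elt (v c : V) : ∃ e : stabilizer G v, (e : G) • c = c ∧
    ∀ a : G, a • v = v → a • c = c → a ≠ 1 → e ≠ 1 := by
  by_cases h : ∃ a : G, a • v = v ∧ a • c = c ∧ a ≠ 1
  · obtain ⟨a, h1, h2, h3⟩ := h
    exact ⟨⟨a, h1⟩, h2, fun _ _ _ _ h4 => h3 (congrArg Subtype.val h4)⟩
  · exact ⟨1, one_smul _ _, fun a h1 h2 h3 => (h ⟨a, h1, h2, h3⟩).elim⟩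

theorem QFillA_tri (nice : Nice G) (b : Bip G d C) (ih : ∀ v, ¬ C v → IH (stabilizer G v))
    {v c₁ c₂ : V} (hv : ¬ C v) (h1 : d v c₁ = 1) (h2 : d v c₂ = 1) :
    Ev fun N : Set G => ∀ x z₁ z₂ : G, x • v = v → z₁ • v = v → z₁ • c₁ = c₁ → z₂ • v = v →
      z₂ • c₂ = c₂ → z₂ ∉ KV N v → x * z₁ * x⁻¹ * z₂⁻¹ ∈ KV N v →
      ∃ y : G, x⁻¹ * y ∈ KV N v ∧ y • c₁ = c₂ := by
  have hc₁ : C c₁ := by
    by_contra h
    exact hv ((b.alt _ _ h1).2 h)
  have hc₂ : C c₂ := by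
    by_contra h
    exact hv ((b.alt _ _ h2).2 h)
  obtain ⟨e₁, f1, n1⟩ := QFillA_elt (G := G) v c₁
  obtain ⟨e₂, f2, n2⟩ := QFillA_elt (G := G) v c₂
  refine (ev_vertex nice b hv ((ih v hv).t2 e₁ e₂)).mono
    fun N f H x z₁ z₂ hx a1 a2 a3 a4 a5 a6 => ?_
  have z2 : z₂ ≠ 1 := fun h => a5 (h ▸ one_mem _)
  have z1 : z₁ ≠ 1 := by
    rintro rfl
    apply a5
    simpa using a6
  have E1 := n1 z₁ a1 a2 z1
  have E2 := n2 z₂ a3 a4 z2
  obtain ⟨y, y1, y2⟩ := H ⟨x, hx⟩ ⟨z₁, a1⟩ ⟨z₂, a3⟩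
    (Or.inr ⟨E1, Subtype.ext (b.comm c₁ hc₁ _ _ a2 f1)⟩)
    (Or.inr ⟨E2, Subtype.ext (b.comm c₂ hc₂ _ _ a4 f2)⟩)
    (fun h => a5 ((mem_KV_iff f v _).1 h)) ((mem_KV_iff f v _).2 a6)
  refine ⟨y, (mem_KV_iff f v _).1 y1, ?_⟩
  have y3 : Commute ((y : G) * e₁ * (y : G)⁻¹) (e₂ : G) := congrArg Subtype.val y2
  have E2' : (e₂ : G) ≠ 1 := fun h => E2 (Subtype.ext h)
  have E1' : (e₁ : G) ≠ 1 := fun h => E1 (Subtype.ext h)
  have g2 := (b.stab E2' hc₂ f2 _).2 y3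
  have g1 : ((y : G) * e₁ * (y : G)⁻¹) • (y : G) • c₁ = (y : G) • c₁ := by
    rw [mul_smul, inv_smul_smul, mul_smul, f1]
  rcases b.acyl _ _ _ ((b.inv _ _).2 hc₁) hc₂ g1 g2 with h | h
  · exact (QFill0.conj_ne E1' h).elim
  · exact h

/-- two edges at `v` with a common nontrivial stabiliser in the quotient are identified -/
def QFillA_Q (d : V → V → ℤ) (v : V) (N : Set G) : Prop :=
  ∀ c₁ c₂, d v c₁ = 1 → d v c₂ = 1 → ∀ z₁ z₂ : G, z₁ • v = v → z₁ • c₁ = c₁ → z₂ • v = v →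
    z₂ • c₂ = c₂ → z₂ ∉ normalClosure N → z₁ * z₂⁻¹ ∈ normalClosure N →
    ∃ k ∈ normalClosure N, k • c₁ = c₂

theorem QFillA_fixc {g z : G} {x : V} (h : z • x = x) : (g * z * g⁻¹) • g • x = g • x := by
  rw [mul_smul, inv_smul_smul, mul_smul, h]

theorem QFillA_vert (nice : Nice G) (b : Bip G d C) (ih : ∀ v, ¬ C v → IH (stabilizer G v))
    {v : V} (hv : ¬ C v) : Ev fun N : Set G => QFillA_Q d v N := by
  obtain ⟨W, w1, -, w3⟩ := FinE.nbr b.zt b.fin v
  have H := Ev.all ((W : Set V) ×ˢ (W : Set V)) (W.finite_toSet.prod W.finite_toSet)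
    (P := fun (p : V × V) (N : Set G) => ∀ x z₁ z₂ : G, x • v = v → z₁ • v = v →
      z₁ • p.1 = p.1 → z₂ • v = v → z₂ • p.2 = p.2 → z₂ ∉ KV N v →
      x * z₁ * x⁻¹ * z₂⁻¹ ∈ KV N v → ∃ y : G, x⁻¹ * y ∈ KV N v ∧ y • p.1 = p.2)
    fun p hp => QFillA_tri nice b ih hv (w1 _ hp.1) (w1 _ hp.2)
  refine (H.and (ev_rot nice b ih)).mono ?_
  rintro N f ⟨H, r, hk⟩ c₁ c₂ h1 h2 z₁ z₂ a1 a2 a3 a4 a5 a6
  obtain ⟨g₁, b1, b2⟩ := w3 c₁ h1
  obtain ⟨g₂, b3, b4⟩ := w3 c₂ h2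
  have i1 : g₁⁻¹ • v = v := by rw [inv_smul_eq_iff, b1]
  have i2 : g₂⁻¹ • v = v := by rw [inv_smul_eq_iff, b3]
  have i3 : z₂⁻¹ • v = v := by rw [inv_smul_eq_iff, a3]
  obtain ⟨y, y1, y2⟩ := H (g₁ • c₁, g₂ • c₂) ⟨b2, b4⟩ (g₂ * g₁⁻¹) (g₁ * z₁ * g₁⁻¹)
    (g₂ * z₂ * g₂⁻¹) (by rw [mul_smul, i1, b3]) (by rw [mul_smul, mul_smul, i1, a1, b1])
    (QFillA_fixc a2) (by rw [mul_smul, mul_smul, i2, a3, b3]) (QFillA_fixc a4)
    (fun h => a5 (by
      have := QFillA_conj (QFillA_KV_le N v h) g₂⁻¹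
      rwa [show g₂⁻¹ * (g₂ * z₂ * g₂⁻¹) * g₂⁻¹⁻¹ = z₂ by group] at this))
    (by
      rw [show g₂ * g₁⁻¹ * (g₁ * z₁ * g₁⁻¹) * (g₂ * g₁⁻¹)⁻¹ * (g₂ * z₂ * g₂⁻¹)⁻¹ =
        g₂ * (z₁ * z₂⁻¹) * g₂⁻¹ by group]
      refine r.mem (hk _ (QFillA_conj a6 g₂)) ?_
      rw [mul_smul, mul_smul, mul_smul, i2, i3, a1, b3])
  refine ⟨g₂⁻¹ * y * g₁, ?_, ?_⟩
  · have := QFillA_conj (QFillA_KV_le N v y1) g₁⁻¹
    rwa [show g₁⁻¹ * ((g₂ * g₁⁻¹)⁻¹ * y) * g₁⁻¹⁻¹ = g₂⁻¹ * y * g₁ by group] at this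
  · rw [mul_smul, mul_smul, y2, inv_smul_smul]

theorem QFillA_all (nice : Nice G) (b : Bip G d C) (ih : ∀ v, ¬ C v → IH (stabilizer G v)) :
    Ev fun N : Set G => ∀ v, ¬ C v → QFillA_Q d v N := by
  obtain ⟨W, hW⟩ := FinE.vert b.zt b.fin
  refine (Ev.all {v | v ∈ W ∧ ¬ C v} (W.finite_toSet.subset fun v hv => hv.1)
    (P := fun v (N : Set G) => QFillA_Q d v N) fun v hv => QFillA_vert nice b ih hv.2).mono ?_
  intro N f H v hv c₁ c₂ h1 h2 z₁ z₂ a1 a2 a3 a4 a5 a6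
  obtain ⟨h, hh⟩ := hW v
  obtain ⟨k, k1, k2⟩ := H (h • v) ⟨hh, fun c => hv ((b.inv _ _).1 c)⟩ (h • c₁) (h • c₂)
    (by rw [b.zt.act.iso, h1]) (by rw [b.zt.act.iso, h2]) (h * z₁ * h⁻¹) (h * z₂ * h⁻¹)
    (QFillA_fixc a1) (QFillA_fixc a2) (QFillA_fixc a3) (QFillA_fixc a4)
    (fun c => a5 (by
      have := QFillA_conj c h⁻¹
      rwa [show h⁻¹ * (h * z₂ * h⁻¹) * h⁻¹⁻¹ = z₂ by group] at this))
    (by
      rw [show h * z₁ * h⁻¹ * (h * z₂ * h⁻¹)⁻¹ = h * (z₁ * z₂⁻¹) * h⁻¹ by group]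
      exact QFillA_conj a6 h)
  refine ⟨h⁻¹ * k * h⁻¹⁻¹, QFillA_conj k1 h⁻¹, ?_⟩
  rw [inv_inv, mul_smul, mul_smul, k2, inv_smul_smul]

theorem ev_acyl (nice : Nice G) (b : Bip G d C) (ih : ∀ v, ¬ C v → IH (stabilizer G v)) :
    Ev fun N : Set G => ∀ (g : G) c c', C c → C c' → (∃ k ∈ normalClosure N, k • g • c = c) →
      (∃ k ∈ normalClosure N, k • g • c' = c') →
      g ∈ normalClosure N ∨ ∃ k ∈ normalClosure N, k • c = c' := by
  refine ((QFillA_all nice b ih).and (ev_rot nice b ih)).mono ?_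
  rintro N f ⟨H, r, hk⟩ g c c' hc hc' ⟨k, k1, k2⟩ ⟨k', k3, k4⟩
  obtain ⟨W, _, e, q, t⟩ := QFillA_setup r hk
  by_contra hn
  rw [not_or] at hn
  obtain ⟨hg, hn⟩ := hn
  have T := t.zt.act.tr
  have hs := QuotientGroup.mk'_surjective (normalClosure N)
  set φ := QuotientGroup.mk' (normalClosure N) with hφ
  have ne : q c ≠ q c' := fun h => by
    obtain ⟨l, l1, l2⟩ := (t.eq_iff _ _).1 h
    exact hn ⟨l, (QFillA_mk N l).1 l1, l2⟩
  have fa : φ g • q c = q c := by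
    rw [← t.equi]
    exact (t.eq_iff _ _).2 ⟨k, (QFillA_mk N k).2 k1, k2⟩
  have fb : φ g • q c' = q c' := by
    rw [← t.equi]
    exact (t.eq_iff _ _).2 ⟨k', (QFillA_mk N k').2 k3, k4⟩
  have fix : ∀ p, Bt e (q c) p (q c') → φ g • p = p := by
    intro p hp
    have h1 := t.zt.act.bt (φ g) hp
    rw [fa, fb] at h1
    refine T.bt_uniq h1 hp ?_
    conv_lhs => rw [← fa]
    exact t.zt.act.iso _ _ _
  have pos := T.pos ne
  have two : 2 ≤ e (q c) (q c') := by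
    by_contra h
    obtain ⟨y, y1, y2⟩ := t.lift c (q c') (by omega)
    obtain ⟨l, -, l2⟩ := (t.eq_iff _ _).1 y2
    exact (b.alt _ _ y1).1 hc ((b.inv l y).1 (l2 ▸ hc'))
  obtain ⟨p₁, b1, d1⟩ := T.ex_bt (q c) (q c') (t := 1) (by omega) (by omega)
  obtain ⟨p₂, b2, d2⟩ := T.ex_bt (q c) (q c') (t := 2) (by omega) two
  have b3 := (T.bt_of_le b1 b2 (by omega)).1
  have d3 : e p₁ p₂ = 1 := by
    unfold Bt at b3
    omega
  obtain ⟨v, v1, rfl⟩ := t.lift c p₁ d1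
  obtain ⟨c₂, v2, rfl⟩ := t.lift v p₂ d3
  have v1' : d v c = 1 := by rw [b.zt.act.tr.symm, v1]
  obtain ⟨z₁, a0, a1, a2⟩ := t.estab b.zt hs v1' v1' (fix _ b1) fa
  obtain ⟨z₂, a3, a4, a5⟩ := t.estab b.zt hs v2 v2 (fix _ b1) (fix _ b2)
  obtain ⟨l, l1, l2⟩ := H v ((b.alt _ _ v1).1 hc) c c₂ v1' v2 z₁ z₂ a1 a2 a4 a5
    (fun h => hg ((QFillA_mk N g).1 (by rw [← hφ, ← a3]; exact (QFillA_mk N z₂).2 h)))
    ((QFillA_mk N _).1 (by rw [← hφ, map_mul, map_inv, a0, a3, mul_inv_cancel]))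
  have : q c = q c₂ := (t.eq_iff _ _).2 ⟨l, (QFillA_mk N l).2 l1, l2⟩
  rw [← this, T.self] at d2
  omega

theorem QFillA_tf {H K : Type*} [Group H] [Group K] (tf : TF H) (φ : H ≃* K) : TF K := by
  intro g n hn h
  have := tf (φ.symm g) n hn (by rw [← map_pow, h, map_one])
  simpa using congrArg φ this

section quot

variable {N : Set G} {W : Type} [MulAction (G ⧸ normalClosure N) W] {e : W → W → ℤ} {q : V → W}

/-- the map of a vertex group onto the vertex group of the quotient -/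
def QFillA_psi (t : QTree (QuotientGroup.mk' (normalClosure N)) d e q) (v : V) :
    stabilizer G v →* stabilizer (G ⧸ normalClosure N) (q v) :=
  ((QuotientGroup.mk' (normalClosure N)).comp (stabilizer G v).subtype).codRestrict _ fun a => by
    rw [mem_stabilizer_iff]
    exact (t.equi a.1 v).symm.trans (congrArg q a.2)

theorem QFillA_psi_surj (t : QTree (QuotientGroup.mk' (normalClosure N)) d e q) (v : V) :
    Function.Surjective (QFillA_psi t v) := by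
  intro x
  obtain ⟨g, g1, g2⟩ := t.stab (QuotientGroup.mk'_surjective _) x.2
  exact ⟨⟨g, g2⟩, Subtype.ext g1⟩

theorem QFillA_iso (f : Filling N) (r : Rot G d (KV N))
    (hk : ∀ k ∈ normalClosure N, k ∈ closure {a | ∃ w : V, a ∈ KV N w})
    (t : QTree (QuotientGroup.mk' (normalClosure N)) d e q) (v : V) :
    Nonempty ((stabilizer G v ⧸ normalClosure (Subtype.val ⁻¹' N : Set (stabilizer G v))) ≃*
      stabilizer (G ⧸ normalClosure N) (q v)) := by
  have hker : normalClosure (Subtype.val ⁻¹' N : Set (stabilizer G v)) = (QFillA_psi t v).ker := by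
    ext a
    rw [mem_KV_iff f, MonoidHom.mem_ker, Subtype.ext_iff]
    exact ⟨fun h => (QFillA_mk N a.1).2 (QFillA_KV_le N v h),
      fun h => r.mem (hk _ ((QFillA_mk N a.1).1 h)) a.2⟩
  exact ⟨(QuotientGroup.quotientMulEquivOfEq hker).trans
    (QuotientGroup.quotientKerEquivOfSurjective _ (QFillA_psi_surj t v))⟩

theorem QFillA_cyc (b : Bip G d C) (f : Filling N)
    (t : QTree (QuotientGroup.mk' (normalClosure N)) d e q) {c : V} (hc : C c) :
    ∃ u : G ⧸ normalClosure N, ∀ a : G ⧸ normalClosure N, a • q c = q c → a ∈ zpowers u := by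
  have hs := QuotientGroup.mk'_surjective (normalClosure N)
  by_cases h : ∃ g : G, g ≠ 1 ∧ g • c = c
  · obtain ⟨g₀, g1, g2⟩ := h
    obtain ⟨θ, ad, -, hθ⟩ := f.loc g₀ g1
    have ad' : QFill0.Ad g₀ θ := ad
    let H : AddSubgroup ℤ :=
      { carrier := {n | ∃ a, Commute a g₀ ∧ θ a = n}
        zero_mem' := ⟨1, Commute.one_left _, ad'.one⟩
        add_mem' := by
          rintro _ _ ⟨a, ha, rfl⟩ ⟨a', ha', rfl⟩
          exact ⟨a * a', ha.mul_left ha', ad a a' ha ha'⟩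
        neg_mem' := by
          rintro _ ⟨a, ha, rfl⟩
          exact ⟨a⁻¹, ha.inv_left, ad'.inv ha⟩ }
    obtain ⟨m, hm⟩ := Int.subgroup_cyclic H
    have hm' : m ∈ H := by
      rw [hm]
      exact AddSubgroup.subset_closure rfl
    obtain ⟨u, u1, u2⟩ := hm'
    refine ⟨QuotientGroup.mk' _ u, fun a ha => ?_⟩
    obtain ⟨g, rfl, g3⟩ := t.stab hs ha
    have cg := (b.stab g1 hc g2 g).1 g3
    have : θ g ∈ H := ⟨g, cg, rfl⟩
    rw [hm, AddSubgroup.mem_closure_singleton] at this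
    obtain ⟨n, hn⟩ := this
    have h0 : g * (u ^ n)⁻¹ ∈ N := by
      rw [hθ _ (cg.mul_left (u1.zpow_left n).inv_left), ad _ _ cg (u1.zpow_left n).inv_left,
        ad'.inv (u1.zpow_left n), ad'.zpow u1, u2, ← hn, smul_eq_mul, add_neg_cancel]
    have h1 := (QFillA_mk N _).2 (subset_normalClosure h0)
    rw [map_mul, map_inv, map_zpow, mul_inv_eq_one] at h1
    rw [h1]
    exact zpow_mem (mem_zpowers _) n
  · refine ⟨1, fun a ha => ?_⟩
    obtain ⟨g, rfl, g3⟩ := t.stab hs ha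
    have : g = 1 := by
      by_contra g1
      exact h ⟨g, g1, g3⟩
    rw [this, map_one]
    exact one_mem _

end quot

theorem ih_la (nice : Nice G) (b : Bip G d C) (ih : ∀ v, ¬ C v → IH (stabilizer G v))
    (fg : ∀ v, ¬ C v → Group.FG (stabilizer G v)) :
    Ev fun N : Set G => TF (G ⧸ normalClosure N) ∧ LA (G ⧸ normalClosure N) := by
  obtain ⟨W₀, hW⟩ := FinE.vert b.zt b.fin
  have H := Ev.all {v | v ∈ W₀ ∧ ¬ C v} (W₀.finite_toSet.subset fun v hv => hv.1)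
    (P := fun v (N : Set G) =>
      TF (stabilizer G v ⧸ normalClosure (Subtype.val ⁻¹' N : Set (stabilizer G v))) ∧
      LA (stabilizer G v ⧸ normalClosure (Subtype.val ⁻¹' N : Set (stabilizer G v))))
    fun v hv => ev_vertex nice b hv.2 (ih v hv.2).la
  refine ((H.and (ev_acyl nice b ih)).and (ev_rot nice b ih)).mono ?_
  rintro N f ⟨⟨H, ac⟩, r, hk⟩
  obtain ⟨W, _, e, q, t⟩ := QFillA_setup r hk
  have hs := QuotientGroup.mk'_surjective (normalClosure N)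
  let C' : W → Prop := fun w => ∃ v, q v = w ∧ C v
  have hC : ∀ v, C' (q v) ↔ C v := by
    refine fun v => ⟨?_, fun h => ⟨v, rfl, h⟩⟩
    rintro ⟨v', h1, h2⟩
    obtain ⟨l, -, rfl⟩ := (t.eq_iff _ _).1 h1
    exact (b.inv _ _).2 h2
  have vert : ∀ v, ¬ C v → TF (stabilizer (G ⧸ normalClosure N) (q v)) ∧
      LA (stabilizer (G ⧸ normalClosure N) (q v)) := by
    intro v hv
    obtain ⟨h, hh⟩ := hW v
    obtain ⟨h1, h2⟩ := H (h • v) ⟨hh, fun c => hv ((b.inv _ _).1 c)⟩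
    obtain ⟨ψ⟩ := QFillA_iso f r hk t (h • v)
    have χ := (stabilizerEquivStabilizer (t.equi h v)).symm
    exact ⟨QFillA_tf h1 (ψ.trans χ), h2.congr (ψ.trans χ)⟩
  have cyc : ∀ c, C' c → ∃ u : G ⧸ normalClosure N, ∀ a : G ⧸ normalClosure N,
      a • c = c → a ∈ zpowers u := by
    rintro _ ⟨c, rfl, hc⟩
    exact QFillA_cyc b f t hc
  have tf : TF (G ⧸ normalClosure N) := by
    intro x n hn hx
    obtain ⟨w₀⟩ := t.zt.act.ne
    obtain ⟨p, hp⟩ := t.zt.fix_of_pow hn (g := x) (x := w₀) (by rw [hx, one_smul])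
    obtain ⟨v, rfl⟩ := t.surj p
    by_cases hv : C v
    · obtain ⟨a, rfl, a2⟩ := t.stab hs hp
      by_cases a1 : a = 1
      · rw [a1, map_one]
      rw [← map_pow, QFillA_mk] at hx
      have h1 := KV_c nice b f hv (r.mem (hk _ hx) (pow_mem (mem_stabilizer_iff.2 a2) n))
      obtain ⟨θ, ad, -, hθ⟩ := f.loc a a1
      rw [hθ _ ((Commute.refl a).pow_left n), QFill0.Ad.pow ad (Commute.refl a)] at h1
      refine (QFillA_mk N a).2 (subset_normalClosure ((hθ _ (Commute.refl a)).2 ?_))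
      exact (mul_eq_zero.1 h1).resolve_left (by exact_mod_cast hn.ne')
    · exact congrArg Subtype.val ((vert v hv).1 ⟨x, hp⟩ n hn (Subtype.ext hx))
  have b' : Bip (G ⧸ normalClosure N) e C' := by
    refine ⟨t.zt, t.finE b.fin, fun x w => ?_, fun x y hxy => ?_, ?_, fun c hc a a' ha ha' => ?_,
      fun c v hc _ => ?_, ?_⟩
    · obtain ⟨g, rfl⟩ := hs x
      obtain ⟨v, rfl⟩ := t.surj w
      rw [← t.equi, hC, hC, b.inv]
    · obtain ⟨x, y, h, rfl, rfl⟩ := t.adj_lift hxy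
      rw [hC, hC]
      exact b.alt _ _ h
    · rintro x _ _ ⟨c, rfl, hc⟩ ⟨c', rfl, hc'⟩ h1 h2
      obtain ⟨g, rfl⟩ := hs x
      rw [← t.equi] at h1 h2
      obtain ⟨k, k1, k2⟩ := (t.eq_iff _ _).1 h1
      obtain ⟨k', k3, k4⟩ := (t.eq_iff _ _).1 h2
      rcases ac g c c' hc hc' ⟨k, (QFillA_mk N k).1 k1, k2⟩ ⟨k', (QFillA_mk N k').1 k3, k4⟩ with
        h | ⟨l, l1, l2⟩
      · exact Or.inl ((QFillA_mk N g).2 h)
      · exact Or.inr ((t.eq_iff _ _).2 ⟨l, (QFillA_mk N l).2 l1, l2⟩)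
    · obtain ⟨u, hu⟩ := cyc c hc
      obtain ⟨i, rfl⟩ := mem_zpowers_iff.1 (hu a ha)
      obtain ⟨j, rfl⟩ := mem_zpowers_iff.1 (hu a' ha')
      exact (Commute.refl u).zpow_zpow i j
    · obtain ⟨u, hu⟩ := cyc c hc
      exact Or.inl ⟨u, fun a ha _ => hu a ha⟩
    · obtain ⟨c, hc, h⟩ := b.free
      refine ⟨q c, (hC c).2 hc, fun a ha => ?_⟩
      obtain ⟨g, rfl, g2⟩ := t.stab hs ha
      rw [h g g2, map_one]
  refine ⟨tf, la_of_bip tf b' cyc fun w hw => ?_⟩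
  obtain ⟨v, rfl⟩ := t.surj w
  have hv : ¬ C v := fun h => hw ((hC v).2 h)
  have := fg v hv
  exact ⟨Group.fg_of_surjective (QFillA_psi_surj t v), (vert v hv).2⟩

end Pool.Agent.Work.MP_904812_al
end

-- merged part: Pool.Agent.Work.MP_904812_al.QFill2
section
/-! Fillings of a tree of cylinders: embedding and lifting. -/

namespace Pool.Agent.Work.MP_904812_al

set_option linter.unusedSectionVars false
set_option linter.unusedVariables false

open Subgroup MulAction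

variable {G V : Type} [Group G] [MulAction G V] {d : V → V → ℤ} {C : V → Prop}

theorem QFill2_KV_le (N : Set G) (w : V) {a : G} (ha : a ∈ KV N w) : a ∈ normalClosure N :=
  (closure_le _).2 (fun _ hn => subset_normalClosure hn.1) ha

/-- the properties of the quotient tree that are used here -/
structure QFill2Q (d : V → V → ℤ) (N : Set G) {W : Type} (e : W → W → ℤ) (q : V → W) : Prop where
  tr : Tr e
  adj : ∀ x y, d x y = 1 → e (q x) (q y) = 1
  eq_iff : ∀ v v', q v = q v' ↔ ∃ k ∈ normalClosure N, k • v = v'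
  nb : ∀ w a b, d w a = 1 → d w b = 1 → q a = q b → ∃ k ∈ KV N w, k • a = b
  iso : ∀ (g : G) x y, e (q (g • x)) (q (g • y)) = e (q x) (q y)

theorem QFill2_quot {N : Set G} (r : Rot G d (KV N))
    (hk : ∀ k ∈ normalClosure N, k ∈ closure {a | ∃ w : V, a ∈ KV N w}) :
    ∃ (W : Type) (e : W → W → ℤ) (q : V → W), QFill2Q d N e q := by
  have hφ : ∀ k : G, QuotientGroup.mk' (normalClosure N) k = 1 ↔ k ∈ normalClosure N :=
    fun k => QuotientGroup.eq_one_iff k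
  obtain ⟨W, _, e, q, Q⟩ := quot_tree r.zt (QuotientGroup.mk' (normalClosure N))
    (QuotientGroup.mk'_surjective _) fun k h1 => by
      refine closure_mono ?_ (hk k ((hφ k).1 h1))
      rintro a ⟨w, hw⟩
      exact ⟨(hφ a).2 (QFill2_KV_le N w hw), w, r.fix w a hw⟩
  refine ⟨W, e, q, Q.zt.act.tr, Q.adj, fun v v' => ?_, fun w a b ha hb h => ?_, fun g x y => ?_⟩
  · rw [Q.eq_iff]
    exact exists_congr fun k => and_congr_left' (hφ k)
  · exact Q.nb r (fun k h1 => hk k ((hφ k).1 h1)) ha hb h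
  · rw [Q.equi, Q.equi, Q.zt.act.iso]

theorem QFill2Q.lip {N : Set G} {W : Type} {e : W → W → ℤ} {q : V → W} (Q : QFill2Q d N e q)
    (T : Tr d) (x y : V) : e (q x) (q y) ≤ d x y := by
  have key : ∀ (n : ℕ) y, d x y = n → e (q x) (q y) ≤ n := by
    intro n
    induction n with
    | zero =>
      intro y h
      rw [T.eq_of h, Q.tr.self]
      exact le_rfl
    | succ n ih =>
      intro y h
      obtain ⟨z, h1, h2⟩ := T.qtr_pred h
      have a1 := ih z h2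
      have a2 := Q.adj z y h1
      have a3 := Q.tr.tri (q x) (q z) (q y)
      push_cast
      omega
  have h0 := T.nonneg x y
  have := key (d x y).toNat y (by omega)
  omega

theorem QFill2Q.smul {N : Set G} {W : Type} {e : W → W → ℤ} {q : V → W} (Q : QFill2Q d N e q)
    {k : G} (hk : k ∈ normalClosure N) (v : V) : q (k • v) = q v :=
  ((Q.eq_iff _ _).2 ⟨k, hk, rfl⟩).symm

/-- the quotient tree exists and the convex set `U` embeds in it -/
theorem QFill2_emb (nice : Nice G) (b : Bip G d C) (ih : ∀ v, ¬ C v → IH (stabilizer G v))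
    (U : Set V) (conv : ∀ x ∈ U, ∀ y ∈ U, ∀ p, Bt d x p y → p ∈ U) (T : Set (V × V × V))
    (hT : T.Finite) (turn : ∀ w' ∈ U, ∀ w ∈ U, ∀ w'' ∈ U, d w' w = 1 → d w w'' = 1 →
      ∃ g : G, (g • w', g • w, g • w'') ∈ T) :
    Ev fun N : Set G => Rot G d (KV N) ∧ ∃ (W : Type) (e : W → W → ℤ) (q : V → W),
      QFill2Q d N e q ∧ ∀ x ∈ U, ∀ y ∈ U, e (q x) (q y) = d x y := by
  have I := b.zt.act
  have h1 : Ev fun N : Set G => ∀ t ∈ T, d t.1 t.2.1 = 1 → d t.2.1 t.2.2 = 1 → t.1 ≠ t.2.2 →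
      ∀ k ∈ KV N t.2.1, k • t.1 ≠ t.2.2 := by
    refine Ev.all T hT fun t _ => ?_
    by_cases h : d t.1 t.2.1 = 1 ∧ d t.2.1 t.2.2 = 1 ∧ t.1 ≠ t.2.2
    · exact (ev_turn nice b ih h.1 h.2.1 h.2.2).mono fun N _ hN _ _ _ => hN
    · exact Ev.of_all fun N _ a1 a2 a3 => absurd ⟨a1, a2, a3⟩ h
  refine ((ev_rot nice b ih).and h1).mono fun N _ ⟨⟨r, hk⟩, ht⟩ => ⟨r, ?_⟩
  obtain ⟨W, e, q, Q⟩ := QFill2_quot r hk
  refine ⟨W, e, q, Q, fun x hx y hy => I.tr.map_geod Q.tr q Q.adj ?_⟩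
  intro w' w w'' b1 b2 b3 a1 a2 ne hq
  obtain ⟨k, k1, k2⟩ := Q.nb w w' w'' (by rw [I.tr.symm]; exact a1) a2 hq
  obtain ⟨g, hg⟩ := turn w' (conv x hx y hy _ b1) w (conv x hx y hy _ b2) w''
    (conv x hx y hy _ b3) a1 a2
  refine ht _ hg (by rw [I.iso]; exact a1) (by rw [I.iso]; exact a2)
    (fun h => ne (smul_left_cancel g h)) _ (r.conj w k k1 g) ?_
  simp only [mul_smul, inv_smul_smul, k2]

/-- a convex set with finitely many orbits of turns embeds in the quotient -/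
theorem ev_emb (nice : Nice G) (b : Bip G d C) (ih : ∀ v, ¬ C v → IH (stabilizer G v))
    (U : Set V) (conv : ∀ x ∈ U, ∀ y ∈ U, ∀ p, Bt d x p y → p ∈ U) (T : Set (V × V × V))
    (hT : T.Finite) (turn : ∀ w' ∈ U, ∀ w ∈ U, ∀ w'' ∈ U, d w' w = 1 → d w w'' = 1 →
      ∃ g : G, (g • w', g • w, g • w'') ∈ T) :
    Ev fun N : Set G => ∀ x ∈ U, ∀ y ∈ U, ∀ k ∈ normalClosure N, d x y ≤ d x (k • y) := by
  refine (QFill2_emb nice b ih U conv T hT turn).mono ?_
  rintro N - ⟨-, W, e, q, Q, emb⟩ x hx y hy k hk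
  rw [← emb x hx y hy, ← Q.smul hk y]
  exact Q.lip b.zt.act.tr _ _

/-- the union of the translates of `K` under the powers of `h` -/
def QFill2U (h : G) (K : Set V) : Set V := {z | ∃ n : ℤ, h ^ n • z ∈ K}

theorem QFill2U.of_mem {h : G} {K : Set V} {z : V} (hz : z ∈ K) : z ∈ QFill2U h K :=
  ⟨0, by rwa [zpow_zero, one_smul]⟩

theorem QFill2U.smul {h : G} {K : Set V} {z : V} (hz : z ∈ QFill2U h K) (m : ℤ) :
    h ^ m • z ∈ QFill2U h K := by
  obtain ⟨n, hn⟩ := hz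
  exact ⟨n - m, by rwa [← mul_smul, ← zpow_add, sub_add_cancel]⟩

theorem QFill2U.star (I : IAct G d) {h : G} {K : Set V}
    (conv : ∀ x ∈ K, ∀ y ∈ K, ∀ p, Bt d x p y → p ∈ K) {p p₀ : V} (hp : p ∈ K) (hp' : h • p ∈ K)
    (h₀ : p₀ ∈ K) {a z : V} (ha : a ∈ QFill2U h K) (hz : Bt d p₀ z a) : z ∈ QFill2U h K := by
  have T := I.tr
  have step : ∀ (n : ℤ) z, Bt d (h ^ n • p) z (h ^ (n + 1) • p) → z ∈ QFill2U h K := by
    intro n z hz
    refine ⟨-n, conv p hp _ hp' _ ?_⟩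
    have := I.bt (h ^ (-n)) hz
    rwa [← mul_smul, ← mul_smul, ← zpow_add, ← zpow_add, neg_add_cancel, zpow_zero, one_smul,
      neg_add_cancel_left, zpow_one] at this
  have ax : ∀ (n : ℤ) z, Bt d p z (h ^ n • p) → z ∈ QFill2U h K := by
    intro n
    induction n using Int.induction_on with
    | zero =>
      intro z hz
      rw [zpow_zero, one_smul] at hz
      exact QFill2U.of_mem (conv p hp p hp z hz)
    | succ i ih =>
      intro z hz
      rcases T.bt_split hz (h ^ (i : ℤ) • p) with c | c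
      · exact ih z (T.bt_symm c)
      · exact step _ z c
    | pred i ih =>
      intro z hz
      rcases T.bt_split hz (h ^ (-(i : ℤ)) • p) with c | c
      · exact ih z (T.bt_symm c)
      · refine step (-(i : ℤ) - 1) z ?_
        rw [sub_add_cancel]
        exact T.bt_symm c
  obtain ⟨n, hn⟩ := ha
  rcases T.bt_split hz p with c | c
  · exact QFill2U.of_mem (conv p hp p₀ h₀ z c)
  rcases T.bt_split c (h ^ (-n) • p) with c' | c'
  · exact ax _ z (T.bt_symm c')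
  · refine ⟨n, conv p hp _ hn _ ?_⟩
    have := I.bt (h ^ n) c'
    rwa [← mul_smul, ← zpow_add, add_neg_cancel, zpow_zero, one_smul] at this

theorem QFill2U.near (I : IAct G d) {h : G} {K : Set V} {p : V} (hm : Mn d h p) {ρ : ℤ}
    (hρ : ∀ x ∈ K, d p x ≤ ρ) {a : V} (ha : a ∈ QFill2U h K) :
    ∃ m, Mn d h m ∧ d m a ≤ ρ := by
  obtain ⟨n, hn⟩ := ha
  refine ⟨h ^ (-n) • p, I.mn_smul hm (Commute.zpow_left (Commute.refl h) _), ?_⟩
  rw [zpow_neg, I.QAx_l]
  exact hρ _ hn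

theorem QFill2U.locfin (I : IAct G d) {h : G} (hy : h = 1 ∨ ∀ w : V, h • w ≠ w) {K : Set V}
    (hK : K.Finite) {p : V} (hm : Mn d h p) (o : V) (r : ℤ) :
    {a | a ∈ QFill2U h K ∧ d o a ≤ r}.Finite := by
  have T := I.tr
  rcases hy with rfl | hy
  · refine hK.subset ?_
    rintro a ⟨⟨n, hn⟩, -⟩
    rwa [one_zpow, one_smul] at hn
  obtain ⟨ρ, hρ⟩ := (hK.image (d p)).bddAbove
  refine (((Set.finite_Icc (-(d p o + r + ρ)) (d p o + r + ρ)).prod hK).image
    fun t : ℤ × V => h ^ t.1 • t.2).subset ?_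
  rintro a ⟨⟨n, hn⟩, ha⟩
  refine ⟨(-n, h ^ n • a), ⟨?_, hn⟩, ?_⟩
  · have a1 := (I.mn_zpow hm n).2
    have a2 := T.pos (hy p).symm
    have a3 : d p (h ^ n • a) ≤ ρ := hρ ⟨_, hn, rfl⟩
    have a4 := T.tri p (h ^ n • a) (h ^ n • p)
    have a5 := I.iso (h ^ n) a p
    have a6 := T.tri p o a
    have a7 := T.symm a p
    rw [smul_eq_mul] at a1
    have a8 : |n| ≤ |n| * d p (h • p) := le_mul_of_one_le_right (abs_nonneg n) (by omega)
    have a9 : |n| ≤ d p o + r + ρ := by omega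
    rw [abs_le] at a9
    exact ⟨by simp only; omega, by simp only; omega⟩
  · simp only
    rw [← mul_smul, ← zpow_add, neg_add_cancel, zpow_zero, one_smul]

theorem QFill2_move (T : Tr d) {u z v u' : V} (a : Bt d u z v) (h : d u u' ≤ d u z) :
    Bt d u' z v := by
  rcases T.bt_split a u' with c | c
  · have a1 := T.symm u u'
    have a2 := T.symm u z
    have a3 := T.nonneg u' z
    have : u' = z := T.eq_of (by unfold Bt at c; omega)
    rw [this]
    exact T.bt_left _ _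
  · exact c

theorem QFill2_inter (b : Bip G d C) {h₁ h₂ : G} (nc : ¬ Commute h₁ h₂) {K : Set V}
    (hK : K.Finite) {p₁ p₂ : V} (m₁ : Mn d h₁ p₁) (m₂ : Mn d h₂ p₂) :
    ∃ R : ℤ, ∀ w ∈ QFill2U h₁ K, w ∈ QFill2U h₂ K → d p₁ w ≤ R := by
  have I := b.zt.act
  have T := I.tr
  obtain ⟨ρ₁, hρ₁⟩ := (hK.image (d p₁)).bddAbove
  obtain ⟨ρ₂, hρ₂⟩ := (hK.image (d p₂)).bddAbove
  refine ⟨d p₁ p₂ + 2 * ρ₁ + ρ₂ + 2 * (d p₁ (h₁ • p₁) + d p₂ (h₂ • p₂)) + 3, fun w w₁ w₂ => ?_⟩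
  obtain ⟨a, ma, ha⟩ := QFill2U.near I m₁ (fun x hx => hρ₁ ⟨x, hx, rfl⟩) w₁
  obtain ⟨a', ma', ha'⟩ := QFill2U.near I m₂ (fun x hx => hρ₂ ⟨x, hx, rfl⟩) w₂
  by_contra hc
  have n1 := T.nonneg p₁ p₂
  have n2 := T.nonneg a w
  have n3 := T.nonneg a' w
  have n4 := T.nonneg p₁ (h₁ • p₁)
  have n5 := T.nonneg p₂ (h₂ • p₂)
  have t1 := T.tri p₁ a w
  have t2 := T.tri a w a'
  have s1 := T.symm w a'
  obtain ⟨x, bx, dx⟩ := T.ex_bt p₁ a (t := d p₁ p₂) n1 (by omega)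
  obtain ⟨y, by', dy⟩ := T.ex_bt p₁ a (t := d p₁ a - (ρ₁ + ρ₂)) (by omega) (by omega)
  have key : ∀ z, Bt d p₁ z a → d p₁ p₂ ≤ d p₁ z → d p₁ z ≤ d p₁ a - (ρ₁ + ρ₂) → Mn d h₂ z := by
    intro z bz l1 l2
    have c1 := QFill2_move T bz l1
    have s2 := T.symm a z
    have c2 := QFill2_move T (T.bt_symm c1) (u' := a') (by unfold Bt at bz; omega)
    exact I.mn_conv ma' m₂ c2
  have x1 := I.mn_conv m₁ ma bx
  have x2 := key x bx (by omega) (by omega)
  refine nc (b.comm_of_overlap x1 (I.mn_conv m₁ ma by') x2 (key y by' (by omega) (by omega)) ?_)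
  have e1 := I.QAx_len x1 m₁
  have e2 := I.QAx_len x2 m₂
  have e3 := (T.bt_of_le bx by' (by omega)).1
  unfold Bt at e3
  omega

/-- two periodic sets -/
theorem ev_emb2 (nice : Nice G) (b : Bip G d C) (ih : ∀ v, ¬ C v → IH (stabilizer G v))
    {h₁ h₂ : G} (hy₁ : h₁ = 1 ∨ ∀ w : V, h₁ • w ≠ w) (hy₂ : h₂ = 1 ∨ ∀ w : V, h₂ • w ≠ w)
    (nc : h₁ = 1 ∨ h₂ = 1 ∨ ¬ Commute h₁ h₂) (Y : Finset V) :
    Ev fun N : Set G => ∀ x ∈ Y, ∀ y ∈ Y, ∀ i j : ℤ, ∀ k ∈ normalClosure N,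
      d (h₁ ^ i • x) (h₂ ^ j • y) ≤ d (h₁ ^ i • x) (k • h₂ ^ j • y) ∧
      d (h₁ ^ i • x) (h₁ ^ j • y) ≤ d (h₁ ^ i • x) (k • h₁ ^ j • y) := by
  classical
  have I := b.zt.act
  have T := I.tr
  obtain ⟨p₁, m₁⟩ := b.zt.semi h₁
  obtain ⟨p₂, m₂⟩ := b.zt.semi h₂
  set F : Finset V := insert p₁ (insert (h₁ • p₁) (insert p₂ (insert (h₂ • p₂) Y))) with hF
  set K : Set V := Hull d F with hKdef
  have hK : K.Finite := T.hull_finite F
  have cK : ∀ x ∈ K, ∀ y ∈ K, ∀ p, Bt d x p y → p ∈ K := fun x hx y hy p a => T.hull_conv hx hy a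
  have k1 : p₁ ∈ K := T.mem_hull (by simp [hF])
  have k2 : h₁ • p₁ ∈ K := T.mem_hull (by simp [hF])
  have k3 : p₂ ∈ K := T.mem_hull (by simp [hF])
  have k4 : h₂ • p₂ ∈ K := T.mem_hull (by simp [hF])
  have k5 : ∀ y ∈ Y, y ∈ K := fun y hy => T.mem_hull (by simp [hF, hy])
  have s₁ : ∀ {a z : V}, a ∈ QFill2U h₁ K → Bt d p₁ z a → z ∈ QFill2U h₁ K :=
    fun ha hz => QFill2U.star I cK k1 k2 k1 ha hz
  have s₂ : ∀ {a z : V}, a ∈ QFill2U h₂ K → Bt d p₁ z a → z ∈ QFill2U h₂ K :=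
    fun ha hz => QFill2U.star I cK k3 k4 k1 ha hz
  set U : Set V := QFill2U h₁ K ∪ QFill2U h₂ K with hU
  have cU : ∀ x ∈ U, ∀ y ∈ U, ∀ p, Bt d x p y → p ∈ U := by
    intro x hx y hy p a
    rcases T.bt_split a p₁ with c | c
    · exact hx.imp (fun h => s₁ h c) fun h => s₂ h c
    · exact hy.imp (fun h => s₁ h c) fun h => s₂ h c
  have fI : (QFill2U h₁ K ∩ QFill2U h₂ K).Finite := by
    rcases nc with rfl | rfl | nc
    · refine hK.subset ?_
      rintro a ⟨⟨n, hn⟩, -⟩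
      rwa [one_zpow, one_smul] at hn
    · refine hK.subset ?_
      rintro a ⟨-, n, hn⟩
      rwa [one_zpow, one_smul] at hn
    · obtain ⟨R, hR⟩ := QFill2_inter b nc hK m₁ m₂
      exact (QFill2U.locfin I hy₁ hK m₁ p₁ R).subset fun w hw => ⟨hw.1, hR w hw.1 hw.2⟩
  have fN : ∀ o : V, {a | a ∈ U ∧ d o a ≤ 1}.Finite := fun o =>
    ((QFill2U.locfin I hy₁ hK m₁ o 1).union (QFill2U.locfin I hy₂ hK m₂ o 1)).subset
      fun a ha => ha.1.imp (fun h => ⟨h, ha.2⟩) fun h => ⟨h, ha.2⟩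
  set Z : Set V := K ∪ QFill2U h₁ K ∩ QFill2U h₂ K with hZ
  have fZ : Z.Finite := hK.union fI
  set B : Set V := ⋃ o ∈ Z, {a | a ∈ U ∧ d o a ≤ 1} with hB
  have fB : B.Finite := fZ.biUnion fun o _ => fN o
  have mB : ∀ {o a : V}, o ∈ Z → a ∈ U → d o a = 1 → a ∈ B := fun ho ha h =>
    Set.mem_biUnion ho ⟨ha, h.le⟩
  have side : ∀ {A A' : Set V}, (∀ {a z : V}, a ∈ A → Bt d p₁ z a → z ∈ A) →
      (∀ {a z : V}, a ∈ A' → Bt d p₁ z a → z ∈ A') → ∀ {w a : V}, w ∈ A → w ∉ A' →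
      a ∈ A ∨ a ∈ A' → d w a = 1 → a ∈ A := by
    intro A A' sA sA' w a hw hw' ha h
    refine ha.elim id fun ha' => ?_
    have := T.symm w a
    rcases T.adj_cases h p₁ with c | c
    · exact absurd (sA' ha' (by unfold Bt; omega)) hw'
    · exact sA hw (by unfold Bt; omega)
  refine (ev_emb nice b ih U cU (B ×ˢ Z ×ˢ B) (fB.prod (fZ.prod fB)) ?_).mono ?_
  · intro w' hw' w hw w'' hw'' a1 a2
    rw [T.symm] at a1
    by_cases c₁ : w ∈ QFill2U h₁ K
    · by_cases c₂ : w ∈ QFill2U h₂ K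
      · refine ⟨1, ?_⟩
        simp only [one_smul]
        exact ⟨mB (Or.inr ⟨c₁, c₂⟩) hw' a1, Or.inr ⟨c₁, c₂⟩, mB (Or.inr ⟨c₁, c₂⟩) hw'' a2⟩
      · have e1 := side s₁ s₂ c₁ c₂ hw' a1
        have e2 := side s₁ s₂ c₁ c₂ hw'' a2
        obtain ⟨n, hn⟩ := c₁
        exact ⟨h₁ ^ n, mB (Or.inl hn) (Or.inl (QFill2U.smul e1 n)) (by rw [I.iso]; exact a1),
          Or.inl hn, mB (Or.inl hn) (Or.inl (QFill2U.smul e2 n)) (by rw [I.iso]; exact a2)⟩
    · have c₂ : w ∈ QFill2U h₂ K := hw.resolve_left c₁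
      have e1 := side s₂ s₁ c₂ c₁ (Or.symm hw') a1
      have e2 := side s₂ s₁ c₂ c₁ (Or.symm hw'') a2
      obtain ⟨n, hn⟩ := c₂
      exact ⟨h₂ ^ n, mB (Or.inl hn) (Or.inr (QFill2U.smul e1 n)) (by rw [I.iso]; exact a1),
        Or.inl hn, mB (Or.inl hn) (Or.inr (QFill2U.smul e2 n)) (by rw [I.iso]; exact a2)⟩
  · intro N _ hN x hx y hy i j k hk
    have u1 : h₁ ^ i • x ∈ U := Or.inl (QFill2U.smul (QFill2U.of_mem (k5 x hx)) i)
    exact ⟨hN _ u1 _ (Or.inr (QFill2U.smul (QFill2U.of_mem (k5 y hy)) j)) k hk,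
      hN _ u1 _ (Or.inl (QFill2U.smul (QFill2U.of_mem (k5 y hy)) j)) k hk⟩

/-- a finite hull embeds in the quotient tree -/
theorem QFill2_hull (nice : Nice G) (b : Bip G d C) (ih : ∀ v, ¬ C v → IH (stabilizer G v))
    (F : Finset V) :
    Ev fun N : Set G => Rot G d (KV N) ∧ ∃ (W : Type) (e : W → W → ℤ) (q : V → W),
      QFill2Q d N e q ∧ ∀ x ∈ Hull d F, ∀ y ∈ Hull d F, e (q x) (q y) = d x y := by
  have T := b.zt.act.tr
  have hK := T.hull_finite F
  refine QFill2_emb nice b ih _ (fun x hx y hy p a => T.hull_conv hx hy a) _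
    (hK.prod (hK.prod hK)) fun w' hw' w hw w'' hw'' _ _ => ⟨1, ?_⟩
  simp only [one_smul]
  exact ⟨hw', hw, hw''⟩

/-- an element which respects the images of two segments respects the images of their points -/
theorem QFill2Q.seg {N : Set G} {W : Type} {e : W → W → ℤ} {q : V → W} (Q : QFill2Q d N e q)
    (T : Tr d) {F : Finset V} (emb : ∀ x ∈ Hull d F, ∀ y ∈ Hull d F, e (q x) (q y) = d x y)
    {c y y' : V} (hc : c ∈ F) (hy : y ∈ F) (hy' : y' ∈ F) {g : G} (gc : g • c = c)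
    (gy : q (g • y) = q y') : d c y' = d c y ∧
      ∀ x x', Bt d c x y → Bt d c x' y' → d c x = d c x' → q (g • x) = q x' := by
  have c0 := T.mem_hull hc
  have y0 := T.mem_hull hy
  have y1 := T.mem_hull hy'
  have e1 : d c y' = d c y := by
    rw [← emb c c0 y' y1, ← emb c c0 y y0, ← gy, ← Q.iso g c y, gc]
  refine ⟨e1, fun x x' bx bx' h => ?_⟩
  have x0 := T.hull_conv c0 y0 bx
  have x1 := T.hull_conv c0 y1 bx'
  have a1 : e (q c) (q (g • x)) = d c x := by rw [← emb c c0 x x0, ← Q.iso g c x, gc]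
  have a2 : e (q (g • x)) (q y') = d x y := by rw [← emb x x0 y y0, ← Q.iso g x y, gy]
  have a3 := emb c c0 y' y1
  have a4 := emb c c0 x' x1
  have a5 := emb x' x1 y' y1
  unfold Bt at bx bx'
  exact Q.tr.bt_uniq (x := q c) (y := q y') (by unfold Bt; omega) (by unfold Bt; omega) (by omega)

/-- the lifting lemma -/
theorem ev_lift (nice : Nice G) (b : Bip G d C) (ih : ∀ v, ¬ C v → IH (stabilizer G v))
    {c y y' : V} (hc : C c) (h2 : 2 ≤ d c y) :
    Ev fun N : Set G => ∀ g : G, (∃ k ∈ normalClosure N, k • g • c = c) →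
      (∃ k ∈ normalClosure N, k • g • y = y') →
      ∃ z : G, z • c = c ∧ z • y = y' ∧ g⁻¹ * z ∈ normalClosure N := by
  classical
  have I := b.zt.act
  have T := I.tr
  by_cases hd : d c y' = d c y
  swap
  · refine (QFill2_hull nice b ih {c, y, y'}).mono ?_
    rintro N - ⟨-, W, e, q, Q, emb⟩ g ⟨k, hk, gc⟩ ⟨k', hk', gy⟩
    refine absurd (Q.seg T emb (c := c) (y := y) (y' := y') (by simp) (by simp) (by simp)
      (g := k * g) (by rw [mul_smul, gc]) ?_).1 hd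
    rw [mul_smul, Q.smul hk, ← gy, Q.smul hk']
  obtain ⟨x₂, b₂, d₂⟩ := T.ex_bt c y (t := 2) (by omega) h2
  obtain ⟨x₂', b₂', d₂'⟩ := T.ex_bt c y' (t := 2) (by omega) (by omega)
  obtain ⟨x₁, b₁, d₁⟩ := T.ex_bt c x₂ (t := 1) (by omega) (by omega)
  obtain ⟨x₁', b₁', d₁'⟩ := T.ex_bt c x₂' (t := 1) (by omega) (by omega)
  have d₃ : d x₁ x₂ = 1 := by unfold Bt at b₁; omega
  have d₃' : d x₁' x₂' = 1 := by unfold Bt at b₁'; omega
  have c₂ : C x₂' := by
    have a1 := b.alt c x₁' d₁'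
    have a2 := b.alt x₁' x₂' d₃'
    tauto
  obtain ⟨z₀, hz₀⟩ : ∃ z₀ : G, (∃ z : G, z • c = c ∧ z • x₂ = x₂') →
      z₀ • c = c ∧ z₀ • x₂ = x₂' := by
    by_cases h : ∃ z : G, z • c = c ∧ z • x₂ = x₂'
    · obtain ⟨z, hz⟩ := h
      exact ⟨z, fun _ => hz⟩
    · exact ⟨1, fun h' => absurd h' h⟩
  have L : Ev fun N : Set G => ∀ k ∈ KV N x₁', ∀ g : G, g • c = c → g • x₁ = x₁' →
      k • g • x₂ = x₂' → ∃ z : G, z • c = c ∧ z • x₂ = x₂' := by
    by_cases h : ∃ b₀ : G, b₀ • c = c ∧ b₀ • x₁ = x₁'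
    · obtain ⟨b₀, e1, e2⟩ := h
      refine (ev_lift2 nice b ih (c₁ := b₀ • x₂) hc d₁' (by rw [← e2, I.iso]; exact d₃) d₃').mono ?_
      intro N _ hN k hk g g1 g2 g3
      obtain ⟨a', f1, -, f3⟩ := hN k hk (g * b₀⁻¹)
        (by rw [mul_smul, inv_smul_eq_iff.2 e1.symm, g1])
        (by rw [mul_smul, inv_smul_eq_iff.2 e2.symm, g2])
        (by rw [mul_smul, inv_smul_smul, g3])
      exact ⟨a' * b₀, by rw [mul_smul, e1, f1], by rw [mul_smul, f3]⟩
    · exact Ev.of_all fun N _ k _ g g1 g2 _ => absurd ⟨g, g1, g2⟩ h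
  refine (((QFill2_hull nice b ih {c, y, y', z₀ • y}).and L).and (ev_acyl nice b ih)).mono ?_
  rintro N - ⟨⟨⟨r, W, e, q, Q, emb⟩, hL⟩, hA⟩ g ⟨k, hk, gc⟩ ⟨k', hk', gy⟩
  rw [← mul_smul] at gc
  have qy : q ((k * g) • y) = q y' := by rw [mul_smul, Q.smul hk, ← gy, Q.smul hk']
  have S := (Q.seg T emb (c := c) (y := y) (y' := y') (by simp) (by simp) (by simp) gc qy).2
  have q₁ := S x₁ x₁' (T.bt_trans b₁ b₂).1 (T.bt_trans b₁' b₂').1 (by omega)
  have q₂ := S x₂ x₂' b₂ b₂' (by omega)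
  obtain ⟨k₁, hk₁, e₁⟩ := Q.nb c _ _ (by rw [← d₁, ← I.iso (k * g) c x₁, gc]) d₁' q₁
  have n₁ := QFill2_KV_le N c hk₁
  rw [← mul_smul] at e₁
  have gc₁ : (k₁ * (k * g)) • c = c := by rw [mul_smul, gc, r.fix c k₁ hk₁]
  obtain ⟨k₂, hk₂, e₂⟩ := Q.nb x₁' ((k₁ * (k * g)) • x₂) x₂' (by rw [← e₁, I.iso]; exact d₃) d₃'
    (by rw [mul_smul, Q.smul n₁, q₂])
  obtain ⟨z1, z2⟩ := hz₀ (hL k₂ hk₂ _ gc₁ e₁ e₂)
  have c0 : c ∈ Hull d {c, y, y', z₀ • y} := T.mem_hull (by simp)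
  have y0 : y' ∈ Hull d {c, y, y', z₀ • y} := T.mem_hull (by simp)
  have n₂ : k₁ * (k * g) * z₀⁻¹ ∈ normalClosure N := by
    refine (hA _ c x₂' hc c₂ ⟨1, one_mem _, ?_⟩ ⟨k₂, QFill2_KV_le N _ hk₂, ?_⟩).resolve_right ?_
    · rw [one_smul, mul_smul, inv_smul_eq_iff.2 z1.symm, gc₁]
    · rw [mul_smul, inv_smul_eq_iff.2 z2.symm, e₂]
    · intro h
      have a1 := emb c c0 x₂' (T.hull_conv c0 y0 b₂')
      rw [(Q.eq_iff _ _).2 h, Q.tr.self] at a1
      omega
  refine ⟨z₀, z1, T.eq_of ?_, ?_⟩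
  · rw [← emb _ (T.mem_hull (by simp)) _ y0, ← qy, ← Q.smul n₂ (z₀ • y), mul_smul, inv_smul_smul,
      mul_smul, Q.smul n₁, Q.tr.self]
  · have := (normalClosure_normal (s := N)).conj_mem _ (mul_mem (inv_mem n₂) (mul_mem n₁ hk)) g⁻¹
    convert this using 1
    group

end Pool.Agent.Work.MP_904812_al
end

-- merged part: Pool.Agent.Work.MP_904812_al.QFill3
section
/-! Fillings of a tree of cylinders: the separation properties. -/

namespace Pool.Agent.Work.MP_904812_al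

set_option linter.unusedSectionVars false
set_option linter.unusedVariables false

open Subgroup MulAction

variable {G V : Type} [Group G] [MulAction G V] {d : V → V → ℤ} {C : V → Prop}

theorem QFill3_inz {g : G} (hg : g ≠ 1) (z : G) : InZ g z ↔ Commute z g := by
  refine ⟨fun h => ?_, fun h => Or.inr ⟨hg, h⟩⟩
  rcases h with rfl | h
  · exact Commute.one_left g
  · exact h.2

theorem QFill3_type (b : Bip G d C) {g : G}
    (t : (∃ c, C c ∧ g • c = c) ∨ ∀ w : V, g • w ≠ w) :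
    (∃ c, C c ∧ ∀ z, InZ g z ↔ z • c = c) ∨
      ∃ k : G, (∀ z, InZ g z ↔ z ∈ zpowers k) ∧ (∀ z, Commute z g ↔ z ∈ zpowers k) ∧
        (∀ n : ℤ, n ≠ 0 → ∀ w : V, k ^ n • w ≠ w) ∧ ∀ w : V, k • w ≠ w := by
  rcases t with ⟨c, hc, e⟩ | t
  · left
    by_cases hg : g = 1
    · obtain ⟨c₀, h0, f0⟩ := b.free
      refine ⟨c₀, h0, fun z => ⟨fun h => ?_, fun h => Or.inl (f0 z h)⟩⟩
      rcases h with rfl | h
      · exact one_smul _ _
      · exact absurd hg h.1
    · exact ⟨c, hc, fun z => (QFill3_inz hg z).trans (b.stab hg hc e z).symm⟩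
  · right
    obtain ⟨k, h1, h2⟩ := b.hyp_cyc t
    obtain ⟨v⟩ := b.zt.act.ne
    have hg : g ≠ 1 := fun e => t v (by rw [e, one_smul])
    exact ⟨k, fun z => (QFill3_inz hg z).trans (h1 z), h1, h2,
      fun w => by simpa using h2 1 one_ne_zero w⟩

theorem QFill3_sep (nice : Nice G) (b : Bip G d C) (ih : ∀ v, ¬ C v → IH (stabilizer G v))
    {h₁ h₂ : G} (hy₁ : h₁ = 1 ∨ ∀ w : V, h₁ • w ≠ w) (hy₂ : h₂ = 1 ∨ ∀ w : V, h₂ • w ≠ w)
    (nc : h₁ = 1 ∨ h₂ = 1 ∨ ¬ Commute h₁ h₂) (x y : V) :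
    Ev fun N : Set G => ∀ i j : ℤ, ∀ k ∈ normalClosure N,
      k • h₂ ^ j • y = h₁ ^ i • x → h₂ ^ j • y = h₁ ^ i • x := by
  classical
  refine (ev_emb2 nice b ih hy₁ hy₂ nc {x, y}).mono fun N f hN i j k hk e => ?_
  have T := b.zt.act.tr
  have h1 := (hN x (by simp) y (by simp) i j k hk).1
  rw [e, T.self] at h1
  exact (T.eq_of (le_antisymm h1 (T.nonneg _ _))).symm

theorem QFill3_sep1 (nice : Nice G) (b : Bip G d C) (ih : ∀ v, ¬ C v → IH (stabilizer G v))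
    {h₁ : G} (hy₁ : h₁ = 1 ∨ ∀ w : V, h₁ • w ≠ w) (x y : V) :
    Ev fun N : Set G => ∀ i j : ℤ, ∀ k ∈ normalClosure N,
      k • h₁ ^ j • y = h₁ ^ i • x → h₁ ^ j • y = h₁ ^ i • x := by
  classical
  refine (ev_emb2 nice b ih hy₁ (Or.inl rfl) (Or.inr (Or.inl rfl)) {x, y}).mono
    fun N f hN i j k hk e => ?_
  have T := b.zt.act.tr
  have h1 := (hN x (by simp) y (by simp) i j k hk).2
  rw [e, T.self] at h1
  exact (T.eq_of (le_antisymm h1 (T.nonneg _ _))).symm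

theorem ih_t0 (nice : Nice G) (b : Bip G d C) (ih : ∀ v, ¬ C v → IH (stabilizer G v)) {g : G}
    (hg : g ≠ 1) (t : (∃ c, C c ∧ g • c = c) ∨ ∀ w : V, g • w ≠ w) :
    Ev fun N : Set G => ∀ a ∈ normalClosure N, Commute a g → a ∈ N := by
  rcases t with ⟨c, hc, e⟩ | t
  · refine (ev_rot nice b ih).mono fun N f hN a ha ca => ?_
    exact KV_c nice b f hc (hN.1.mem (hN.2 a ha) ((b.stab hg hc e a).2 ca))
  · obtain ⟨k, h1, h2⟩ := b.hyp_cyc t
    obtain ⟨p⟩ := b.zt.act.ne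
    have hk : ∀ w : V, k • w ≠ w := fun w => by simpa using h2 1 one_ne_zero w
    refine (QFill3_sep1 nice b ih (Or.inr hk) p p).mono fun N f hN a ha ca => ?_
    obtain ⟨n, rfl⟩ := (h1 a).1 ca
    have e := hN 0 n _ (inv_mem ha) (by simp)
    by_cases hn : n = 0
    · subst hn
      simpa using f.one
    · exact absurd (by simpa using e) (h2 n hn p)

theorem ih_t1 (nice : Nice G) (b : Bip G d C) (ih : ∀ v, ¬ C v → IH (stabilizer G v))
    {a g₁ g₂ : G} (t₁ : (∃ c, C c ∧ g₁ • c = c) ∨ ∀ w : V, g₁ • w ≠ w)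
    (t₂ : (∃ c, C c ∧ g₂ • c = c) ∨ ∀ w : V, g₂ • w ≠ w)
    (h : ¬ ∃ z₁ z₂, InZ g₁ z₁ ∧ InZ g₂ z₂ ∧ a = z₁ * z₂) :
    Ev fun N : Set G => ∀ z₁ z₂, InZ g₁ z₁ → InZ g₂ z₂ → z₁⁻¹ * a * z₂⁻¹ ∉ normalClosure N := by
  have T := b.zt.act.tr
  have cj : ∀ (N : Set G) (z₁ z₂ : G), z₁⁻¹ * a * z₂⁻¹ ∈ normalClosure N →
      a * z₂⁻¹ * z₁⁻¹ ∈ normalClosure N := by
    intro N z₁ z₂ hw
    have := (normalClosure_normal (s := N)).conj_mem _ hw z₁
    have e : z₁ * (z₁⁻¹ * a * z₂⁻¹) * z₁⁻¹ = a * z₂⁻¹ * z₁⁻¹ := by group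
    rwa [e] at this
  have fx : ∀ (z : G) (c : V), z • c = c → z⁻¹ • c = c := fun z c e => by
    rw [inv_smul_eq_iff, e]
  obtain ⟨c₀, h0, f0⟩ := b.free
  rcases QFill3_type b t₁ with ⟨c₁, hc₁, e₁⟩ | ⟨k₁, e₁, m₁, n₁, p₁⟩ <;>
    rcases QFill3_type b t₂ with ⟨c₂, hc₂, e₂⟩ | ⟨k₂, e₂, m₂, n₂, p₂⟩
  · by_cases hcc : c₁ = c₂
    · subst hcc
      refine (QFill3_sep1 nice b ih (h₁ := 1) (Or.inl rfl) (a • c₁) c₁).mono
        fun N f hN z₁ z₂ i₁ i₂ hw => h ⟨a, 1, (e₁ a).2 ?_, Or.inl rfl, (mul_one a).symm⟩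
      have := hN 0 0 _ (cj N _ _ hw) (by
        simp only [zpow_zero, one_smul, mul_smul, fx _ _ ((e₁ _).1 i₁), fx _ _ ((e₂ _).1 i₂)])
      simpa using this.symm
    · have h2 : 2 ≤ d c₁ c₂ := by
        have a0 := T.nonneg c₁ c₂
        have a1 : d c₁ c₂ ≠ 0 := fun e => hcc (T.eq_of e)
        have a2 : d c₁ c₂ ≠ 1 := fun e => (b.alt _ _ e).1 hc₁ hc₂
        omega
      refine (ev_lift nice b ih (y' := a • c₂) hc₁ h2).mono fun N f hN z₁ z₂ i₁ i₂ hw => ?_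
      obtain ⟨z, a1, a2, -⟩ := hN z₁ ⟨1, one_mem _, by rw [one_smul, (e₁ _).1 i₁]⟩
        ⟨_, cj N _ _ hw, by simp only [mul_smul, inv_smul_smul, fx _ _ ((e₂ _).1 i₂)]⟩
      exact h ⟨z, z⁻¹ * a, (e₁ _).2 a1, (e₂ _).2 (by rw [mul_smul, ← a2, inv_smul_smul]),
        by group⟩
  · refine (QFill3_sep1 nice b ih (Or.inr p₂) c₁ (a⁻¹ • c₁)).mono
      fun N f hN z₁ z₂ i₁ i₂ hw => ?_
    obtain ⟨j, rfl⟩ := (e₂ _).1 i₂
    have := hN 0 j _ hw (by
      simp only [zpow_zero, one_smul, mul_smul, inv_smul_smul, smul_inv_smul,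
        fx _ _ ((e₁ _).1 i₁)])
    rw [zpow_zero, one_smul, ← mul_smul] at this
    have h3 := fx _ _ this
    rw [mul_inv_rev, inv_inv] at h3
    exact h ⟨_, _, (e₁ _).2 h3, i₂, by group⟩
  · refine (QFill3_sep1 nice b ih (Or.inr p₁) (a • c₂) c₂).mono
      fun N f hN z₁ z₂ i₁ i₂ hw => ?_
    obtain ⟨i, rfl⟩ := (e₁ _).1 i₁
    have := hN (-i) 0 _ hw (by
      simp only [zpow_zero, one_smul, mul_smul, zpow_neg, fx _ _ ((e₂ _).1 i₂)])
    rw [zpow_zero, one_smul, ← mul_smul, zpow_neg] at this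
    exact h ⟨_, _, i₁, (e₂ _).2 this.symm, by group⟩
  · have fin : ∀ z₁ z₂ : G, InZ g₁ z₁ → InZ g₂ z₂ → z₂ • c₀ = z₁⁻¹ • a • c₀ → False := by
      intro z₁ z₂ i₁ i₂ e
      have h3 := f0 (z₂⁻¹ * z₁⁻¹ * a) (by rw [mul_smul, mul_smul, ← e, inv_smul_smul])
      refine h ⟨z₁, z₂, i₁, i₂, ?_⟩
      calc a = z₁ * z₂ * (z₂⁻¹ * z₁⁻¹ * a) := by group
        _ = z₁ * z₂ := by rw [h3, mul_one]
    by_cases cm : Commute k₁ k₂
    · have hk₁ : k₁ ≠ 1 := fun e => p₁ c₀ (by rw [e, one_smul])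
      obtain ⟨m, hm⟩ := (m₁ k₂).1 (nice.ct k₂ k₁ g₁ hk₁ cm.symm ((m₁ k₁).2 (mem_zpowers k₁)))
      refine (QFill3_sep1 nice b ih (Or.inr p₁) (a • c₀) c₀).mono
        fun N f hN z₁ z₂ i₁ i₂ hw => ?_
      obtain ⟨i, rfl⟩ := (e₁ _).1 i₁
      obtain ⟨j, rfl⟩ := (e₂ _).1 i₂
      have e3 : k₁ ^ (m * j) = k₂ ^ j := by rw [zpow_mul]; exact congrArg (· ^ j) hm
      have := hN (-i) (m * j) _ hw (by
        simp only [e3, mul_smul, zpow_neg, inv_smul_smul])
      rw [e3, zpow_neg] at this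
      exact fin _ _ i₁ i₂ this
    · refine (QFill3_sep nice b ih (Or.inr p₁) (Or.inr p₂) (Or.inr (Or.inr cm)) (a • c₀) c₀).mono
        fun N f hN z₁ z₂ i₁ i₂ hw => ?_
      obtain ⟨i, rfl⟩ := (e₁ _).1 i₁
      obtain ⟨j, rfl⟩ := (e₂ _).1 i₂
      have := hN (-i) j _ hw (by simp only [mul_smul, zpow_neg, inv_smul_smul])
      rw [zpow_neg] at this
      exact fin _ _ i₁ i₂ this

end Pool.Agent.Work.MP_904812_al
end

-- merged part: Pool.Agent.Work.MP_904812_al.QFill4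
section
/-! Fillings of a tree of cylinders: the conjugacy property. -/

namespace Pool.Agent.Work.MP_904812_al

set_option linter.unusedSectionVars false
set_option linter.unusedVariables false

open Subgroup MulAction

namespace QFill4

section axis

variable {H X : Type*} [Group H] [MulAction H X] {e : X → X → ℤ}

/-- a fundamental domain of the axis -/
theorem cover (h : IAct H e) {g : H} {p x : X} (hp : Mn e g p) (hg : g • p ≠ p)
    (hx : Mn e g x) : ∃ n : ℤ, Bt e p (g ^ n • x) (g • p) := by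
  obtain ⟨c, τ, h1, h2, h3, -, -⟩ := h.mn_coord hp hg
  have pos : 0 < τ g := h2 ▸ h.tr.pos (Ne.symm hg)
  have mz : ∀ n : ℤ, Mn e g (g ^ n • x) := fun n => h.mn_smul hx (Commute.zpow_self g n)
  have step : ∀ n : ℤ, c (g ^ (n + 1) • x) = c (g ^ n • x) + τ g := fun n => by
    rw [add_comm n 1, zpow_add, zpow_one, mul_smul]
    exact h3 g (Commute.refl g) _ (mz n)
  have cz : ∀ n : ℤ, c (g ^ n • x) = c x + n * τ g := fun n => by
    induction n using Int.induction_on with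
    | zero => simp
    | succ n ih => rw [step, ih]; ring
    | pred n ih =>
      have := step (-(n : ℤ) - 1)
      rw [sub_add_cancel, ih] at this
      linarith
  refine ⟨-((c x - c p) / τ g), ?_⟩
  have a1 := Int.emod_nonneg (c x - c p) pos.ne'
  have a2 := Int.emod_lt_of_pos (c x - c p) pos
  have a3 := Int.emod_add_mul_ediv (c x - c p) (τ g)
  have mg : Mn e g (g • p) := h.mn_smul hp (Commute.refl g)
  have b1 := h1 p _ hp (mz (-((c x - c p) / τ g)))
  have b2 := h1 _ _ (mz (-((c x - c p) / τ g))) mg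
  have b3 := h3 g (Commute.refl g) p hp
  rw [cz] at b1 b2
  unfold Bt
  rw [b1, b2, ← h2, b3, abs_of_nonpos (by nlinarith), abs_of_nonpos (by nlinarith)]
  ring

/-- bounded parts of an axis are finite -/
theorem ball_finite (h : IAct H e) {g : H} {p : X} (hp : Mn e g p) (hg : g • p ≠ p) (R : ℤ) :
    {y | Mn e g y ∧ e p y ≤ R}.Finite := by
  obtain ⟨c, τ, h1, -, -, -, -⟩ := h.mn_coord hp hg
  refine Set.Finite.of_finite_image (f := c) ((Set.finite_Icc (c p - R) (c p + R)).subset ?_) ?_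
  · rintro _ ⟨y, ⟨hy, hR⟩, rfl⟩
    rw [h1 p y hp hy, abs_le] at hR
    exact ⟨by linarith, by linarith⟩
  · intro y hy y' hy' E
    refine h.tr.eq_of ?_
    rw [h1 y y' hy.1 hy'.1, E, sub_self, abs_zero]

end axis

section quot

variable {G V D W : Type*} [Group G] [MulAction G V] [Group D] [MulAction D W]
  {d : V → V → ℤ} {φ : G →* D} {e : W → W → ℤ} {q : V → W}

theorem lip (h : QTree φ d e q) (T : Tr d) (x y : V) : e (q x) (q y) ≤ d x y := by
  obtain ⟨n, hn⟩ : ∃ n : ℕ, d x y = n :=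
    ⟨(d x y).toNat, by have := T.nonneg x y; omega⟩
  induction n generalizing y with
  | zero =>
    have E : x = y := T.eq_of (by simpa using hn)
    rw [E, h.zt.act.tr.self, T.self]
  | succ n ih =>
    obtain ⟨z, a, b⟩ := T.qtr_pred hn
    have := ih z b
    have := h.adj z y a
    have := h.zt.act.tr.tri (q x) (q z) (q y)
    push_cast at hn
    omega

theorem lift (h : QTree φ d e q) (T : Tr d) (x : V) (w : W) :
    ∃ y, q y = w ∧ d x y ≤ e (q x) w := by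
  have T' := h.zt.act.tr
  obtain ⟨n, hn⟩ : ∃ n : ℕ, e (q x) w = n :=
    ⟨(e (q x) w).toNat, by have := T'.nonneg (q x) w; omega⟩
  induction n generalizing w with
  | zero =>
    refine ⟨x, T'.eq_of (by simpa using hn), ?_⟩
    rw [T.self]; exact T'.nonneg _ _
  | succ n ih =>
    obtain ⟨z, a, b⟩ := T'.qtr_pred hn
    obtain ⟨y₀, rfl, c⟩ := ih z b
    obtain ⟨y, a', rfl⟩ := h.lift y₀ w a
    refine ⟨y, rfl, ?_⟩
    have := T.tri x y₀ y
    push_cast at hn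
    omega

theorem iso_of (h : QTree φ d e q) (T : Tr d) {x y : V}
    (m : ∀ k : G, φ k = 1 → d x y ≤ d x (k • y)) : e (q x) (q y) = d x y := by
  refine le_antisymm (lip h T x y) ?_
  obtain ⟨y', a, b⟩ := lift h T x (q y)
  obtain ⟨k, hk, rfl⟩ := (h.eq_iff y y').1 a.symm
  exact (m k hk).trans b

variable {k : G}

theorem mn_map (h : QTree φ d e q) (I : IAct G d)
    (iso : ∀ u v, Mn d k u → Mn d k v → e (q u) (q v) = d u v) {u : V} (hu : Mn d k u) :
    Mn e (φ k) (q u) := by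
  have m1 : Mn d k (k • u) := I.mn_smul hu (Commute.refl k)
  have m2 : Mn d k (k⁻¹ • u) := I.mn_smul hu (Commute.refl k).inv_left
  unfold Mn Bt
  rw [← map_inv, ← h.equi, ← h.equi, iso _ _ m2 hu, iso _ _ hu m1, iso _ _ m2 m1]
  exact hu

theorem nofix (h : QTree φ d e q) (I : IAct G d)
    (iso : ∀ u v, Mn d k u → Mn d k v → e (q u) (q v) = d u v) {u : V} (hu : Mn d k u)
    {n : ℤ} (hn : k ^ n • u ≠ u) (w : W) : φ (k ^ n) • w ≠ w := by
  intro E
  have I' := h.zt.act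
  have m1 := (I'.mn_zpow (mn_map h I iso hu) n).1
  rw [← map_zpow] at m1
  have m2 := I'.QAx_of_fix m1 E
  rw [← h.equi] at m2
  have m3 := iso _ _ (I.mn_smul hu (Commute.zpow_self k n)) hu
  rw [m2, I'.tr.self] at m3
  exact hn (I.tr.eq_of m3.symm)

theorem mn_surj (h : QTree φ d e q) (I : IAct G d)
    (iso : ∀ u v, Mn d k u → Mn d k v → e (q u) (q v) = d u v) {p : V} (hp : Mn d k p)
    (hk : k • p ≠ p) {w : W} (hw : Mn e (φ k) w) : ∃ u, Mn d k u ∧ q u = w := by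
  have I' := h.zt.act
  have T := I.tr
  have T' := I'.tr
  have m1 : Mn d k (k • p) := I.mn_smul hp (Commute.refl k)
  have nf : φ k • q p ≠ q p := by
    have := nofix h I iso hp (n := 1) (by rwa [zpow_one]) (q p)
    rwa [zpow_one] at this
  obtain ⟨n, hn⟩ := cover I' (mn_map h I iso hp) nf hw
  rw [← h.equi] at hn
  have le := T'.bt_le hn
  rw [iso _ _ hp m1] at le
  obtain ⟨u, a, b⟩ := T.ex_bt p (k • p) (T'.nonneg _ _) le
  have mu : Mn d k u := I.mn_conv hp m1 a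
  have bq : Bt e (q p) (q u) (q (k • p)) := by
    unfold Bt
    rw [iso _ _ hp mu, iso _ _ mu m1, iso _ _ hp m1]
    exact a
  have E := T'.bt_uniq bq hn (by rw [iso _ _ hp mu, b])
  refine ⟨(k ^ n)⁻¹ • u, I.mn_smul mu (Commute.zpow_self k n).inv_left, ?_⟩
  rw [h.equi, E, map_inv, map_zpow, inv_smul_smul]

end quot

variable {G V : Type} [Group G] [MulAction G V] {d : V → V → ℤ} {C : V → Prop}

/-- the quotient tree of a deep filling -/
theorem ev_qt (nice : Nice G) (b : Bip G d C) (ih : ∀ v, ¬ C v → IH (stabilizer G v)) :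
    Ev fun N : Set G => ∃ (W : Type) (_ : MulAction (G ⧸ normalClosure N) W) (e : W → W → ℤ)
      (q : V → W), QTree (QuotientGroup.mk' (normalClosure N)) d e q := by
  refine (ev_rot nice b ih).mono fun N f ⟨r, hk⟩ => ?_
  refine quot_tree b.zt _ (QuotientGroup.mk'_surjective _) fun k h => ?_
  have h' : k ∈ normalClosure N := (QuotientGroup.eq_one_iff k).1 h
  refine closure_mono ?_ (hk k h')
  rintro a ⟨w, ha⟩
  refine ⟨(QuotientGroup.eq_one_iff a).2 ?_, w, r.fix w a ha⟩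
  exact (closure_le _).2 (fun n hn => subset_normalClosure hn.1) ha

/-- the axis of a hyperbolic element embeds in the quotient -/
theorem ev_axis (nice : Nice G) (b : Bip G d C) (ih : ∀ v, ¬ C v → IH (stabilizer G v))
    {k : G} (hk : ∀ w : V, k • w ≠ w) :
    Ev fun N : Set G => ∀ u v, Mn d k u → Mn d k v → ∀ n ∈ normalClosure N,
      d u v ≤ d u (n • v) := by
  have I := b.zt.act
  obtain ⟨p, hp⟩ := b.zt.semi k
  refine (ev_emb2 nice b ih (h₁ := k) (h₂ := 1) (Or.inr hk) (Or.inl rfl) (Or.inr (Or.inl rfl))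
    (I.tr.seg_finite p (k • p)).toFinset).mono fun N f H u v hu hv n hn => ?_
  obtain ⟨i, hi⟩ := cover I hp (hk p) hu
  obtain ⟨j, hj⟩ := cover I hp (hk p) hv
  have := (H _ ((Set.Finite.mem_toFinset _).2 hi) _ ((Set.Finite.mem_toFinset _).2 hj)
    (-i) (-j) n hn).2
  simpa only [zpow_neg, inv_smul_smul] using this

/-- the lifting lemma with a moving base point -/
theorem ev_lift' (nice : Nice G) (b : Bip G d C) (ih : ∀ v, ¬ C v → IH (stabilizer G v))
    {c y : V} (hc : C c) (h2 : 2 ≤ d c y) (c' y' : V) :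
    Ev fun N : Set G => ∀ g : G, (∃ k ∈ normalClosure N, k • g • c = c') →
      (∃ k ∈ normalClosure N, k • g • y = y') →
      ∃ u : G, u • c = c' ∧ u • y = y' ∧ g⁻¹ * u ∈ normalClosure N := by
  by_cases h : ∃ a : G, a • c = c'
  · obtain ⟨a, rfl⟩ := h
    refine (ev_lift nice b ih (y' := a⁻¹ • y') hc h2).mono
      fun N f H g ⟨k, hk, e⟩ ⟨k', hk', e'⟩ => ?_
    have cj : ∀ n ∈ normalClosure N, a⁻¹ * n * a ∈ normalClosure N := fun n hn => by
      simpa using (normalClosure_normal (s := N)).conj_mem n hn a⁻¹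
    obtain ⟨z, z1, z2, z3⟩ := H (a⁻¹ * g)
      ⟨_, cj k hk, by simp only [mul_smul, smul_inv_smul, e, inv_smul_smul]⟩
      ⟨_, cj k' hk', by simp only [mul_smul, smul_inv_smul, e']⟩
    refine ⟨a * z, by rw [mul_smul, z1], by rw [mul_smul, z2, smul_inv_smul], ?_⟩
    simpa [mul_assoc] using z3
  · exact Ev.of_all fun N f g ⟨k, _, e⟩ _ => (h ⟨k * g, by rw [mul_smul, e]⟩).elim

theorem fix_of_inZ (b : Bip G d C) {g z : G} {c : V} (hc : C c) (e : g • c = c)
    (h : InZ g z) : z • c = c := by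
  rcases h with rfl | ⟨hg, h⟩
  · exact one_smul _ _
  · exact (b.stab hg hc e z).2 h

theorem zpow_of_inZ {g z k : G} (hk : ∀ a, Commute a g ↔ a ∈ zpowers k) (h : InZ g z) :
    ∃ i : ℤ, k ^ i = z := by
  rcases h with rfl | ⟨-, h⟩
  · exact ⟨0, zpow_zero k⟩
  · exact mem_zpowers_iff.1 ((hk z).1 h)

theorem c_on_axis (b : Bip G d C) {k : G} (hk : ∀ w : V, k • w ≠ w) : ∃ c, C c ∧ Mn d k c := by
  have I := b.zt.act
  obtain ⟨p, hp⟩ := b.zt.semi k
  by_cases h : C p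
  · exact ⟨p, h, hp⟩
  · have := I.tr.pos (hk p).symm
    obtain ⟨c, a, e⟩ := I.tr.ex_bt p (k • p) (t := 1) (by omega) (by omega)
    refine ⟨c, ?_, I.mn_conv hp (I.mn_smul hp (Commute.refl k)) a⟩
    by_contra h'
    exact h ((b.alt p c e).2 h')

/-- a nontrivial power of a hyperbolic element stays hyperbolic in the quotient -/
theorem ev_hyp (nice : Nice G) (b : Bip G d C) (ih : ∀ v, ¬ C v → IH (stabilizer G v))
    {k : G} (hk : ∀ n : ℤ, n ≠ 0 → ∀ w : V, k ^ n • w ≠ w) :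
    Ev fun N : Set G => ∀ n : ℤ, n ≠ 0 → ∀ a ∈ normalClosure N, ∀ w : V,
      a • k ^ n • w ≠ w := by
  have I := b.zt.act
  have hk1 : ∀ w : V, k • w ≠ w := fun w => by simpa using hk 1 one_ne_zero w
  obtain ⟨p, hp⟩ := b.zt.semi k
  refine ((ev_qt nice b ih).and (ev_axis nice b ih hk1)).mono
    fun N f ⟨⟨W, _, e, q, Q⟩, A⟩ n hn a ha w E => ?_
  have iso : ∀ u v, Mn d k u → Mn d k v → e (q u) (q v) = d u v := fun u v hu hv =>
    iso_of Q I.tr fun m hm => A u v hu hv m ((QuotientGroup.eq_one_iff m).1 hm)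
  refine nofix Q I iso hp (hk n hn p) (q w) ?_
  rw [← Q.equi]
  exact (Q.eq_iff _ _).2 ⟨a, (QuotientGroup.eq_one_iff a).2 ha, E⟩

theorem hyp_hyp (nice : Nice G) (b : Bip G d C) (ih : ∀ v, ¬ C v → IH (stabilizer G v))
    {k₁ k₂ : G} (h₁ : ∀ w : V, k₁ • w ≠ w) (h₂ : ∀ w : V, k₂ • w ≠ w) :
    Ev fun N : Set G => ∀ (x : G) (i j : ℤ), j ≠ 0 →
      x * k₁ ^ i * x⁻¹ * (k₂ ^ j)⁻¹ ∈ normalClosure N →
      ∃ y, x⁻¹ * y ∈ normalClosure N ∧ Commute (y * k₁ * y⁻¹) k₂ := by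
  have I := b.zt.act
  have T := I.tr
  obtain ⟨c, hc, mc⟩ := c_on_axis b h₁
  obtain ⟨p, hp⟩ := b.zt.semi k₂
  have l1 := T.pos (h₁ c).symm
  have l2 := T.pos (h₂ p).symm
  obtain ⟨L, hL⟩ : ∃ L : ℕ, (L : ℤ) = 2 * (d c (k₁ • c) + d p (k₂ • p)) + 3 :=
    ⟨(2 * (d c (k₁ • c) + d p (k₂ • p)) + 3).toNat, by omega⟩
  obtain ⟨y, my, hy⟩ : ∃ y, Mn d k₁ y ∧ 2 * (d c (k₁ • c) + d p (k₂ • p)) + 3 ≤ d c y := by
    refine ⟨k₁ ^ L • c, I.mn_smul mc (Commute.pow_self k₁ L), ?_⟩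
    rw [(I.mn_pow mc L).2, nsmul_eq_mul, ← hL]
    nlinarith
  have fin := ball_finite I hp (h₂ p) (d p (k₂ • p) + d c y)
  refine ((((ev_qt nice b ih).and (ev_axis nice b ih h₁)).and (ev_axis nice b ih h₂)).and
    (Ev.all _ (fin.prod fin) fun t _ => ev_lift' nice b ih (y := y) hc (by omega) t.1 t.2)).mono
    fun N f ⟨⟨⟨⟨W, _, e, q, Q⟩, A₁⟩, A₂⟩, Lf⟩ x i j hj hx => ?_
  have I' := Q.zt.act
  have ker : ∀ m : G, QuotientGroup.mk' (normalClosure N) m = 1 ↔ m ∈ normalClosure N :=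
    fun m => QuotientGroup.eq_one_iff m
  generalize QuotientGroup.mk' (normalClosure N) = φ at Q ker
  have iso₁ : ∀ u v, Mn d k₁ u → Mn d k₁ v → e (q u) (q v) = d u v := fun u v hu hv =>
    iso_of Q T fun m hm => A₁ u v hu hv m ((ker m).1 hm)
  have iso₂ : ∀ u v, Mn d k₂ u → Mn d k₂ v → e (q u) (q v) = d u v := fun u v hu hv =>
    iso_of Q T fun m hm => A₂ u v hu hv m ((ker m).1 hm)
  have E : φ x * φ k₁ ^ i * (φ x)⁻¹ = φ k₂ ^ j := by
    have := (ker _).2 hx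
    simp only [map_mul, map_inv, map_zpow] at this
    exact mul_inv_eq_one.1 this
  have nf : φ k₂ • q p ≠ q p := by
    have := nofix Q I iso₂ hp (n := 1) (by rw [zpow_one]; exact h₂ p) (q p)
    rwa [zpow_one] at this
  have key : ∀ a, Mn d k₁ a → ∃ u, Mn d k₂ u ∧ q u = φ x • q a := fun a ha => by
    have m := I'.mn_conj (I'.mn_zpow (mn_map Q I iso₁ ha) i).1 (φ x)
    rw [E, I'.mn_zpow_iff (mn_map Q I iso₂ hp) nf hj] at m
    exact mn_surj Q I iso₂ hp (h₂ p) m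
  obtain ⟨u, mu, eu⟩ := key c mc
  obtain ⟨v, mv, ev⟩ := key y my
  obtain ⟨m, hm⟩ := cover I hp (h₂ p) mu
  have mu' : Mn d k₂ (k₂ ^ m • u) := I.mn_smul mu (Commute.zpow_self k₂ m)
  have mv' : Mn d k₂ (k₂ ^ m • v) := I.mn_smul mv (Commute.zpow_self k₂ m)
  have duv : d (k₂ ^ m • u) (k₂ ^ m • v) = d c y := by
    rw [I.iso, ← iso₂ u v mu mv, eu, ev, I'.iso, iso₁ c y mc my]
  have b1 := T.bt_le hm
  have b2 := T.tri p (k₂ ^ m • u) (k₂ ^ m • v)
  have b3 := T.nonneg c y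
  have mv2 : ∀ a w, q w = φ x • q a →
      ∃ k ∈ normalClosure N, k • (k₂ ^ m * x) • a = k₂ ^ m • w := fun a w hw => by
    obtain ⟨k, hk, ek⟩ := (Q.eq_iff ((k₂ ^ m * x) • a) (k₂ ^ m • w)).1
      (by rw [Q.equi, Q.equi, hw, map_mul, mul_smul])
    exact ⟨k, (ker k).1 hk, ek⟩
  obtain ⟨z, z1, z2, z3⟩ := Lf (k₂ ^ m • u, k₂ ^ m • v)
    ⟨⟨mu', by show d p (k₂ ^ m • u) ≤ _; omega⟩, ⟨mv', by show d p (k₂ ^ m • v) ≤ _; omega⟩⟩
    (k₂ ^ m * x) (mv2 c u eu) (mv2 y v ev)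
  dsimp only at z1 z2
  have cm : Commute (z * k₁ * z⁻¹) k₂ := by
    refine b.comm_of_overlap (x := k₂ ^ m • u) (y := k₂ ^ m • v) (z1 ▸ I.mn_conj mc z)
      (z2 ▸ I.mn_conj my z) mu' mv' ?_
    rw [duv, I.QAx_len mu' hp, ← z1, mul_smul, mul_smul, inv_smul_smul, I.iso]
    exact hy
  refine ⟨(k₂ ^ m)⁻¹ * z, by simpa [mul_assoc] using z3, ?_⟩
  have := QFill0.conj_comm cm (k₂ ^ m)⁻¹
  rw [(Commute.zpow_self k₂ m).inv_left.eq, mul_inv_cancel_right] at this
  simpa [mul_assoc] using this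

end QFill4

variable {G V : Type} [Group G] [MulAction G V] {d : V → V → ℤ} {C : V → Prop}

theorem ih_t2 (nice : Nice G) (b : Bip G d C) (ih : ∀ v, ¬ C v → IH (stabilizer G v))
    {g₁ g₂ : G} (t₁ : (∃ c, C c ∧ g₁ • c = c) ∨ ∀ w : V, g₁ • w ≠ w)
    (t₂ : (∃ c, C c ∧ g₂ • c = c) ∨ ∀ w : V, g₂ • w ≠ w) :
    Ev fun N : Set G => ∀ x z₁ z₂, InZ g₁ z₁ → InZ g₂ z₂ →
      z₂ ∉ normalClosure N → x * z₁ * x⁻¹ * z₂⁻¹ ∈ normalClosure N →
      ∃ y, x⁻¹ * y ∈ normalClosure N ∧ Commute (y * g₁ * y⁻¹) g₂ := by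
  have cj : ∀ (N : Set G) (a : G), ∀ n ∈ normalClosure N, a * n * a⁻¹ ∈ normalClosure N :=
    fun N a n hn => (normalClosure_normal (s := N)).conj_mem n hn a
  rcases t₁ with ⟨c₁, hc₁, e₁⟩ | t₁ <;> rcases t₂ with ⟨c₂, hc₂, e₂⟩ | t₂
  · refine (ev_acyl nice b ih).mono fun N f A x z₁ z₂ i₁ i₂ nz hx => ?_
    have f₁ := QFill4.fix_of_inZ b hc₁ e₁ i₁
    have f₂ := QFill4.fix_of_inZ b hc₂ e₂ i₂
    obtain ⟨k, hk, ek⟩ := (A z₂ c₂ (x • c₁) hc₂ ((b.inv x c₁).2 hc₁)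
      ⟨1, one_mem _, by rw [one_smul, f₂]⟩
      ⟨_, hx, by simp only [mul_smul, inv_smul_smul, f₁]⟩).resolve_left nz
    refine ⟨k⁻¹ * x, by simpa [mul_assoc] using cj N x⁻¹ _ (inv_mem hk), ?_⟩
    refine b.comm c₂ hc₂ _ _ ?_ e₂
    simp only [mul_smul, mul_inv_rev, inv_inv, ek, inv_smul_smul, e₁]
    rw [← ek, inv_smul_smul]
  · obtain ⟨k, hk, nf⟩ := b.hyp_cyc t₂
    refine (QFill4.ev_hyp nice b ih nf).mono fun N f A x z₁ z₂ i₁ i₂ nz hx => ?_
    obtain ⟨j, rfl⟩ := QFill4.zpow_of_inZ hk i₂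
    have f₁ := QFill4.fix_of_inZ b hc₁ e₁ i₁
    refine (A j (fun h => nz (by rw [h, zpow_zero]; exact one_mem _)) _ hx (x • c₁) ?_).elim
    simp only [mul_smul, inv_smul_smul, f₁]
  · obtain ⟨k, hk, nf⟩ := b.hyp_cyc t₁
    refine (QFill4.ev_hyp nice b ih nf).mono fun N f A x z₁ z₂ i₁ i₂ nz hx => ?_
    obtain ⟨i, rfl⟩ := QFill4.zpow_of_inZ hk i₁
    have f₂ := QFill4.fix_of_inZ b hc₂ e₂ i₂
    refine (A i (fun h => nz ?_) _ (cj N x⁻¹ _ (inv_mem hx)) (x⁻¹ • c₂) ?_).elim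
    · rw [h] at hx
      simpa using hx
    · simp only [mul_smul, mul_inv_rev, inv_inv, inv_smul_smul, smul_inv_smul, f₂]
  · obtain ⟨k₁, hk₁, nf₁⟩ := b.hyp_cyc t₁
    obtain ⟨k₂, hk₂, nf₂⟩ := b.hyp_cyc t₂
    refine (QFill4.hyp_hyp nice b ih (k₁ := k₁) (k₂ := k₂)
      (fun w => by simpa using nf₁ 1 one_ne_zero w)
      (fun w => by simpa using nf₂ 1 one_ne_zero w)).mono fun N f A x z₁ z₂ i₁ i₂ nz hx => ?_
    obtain ⟨i, rfl⟩ := QFill4.zpow_of_inZ hk₁ i₁
    obtain ⟨j, rfl⟩ := QFill4.zpow_of_inZ hk₂ i₂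
    obtain ⟨y, hy, cm⟩ := A x i j (fun h => nz (by rw [h, zpow_zero]; exact one_mem _)) hx
    obtain ⟨a, rfl⟩ := mem_zpowers_iff.1 ((hk₁ g₁).1 (Commute.refl _))
    obtain ⟨a', rfl⟩ := mem_zpowers_iff.1 ((hk₂ g₂).1 (Commute.refl _))
    refine ⟨y, hy, ?_⟩
    rw [← conj_zpow]
    exact cm.zpow_zpow a a'

end Pool.Agent.Work.MP_904812_al
end

-- merged part: Pool.Agent.Work.MP_904812_al.QMain
section
/-! Assembly of the discrimination theorem. -/

namespace Pool.Agent.Work.MP_904812_al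

set_option linter.unusedSectionVars false
set_option linter.unusedVariables false

open Subgroup MulAction

theorem CSplit.mono {G : Type} [Group G] {Ell Ell' : Set G → Prop} {Q Q' : Set (Set G)}
    (h : CSplit G Ell Q) (h1 : ∀ A, Ell A → Ell' A) (h2 : ∀ A ∈ Q', ∃ A' ∈ Q, A ⊆ A') :
    CSplit G Ell' Q' := by
  obtain ⟨V, i, d, zt, cy, hQ, hv⟩ := h
  refine ⟨V, i, d, zt, cy, fun A hA => ?_, fun v => ?_⟩
  · obtain ⟨A', hA', hs⟩ := h2 A hA
    obtain ⟨v, hv⟩ := hQ A' hA'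
    exact ⟨v, fun a ha => hv a (hs ha)⟩
  · obtain ⟨W, j, e, a, b, c⟩ := hv v
    exact ⟨W, j, e, a, b, fun w => h1 _ (c w)⟩

theorem machine {G Y : Type} [Group G] [MulAction G Y] {d : Y → Y → ℝ} {r : Y → Y → Prop}
    (h : Fat G d r) {P : Finset Y} {x₀ : Y} {g₀ : G} (g0 : g₀ ≠ 1) (mn : Mn d g₀ x₀)
    (x0 : x₀ ∈ P) (xp : g₀ • x₀ ∈ P) (xm : g₀⁻¹ • x₀ ∈ P)
    (gen : closure {k : G | ∃ p ∈ P, ∃ p' ∈ P, r (k • p) p'} = ⊤)
    (ess : ∀ p ∈ P, (∃ g : G, g ≠ 1 ∧ r (g • p) p) ∨ ∃ g : G, r (g • x₀) p) :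
    FreeSplit G ∨ CSplit G (fun A => ∃ y : Y, ∀ a ∈ A, r (a • y) y)
      {A | ∃ p ∈ P, A = {g : G | r (g • p) p}} := by
  obtain ⟨F, B, hPF, ink, hg, es⟩ := fat_hg h ⟨x₀, x0⟩
  have geo : Geo G d r F B x₀ g₀ := by
    refine ⟨h, ink, hg, ?_, hPF x0, g0, hPF xp, hPF xm, mn, fun p hp => ?_⟩
    · rw [eq_top_iff, ← gen]
      exact closure_mono fun k ⟨p, hp, p', hp', e⟩ => ⟨p, hPF hp, p', hPF hp', e⟩
    · rcases es p hp with e | ⟨g, s, hs, e⟩
      · exact Or.inl e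
      · rcases ess s hs with ⟨k, hk, e'⟩ | ⟨k, e'⟩
        · refine Or.inl ⟨g * k * g⁻¹, fun e0 => hk (by simpa using e0), ?_⟩
          have a1 := h.inv (g * k * g⁻¹) _ _ (h.eqv.symm e)
          have a2 := h.inv g _ _ e'
          have e3 : (g * k * g⁻¹) • g • s = g • k • s := by
            rw [smul_smul, inv_mul_cancel_right, mul_smul]
          rw [e3] at a1
          exact h.eqv.trans a1 (h.eqv.trans a2 e)
        · refine Or.inr ⟨g * k, ?_⟩
          rw [mul_smul]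
          exact h.eqv.trans (h.inv g _ _ e') e
  rcases geo.jump with fs | bl
  · exact Or.inl fs
  obtain ⟨Z, i, e, F', B', z₀, geo', h1, h2⟩ := collapse geo bl
  obtain ⟨M⟩ := ex_model geo'
  rcases M.dich with fs | cs
  · exact Or.inl fs
  refine Or.inr (cs.mono ?_ ?_)
  · rintro A ⟨z, hz⟩
    obtain ⟨y, hy⟩ := h1 z
    exact ⟨y, fun a ha => hy a (hz a ha)⟩
  · rintro A ⟨p, hp, rfl⟩
    obtain ⟨z, hz, hz'⟩ := h2 p (hPF hp)
    exact ⟨_, ⟨z, hz, rfl⟩, fun g hg => hz' g hg⟩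

theorem TrivE.edgeOK {G V : Type} [Group G] [MulAction G V] {d : V → V → ℤ} (t : TrivE G d) :
    EdgeOK G d := fun x y e =>
  ⟨fun a b a1 a2 _ _ => by rw [t x y e a a1 a2]; exact Commute.one_left _,
    Or.inl ⟨1, fun a a1 a2 => by rw [t x y e a a1 a2]; exact one_mem _⟩⟩

theorem CycE.edgeOK {G V : Type} [Group G] [MulAction G V] {d : V → V → ℤ} (t : CycE G d) :
    EdgeOK G d := fun x y e => by
  obtain ⟨c, hc⟩ := t x y e
  refine ⟨fun a b a1 a2 b1 b2 => ?_, Or.inl ⟨c, hc⟩⟩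
  obtain ⟨m, rfl⟩ := mem_zpowers_iff.1 (hc a a1 a2)
  obtain ⟨n, rfl⟩ := mem_zpowers_iff.1 (hc b b1 b2)
  exact (Commute.refl c).zpow_zpow m n

theorem hier_of_triv {G V : Type} [Group G] [MulAction G V] {d : V → V → ℤ} (zt : ZTree G d)
    (t : TrivE G d) (h : RFG G) (ih : ∀ v : V, RFG (stabilizer G v) → Hier (stabilizer G v)) :
    Hier G := by
  obtain ⟨μ, S, P, hg, -⟩ := h
  exact hier_of_tree zt t.edgeOK hg (fun A hA => t.ell_or_cyc zt A (hg.1 A hA)) ih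

/-- one level of the structure theorem -/
theorem hier_level {Λ Λ₁ : Type} [AddCommGroup Λ] [LinearOrder Λ] [IsOrderedAddMonoid Λ]
    [AddCommGroup Λ₁] [LinearOrder Λ₁] [IsOrderedAddMonoid Λ₁]
    (π : Λ →+ ℝ) (mono : Monotone π)
    (surj : Function.Surjective π) (ι : Λ₁ →+ Λ) (hι : StrictMono ι)
    (ker : ∀ a, π a = 0 ↔ ∃ b, ι b = a)
    (low : ∀ (H : Type) [Group H] (X' : Type) [MulAction H X'] (d' : X' → X' → Λ₁),
      Act H d' → Nonempty X' → Nice H → RFG H → Hier H) (μ : ℕ) :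
    ∀ (G : Type) [Group G] (X : Type) [MulAction G X] (d : X → X → Λ),
      Act G d → Nonempty X → Nice G → RFGn G μ → Hier G := by
  classical
  induction μ using Nat.strong_induction_on with
  | _ μ ih =>
  intro G _ X _ d act hne nice rf
  by_cases hG : ∀ g : G, g = 1
  · exact Hier.abel G fun a b => by rw [hG a]; exact Commute.one_left _
  push Not at hG
  obtain ⟨g₀, g0⟩ := hG
  obtain ⟨Y, i, e, crs⟩ := crs_of_act act hne nice π mono surj ι hι ker low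
  obtain ⟨r, fat, ab, fh⟩ := fat_of_crs crs
  obtain ⟨x₀, mn⟩ := fat.act.semi_real g₀
  obtain ⟨S, P, hg, hμ⟩ := rf
  have key : ∀ A ∈ P, ∃ (c : G) (y : Y), (A ≤ zpowers c ∧ y = x₀) ∨
      ((∃ a ∈ A, a ≠ 1) ∧ ∀ a ∈ A, r (a • y) y) := by
    intro A hA
    rcases ab A (hg.1 A hA) with ⟨c, hc⟩ | ⟨y, hy⟩
    · exact ⟨c, x₀, Or.inl ⟨hc, rfl⟩⟩
    · by_cases e : ∃ a ∈ A, a ≠ 1
      · exact ⟨1, y, Or.inr ⟨e, hy⟩⟩
      · push Not at e
        exact ⟨1, x₀, Or.inl ⟨fun a ha => by rw [e a ha]; exact one_mem _, rfl⟩⟩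
  have : Nonempty Y := ⟨x₀⟩
  choose! c y hcy using key
  let P₀ : Finset Y := insert x₀ (insert (g₀ • x₀) (insert (g₀⁻¹ • x₀)
    ((S.image fun s => s • x₀) ∪ ((P.image fun A => c A • x₀) ∪ P.image y))))
  have m0 : x₀ ∈ P₀ := by simp [P₀]
  have gen : closure {k : G | ∃ p ∈ P₀, ∃ p' ∈ P₀, r (k • p) p'} = ⊤ := by
    rw [eq_top_iff, ← hg.2, closure_le]
    rintro a (ha | ⟨A, hA, ha⟩)
    · exact subset_closure ⟨x₀, m0, a • x₀, by
        simp only [P₀, Finset.mem_insert, Finset.mem_union, Finset.mem_image]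
        exact Or.inr (Or.inr (Or.inr (Or.inl ⟨a, ha, rfl⟩))), fat.eqv.refl _⟩
    · rcases hcy A hA with ⟨h1, -⟩ | ⟨-, h1⟩
      · obtain ⟨n, rfl⟩ := mem_zpowers_iff.1 (h1 ha)
        refine zpow_mem (subset_closure ?_) n
        exact ⟨x₀, m0, c A • x₀, by
          simp only [P₀, Finset.mem_insert, Finset.mem_union, Finset.mem_image]
          exact Or.inr (Or.inr (Or.inr (Or.inr (Or.inl ⟨A, hA, rfl⟩)))), fat.eqv.refl _⟩
      · have : y A ∈ P₀ := by
          simp only [P₀, Finset.mem_insert, Finset.mem_union, Finset.mem_image]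
          exact Or.inr (Or.inr (Or.inr (Or.inr (Or.inr ⟨A, hA, rfl⟩))))
        exact subset_closure ⟨y A, this, y A, this, h1 a ha⟩
  have ess : ∀ p ∈ P₀, (∃ g : G, g ≠ 1 ∧ r (g • p) p) ∨ ∃ g : G, r (g • x₀) p := by
    intro p hp
    simp only [P₀, Finset.mem_insert, Finset.mem_union, Finset.mem_image] at hp
    rcases hp with rfl | rfl | rfl | ⟨s, -, rfl⟩ | ⟨A, -, rfl⟩ | ⟨A, hA, rfl⟩
    · exact Or.inr ⟨1, by rw [one_smul]; exact fat.eqv.refl _⟩
    · exact Or.inr ⟨_, fat.eqv.refl _⟩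
    · exact Or.inr ⟨_, fat.eqv.refl _⟩
    · exact Or.inr ⟨_, fat.eqv.refl _⟩
    · exact Or.inr ⟨_, fat.eqv.refl _⟩
    · rcases hcy A hA with ⟨-, h1⟩ | ⟨⟨a, ha, h0⟩, h1⟩
      · exact Or.inr ⟨1, by rw [one_smul, h1]; exact fat.eqv.refl _⟩
      · exact Or.inl ⟨a, h0, h1 a ha⟩
  have sub : ∀ H : Subgroup G, Act H d := fun H =>
    ⟨act.tr, fun g x y => act.iso g.1 x y, fun g x e => Subtype.ext (act.free g.1 x e)⟩
  rcases machine fat g0 mn m0 (by simp [P₀]) (by simp [P₀]) gen ess with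
    ⟨V, j, dV, zt, t, nf⟩ | ⟨V, j, dV, zt, cy, hQ, hv⟩
  · refine hier_of_triv zt t ⟨μ, S, P, hg, hμ⟩ fun v _ => ?_
    obtain ⟨μ', h1, h2⟩ := grushko zt t nf ⟨S, P, hg, hμ⟩ v
    exact ih μ' h1 _ X d (sub _) hne (nice.of_inj (stabilizer G v).subtype
      Subtype.val_injective) h2
  · refine hier_of_tree zt cy.edgeOK hg (fun A hA => ?_) fun v rv => ?_
    · rcases hcy A hA with ⟨h1, -⟩ | ⟨-, h1⟩
      · exact Or.inr ⟨_, h1⟩
      · obtain ⟨v, hv⟩ := hQ {g : G | r (g • y A) (y A)} ⟨y A, by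
          simp only [P₀, Finset.mem_insert, Finset.mem_union, Finset.mem_image]
          exact Or.inr (Or.inr (Or.inr (Or.inr (Or.inr ⟨A, hA, rfl⟩)))), rfl⟩
        exact Or.inl ⟨v, fun a ha => hv a (h1 a ha)⟩
    · obtain ⟨W, k, dW, zt', t', hw⟩ := hv v
      refine hier_of_triv zt' t' rv fun w rw => ?_
      obtain ⟨y, hy⟩ := hw w
      exact fh _ ((stabilizer G v).subtype.comp (stabilizer (stabilizer G v) w).subtype)
        (Subtype.val_injective.comp Subtype.val_injective)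
        ⟨y, fun a => hy _ ⟨a.1, a.2, rfl⟩⟩ rw

theorem hier_lex (n : ℕ) : ∀ (G : Type) [Group G] (X : Type) [MulAction G X]
    (d : X → X → Lex (Fin n → ℝ)), Act G d → Nonempty X → Nice G → RFG G → Hier G := by
  induction n with
  | zero =>
    intro G _ X _ d act ⟨x⟩ _ _
    have : ∀ g : G, g = 1 := fun g => act.free g x
      (act.tr.eq_of (funext fun i => i.elim0 : ofLex (d (g • x) x) = ofLex 0))
    exact Hier.abel G fun a b => by rw [this a]; exact Commute.one_left _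
  | succ n ih =>
    intro G _ X _ d act hne nice ⟨μ, rf⟩
    obtain ⟨π, ι, h1, h2, h3, h4⟩ := lex_level n
    exact hier_level π h1 h2 ι h3 h4 ih μ G X d act hne nice rf

theorem ih_of_hier {G : Type} [Group G] (h : Hier G) : Nice G → AbFG G → Group.FG G → IH G := by
  induction h with
  | abel G h => exact fun nice _ _ => ih_abel nice.tf h
  | step G V d zt fin ok _ ih =>
    intro nice ab fg
    classical
    have fv : ∀ v : V, Group.FG (stabilizer G v) := fg_stab zt fin fg fun x y e =>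
      ab _ fun a ha b hb => (ok x y e).1 a b ha.1 ha.2 hb.1 hb.2
    have iv : ∀ v : V, IH (stabilizer G v) := fun v =>
      ih v (nice.of_inj (stabilizer G v).subtype Subtype.val_injective)
        (ab.of_inj (stabilizer G v).subtype Subtype.val_injective) (fv v)
    have key : ∀ T : Finset G, ∃ (W : Type) (_ : MulAction G W) (e : W → W → ℤ) (C : W → Prop),
        Bip G e C ∧ (∀ w, ¬ C w → IH (stabilizer G w)) ∧
        (∀ w, ¬ C w → Group.FG (stabilizer G w)) ∧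
        ∀ t ∈ T, (∃ c : W, C c ∧ t • c = c) ∨ ∀ w : W, t • w ≠ w := by
      intro T
      obtain ⟨W, j, e, C, b, h1, h2⟩ := ex_bip nice zt fin ok T
      refine ⟨W, j, e, C, b, fun w hw => ?_, fun w hw => ?_, h2⟩
      · obtain ⟨v, hv⟩ := h1 w hw
        rw [hv]; exact iv v
      · obtain ⟨v, hv⟩ := h1 w hw
        rw [hv]; exact fv v
    refine ⟨?_, fun g hg => ?_, fun a g₁ g₂ h => ?_, fun g₁ g₂ => ?_⟩
    · obtain ⟨W, j, e, C, b, h1, h2, -⟩ := key ∅
      exact ih_la nice b h1 h2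
    · obtain ⟨W, j, e, C, b, h1, -, h3⟩ := key {g}
      exact ih_t0 nice b h1 hg (h3 g (by simp))
    · obtain ⟨W, j, e, C, b, h1, -, h3⟩ := key {g₁, g₂}
      exact ih_t1 nice b h1 (h3 g₁ (by simp)) (h3 g₂ (by simp)) h
    · obtain ⟨W, j, e, C, b, h1, -, h3⟩ := key {g₁, g₂}
      exact ih_t2 nice b h1 (h3 g₁ (by simp)) (h3 g₂ (by simp))

theorem disc_of_ih {G : Type} [Group G] (ih : IH G) (nice : Nice G) (ab : AbFG G)
    (fg : Group.FG G) (A : Finset G) (hA : ∀ a ∈ A, a ≠ 1) :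
    ∃ (D : Type) (_ : Group D) (φ : G →* D), IsHyperbolic D ∧
      (∀ g : D, IsOfFinOrder g → g = 1) ∧ ∀ a ∈ A, φ a ≠ 1 := by
  have h1 := Ev.all (A : Set G) A.finite_toSet
    (P := fun a N => ∀ z₁ z₂, InZ 1 z₁ → InZ 1 z₂ → z₁⁻¹ * a * z₂⁻¹ ∉ normalClosure N)
    fun a ha => ih.t1 a 1 1 (by
      rintro ⟨z₁, z₂, rfl | ⟨h, -⟩, rfl | ⟨h', -⟩, e⟩
      · exact hA a ha (by simpa using e)
      · exact h' rfl
      · exact h rfl
      · exact h rfl)
  obtain ⟨N, -, ⟨tf, la⟩, h2⟩ := (ih.la.and h1).ex nice ab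
  refine ⟨G ⧸ normalClosure N, inferInstance, QuotientGroup.mk' _, hyp_of_la la inferInstance,
    fun g hg => ?_, fun a ha e => ?_⟩
  · obtain ⟨n, hn, e⟩ := isOfFinOrder_iff_pow_eq_one.1 hg
    exact tf g n hn e
  · refine h2 a ha 1 1 (Or.inl rfl) (Or.inl rfl) ?_
    simpa using (QuotientGroup.eq_one_iff a).1 e

theorem disc0 {G : Type} [Group G] {Λ : Type*} [AddCommGroup Λ] [LinearOrder Λ]
    [IsOrderedAddMonoid Λ] {X : Type*} [MulAction G X] {d : X → X → Λ} (hd : IsLTree d)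
    (ha : ActsFreely G d) (fg : Group.FG G) (A : Finset G) (hA : ∀ a ∈ A, a ≠ 1) :
    ∃ (D : Type) (_ : Group D) (φ : G →* D), IsHyperbolic D ∧
      (∀ g : D, IsOfFinOrder g → g = 1) ∧ ∀ a ∈ A, φ a ≠ 1 := by
  classical
  obtain ⟨s, hs⟩ := fg.out
  obtain ⟨X', i, d', hd', ha'⟩ := main hd ha s hs
  have act := ha'.act hd'
  have nice : Nice G := act.nice hd'.nonempty fun g e => by
    by_contra hg
    obtain ⟨x⟩ := hd'.nonempty
    exact ha'.no_inversion g (ha'.no_fixed_point g hg) x (by rw [smul_smul, e, one_smul])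
  have hier : Hier G := hier_lex _ G X' d' act hd'.nonempty nice
    ⟨_, s, ∅, ⟨by simp, by simpa using hs⟩, le_rfl⟩
  have ab := abfg_of_hier hier nice fg
  exact disc_of_ih (ih_of_hier hier nice ab fg) nice ab fg A hA

universe u

theorem disc {G : Type u} [Group G] {Λ : Type*} [AddCommGroup Λ] [LinearOrder Λ]
    [IsOrderedAddMonoid Λ] {X : Type*} [MulAction G X] {d : X → X → Λ} (hd : IsLTree d)
    (ha : ActsFreely G d) (fg : Group.FG G) (A : Finset G) (hA : ∀ a ∈ A, a ≠ 1) :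
    ∃ (D : Type) (_ : Group D) (φ : G →* D), IsHyperbolic D ∧
      (∀ g : D, IsOfFinOrder g → g = 1) ∧ ∀ a ∈ A, φ a ≠ 1 := by
  classical
  have : Countable G := by
    obtain ⟨s, hs⟩ := fg.out
    have hsurj : Function.Surjective (FreeGroup.lift (fun x : s => (x : G))) := by
      rw [← MonoidHom.range_eq_top, FreeGroup.range_lift_eq_closure, Subtype.range_coe_subtype]
      simpa using hs
    have : Countable (FreeGroup s) := inferInstance
    exact hsurj.countable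
  have : _root_.Small.{0} G := inferInstance
  let e : Shrink.{0} G ≃* G := Shrink.mulEquiv
  let _ : MulAction (Shrink.{0} G) X := MulAction.compHom X e.toMonoidHom
  have sm : ∀ (g : Shrink.{0} G) (x : X), g • x = e g • x := fun _ _ => rfl
  have ha' : ActsFreely (Shrink.{0} G) d :=
    ⟨fun g x y => by rw [sm, sm]; exact ha.isometry _ x y,
      fun g hg x => by rw [sm]; exact ha.no_fixed_point _ (by simpa using hg) x,
      fun g hg x => by rw [sm, sm]; exact ha.no_inversion _ (fun y => by rw [← sm]; exact hg y) x⟩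
  have fg' : Group.FG (Shrink.{0} G) := Group.fg_of_surjective (f := e.symm.toMonoidHom)
    e.symm.surjective
  obtain ⟨D, i, φ, h1, h2, h3⟩ := disc0 hd ha' fg' (A.image e.symm) (by
    intro a ha
    obtain ⟨b, hb, rfl⟩ := Finset.mem_image.1 ha
    simpa using hA b hb)
  exact ⟨D, i, φ.comp e.symm.toMonoidHom, h1, h2, fun a ha =>
    h3 _ (Finset.mem_image_of_mem _ ha)⟩

end Pool.Agent.Work.MP_904812_al
end
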