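import Pool.Agent.Work.MP_904812_al.Defs

/-! Basic geometry of `Λ`-trees: betweenness, medians, the four point condition. -/

namespace Pool.Agent.Work.MP_904812_al

variable {Λ : Type*} [AddCommGroup Λ] [LinearOrder Λ] [IsOrderedAddMonoid Λ] {X : Type*}

/-- working form of the tree axioms -/
structure Tr (d : X → X → Λ) : Prop where
  nonneg : ∀ x y, 0 ≤ d x y
  self : ∀ x, d x x = 0
  eq_of : ∀ {x y}, d x y = 0 → x = y
  symm : ∀ x y, d x y = d y x
  tri : ∀ x y z, d x z ≤ d x y + d y z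
  ex_pt : ∀ x y t, 0 ≤ t → t ≤ d x y → ∃ p, d x p = t ∧ d x p + d p y = d x y
  four : ∀ x y z w, d x y + d z w ≤ max (d x z + d y w) (d x w + d y z)
  med : ∀ x y z, ∃ m, d x m + d m y = d x y ∧ d x m + d m z = d x z ∧ d y m + d m z = d y z

/-- betweenness -/
def Bt (d : X → X → Λ) (x p y : X) : Prop := d x p + d p y = d x y

section fromtree
variable {d : X → X → Λ}

theorem seg_bt (h : IsLMetric d) {x y : X} {S : Set X} (hS : IsSegment d x y S) {p : X}
    (hp : p ∈ S) : d x p + d p y = d x y := by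
  obtain ⟨α, h0, h1, hiso, rfl⟩ := hS
  obtain ⟨t, ht, rfl⟩ := hp
  have hn := h.nonneg x y
  have e1 := hiso 0 ⟨le_rfl, hn⟩ t ht
  have e2 := hiso t ht (d x y) ⟨hn, le_rfl⟩
  rw [h0] at e1
  rw [h1] at e2
  obtain ⟨ht1, ht2⟩ := ht
  rw [e1, e2]; grind

theorem seg_ex (h : IsLMetric d) {x y : X} {S : Set X} (hS : IsSegment d x y S) {t : Λ}
    (h0 : 0 ≤ t) (h1 : t ≤ d x y) : ∃ p ∈ S, d x p = t := by
  obtain ⟨α, a0, a1, hiso, rfl⟩ := hS
  refine ⟨α t, ⟨t, ⟨h0, h1⟩, rfl⟩, ?_⟩
  have e1 := hiso 0 ⟨le_rfl, h.nonneg x y⟩ t ⟨h0, h1⟩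
  rw [a0] at e1
  rw [e1]; grind

theorem seg_dist (h : IsLMetric d) {x y : X} {S : Set X} (hS : IsSegment d x y S) {p q : X}
    (hp : p ∈ S) (hq : q ∈ S) : d p q = |d x p - d x q| := by
  obtain ⟨α, a0, a1, hiso, rfl⟩ := hS
  obtain ⟨t, ht, rfl⟩ := hp
  obtain ⟨s, hs, rfl⟩ := hq
  have hn := h.nonneg x y
  have e1 := hiso 0 ⟨le_rfl, hn⟩ t ht
  have e2 := hiso 0 ⟨le_rfl, hn⟩ s hs
  rw [a0] at e1 e2
  rw [hiso t ht s hs, e1, e2]
  obtain ⟨ht1, ht2⟩ := ht
  obtain ⟨hs1, hs2⟩ := hs
  grind

theorem seg_left (h : IsLMetric d) {x y : X} {S : Set X} (hS : IsSegment d x y S) : x ∈ S := by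
  obtain ⟨α, a0, a1, hiso, rfl⟩ := hS
  exact ⟨0, ⟨le_rfl, h.nonneg x y⟩, a0⟩

theorem seg_right (h : IsLMetric d) {x y : X} {S : Set X} (hS : IsSegment d x y S) : y ∈ S := by
  obtain ⟨α, a0, a1, hiso, rfl⟩ := hS
  exact ⟨d x y, ⟨h.nonneg x y, le_rfl⟩, a1⟩

/-- a criterion for being a segment -/
theorem seg_of (h : IsLMetric d) {x y : X} {S : Set X} (hx : x ∈ S) (hy : y ∈ S)
    (hex : ∀ t, 0 ≤ t → t ≤ d x y → ∃ p ∈ S, d x p = t)
    (hle : ∀ p ∈ S, d x p ≤ d x y)
    (hd : ∀ p ∈ S, ∀ q ∈ S, d p q = |d x p - d x q|) : IsSegment d x y S := by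
  classical
  have huniq : ∀ p ∈ S, ∀ q ∈ S, d x p = d x q → p = q := by
    intro p hp q hq e
    apply (h.eq_zero_iff p q).1
    rw [hd p hp q hq, e]; simp
  let α : Λ → X := fun t => if ht : 0 ≤ t ∧ t ≤ d x y then (hex t ht.1 ht.2).choose else x
  have hα : ∀ t, 0 ≤ t → t ≤ d x y → α t ∈ S ∧ d x (α t) = t := by
    intro t h0 h1
    have : α t = (hex t h0 h1).choose := by simp only [α]; rw [dif_pos ⟨h0, h1⟩]
    rw [this]; exact (hex t h0 h1).choose_spec
  have hn := h.nonneg x y
  refine ⟨α, ?_, ?_, ?_, ?_⟩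
  · obtain ⟨a, b⟩ := hα 0 le_rfl hn
    exact huniq _ a _ hx (by rw [b, (h.eq_zero_iff x x).2 rfl])
  · obtain ⟨a, b⟩ := hα _ hn le_rfl
    exact huniq _ a _ hy b
  · intro s hs t ht
    obtain ⟨a, b⟩ := hα s hs.1 hs.2
    obtain ⟨a', b'⟩ := hα t ht.1 ht.2
    rw [hd _ a _ a', b, b']
  · ext p
    constructor
    · intro hp
      obtain ⟨a, b⟩ := hα (d x p) (h.nonneg _ _) (hle p hp)
      exact ⟨d x p, ⟨h.nonneg _ _, hle p hp⟩, huniq _ a _ hp b⟩
    · rintro ⟨t, ht, rfl⟩
      exact (hα t ht.1 ht.2).1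

theorem IsLTree.seg_sub (h : IsLTree d) {x y : X} {S S' : Set X} (hS : IsSegment d x y S)
    (hS' : IsSegment d x y S') : S ⊆ S' := by
  have hm := h.metric
  obtain ⟨u, v, hU⟩ := h.inter x y y S S' hS hS'
  have hu := seg_left hm hU
  have hv := seg_right hm hU
  have hx : x ∈ S ∩ S' := ⟨seg_left hm hS, seg_left hm hS'⟩
  have hy : y ∈ S ∩ S' := ⟨seg_right hm hS, seg_right hm hS'⟩
  have b1 := seg_bt hm hU hx
  have b2 := seg_bt hm hU hy
  have c1 := seg_bt hm hS hu.1
  have c2 := seg_bt hm hS hv.1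
  have e := seg_dist hm hS hu.1 hv.1
  have n1 := hm.nonneg x u
  have n2 := hm.nonneg x v
  have n3 := hm.nonneg u y
  have n4 := hm.nonneg v y
  have s1 := hm.symm u x
  have s2 := hm.symm y v
  intro p hp
  have c3 := seg_bt hm hS hp
  have n5 := hm.nonneg x p
  have n6 := hm.nonneg p y
  rcases le_total (d x u) (d x v) with hle | hle
  · have hux : d x u = 0 := by grind
    have hux' : x = u := (hm.eq_zero_iff _ _).1 hux
    subst hux'
    have hlen : d x p ≤ d x v := by grind
    obtain ⟨q, hq, hq'⟩ := seg_ex hm hU n5 hlen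
    have : d p q = 0 := by rw [seg_dist hm hS hp hq.1, hq']; simp
    rw [(hm.eq_zero_iff _ _).1 this]; exact hq.2
  · have hvx : d x v = 0 := by grind
    have hvx' : x = v := (hm.eq_zero_iff _ _).1 hvx
    subst hvx'
    have s3 := hm.symm y x
    have huy : d u y = 0 := by grind
    have huy' : u = y := (hm.eq_zero_iff _ _).1 huy
    subst huy'
    have hlen : d p u ≤ d u x := by grind
    obtain ⟨q, hq, hq'⟩ := seg_ex hm hU n6 hlen
    have c4 := seg_bt hm hS hq.1
    have s4 := hm.symm u q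
    have : d p q = 0 := by
      rw [seg_dist hm hS hp hq.1]
      have : d x p = d x q := by grind
      rw [this]; simp
    rw [(hm.eq_zero_iff _ _).1 this]; exact hq.2

theorem IsLTree.mem_of_bt (h : IsLTree d) {x y p : X} {S : Set X} (hS : IsSegment d x y S)
    (hp : d x p + d p y = d x y) : p ∈ S := by
  have hm := h.metric
  obtain ⟨A, hA⟩ := h.geodesic x p
  obtain ⟨B, hB⟩ := h.geodesic p y
  have hxB : ∀ q ∈ B, d x q = d x p + d p q := by
    intro q hq
    have := seg_bt hm hB hq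
    have := hm.triangle x p q
    have := hm.triangle x q y
    grind
  have key : IsSegment d x y (A ∪ B) := by
    refine seg_of hm (Or.inl (seg_left hm hA)) (Or.inr (seg_right hm hB)) ?_ ?_ ?_
    · intro t h0 h1
      rcases le_total t (d x p) with ht | ht
      · obtain ⟨q, hq, hq'⟩ := seg_ex hm hA h0 ht
        exact ⟨q, Or.inl hq, hq'⟩
      · obtain ⟨q, hq, hq'⟩ := seg_ex hm hB (t := t - d x p) (by grind) (by grind)
        exact ⟨q, Or.inr hq, by rw [hxB q hq, hq']; abel⟩
    · rintro q (hq | hq)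
      · have := seg_bt hm hA hq
        have := hm.nonneg q p
        have := hm.nonneg p y
        grind
      · have := hxB q hq
        have := seg_bt hm hB hq
        have := hm.nonneg q y
        grind
    · have mix : ∀ q ∈ A, ∀ r ∈ B, d q r = |d x q - d x r| := by
        intro q hq r hr
        have := hxB r hr
        have := seg_bt hm hA hq
        have := hm.triangle q p r
        have := hm.triangle x q r
        have := hm.nonneg q p
        have := hm.nonneg p r
        grind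
      rintro q (hq | hq) r (hr | hr)
      · exact seg_dist hm hA hq hr
      · exact mix q hq r hr
      · rw [hm.symm, mix r hr q hq, abs_sub_comm]
      · rw [seg_dist hm hB hq hr, hxB q hq, hxB r hr]; congr 1; abel
  exact h.seg_sub key hS (Or.inl (seg_right hm hA))

theorem IsLTree.bt_dist (h : IsLTree d) {x y p q : X} (hp : d x p + d p y = d x y)
    (hq : d x q + d q y = d x y) : d p q = |d x p - d x q| := by
  obtain ⟨S, hS⟩ := h.geodesic x y
  exact seg_dist h.metric hS (h.mem_of_bt hS hp) (h.mem_of_bt hS hq)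

theorem IsLTree.med (h : IsLTree d) (x y z : X) :
    ∃ m, d x m + d m y = d x y ∧ d x m + d m z = d x z ∧ d y m + d m z = d y z := by
  have hm := h.metric
  obtain ⟨A, hA⟩ := h.geodesic x y
  obtain ⟨B, hB⟩ := h.geodesic x z
  obtain ⟨u, v, hU⟩ := h.inter x y z A B hA hB
  have hu := seg_left hm hU
  have hv := seg_right hm hU
  have hx : x ∈ A ∩ B := ⟨seg_left hm hA, seg_left hm hB⟩
  obtain ⟨w, hw, hmax⟩ : ∃ w ∈ A ∩ B, ∀ q ∈ A ∩ B, d x q ≤ d x w := by
    have key : ∀ q ∈ A ∩ B, d x q ≤ max (d x u) (d x v) := by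
      intro q hq
      have := seg_bt hm hU hq
      have := seg_dist hm hA hu.1 hv.1
      have := seg_dist hm hA hu.1 hq.1
      have := seg_dist hm hA hq.1 hv.1
      grind
    rcases le_total (d x u) (d x v) with hle | hle
    · exact ⟨v, hv, fun q hq => by have := key q hq; grind⟩
    · exact ⟨u, hu, fun q hq => by have := key q hq; grind⟩
  have b1 := seg_bt hm hA hw.1
  have b2 := seg_bt hm hB hw.2
  refine ⟨w, b1, b2, ?_⟩
  obtain ⟨C, hC⟩ := h.geodesic w y
  obtain ⟨D, hD⟩ := h.geodesic w z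
  have hCD : C ∩ D = {w} := by
    ext q
    constructor
    · rintro ⟨h1, h2⟩
      have c1 := seg_bt hm hC h1
      have c2 := seg_bt hm hD h2
      have t1 := hm.triangle x w q
      have t2 := hm.triangle x q y
      have t3 := hm.triangle x q z
      have hq : q ∈ A ∩ B := ⟨h.mem_of_bt hA (by grind), h.mem_of_bt hB (by grind)⟩
      have := hmax q hq
      have := hm.nonneg w q
      have : d w q = 0 := by grind
      exact ((hm.eq_zero_iff _ _).1 this).symm
    · rintro rfl
      exact ⟨seg_left hm hC, seg_left hm hD⟩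
  obtain ⟨a, b, hE⟩ := h.union w y z C D hC hD hCD
  have hw' : w ∈ C ∪ D := Or.inl (seg_left hm hC)
  have hy' : y ∈ C ∪ D := Or.inl (seg_right hm hC)
  have hz' : z ∈ C ∪ D := Or.inr (seg_right hm hD)
  have e1 := seg_dist hm hE hw' hy'
  have e2 := seg_dist hm hE hw' hz'
  have e3 := seg_dist hm hE hy' hz'
  have s1 := hm.symm y w
  have s2 := hm.symm y z
  by_contra hne
  have : d w y + d y z = d w z ∨ d w z + d z y = d w y := by grind
  rcases this with hc | hc
  · have : y ∈ C ∩ D := ⟨seg_right hm hC, h.mem_of_bt hD hc⟩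
    rw [hCD] at this
    have : y = w := this
    subst this
    have := (hm.eq_zero_iff y y).2 rfl
    grind
  · have : z ∈ C ∩ D := ⟨h.mem_of_bt hC hc, seg_right hm hD⟩
    rw [hCD] at this
    have : z = w := this
    subst this
    have := (hm.eq_zero_iff z z).2 rfl
    grind

theorem IsLTree.tr (h : IsLTree d) : Tr d := by
  have hm := h.metric
  refine ⟨hm.nonneg, fun x => (hm.eq_zero_iff x x).2 rfl, fun e => (hm.eq_zero_iff _ _).1 e,
    hm.symm, hm.triangle, ?_, ?_, h.med⟩
  · intro x y t h0 h1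
    obtain ⟨S, hS⟩ := h.geodesic x y
    obtain ⟨p, hp, hp'⟩ := seg_ex hm hS h0 h1
    exact ⟨p, hp', seg_bt hm hS hp⟩
  · intro x y z w
    -- Gromov products at `x`
    obtain ⟨m1, a1, a2, a3⟩ := h.med x z y
    obtain ⟨m2, b1, b2, b3⟩ := h.med x y w
    have e := h.bt_dist a2 b1
    have s1 := hm.symm z y
    have s2 := hm.symm m1 m2
    have s3 := hm.symm z m1
    have s4 := hm.symm y m2
    have s5 := hm.symm z m2
    have t1 := hm.triangle z m1 w
    have t2 := hm.triangle z m2 w
    have t3 := hm.triangle m1 m2 w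
    have t4 := hm.triangle m2 m1 z
    grind

theorem Tr.metric (h : Tr d) : IsLMetric d :=
  ⟨h.nonneg, fun x y => ⟨h.eq_of, fun e => e ▸ h.self x⟩, h.symm, h.tri⟩

theorem Tr.bt_dist (h : Tr d) {x y p q : X} (hp : d x p + d p y = d x y)
    (hq : d x q + d q y = d x y) : d p q = |d x p - d x q| := by
  have := h.four p q x y
  have := h.tri x p q
  have := h.tri x q p
  have := h.symm p q
  have := h.symm p x
  have := h.symm q x
  grind

theorem Tr.seg_eq (h : Tr d) {x y : X} {S : Set X} (hS : IsSegment d x y S) :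
    S = {p | d x p + d p y = d x y} := by
  have hm := h.metric
  ext p
  refine ⟨fun hp => seg_bt hm hS hp, fun hp => ?_⟩
  have hp' : d x p + d p y = d x y := hp
  obtain ⟨q, hq, hq'⟩ := seg_ex hm hS (h.nonneg x p) (by have := h.nonneg p y; grind)
  have : d p q = 0 := by rw [h.bt_dist hp' (seg_bt hm hS hq), hq']; simp
  rw [h.eq_of this]; exact hq

theorem Tr.isSeg (h : Tr d) (x y : X) : IsSegment d x y {p | d x p + d p y = d x y} := by
  refine seg_of h.metric ?_ ?_ ?_ ?_ ?_
  · simp [h.self]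
  · simp [h.self]
  · intro t h0 h1
    obtain ⟨p, hp, hp'⟩ := h.ex_pt x y t h0 h1
    exact ⟨p, hp', hp⟩
  · intro p hp
    have hp' : d x p + d p y = d x y := hp
    have := h.nonneg p y
    grind
  · intro p hp q hq
    exact h.bt_dist hp hq

theorem Tr.isLTree (h : Tr d) (hne : Nonempty X) : IsLTree d := by
  refine ⟨h.metric, hne, fun x y => ⟨_, h.isSeg x y⟩, ?_, ?_⟩
  · intro x y z S S' hS hS'
    obtain ⟨m, a1, a2, a3⟩ := h.med x y z
    refine ⟨x, m, ?_⟩
    have : S ∩ S' = {p | d x p + d p m = d x m} := by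
      rw [h.seg_eq hS, h.seg_eq hS']
      ext p
      simp only [Set.mem_inter_iff, Set.mem_setOf_eq]
      constructor
      · rintro ⟨b1, b2⟩
        have := h.bt_dist b1 a1
        have := h.tri y p z
        have := h.symm y p
        have := h.symm y m
        grind
      · intro b
        have := h.tri x p y
        have := h.tri x p z
        have := h.tri p m y
        have := h.tri p m z
        grind
    rw [this]; exact h.isSeg x m
  · intro x y z S S' hS hS' hx
    obtain ⟨m, a1, a2, a3⟩ := h.med x y z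
    have hm : m ∈ S ∩ S' := by
      rw [h.seg_eq hS, h.seg_eq hS']; exact ⟨a1, a2⟩
    rw [hx] at hm
    have hm' : m = x := hm
    subst hm'
    refine ⟨y, z, ?_⟩
    have : S ∪ S' = {p | d y p + d p z = d y z} := by
      rw [h.seg_eq hS, h.seg_eq hS']
      ext p
      simp only [Set.mem_union, Set.mem_setOf_eq]
      have := h.symm y p
      have := h.symm y m
      have := h.symm p m
      have := h.tri y p z
      have := h.tri y m p
      have := h.tri p m z
      constructor
      · grind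
      · intro b
        have := h.bt_dist b a3
        grind
    rw [this]; exact h.isSeg y z

end fromtree

end Pool.Agent.Work.MP_904812_al
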